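import Pool.Agent.P.MP_7ede32_ag.Full.StA

/-!
An element that lies, with its product by `x`, in all valuation rings at which the total
derivative of a local coordinate is regular.
-/

open scoped WithZero IntermediateField Polynomial
open WithZero

noncomputable section

namespace Pool.Agent.P.MP_7ede32_ag.Full

namespace AlgY

/-- the derivation `δ + t d` -/
def comb {F : Type} [Field F] (δ d : Der F) (t : F) : Der F where
  D z := δ.D z + t * d.D z
  D_add x y := by rw [δ.D_add, d.D_add]; ring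
  D_mul x y := by rw [δ.D_mul, d.D_mul]; ring

lemma comb_D {F : Type} [Field F] (δ d : Der F) (t z : F) :
    (comb δ d t).D z = δ.D z + t * d.D z := rfl

lemma comb_pres {k F : Type} [Field k] [Field F] [Algebra k F] {δ d : Der F} {x : F}
    (hd : Std k d x) (hδ : Pres k δ) (t : F) : Pres k (comb δ d t) := fun c => by
  obtain ⟨c', h⟩ := hδ c
  exact ⟨c', by rw [comb_D, hd.1, h, mul_zero, add_zero]⟩

/-- values of a polynomial with coefficients in a valuation ring -/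
lemma eval_mem {F Ω : Type} [Field F] [Field Ω] (j : F →+* Ω) (O : ValuationSubring Ω) (η : F[X])
    (u : F) {s : Ω} (hs : s ∈ O) (h : ∀ i, j (u * η.coeff i) ∈ O) : j u * η.eval₂ j s ∈ O := by
  rw [Polynomial.eval₂_eq_sum_range, Finset.mul_sum]
  refine sum_mem fun i _ => ?_
  rw [← mul_assoc, ← map_mul]
  exact mul_mem (h i) (pow_mem hs i)

/-- a function that is regular, with its product by `x`, outside one place -/
lemma exists_fun {k F : Type} [Field k] [Field F] [Algebra k F] (𝒞 : FC k F) {x : F} (hx : x ≠ 0)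
    (P₀ : 𝒞.Pl) : ∃ Y : F, Y ≠ 0 ∧ ∀ P, P ≠ P₀ → 𝒞.v P Y ≤ 1 ∧ 𝒞.v P (x * Y) ≤ 1 := by
  classical
  let D : 𝒞.Pl →₀ ℤ := MP_68ca4e_ag.M.ff2Dv 𝒞.fin x ⊔ 0
  let E : 𝒞.Pl →₀ ℤ := Finsupp.single P₀ (D.degree + 𝒞.g) - D
  have h1 := 𝒞.toCurve.riemann' E
  have h2 : E.degree = 𝒞.g := by
    simp only [E, map_sub, Finsupp.degree_single]
    ring
  have h3 : 𝒞.toCurve.L E ≠ ⊥ := fun h => by
    rw [h, finrank_bot, h2] at h1
    simp at h1
  obtain ⟨Y, hY, h0⟩ := Submodule.exists_mem_ne_zero_of_ne_bot h3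
  refine ⟨Y, h0, fun P hP => ?_⟩
  have h4 := 𝒞.toCurve.mem_L.1 hY P
  have h5 : E P = -max (log (𝒞.v P x)) 0 := by
    simp only [E, D, Finsupp.sub_apply, Finsupp.single_eq_of_ne hP, Finsupp.sup_apply,
      MP_68ca4e_ag.M.ff2Dv_apply, Finsupp.zero_apply, zero_sub]
  rw [h5] at h4
  have h6 : 𝒞.v P x = exp (log (𝒞.v P x)) := (exp_log ((𝒞.v P).ne_zero_iff.2 hx)).symm
  refine ⟨h4.trans ?_, ?_⟩
  · rw [← exp_zero, exp_le_exp]
    omega
  · rw [map_mul, h6]
    refine (mul_le_mul' le_rfl h4).trans ?_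
    rw [← exp_add, ← exp_zero, exp_le_exp]
    omega

end AlgY

open AlgY

theorem sAlgY (h1 : SLoc) (h2 : SSym) (h3 : SInvP) (h4 : SFi) : SAlgY := by
  intro k F Ω _ _ _ _ _ _ j dΩ d δ x a μ hF hd hδ hδx hch ha hμ hreg halt hfi
  obtain ⟨𝒞⟩ := exists_fc hF
  have hV := 𝒞.regV hreg hd
  obtain ⟨l1, l2⟩ := h1 k F 𝒞
  obtain ⟨-, -, l3, -⟩ := l2 d x hd
  have hx : x ≠ 0 := fun h => by
    have := hd.2
    rw [h, d.D_zero] at this
    exact zero_ne_one this
  have key : ∀ O : ValuationSubring Ω, (∀ c, j (algebraMap k F c) ∈ O) → ∀ y,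
      j y ∈ O → dΩ.D (j y) ∈ O → d.D y ≠ 0 → (∀ z, j z ∈ O → j (d.D z / d.D y) ∈ O) →
      (∀ z, j z ∈ O → dΩ.D (j z) ∈ O) ∧
        ((∀ z, j z ∈ O) ∨ ∃ P, ∀ z, 𝒞.v P z ≤ 1 ↔ j z ∈ O) := by
    intro O hc y hy hy' hdy hz
    have alt : (∀ z, j z ∈ O) ∨ ∃ P, ∀ z, 𝒞.v P z ≤ 1 ↔ j z ∈ O := by
      by_cases h : O.comap j = ⊤
      · exact Or.inl fun z => ValuationSubring.mem_comap.1 (h ▸ ValuationSubring.mem_top z)
      · obtain ⟨P, hP⟩ := 𝒞.all _ h fun c => ValuationSubring.mem_comap.2 (hc c)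
        exact Or.inr ⟨P, fun z => by
          rw [← Valuation.mem_valuationSubring_iff, hP, ValuationSubring.mem_comap]⟩
    refine ⟨fun z hzO => ?_, alt⟩
    have e : dΩ.D (j z) = j ((comb δ d (-(δ.D y / d.D y))).D z) +
        dΩ.D (j y) * j (d.D z / d.D y) := by
      have : j (d.D y) ≠ 0 := (map_ne_zero j).2 hdy
      rw [comb_D, hch z, hch y]
      simp only [map_add, map_mul, map_neg, map_div₀]
      field_simp
      ring
    rw [e]
    refine add_mem ?_ (mul_mem hy' (hz z hzO))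
    rcases alt with h | ⟨P, hP⟩
    · exact h _
    · have hco : Coord d (𝒞.v P) y := ⟨(hP y).2 hy, hdy, fun u hu => by
        have := (hP _).2 (hz u ((hP u).1 hu))
        rwa [map_div₀, div_le_one₀ (zero_lt_iff.2 ((𝒞.v P).ne_zero_iff.2 hdy))] at this⟩
      obtain ⟨c, hc'⟩ := l3 P y hco
      have hp := comb_pres hd hδ (-(δ.D y / d.D y))
      refine (hP _).1 (l1 _ P _ hp hc' ?_ z ((hP z).2 hzO))
      obtain ⟨c', h'⟩ := hp c
      have : (comb δ d (-(δ.D y / d.D y))).D y = 0 := by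
        rw [comb_D]; field_simp; ring
      rw [Der.D_sub, this, h', zero_sub, Valuation.map_neg]
      exact 𝒞.const P c'
  rcases halt with htr | ⟨t, ht⟩
  · obtain ⟨η, hη, H⟩ := h2 k F 𝒞 d δ x a μ hd hδx ha hμ hV
    refine ⟨η.eval₂ j (dΩ.D (j x)), fun h => hη (htr η h), fun O hc y hy hy' hdy hz => ?_⟩
    obtain ⟨k1, h | ⟨P, hP⟩⟩ := key O hc y hy hy' hdy hz
    · exact ⟨by simpa using eval_mem j O η 1 (k1 x (h x)) fun _ => h _,
        eval_mem j O η x (k1 x (h x)) fun _ => h _⟩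
    · obtain ⟨y₀, a1, a2, a3⟩ := H P
      have e : (η.comp (Polynomial.C (d.D y₀)⁻¹ * (Polynomial.X - Polynomial.C (δ.D y₀)))).eval₂ j
          (dΩ.D (j y₀)) = η.eval₂ j (dΩ.D (j x)) := by
        have : j (d.D y₀) ≠ 0 := (map_ne_zero j).2 a2
        rw [Polynomial.eval₂_comp, Polynomial.eval₂_mul, Polynomial.eval₂_sub, Polynomial.eval₂_C,
          Polynomial.eval₂_C, Polynomial.eval₂_X, hch y₀, map_inv₀]
        congr 1
        field_simp
        ring
      have hs := k1 y₀ ((hP y₀).1 a1)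
      rw [← e]
      exact ⟨by simpa using eval_mem j O _ 1 hs fun i => (hP _).1 (by simpa using (a3 i).1),
        eval_mem j O _ x hs fun i => (hP _).1 (a3 i).2⟩
  · have hD : ∀ z, dΩ.D (j z) = j ((comb δ d t).D z) := fun z => by
      rw [hch z, ht, comb_D, map_add, map_mul]
    have hp := comb_pres hd hδ t
    have : ¬ ∀ P u, 𝒞.v P u ≤ 1 → 𝒞.v P ((comb δ d t).D u) ≤ 1 := fun h => by
      obtain ⟨P₀, hP₀⟩ := h3 k F 𝒞 d _ x a μ hd hp ha hμ hV h
      obtain ⟨u, hu, hu'⟩ := h4 k F 𝒞 d _ x a μ hd hp ha hμ hV h P₀ hP₀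
      obtain ⟨c, hc⟩ := hfi u (by rw [hD, hu, map_zero])
      exact hu' c hc
    obtain ⟨P₀, hP₀⟩ := not_forall.1 this
    obtain ⟨Y, hY, H⟩ := exists_fun 𝒞 hx P₀
    refine ⟨j Y, (map_ne_zero j).2 hY, fun O hc y hy hy' hdy hz => ?_⟩
    rw [← map_mul]
    obtain ⟨k1, h | ⟨P, hP⟩⟩ := key O hc y hy hy' hdy hz
    · exact ⟨h _, h _⟩
    · have hne : P ≠ P₀ := by
        rintro rfl
        exact hP₀ fun u hu => (hP _).2 (hD u ▸ k1 u ((hP u).1 hu))
      exact ⟨(hP _).1 (H P hne).1, (hP _).1 (H P hne).2⟩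

end Pool.Agent.P.MP_7ede32_ag.Full
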