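import Pool.Agent.P.MP_7ede32_ag.Full.StA

/-! The certificate exists. -/

open scoped IntermediateField Polynomial

noncomputable section

namespace Pool.Agent.P.MP_7ede32_ag.Full

namespace CertP

variable {M Ω : Type} [Field M] [CharZero M] [Field Ω] [CharZero Ω] [Algebra M Ω]

theorem acl_img {S : Set M} {u : M} :
    algebraMap M Ω u ∈ acl (algebraMap M Ω '' S) ↔ u ∈ acl S := by
  constructor
  · intro h
    have h1 : IsAlgebraic (acl S) (algebraMap M Ω u) := isAlgebraic_of_mem_acl (acl S) (by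
      rintro _ ⟨y, hy, rfl⟩
      exact ⟨⟨y, subset_acl S hy⟩, rfl⟩) h
    rw [isAlgebraic_algebraMap_iff (algebraMap M Ω).injective] at h1
    exact mem_acl_of_isAlgebraic Subtype.val_injective (fun r => r.2) h1
  · intro h
    have h1 : IsAlgebraic ((acl (algebraMap M Ω '' S)).comap (algebraMap M Ω)) u :=
      isAlgebraic_of_mem_acl _ (fun y hy => ⟨⟨y, subset_acl _ ⟨y, hy, rfl⟩⟩, rfl⟩) h
    exact mem_acl_of_isAlgebraic (RingHom.injective _) (fun r => r.2) (h1.algebraMap (A := Ω))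

omit [CharZero M] in
theorem const_alg [Algebra.IsAlgebraic M Ω] {d : Der M} {D : Der Ω}
    (h : ∀ u, D.D (algebraMap M Ω u) = algebraMap M Ω (d.D u)) {u : Ω} (hu : D.D u = 0) :
    u ∈ acl (algebraMap M Ω '' {c | d.D c = 0}) := by
  have hi : IsIntegral M u := Algebra.IsIntegral.isIntegral u
  set p := minpoly M u with hp
  set q : M[X] := ∑ i ∈ p.support, Polynomial.monomial i (d.D (p.coeff i)) with hq
  have qc : ∀ i, q.coeff i = d.D (p.coeff i) := fun i => by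
    rw [hq, Polynomial.finsetSum_coeff]
    simp only [Polynomial.coeff_monomial, Finset.sum_ite_eq']
    split_ifs with e
    · rfl
    · rw [Polynomial.notMem_support_iff.1 e, d.D_zero]
  have q0 : q = 0 := by
    by_contra hq0
    have e := D.D_eval (p.map (algebraMap M Ω)) u
    rw [Polynomial.eval_map_algebraMap, minpoly.aeval, D.D_zero, hu, mul_zero, add_zero,
      Polynomial.support_map_of_injective _ (algebraMap M Ω).injective] at e
    refine (minpoly.degree_le_of_ne_zero M u hq0 ?_).not_gt ?_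
    · rw [hq, map_sum, e]
      simp [Polynomial.aeval_monomial, h]
    · rw [Polynomial.degree_eq_natDegree (minpoly.ne_zero hi), Polynomial.degree_lt_iff_coeff_zero]
      intro m hm
      rw [qc]
      rcases hm.eq_or_lt with rfl | hm
      · rw [(minpoly.monic hi).coeff_natDegree, d.D_one]
      · rw [Polynomial.coeff_eq_zero_of_natDegree_lt hm, d.D_zero]
  have hl : p ∈ Polynomial.lifts (algebraMap d.const M) := by
    rw [Polynomial.lifts_iff_coeff_lifts]
    exact fun n => ⟨⟨p.coeff n, by rw [Der.mem_const, ← qc, q0, Polynomial.coeff_zero]⟩, rfl⟩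
  obtain ⟨r, hr⟩ := (Polynomial.mem_lifts _).mp hl
  refine mem_acl_of_isAlgebraic (R := d.const) (RingHom.injective _)
    (fun c => subset_acl _ (Set.mem_image_of_mem (algebraMap M Ω) c.2)) ⟨r, ?_, ?_⟩
  · rintro rfl
    exact minpoly.ne_zero hi (by rw [← hp, ← hr, Polynomial.map_zero])
  · rw [← Polynomial.aeval_map_algebraMap M, hr, minpoly.aeval]

theorem adjoin_acl (κ : Subfield Ω) {Γ T : Set Ω} (h0 : (κ : Set Ω) ⊆ acl T) (h : Γ ⊆ acl T)
    {u : Ω} (hu : u ∈ IntermediateField.adjoin κ Γ) : u ∈ acl T := by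
  have : IntermediateField.adjoin κ Γ ≤ (acl T).toIntermediateField fun e => h0 e.2 := by
    rw [IntermediateField.adjoin_le_iff]; exact h
  exact this hu

theorem tr_alg (κ : Subfield Ω) (F : IntermediateField κ Ω) (x : F) (h : (x : Ω) ∉ acl (κ : Set Ω))
    (hF : ∀ u ∈ F, u ∈ acl (insert (x : Ω) (κ : Set Ω))) :
    Transcendental κ x ∧ Algebra.IsAlgebraic κ⟮x⟯ F := by
  refine ⟨fun halg => h (mem_acl_of_isAlgebraic (algebraMap κ Ω).injective
    (fun r => subset_acl _ r.2) (halg.algebraMap (A := Ω))), ⟨fun u => ?_⟩⟩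
  rw [← isAlgebraic_algebraMap_iff (algebraMap F Ω).injective]
  refine isAlgebraic_of_mem_acl _ ?_ (hF u u.2)
  rintro y (rfl | hy)
  · exact ⟨IntermediateField.AdjoinSimple.gen κ x, rfl⟩
  · exact ⟨algebraMap κ _ ⟨y, hy⟩, rfl⟩

theorem map_sg {K L : Type} [Field K] [Field L] (f : K →+* L) (b : Bool) (y : K) :
    f (sg b y) = sg b (f y) := by cases b <;> simp [sg]

theorem map_sg' {K L : Type} [Field K] [Field L] (f : K →+* L) (b : Bool) (y y' : K) :
    f (sg' b y y') = sg' b (f y) (f y') := by cases b <;> simp [sg']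

end CertP

open CertP in
theorem sCert (h1 : SChart) (h2 : SRegUp) (h3 : SNorm) (h4 : SDer) (h5 : SUniq) : SCert := by
  classical
  intro M Ω _ _ _ _ _ _ _ d G Γ x a μ κ F x' a' hκ hF hx' ha' hG hxΓ hxG hΓ ha hμ hR hxc
  obtain ⟨D, hD⟩ := d.exists_extend (L := Ω)
  obtain ⟨Γ', g1, g2, g3⟩ : ∃ Γ' : Finset M, Γ ⊆ Γ' ∧ (∀ y ∈ Γ', y ∈ acl (insert x G)) ∧
      (d.D x ∈ Γ' ∨ d.D x ∉ acl (insert x G)) := by
    by_cases e : d.D x ∈ acl (insert x G)
    · exact ⟨insert (d.D x) Γ, Finset.subset_insert _ _, Finset.forall_mem_insert _ _ _ |>.2 ⟨e, hΓ⟩,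
        Or.inl (Finset.mem_insert_self _ _)⟩
    · exact ⟨Γ, subset_rfl, hΓ, Or.inr e⟩
  obtain ⟨T, hT⟩ : ∃ T : Set Ω, T = algebraMap M Ω '' insert x G := ⟨_, rfl⟩
  have aT : ∀ u, algebraMap M Ω u ∈ acl T ↔ u ∈ acl (insert x G) := fun u => by
    rw [hT]; exact acl_img
  have κT : (κ : Set Ω) ⊆ acl T := by
    rw [hκ, hT]; exact acl_mono (Set.image_mono (Set.subset_insert _ _))
  have Gκ : algebraMap M Ω '' G ⊆ κ := by rw [hκ]; exact subset_acl _
  have Tκ : acl T ≤ acl (insert (algebraMap M Ω x) (κ : Set Ω)) := acl_mono (by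
    rw [hT, Set.image_insert_eq]; exact Set.insert_subset_insert Gκ)
  have ΓT : ((Γ'.image (algebraMap M Ω) : Finset Ω) : Set Ω) ⊆ acl T := by
    rw [Finset.coe_image]
    rintro _ ⟨y, hy, rfl⟩
    exact (aT y).2 (g2 y hy)
  have mκ : ∀ u, u ∈ κ ↔ u ∈ acl (algebraMap M Ω '' G) := fun u => by rw [hκ]
  have aG : ∀ u, algebraMap M Ω u ∈ acl (algebraMap M Ω '' G) ↔ u ∈ acl G := fun u => acl_img
  have xκ : algebraMap M Ω x ∉ acl (κ : Set Ω) := fun e =>
    hxG ((aG x).1 (acl_le (by rw [hκ]) e))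
  obtain ⟨F', hF'⟩ : ∃ F', F' =
    IntermediateField.adjoin κ ((Γ'.image (algebraMap M Ω) : Finset Ω) : Set Ω) := ⟨_, rfl⟩
  have mF : ∀ y ∈ Γ', algebraMap M Ω y ∈ F' := fun y hy => by
    rw [hF']
    exact IntermediateField.subset_adjoin _ _ (Finset.mem_coe.2 (Finset.mem_image_of_mem _ hy))
  have le : F ≤ F' := by
    rw [hF, IntermediateField.adjoin_le_iff]
    rintro _ ⟨y, hy, rfl⟩
    exact mF y (g1 hy)
  have FT : ∀ u ∈ F', u ∈ acl T := fun u hu => adjoin_acl κ κT ΓT (hF' ▸ hu)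
  have cf : FF.IsCurveField κ F' := by
    rw [hF']
    exact isCurveField_adjoin κ _ (Finset.mem_image_of_mem _ (g1 hxΓ)) xκ fun u hu => Tκ (ΓT hu)
  obtain ⟨t1, a1⟩ := tr_alg κ F x' (by rw [hx']; exact xκ) fun u hu => by
    rw [hx']; exact Tκ (FT u (le hu))
  obtain ⟨X, A, hX', hA, t2, a2, R'⟩ : ∃ X A : F', algebraMap F' Ω X = algebraMap M Ω x ∧
      algebraMap F' Ω A = algebraMap M Ω a ∧ Transcendental κ X ∧ Algebra.IsAlgebraic κ⟮X⟯ F' ∧
      Reg κ X A μ := by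
    have hX : ((IntermediateField.inclusion le x' : F') : Ω) = algebraMap M Ω x := hx'
    obtain ⟨t2, a2⟩ := tr_alg κ F' (IntermediateField.inclusion le x') (by rw [hX]; exact xκ)
      fun u hu => by rw [hX]; exact Tκ (FT u hu)
    exact ⟨IntermediateField.inclusion le x', IntermediateField.inclusion le a', hX, ha', t2, a2,
      h2 κ F F' (IntermediateField.inclusion le) x' a' μ t1 a1 a2 hR⟩
  obtain ⟨d₀, hd₀⟩ := D.exists_restrict κ.subtype fun u => ⟨⟨D.D u, by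
    refine (mκ _).2 (D.D_mem_acl ?_ ((mκ _).1 u.2))
    rintro _ ⟨g, hg, rfl⟩
    rw [hD]
    exact (aG _).2 (hG g hg)⟩, rfl⟩
  obtain ⟨e, e1, e2⟩ := h4 κ F' X t2 a2 ⟨fun _ => 0, by simp, by simp⟩ 1
  obtain ⟨δ, δ1, δ2⟩ := h4 κ F' X t2 a2 d₀ 0
  have std : Std κ e X := ⟨fun c => by rw [e1, map_zero], e2⟩
  have chain : ∀ z, D.D (algebraMap F' Ω z) =
      algebraMap F' Ω (δ.D z) + D.D (algebraMap F' Ω X) * algebraMap F' Ω (e.D z) := fun z => by
    have := h5 κ F' Ω (algebraMap F' Ω) (fun z => D.D (algebraMap F' Ω z) -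
      algebraMap F' Ω (δ.D z) - D.D (algebraMap F' Ω X) * algebraMap F' Ω (e.D z)) X a2
      (fun a b => by simp only [map_add, Der.D_add]; ring)
      (fun a b => by simp only [map_add, map_mul, Der.D_mul]; ring)
      (fun c => by
        rw [std.1, δ1, map_zero, mul_zero, sub_zero, sub_eq_zero]
        exact (hd₀ c).symm)
      (by rw [e2, δ2, map_zero, map_one, mul_one, sub_zero, sub_self]) z
    linear_combination this
  have alt : (∀ η : F'[X], η.eval₂ (algebraMap F' Ω) (D.D (algebraMap F' Ω X)) = 0 → η = 0) ∨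
      ∃ t, D.D (algebraMap F' Ω X) = algebraMap F' Ω t := by
    rw [hX', hD]
    refine g3.symm.imp (fun h η hη => by_contra fun η0 => h ((aT _).1 ?_))
      fun h => ⟨⟨_, mF _ h⟩, rfl⟩
    exact mem_acl_of_isAlgebraic (algebraMap F' Ω).injective (fun r => FT r r.2) ⟨η, η0, hη⟩
  have fi : ∀ u, D.D (algebraMap F' Ω u) = 0 → ∃ c, u = algebraMap κ F' c := fun u hu => by
    by_cases e : (u : Ω) ∈ κ
    · exact ⟨⟨u, e⟩, rfl⟩
    have h6 := FT u u.2
    rw [hT, Set.image_insert_eq] at h6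
    rw [mκ] at e
    refine absurd ((acl_img (Ω := Ω)).1 (acl_le ?_ (acl_exchange h6 e))) hxc
    rintro y (rfl | hy)
    · exact acl_mono (Set.image_mono Set.subset_union_right) (const_alg hD hu)
    · exact subset_acl _ (Set.image_mono Set.subset_union_left hy)
  obtain ⟨K₀, hK₀⟩ : ∃ K₀ : Subfield κ, ∀ c, c ∈ K₀ ↔
      (c : Ω) ∈ Subfield.closure (algebraMap M Ω '' G) :=
    ⟨(Subfield.closure (algebraMap M Ω '' G)).comap κ.subtype, fun _ => Iff.rfl⟩
  obtain ⟨F₁, hF₁⟩ : ∃ F₁ : Subfield F', ∀ c, c ∈ F₁ ↔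
      algebraMap F' Ω c ∈ Subfield.closure (algebraMap M Ω '' (G ∪ Γ')) :=
    ⟨(Subfield.closure (algebraMap M Ω '' (G ∪ Γ'))).comap (algebraMap F' Ω), fun _ => Iff.rfl⟩
  have aK : Algebra.IsAlgebraic K₀ κ := ⟨fun c => by
    rw [← isAlgebraic_algebraMap_iff (algebraMap κ Ω).injective]
    refine isAlgebraic_of_mem_acl (S := algebraMap M Ω '' G) _
      (fun y hy => ⟨⟨⟨y, Gκ hy⟩, (hK₀ _).2 (Subfield.subset_closure hy)⟩, rfl⟩) ?_
    exact (mκ _).1 c.2⟩
  have K1 : ∀ c ∈ K₀, algebraMap κ F' c ∈ F₁ := fun c hc =>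
    (hF₁ _).2 (Subfield.closure_mono (Set.image_mono Set.subset_union_left) ((hK₀ c).1 hc))
  have X1 : X ∈ F₁ := (hF₁ _).2 (Subfield.subset_closure ⟨x, Or.inr (g1 hxΓ), hX'.symm⟩)
  have st : ∀ u ∈ F₁, e.D u ∈ F₁ := fun u hu => by
    refine e.D_mem_of_algebraic (e.stab F₁) F₁ (fun _ h => h.1) (fun _ h => h.2) ?_ hu
    rw [← isAlgebraic_algebraMap_iff (algebraMap F' Ω).injective]
    refine isAlgebraic_of_mem_acl _ ?_ (FT u u.2)
    rw [hT]
    rintro _ ⟨y, rfl | hy, rfl⟩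
    · exact ⟨⟨X, X1, by rw [e2]; exact F₁.one_mem⟩, hX'⟩
    · exact ⟨⟨algebraMap κ F' ⟨_, Gκ ⟨y, hy, rfl⟩⟩, K1 _ ((hK₀ _).2
        (Subfield.subset_closure ⟨y, hy, rfl⟩)), by rw [std.1]; exact F₁.zero_mem⟩, rfl⟩
  have gen : Subfield.closure (Set.range (algebraMap κ F') ∪ F₁) = ⊤ := by
    refine eq_top_iff.2 fun u _ => ?_
    have : F' ≤ ((Subfield.closure (Set.range (algebraMap κ F') ∪ F₁)).map
        (algebraMap F' Ω)).toIntermediateField fun c =>
          ⟨algebraMap κ F' c, Subfield.subset_closure (Or.inl ⟨c, rfl⟩), rfl⟩ := by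
      conv_lhs => rw [hF']
      rw [IntermediateField.adjoin_le_iff, Finset.coe_image]
      rintro _ ⟨y, hy, rfl⟩
      exact ⟨⟨_, mF y hy⟩, Subfield.subset_closure (Or.inr
        ((hF₁ _).2 (Subfield.subset_closure ⟨y, Or.inr hy, rfl⟩))), rfl⟩
    obtain ⟨v, hv, e⟩ := this u.2
    exact (Subtype.ext e : v = u) ▸ hv
  have : IsAlgClosed κ := by rw [hκ]; exact isAlgClosed_acl _
  obtain ⟨Y, s, Y0, xs, hs, hY⟩ := h1 κ F' Ω (algebraMap F' Ω) D e δ X A
    μ K₀ F₁ cf std (fun c => ⟨_, δ1 c⟩) δ2 chain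
    (fun h => ha ((algebraMap M Ω).injective (by rw [← hA, h, map_zero, map_zero])))
    hμ R' alt fi aK K1 X1 st gen
  obtain ⟨n, Y₀, n0, Y1, hN⟩ := h3 M Ω x Y Y0
  have pre : ∀ u ∈ F₁, ∃ y, algebraMap M Ω y = algebraMap F' Ω u := fun u hu => by
    have : Subfield.closure (algebraMap M Ω '' (G ∪ Γ')) ≤ (algebraMap M Ω).fieldRange :=
      Subfield.closure_le.2 (Set.image_subset_range _ _)
    exact this ((hF₁ u).1 hu)
  choose y hy using fun β : s => pre β (hs β β.2).1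
  choose y' hy' using fun β : s => pre _ (st β (hs β β.2).1)
  refine ⟨n, Y₀, s, inferInstance, ⟨⟨X, xs⟩⟩, y, y', n0, Y1, fun β => ⟨fun h => ?_, fun h => ?_,
    (aT _).1 ?_⟩, fun ε α => hN _ fun O hO => ?_⟩
  · exact (hs β β.2).2.1 ((algebraMap F' Ω).injective (by rw [← hy, h, map_zero, map_zero]))
  · exact (hs β β.2).2.2 ((algebraMap F' Ω).injective (by rw [← hy', h, map_zero, map_zero]))
  · rw [hy]; exact FT _ (β : F').2
  · rw [← hX']
    refine hY ε α O (fun c hc => ?_) (fun β => ?_) (fun β => ?_) ?_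
    · have hc' := (hK₀ c).1 hc
      rw [← RingHom.map_field_closure] at hc'
      obtain ⟨u, hu, e⟩ := hc'
      exact (e ▸ hO u (Or.inl hu) : (c : Ω) ∈ O)
    · rw [map_sg, ← hy, ← map_sg]
      exact hO _ (Or.inr (Or.inl (Or.inl ⟨β, rfl⟩)))
    · rw [map_div₀, map_sg', map_sg', ← hy, ← hy, ← hy', ← hy', ← map_sg', ← map_sg', ← map_div₀]
      exact hO _ (Or.inr (Or.inl (Or.inr ⟨β, rfl⟩)))
    · rw [map_sg, ← hy, ← map_sg, hD]
      exact hO _ (Or.inr (Or.inr rfl))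

end Pool.Agent.P.MP_7ede32_ag.Full
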