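import Pool.Agent.P.MP_7ede32_ag.Full.StA

/-!
The integral element on the charts given by finitely many local coordinates.
-/

open scoped WithZero IntermediateField Polynomial
open WithZero

noncomputable section

namespace Pool.Agent.P.MP_7ede32_ag.Full

namespace Chart

lemma mem_of_alg {k : Type} [Field k] (V : ValuationSubring k) (K₀ : Subfield k)
    (ha : Algebra.IsAlgebraic K₀ k) (h : ∀ c ∈ K₀, c ∈ V) (c : k) : c ∈ V := by
  have hc : IsIntegral K₀ c := (ha.isAlgebraic c).isIntegral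
  let f : K₀ →+* V := K₀.subtype.codRestrict V fun x => h x x.2
  have h1 : IsIntegral V c := hc.map_of_comp_eq f (RingHom.id k) rfl
  obtain ⟨y, rfl⟩ := IsIntegrallyClosed.isIntegral_iff.1 h1
  exact y.2

lemma D_sg {F : Type} [Field F] (d : Der F) (b : Bool) (y : F) :
    d.D (sg b y) = sg' b y (d.D y) := by
  cases b
  · exact d.D_inv y
  · rfl

lemma sg'_ne {F : Type} [Field F] (b : Bool) {y y' : F} (hy : y ≠ 0) (hy' : y' ≠ 0) :
    sg' b y y' ≠ 0 := by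
  cases b
  · exact div_ne_zero (neg_ne_zero.2 hy') (pow_ne_zero _ hy)
  · exact hy'

lemma val_sg' {F : Type} [Field F] (w : Valuation F ℤᵐ⁰) (b : Bool) {y : F} (y' : F) (hy : y ≠ 0)
    (h1 : w y ≤ 1) (h2 : w (sg b y) ≤ 1) : w (sg' b y y') = w y' := by
  cases b
  · have h3 : w y⁻¹ ≤ 1 := h2
    have h4 : w y = 1 := by
      refine le_antisymm h1 ?_
      rwa [map_inv₀, inv_le_one₀ (zero_lt_iff.2 (w.ne_zero_iff.2 hy))] at h3
    change w (-y' / y ^ 2) = w y'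
    rw [map_div₀, map_pow, h4, one_pow, div_one, Valuation.map_neg]
  · rfl

end Chart

open Chart in
theorem sChart (h1 : SAlgY) (h2 : SDesc) : SChart := by
  intro k F Ω _ _ _ _ _ _ j dΩ d δ x a μ K₀ F₁ hcf hstd hpres hδx hch ha hμ hreg halt hfi halg
    hK₀ hx hd hcl
  obtain ⟨𝒞⟩ := exists_fc hcf
  obtain ⟨Y, hY, H⟩ := h1 k F Ω j dΩ d δ x a μ hcf hstd hpres hδx hch ha hμ hreg halt hfi
  obtain ⟨s, hxs, hs, hP⟩ := h2 k F 𝒞 d x K₀ F₁ hstd halg hK₀ hx hd hcl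
  have h0 : ∀ y ∈ s, y ≠ 0 := fun y hy e => (hs y hy).2 (by rw [e, d.D_zero])
  refine ⟨Y, s, hY, hxs, fun y hy => ⟨(hs y hy).1, h0 y hy, (hs y hy).2⟩, ?_⟩
  intro ε α O hc hsg hq hD
  have hconst : ∀ c, j (algebraMap k F c) ∈ O :=
    mem_of_alg (O.comap (j.comp (algebraMap k F))) K₀ halg hc
  refine H O hconst (sg (ε α) (α : F)) (hsg α) hD ?_ fun z hz => ?_
  · rw [D_sg]
    exact sg'_ne _ (h0 _ α.2) (hs _ α.2).2
  by_cases htop : O.comap j = ⊤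
  · change _ ∈ O.comap j
    rw [htop]
    exact ValuationSubring.mem_top _
  obtain ⟨P, hPO⟩ := 𝒞.all (O.comap j) htop hconst
  have hm : ∀ u, j u ∈ O ↔ 𝒞.v P u ≤ 1 := fun u => by
    rw [← Valuation.mem_valuationSubring_iff, hPO]; rfl
  obtain ⟨β, hβ, c1, c2, c3⟩ := hP P
  have e1 := val_sg' (𝒞.v P) (ε ⟨β, hβ⟩) (d.D β) (h0 β hβ) c1 ((hm _).1 (hsg ⟨β, hβ⟩))
  have e2 := (hm _).1 (hq ⟨β, hβ⟩)
  have hne := sg'_ne (ε α) (h0 _ α.2) (hs _ α.2).2
  have hpos := zero_lt_iff.2 ((𝒞.v P).ne_zero_iff.2 hne)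
  rw [map_div₀, div_le_one₀ hpos] at e2
  rw [hm, D_sg, map_div₀, div_le_one₀ hpos]
  exact (c3 z ((hm z).1 hz)).trans (e1.symm.le.trans e2)

end Pool.Agent.P.MP_7ede32_ag.Full
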