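import Pool.Agent.P.MP_7ede32_ag.Full.StA

/-!
A regular symmetric differential that vanishes on the poles of a function.
-/

open scoped WithZero IntermediateField Polynomial
open WithZero

noncomputable section

namespace Pool.Agent.P.MP_7ede32_ag.Full

open MP_68ca4e_ag.M (Curve IsPlace)

namespace Sym

/-- finitely many cuts -/
lemma cut (h : SCut) {k F V ι : Type} [Field k] [Field F] [Algebra k F] [AddCommGroup V]
    [Module k V] [FiniteDimensional k V] (w : ι → Valuation F ℤᵐ⁰) (hw : ∀ i, IsPlace k (w i))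
    (f : ι → V →ₗ[k] F) (n e : ι → ℤ) (hn : ∀ i, 0 ≤ n i)
    (hf : ∀ i u, w i (f i u) ≤ exp (e i)) (s : Finset ι) :
    ∃ W : Submodule k V, (Module.finrank k V : ℤ) ≤ Module.finrank k W + ∑ i ∈ s, n i ∧
      ∀ i ∈ s, ∀ u ∈ W, w i (f i u) ≤ exp (e i - n i) := by
  classical
  induction s using Finset.induction_on with
  | empty => exact ⟨⊤, by simp, by simp⟩
  | insert i s hi ih =>
    obtain ⟨W, h1, h2⟩ := ih
    obtain ⟨W', h3, h4, h5⟩ :=
      h k F V (w i) (hw i) (f i) (n i).toNat (e i) W inferInstance fun u _ => hf i u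
    refine ⟨W', ?_, fun j hj u hu => ?_⟩
    · rw [Finset.sum_insert hi]
      have := Int.toNat_of_nonneg (hn i)
      omega
    · rcases Finset.mem_insert.1 hj with rfl | hj
      · have := h5 u hu
        rwa [Int.toNat_of_nonneg (hn j)] at this
      · exact h2 j hj u (h3 hu)

/-- the coefficients of the powers of a linear polynomial -/
lemma coeff_pow {F : Type} [Field F] (w : Valuation F ℤᵐ⁰) {u b : F} {κ γ : ℤ}
    (hu : w u ≤ exp (-κ)) (hb : w b ≤ exp γ) (i j : ℕ) :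
    w (((Polynomial.C u * (Polynomial.X - Polynomial.C b)) ^ i).coeff j) ≤
      exp (-(i * κ) + (i - j) * γ) := by
  induction i generalizing j with
  | zero =>
    cases j with
    | zero => simp
    | succ j => simp [Polynomial.coeff_one]
  | succ i ih =>
    rw [pow_succ', mul_assoc, Polynomial.coeff_C_mul, sub_mul, Polynomial.coeff_sub,
      Polynomial.coeff_C_mul, map_mul]
    have h1 : w (b * ((Polynomial.C u * (Polynomial.X - Polynomial.C b)) ^ i).coeff j) ≤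
        exp (-(i * κ) + (i + 1 - j) * γ) := by
      rw [map_mul]
      refine (mul_le_mul' hb (ih j)).trans (le_of_eq ?_)
      rw [← exp_add]
      congr 1
      ring
    have h2 : w ((Polynomial.X * (Polynomial.C u * (Polynomial.X - Polynomial.C b)) ^ i).coeff j) ≤
        exp (-(i * κ) + (i + 1 - j) * γ) := by
      cases j with
      | zero => simp
      | succ j =>
        rw [Polynomial.coeff_X_mul]
        refine (ih j).trans (le_of_eq ?_)
        congr 1
        push_cast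
        ring
    refine (mul_le_mul' hu (w.map_sub_le h2 h1)).trans (le_of_eq ?_)
    rw [← exp_add]
    congr 1
    push_cast
    ring

lemma coeff_pow_zero {F : Type} [Field F] (u b : F) {i j : ℕ} (h : i < j) :
    ((Polynomial.C u * (Polynomial.X - Polynomial.C b)) ^ i).coeff j = 0 := by
  refine Polynomial.coeff_eq_zero_of_natDegree_lt (lt_of_le_of_lt ?_ h)
  refine Polynomial.natDegree_pow_le.trans ?_
  have h1 : (Polynomial.C u * (Polynomial.X - Polynomial.C b)).natDegree ≤ 1 :=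
    (Polynomial.natDegree_C_mul_le _ _).trans (Polynomial.natDegree_X_sub_C b).le
  simpa using Nat.mul_le_mul_left i h1

lemma degree_eq {ι : Type} (D : ι →₀ ℤ) {T : Finset ι} (h : D.support ⊆ T) :
    D.degree = ∑ P ∈ T, D P := by
  rw [Finsupp.degree_apply]
  exact Finset.sum_subset h fun P _ hP => Finsupp.notMem_support_iff.1 hP

lemma sum_fin (m : ℕ) : 2 * ∑ i : Fin (m + 1), ((i : ℕ) : ℤ) = m * (m + 1) := by
  induction m with
  | zero => simp
  | succ m ih =>
    rw [Fin.sum_univ_castSucc, mul_add]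
    simp only [Fin.val_castSucc, Fin.val_last]
    rw [ih]
    push_cast
    ring

/-- the dimension count -/
lemma main (h : SCut) {k F : Type} [Field k] [Field F] [Algebra k F] (𝒞 : FC k F)
    (κ γ e : 𝒞.Pl →₀ ℤ) (hκ : 1 ≤ κ.degree) (hγ : ∀ P, 0 ≤ γ P) (he : ∀ P, 0 ≤ e P)
    (u b : 𝒞.Pl → F) (hu : ∀ P, 𝒞.v P (u P) ≤ exp (-κ P)) (hb : ∀ P, 𝒞.v P (b P) ≤ exp (γ P)) :
    ∃ η : F[X], η ≠ 0 ∧ ∀ P j, 𝒞.v P ((η.comp (Polynomial.C (u P) *
      (Polynomial.X - Polynomial.C (b P)))).coeff j) ≤ exp (-e P) := by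
  classical
  have he0 : 0 ≤ e.degree := by
    rw [Finsupp.degree_apply]
    exact Finset.sum_nonneg fun P _ => he P
  obtain ⟨m, hm⟩ : ∃ m : ℕ, (m : ℤ) = 2 * (𝒞.g + e.degree) :=
    ⟨_, Int.toNat_of_nonneg (by positivity)⟩
  let E : Fin (m + 1) → 𝒞.Pl →₀ ℤ := fun i => ((i : ℕ) : ℤ) • κ + ((m : ℤ) - (i : ℕ)) • γ
  let q : 𝒞.Pl → F[X] := fun P => Polynomial.C (u P) * (Polynomial.X - Polynomial.C (b P))
  let f : Fin (m + 1) × 𝒞.Pl → (∀ i, 𝒞.toCurve.L (E i)) →ₗ[k] F := fun p =>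
    ∑ i : Fin (m + 1), (LinearMap.mulRight k ((q p.2 ^ (i : ℕ)).coeff p.1)) ∘ₗ
      (𝒞.toCurve.L (E i)).subtype ∘ₗ LinearMap.proj i
  have hf : ∀ p c, f p c = ∑ i : Fin (m + 1), (c i : F) * (q p.2 ^ (i : ℕ)).coeff p.1 := by
    intro p c
    simp [f, LinearMap.sum_apply]
  have hb1 : ∀ p c, 𝒞.v p.2 (f p c) ≤ exp (((m : ℤ) - (p.1 : ℕ)) * γ p.2) := by
    intro p c
    rw [hf]
    refine (𝒞.v p.2).map_sum_le fun i _ => ?_
    rw [map_mul]
    refine (mul_le_mul' (𝒞.toCurve.mem_L.1 (c i).2 p.2)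
      (coeff_pow (𝒞.v p.2) (hu p.2) (hb p.2) i p.1)).trans (le_of_eq ?_)
    rw [← exp_add]
    congr 1
    simp only [E, Finsupp.add_apply, Finsupp.smul_apply, smul_eq_mul]
    ring
  have hle : ∀ j : Fin (m + 1), (0 : ℤ) ≤ (m : ℤ) - (j : ℕ) := fun j => by
    have := j.2
    omega
  obtain ⟨W, h1, h2⟩ := cut h (fun p : Fin (m + 1) × 𝒞.Pl => 𝒞.v p.2) (fun p => 𝒞.isPlace p.2) f
    (fun p => ((m : ℤ) - (p.1 : ℕ)) * γ p.2 + e p.2) (fun p => ((m : ℤ) - (p.1 : ℕ)) * γ p.2)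
    (fun p => add_nonneg (mul_nonneg (hle p.1) (hγ p.2)) (he p.2)) hb1
    (Finset.univ ×ˢ (γ.support ∪ e.support))
  have h3 : ∑ p ∈ (Finset.univ : Finset (Fin (m + 1))) ×ˢ (γ.support ∪ e.support),
      (((m : ℤ) - (p.1 : ℕ)) * γ p.2 + e p.2) =
      ∑ j : Fin (m + 1), (((m : ℤ) - (j : ℕ)) * γ.degree + e.degree) := by
    rw [Finset.sum_product]
    refine Finset.sum_congr rfl fun j _ => ?_
    rw [degree_eq γ (T := γ.support ∪ e.support) Finset.subset_union_left,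
      degree_eq e (T := γ.support ∪ e.support) Finset.subset_union_right, Finset.mul_sum,
      ← Finset.sum_add_distrib]
  have h4 : ∑ i : Fin (m + 1), ((((m : ℤ) - (i : ℕ)) * γ.degree + e.degree) +
      (((i : ℕ) : ℤ) + (1 - 𝒞.g - e.degree))) ≤
      Module.finrank k (∀ i, 𝒞.toCurve.L (E i)) := by
    rw [Module.finrank_pi_fintype]
    push_cast
    refine Finset.sum_le_sum fun i _ => le_trans ?_ (𝒞.toCurve.riemann' (E i))
    simp only [E, map_add, map_zsmul, smul_eq_mul]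
    have : ((i : ℕ) : ℤ) * 1 ≤ ((i : ℕ) : ℤ) * κ.degree :=
      mul_le_mul_of_nonneg_left hκ (by positivity)
    linarith
  have h5 : 0 < Module.finrank k W := by
    rw [Finset.sum_add_distrib, Finset.sum_add_distrib (f := fun i : Fin (m + 1) => ((i : ℕ) : ℤ)),
      Finset.sum_const, Finset.card_univ, Fintype.card_fin, nsmul_eq_mul] at h4
    rw [h3] at h1
    have h6 := sum_fin m
    have h7 : (0 : ℤ) ≤ m := by positivity
    push_cast at h4
    zify
    nlinarith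
  have := Module.nontrivial_of_finrank_pos h5
  obtain ⟨⟨c, hc⟩, hc0⟩ := exists_ne (0 : W)
  have hη : ∀ r : F[X], (∑ i : Fin (m + 1), Polynomial.C (c i : F) * Polynomial.X ^ (i : ℕ)).comp r =
      ∑ i : Fin (m + 1), Polynomial.C (c i : F) * r ^ (i : ℕ) := by
    intro r
    simp [Polynomial.sum_comp]
  refine ⟨∑ i : Fin (m + 1), Polynomial.C (c i : F) * Polynomial.X ^ (i : ℕ), fun h0 => ?_,
    fun P j => ?_⟩
  · refine hc0 (Subtype.ext (funext fun i => Subtype.ext ?_))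
    have h8 := congrArg (fun r : F[X] => r.coeff i) h0
    simp only [Polynomial.finsetSum_coeff, Polynomial.coeff_C_mul_X_pow, Polynomial.coeff_zero,
      Fin.val_inj] at h8
    simpa using h8
  · rw [hη, Polynomial.finsetSum_coeff]
    simp only [Polynomial.coeff_C_mul]
    by_cases hj : j < m + 1
    · have h8 := hf (⟨j, hj⟩, P) c
      simp only [q] at h8
      rw [← h8]
      by_cases hP : P ∈ γ.support ∪ e.support
      · have h9 := h2 (⟨j, hj⟩, P) (Finset.mem_product.2 ⟨Finset.mem_univ _, hP⟩) c hc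
        refine h9.trans (le_of_eq ?_)
        congr 1
        ring
      · rw [Finset.mem_union, not_or, Finsupp.notMem_support_iff, Finsupp.notMem_support_iff] at hP
        have h9 := hb1 (⟨j, hj⟩, P) c
        simp only [hP.1, mul_zero] at h9
        rw [hP.2, neg_zero]
        exact h9
    · rw [Finset.sum_eq_zero fun i _ => ?_, map_zero]
      · exact zero_le
      · rw [coeff_pow_zero _ _ (lt_of_lt_of_le i.2 (not_lt.1 hj)), mul_zero]

end Sym

theorem sSym (h : SCut) : SSym := by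
  intro k F _ _ _ _ _ 𝒞 d δ x a μ hd hδ ha hμ hR
  classical
  have hxc : ∀ c, x ≠ algebraMap k F c := fun c hc => by
    have h1 := hd.1 c
    rw [← hc, hd.2] at h1
    exact one_ne_zero h1
  have hx : x ≠ 0 := fun h0 => hxc 0 (by rw [h0, map_zero])
  have hS : {P | 𝒞.v P a ≠ 1 ∨ 𝒞.v P x ≠ 1}.Finite := (𝒞.fin a ha).union (𝒞.fin x hx)
  have hy : ∀ P, ∃ y, (𝒞.v P y ≤ 1 ∧ d.D y ≠ 0 ∧ 𝒞.v P a ≤ 𝒞.v P (d.D y) ^ μ ∧
      𝒞.v P (x * a) ≤ 𝒞.v P (d.D y) ^ μ) ∧ (¬(𝒞.v P a ≠ 1 ∨ 𝒞.v P x ≠ 1) → y = x) := by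
    intro P
    by_cases hP : 𝒞.v P a ≠ 1 ∨ 𝒞.v P x ≠ 1
    · obtain ⟨y, hy⟩ := hR P
      exact ⟨y, hy, fun h0 => absurd hP h0⟩
    · refine ⟨x, ?_, fun _ => rfl⟩
      push Not at hP
      simp [hd.2, hP.1, hP.2]
  choose y hy hyx using hy
  let κ : 𝒞.Pl →₀ ℤ := Finsupp.ofSupportFinite (fun P => log (𝒞.v P (d.D (y P))))
    (hS.subset fun P hP => by
      by_contra h0
      exact hP (by simp [hyx P h0, hd.2]))
  let γ : 𝒞.Pl →₀ ℤ := Finsupp.ofSupportFinite (fun P => max 0 (log (𝒞.v P (δ.D (y P)))))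
    (hS.subset fun P hP => by
      by_contra h0
      exact hP (by simp [hyx P h0, hδ]))
  let e : 𝒞.Pl →₀ ℤ := Finsupp.ofSupportFinite (fun P => max 0 (log (𝒞.v P x)))
    ((𝒞.fin x hx).subset fun P hP h0 => hP (by simp [h0]))
  have hκ : ∀ P, 𝒞.v P (d.D (y P)) = exp (κ P) := fun P =>
    (exp_log ((𝒞.v P).ne_zero_iff.2 (hy P).2.1)).symm
  have hγ : ∀ P, 𝒞.v P (δ.D (y P)) ≤ exp (γ P) := fun P =>
    le_exp_log.trans (exp_le_exp.2 (le_max_right _ _))
  have he : ∀ P, 𝒞.v P x ≤ exp (e P) := fun P =>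
    le_exp_log.trans (exp_le_exp.2 (le_max_right _ _))
  have he0 : ∀ P, 0 ≤ e P := fun P => le_max_left _ _
  have he1 : 1 ≤ e.degree := by
    by_contra h0
    have h1 : ∀ P ∈ e.support, e P = 0 := by
      rw [← Finset.sum_eq_zero_iff_of_nonneg fun P _ => he0 P, ← Finsupp.degree_apply]
      have : 0 ≤ e.degree := by
        rw [Finsupp.degree_apply]
        exact Finset.sum_nonneg fun P _ => he0 P
      omega
    obtain ⟨c, hc⟩ := 𝒞.const_of (u := x) fun P => by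
      have h2 : e P = 0 := by
        by_contra h3
        exact h3 (h1 P (Finsupp.mem_support_iff.2 h3))
      simpa [h2] using he P
    exact hxc c hc
  have hκ1 : 1 ≤ κ.degree := by
    have h1 : a ∈ 𝒞.toCurve.L ((μ : ℤ) • κ - e) := by
      refine 𝒞.toCurve.mem_L.2 fun P => ?_
      obtain ⟨-, -, h2, h3⟩ := hy P
      have ha0 : 𝒞.v P a ≠ 0 := (𝒞.v P).ne_zero_iff.2 ha
      have hx0 : 𝒞.v P x ≠ 0 := (𝒞.v P).ne_zero_iff.2 hx
      rw [hκ, ← exp_nsmul, ← log_le_iff_le_exp ha0, nsmul_eq_mul] at h2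
      rw [hκ, ← exp_nsmul, map_mul, ← log_le_iff_le_exp (mul_ne_zero hx0 ha0), log_mul hx0 ha0,
        nsmul_eq_mul] at h3
      rw [← log_le_iff_le_exp ha0, Finsupp.sub_apply, Finsupp.smul_apply, smul_eq_mul]
      have h4 : e P = max 0 (log (𝒞.v P x)) := rfl
      rw [h4]
      rcases le_total 0 (log (𝒞.v P x)) with h5 | h5
      · rw [max_eq_right h5]; linarith
      · rw [max_eq_left h5]; linarith
    have h2 := 𝒞.toCurve.degree_nonneg h1 ha
    rw [map_sub, map_zsmul, smul_eq_mul] at h2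
    by_contra h3
    have h4 : (μ : ℤ) * κ.degree ≤ 0 := mul_nonpos_of_nonneg_of_nonpos (by positivity) (by omega)
    omega
  obtain ⟨η, h0, hη⟩ := Sym.main h 𝒞 κ γ e hκ1 (fun P => le_max_left _ _) he0
    (fun P => (d.D (y P))⁻¹) (fun P => δ.D (y P)) (fun P => by rw [map_inv₀, hκ, exp_neg]) hγ
  refine ⟨η, h0, fun P => ⟨y P, (hy P).1, (hy P).2.1, fun j => ⟨(hη P j).trans ?_, ?_⟩⟩⟩
  · rw [← exp_zero, exp_le_exp]
    have := he0 P
    omega
  · rw [map_mul]
    refine (mul_le_mul' (he P) (hη P j)).trans (le_of_eq ?_)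
    rw [← exp_add, add_neg_cancel, exp_zero]

end Pool.Agent.P.MP_7ede32_ag.Full
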