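import Pool.Agent.P.MP_7ede32_ag.Full.StA

/-!
A derivation without poles and with an invariant place has a first integral.
-/

open scoped WithZero IntermediateField Polynomial
open WithZero

noncomputable section

namespace Pool.Agent.P.MP_7ede32_ag.Full

namespace Fi

lemma le_of_lt_exp {γ : ℤᵐ⁰} {n : ℤ} (h : γ < exp n) : γ ≤ exp (n - 1) := by
  induction γ using expRecOn with
  | zero => exact zero_le
  | exp m =>
    rw [exp_lt_exp] at h
    rw [exp_le_exp]
    omega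

variable {k F : Type} [Field k] [IsAlgClosed k] [CharZero k] [Field F] [Algebra k F]
  (𝒞 : FC k F)

omit [IsAlgClosed k] [CharZero k] in
/-- there is a nonconstant function with poles only at `P₀` -/
lemma exists_pole (P₀ : 𝒞.Pl) : ∃ n : ℕ, ∃ y : F, (∀ P, P ≠ P₀ → 𝒞.v P y ≤ 1) ∧
    𝒞.v P₀ y ≤ exp (n : ℤ) ∧ ∀ c, y ≠ algebraMap k F c := by
  classical
  by_contra hc
  push Not at hc
  have h1 := 𝒞.toCurve.riemann' (Finsupp.single P₀ ((𝒞.g + 1 : ℕ) : ℤ))
  have h2 : 𝒞.toCurve.L (Finsupp.single P₀ ((𝒞.g + 1 : ℕ) : ℤ)) ≤ Submodule.span k {1} := by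
    intro y hy
    rw [𝒞.toCurve.mem_L] at hy
    obtain ⟨c, rfl⟩ := hc (𝒞.g + 1) y (fun P hP => by
      have := hy P
      rwa [Finsupp.single_eq_of_ne hP, exp_zero] at this) (by
      have := hy P₀
      rwa [Finsupp.single_eq_same] at this)
    rw [Algebra.algebraMap_eq_smul_one]
    exact Submodule.smul_mem _ _ (Submodule.subset_span rfl)
  have h3 := Submodule.finrank_mono h2
  rw [finrank_span_singleton one_ne_zero] at h3
  rw [Finsupp.degree_single] at h1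
  generalize Module.finrank k (𝒞.toCurve.L (Finsupp.single P₀ ((𝒞.g + 1 : ℕ) : ℤ))) = r at h1 h3
  omega

/-- a function of least pole order spans, with the constants, its linear system -/
lemma exists_min (P₀ : 𝒞.Pl) : ∃ (n : ℕ) (y : F), n ≠ 0 ∧ (∀ P, P ≠ P₀ → 𝒞.v P y ≤ 1) ∧
    𝒞.v P₀ y = exp (n : ℤ) ∧ (∀ c, y ≠ algebraMap k F c) ∧
    ∀ z : F, (∀ P, P ≠ P₀ → 𝒞.v P z ≤ 1) → 𝒞.v P₀ z ≤ exp (n : ℤ) →
      ∃ α β : k, z = algebraMap k F α * y + algebraMap k F β := by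
  classical
  have hex := exists_pole 𝒞 P₀
  obtain ⟨y, h1, h2, h3⟩ := Nat.find_spec hex
  set n := Nat.find hex with hn
  have hn0 : n ≠ 0 := fun e => by
    obtain ⟨c, hc⟩ := 𝒞.const_of (u := y) fun P => by
      by_cases hP : P = P₀
      · rw [hP]
        rwa [e, Nat.cast_zero, exp_zero] at h2
      · exact h1 P hP
    exact h3 c hc
  have hmin : ∀ z : F, (∀ P, P ≠ P₀ → 𝒞.v P z ≤ 1) → 𝒞.v P₀ z < exp (n : ℤ) →
      ∃ c, z = algebraMap k F c := by
    intro z hz1 hz2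
    by_contra hc
    push Not at hc
    refine Nat.find_min hex (m := n - 1) (by omega) ⟨z, hz1, ?_, hc⟩
    have := le_of_lt_exp hz2
    rwa [show ((n - 1 : ℕ) : ℤ) = (n : ℤ) - 1 by omega]
  have h4 : 𝒞.v P₀ y = exp (n : ℤ) := by
    refine le_antisymm h2 (not_lt.1 fun h => ?_)
    obtain ⟨c, hc⟩ := hmin y h1 h
    exact h3 c hc
  have hy0 : y ≠ 0 := fun e => h3 0 (by rw [e, map_zero])
  refine ⟨n, y, hn0, h1, h4, h3, fun z hz1 hz2 => ?_⟩
  obtain ⟨α, hα⟩ := 𝒞.res P₀ (z / y) (by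
    rw [map_div₀, h4, div_le_one₀ exp_pos]
    exact hz2)
  obtain ⟨β, hβ⟩ := hmin (z - algebraMap k F α * y) (fun P hP => by
    refine (𝒞.v P).map_sub_le (hz1 P hP) ?_
    rw [map_mul]
    exact mul_le_one' (𝒞.const P α) (h1 P hP)) (by
    have e : z - algebraMap k F α * y = (z / y - algebraMap k F α) * y := by field_simp
    rw [e, map_mul, h4]
    exact mul_lt_of_lt_one_left exp_pos hα)
  exact ⟨α, β, by rw [← hβ]; ring⟩

omit [IsAlgClosed k] [CharZero k] in
/-- at a branch value the differential equation becomes homogeneous -/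
lemma branch {D : Der F} (hD : Pres k D) (hreg : ∀ P u, 𝒞.v P u ≤ 1 → 𝒞.v P (D.D u) ≤ 1)
    {y : F} {α β b : k} (hy : D.D y = algebraMap k F α * y + algebraMap k F β) {P : 𝒞.Pl}
    (hb : 𝒞.v P (y - algebraMap k F b) < exp (-1)) :
    D.D (y - algebraMap k F b) = algebraMap k F α * (y - algebraMap k F b) := by
  obtain ⟨π, hπ⟩ := 𝒞.unif P
  obtain ⟨b', hb'⟩ := hD b
  have hπ0 : π ≠ 0 := fun e => by
    rw [e, map_zero] at hπ
    exact exp_ne_zero hπ.symm
  have hπ1 : 𝒞.v P π < 1 := by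
    rw [hπ, ← exp_zero, exp_lt_exp]
    omega
  have hu : 𝒞.v P ((y - algebraMap k F b) / π) < 1 := by
    rw [map_div₀, hπ, div_lt_one₀ exp_pos]
    exact hb
  have h1 : 𝒞.v P (D.D (y - algebraMap k F b)) < 1 := by
    have e : y - algebraMap k F b = π * ((y - algebraMap k F b) / π) := by field_simp
    rw [e, D.D_mul]
    refine (𝒞.v P).map_add_lt ?_ ?_
    · rw [map_mul]
      exact mul_lt_one_of_lt_of_le hπ1 (hreg P _ hu.le)
    · rw [map_mul]
      exact mul_lt_one_of_lt_of_le hu (hreg P _ hπ1.le)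
  have h2 : 𝒞.v P (algebraMap k F α * (y - algebraMap k F b)) < 1 := by
    rw [map_mul, mul_comm]
    exact mul_lt_one_of_lt_of_le (hb.trans (hπ ▸ hπ1)) (𝒞.const P α)
  have e : D.D (y - algebraMap k F b) - algebraMap k F α * (y - algebraMap k F b) =
      algebraMap k F (α * b + β - b') := by
    rw [D.D_sub, hy, hb', map_sub, map_add, map_mul]
    ring
  have h3 := (𝒞.v P).map_sub_lt h1 h2
  rw [e] at h3
  by_cases h0 : α * b + β - b' = 0
  · rw [h0, map_zero] at e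
    exact sub_eq_zero.1 e
  · exact absurd (𝒞.toCurve.v_const P h0) h3.ne

end Fi

open Fi in
theorem sFi (h : SLoc) : SFi := by
  classical
  intro k F _ _ _ _ _ 𝒞 d D x a μ hd hD ha hμ hreg hO P₀ hP₀
  obtain ⟨n, y, hn, h1, h2, h3, h4⟩ := exists_min 𝒞 P₀
  obtain ⟨α, β, hy⟩ := h4 (D.D y) (fun P hP => hO P y (h1 P hP)) (h2 ▸ hP₀ y)
  have hne : ∀ c, y - algebraMap k F c ≠ 0 := fun c => sub_ne_zero.2 (h3 c)
  by_cases hb : ∃ b₁ b₂ : k, b₁ ≠ b₂ ∧ (∃ P, 𝒞.v P (y - algebraMap k F b₁) < exp (-1)) ∧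
      ∃ P, 𝒞.v P (y - algebraMap k F b₂) < exp (-1)
  · obtain ⟨b₁, b₂, hb, ⟨P₁, hb1⟩, P₂, hb2⟩ := hb
    have e1 := branch 𝒞 hD hO hy hb1
    have e2 := branch 𝒞 hD hO hy hb2
    have h0 : algebraMap k F b₂ - algebraMap k F b₁ ≠ 0 :=
      sub_ne_zero.2 fun e => hb ((algebraMap k F).injective e).symm
    have e3 : D.D (algebraMap k F b₂ - algebraMap k F b₁) =
        algebraMap k F α * (algebraMap k F b₂ - algebraMap k F b₁) := by
      have e : algebraMap k F b₂ - algebraMap k F b₁ =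
          (y - algebraMap k F b₁) - (y - algebraMap k F b₂) := by ring
      rw [e, D.D_sub, e1, e2]
      ring
    refine ⟨(y - algebraMap k F b₁) / (algebraMap k F b₂ - algebraMap k F b₁), ?_, fun c hc => ?_⟩
    · rw [D.D_div _ _ h0, e1, e3, div_eq_zero_iff]
      left
      ring
    · rw [div_eq_iff h0] at hc
      refine h3 (b₁ + c * (b₂ - b₁)) ?_
      rw [map_add, map_mul, map_sub, ← hc]
      ring
  exfalso
  obtain ⟨b, hb⟩ : ∃ b : k, ∀ c P, 𝒞.v P (y - algebraMap k F c) < exp (-1) → c = b := by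
    by_cases hc : ∃ c P, 𝒞.v P (y - algebraMap k F c) < exp (-1)
    · obtain ⟨b, P, hc⟩ := hc
      refine ⟨b, fun c P' hc' => ?_⟩
      by_contra hne
      exact hb ⟨c, b, hne, ⟨P', hc'⟩, P, hc⟩
    · exact ⟨0, fun c P hc' => absurd ⟨c, P, hc'⟩ hc⟩
  obtain ⟨ha1, ha2, -, ha4, κ, hκ⟩ := (h k F 𝒞).2 d x hd
  have hdy : d.D y ≠ 0 := fun e => by
    obtain ⟨c, hc⟩ := ha1 y e
    exact h3 c hc
  have hdc : ∀ c, d.D (y - algebraMap k F c) = d.D y := fun c => by
    rw [d.D_sub, hd.1, sub_zero]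
  have hval : ∀ P c (m : ℤ), 𝒞.v P (y - algebraMap k F c) = exp m → m ≠ 0 →
      𝒞.v P (d.D y) = exp (m + 1 + κ P) := by
    intro P c m hm hm0
    obtain ⟨π, hπ⟩ := 𝒞.unif P
    rw [← hdc c, ha4 P π _ m hπ hm hm0, hκ P π hπ, ← exp_add]
  have hθ : (y - algebraMap k F b) / d.D y ∈ 𝒞.toCurve.L (-κ - Finsupp.single P₀ 1) := by
    rw [𝒞.toCurve.mem_L]
    intro P
    rw [map_div₀, Finsupp.sub_apply, Finsupp.neg_apply]
    by_cases hP : P = P₀
    · subst hP
      have e : 𝒞.v P (y - algebraMap k F b) = exp (n : ℤ) := by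
        rw [← h2]
        refine (𝒞.v P).map_sub_eq_of_lt_left ((𝒞.const P b).trans_lt ?_)
        rw [h2, ← exp_zero, exp_lt_exp]
        omega
      rw [hval P b n e (by omega), e, ← exp_sub, Finsupp.single_eq_same, exp_le_exp]
      omega
    · rw [Finsupp.single_eq_of_ne hP, sub_zero]
      obtain ⟨c, hc⟩ := 𝒞.res P y (h1 P hP)
      have e : 𝒞.v P (y - algebraMap k F c) = exp (log (𝒞.v P (y - algebraMap k F c))) :=
        (exp_log ((𝒞.v P).ne_zero_iff.2 (hne c))).symm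
      generalize log (𝒞.v P (y - algebraMap k F c)) = m at e
      have hm : m < 0 := by rwa [e, ← exp_zero, exp_lt_exp] at hc
      rw [hval P c m e hm.ne]
      by_cases hcb : c = b
      · rw [← hcb, e, ← exp_sub, exp_le_exp]
        omega
      · have hm1 : -1 ≤ m := by
          by_contra hlt
          exact hcb (hb c P (by rw [e, exp_lt_exp]; omega))
        have h5 : 𝒞.v P (y - algebraMap k F b) ≤ exp 0 :=
          (𝒞.v P).map_sub_le (h1 P hP) (𝒞.const P b)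
        rw [div_le_iff₀ exp_pos, ← exp_add]
        refine h5.trans ?_
        rw [exp_le_exp]
        omega
  have hd1 := 𝒞.toCurve.degree_nonneg hθ (div_ne_zero (hne b) hdy)
  have haL : a ∈ 𝒞.toCurve.L (μ • κ) := by
    rw [𝒞.toCurve.mem_L]
    intro P
    obtain ⟨z, hz1, -, hz2, -⟩ := hreg P
    obtain ⟨π, hπ⟩ := 𝒞.unif P
    refine hz2.trans ?_
    rw [Finsupp.smul_apply, exp_nsmul, ← hκ P π hπ]
    exact pow_le_pow_left' ((ha2 P π hπ).2.2 z hz1) μ
  have hd2 := 𝒞.toCurve.degree_nonneg haL ha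
  rw [map_sub, map_neg, Finsupp.degree_single] at hd1
  rw [map_nsmul, nsmul_eq_mul] at hd2
  have hμ' : (0 : ℤ) < μ := by exact_mod_cast hμ
  nlinarith

end Pool.Agent.P.MP_7ede32_ag.Full
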