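import Pool.Agent.P.MP_7ede32_ag.Full.StA

/-!
A derivation without poles has an invariant place.
-/

open scoped WithZero IntermediateField Polynomial
open WithZero

noncomputable section

namespace Pool.Agent.P.MP_7ede32_ag.Full

namespace InvP

variable {F : Type} [Field F]

theorem form (D : Der F) (b A : F) {p e : F} (hp : p ≠ 0) (he : e = D.D p + A * p) (μ : ℕ) :
    D.D (b * p ^ μ) + μ * (b * p ^ μ) * A = p ^ μ * (D.D b + μ * b * (e / p)) := by
  have h := D.D_zpow p hp μ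
  rw [zpow_natCast, Int.cast_natCast] at h
  rw [D.D_mul, h, he]
  field_simp
  ring

variable (w : Valuation F ℤᵐ⁰) (D : Der F)

theorem tail_le (μ : ℕ) (b : F) {q : F} (hq : w q ≤ 1) : w (μ * b * q) ≤ w b := by
  rw [map_mul, map_mul]
  calc w (μ : F) * w b * w q ≤ 1 * w b * 1 :=
        mul_le_mul' (mul_le_mul_left (val_natCast_le w μ) _) hq
    _ = w b := by rw [one_mul, mul_one]

/-- a place at which the derivative of a uniformizer vanishes is invariant -/
theorem inv_of_lt (hD : ∀ u, w u ≤ 1 → w (D.D u) ≤ 1) {π : F} (hπ : w π = exp (-1))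
    (h : w (D.D π) < 1) (u : F) : w (D.D u) ≤ w u := by
  rcases eq_or_ne u 0 with rfl | hu
  · rw [D.D_zero]
  obtain ⟨v, hv, e⟩ := D.D_decomp w hπ (exp_log ((w.ne_zero_iff).mpr hu)).symm
  have h1 : w (D.D π / π) ≤ 1 := by
    rw [map_div₀, hπ, div_le_one₀ (zero_lt_iff.2 exp_ne_zero)]
    exact le_exp_of_lt (by simpa using h)
  rw [e]
  refine w.map_add_le ?_ ?_
  · rw [Valuation.map_neg, map_mul, map_mul]
    calc _ ≤ 1 * w u * 1 := mul_le_mul' (mul_le_mul_left (val_intCast_le w _) _) h1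
      _ = w u := by rw [one_mul, mul_one]
  · rw [map_mul, map_div₀, hv, div_one]
    exact (mul_le_mul_right (hD v hv.le) _).trans_eq (mul_one _)

/-- at a place that is not invariant the order drops by one -/
theorem val_drop (hD : ∀ u, w u ≤ 1 → w (D.D u) ≤ 1) {π : F} (hπ : w π = exp (-1))
    (h : w (D.D π) = 1) {b : F} {n : ℤ} (hb : w b = exp n) (hn : w (n : F) = 1) (μ : ℕ) {q : F}
    (hq : w q ≤ 1) : w (D.D b + μ * b * q) = exp (n + 1) := by
  obtain ⟨v, hv, e⟩ := D.D_decomp w hπ hb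
  have e1 : w (-((n : F) * b * (D.D π / π))) = exp (n + 1) := by
    rw [Valuation.map_neg, map_mul, map_mul, map_div₀, hn, hb, h, hπ, one_mul, ← exp_zero,
      ← exp_sub, ← exp_add]
    congr 1
  have e2 : exp n < exp (n + 1) := exp_lt_exp.2 (by omega)
  rw [e, add_assoc, Valuation.map_add_eq_of_lt_left, e1]
  rw [e1]
  refine lt_of_le_of_lt (w.map_add_le ?_ ?_) e2
  · rw [map_mul, map_div₀, hv, div_one, hb]
    exact (mul_le_mul_right (hD v hv.le) _).trans_eq (mul_one _)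
  · exact (tail_le w μ b hq).trans_eq hb

theorem sum_range (N : ℕ) (c : ℤ) :
    ∑ i ∈ Finset.range N, (c - (i : ℤ)) = N * c - (N.choose 2 : ℕ) := by
  induction N with
  | zero => simp
  | succ N ih =>
    rw [Finset.sum_range_succ, ih, Nat.choose_succ_succ' N 1, Nat.choose_one_right]
    push_cast
    ring

end InvP

theorem sInvP (h1 : SLoc) (h2 : SCut) (h3 : SWr) (h4 : SUniq) : SInvP := by
  intro k F _ _ _ _ _ 𝒞 d D x a μ hd hD ha hμ hreg hO
  by_contra hno
  push Not at hno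
  obtain ⟨-, hco, -, -, κ, hκ⟩ := (h1 k F 𝒞).2 d x hd
  have hxc : ∀ c : k, x ≠ algebraMap k F c := fun c e => by
    have := hd.1 c
    rw [← e, hd.2] at this
    exact one_ne_zero this
  have hfin := 𝒞.cf.finite (FF.transcendental_of_notMem_range hxc)
  -- the commutator
  have hcom : ∀ z, d.D (D.D z) = D.D (d.D z) + d.D (D.D x) * d.D z := by
    intro z
    have := h4 k F F (RingHom.id F) (fun z => d.D (D.D z) - D.D (d.D z) - d.D (D.D x) * d.D z) x
      inferInstance (fun a b => by simp only [d.D_add, D.D_add]; ring)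
      (fun a b => by simp only [d.D_add, D.D_add, d.D_mul, D.D_mul, RingHom.id_apply]; ring)
      (fun c => by
        obtain ⟨c', hc'⟩ := hD c
        simp only [hc', hd.1, D.D_zero]; ring)
      (by simp only [hd.2, D.D_one]; ring) z
    linear_combination this
  choose π hπ using 𝒞.unif
  have hπ1 : ∀ P, 𝒞.v P (π P) ≤ 1 := fun P => (hco P _ (hπ P)).1
  have hp0 : ∀ P, d.D (π P) ≠ 0 := fun P => (hco P _ (hπ P)).2.1
  have hpμ : ∀ P, 𝒞.v P (d.D (π P) ^ μ) = exp ((μ • κ) P) := fun P => by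
    rw [map_pow, hκ P _ (hπ P), ← exp_nsmul]; rfl
  have hq : ∀ P, 𝒞.v P (d.D (D.D (π P)) / d.D (π P)) ≤ 1 := fun P => by
    rw [map_div₀, div_le_one₀ (zero_lt_iff.2 ((𝒞.v P).ne_zero_iff.2 (hp0 P)))]
    exact (hco P _ (hπ P)).2.2 _ (hO P _ (hπ1 P))
  have hDπ : ∀ P, 𝒞.v P (D.D (π P)) = 1 := fun P => by
    refine (hO P _ (hπ1 P)).eq_or_lt.resolve_right fun h => ?_
    obtain ⟨u, hu⟩ := hno P
    exact hu.not_ge (InvP.inv_of_lt _ D (hO P) (hπ P) h u)
  have hL : ∀ P c, D.D c + μ * c * d.D (D.D x) = d.D (π P) ^ μ * (D.D (c / d.D (π P) ^ μ) +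
      μ * (c / d.D (π P) ^ μ) * (d.D (D.D (π P)) / d.D (π P))) := fun P c => by
    rw [← InvP.form D _ _ (hp0 P) (hcom (π P)) μ, div_mul_cancel₀ _ (pow_ne_zero μ (hp0 P))]
  have hV : ∀ c ∈ 𝒞.toCurve.L (μ • κ), D.D c + μ * c * d.D (D.D x) ∈ 𝒞.toCurve.L (μ • κ) := by
    intro c hc
    rw [𝒞.toCurve.mem_L] at hc ⊢
    intro P
    have hb : 𝒞.v P (c / d.D (π P) ^ μ) ≤ 1 := by
      rw [map_div₀, hpμ, div_le_one₀ (zero_lt_iff.2 exp_ne_zero)]
      exact hc P
    rw [hL P, map_mul, hpμ]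
    exact (mul_le_mul_right ((𝒞.v P).map_add_le (hO P _ hb)
      ((InvP.tail_le _ μ _ (hq P)).trans hb)) _).trans_eq (mul_one _)
  have hdrop : ∀ P c (m : ℕ), 𝒞.v P c = exp ((μ • κ) P - (m + 1 : ℕ)) →
      𝒞.v P (D.D c + μ * c * d.D (D.D x)) = exp ((μ • κ) P - m) := by
    intro P c m hc
    have hb : 𝒞.v P (c / d.D (π P) ^ μ) = exp (-(m + 1 : ℕ) : ℤ) := by
      rw [map_div₀, hpμ, hc, ← exp_sub]
      congr 1
      ring
    have hn : 𝒞.v P ((-(m + 1 : ℕ) : ℤ) : F) = 1 := by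
      rw [← map_intCast (algebraMap k F)]
      exact 𝒞.toCurve.v_const P (by exact_mod_cast (by omega : (-(m + 1 : ℕ) : ℤ) ≠ 0))
    rw [hL P, map_mul, hpμ, InvP.val_drop _ D (hO P) (hπ P) (hDπ P) hb hn μ (hq P), ← exp_add]
    congr 1
    push_cast
    ring
  have hdown : ∀ P (m : ℕ), (∃ c ∈ 𝒞.toCurve.L (μ • κ), 𝒞.v P c = exp ((μ • κ) P - m)) →
      ∀ i ≤ m, ∃ c ∈ 𝒞.toCurve.L (μ • κ), 𝒞.v P c = exp ((μ • κ) P - i) := by
    intro P m hm i hi
    induction hi using Nat.decreasingInduction with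
    | self => exact hm
    | of_succ i _ ih =>
      obtain ⟨c, hc, e⟩ := ih
      exact ⟨_, hV c hc, hdrop P c i e⟩
  have hreg' : ∀ P, 𝒞.v P a ≤ exp ((μ • κ) P) ∧ 𝒞.v P (x * a) ≤ exp ((μ • κ) P) := fun P => by
    obtain ⟨y, g1, -, g3, g4⟩ := hreg P
    have : 𝒞.v P (d.D y) ^ μ ≤ exp ((μ • κ) P) := by
      rw [← hpμ, map_pow]
      exact pow_le_pow_left' ((hco P _ (hπ P)).2.2 y g1) μ
    exact ⟨g3.trans this, g4.trans this⟩
  have haV : a ∈ 𝒞.toCurve.L (μ • κ) := 𝒞.toCurve.mem_L.2 fun P => (hreg' P).1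
  obtain ⟨N, hN⟩ : ∃ N, Module.finrank k (𝒞.toCurve.L (μ • κ)) = N + 1 := by
    refine Nat.exists_eq_succ_of_ne_zero fun h => ha ?_
    rw [Submodule.finrank_eq_zero] at h
    rwa [h] at haV
  have hord : ∀ P, ∀ i ≤ N, ∃ c ∈ 𝒞.toCurve.L (μ • κ), 𝒞.v P c = exp ((μ • κ) P - i) := by
    intro P i hi
    obtain ⟨W', hW, hr, hv⟩ := h2 k F F (𝒞.v P) (𝒞.isPlace P) LinearMap.id N ((μ • κ) P) _
      inferInstance fun u hu => 𝒞.toCurve.mem_L.1 hu P
    obtain ⟨c, hc, hc0⟩ : ∃ c ∈ W', c ≠ 0 := by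
      refine Submodule.exists_mem_ne_zero_of_ne_bot ?_
      rintro rfl
      rw [finrank_bot] at hr
      omega
    have e := (exp_log ((𝒞.v P).ne_zero_iff.2 hc0)).symm
    have hle : log (𝒞.v P c) ≤ (μ • κ) P - N := by
      rw [← exp_le_exp, ← e]; exact hv c hc
    obtain ⟨m, hm⟩ := Int.eq_ofNat_of_zero_le (a := (μ • κ) P - log (𝒞.v P c)) (by omega)
    refine hdown P m ⟨c, hW hc, e.trans (congrArg exp (by omega))⟩ i (by omega)
  obtain ⟨W, hW0, hW⟩ := h3 k F 𝒞 d x κ hd hκ (N + 1) _ inferInstance hN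
  have hWv : ∀ P, 𝒞.v P W = exp ((((N + 1) * μ + (N + 1).choose 2) • κ) P) := by
    intro P
    have hinj : Function.Injective fun i : ℕ => (μ • κ) P - (i : ℤ) := fun i j h => by
      simpa using h
    rw [hW P ((Finset.range (N + 1)).image fun i : ℕ => (μ • κ) P - (i : ℤ))
      (by rw [Finset.card_image_of_injective _ hinj, Finset.card_range]) (by
        intro i hi
        obtain ⟨j, hj, rfl⟩ := Finset.mem_image.1 hi
        exact hord P j (Nat.lt_succ_iff.1 (Finset.mem_range.1 hj))),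
      Finset.sum_image fun i _ j _ h => hinj h, InvP.sum_range]
    congr 1
    simp only [Finsupp.smul_apply, nsmul_eq_mul]
    push_cast
    ring
  have hdeg : κ.degree ≤ 0 := by
    have h := 𝒞.toCurve.degree_nonneg (D := -(((N + 1) * μ + (N + 1).choose 2) • κ)) (x := W⁻¹)
      (𝒞.toCurve.mem_L.2 fun P => by rw [map_inv₀, hWv, Finsupp.neg_apply, exp_neg])
      (inv_ne_zero hW0)
    rw [map_neg, map_nsmul, nsmul_eq_mul] at h
    have hpos : (0 : ℤ) < (((N + 1) * μ + (N + 1).choose 2 : ℕ) : ℤ) := by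
      have : 0 < (N + 1) * μ := Nat.mul_pos (Nat.succ_pos N) hμ
      exact_mod_cast (by omega : 0 < (N + 1) * μ + (N + 1).choose 2)
    by_contra hc
    have := mul_pos hpos (not_le.1 hc)
    omega
  have hae : ∀ P, exp ((μ • κ) P) ≤ 𝒞.v P a := by
    intro P
    by_contra hc
    have h := 𝒞.toCurve.degree_nonneg (D := μ • κ - Finsupp.single P 1) (x := a)
      (𝒞.toCurve.mem_L.2 fun Q => by
        rcases eq_or_ne Q P with rfl | hQ
        · rw [Finsupp.sub_apply, Finsupp.single_eq_same]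
          exact le_exp_of_lt (by rw [sub_add_cancel]; exact not_le.1 hc)
        · rw [Finsupp.sub_apply, Finsupp.single_eq_of_ne hQ, sub_zero]
          exact (hreg' Q).1) ha
    rw [map_sub, map_nsmul, nsmul_eq_mul, Finsupp.degree_single] at h
    have := mul_nonpos_of_nonneg_of_nonpos (Int.natCast_nonneg μ) hdeg
    omega
  obtain ⟨c, hc⟩ := 𝒞.const_of (u := x) fun P => by
    have h := (hreg' P).2.trans (hae P)
    rw [map_mul] at h
    exact (mul_le_iff_le_one_left (zero_lt_iff.2 ((𝒞.v P).ne_zero_iff.2 ha))).1 h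
  exact hxc c hc

end Pool.Agent.P.MP_7ede32_ag.Full
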