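import Pool.Agent.P.MP_7ede32_ag.Full.StA

/-! Derivations and the local rings of a curve. -/

open scoped WithZero IntermediateField Polynomial
open WithZero

set_option linter.unusedSectionVars false

noncomputable section

namespace Pool.Agent.P.MP_7ede32_ag.Full

namespace LocD

variable {k F : Type} [Field k] [IsAlgClosed k] [CharZero k] [Field F] [Algebra k F] (𝒞 : FC k F)

lemma exp_neg_le : exp (-1 : ℤ) ≤ (1 : ℤᵐ⁰) := by rw [← exp_zero, exp_le_exp]; norm_num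

lemma one_le_exp (n : ℕ) : (1 : ℤᵐ⁰) ≤ exp (n : ℤ) := by rw [← exp_zero, exp_le_exp]; omega

lemma bound (d : Der F) (P : 𝒞.Pl) (hd : Pres k d) :
    ∃ n : ℕ, ∀ u, 𝒞.v P u ≤ 1 → 𝒞.v P (d.D u) ≤ exp (n : ℤ) := by
  classical
  obtain ⟨𝒟, h⟩ := 𝒞.cf.exists_bound d hd
  refine ⟨𝒟.sup fun g => (log (𝒞.v P g)).toNat, h _ (𝒞.ffPlace P) _ (one_le_exp _) fun g hg => ?_⟩
  refine le_exp_of_log_le ((Int.self_le_toNat _).trans ?_)
  exact_mod_cast Finset.le_sup (f := fun g => (log (𝒞.v P g)).toNat) hg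

lemma loc1 (d : Der F) (P : 𝒞.Pl) (π : F) (hd : Pres k d) (hπ : 𝒞.v P π = exp (-1))
    (h1 : 𝒞.v P (d.D π) ≤ 1) : ∀ u, 𝒞.v P u ≤ 1 → 𝒞.v P (d.D u) ≤ 1 := by
  obtain ⟨n, hn⟩ := bound 𝒞 d P hd
  induction n with
  | zero => simpa using hn
  | succ n ih =>
    refine ih fun u hu => ?_
    obtain ⟨c, hc⟩ := 𝒞.res P u hu
    obtain ⟨c', hc'⟩ := hd c
    have h0 := ne_zero_of_val hπ
    have h2 : 𝒞.v P (u - algebraMap k F c) ≤ exp (-1) := le_exp_of_lt (by simpa using hc)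
    have h3 : 𝒞.v P ((u - algebraMap k F c) / π) ≤ 1 := by
      rw [map_div₀, hπ, div_le_one₀ exp_pos]; exact h2
    have h4 : d.D u = algebraMap k F c' + (π * d.D ((u - algebraMap k F c) / π) +
        (u - algebraMap k F c) / π * d.D π) := by
      rw [← d.D_mul, mul_div_cancel₀ _ h0, d.D_sub, hc']; ring
    rw [h4]
    refine Valuation.map_add_le _ ((𝒞.const P c').trans (one_le_exp n))
      (Valuation.map_add_le _ ?_ ?_) <;> rw [map_mul]
    · refine (mul_le_mul' hπ.le (hn _ h3)).trans ?_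
      rw [← exp_add, exp_le_exp]; push_cast; omega
    · exact (mul_le_one' h3 h1).trans (one_le_exp n)

include 𝒞 in
lemma ker {d : Der F} {x : F} (h : Std k d x) (u : F) (hu : d.D u = 0) :
    ∃ c, u = algebraMap k F c := by
  by_contra hc
  push Not at hc
  have : CharZero F := charZero_of_injective_algebraMap (algebraMap k F).injective
  have hfin := 𝒞.cf.finite (FF.transcendental_of_notMem_range hc)
  have hle : k⟮u⟯.toSubfield ≤ d.const := by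
    refine IntermediateField.adjoin_le_subfield k _ ?_ ?_
    · rintro _ ⟨c, rfl⟩
      exact h.1 c
    · rintro _ rfl
      exact hu
  have ha : IsAlgebraic k⟮u⟯ x := Algebra.IsAlgebraic.isAlgebraic x
  have := d.D_eq_zero_of_algebraic k⟮u⟯.toSubfield (fun z hz => hle hz) (g := x) ha
  rw [h.2] at this
  exact one_ne_zero this

/-- a multiple of a derivation -/
def scale (a : F) (d : Der F) : Der F where
  D u := a * d.D u
  D_add x y := by rw [d.D_add]; ring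
  D_mul x y := by rw [d.D_mul]; ring

lemma coord {d : Der F} {x : F} (h : Std k d x) (P : 𝒞.Pl) (π : F) (hπ : 𝒞.v P π = exp (-1)) :
    Coord d (𝒞.v P) π := by
  have h0 : d.D π ≠ 0 := by
    intro e
    obtain ⟨c, rfl⟩ := ker 𝒞 h π e
    have hc : c ≠ 0 := by
      rintro rfl
      exact ne_zero_of_val hπ (map_zero _)
    rw [(𝒞.ffPlace P).2 c hc, ← exp_zero, exp_inj] at hπ
    omega
  refine ⟨hπ.le.trans exp_neg_le, h0, fun z hz => ?_⟩
  have h1 := loc1 𝒞 (scale (d.D π)⁻¹ d) P π (fun c => ⟨0, by simp [scale, h.1 c]⟩) hπ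
    (by simp [scale, h0]) z hz
  have h2 : 0 < 𝒞.v P (d.D π) := zero_lt_iff.2 ((𝒞.v P).ne_zero_iff.2 h0)
  simp only [scale] at h1
  rwa [map_mul, map_inv₀, inv_mul_le_iff₀ h2, mul_one] at h1

lemma step {d : Der F} {x : F} (h : Std k d x) (P : 𝒞.Pl) (π u : F) (n : ℤ)
    (hπ : 𝒞.v P π = exp (-1)) (hu : 𝒞.v P u = exp n) (hn : n ≠ 0) :
    𝒞.v P (d.D u) = exp (n + 1) * 𝒞.v P (d.D π) := by
  obtain ⟨_, h0, hc⟩ := coord 𝒞 h P π hπ
  obtain ⟨v, hv, e⟩ := d.D_decomp (𝒞.v P) hπ hu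
  obtain ⟨m, hm⟩ : ∃ m : ℤ, 𝒞.v P (d.D π) = exp m :=
    ⟨_, (exp_log ((𝒞.v P).ne_zero_iff.2 h0)).symm⟩
  have e1 : 𝒞.v P (-((n : F) * u * (d.D π / π))) = exp (n + 1) * exp m := by
    have : 𝒞.v P (n : F) = 1 := by
      rw [← map_intCast (algebraMap k F)]; exact (𝒞.ffPlace P).2 _ (by exact_mod_cast hn)
    rw [Valuation.map_neg, map_mul, map_mul, map_div₀, this, hu, hm, hπ, one_mul, ← exp_sub,
      ← exp_add, ← exp_add]
    congr 1
    ring
  rw [e, Valuation.map_add_eq_of_lt_left, e1, hm]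
  rw [e1, map_mul, map_div₀, hv, div_one, hu]
  refine (mul_le_mul_right ((hc v hv.le).trans hm.le) _).trans_lt ?_
  rw [← exp_add, ← exp_add, exp_lt_exp]; omega

lemma unif {d : Der F} {x : F} (h : Std k d x) (P : 𝒞.Pl) (y : F) (hy : Coord d (𝒞.v P) y) :
    ∃ c, 𝒞.v P (y - algebraMap k F c) = exp (-1) := by
  obtain ⟨c, hc⟩ := 𝒞.res P y hy.1
  obtain ⟨π, hπ⟩ := 𝒞.unif P
  have e : d.D (y - algebraMap k F c) = d.D y := by rw [d.D_sub, h.1, sub_zero]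
  have h0 : y - algebraMap k F c ≠ 0 := by
    intro e0
    rw [e0, d.D_zero] at e
    exact hy.2.1 e.symm
  obtain ⟨n, hn⟩ : ∃ n : ℤ, 𝒞.v P (y - algebraMap k F c) = exp n :=
    ⟨_, (exp_log ((𝒞.v P).ne_zero_iff.2 h0)).symm⟩
  have hn0 : n < 0 := by rwa [hn, ← exp_zero, exp_lt_exp] at hc
  have h1 := step 𝒞 h P π _ n hπ hn hn0.ne
  have h2 := hy.2.2 π (hπ.le.trans exp_neg_le)
  obtain ⟨m, hm⟩ : ∃ m : ℤ, 𝒞.v P (d.D π) = exp m :=
    ⟨_, (exp_log ((𝒞.v P).ne_zero_iff.2 (coord 𝒞 h P π hπ).2.1)).symm⟩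
  rw [← e, h1, hm, ← exp_add, exp_le_exp] at h2
  refine ⟨c, ?_⟩
  rw [hn]
  congr 1
  omega

lemma canon {d : Der F} {x : F} (h : Std k d x) :
    ∃ κ : 𝒞.Pl →₀ ℤ, ∀ P π, 𝒞.v P π = exp (-1) → 𝒞.v P (d.D π) = exp (κ P) := by
  classical
  choose ϖ hϖ using 𝒞.unif
  obtain ⟨𝒟, hD⟩ := 𝒞.cf.exists_bound d h.pres
  have hx : x ≠ 0 := by
    intro e
    have := h.2
    rw [e, d.D_zero] at this
    exact zero_ne_one this
  have hfin : (Function.support fun P => log (𝒞.v P (d.D (ϖ P)))).Finite := by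
    have h1 : ({P | 𝒞.v P x ≠ 1} ∪ ⋃ g ∈ 𝒟.filter (· ≠ 0), {P | 𝒞.v P g ≠ 1}).Finite :=
      (𝒞.fin x hx).union (Set.Finite.biUnion (Finset.finite_toSet _) fun g hg =>
        𝒞.fin g (Finset.mem_filter.1 hg).2)
    refine h1.subset fun P hP => ?_
    by_contra hn
    simp only [Set.mem_union, Set.mem_ofPred_eq, Set.mem_iUnion, not_or, not_not, not_exists,
      Finset.mem_filter] at hn
    have h2 : 𝒞.v P (d.D (ϖ P)) ≤ 1 := by
      refine hD _ (𝒞.ffPlace P) 1 le_rfl (fun g hg => ?_) _ ((hϖ P).le.trans exp_neg_le)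
      rcases eq_or_ne g 0 with rfl | h0
      · simp
      · exact (hn.2 g ⟨hg, h0⟩).le
    have h3 := (coord 𝒞 h P _ (hϖ P)).2.2 x hn.1.le
    rw [h.2, map_one] at h3
    exact hP (by beta_reduce; rw [le_antisymm h2 h3, log_one])
  refine ⟨Finsupp.ofSupportFinite _ hfin, fun P π hπ => ?_⟩
  have c1 := coord 𝒞 h P π hπ
  have c2 := coord 𝒞 h P _ (hϖ P)
  rw [Finsupp.ofSupportFinite_coe, exp_log ((𝒞.v P).ne_zero_iff.2 c2.2.1)]
  exact le_antisymm (c2.2.2 π c1.1) (c1.2.2 _ c2.1)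

end LocD

theorem sLoc : SLoc := fun _ _ _ _ _ _ _ 𝒞 =>
  ⟨LocD.loc1 𝒞, fun _ _ h => ⟨LocD.ker 𝒞 h, LocD.coord 𝒞 h, LocD.unif 𝒞 h, LocD.step 𝒞 h,
    LocD.canon 𝒞 h⟩⟩

end Pool.Agent.P.MP_7ede32_ag.Full
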