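import Pool.Agent.P.MP_7ede32_ag.Full.StA

/-! Uniqueness and existence of derivations on a function field. -/

open scoped IntermediateField Polynomial DualNumber

noncomputable section

namespace Pool.Agent.P.MP_7ede32_ag.Full

theorem sUniq : SUniq := by
  intro k F K _ _ _ _ _ j E x halg hadd hmul hc hx z
  have h0 : E 0 = 0 := by simpa using hc 0
  have h1 : E 1 = 0 := by simpa using hc 1
  let S : IntermediateField k F :=
    { carrier := {u | E u = 0}
      mul_mem' := fun {a b} ha hb => by
        simp only [Set.mem_ofPred_eq] at *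
        rw [hmul, ha, hb]; ring
      one_mem' := h1
      add_mem' := fun {a b} ha hb => by
        simp only [Set.mem_ofPred_eq] at *
        rw [hadd, ha, hb]; ring
      zero_mem' := h0
      algebraMap_mem' := hc
      inv_mem' := fun a ha => by
        simp only [Set.mem_ofPred_eq] at *
        by_cases h : a = 0
        · rw [h, inv_zero, h0]
        have := hmul a a⁻¹
        rw [mul_inv_cancel₀ h, h1, ha, mul_zero, add_zero] at this
        exact (mul_eq_zero.1 this.symm).resolve_left ((map_ne_zero j).2 h) }
  have hle : k⟮x⟯ ≤ S := IntermediateField.adjoin_simple_le_iff.2 hx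
  have hS : ∀ u : k⟮x⟯, E (algebraMap k⟮x⟯ F u) = 0 := fun u => hle u.2
  have hpow : ∀ n : ℕ, E (z ^ n) = j (n * z ^ (n - 1)) * E z := by
    intro n
    induction n with
    | zero => simp [h1]
    | succ n ih =>
      rw [pow_succ, hmul, ih]
      cases n with
      | zero => simp
      | succ n => simp only [map_mul, map_pow, map_natCast, Nat.add_sub_cancel]; push_cast; ring
  have key : ∀ p : k⟮x⟯[X], E (Polynomial.aeval z p) =
      j (Polynomial.aeval z p.derivative) * E z := by
    intro p
    induction p using Polynomial.induction_on' with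
    | add p q hp hq => simp only [map_add, hadd, hp, hq, add_mul]
    | monomial n a =>
      rw [Polynomial.derivative_monomial, Polynomial.aeval_monomial, Polynomial.aeval_monomial,
        hmul, hS, hpow]
      simp only [map_mul, map_pow, map_natCast]
      ring
  have hint : IsIntegral k⟮x⟯ z := (halg.isAlgebraic z).isIntegral
  have : CharZero k⟮x⟯ := algebraRat.charZero _
  have hsep : (minpoly k⟮x⟯ z).Separable := (minpoly.irreducible hint).separable
  have h2 := hsep.aeval_derivative_ne_zero (minpoly.aeval k⟮x⟯ z)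
  have h3 := key (minpoly k⟮x⟯ z)
  rw [minpoly.aeval, h0] at h3
  exact (mul_eq_zero.1 h3.symm).resolve_left ((map_ne_zero j).2 h2)

theorem sDer : SDer := by
  intro k F _ _ _ _ x hx halg d₀ b
  let x' : k⟮x⟯ := IntermediateField.AdjoinSimple.gen k x
  let _ : Algebra k[X] k⟮x⟯ := (Polynomial.aeval x').toRingHom.toAlgebra
  let _ : Algebra k[X] F := (Polynomial.aeval x).toRingHom.toAlgebra
  have e1 : ∀ p : k[X], algebraMap k[X] F p = Polynomial.aeval x p := fun _ => rfl
  have e2 : ∀ p : k[X], algebraMap k⟮x⟯ F (algebraMap k[X] k⟮x⟯ p) = Polynomial.aeval x p :=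
    fun p => (Polynomial.aeval_algebraMap_apply F x' p).symm
  have : IsScalarTower k[X] k⟮x⟯ F := IsScalarTower.of_algebraMap_eq fun p => by rw [e1, e2]
  have : FaithfulSMul k[X] k⟮x⟯ := (faithfulSMul_iff_algebraMap_injective _ _).2 fun p q h => by
    apply transcendental_iff_injective.1 hx
    rw [← e2, ← e2, h]
  have : IsFractionRing k[X] k⟮x⟯ := IsFractionRing.of_field _ _ fun z => by
    obtain ⟨p, q, h⟩ := (IntermediateField.mem_adjoin_simple_iff k (z : F)).1 z.2
    refine ⟨p, q, (algebraMap k⟮x⟯ F).injective ?_⟩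
    rw [map_div₀, e2, e2]
    exact h
  have : Algebra.FormallySmooth k[X] k⟮x⟯ :=
    Algebra.FormallySmooth.of_isLocalization (nonZeroDivisors k[X])
  have : CharZero k⟮x⟯ := algebraRat.charZero _
  have : Algebra.FormallyEtale k⟮x⟯ F := Algebra.FormallyEtale.of_isSeparable _ _
  have : Algebra.FormallySmooth k[X] F := Algebra.FormallySmooth.comp k[X] k⟮x⟯ F
  let J : k[X] →+* F[ε] :=
    Polynomial.eval₂RingHom ((dmap (algebraMap k F)).comp d₀.jet) (dn x b)
  have hJ : (fstR F).comp J = algebraMap k[X] F := by
    refine Polynomial.ringHom_ext (fun c => ?_) ?_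
    · simp [J, e1]
    · simp [J, e1]
  obtain ⟨d, hd⟩ := exists_jet_lift J fun r => RingHom.congr_fun hJ r
  refine ⟨d, fun c => ?_, ?_⟩
  · have := hd (Polynomial.C c)
    simpa [J, e1] using this
  · have := hd Polynomial.X
    simpa [J, e1] using this

end Pool.Agent.P.MP_7ede32_ag.Full
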