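import Pool.Agent.P.MP_7ede32_ag.Full.StA

/-!
Cutting linear systems by order conditions, and the Wronskian.
-/

open scoped WithZero
open WithZero

noncomputable section

namespace Pool.Agent.P.MP_7ede32_ag.Full

open MP_68ca4e_ag.M (Curve IsPlace)

namespace Wr

variable {k F V : Type} [Field k] [Field F] [Algebra k F] [AddCommGroup V] [Module k V]
  {w : Valuation F ℤᵐ⁰}

lemma le_of_lt {γ : ℤᵐ⁰} {e : ℤ} (h : γ < exp e) : γ ≤ exp (e - 1) := by
  induction γ using expRecOn with
  | zero => exact zero_le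
  | exp n => rw [exp_lt_exp] at h; rw [exp_le_exp]; omega

lemma step (hw : IsPlace k w) (f : V →ₗ[k] F) (e : ℤ) (W : Submodule k V)
    [FiniteDimensional k W] (h : ∀ u ∈ W, w (f u) ≤ exp e) :
    ∃ W' ≤ W, Module.finrank k W ≤ Module.finrank k W' + 1 ∧ ∀ u ∈ W', w (f u) ≤ exp (e - 1) := by
  by_cases h0 : ∃ u₀ ∈ W, w (f u₀) = exp e
  swap
  · push Not at h0
    exact ⟨W, le_rfl, Nat.le_succ _, fun u hu => le_of_lt ((h u hu).lt_of_ne (h0 u hu))⟩
  obtain ⟨u₀, hu₀, e0⟩ := h0
  let W' : Submodule k V :=
    { carrier := {u | u ∈ W ∧ w (f u) ≤ exp (e - 1)}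
      zero_mem' := ⟨W.zero_mem, by simp⟩
      add_mem' := fun {a b} ha hb => ⟨W.add_mem ha.1 hb.1, by
        rw [map_add]; exact w.map_add_le ha.2 hb.2⟩
      smul_mem' := fun c a ha => ⟨W.smul_mem c ha.1, by
        rw [map_smul, Algebra.smul_def, map_mul]
        exact (mul_le_mul' (hw.const c) ha.2).trans_eq (one_mul _)⟩ }
  have hle : W' ≤ W := fun u hu => hu.1
  have : FiniteDimensional k W' := Submodule.finiteDimensional_of_le hle
  have hf0 : f u₀ ≠ 0 := w.ne_zero_iff.1 (by rw [e0]; exact exp_ne_zero)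
  have hsup : W ≤ W' ⊔ Submodule.span k {u₀} := by
    intro u hu
    obtain ⟨c, hc⟩ := hw.res (f u / f u₀) (by
      rw [map_div₀, e0, div_le_one₀ exp_pos]; exact h u hu)
    have h1 : u - c • u₀ ∈ W' := by
      refine ⟨W.sub_mem hu (W.smul_mem c hu₀), le_of_lt ?_⟩
      have : f (u - c • u₀) = (f u / f u₀ - algebraMap k F c) * f u₀ := by
        rw [map_sub, map_smul, Algebra.smul_def]; field_simp
      rw [this, map_mul, e0]
      exact mul_lt_of_lt_one_left exp_pos hc
    rw [← sub_add_cancel u (c • u₀)]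
    exact Submodule.add_mem_sup h1 (Submodule.smul_mem _ c (Submodule.mem_span_singleton_self _))
  refine ⟨W', hle, (Submodule.finrank_mono hsup).trans
    ((Submodule.finrank_add_le_finrank_add_finrank _ _).trans ?_), fun u hu => hu.2⟩
  rw [finrank_span_singleton (fun h => hf0 (by rw [h, map_zero]))]

/-- elements with distinct values are linearly independent -/
lemma card_le (hc : ∀ c, w (algebraMap k F c) ≤ 1) (U : Submodule k F) [FiniteDimensional k U]
    (J : Finset ℤ) (h : ∀ i ∈ J, ∃ u ∈ U, w u = exp i) : J.card ≤ Module.finrank k U := by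
  choose u hu hv using fun i : J => h i i.2
  have hli : LinearIndependent k fun i : J => (⟨u i, hu i⟩ : U) := by
    refine LinearIndependent.of_comp U.subtype (Fintype.linearIndependent_iff.2 fun c hc0 i => ?_)
    refine MP_68ca4e_ag.M.coeff_eq_zero_of_val hc u 0 (fun _ => True)
      (fun a _ => by rw [hv]; exact exp_pos) (fun a ha => absurd trivial ha)
      (fun a b _ _ e => ?_) c ?_ i trivial
    · rw [hv, hv, exp_inj] at e
      exact Subtype.ext e
    · have : ∑ a, c a • u a = 0 := hc0
      rw [this, map_zero]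
  simpa using hli.fintype_card_le_finrank

end Wr

theorem sCut : SCut := by
  intro k F V _ _ _ _ _ w hw f n e W hW h
  induction n with
  | zero => exact ⟨W, le_rfl, le_rfl, by simpa using h⟩
  | succ n ih =>
    obtain ⟨W1, h1, h2, h3⟩ := ih
    have : FiniteDimensional k W1 := Submodule.finiteDimensional_of_le h1
    obtain ⟨W2, h4, h5, h6⟩ := Wr.step hw f _ W1 h3
    refine ⟨W2, h4.trans h1, by omega, fun u hu => ?_⟩
    rw [Nat.cast_succ, ← sub_sub]
    exact h6 u hu

theorem sWr (h : SLoc) : SWr := by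
  intro k F _ _ _ _ _ 𝒞 d x κ hd hκ N
  obtain ⟨hker, -, -, hval, -⟩ := (h k F 𝒞).2 d x hd
  induction N with
  | zero =>
    intro V _ _
    refine ⟨1, one_ne_zero, fun P I hI _ => ?_⟩
    rw [Finset.card_eq_zero.1 hI]
    simp
  | succ N ih =>
    intro V hV hN
    obtain ⟨a, ha, ha0⟩ : ∃ a ∈ V, a ≠ 0 := by
      refine (Submodule.ne_bot_iff V).1 fun e => ?_
      rw [e, finrank_bot] at hN
      omega
    let φ : F →ₗ[k] F :=
      { toFun := fun u => d.D (u / a)
        map_add' := fun u u' => by rw [add_div, d.D_add]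
        map_smul' := fun c u => by
          rw [Algebra.smul_def, mul_div_assoc, d.D_mul, hd.1, mul_zero, add_zero,
            RingHom.id_apply, Algebra.smul_def] }
    have hk : LinearMap.ker (φ.domRestrict V) = Submodule.span k {(⟨a, ha⟩ : V)} := by
      refine le_antisymm (fun u hu => ?_) ((Submodule.span_singleton_le_iff_mem _ _).2 ?_)
      · obtain ⟨c, hc⟩ := hker _ hu
        refine Submodule.mem_span_singleton.2 ⟨c, Subtype.ext ?_⟩
        change c • a = (u : F)
        rw [Algebra.smul_def, ← hc]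
        exact div_mul_cancel₀ _ ha0
      · change d.D (a / a) = 0
        rw [div_self ha0, d.D_one]
    have hr : Module.finrank k (V.map φ) = N := by
      have := LinearMap.finrank_range_add_finrank_ker (φ.domRestrict V)
      rw [LinearMap.range_domRestrict, hk, hN,
        finrank_span_singleton (fun e => ha0 (congrArg Subtype.val e))] at this
      omega
    obtain ⟨W, hW, H⟩ := ih (V.map φ) inferInstance hr
    refine ⟨a ^ (N + 1) * W, mul_ne_zero (pow_ne_zero _ ha0) hW, fun P I hI hIV => ?_⟩
    obtain ⟨π, hπ⟩ := 𝒞.unif P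
    obtain ⟨n, hn⟩ : ∃ n, 𝒞.v P a = exp n :=
      ⟨_, (exp_log ((𝒞.v P).ne_zero_iff.2 ha0)).symm⟩
    have hnI : n ∈ I := by
      by_contra hnI
      have := Wr.card_le (𝒞.const P) V (insert n I) (by
        intro i hi
        rcases Finset.mem_insert.1 hi with rfl | hi
        · exact ⟨a, ha, hn⟩
        · exact hIV i hi)
      rw [Finset.card_insert_of_notMem hnI] at this
      omega
    have hinj : Function.Injective fun i : ℤ => i - n + 1 + κ P := fun i j e => by
      simp only at e; omega
    have hc : (I.erase n).card = N := by rw [Finset.card_erase_of_mem hnI, hI]; rfl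
    have := H P ((I.erase n).image fun i => i - n + 1 + κ P)
      (by rw [Finset.card_image_of_injective _ hinj, hc]) (by
        intro j hj
        obtain ⟨i, hi, rfl⟩ := Finset.mem_image.1 hj
        obtain ⟨hi1, hi2⟩ := Finset.mem_erase.1 hi
        obtain ⟨u, hu, e⟩ := hIV i hi2
        refine ⟨φ u, Submodule.mem_map_of_mem hu, ?_⟩
        change 𝒞.v P (d.D (u / a)) = _
        rw [hval P π (u / a) (i - n) hπ (by rw [map_div₀, e, hn, exp_sub]) (sub_ne_zero.2 hi1),
          hκ P π hπ, ← exp_add])
    rw [map_mul, map_pow, hn, this, ← exp_nsmul, ← exp_add, Finset.sum_image hinj.injOn,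
      ← Finset.add_sum_erase I (fun i => i) hnI]
    congr 1
    simp only [Finset.sum_add_distrib, Finset.sum_sub_distrib, Finset.sum_const, hc, nsmul_eq_mul,
      Nat.choose_succ_succ' N 1, Nat.choose_one_right]
    push_cast
    ring

end Pool.Agent.P.MP_7ede32_ag.Full
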