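import Pool.Agent.P.MP_7ede32_ag.FDer

/-!
The field of meromorphic functions on the plane and the field of meromorphic germs at the origin.
-/

noncomputable section

namespace Pool.Agent.P.MP_7ede32_ag.Full

open Filter Topology

theorem cd_iff {p : ℂ → Prop} : (∀ᶠ z in codiscrete ℂ, p z) ↔ ∀ x, ∀ᶠ z in 𝓝[≠] x, p z := by
  rw [Filter.Eventually, codiscrete, mem_codiscreteWithin_iff_forall_mem_nhdsNE]
  simp [Filter.Eventually]

theorem cd_deriv {f g : ℂ → ℂ} (h : f =ᶠ[codiscrete ℂ] g) : deriv f =ᶠ[codiscrete ℂ] deriv g :=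
  cd_iff.2 fun x => EventuallyEq.nhdsNE_deriv (cd_iff.1 h x)

theorem cd_analytic {f : ℂ → ℂ} (h : Meromorphic f) : ∀ᶠ z in codiscrete ℂ, AnalyticAt ℂ f z :=
  (meromorphicOn_univ.2 h).analyticAt_mem_codiscreteWithin

theorem cd_eq {f g : ℂ → ℂ} (hf : Continuous f) (hg : Continuous g)
    (h : f =ᶠ[codiscrete ℂ] g) : f = g :=
  funext fun x => tendsto_nhds_unique_of_eventuallyEq
    (hf.continuousAt.tendsto.mono_left nhdsWithin_le_nhds)
    (hg.continuousAt.tendsto.mono_left nhdsWithin_le_nhds) (cd_iff.1 h x)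

instance : (codiscrete ℂ).NeBot := ⟨fun h => by
  have h1 : ∀ᶠ _z in codiscrete ℂ, False := by rw [h]; exact eventually_bot
  exact (cd_iff.1 h1 0).exists.elim fun _ h => h⟩

/-- germs of meromorphic functions -/
def merS : Subring (Germ (codiscrete ℂ) ℂ) where
  carrier := {g | ∃ f : ℂ → ℂ, Meromorphic f ∧ (f : Germ (codiscrete ℂ) ℂ) = g}
  mul_mem' := by
    rintro _ _ ⟨f, hf, rfl⟩ ⟨g, hg, rfl⟩
    exact ⟨f * g, hf.mul hg, rfl⟩
  one_mem' := ⟨fun _ => 1, Meromorphic.const 1, rfl⟩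
  add_mem' := by
    rintro _ _ ⟨f, hf, rfl⟩ ⟨g, hg, rfl⟩
    exact ⟨f + g, hf.add hg, rfl⟩
  zero_mem' := ⟨fun _ => 0, Meromorphic.const 0, rfl⟩
  neg_mem' := by
    rintro _ ⟨f, hf, rfl⟩
    exact ⟨-f, hf.neg, rfl⟩

theorem ne_top_of_ne {f : ℂ → ℂ} (hf : Meromorphic f) (h : ¬f =ᶠ[codiscrete ℂ] 0) (z : ℂ) :
    meromorphicOrderAt f z ≠ ⊤ := by
  refine hf.exists_meromorphicOrderAt_ne_top_iff_forall.1 ?_ z
  by_contra h1
  push Not at h1
  exact h (cd_iff.2 fun x => meromorphicOrderAt_eq_top_iff.1 (h1 x))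

theorem merS_isField : IsField merS where
  exists_pair_ne := ⟨0, 1, fun h => by
    have h1 : (fun _ : ℂ => (0 : ℂ)) =ᶠ[codiscrete ℂ] fun _ => 1 :=
      Germ.coe_eq.1 (congrArg Subtype.val h)
    simpa using congrFun (cd_eq continuous_const continuous_const h1) 0⟩
  mul_comm := mul_comm
  mul_inv_cancel := by
    rintro ⟨_, f, hf, rfl⟩ h
    refine ⟨⟨_, f⁻¹, hf.inv, rfl⟩, Subtype.ext (Germ.coe_eq.2 ?_)⟩
    have h1 := (meromorphicOn_univ.2 hf).eventually_codiscreteWithin_apply_ne_zero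
      fun z _ => ne_top_of_ne hf (fun h' => h (Subtype.ext (Germ.coe_eq.2 h'))) z
    filter_upwards [h1] with z hz
    exact mul_inv_cancel₀ hz

/-- the field of meromorphic functions on the plane -/
def Mer : Type := merS

instance : CommRing Mer := inferInstanceAs (CommRing merS)

instance : Field Mer := IsField.toField (R := Mer) merS_isField

namespace Mer

/-- the germ -/
def ev : Mer →+* Germ (codiscrete ℂ) ℂ := merS.subtype

theorem ev_inj : Function.Injective ev := Subtype.val_injective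

/-- a meromorphic function in the class -/
def rep (f : Mer) : ℂ → ℂ := Exists.choose (Subtype.property (p := (· ∈ merS)) f)

theorem mer_rep (f : Mer) : Meromorphic f.rep :=
  (Exists.choose_spec (Subtype.property (p := (· ∈ merS)) f)).1

theorem ev_rep (f : Mer) : ev f = (f.rep : Germ (codiscrete ℂ) ℂ) :=
  (Exists.choose_spec (Subtype.property (p := (· ∈ merS)) f)).2.symm

/-- the class of a meromorphic function -/
def mk (f : ℂ → ℂ) (hf : Meromorphic f) : Mer := (⟨_, f, hf, rfl⟩ : merS)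

theorem ev_mk (f : ℂ → ℂ) (hf : Meromorphic f) : ev (mk f hf) = (f : Germ (codiscrete ℂ) ℂ) :=
  rfl

theorem rep_eq {f : Mer} {A : ℂ → ℂ} (h : ev f = (A : Germ (codiscrete ℂ) ℂ)) :
    f.rep =ᶠ[codiscrete ℂ] A := Germ.coe_eq.1 ((ev_rep f).symm.trans h)

theorem rep_mk (f : ℂ → ℂ) (hf : Meromorphic f) : (mk f hf).rep =ᶠ[codiscrete ℂ] f :=
  rep_eq rfl

theorem rep_add (f g : Mer) : (f + g).rep =ᶠ[codiscrete ℂ] f.rep + g.rep :=
  rep_eq (by rw [map_add, ev_rep, ev_rep]; rfl)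

theorem rep_mul (f g : Mer) : (f * g).rep =ᶠ[codiscrete ℂ] f.rep * g.rep :=
  rep_eq (by rw [map_mul, ev_rep, ev_rep]; rfl)

theorem rep_neg (f : Mer) : (-f).rep =ᶠ[codiscrete ℂ] -f.rep :=
  rep_eq (by rw [map_neg, ev_rep]; rfl)

theorem rep_zero : (0 : Mer).rep =ᶠ[codiscrete ℂ] fun _ => 0 := rep_eq (map_zero ev)

theorem rep_one : (1 : Mer).rep =ᶠ[codiscrete ℂ] fun _ => 1 := rep_eq (map_one ev)

theorem rep_nat (n : ℕ) : (n : Mer).rep =ᶠ[codiscrete ℂ] fun _ => (n : ℂ) :=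
  rep_eq (by rw [map_natCast]; rfl)

theorem rep_pow (f : Mer) (n : ℕ) : (f ^ n).rep =ᶠ[codiscrete ℂ] fun z => f.rep z ^ n :=
  rep_eq (by rw [map_pow, ev_rep]; rfl)

theorem ext' {f g : Mer} (h : f.rep =ᶠ[codiscrete ℂ] g.rep) : f = g :=
  ev_inj (by rw [ev_rep, ev_rep]; exact Germ.coe_eq.2 h)

theorem eq_zero_iff {f : Mer} : f = 0 ↔ f.rep =ᶠ[codiscrete ℂ] fun _ => 0 :=
  ⟨fun h => h ▸ rep_zero, fun h => ext' (h.trans rep_zero.symm)⟩

theorem ne_top {f : Mer} (h : f ≠ 0) (z : ℂ) : meromorphicOrderAt f.rep z ≠ ⊤ :=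
  ne_top_of_ne f.mer_rep (fun h' => h (eq_zero_iff.2 h')) z

theorem rep_ne {f : Mer} (h : f ≠ 0) : ∀ᶠ z in codiscrete ℂ, f.rep z ≠ 0 :=
  (meromorphicOn_univ.2 f.mer_rep).eventually_codiscreteWithin_apply_ne_zero fun z _ => ne_top h z

theorem rep_inv (f : Mer) : f⁻¹.rep =ᶠ[codiscrete ℂ] fun z => (f.rep z)⁻¹ := by
  rcases eq_or_ne f 0 with rfl | h
  · rw [inv_zero]
    exact rep_zero.mono fun z hz => by simp [hz]
  · filter_upwards [rep_ne h, rep_mul f f⁻¹, rep_one] with z h1 h2 h3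
    rw [mul_inv_cancel₀ h, h3] at h2
    exact eq_inv_of_mul_eq_one_right h2.symm

theorem rep_div (f g : Mer) : (f / g).rep =ᶠ[codiscrete ℂ] fun z => f.rep z / g.rep z := by
  filter_upwards [rep_mul f g⁻¹, rep_inv g] with z h1 h2
  rw [div_eq_mul_inv, h1, Pi.mul_apply, h2, div_eq_mul_inv]

instance : CharZero Mer := ⟨fun m n h => by
  have h1 := (rep_nat m).symm.trans (h ▸ rep_nat n)
  exact_mod_cast congrFun (cd_eq continuous_const continuous_const h1) 0⟩

/-- constant functions -/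
def const : ℂ →+* Mer where
  toFun c := mk (fun _ => c) (Meromorphic.const c)
  map_one' := rfl
  map_mul' _ _ := rfl
  map_zero' := rfl
  map_add' _ _ := rfl

theorem rep_const (c : ℂ) : (const c).rep =ᶠ[codiscrete ℂ] fun _ => c :=
  rep_mk _ (Meromorphic.const c)

theorem rep_eval₂ {ι : Type} (ξ : ι → Mer) (P : MvPolynomial ι ℂ) :
    (P.eval₂ const ξ).rep =ᶠ[codiscrete ℂ] fun z => P.eval fun i => (ξ i).rep z := by
  induction P using MvPolynomial.induction_on with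
  | C c => simpa using rep_const c
  | add p q hp hq =>
    rw [MvPolynomial.eval₂_add]
    filter_upwards [rep_add (p.eval₂ const ξ) (q.eval₂ const ξ), hp, hq] with z h1 h2 h3
    simp [h1, h2, h3]
  | mul_X p i hp =>
    rw [MvPolynomial.eval₂_mul, MvPolynomial.eval₂_X]
    filter_upwards [rep_mul (p.eval₂ const ξ) (ξ i), hp] with z h1 h2
    simp [h1, h2]

/-- the derivative -/
def D (f : Mer) : Mer := mk (deriv f.rep) f.mer_rep.deriv

theorem rep_D (f : Mer) : (D f).rep =ᶠ[codiscrete ℂ] deriv f.rep := rep_mk _ _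

/-- the derivative as a derivation -/
def der : Der Mer where
  D := D
  D_add f g := ext' (by
    filter_upwards [rep_D (f + g), rep_add (D f) (D g), rep_D f, rep_D g, cd_deriv (rep_add f g),
      cd_analytic f.mer_rep, cd_analytic g.mer_rep] with z h1 h2 h3 h4 h5 h6 h7
    rw [h1, h2, Pi.add_apply, h3, h4, h5, deriv_add h6.differentiableAt h7.differentiableAt])
  D_mul f g := ext' (by
    filter_upwards [rep_D (f * g), rep_add (f * D g) (g * D f), rep_mul f (D g), rep_mul g (D f),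
      rep_D f, rep_D g, cd_deriv (rep_mul f g),
      cd_analytic f.mer_rep, cd_analytic g.mer_rep] with z h1 h2 h2' h2'' h3 h4 h5 h6 h7
    rw [h1, h2, Pi.add_apply, h2', h2'', Pi.mul_apply, Pi.mul_apply, h3, h4, h5,
      deriv_mul h6.differentiableAt h7.differentiableAt]
    ring)

/-- the derivative times a fixed function -/
def derM (c : Mer) : Der Mer where
  D f := c * D f
  D_add f g := by rw [show D (f + g) = D f + D g from der.D_add f g, mul_add]
  D_mul f g := by rw [show D (f * g) = f * D g + g * D f from der.D_mul f g]; ring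

theorem order_congr {f : Mer} {A : ℂ → ℂ} (h : f.rep =ᶠ[codiscrete ℂ] A) (z : ℂ) :
    meromorphicOrderAt f.rep z = meromorphicOrderAt A z :=
  meromorphicOrderAt_congr (cd_iff.1 h z)

theorem D_const (c : ℂ) : D (const c) = 0 := eq_zero_iff.2 (by
  filter_upwards [rep_D (const c), cd_deriv (rep_const c)] with z h1 h2
  rw [h1, h2, deriv_const])

theorem const_of_D {f : Mer} (h : D f = 0) : ∃ c : ℂ, f = const c := by
  have h1 : deriv f.rep =ᶠ[codiscrete ℂ] 0 := (rep_D f).symm.trans (h ▸ rep_eq (map_zero ev))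
  have hm := meromorphicOn_univ.2 f.mer_rep
  have h2 : f.rep =ᶠ[codiscrete ℂ] toMeromorphicNFOn f.rep Set.univ :=
    toMeromorphicNFOn_eqOn_codiscrete hm
  have h3 : ∀ z, AnalyticAt ℂ (toMeromorphicNFOn f.rep Set.univ) z := by
    intro z
    rw [← (meromorphicNFOn_toMeromorphicNFOn f.rep Set.univ
      (Set.mem_univ z)).meromorphicOrderAt_nonneg_iff_analyticAt, ← order_congr h2]
    by_contra h4
    push Not at h4
    obtain ⟨n, hn⟩ := WithTop.ne_top_iff_exists.1 h4.ne_top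
    rw [← hn] at h4
    have h5 : n < 0 := by exact_mod_cast h4
    have h6 := meromorphicOrderAt_deriv_eq_sub_one (by exact_mod_cast h5.ne) hn.symm
    rw [meromorphicOrderAt_eq_top_iff.2 (cd_iff.1 h1 z)] at h6
    exact WithTop.top_ne_coe h6
  have h4 := cd_eq (continuous_iff_continuousAt.2 fun z => (h3 z).deriv.continuousAt)
    continuous_const ((cd_deriv h2).symm.trans h1)
  refine ⟨toMeromorphicNFOn f.rep Set.univ 0, ext' ((h2.trans
    (Eventually.of_forall fun z => ?_)).trans (rep_const _).symm)⟩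
  exact is_const_of_deriv_eq_zero (fun z => (h3 z).differentiableAt) (congrFun h4) z 0

end Mer

/-- meromorphic germs at the origin -/
def mgS : Subring (Germ (𝓝[≠] (0 : ℂ)) ℂ) where
  carrier := {g | ∃ f : ℂ → ℂ, MeromorphicAt f 0 ∧ (f : Germ (𝓝[≠] (0 : ℂ)) ℂ) = g}
  mul_mem' := by
    rintro _ _ ⟨f, hf, rfl⟩ ⟨g, hg, rfl⟩
    exact ⟨f * g, hf.mul hg, rfl⟩
  one_mem' := ⟨fun _ => 1, MeromorphicAt.const 1 0, rfl⟩
  add_mem' := by
    rintro _ _ ⟨f, hf, rfl⟩ ⟨g, hg, rfl⟩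
    exact ⟨f + g, hf.add hg, rfl⟩
  zero_mem' := ⟨fun _ => 0, MeromorphicAt.const 0 0, rfl⟩
  neg_mem' := by
    rintro _ ⟨f, hf, rfl⟩
    exact ⟨-f, hf.neg, rfl⟩

theorem mgS_isField : IsField mgS where
  exists_pair_ne := ⟨0, 1, fun h => by
    have h1 : (fun _ : ℂ => (0 : ℂ)) =ᶠ[𝓝[≠] (0 : ℂ)] fun _ => 1 :=
      Germ.coe_eq.1 (congrArg Subtype.val h)
    simpa using h1.exists⟩
  mul_comm := mul_comm
  mul_inv_cancel := by
    rintro ⟨_, f, hf, rfl⟩ h
    refine ⟨⟨_, f⁻¹, hf.inv, rfl⟩, Subtype.ext (Germ.coe_eq.2 ?_)⟩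
    filter_upwards [hf.eventually_eq_zero_or_eventually_ne_zero.resolve_left
      fun h' => h (Subtype.ext (Germ.coe_eq.2 h'))] with z hz
    exact mul_inv_cancel₀ hz

/-- the field of meromorphic germs at the origin -/
def MG : Type := mgS

instance : CommRing MG := inferInstanceAs (CommRing mgS)

instance : Field MG := IsField.toField (R := MG) mgS_isField

namespace MG

/-- the germ -/
def ev : MG →+* Germ (𝓝[≠] (0 : ℂ)) ℂ := mgS.subtype

theorem ev_inj : Function.Injective ev := Subtype.val_injective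

/-- a function in the class -/
def rep (f : MG) : ℂ → ℂ := Exists.choose (Subtype.property (p := (· ∈ mgS)) f)

theorem mer_rep (f : MG) : MeromorphicAt f.rep 0 :=
  (Exists.choose_spec (Subtype.property (p := (· ∈ mgS)) f)).1

theorem ev_rep (f : MG) : ev f = (f.rep : Germ (𝓝[≠] (0 : ℂ)) ℂ) :=
  (Exists.choose_spec (Subtype.property (p := (· ∈ mgS)) f)).2.symm

/-- the class of a function that is meromorphic at the origin -/
def mk (f : ℂ → ℂ) (hf : MeromorphicAt f 0) : MG := (⟨_, f, hf, rfl⟩ : mgS)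

theorem rep_eq {f : MG} {A : ℂ → ℂ} (h : ev f = (A : Germ (𝓝[≠] (0 : ℂ)) ℂ)) :
    f.rep =ᶠ[𝓝[≠] 0] A := Germ.coe_eq.1 ((ev_rep f).symm.trans h)

theorem rep_mk (f : ℂ → ℂ) (hf : MeromorphicAt f 0) : (mk f hf).rep =ᶠ[𝓝[≠] 0] f := rep_eq rfl

theorem rep_add (f g : MG) : (f + g).rep =ᶠ[𝓝[≠] 0] f.rep + g.rep :=
  rep_eq (by rw [map_add, ev_rep, ev_rep]; rfl)

theorem rep_mul (f g : MG) : (f * g).rep =ᶠ[𝓝[≠] 0] f.rep * g.rep :=
  rep_eq (by rw [map_mul, ev_rep, ev_rep]; rfl)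

theorem rep_neg (f : MG) : (-f).rep =ᶠ[𝓝[≠] 0] -f.rep :=
  rep_eq (by rw [map_neg, ev_rep]; rfl)

theorem rep_zero : (0 : MG).rep =ᶠ[𝓝[≠] 0] fun _ => 0 := rep_eq (map_zero ev)

theorem rep_one : (1 : MG).rep =ᶠ[𝓝[≠] 0] fun _ => 1 := rep_eq (map_one ev)

theorem rep_pow (f : MG) (n : ℕ) : (f ^ n).rep =ᶠ[𝓝[≠] 0] fun z => f.rep z ^ n :=
  rep_eq (by rw [map_pow, ev_rep]; rfl)

theorem ext' {f g : MG} (h : f.rep =ᶠ[𝓝[≠] 0] g.rep) : f = g :=
  ev_inj (by rw [ev_rep, ev_rep]; exact Germ.coe_eq.2 h)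

theorem eq_zero_iff {f : MG} : f = 0 ↔ f.rep =ᶠ[𝓝[≠] 0] fun _ => 0 :=
  ⟨fun h => h ▸ rep_zero, fun h => ext' (h.trans rep_zero.symm)⟩

theorem rep_ne {f : MG} (h : f ≠ 0) : ∀ᶠ z in 𝓝[≠] 0, f.rep z ≠ 0 :=
  f.mer_rep.eventually_eq_zero_or_eventually_ne_zero.resolve_left fun h' => h (eq_zero_iff.2 h')

theorem rep_inv (f : MG) : f⁻¹.rep =ᶠ[𝓝[≠] 0] fun z => (f.rep z)⁻¹ := by
  rcases eq_or_ne f 0 with rfl | h
  · rw [inv_zero]
    exact rep_zero.mono fun z hz => by simp [hz]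
  · filter_upwards [rep_ne h, rep_mul f f⁻¹, rep_one] with z h1 h2 h3
    rw [mul_inv_cancel₀ h, h3] at h2
    exact eq_inv_of_mul_eq_one_right h2.symm

theorem rep_div (f g : MG) : (f / g).rep =ᶠ[𝓝[≠] 0] fun z => f.rep z / g.rep z := by
  filter_upwards [rep_mul f g⁻¹, rep_inv g] with z h1 h2
  rw [div_eq_mul_inv, h1, Pi.mul_apply, h2, div_eq_mul_inv]

/-- constant germs -/
def const : ℂ →+* MG where
  toFun c := mk (fun _ => c) (MeromorphicAt.const c 0)
  map_one' := rfl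
  map_mul' _ _ := rfl
  map_zero' := rfl
  map_add' _ _ := rfl

theorem rep_const (c : ℂ) : (const c).rep =ᶠ[𝓝[≠] 0] fun _ => c :=
  rep_mk _ (MeromorphicAt.const c 0)

instance : CharZero MG := (RingHom.charZero_iff const.injective).1 inferInstance

theorem rep_eval₂ {ι : Type} (ξ : ι → MG) (P : MvPolynomial ι ℂ) :
    (P.eval₂ const ξ).rep =ᶠ[𝓝[≠] 0] fun z => P.eval fun i => (ξ i).rep z := by
  induction P using MvPolynomial.induction_on with
  | C c => simpa using rep_const c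
  | add p q hp hq =>
    rw [MvPolynomial.eval₂_add]
    filter_upwards [rep_add (p.eval₂ const ξ) (q.eval₂ const ξ), hp, hq] with z h1 h2 h3
    simp [h1, h2, h3]
  | mul_X p i hp =>
    rw [MvPolynomial.eval₂_mul, MvPolynomial.eval₂_X]
    filter_upwards [rep_mul (p.eval₂ const ξ) (ξ i), hp] with z h1 h2
    simp [h1, h2]

/-- the derivative -/
def D (f : MG) : MG := mk (deriv f.rep) f.mer_rep.deriv

theorem rep_D (f : MG) : (D f).rep =ᶠ[𝓝[≠] 0] deriv f.rep := rep_mk _ _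

/-- the derivative as a derivation -/
def der : Der MG where
  D := D
  D_add f g := ext' (by
    filter_upwards [rep_D (f + g), rep_add (D f) (D g), rep_D f, rep_D g,
      (rep_add f g).nhdsNE_deriv, f.mer_rep.eventually_analyticAt,
      g.mer_rep.eventually_analyticAt] with z h1 h2 h3 h4 h5 h6 h7
    rw [h1, h2, Pi.add_apply, h3, h4, h5, deriv_add h6.differentiableAt h7.differentiableAt])
  D_mul f g := ext' (by
    filter_upwards [rep_D (f * g), rep_add (f * D g) (g * D f), rep_mul f (D g), rep_mul g (D f),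
      rep_D f, rep_D g, (rep_mul f g).nhdsNE_deriv, f.mer_rep.eventually_analyticAt,
      g.mer_rep.eventually_analyticAt] with z h1 h2 h2' h2'' h3 h4 h5 h6 h7
    rw [h1, h2, Pi.add_apply, h2', h2'', Pi.mul_apply, Pi.mul_apply, h3, h4, h5,
      deriv_mul h6.differentiableAt h7.differentiableAt]
    ring)

theorem D_const (c : ℂ) : D (const c) = 0 := eq_zero_iff.2 (by
  filter_upwards [rep_D (const c), (rep_const c).nhdsNE_deriv] with z h1 h2
  rw [h1, h2, deriv_const])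

/-- the order of vanishing -/
def ord (f : MG) : WithTop ℤ := meromorphicOrderAt f.rep 0

theorem ord_congr {f : MG} {A : ℂ → ℂ} (h : f.rep =ᶠ[𝓝[≠] 0] A) :
    f.ord = meromorphicOrderAt A 0 := meromorphicOrderAt_congr h

theorem ord_eq_top {f : MG} : f.ord = ⊤ ↔ f = 0 :=
  meromorphicOrderAt_eq_top_iff.trans eq_zero_iff.symm

theorem ord_mul (f g : MG) : (f * g).ord = f.ord + g.ord :=
  (ord_congr (rep_mul f g)).trans (meromorphicOrderAt_mul f.mer_rep g.mer_rep)

theorem ord_add (f g : MG) : min f.ord g.ord ≤ (f + g).ord :=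
  (meromorphicOrderAt_add f.mer_rep g.mer_rep).trans_eq (ord_congr (rep_add f g)).symm

theorem ord_neg (f : MG) : (-f).ord = f.ord :=
  (ord_congr (rep_neg f)).trans meromorphicOrderAt_neg.symm

theorem ord_inv (f : MG) : f⁻¹.ord = -f.ord :=
  (ord_congr (rep_inv f)).trans (meromorphicOrderAt_inv (f := f.rep))

theorem ord_const {c : ℂ} (hc : c ≠ 0) : (const c).ord = 0 := by
  classical
  rw [ord_congr (rep_const c), meromorphicOrderAt_const, if_neg hc]

theorem ord_D {f : MG} {n : ℤ} (hn : n ≠ 0) (h : f.ord = n) : (D f).ord = (n - 1 : ℤ) :=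
  (ord_congr (rep_D f)).trans (meromorphicOrderAt_deriv_eq_sub_one (by exact_mod_cast hn) h)

theorem ord_nonneg_iff {f : MG} : 0 ≤ f.ord ↔ ∃ g, AnalyticAt ℂ g 0 ∧ f.rep =ᶠ[𝓝[≠] 0] g :=
  f.mer_rep.meromorphicOrderAt_nonneg_iff

/-- the ring of holomorphic germs -/
def O : ValuationSubring MG where
  carrier := {f | 0 ≤ f.ord}
  mul_mem' {f g} hf hg := by
    show 0 ≤ (f * g).ord
    rw [ord_mul]
    exact add_nonneg hf hg
  one_mem' := by
    show 0 ≤ (const 1).ord
    rw [ord_const one_ne_zero]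
  add_mem' {f g} hf hg := (le_min hf hg).trans (ord_add f g)
  zero_mem' := by
    show 0 ≤ (0 : MG).ord
    rw [ord_eq_top.2 rfl]
    exact le_top
  neg_mem' {f} hf := by
    show 0 ≤ (-f).ord
    rwa [ord_neg]
  mem_or_inv_mem' f := by
    show 0 ≤ f.ord ∨ 0 ≤ f⁻¹.ord
    rw [ord_inv]
    induction f.ord using WithTop.recTopCoe with
    | top => exact Or.inl le_top
    | coe n =>
      rcases le_total 0 n with h | h
      · exact Or.inl (by exact_mod_cast h)
      · refine Or.inr ?_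
        rw [← WithTop.LinearOrderedAddCommGroup.coe_neg]
        exact_mod_cast neg_nonneg.2 h

theorem mem_O {f : MG} : f ∈ O ↔ 0 ≤ f.ord := Iff.rfl

theorem const_mem_O (c : ℂ) : const c ∈ O :=
  ord_nonneg_iff.2 ⟨_, analyticAt_const, rep_const c⟩

end MG

end Pool.Agent.P.MP_7ede32_ag.Full
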