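import Pool.Agent.P.MP_7ede32_ag.Full.StC
import Pool.Agent.P.MP_7ede32_ag.Geo.Bridge

/-!
Clearing denominators, the identity theorem for polynomials in the family, degenerate curves.
-/

open Filter Topology Metric Set

noncomputable section

namespace Pool.Agent.P.MP_7ede32_ag.Full

open Geo

theorem sHom : SHom := by
  intro X _ S L M P
  induction P using MvPolynomial.induction_on with
  | C a =>
    refine ⟨0, fun x y => M.den x y * a, fun x y hy => ⟨fun e he hx => ?_, ?_⟩⟩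
    · exact ((M.an x y hy).1 e he hx).mul analyticAt_const
    · simp [Mf.ev]
  | add P Q hP hQ =>
    obtain ⟨d, F, hF⟩ := hP
    obtain ⟨d', F', hF'⟩ := hQ
    refine ⟨d + d' + 1, fun x y => F x y * M.den x y ^ (d' + 1) + F' x y * M.den x y ^ (d + 1),
      fun x y hy => ⟨fun e he hx => ?_, ?_⟩⟩
    · exact (((hF x y hy).1 e he hx).mul (((M.an x y hy).1 e he hx).pow _)).add
        (((hF' x y hy).1 e he hx).mul (((M.an x y hy).1 e he hx).pow _))
    · have h1 : M.ev (P + Q) y = M.ev P y + M.ev Q y := map_add _ _ _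
      show F x y * M.den x y ^ (d' + 1) + F' x y * M.den x y ^ (d + 1) = _
      rw [(hF x y hy).2, (hF' x y hy).2, h1]
      ring
  | mul_X P i hP =>
    obtain ⟨d, F, hF⟩ := hP
    refine ⟨d + 1, fun x y => F x y * M.num x i y, fun x y hy => ⟨fun e he hx => ?_, ?_⟩⟩
    · exact ((hF x y hy).1 e he hx).mul ((M.an x y hy).2 i e he hx)
    · have h1 : M.ev (P * MvPolynomial.X i) y = M.ev P y * M.f i y := by simp [Mf.ev]
      show F x y * M.num x i y = _
      rw [(hF x y hy).2, h1, M.f_eq x i y hy]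
      by_cases h0 : M.den x y = 0
      · simp [h0]
      · field_simp
        ring

namespace Hom

variable {X : Type} [MetricSpace X] {S : Sf0 X} {L : PeriodPair} {M : Mf S L}
  {P : MvPolynomial M.ι ℂ} {d : ℕ} {F : X → X → ℂ}

lemma zero_iff (hF : ∀ x, ∀ y ∈ M.U x, S.AnAt (F x) y ∧ F x y = M.den x y ^ (d + 1) * M.ev P y)
    {x y : X} (hy : y ∈ M.U x) : F x y = 0 ↔ (y ∉ M.Z → M.ev P y = 0) := by
  rw [(hF x y hy).2, M.Z_iff x y hy, mul_eq_zero, pow_eq_zero_iff (Nat.succ_ne_zero d),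
    or_iff_not_imp_left]

end Hom

theorem sNz (h : SHom) : SNz := by
  intro X _ _ S L M P hP x hx
  obtain ⟨d, F, hF⟩ := h X S L M P
  refine hP fun y₀ hy₀ => (all_of_local (P := fun x => ∀ᶠ y in 𝓝 x, y ∉ M.Z → M.ev P y = 0)
    (fun _ h => h.eventually_nhds) (fun x hx => ?_) (x := x) ?_ y₀).self_of_nhds hy₀
  · obtain ⟨e, he, hxe⟩ := S.cover x
    have hU := (M.U_open x).mem_nhds (M.mem_U x)
    obtain ⟨y, a1, a2, a3, a4⟩ := (hx.and_eventually (((e.continuousAt hxe).eventually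
      (zero_on_ball ((hF x x (M.mem_U x)).1 e he hxe))).and
        ((e.open_source.eventually_mem hxe).and hU))).exists
    have h1 : ∀ᶠ z in 𝓝 y, F x z = 0 := by
      filter_upwards [a1, (M.U_open x).mem_nhds a4] with z b1 b2
      exact (Hom.zero_iff hF b2).2 b1
    filter_upwards [(e.continuousAt hxe).eventually (a2 0 (Sf0.symm_eventually a3 h1)),
      e.open_source.mem_nhds hxe, hU] with z b1 b2 b3
    refine (Hom.zero_iff hF b3).1 ?_
    simpa [e.left_inv b2] using b1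
  · exact hx.mono fun y h1 h2 => not_not.1 fun h3 => h1 ⟨h2, h3⟩

theorem sDegA (h1 : SHom) (h2 : SNz) : SDegA := by
  intro X _ _ S L M h hg x
  by_cases h0 : ∃ z, h z ∉ M.Z
  · obtain ⟨P, a1, a2⟩ : ∃ P, (∀ z, h z ∉ M.Z → M.ev P (h z) = 0) ∧ ¬ M.Van P := by
      by_contra hc
      exact hg ⟨h0, fun P hP => not_not.1 fun h3 => hc ⟨P, hP, h3⟩⟩
    obtain ⟨d, F, hF⟩ := h1 X S L M P
    have hU := (M.U_open x).mem_nhds (M.mem_U x)
    refine ⟨F x, (hF x x (M.mem_U x)).1, fun h3 => ?_, ?_⟩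
    · obtain ⟨y, b1, b2, b3⟩ := ((h2 X S L M P a2 x).and_eventually (h3.and hU)).exists
      exact b1.2 ((Hom.zero_iff hF b3).1 b2 b1.1)
    · filter_upwards [hU] with y b1
      rintro ⟨z, rfl⟩
      exact (Hom.zero_iff hF b1).2 (a1 z)
  · obtain ⟨F, a1, a2, a3⟩ := M.crv_Z x
    refine ⟨F, a1, a2, a3.mono fun y b1 => ?_⟩
    rintro ⟨z, rfl⟩
    exact b1 (not_not.1 fun h3 => h0 ⟨z, h3⟩)

end Pool.Agent.P.MP_7ede32_ag.Full
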