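import Pool.Agent.P.MP_7ede32_ag.Full.StC

/-!
The family of meromorphic functions attached to pluricanonical sections.
-/

open Filter Topology Metric Set

noncomputable section

namespace Pool.Agent.P.MP_7ede32_ag.Full

open Geo
open Ell (E2 jac det2)

namespace MfB

variable {X : Type} [MetricSpace X] {S : Sf0 X} {e e' : OpenPartialHomeomorph X E2} {y p : X}

lemma jac_comp (A B : E2 →L[ℂ] E2) : jac (A.comp B) = jac A * jac B := Ell.det2_map A _ _

lemma jac_ne (he : e ∈ S.A) (he' : e' ∈ S.A) (hy : y ∈ e.source) (hy' : y ∈ e'.source) :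
    jac (fderiv ℂ (e' ∘ e.symm) (e y)) ≠ 0 := by
  have h1 := (S.trans e he e' he' y hy hy').differentiableAt
  have h2 := (S.trans e' he' e he y hy' hy).differentiableAt
  have h3 : (e' ∘ e.symm) (e y) = e' y := by simp [e.left_inv hy]
  have h4 : (e ∘ e'.symm) ∘ (e' ∘ e.symm) =ᶠ[𝓝 (e y)] id := by
    filter_upwards [Sf0.symm_eventually hy (e'.open_source.mem_nhds hy'),
      e.open_target.mem_nhds (e.map_source hy)] with u h5 h6
    simp [e'.left_inv h5, e.right_inv h6]
  have h5 := h4.fderiv_eq (𝕜 := ℂ)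
  rw [fderiv_comp _ (h3 ▸ h2) h1, fderiv_id] at h5
  have h6 := congrArg jac h5
  rw [jac_comp] at h6
  intro h
  rw [h, mul_zero] at h6
  simp [jac, det2] at h6

lemma jac_cont (he : e ∈ S.A) (he' : e' ∈ S.A) (hy : y ∈ e.source) (hy' : y ∈ e'.source) :
    ContinuousAt (fun y => jac (fderiv ℂ (e' ∘ e.symm) (e y))) y := by
  have h1 : Continuous (jac : (E2 →L[ℂ] E2) → ℂ) := by
    unfold jac det2
    fun_prop
  exact h1.continuousAt.comp
    ((S.trans e he e' he' y hy hy').fderiv.continuousAt.comp (e.continuousAt hy))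

lemma sec_an {m : ℕ} (τ : Sec S m) (he : e ∈ S.A) (hy : y ∈ e.source) :
    S.AnAt (fun y => τ.c e (e y)) y := by
  refine Sf0.anAt_of_chart he hy ((τ.an e he y hy).congr ?_)
  filter_upwards [e.open_target.mem_nhds (e.map_source hy)] with u hu
  simp [e.right_inv hu]

lemma an_mul {F G : X → ℂ} (h : S.AnAt F y) (h' : S.AnAt G y) :
    S.AnAt (fun y => F y * G y) y := fun e he hy => (h e he hy).mul (h' e he hy)

lemma an_pow {F : X → ℂ} (h : S.AnAt F y) (n : ℕ) : S.AnAt (fun y => F y ^ n) y :=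
  fun e he hy => (h e he hy).pow n

lemma dπ_fst (h : PCh S e p) : ∀ᶠ y in 𝓝 p, S.dπ e y = ContinuousLinearMap.fst ℂ ℂ ℂ := by
  have h1 : S.IsLift (fun y => S.lf p p + ((e y).1 - (e p).1)) p := by
    refine ⟨?_, fun e' he' hp' => ?_⟩
    · filter_upwards [h.2.2] with y hy
      rw [hy, map_add, ← (Sf0.isLift_lf p).1.self_of_nhds]
    · exact analyticAt_const.add ((analyticAt_fst.comp
        (Sf0.anAt_chart h.1 h.2.1 e' he' hp')).sub analyticAt_const)
  filter_upwards [h1.dπ_eventually h.2.1, e.open_source.mem_nhds h.2.1] with y h2 h3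
  have h4 : (fun y => S.lf p p + ((e y).1 - (e p).1)) ∘ e.symm =ᶠ[𝓝 (e y)]
      fun u => S.lf p p + (u.1 - (e p).1) := by
    filter_upwards [e.open_target.mem_nhds (e.map_source h3)] with u hu
    simp [e.right_inv hu]
  rw [h2, h4.fderiv_eq, fderiv_const_add, fderiv_sub_const, fderiv_fst]

lemma fderiv_div_apply {a b : E2 → ℂ} {q : E2} (ha : DifferentiableAt ℂ a q)
    (hb : DifferentiableAt ℂ b q) (h0 : b q ≠ 0) (v : E2) :
    fderiv ℂ (fun u => a u / b u) q v =
      (b q * fderiv ℂ a q v - a q * fderiv ℂ b q v) / b q ^ 2 := by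
  have h1 := ha.hasFDerivAt.mul ((hasDerivAt_inv h0).comp_hasFDerivAt q hb.hasFDerivAt)
  have h2 : (fun u => a u / b u) = a * (fun x => x⁻¹) ∘ b := by
    funext u
    simp [div_eq_mul_inv]
  rw [h2, h1.fderiv]
  simp only [add_apply, smul_apply, smul_eq_mul,
    Function.comp_apply]
  field_simp
  ring

/-- a point nearby where a section does not vanish in a neighbourhood -/
lemma step {m : ℕ} (τ : Sec S m) (he : e ∈ S.A) (hy : y ∈ e.source)
    (h : ¬ ∀ᶠ z in 𝓝 y, τ.c e (e z) = 0) {P : X → Prop} (hP : ∀ᶠ z in 𝓝 y, P z) :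
    ∃ y' ∈ e.source, ∀ᶠ z in 𝓝 y', P z ∧ τ.c e (e z) ≠ 0 := by
  obtain ⟨y', h1, h2, h3⟩ := ((not_eventually.1 h).and_eventually
    (hP.eventually_nhds.and (e.open_source.mem_nhds hy))).exists
  exact ⟨y', h3, h2.and ((sec_an τ he h3).continuousAt.eventually_ne h1)⟩

end MfB

open MfB

theorem sMfB (h1 : SW) (h2 : SRho) (h3 : SSecId) : SMfB := by
  intro X _ _ S L hΛ hNc G
  obtain ⟨l₀, W, hW, hWe⟩ := h1 X S G hNc
  obtain ⟨V, ρ, σ, t, hV, hρ, ht⟩ := h2 X S L hΛ
  choose ch hch hx using S.cover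
  let U : X → Set X := fun x => (ch x).source ∩ V x
  let den : X → X → ℂ := fun x y =>
    G.b.c (ch x) (ch x y) * W.c (ch x) (ch x y) ^ G.μ * ρ x y
  let num : X → Fin G.N ⊕ Bool → X → ℂ := fun x i y =>
    Sum.elim (fun l => (G.a l).c (ch x) (ch x y) * W.c (ch x) (ch x y) ^ G.μ * ρ x y)
      (fun j => bif j then G.b.c (ch x) (ch x y) ^ (2 * G.μ + 2) * ρ x y
        else G.b.c (ch x) (ch x y) * W.c (ch x) (ch x y) ^ G.μ * σ x y) i
  let g : X → X → X → ℂ := fun x x' y =>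
    jac (fderiv ℂ (ch x' ∘ (ch x).symm) (ch x y)) ^ (G.μ * (2 * G.μ + 2)) * t x x' y
  let f : Fin G.N ⊕ Bool → X → ℂ := fun i y => num y i y / den y y
  have hU : ∀ x, x ∈ U x := fun x => ⟨hx x, (hV x).2⟩
  have hUo : ∀ x, IsOpen (U x) := fun x => (ch x).open_source.inter (hV x).1
  have han : ∀ x, ∀ y ∈ U x, S.AnAt (den x) y ∧ ∀ i, S.AnAt (num x i) y := fun x y hy => by
    have a1 := sec_an G.b (hch x) hy.1
    have a2 := an_pow (sec_an W (hch x) hy.1) G.μ
    have a3 := hρ x y hy.2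
    refine ⟨an_mul (an_mul a1 a2) a3.1, ?_⟩
    rintro (l | _ | _)
    · exact an_mul (an_mul (sec_an (G.a l) (hch x) hy.1) a2) a3.1
    · exact an_mul (an_mul a1 a2) a3.2.1
    · exact an_mul (an_pow a1 _) a3.1
  have htr : ∀ x x', ∀ y ∈ U x, y ∈ U x' → ContinuousAt (g x x') y ∧
      den x y = g x x' y * den x' y ∧ ∀ i, num x i y = g x x' y * num x' i y := by
    intro x x' y hy hy'
    obtain ⟨a1, -, a2, a3⟩ := ht x x' y hy.2 hy'.2
    have a4 := G.b.compat _ (hch x) _ (hch x') y hy.1 hy'.1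
    have a5 := W.compat _ (hch x) _ (hch x') y hy.1 hy'.1
    refine ⟨((jac_cont (hch x) (hch x') hy.1 hy'.1).pow _).mul a1, ?_, ?_⟩
    · simp only [den, g]
      rw [a2, a4, a5]
      ring
    · rintro (l | _ | _)
      · simp only [num, g, Sum.elim_inl]
        rw [a2, a5, (G.a l).compat _ (hch x) _ (hch x') y hy.1 hy'.1]
        ring
      · simp only [num, g, Sum.elim_inr, cond_false]
        rw [a3, a4, a5]
        ring
      · simp only [num, g, Sum.elim_inr, cond_true]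
        rw [a2, a4]
        ring
  have hg : ∀ x x', ∀ y ∈ U x, y ∈ U x' → g x x' y ≠ 0 := fun x x' y hy hy' =>
    mul_ne_zero (pow_ne_zero _ (jac_ne (hch x) (hch x') hy.1 hy'.1)) (ht x x' y hy.2 hy'.2).2.1
  have hZ : ∀ x, ∀ y ∈ U x, den y y = 0 ↔ den x y = 0 := fun x y hy => by
    rw [(htr y x y (hU y) hy).2.1, mul_eq_zero, or_iff_right (hg y x y (hU y) hy)]
  have hne : ∀ y, den y y ≠ 0 → G.b.c (ch y) (ch y y) ≠ 0 ∧ W.c (ch y) (ch y y) ≠ 0 ∧
      ρ y y ≠ 0 := fun y hy => by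
    have a1 := left_ne_zero_of_mul hy
    exact ⟨left_ne_zero_of_mul a1, ne_zero_pow G.μ_pos.ne' (right_ne_zero_of_mul a1),
      right_ne_zero_of_mul hy⟩
  have hfl : ∀ l y, den y y ≠ 0 →
      f (Sum.inl l) y = (G.a l).c (ch y) (ch y y) / G.b.c (ch y) (ch y y) := fun l y hy => by
    obtain ⟨a1, a2, a3⟩ := hne y hy
    simp only [f, num, den, Sum.elim_inl]
    field_simp
  have hfe : ∀ e ∈ S.A, ∀ y ∈ e.source, den y y ≠ 0 → G.b.c e (e y) ≠ 0 ∧ W.c e (e y) ≠ 0 ∧
      f (Sum.inl l₀) y = (G.a l₀).c e (e y) / G.b.c e (e y) ∧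
      f (Sum.inr true) y = G.b.c e (e y) ^ (2 * G.μ + 1) / W.c e (e y) ^ G.μ := by
    intro e he y hy h0
    obtain ⟨a1, a2, a3⟩ := hne y h0
    have a4 := G.b.compat _ (hch y) _ he y (hx y) hy
    have a5 := W.compat _ (hch y) _ he y (hx y) hy
    have a6 := jac_ne (hch y) he (hx y) hy
    have a7 : G.b.c e (e y) ≠ 0 := left_ne_zero_of_mul (a4 ▸ a1)
    have a8 : W.c e (e y) ≠ 0 := left_ne_zero_of_mul (a5 ▸ a2)
    refine ⟨a7, a8, ?_, ?_⟩
    · rw [hfl l₀ y h0, a4, (G.a l₀).compat _ (hch y) _ he y (hx y) hy]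
      field_simp
    · simp only [f, num, den, Sum.elim_inr, cond_true]
      rw [a4, a5]
      field_simp
      ring
  refine ⟨{ ι := Fin G.N ⊕ Bool
            iu := Sum.inr false
            ix := Sum.inl l₀
            ia := Sum.inr true
            μ := G.μ
            f := f
            Z := {y | den y y = 0}
            U := U
            den := den
            num := num
            g := g
            μ_pos := G.μ_pos
            U_open := hUo
            mem_U := hU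
            an := han
            trans := htr
            Z_iff := hZ
            f_eq := fun x i y hy => ?_
            den_ne := fun x h => ?_
            hu := fun y hy w hw => ?_
            a_ne := fun y hy => ?_
            reg := fun e p hp => ?_
            inj := fun y hy y' hy' h => ?_ }⟩
  · simp only [f]
    rw [(htr y x y (hU y) hy).2.1, (htr y x y (hU y) hy).2.2 i,
      mul_div_mul_left _ _ (hg y x y (hU y) hy)]
  · have a1 : ∀ᶠ y in 𝓝 x, y ∈ U x ∧ den x y = 0 := by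
      filter_upwards [h, (hUo x).mem_nhds (hU x)] with y a1 a2
      exact ⟨a2, (hZ x y a2).1 a1⟩
    obtain ⟨x₁, a2, a3⟩ := step G.b (hch x) (hx x) (h3 X S _ G.b G.b_ne _ (hch x) x (hx x)) a1
    obtain ⟨x₂, a4, a5⟩ := step W (hch x) a2 (h3 X S _ W hW _ (hch x) x₁ a2) a3
    have a6 : ∀ᶠ y in 𝓝 x₂, S.π y = 0 := by
      filter_upwards [a5] with y hy
      obtain ⟨⟨⟨b1, b2⟩, b3⟩, b4⟩ := hy
      exact (hρ x y b1.2).2.2.1.1
        ((mul_eq_zero.1 b2).resolve_left (mul_ne_zero b3 (pow_ne_zero _ b4)))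
    exact hNc x₂ (a6.mono fun y hy => hy.trans a6.self_of_nhds.symm)
  · obtain ⟨a1, a2, a3⟩ := hne y hy
    obtain ⟨-, -, a4, a5⟩ := hρ y y (hV y).2
    have a6 : S.π y ≠ 0 := fun h => a3 (a4.2 h)
    refine ⟨fun h => a6 ?_, ?_⟩
    · rw [hw]
      exact (Submodule.Quotient.mk_eq_zero _).2 (hΛ ▸ h)
    · simp only [f, num, den, Sum.elim_inr, cond_false]
      rw [a5 w hw a6]
      field_simp
  · obtain ⟨a1, a2, a3⟩ := hne y hy
    exact div_ne_zero (mul_ne_zero (pow_ne_zero _ a1) a3) hy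
  · refine ⟨fun y => G.b.c e (e y), fun y => (G.a l₀).c e (e y), sec_an _ hp.1 hp.2.1,
      sec_an _ hp.1 hp.2.1, ?_⟩
    filter_upwards [dπ_fst hp, e.open_source.mem_nhds hp.2.1] with y a1 a2 hy
    obtain ⟨b1, b2, b3, b4⟩ := hfe e hp.1 y a2 hy
    have a3 : f (Sum.inl l₀) ∘ e.symm =ᶠ[𝓝 (e y)] fun u => (G.a l₀).c e u / G.b.c e u := by
      have a4 : ∀ᶠ z in 𝓝 y, f (Sum.inl l₀) z = (G.a l₀).c e (e z) / G.b.c e (e z) := by
        filter_upwards [(hUo y).mem_nhds (hU y), e.open_source.mem_nhds a2,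
          (han y y (hU y)).1.continuousAt.eventually_ne hy] with z c1 c2 c3
        exact (hfe e hp.1 z c2 fun h => c3 ((hZ y z c1).1 h)).2.2.1
      filter_upwards [Sf0.symm_eventually a2 a4, e.open_target.mem_nhds (e.map_source a2)]
        with u c1 c2
      rwa [e.right_inv c2] at c1
    have a4 : D (f (Sum.inl l₀)) e y (0, 1) = W.c e (e y) / G.b.c e (e y) ^ 2 := by
      rw [D, a3.fderiv_eq, fderiv_div_apply ((G.a l₀).an e hp.1 y a2).differentiableAt
        (G.b.an e hp.1 y a2).differentiableAt b1, hWe e hp.1 y a2, a1]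
      simp [wedge]
    rw [a4, b3, b4]
    refine ⟨div_ne_zero b2 (pow_ne_zero _ b1), ?_, ?_⟩
    · rw [div_pow]
      field_simp
      ring
    · rw [div_pow]
      field_simp
      ring
  · refine G.inj _ (hch y) _ (hch y') y (hx y) y' (hx y') (hne y hy).1 (hne y' hy').1 fun l => ?_
    rw [← hfl l y hy, ← hfl l y' hy', h]

end Pool.Agent.P.MP_7ede32_ag.Full
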