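import Pool.Agent.P.MP_7ede32_ag.Full.StC

/-!
Algebraic dependence over a countable field of constants.
-/

open Set

noncomputable section

namespace Pool.Agent.P.MP_7ede32_ag.Full

namespace AlgH

variable {k M : Type} [Field k] [Field M] [CharZero M] [Algebra k M] {u x z : M}

lemma notMem (h : AlgebraicIndependent k ![u, x]) : x ∉ acl (insert u (range (algebraMap k M))) := by
  intro hx
  have h1 := h.transcendental_adjoin (s := {0}) (i := 1) (by simp)
  rw [image_singleton, ← IntermediateField.transcendental_adjoin_iff] at h1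
  refine h1 (isAlgebraic_of_mem_acl _ ?_ hx)
  rintro _ (rfl | ⟨a, rfl⟩)
  · exact ⟨⟨_, IntermediateField.subset_adjoin _ _ rfl⟩, rfl⟩
  · exact ⟨⟨_, IntermediateField.algebraMap_mem _ a⟩, rfl⟩

lemma mem (h : AlgebraicIndependent k ![u, x]) (h' : ¬ AlgebraicIndependent k ![u, x, z]) :
    z ∈ acl (insert x (insert u (range (algebraMap k M)))) := by
  have h1 : IsAlgebraic (Algebra.adjoin k (range ![u, x])) z := by
    by_contra h1
    have h2 := ((h.option_iff_transcendental z).2 h1).comp
      (![some 0, some 1, none] : Fin 3 → Option (Fin 2)) (by decide)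
    refine h' ?_
    convert h2 using 1
    funext i
    fin_cases i <;> rfl
  refine mem_acl_of_isAlgebraic Subtype.val_injective ?_ h1
  rintro ⟨r, hr⟩
  change r ∈ _
  induction hr using Algebra.adjoin_induction with
  | mem y hy =>
    obtain ⟨i, rfl⟩ := hy
    refine subset_acl _ ?_
    fin_cases i <;> simp
  | algebraMap a => exact subset_acl _ (by simp)
  | add _ _ _ _ h2 h3 => exact add_mem h2 h3
  | mul _ _ _ _ h2 h3 => exact mul_mem h2 h3

end AlgH

theorem sAlgH : SAlgH := by
  intro ι M _ _ _ c ζ u x s h1 h2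
  choose P hP0 hP using h2
  obtain ⟨k₀, hk, hs, hc⟩ : ∃ k₀ : Subfield ℂ, Countable k₀ ∧ (s : Set ℂ) ⊆ k₀ ∧
      ∀ i, ((P i).coeffs : Set ℂ) ⊆ k₀ := by
    refine ⟨Subfield.closure (s ∪ ⋃ i, ((P i).coeffs : Set ℂ)), ?_,
      subset_union_left.trans Subfield.subset_closure, fun i =>
        fun a ha => Subfield.subset_closure (Or.inr (mem_iUnion.2 ⟨i, ha⟩))⟩
    rw [← Cardinal.mk_le_aleph0_iff]
    refine (Subfield.cardinalMk_closure_le_max _).trans (max_le ?_ le_rfl)
    exact Cardinal.le_aleph0_iff_set_countable.2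
      (s.finite_toSet.union (finite_iUnion fun i => (P i).coeffs.finite_toSet)).countable
  refine ⟨k₀, hk, hs, ?_, fun i => ?_⟩
  · let := c.toAlgebra
    exact AlgH.notMem (k := ℂ) (algebraicIndependent_iff.2 h1)
  · let := (c.comp k₀.subtype).toAlgebra
    have h3 : c '' k₀ = range (algebraMap k₀ M) := by
      ext y
      exact ⟨fun ⟨a, ha, h⟩ => ⟨⟨a, ha⟩, h⟩, fun ⟨a, h⟩ => ⟨a, a.2, h⟩⟩
    rw [h3]
    refine AlgH.mem (algebraicIndependent_iff.2 fun Q hQ => ?_) fun h => ?_
    · refine MvPolynomial.map_injective k₀.subtype k₀.subtype.injective ?_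
      rw [map_zero]
      exact h1 _ ((MvPolynomial.eval₂_map _ _ _ _).trans hQ)
    · obtain ⟨Q, hQ⟩ := (MvPolynomial.mem_range_map_iff_coeffs_subset (f := k₀.subtype)).2
        fun a ha => ⟨⟨a, hc i ha⟩, rfl⟩
      refine hP0 i ?_
      rw [← hQ, algebraicIndependent_iff.1 h Q
        ((MvPolynomial.eval₂_map _ _ _ _).symm.trans (hQ ▸ hP i)), map_zero]

end Pool.Agent.P.MP_7ede32_ag.Full
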