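import Pool.Agent.P.MP_7ede32_ag.Full.StB

/-!
Approximation by a quotient of holomorphic functions on a large disc.
-/

open Filter Topology Metric Set ValueDistribution MeromorphicOn
open scoped Real

noncomputable section

namespace Pool.Agent.P.MP_7ede32_ag.Full

namespace Apx

lemma pr_le (s : Finset ℂ) (n : ℂ → ℕ) (w : ℂ) (B : ℝ) (h : ∀ α ∈ s, ‖w - α‖ ≤ B) :
    ‖pr s n w‖ ≤ B ^ (∑ α ∈ s, n α) := by
  rw [pr, norm_prod, ← Finset.prod_pow_eq_pow_sum]
  refine Finset.prod_le_prod (fun _ _ => norm_nonneg _) fun α hα => ?_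
  rw [norm_pow]
  exact pow_le_pow_left₀ (norm_nonneg _) (h α hα) _

lemma le_pr (s : Finset ℂ) (n : ℂ → ℕ) (w : ℂ) (B : ℝ) (hB : 0 ≤ B)
    (h : ∀ α ∈ s, B ≤ ‖w - α‖) : B ^ (∑ α ∈ s, n α) ≤ ‖pr s n w‖ := by
  rw [pr, norm_prod, ← Finset.prod_pow_eq_pow_sum]
  refine Finset.prod_le_prod (fun _ _ => pow_nonneg hB _) fun α hα => ?_
  rw [norm_pow]
  exact pow_le_pow_left₀ hB (h α hα) _

lemma diff_pr (s : Finset ℂ) (n : ℂ → ℕ) : Differentiable ℂ (pr s n) := by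
  unfold pr
  exact Differentiable.fun_finsetProd fun α _ => by fun_prop

lemma exp_neg_le {x y : ℝ} (hx : 0 < x) (h : 1 ≤ y * x) : Real.exp (-y) ≤ x := by
  have h1 : y + 1 ≤ Real.exp y := Real.add_one_le_exp y
  rw [Real.exp_neg, inv_le_iff_one_le_mul₀ (Real.exp_pos y)]
  nlinarith

lemma pow_le_exp {B N : ℝ} {d : ℕ} (hB : 0 ≤ B) (h : (d : ℝ) ≤ N) : B ^ d ≤ Real.exp (B * N) := by
  calc B ^ d ≤ Real.exp B ^ d := pow_le_pow_left₀ hB (by linarith [Real.add_one_le_exp B]) _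
    _ = Real.exp (B * d) := by rw [← Real.exp_nat_mul, mul_comm]
    _ ≤ Real.exp (B * N) := Real.exp_le_exp.2 (mul_le_mul_of_nonneg_left h hB)

/-- the data at one disc -/
lemma loc (h1 : SLaur) (D : Discs) (e : ℂ → ℂ) (M : ℝ) (he : DifferentiableOn ℂ e D.Go)
    (hM : ∀ w ∈ D.Go, ‖e w‖ ≤ M) (hM0 : 0 ≤ M) {w₀ c : ℂ} {lam N ε : ℝ} (hw₀ : w₀ ∈ D.G 0)
    (hl : 1 ≤ lam) (hε0 : 0 ≤ ε) (hε1 : ε ≤ 1) (hc : c ∈ D.C) (hd : dist c w₀ ≤ lam + D.rm)
    (ha : Appr D e N ε c) :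
    ∃ b R P H : ℂ → ℂ, (Differentiable ℂ b ∧ Differentiable ℂ R) ∧
      (DifferentiableOn ℂ P {w | D.r c - D.θ < dist w c} ∧
        DifferentiableOn ℂ H (ball c (D.r c + D.θ)) ∧
        (∀ w, D.r c - D.θ < dist w c → dist w c < D.r c + D.θ → e w = H w + P w) ∧
        ∀ w, D.r c ≤ dist w c → ‖P w‖ ≤ M * (D.rm / D.θ)) ∧
      (∀ w, D.r c ≤ dist w c → ‖R w - b w * P w‖ ≤ ε * (D.rm / D.θ) * ‖b w‖) ∧
      (∀ w ∈ ball w₀ lam, ‖b w‖ ≤ Real.exp ((2 + 2 * D.rm) * N) ∧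
        ‖R w‖ ≤ (M + 1) * (D.rm / D.θ) * Real.exp ((2 + 2 * D.rm) * N)) ∧
      Real.exp (-(N * lam * (D.rm / D.θ) * (1 / dist c w₀))) ≤ ‖b w₀‖ := by
  obtain ⟨s, n, A, hs, hn, hA, hap⟩ := ha
  have hθ := D.θ_pos
  have hr1 := D.le_r c hc
  have hr2 := D.r_le c hc
  have hrm := D.rm_nonneg
  have hl0 : 0 < lam := by linarith
  have hlow : ∀ w, ∀ α ∈ s, dist w c - (D.r c - 2 * D.θ) ≤ ‖w - α‖ := fun w α hα => by
    rw [← dist_eq_norm]
    linarith [hs α hα, dist_triangle w α c]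
  obtain ⟨P, H, R, hP, hH, hR, hdec, hb⟩ := h1 c (D.r c) D.θ M ε e A s n hθ hr1
    (he.mono fun w hw => D.mem_Go hc hw.1 (by linarith [hw.2]))
    (fun w hw => hM w (D.mem_Go hc (by rw [mem_sphere.1 hw]; linarith)
      (by rw [mem_sphere.1 hw]; linarith))) hA
    (fun w hw => ⟨by
      refine norm_pos_iff.1 (lt_of_lt_of_le (pow_pos hθ _) (le_pr s n w D.θ hθ.le fun α hα => ?_))
      have := hlow w α hα
      rw [mem_sphere.1 hw] at this
      linarith, hap w hw⟩)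
  set d := ∑ α ∈ s, n α with hdd
  set q := D.rm / D.θ with hq
  have hq0 : 0 ≤ q := div_nonneg hrm hθ.le
  have hrq : D.r c / D.θ ≤ q := div_le_div_of_nonneg_right hr2 hθ.le
  have hld : 0 < lam ^ d := pow_pos hl0 d
  have hnl : ‖((lam : ℂ) ^ d)‖ = lam ^ d := by
    rw [norm_pow, Complex.norm_real, Real.norm_of_nonneg hl0.le]
  have hP' : ∀ w, D.r c ≤ dist w c → ‖P w‖ ≤ M * q := fun w hw =>
    (hb w hw).1.trans (by rw [mul_div_assoc]; exact mul_le_mul_of_nonneg_left hrq hM0)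
  have hR' : ∀ w, D.r c ≤ dist w c → ‖R w - pr s n w * P w‖ ≤ ε * q * ‖pr s n w‖ := fun w hw =>
    (hb w hw).2.trans (mul_le_mul_of_nonneg_right
      (by rw [mul_div_assoc]; exact mul_le_mul_of_nonneg_left hrq hε0) (norm_nonneg _))
  set B := 2 + 2 * D.rm with hB
  have hB0 : 0 ≤ B := by linarith
  have hRo : ∀ w, D.r c ≤ dist w c → (∀ α ∈ s, ‖w - α‖ ≤ B * lam) →
      ‖R w‖ ≤ (M + 1) * q * (B * lam) ^ d := fun w hw hα => by
    have h2 := pr_le s n w _ hα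
    have h3 := norm_add_le (R w - pr s n w * P w) (pr s n w * P w)
    rw [sub_add_cancel, norm_mul] at h3
    have h4 := mul_le_mul_of_nonneg_left (hP' w hw) (norm_nonneg (pr s n w))
    have h5 : ε * q * ‖pr s n w‖ ≤ 1 * q * ‖pr s n w‖ := by gcongr
    have h6 : (M + 1) * q * ‖pr s n w‖ ≤ (M + 1) * q * (B * lam) ^ d := by gcongr
    linarith [hR' w hw]
  have hin : ∀ w ∈ ball w₀ lam, ∀ α ∈ s, ‖w - α‖ ≤ B * lam := fun w hw α hα => by
    have h2 := dist_triangle4 w w₀ c α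
    rw [dist_comm w₀ c, dist_comm c α, dist_eq_norm w α] at h2
    nlinarith [mem_ball.1 hw, hs α hα]
  have hRb : ∀ w ∈ ball w₀ lam, ‖R w‖ ≤ (M + 1) * q * (B * lam) ^ d := fun w hw => by
    rcases le_or_gt (D.r c) (dist w c) with h | h
    · exact hRo w h (hin w hw)
    · refine Complex.norm_le_of_forall_mem_frontier_norm_le (U := ball c (D.r c)) isBounded_ball
        hR.diffContOnCl (fun z hz => ?_) (subset_closure h)
      have hz' : dist z c = D.r c := mem_sphere.1 (frontier_ball_subset_sphere hz)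
      refine hRo z hz'.ge fun α hα => ?_
      have h2 := dist_triangle_right z α c
      rw [dist_eq_norm z α] at h2
      nlinarith [hs α hα]
  have hexp : (B * lam) ^ d / lam ^ d ≤ Real.exp (B * N) := by
    rw [mul_pow, mul_div_assoc, div_self hld.ne', mul_one]
    exact pow_le_exp hB0 hn
  refine ⟨fun w => pr s n w / (lam : ℂ) ^ d, fun w => R w / (lam : ℂ) ^ d, P, H,
    ⟨(diff_pr s n).div_const _, hR.div_const _⟩, ⟨hP, hH, hdec, hP'⟩, fun w hw => ?_,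
    fun w hw => ⟨?_, ?_⟩, ?_⟩
  · have h2 : R w / (lam : ℂ) ^ d - pr s n w / (lam : ℂ) ^ d * P w =
        (R w - pr s n w * P w) / (lam : ℂ) ^ d := by ring
    rw [h2, norm_div, norm_div, hnl, ← mul_div_assoc]
    exact div_le_div_of_nonneg_right (hR' w hw) hld.le
  · rw [norm_div, hnl]
    exact (div_le_div_of_nonneg_right (pr_le s n w _ (hin w hw)) hld.le).trans hexp
  · rw [norm_div, hnl]
    refine (div_le_div_of_nonneg_right (hRb w hw) hld.le).trans ?_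
    rw [mul_div_assoc]
    exact mul_le_mul_of_nonneg_left hexp (by positivity)
  · have hρ : D.r c ≤ dist w₀ c := by simpa using hw₀ c hc
    rw [dist_comm c w₀]
    set ρ := dist w₀ c with hρd
    have hρ0 : 0 < ρ := by linarith
    have hx : 0 < ρ - (D.r c - 2 * D.θ) := by linarith
    have h2 := le_pr s n w₀ _ hx.le (hlow w₀)
    have h3 : Real.exp (-(lam * q * (1 / ρ))) ≤ (ρ - (D.r c - 2 * D.θ)) / lam := by
      refine exp_neg_le (div_pos hx hl0) ?_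
      have h4 : lam * q * (1 / ρ) * ((ρ - (D.r c - 2 * D.θ)) / lam) =
          D.rm * (ρ - (D.r c - 2 * D.θ)) / (D.θ * ρ) := by
        rw [hq]; field_simp
      rw [h4, le_div_iff₀ (mul_pos hθ hρ0)]
      nlinarith [mul_nonneg (sub_nonneg.2 hρ) (sub_nonneg.2 (hr1.trans hr2)),
        mul_nonneg hθ.le (sub_nonneg.2 hr2), mul_nonneg hθ.le hρ0.le]
    have h5 : 0 ≤ lam * q * (1 / ρ) := by positivity
    rw [norm_div, hnl]
    calc Real.exp (-(N * lam * q * (1 / ρ))) ≤ Real.exp (-(lam * q * (1 / ρ))) ^ d := by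
          rw [← Real.exp_nat_mul, Real.exp_le_exp]
          nlinarith [mul_le_mul_of_nonneg_right hn h5]
      _ ≤ ((ρ - (D.r c - 2 * D.θ)) / lam) ^ d := pow_le_pow_left₀ (Real.exp_pos _).le h3 _
      _ ≤ _ := by rw [div_pow]; exact div_le_div_of_nonneg_right h2 hld.le

lemma le_exp_mul {a x : ℝ} (ha : a ≤ x) : a ≤ Real.exp x := by
  linarith [Real.add_one_le_exp x]

end Apx

open Apx

theorem sApx (h1 : SLaur) (h2 : SCous) (h3 : SCnt) : SApx := by
  classical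
  intro D e M he hM
  have hθ := D.θ_pos
  have hrm := D.rm_nonneg
  obtain ⟨C₀, hC₀, hcnt⟩ := h3 (2 * D.θ) (by linarith)
  set q := D.rm / D.θ with hq
  have hq0 : 0 ≤ q := div_nonneg hrm hθ.le
  set B := 2 + 2 * D.rm with hB
  have hB0 : 0 ≤ B := by linarith
  set C₁ := C₀ * (1 + D.rm) ^ 2 with hC₁
  have hC₁0 : 0 ≤ C₁ := by positivity
  set C₂ := |M| + C₁ * ((2 * |M| + 1) * q) with hC₂
  have hC₂0 : 0 ≤ C₂ := by positivity
  set C₃ := q * (C₀ * (1 + D.rm)) with hC₃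
  have hC₃0 : 0 ≤ C₃ := by positivity
  have hBC : 0 ≤ B * C₁ := mul_nonneg hB0 hC₁0
  refine ⟨B * C₁ + C₂ + C₃, by positivity, fun w₀ lam N ε hw₀ hl hN hε0 hε1 hap => ?_⟩
  have hM0 : 0 ≤ M := (norm_nonneg _).trans (hM w₀ (D.G_subset_Go hw₀))
  rw [abs_of_nonneg hM0] at hC₂
  obtain ⟨F, hF, hcard, hsum⟩ := hcnt D.C (fun c hc c' hc' h => by
    linarith [D.sep c hc c' hc' h, D.le_r c hc, D.le_r c' hc']) w₀ (lam + D.rm) (by linarith)
  have hsum' := hsum fun c hc => by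
    have h4 := hw₀ c ((hF c).1 hc).1
    rw [dist_comm]
    linarith [D.le_r c ((hF c).1 hc).1]
  have ht : lam + D.rm ≤ (1 + D.rm) * lam := by nlinarith
  have hl2 : 1 ≤ lam ^ 2 := one_le_pow₀ hl
  have hcard' : (F.card : ℝ) ≤ C₁ * lam ^ 2 := by
    refine hcard.trans ?_
    rw [hC₁, mul_assoc, ← mul_pow]
    gcongr
  have hex : ∀ c, ∃ b R P H : ℂ → ℂ, c ∈ F → _ := fun c => by
    by_cases hc : c ∈ F
    · obtain ⟨b, R, P, H, h⟩ := loc h1 D e M he hM hM0 hw₀ hl hε0 hε1 ((hF c).1 hc).1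
        ((hF c).1 hc).2 (hap c ((hF c).1 hc).1)
      exact ⟨b, R, P, H, fun _ => h⟩
    · exact ⟨0, 0, 0, 0, fun h => absurd h hc⟩
  choose b R P H hall using hex
  obtain ⟨K, hK, hKb, hKe⟩ := h2 D e M (M * q) lam w₀ F P H he hM hF fun c hc => (hall c hc).2.1
  set X := Real.exp (B * N) with hX
  have hX0 : 0 < X := Real.exp_pos _
  have hXc : X ^ F.card ≤ Real.exp (B * C₁ * N * lam ^ 2) := by
    rw [hX, ← Real.exp_nat_mul, Real.exp_le_exp]
    nlinarith [mul_le_mul_of_nonneg_right hcard' (mul_nonneg hB0 hN)]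
  have hprod : ∀ w ∈ ball w₀ lam, ∀ S ⊆ F, ‖∏ c ∈ S, b c w‖ ≤ ∏ _c ∈ S, X := fun w hw S hS => by
    rw [norm_prod]
    exact Finset.prod_le_prod (fun _ _ => norm_nonneg _) fun c hc =>
      ((hall c (hS hc)).2.2.2.1 w hw).1
  have hfin : ∀ a : ℝ, 0 ≤ a → a ≤ C₂ * lam ^ 2 →
      a * X ^ F.card ≤ Real.exp ((B * C₁ + C₂ + C₃) * (N + 1) * lam ^ 2) := fun a ha0 ha => by
    refine (mul_le_mul (le_exp_mul ha) hXc (pow_pos hX0 _).le (Real.exp_pos _).le).trans ?_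
    rw [← Real.exp_add, Real.exp_le_exp]
    have h4 : 0 ≤ lam ^ 2 := by positivity
    nlinarith [mul_nonneg hBC h4, mul_nonneg hC₃0 h4, mul_nonneg (mul_nonneg hC₃0 hN) h4,
      mul_nonneg (mul_nonneg hC₂0 hN) h4]
  refine ⟨fun w => ∏ c ∈ F, b c w,
    fun w => (∏ c ∈ F, b c w) * K w + ∑ c ∈ F, R c w * ∏ c' ∈ F.erase c, b c' w, ?_, ?_, ?_,
    fun w hw => ⟨?_, ?_, fun hwG => ?_⟩⟩
  · exact (Differentiable.fun_finsetProd fun c hc => (hall c hc).1.1).differentiableOn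
  · refine ((Differentiable.fun_finsetProd fun c hc => (hall c hc).1.1).differentiableOn.mul
      hK).add (Differentiable.fun_sum fun c hc => (hall c hc).1.2.mul
        (Differentiable.fun_finsetProd fun c' hc' =>
          (hall c' (Finset.mem_of_mem_erase hc')).1.1)).differentiableOn
  · rw [norm_prod]
    refine le_trans ?_ (Finset.prod_le_prod (fun _ _ => (Real.exp_pos _).le) fun c hc =>
      (hall c hc).2.2.2.2)
    rw [← Real.exp_sum, Real.exp_le_exp, Finset.sum_neg_distrib, ← Finset.mul_sum, neg_le_neg_iff]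
    have h4 : 0 ≤ N * lam * q := by positivity
    have h5 : C₀ * (lam + D.rm) ≤ C₀ * ((1 + D.rm) * lam) := by gcongr
    have h6 := mul_le_mul_of_nonneg_left (hsum'.trans h5) h4
    have h7 : N * lam * q * (C₀ * ((1 + D.rm) * lam)) = C₃ * N * lam ^ 2 := by rw [hC₃]; ring
    have h8 : 0 ≤ lam ^ 2 := by positivity
    nlinarith [mul_nonneg hBC h8, mul_nonneg hC₃0 h8, mul_nonneg (mul_nonneg hBC hN) h8,
      mul_nonneg (mul_nonneg hC₂0 hN) h8, mul_nonneg hC₂0 h8]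
  · refine (hprod w hw F subset_rfl).trans ?_
    rw [Finset.prod_const]
    refine hXc.trans (Real.exp_le_exp.2 ?_)
    have h8 : 0 ≤ lam ^ 2 := by positivity
    nlinarith [mul_nonneg hBC h8, mul_nonneg hC₃0 h8, mul_nonneg (mul_nonneg hC₃0 hN) h8,
      mul_nonneg (mul_nonneg hC₂0 hN) h8, mul_nonneg hC₂0 h8]
  · have h4 : ‖(∏ c ∈ F, b c w) * K w‖ ≤ X ^ F.card * (M + F.card * (M * q)) := by
      rw [norm_mul, ← Finset.prod_const]
      exact mul_le_mul (hprod w hw F subset_rfl) (hKb w hw) (norm_nonneg _) (by positivity)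
    have h5 : ‖∑ c ∈ F, R c w * ∏ c' ∈ F.erase c, b c' w‖ ≤
        ∑ _c ∈ F, (M + 1) * q * X ^ F.card := by
      refine norm_sum_le_of_le _ fun c hc => ?_
      rw [norm_mul, ← Finset.prod_const, ← Finset.mul_prod_erase F (fun _ => X) hc, ← mul_assoc]
      exact mul_le_mul ((hall c hc).2.2.2.1 w hw).2 (hprod w hw _ (Finset.erase_subset c F))
        (norm_nonneg _) (by positivity)
    rw [Finset.sum_const, nsmul_eq_mul] at h5
    refine (norm_add_le_of_le h4 h5).trans (le_trans (le_of_eq (by ring))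
      (hfin (M + F.card * ((2 * M + 1) * q)) (by positivity) ?_))
    have h6 : (F.card : ℝ) * ((2 * M + 1) * q) ≤ C₁ * lam ^ 2 * ((2 * M + 1) * q) := by gcongr
    rw [hC₂]
    nlinarith [mul_le_mul_of_nonneg_left hl2 hM0]
  · have h4 : e w * ∏ c ∈ F, b c w -
        ((∏ c ∈ F, b c w) * K w + ∑ c ∈ F, R c w * ∏ c' ∈ F.erase c, b c' w) =
        -∑ c ∈ F, (R c w - b c w * P c w) * ∏ c' ∈ F.erase c, b c' w := by
      have h5 : ∑ c ∈ F, (R c w - b c w * P c w) * ∏ c' ∈ F.erase c, b c' w =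
          ∑ c ∈ F, R c w * ∏ c' ∈ F.erase c, b c' w - (∑ c ∈ F, P c w) * ∏ c ∈ F, b c w := by
        rw [Finset.sum_mul, ← Finset.sum_sub_distrib]
        refine Finset.sum_congr rfl fun c hc => ?_
        rw [← Finset.mul_prod_erase F (fun c => b c w) hc]
        ring
      rw [h5, hKe w hwG]
      ring
    have h5 : ‖∑ c ∈ F, (R c w - b c w * P c w) * ∏ c' ∈ F.erase c, b c' w‖ ≤
        ∑ _c ∈ F, ε * q * X ^ F.card := by
      refine norm_sum_le_of_le _ fun c hc => ?_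
      rw [norm_mul, ← Finset.prod_const, ← Finset.mul_prod_erase F (fun _ => X) hc, ← mul_assoc]
      refine mul_le_mul (((hall c hc).2.2.1 w ?_).trans ?_)
        (hprod w hw _ (Finset.erase_subset c F)) (norm_nonneg _) (by positivity)
      · simpa using hwG c ((hF c).1 hc).1
      · exact mul_le_mul_of_nonneg_left ((hall c hc).2.2.2.1 w hw).1 (by positivity)
    rw [Finset.sum_const, nsmul_eq_mul] at h5
    rw [h4, norm_neg]
    refine h5.trans (le_trans (le_of_eq (by ring))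
      (mul_le_mul_of_nonneg_left (hfin (F.card * q) (by positivity) ?_) hε0))
    have h6 : (F.card : ℝ) * q ≤ C₁ * lam ^ 2 * q := by gcongr
    have h8 : 0 ≤ lam ^ 2 := by positivity
    rw [hC₂]
    nlinarith [mul_nonneg hM0 h8, mul_nonneg (mul_nonneg (mul_nonneg hC₁0 hM0) hq0) h8]

end Pool.Agent.P.MP_7ede32_ag.Full
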