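import Pool.Agent.P.MP_7ede32_ag.Full.StB

/-!
A circle that is mapped into a net of discs for a definite set of angles.
-/

open Filter Topology Metric Set MeasureTheory
open scoped Real ENNReal

noncomputable section

namespace Pool.Agent.P.MP_7ede32_ag.Full

namespace Arc

lemma polar_eq (p : ℝ × ℝ) : Complex.polarCoord.symm p = circleMap 0 p.1 p.2 := by
  rw [Complex.polarCoord_symm_apply, circleMap, zero_add, Complex.exp_mul_I]
  simp

/-- the set of angles for which the circle of radius `r` meets `U` -/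
def ang (U : Set ℂ) (r : ℝ) : Set ℝ := {θ | θ ∈ Ioo (-π) π ∧ circleMap 0 r θ ∈ U}

lemma measurableSet_ang {U : Set ℂ} (hU : IsOpen U) (r : ℝ) : MeasurableSet (ang U r) :=
  (isOpen_Ioo.inter (hU.preimage (continuous_circleMap 0 r))).measurableSet

lemma ang_ne_top (U : Set ℂ) (r : ℝ) : volume (ang U r) ≠ ∞ :=
  ne_top_of_le_ne_top (by simp) (measure_mono (t := Ioo (-π) π) fun _ h => h.1)

/-- An open set of large area in a thin annulus meets some circle in many angles. -/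
lemma polar {U : Set ℂ} (hU : IsOpen U) {r₁ δ m : ℝ} (hδ : 0 ≤ δ) (hδr : δ ≤ r₁) (hm : 0 ≤ m)
    (hin : ∀ z ∈ U, |‖z‖ - r₁| ≤ δ) (hv : ENNReal.ofReal (2 * r₁ * (m * (2 * δ))) < volume U) :
    ∃ r, |r - r₁| ≤ δ ∧ m ≤ volume.real (ang U r) := by
  by_contra hc
  push Not at hc
  have hcont : Continuous fun p : ℝ × ℝ => circleMap 0 p.1 p.2 := by
    unfold circleMap; fun_prop
  set S : Set (ℝ × ℝ) := {p | p.1 ∈ Icc (r₁ - δ) (r₁ + δ) ∧ p.2 ∈ ang U p.1} with hS
  have hSm : MeasurableSet S := by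
    have h1 : MeasurableSet {p : ℝ × ℝ | p.1 ∈ Icc (r₁ - δ) (r₁ + δ)} :=
      measurable_fst measurableSet_Icc
    have h2 : MeasurableSet {p : ℝ × ℝ | p.2 ∈ Ioo (-π) π} := measurable_snd measurableSet_Ioo
    exact h1.inter (h2.inter (hU.preimage hcont).measurableSet)
  have h1 : volume U ≤ ENNReal.ofReal (2 * r₁) * volume S := by
    rw [← lintegral_indicator_one hU.measurableSet, ← Complex.lintegral_comp_polarCoord_symm,
      ← lintegral_indicator_const hSm, ← lintegral_indicator polarCoord.open_target.measurableSet]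
    refine lintegral_mono fun p => ?_
    by_cases hp : p ∈ polarCoord.target
    · rw [indicator_of_mem hp, polar_eq]
      by_cases hq : circleMap 0 p.1 p.2 ∈ U
      · have h3 := abs_le.1 (hin _ hq)
        rw [norm_circleMap_zero, abs_of_pos hp.1] at h3
        have h4 : p ∈ S := ⟨⟨by linarith [h3.1], by linarith [h3.2]⟩, hp.2, hq⟩
        rw [indicator_of_mem hq, indicator_of_mem h4, Pi.one_apply, smul_eq_mul, mul_one]
        exact ENNReal.ofReal_le_ofReal (by linarith [h3.2])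
      · rw [indicator_of_notMem hq]; simp
    · rw [indicator_of_notMem hp]; simp
  have h2 : volume S ≤ ENNReal.ofReal m * ENNReal.ofReal (2 * δ) := by
    have h3 : ENNReal.ofReal (2 * δ) = volume (Icc (r₁ - δ) (r₁ + δ)) := by
      rw [Real.volume_Icc]; congr 1; ring
    rw [Measure.volume_eq_prod, Measure.prod_apply hSm, h3,
      ← lintegral_indicator_const measurableSet_Icc]
    refine lintegral_mono fun r => ?_
    by_cases hr : r ∈ Icc (r₁ - δ) (r₁ + δ)
    · rw [indicator_of_mem hr]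
      have h4 : Prod.mk r ⁻¹' S ⊆ ang U r := fun θ h => h.2
      refine (measure_mono h4).trans ?_
      rw [← ENNReal.ofReal_toReal (ang_ne_top U r)]
      exact ENNReal.ofReal_le_ofReal
        (hc r (abs_le.2 ⟨by linarith [hr.1], by linarith [hr.2]⟩)).le
    · have h4 : Prod.mk r ⁻¹' S = ∅ := eq_empty_of_forall_notMem fun θ h => hr h.1
      simp [h4]
  refine absurd hv (not_lt.2 (h1.trans ?_))
  rw [ENNReal.ofReal_mul (p := 2 * r₁) (by linarith), ENNReal.ofReal_mul hm]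
  gcongr

/-- the Cauchy estimate on the Wiman-Valiron disc -/
lemma lip {φ : ℂ → ℂ} (hφ : Differentiable ℂ φ) {z₁ : ℂ} {a M : ℝ} (ha : 1 ≤ a) (hz : z₁ ≠ 0)
    (hM : Mx φ (‖z₁‖ * (1 + 5 / a)) M) {z z' : ℂ} (h : z ∈ ball z₁ (‖z₁‖ / a / 20))
    (h' : z' ∈ ball z₁ (‖z₁‖ / a / 20)) : ‖φ z - φ z'‖ ≤ M / (‖z₁‖ / a) * ‖z - z'‖ := by
  have h0 : 0 < ‖z₁‖ / a := div_pos (norm_pos_iff.2 hz) (by linarith)
  refine (convex_ball z₁ _).norm_image_sub_le_of_norm_deriv_le (fun x _ => hφ x)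
    (fun x hx => ?_) h' h
  have h1 : deriv φ x = deriv (fun w => φ w - φ 0) x := (deriv_sub_const _).symm
  rw [h1]
  refine Complex.norm_deriv_le_of_forall_mem_sphere_norm_le h0
    (hφ.sub_const _).diffContOnCl fun w hw => hM w ?_
  rw [mem_sphere, dist_eq_norm] at hw
  rw [mem_ball, dist_eq_norm] at hx
  have h2 : ‖w‖ ≤ ‖w - x‖ + ‖x - z₁‖ + ‖z₁‖ := by
    calc ‖w‖ = ‖(w - x) + (x - z₁) + z₁‖ := by congr 1; ring
      _ ≤ _ := norm_add₃_le
  have h3 : ‖z₁‖ * (1 + 5 / a) = ‖z₁‖ + 5 * (‖z₁‖ / a) := by ring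
  linarith

end Arc

open Arc in
theorem sArc (h : SGrid) : SArc := by
  intro ρ₀ hρ R₀
  obtain ⟨R, hR₀, hR⟩ : ∃ R, R₀ ≤ R ∧ 2 * ρ₀ ≤ R := ⟨_, le_max_left _ _, le_max_right _ _⟩
  have he : (1 : ℝ) ≤ Real.exp 6 := Real.one_le_exp (by norm_num)
  have hR1 : 0 < R + 1 := by linarith
  refine ⟨(ρ₀ / (6000 * (R + 1) * Real.exp 6)) ^ 2, by positivity, 6000 * (R + 1), ?_⟩
  intro φ Ψ z₁ l a E T hφ hw hE hl hz hN
  have ha := hw.one_le
  have hr₁ : 0 < ‖z₁‖ := norm_pos_iff.2 hz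
  have hl0 : 0 < l := by linarith
  set q : ℝ := ‖z₁‖ / a with hq
  have hq0 : 0 < q := div_pos hr₁ (by linarith)
  have hq1 : q ≤ ‖z₁‖ := div_le_self hr₁.le ha
  set k : ℕ := ⌊l / (3000 * (R + 1))⌋₊ with hk
  have hk1 : (k : ℝ) ≤ l / (3000 * (R + 1)) := Nat.floor_le (by positivity)
  have hk2 : l / (6000 * (R + 1)) ≤ k := by
    have h1 : l / (3000 * (R + 1)) < k + 1 := Nat.lt_floor_add_one _
    have h2 : 1 ≤ l / (6000 * (R + 1)) := (one_le_div (by positivity)).2 hl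
    have h3 : l / (3000 * (R + 1)) = 2 * (l / (6000 * (R + 1))) := by field_simp; ring
    linarith
  obtain ⟨Z, hZc, hZ, hZs⟩ := h {p | ball p ρ₀ ⊆ T} R
    (fun w => (hN w).imp fun p hp => ⟨hp.1, hp.2.trans hR₀⟩) (φ z₁) k
  have hsub : ∀ p ∈ Z, ball p ρ₀ ⊆ ball (φ z₁) (l / 200) := fun p hp => by
    refine ball_subset_ball' ?_
    have h1 : (R + 1) * k ≤ l / 3000 := by
      rw [le_div_iff₀ (by positivity)] at hk1
      linarith
    linarith [(hZ p hp).2]
  set M : ℝ := l * Real.exp 6 with hM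
  have hM0 : 0 < M := by positivity
  have hM1 : 60 * ρ₀ ≤ M := by nlinarith
  set s : ℝ := ρ₀ * q / M with hs
  have hs0 : 0 < s := by positivity
  have hs1 : s ≤ q / 60 := by
    rw [hs, div_le_iff₀ hM0]; nlinarith
  have hin : ∀ p ∈ Z, ball (Ψ p) s ⊆ ball z₁ (q / 20) := fun p hp => by
    refine ball_subset_ball' ?_
    have h1 := hw.near p (hsub p hp (mem_ball_self hρ))
    rw [dist_eq_norm]
    linarith
  have hmap : ∀ p ∈ Z, ∀ z ∈ ball (Ψ p) s, φ z ∈ ball p ρ₀ := fun p hp z hz' => by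
    have h1 := lip hφ ha hz hw.mx (hin p hp hz') (hin p hp (mem_ball_self hs0))
    rw [(hw.inv_ball hE (hsub p hp (mem_ball_self hρ))).2] at h1
    rw [mem_ball, dist_eq_norm] at hz' ⊢
    refine h1.trans_lt ?_
    calc M / q * ‖z - Ψ p‖ < M / q * s := by gcongr
      _ = ρ₀ := by rw [hs]; field_simp
  have hdis : (Z : Set ℂ).PairwiseDisjoint fun p => ball (Ψ p) s := fun p hp p' hp' hne => by
    refine Set.disjoint_left.2 fun z h1 h2 => ?_
    have h3 := mem_ball.1 (hmap p hp z h1)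
    have h4 := mem_ball.1 (hmap p' hp' z h2)
    linarith [hZs p hp p' hp' hne, dist_triangle_left p p' (φ z)]
  set U : Set ℂ := ⋃ p ∈ Z, ball (Ψ p) s with hU
  have hUo : IsOpen U := isOpen_biUnion fun _ _ => isOpen_ball
  have hUv : volume U = ENNReal.ofReal ((k : ℝ) ^ 2 * (s ^ 2 * π)) := by
    rw [hU, measure_biUnion_finset hdis fun _ _ => measurableSet_ball]
    simp only [Complex.volume_ball, Finset.sum_const, hZc, nsmul_eq_mul]
    rw [ENNReal.ofReal_mul (by positivity), ENNReal.ofReal_mul (by positivity),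
      ENNReal.ofReal_pow hs0.le, ENNReal.ofReal_pow (by positivity), ENNReal.ofReal_natCast,
      ← NNReal.coe_real_pi, ENNReal.ofReal_coe_nnreal, Nat.cast_pow]
  have hUin : ∀ z ∈ U, ‖z - z₁‖ ≤ q / 20 := fun z hz' => by
    obtain ⟨p, hp, hz''⟩ := mem_iUnion₂.1 hz'
    have := hin p hp hz''
    rw [mem_ball, dist_eq_norm] at this
    exact this.le
  set c : ℝ := ρ₀ / (6000 * (R + 1) * Real.exp 6) with hc
  have hc0 : 0 < c := by positivity
  obtain ⟨r, hr, hm⟩ := polar hUo (r₁ := ‖z₁‖) (δ := q / 20) (m := c ^ 2 / a) (by positivity)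
    (by linarith) (by positivity) (fun z hz' => (abs_norm_sub_norm_le z z₁).trans (hUin z hz')) (by
      rw [hUv, ENNReal.ofReal_lt_ofReal_iff_of_nonneg (by positivity)]
      have h1 : c * q ≤ k * s := by
        calc c * q = l / (6000 * (R + 1)) * s := by rw [hc, hs, hM]; field_simp
          _ ≤ k * s := by gcongr
      have h2 : (c * q) ^ 2 ≤ (k * s) ^ 2 := by gcongr
      have h3 : 2 * ‖z₁‖ * (c ^ 2 / a * (2 * (q / 20))) = (c * q) ^ 2 / 5 := by
        rw [hq]; field_simp; ring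
      have h4 : 0 < (c * q) ^ 2 := by positivity
      rw [h3]
      nlinarith [Real.pi_gt_three])
  refine ⟨r, -π, ang U r, hr, measurableSet_ang hUo r,
    fun θ hθ => ⟨hθ.1.1, by linarith [hθ.1.2]⟩, hm, fun θ hθ => ⟨?_, hw.left _ (hUin _ hθ.2)⟩⟩
  obtain ⟨p, hp, hz''⟩ := mem_iUnion₂.1 hθ.2
  exact ⟨(hZ p hp).1 (hmap p hp _ hz''), hsub p hp (hmap p hp _ hz'')⟩

end Pool.Agent.P.MP_7ede32_ag.Full
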