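import Pool.Agent.P.MP_7ede32_ag.Full.StB

/-!
Functions with bounded characteristic form an algebraically closed subfield.
-/

open Filter Topology Metric Set ValueDistribution MeromorphicOn Real

noncomputable section

namespace Pool.Agent.P.MP_7ede32_ag.Full

namespace BdP

theorem prox_le {Y : Mer} {s : Finset Mer} {C r : ℝ} (hr : 1 ≤ r)
    (h : ∀ᶠ z in codiscrete ℂ, log⁺ ‖Y.rep z‖ ≤ C * (1 + ∑ a ∈ s, log⁺ ‖a.rep z‖)) :
    proximity Y.rep ⊤ r ≤ C * (1 + ∑ a ∈ s, proximity a.rep ⊤ r) := by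
  have hr0 : r ≠ 0 := by positivity
  have hi : ∀ a : Mer, CircleIntegrable (fun z => log⁺ ‖a.rep z‖) 0 r := fun a =>
    a.mer_rep.meromorphicOn.circleIntegrable_posLog_norm
  have hs : CircleIntegrable (∑ a ∈ s, fun z => log⁺ ‖a.rep z‖) 0 r :=
    CircleIntegrable.sum s fun a _ => hi a
  have h1 : CircleIntegrable ((fun _ => (1 : ℝ)) + ∑ a ∈ s, fun z => log⁺ ‖a.rep z‖) 0 r :=
    (circleIntegrable_const _ _ _).add hs
  have h2 := N.circleAverage_le_of_cd hr0 (hi Y) (h1.const_smul (a := C))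
    ((h.filter_mono (codiscreteWithin_mono (subset_univ _))).mono fun z hz => by simpa using hz)
  rw [circleAverage_smul, circleAverage_add (circleIntegrable_const _ _ _) hs,
    circleAverage_sum fun a _ => hi a, circleAverage_const] at h2
  simpa only [proximity_top, smul_eq_mul] using h2

theorem count_le {Y : Mer} {s : Finset Mer} {C : ℕ} {r : ℝ} (hr : 1 ≤ r)
    (h : ∀ z, po Y z ≤ C * ∑ a ∈ s, po a z) :
    logCounting Y.rep ⊤ r ≤ C * ∑ a ∈ s, logCounting a.rep ⊤ r := by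
  have h1 : (divisor Y.rep univ)⁻ ≤ C • ∑ a ∈ s, (divisor a.rep univ)⁻ := fun z => by
    simpa [po] using h z
  have h2 := Function.locallyFinsuppWithin.logCounting_le h1 hr
  rw [map_nsmul, map_sum] at h2
  simpa only [logCounting_top, Pi.smul_apply, Finset.sum_apply, nsmul_eq_mul] using h2

variable {J : Type} {ρ τ : J → ℝ}

theorem bd_int (h : SInt) (hρ : ∀ j, 1 ≤ ρ j) (hτ : ∀ j, 1 ≤ τ j) {A : Set Mer}
    (hA : ∀ a ∈ A, Bd ρ τ a) {Y : Mer} (hY : IsIntegral (Subring.closure A) Y) : Bd ρ τ Y := by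
  obtain ⟨s, C, hs, h1, h2⟩ := h A Y hY
  choose! K hK using hA
  refine ⟨C * (1 + ∑ a ∈ s, K a), fun j => ?_⟩
  have h3 := prox_le (hρ j) h1
  have h4 := count_le (hρ j) h2
  have h5 : ∑ a ∈ s, proximity a.rep ⊤ (ρ j) + ∑ a ∈ s, logCounting a.rep ⊤ (ρ j) ≤
      (∑ a ∈ s, K a) * τ j := by
    rw [← Finset.sum_add_distrib, Finset.sum_mul]
    exact Finset.sum_le_sum fun a ha => hK a (hs ha) j
  have h6 : (0 : ℝ) ≤ C := Nat.cast_nonneg C
  change proximity Y.rep ⊤ (ρ j) + logCounting Y.rep ⊤ (ρ j) ≤ _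
  calc _ ≤ C * (1 + (∑ a ∈ s, proximity a.rep ⊤ (ρ j) +
        ∑ a ∈ s, logCounting a.rep ⊤ (ρ j))) := by linarith
    _ ≤ C * (τ j + (∑ a ∈ s, K a) * τ j) := by gcongr; exact hτ j
    _ = _ := by ring

theorem bd_mem (h : SInt) (hρ : ∀ j, 1 ≤ ρ j) (hτ : ∀ j, 1 ≤ τ j) {A : Set Mer}
    (hA : ∀ a ∈ A, Bd ρ τ a) {Y : Mer} (hY : Y ∈ Subring.closure A) : Bd ρ τ Y :=
  bd_int h hρ hτ hA (isIntegral_algebraMap (x := (⟨Y, hY⟩ : Subring.closure A)))

theorem bd_const (hρ : ∀ j, 1 ≤ ρ j) (hτ : ∀ j, 1 ≤ τ j) (c : ℂ) : Bd ρ τ (Mer.const c) := by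
  refine ⟨log⁺ ‖c‖, fun j => ?_⟩
  have h0 : ρ j ≠ 0 := by have := hρ j; positivity
  rw [Tm, characteristic_congr_codiscrete (Mer.rep_const c) h0]
  simp only [characteristic, Pi.add_apply, proximity_const, logCounting_const, Pi.zero_apply,
    add_zero]
  exact le_mul_of_one_le_right posLog_nonneg (hτ j)

theorem bd_inv (hρ : ∀ j, 1 ≤ ρ j) (hτ : ∀ j, 1 ≤ τ j) {g : Mer} (hg : Bd ρ τ g) :
    Bd ρ τ g⁻¹ := by
  obtain ⟨C, hC⟩ := hg
  refine ⟨C + max |log ‖g.rep 0‖| |log ‖meromorphicTrailingCoeffAt g.rep 0‖|, fun j => ?_⟩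
  have h0 : ρ j ≠ 0 := by have := hρ j; positivity
  have h1 := (abs_le.1 (characteristic_sub_characteristic_inv_le g.mer_rep (R := ρ j))).1
  have h2 := le_mul_of_one_le_right ((abs_nonneg (log ‖g.rep 0‖)).trans
    (le_max_left _ |log ‖meromorphicTrailingCoeffAt g.rep 0‖|)) (hτ j)
  have h3 := hC j
  rw [Tm, characteristic_congr_codiscrete (g := g.rep⁻¹) (Mer.rep_inv g) h0]
  rw [Tm] at h3
  linarith

end BdP

theorem sBd (h : SInt) : SBd := by
  intro J ρ τ hρ hτ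
  refine ⟨BdP.bd_const hρ hτ, fun G hG g hg => ?_⟩
  have hm : ∀ Y ∈ Subring.closure {a | Bd ρ τ a}, Bd ρ τ Y := fun Y hY =>
    BdP.bd_mem h hρ hτ (fun _ ha => ha) hY
  let E : Subfield Mer :=
    { toSubring := Subring.closure {a | Bd ρ τ a}
      inv_mem' := fun x hx => Subring.subset_closure (BdP.bd_inv hρ hτ (hm x hx)) }
  have h1 : IsAlgebraic E g :=
    isAlgebraic_of_mem_acl E (fun y hy => ⟨⟨y, Subring.subset_closure (hG y hy)⟩, rfl⟩) hg
  exact BdP.bd_int h hρ hτ (A := {a | Bd ρ τ a}) (fun _ ha => ha) h1.isIntegral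

end Pool.Agent.P.MP_7ede32_ag.Full
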