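import Pool.Agent.P.MP_7ede32_ag.Full.StB

/-!
A bounded function on a truncated half-plane that vanishes on a net is very small.
-/

open Filter Topology Metric Set

noncomputable section

namespace Pool.Agent.P.MP_7ede32_ag.Full

namespace CapP

/-- each zero in the inner third of a disc halves the bound at the centre -/
lemma zb {U : Set ℂ} (hU : IsOpen U) {z : ℂ} {r : ℝ} (hr : 0 < r) (hs : closedBall z (3 * r) ⊆ U)
    (Z : Finset ℂ) : ∀ (f : ℂ → ℂ) (M : ℝ), DifferentiableOn ℂ f U →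
      (∀ ζ ∈ sphere z (3 * r), ‖f ζ‖ ≤ M) → (∀ p ∈ Z, f p = 0 ∧ dist p z ≤ r) →
      ‖f z‖ * 2 ^ Z.card ≤ M := by
  classical
  have h3 : 0 < 3 * r := by positivity
  induction Z using Finset.induction_on with
  | empty =>
    intro f M hf hM _
    rw [Finset.card_empty, pow_zero, mul_one]
    refine Complex.norm_le_of_forall_mem_frontier_norm_le (U := ball z (3 * r)) isBounded_ball
      (DifferentiableOn.diffContOnCl ?_) (by rwa [frontier_ball z h3.ne']) ?_
    · rw [closure_ball z h3.ne']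
      exact hf.mono hs
    · exact subset_closure (mem_ball_self h3)
  | insert p Z hp ih =>
    intro f M hf hM hZ
    obtain ⟨h1, h2⟩ := hZ p (Finset.mem_insert_self _ _)
    have hpU : p ∈ U := hs (mem_closedBall.2 (by linarith))
    have hg : DifferentiableOn ℂ (dslope f p) U :=
      (Complex.differentiableOn_dslope (hU.mem_nhds hpU)).2 hf
    have hz : ∀ ζ, f ζ = (ζ - p) * dslope f p ζ := fun ζ => by
      have := sub_smul_dslope f p ζ
      rw [h1, sub_zero, smul_eq_mul] at this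
      exact this.symm
    have h4 := ih (dslope f p) (M / (2 * r)) hg (fun ζ hζ => by
      have h5 : dist ζ z = 3 * r := hζ
      have h6 : 2 * r ≤ ‖ζ - p‖ := by
        rw [← dist_eq_norm]
        linarith [dist_triangle ζ p z]
      have h7 := hM ζ hζ
      rw [hz ζ, norm_mul] at h7
      rw [le_div_iff₀ (by positivity)]
      nlinarith [norm_nonneg (dslope f p ζ)]) (fun q hq => by
      refine ⟨?_, (hZ q (Finset.mem_insert_of_mem hq)).2⟩
      have h5 := (hZ q (Finset.mem_insert_of_mem hq)).1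
      rw [hz q, mul_eq_zero, sub_eq_zero] at h5
      exact h5.resolve_left fun h => hp (h ▸ hq))
    rw [le_div_iff₀ (by positivity)] at h4
    have h5 : ‖z - p‖ ≤ r := by rwa [← dist_eq_norm, dist_comm]
    rw [Finset.card_insert_of_notMem hp, hz z, norm_mul]
    calc _ = ‖z - p‖ * (‖dslope f p z‖ * 2 ^ Z.card * 2) := by ring
      _ ≤ r * (‖dslope f p z‖ * 2 ^ Z.card * 2) := by gcongr
      _ = ‖dslope f p z‖ * 2 ^ Z.card * (2 * r) := by ring
      _ ≤ M := h4

/-- the discrete maximum principle -/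
lemma discrete_max {Ω Ω' : Set ℂ} {E : ℂ → ℝ} {D M : ℝ} (hD : 0 ≤ D) (hM : ∀ z ∈ Ω', E z ≤ M)
    (hb : ∀ z ∈ Ω', z ∉ Ω → E z ≤ D)
    (hs : ∀ z ∈ Ω, ∀ m, (∀ ζ ∈ Ω', E ζ ≤ m) → E z ≤ m / 2) : ∀ z ∈ Ω', E z ≤ D := by
  intro z hz
  have hbdd : BddAbove (E '' Ω') := ⟨M, by rintro _ ⟨w, hw, rfl⟩; exact hM w hw⟩
  have hle : ∀ w ∈ Ω', E w ≤ sSup (E '' Ω') := fun w hw => le_csSup hbdd (mem_image_of_mem _ hw)
  have h1 : sSup (E '' Ω') ≤ max D (sSup (E '' Ω') / 2) := by
    refine csSup_le ⟨_, mem_image_of_mem _ hz⟩ ?_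
    rintro _ ⟨w, hw, rfl⟩
    by_cases h : w ∈ Ω
    · exact (hs w h _ hle).trans (le_max_right _ _)
    · exact (hb w hw h).trans (le_max_left _ _)
  rcases le_max_iff.1 h1 with h | h
  · exact (hle z hz).trans h
  · linarith [hle z hz]

lemma re_le {u : ℂ} (hu : ‖u‖ = 1) (w : ℂ) : |(starRingEnd ℂ u * w).re| ≤ ‖w‖ := by
  refine (Complex.abs_re_le_norm _).trans_eq ?_
  rw [norm_mul, Complex.norm_conj, hu, one_mul]

lemma isOpen_cap (u c : ℂ) (a b : ℝ) : IsOpen (Cap u c a b) :=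
  IsOpen.inter (s := {w | a < (starRingEnd ℂ u * (w - c)).re}) (t := {w | ‖w - c‖ < b})
    (isOpen_lt (by fun_prop) (by fun_prop)) (isOpen_lt (by fun_prop) (by fun_prop))

lemma sq_add (x y : ℂ) : ‖x + y‖ ^ 2 = ‖x‖ ^ 2 + 2 * (starRingEnd ℂ x * y).re + ‖y‖ ^ 2 := by
  simp only [Complex.sq_norm, Complex.normSq_apply, Complex.add_re, Complex.add_im,
    Complex.mul_re, Complex.conj_re, Complex.conj_im]
  ring

end CapP

theorem sCap (h : SGrid) : SCap := by
  intro R
  refine ⟨63 * (|R| + 1), by positivity, ?_⟩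
  have hR : 7 * (R + 1) * ((2 : ℕ) + 1) ≤ 63 * (|R| + 1) / 3 := by
    push_cast
    linarith [le_abs_self R]
  have hρ : 0 < 63 * (|R| + 1) := by positivity
  generalize 63 * (|R| + 1) = ρ at hR hρ
  intro Θ u c a b P hu ha hb hP hΘ h2 h0
  have hρ2 : 0 < ρ ^ 2 := by positivity
  have hb0 : 0 < b := by linarith
  set g : ℂ → ℝ := fun w =>
    (b / 4 * ((starRingEnd ℂ u * (w - c)).re - a - ρ) - ‖w - c‖ ^ 2) / ρ ^ 2 with hg
  have key := CapP.discrete_max (E := fun w => ‖Θ w‖ * Real.exp (g w)) (Ω' := Cap u c a b)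
    (Ω := {z | a + ρ < (starRingEnd ℂ u * (z - c)).re ∧ ‖z - c‖ + ρ < b}) (D := 2)
    (M := 2 * Real.exp (b / 4 * b / ρ ^ 2)) zero_le_two (fun z hz => by
      refine mul_le_mul (h2 z hz) (Real.exp_le_exp.2 (div_le_div_of_nonneg_right ?_ hρ2.le))
        (Real.exp_pos _).le zero_le_two
      have h3 := (le_abs_self _).trans (CapP.re_le hu (z - c))
      nlinarith [hz.2, sq_nonneg ‖z - c‖]) (fun z hz hn => by
      have h3 := (le_abs_self _).trans (CapP.re_le hu (z - c))
      have h4 : g z ≤ 0 := by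
        refine div_nonpos_of_nonpos_of_nonneg ?_ hρ2.le
        rcases not_and_or.1 hn with h5 | h5
        · nlinarith [not_lt.1 h5, sq_nonneg ‖z - c‖]
        · have h6 : b / 2 ≤ ‖z - c‖ := by linarith [not_lt.1 h5]
          nlinarith
      have h5 := Real.exp_le_one_iff.2 h4
      nlinarith [h2 z hz, norm_nonneg (Θ z), Real.exp_pos (g z)]) (fun z hz m hm => by
      have hs : closedBall z (3 * (ρ / 3)) ⊆ Cap u c a b := fun ζ hζ => by
        have h3 : ‖ζ - z‖ ≤ ρ := by
          rw [← dist_eq_norm]; linarith [mem_closedBall.1 hζ]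
        have h4 := neg_le_of_abs_le (CapP.re_le hu (ζ - z))
        have h5 : ζ - c = (z - c) + (ζ - z) := by ring
        refine ⟨?_, ?_⟩
        · rw [h5, mul_add, Complex.add_re]
          linarith [hz.1]
        · rw [h5]
          linarith [hz.2, norm_add_le (z - c) (ζ - z)]
      have hzc : z ∈ Cap u c a b := hs (mem_closedBall_self (by positivity))
      have hm0 : 0 ≤ m := le_trans (by positivity) (hm z hzc)
      obtain ⟨Z, hZ, hZ', -⟩ := h P R hP z 2
      set K : ℝ := (b / 4 * (a + ρ) + ‖z - c‖ ^ 2) / ρ ^ 2 with hK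
      have hn : ∀ ζ, ‖Θ ζ * Complex.exp ((((b / 4 / ρ ^ 2 : ℝ) : ℂ) * (starRingEnd ℂ u * (ζ - c)) -
          ((2 / ρ ^ 2 : ℝ) : ℂ) * (starRingEnd ℂ (z - c) * (ζ - z))))‖ =
          ‖Θ ζ‖ * Real.exp (g ζ) * Real.exp K * Real.exp (‖ζ - z‖ ^ 2 / ρ ^ 2) := fun ζ => by
        rw [norm_mul, Complex.norm_exp, mul_assoc, mul_assoc, ← Real.exp_add, ← Real.exp_add,
          Complex.sub_re, Complex.re_ofReal_mul, Complex.re_ofReal_mul]
        congr 2
        have h5 := CapP.sq_add (z - c) (ζ - z)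
        rw [show z - c + (ζ - z) = ζ - c by ring] at h5
        simp only [hg, hK, h5]
        field_simp
        ring
      have h3 := CapP.zb (CapP.isOpen_cap u c a b) (by positivity) hs Z
        (fun ζ => Θ ζ * Complex.exp ((((b / 4 / ρ ^ 2 : ℝ) : ℂ) * (starRingEnd ℂ u * (ζ - c)) -
          ((2 / ρ ^ 2 : ℝ) : ℂ) * (starRingEnd ℂ (z - c) * (ζ - z)))))
        (m * Real.exp K * Real.exp 1) (hΘ.mul (by fun_prop)) (fun ζ hζ => by
          have h4 : ‖ζ - z‖ = ρ := by
            rw [← dist_eq_norm]; linarith [mem_sphere.1 hζ]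
          refine (hn ζ).trans_le ?_
          rw [h4, div_self hρ2.ne']
          gcongr
          exact hm ζ (hs (sphere_subset_closedBall hζ))) (fun p hp => by
          have h4 := (hZ' p hp).2.trans hR
          refine ⟨?_, h4⟩
          rw [h0 p ⟨(hZ' p hp).1, hs (mem_closedBall.2 (by linarith))⟩, zero_mul])
      rw [hn z, hZ, sub_self, norm_zero] at h3
      have h4 : Real.exp 1 ≤ 8 := by linarith [Real.exp_one_lt_d9]
      have h5 : ‖Θ z‖ * Real.exp (g z) * 16 * Real.exp K ≤ m * 8 * Real.exp K := by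
        calc _ = ‖Θ z‖ * Real.exp (g z) * Real.exp K * Real.exp (0 ^ 2 / ρ ^ 2) * 2 ^ 2 ^ 2 := by
              simp only [ne_eq, OfNat.ofNat_ne_zero, not_false_eq_true, zero_pow, zero_div,
                Real.exp_zero]
              ring
          _ ≤ m * Real.exp K * Real.exp 1 := h3
          _ ≤ m * Real.exp K * 8 := by gcongr
          _ = _ := by ring
      linarith [le_of_mul_le_mul_right h5 (Real.exp_pos K)])
  intro w hw
  have h3 := key w hw
  rw [← le_div_iff₀ (Real.exp_pos _), div_eq_mul_inv, ← Real.exp_neg] at h3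
  refine h3.trans_eq ?_
  congr 2
  simp only [hg]
  ring

end Pool.Agent.P.MP_7ede32_ag.Full
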