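import Pool.Agent.P.MP_7ede32_ag.Full.StB

/-! Subtracting the principal parts. -/

open Filter Topology Metric Set

noncomputable section

namespace Pool.Agent.P.MP_7ede32_ag.Full

theorem sCous : SCous := by
  classical
  intro D e M M' lam w₀ F P H he hM hF hP
  have hθ := D.θ_pos
  have hC : ∀ c ∈ F, c ∈ D.C := fun c hc => ((hF c).1 hc).1
  let Hc : ℂ → ℂ → ℂ := fun c w => H c w - ∑ c' ∈ F.erase c, P c' w
  let E : ℂ → ℂ := fun w => e w - ∑ c ∈ F, P c w
  let K : ℂ → ℂ := fun w => if h : ∃ c ∈ F, dist w c < D.r c then Hc h.choose w else E w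
  have hPd : ∀ c ∈ F, ∀ w, D.r c - D.θ < dist w c → DifferentiableAt ℂ (P c) w := by
    intro c hc w hw
    have ho : IsOpen {w : ℂ | D.r c - D.θ < dist w c} :=
      isOpen_lt continuous_const (by fun_prop)
    exact (hP c hc).1.differentiableAt (ho.mem_nhds hw)
  have ha : ∀ c ∈ F, DifferentiableOn ℂ (Hc c) (ball c (D.r c + D.θ)) := by
    intro c hc
    refine (hP c hc).2.1.sub fun w hw => DifferentiableAt.differentiableWithinAt ?_
    refine DifferentiableAt.fun_sum fun c' hc' => hPd c' (Finset.mem_of_mem_erase hc') w ?_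
    have h1 := D.sep c (hC c hc) c' (hC c' (Finset.mem_of_mem_erase hc'))
      (Finset.ne_of_mem_erase hc').symm
    have h2 := mem_ball.1 hw
    linarith [dist_triangle_left c c' w]
  have hb : ∀ c ∈ F, ∀ w, D.r c - D.θ < dist w c → dist w c < D.r c + D.θ → Hc c w = E w := by
    intro c hc w h1 h2
    simp only [Hc, E]
    rw [(hP c hc).2.2.1 w h1 h2, ← Finset.add_sum_erase F (fun c => P c w) hc]
    ring
  have hE : ∀ w, (∀ c ∈ F, D.r c ≤ dist w c) → K w = E w := by
    intro w hw
    refine dif_neg ?_
    rintro ⟨c, hc, h⟩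
    exact absurd (hw c hc) (not_le.2 h)
  have hc : ∀ c ∈ F, ∀ w, dist w c < D.r c + D.θ → K w = Hc c w := by
    intro c hc w hw
    by_cases h : ∃ c ∈ F, dist w c < D.r c
    · have h1 := h.choose_spec
      have h2 : h.choose = c := by
        by_contra hne
        have := D.sep _ (hC _ h1.1) c (hC c hc) hne
        linarith [dist_triangle_left h.choose c w, h1.2]
      simp only [K]
      rw [dif_pos h, h2]
    · push Not at h
      rw [hE w h, hb c hc w (by linarith [h c hc]) hw]
  have hG : ∀ w ∈ ball w₀ lam, (∀ c ∈ F, D.r c ≤ dist w c) → w ∈ D.G 0 := by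
    intro w hw h c hc
    by_cases hcF : c ∈ F
    · simpa using h c hcF
    · have h1 : lam + D.rm < dist c w₀ := not_le.1 fun h' => hcF ((hF c).2 ⟨hc, h'⟩)
      have h2 := mem_ball.1 hw
      have h3 := D.r_le c hc
      have h4 := dist_triangle c w w₀
      rw [dist_comm c w] at h4
      linarith
  have hEb : ∀ w ∈ D.G 0, ‖E w‖ ≤ M + F.card * M' := by
    intro w hw
    refine (norm_sub_le _ _).trans (add_le_add (hM w (D.G_subset_Go hw)) ?_)
    refine (norm_sum_le _ _).trans ?_
    rw [← nsmul_eq_mul]
    exact Finset.sum_le_card_nsmul _ _ _ fun c hc =>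
      (hP c hc).2.2.2 w (by simpa using hw c (hC c hc))
  refine ⟨K, fun w hw => DifferentiableAt.differentiableWithinAt ?_, fun w hw => ?_,
    fun w hw => hE w fun c hc => by simpa using hw c (hC c hc)⟩
  · by_cases h : ∃ c ∈ F, dist w c < D.r c + D.θ
    · obtain ⟨c, hcF, h⟩ := h
      have hn : ball c (D.r c + D.θ) ∈ 𝓝 w := isOpen_ball.mem_nhds (mem_ball.2 h)
      refine ((ha c hcF).differentiableAt hn).congr_of_eventuallyEq ?_
      filter_upwards [hn] with z hz using hc c hcF z (mem_ball.1 hz)
    · push Not at h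
      have hw0 := hG w hw fun c hc => by linarith [h c hc]
      have h1 : DifferentiableAt ℂ E w :=
        (he.differentiableAt (D.isOpen_Go.mem_nhds (D.G_subset_Go hw0))).sub
          (DifferentiableAt.fun_sum fun c hc => hPd c hc w (by linarith [h c hc]))
      refine h1.congr_of_eventuallyEq ?_
      filter_upwards [ball_mem_nhds w hθ] with z hz
      refine hE z fun c hc => ?_
      linarith [h c hc, mem_ball.1 hz, dist_triangle_left w c z]
  · by_cases h : ∃ c ∈ F, dist w c < D.r c
    · obtain ⟨c, hcF, h⟩ := h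
      have hr : 0 < D.r c := by linarith [D.le_r c (hC c hcF)]
      rw [hc c hcF w (by linarith)]
      refine Complex.norm_le_of_forall_mem_frontier_norm_le (U := ball c (D.r c)) isBounded_ball
        ?_ (fun z hz => ?_) (subset_closure (mem_ball.2 h))
      · refine DifferentiableOn.diffContOnCl ((ha c hcF).mono ?_)
        rw [closure_ball c hr.ne']
        exact closedBall_subset_ball (by linarith)
      · rw [frontier_ball c hr.ne', mem_sphere] at hz
        rw [hb c hcF z (by linarith) (by linarith)]
        exact hEb z (D.mem_G (hC c hcF) (by linarith) (by linarith))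
    · push Not at h
      rw [hE w h]
      exact hEb w (hG w hw h)

end Pool.Agent.P.MP_7ede32_ag.Full
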