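import Pool.Agent.P.MP_7ede32_ag.Full.StA

/-!
Local coordinates in a subfield that generates the function field over the constants.
-/

open scoped WithZero IntermediateField Polynomial
open WithZero

noncomputable section

namespace Pool.Agent.P.MP_7ede32_ag.Full

namespace Desc

variable {k F : Type} [Field k] [Field F] [Algebra k F]

theorem D_aeval {d : Der F} (h : ∀ c : k, d.D (algebraMap k F c) = 0) (f : F) (q : k[X]) :
    d.D (Polynomial.aeval f q) = Polynomial.aeval f q.derivative * d.D f := by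
  have e := d.D_eval (q.map (algebraMap k F)) f
  rw [Finset.sum_eq_zero fun i _ => by rw [Polynomial.coeff_map, h, zero_mul], zero_add,
    Polynomial.derivative_map, Polynomial.eval_map_algebraMap,
    Polynomial.eval_map_algebraMap] at e
  exact e

theorem val_aeval {w : Valuation F ℤᵐ⁰} (hw : ∀ c, w (algebraMap k F c) ≤ 1) {f : F} {c : k}
    (h : w (f - algebraMap k F c) < 1) (q : k[X]) :
    w (Polynomial.aeval f q - algebraMap k F (q.eval c)) < 1 := by
  have hf : w f ≤ 1 := by simpa using w.map_add_le h.le (hw c)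
  have h1 : ∀ n : ℕ, w (f ^ n - algebraMap k F c ^ n) < 1 := fun n => by
    induction n with
    | zero => simp
    | succ n ih =>
      rw [show f ^ (n + 1) - algebraMap k F c ^ (n + 1) = (f ^ n - algebraMap k F c ^ n) * f +
        (f - algebraMap k F c) * algebraMap k F (c ^ n) by rw [map_pow]; ring]
      refine w.map_add_lt ?_ ?_ <;> rw [map_mul]
      exacts [(mul_le_of_le_one_right' hf).trans_lt ih, (mul_le_of_le_one_right' (hw _)).trans_lt h]
  induction q using Polynomial.induction_on' with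
  | add p q hp hq =>
    rw [map_add, Polynomial.eval_add, map_add, add_sub_add_comm]
    exact w.map_add_lt hp hq
  | monomial n a =>
    rw [Polynomial.aeval_monomial, Polynomial.eval_monomial, map_mul, map_pow, ← mul_sub, map_mul]
    exact (mul_le_of_le_one_left' (hw a)).trans_lt (h1 n)

/-- the minimal polynomial of the residue -/
theorem exists_poly [CharZero k] (𝒞 : FC k F) (P : 𝒞.Pl) {K₀ : Subfield k} {F₁ : Subfield F}
    (h0 : Algebra.IsAlgebraic K₀ k) (h1 : ∀ c ∈ K₀, algebraMap k F c ∈ F₁) {f : F} (hf : f ∈ F₁)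
    (hw : 𝒞.v P f ≤ 1) : ∃ q : k[X], q ≠ 0 ∧ Polynomial.aeval f q ∈ F₁ ∧
      𝒞.v P (Polynomial.aeval f q) < 1 ∧ 𝒞.v P (Polynomial.aeval f q.derivative) = 1 := by
  obtain ⟨c, hc⟩ := 𝒞.res P f hw
  have hi : IsIntegral K₀ c := (h0.isAlgebraic c).isIntegral
  refine ⟨(minpoly K₀ c).map (algebraMap K₀ k), Polynomial.map_ne_zero (minpoly.ne_zero hi),
    ?_, ?_, ?_⟩
  · rw [Polynomial.aeval_eq_sum_range]
    refine F₁.sum_mem fun i _ => ?_
    rw [Algebra.smul_def, Polynomial.coeff_map]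
    exact F₁.mul_mem (h1 _ (Subtype.prop _)) (F₁.pow_mem hf i)
  · have e := val_aeval (𝒞.const P) hc ((minpoly K₀ c).map (algebraMap K₀ k))
    rwa [Polynomial.eval_map_algebraMap, minpoly.aeval, map_zero, sub_zero] at e
  · have e := val_aeval (𝒞.const P) hc ((minpoly K₀ c).map (algebraMap K₀ k)).derivative
    have n : ((minpoly K₀ c).map (algebraMap K₀ k)).derivative.eval c ≠ 0 := by
      rw [Polynomial.derivative_map, Polynomial.eval_map_algebraMap]
      exact (minpoly.irreducible hi).separable.aeval_derivative_ne_zero (minpoly.aeval K₀ c)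
    rw [← 𝒞.toCurve.v_const P n] at e ⊢
    exact (𝒞.v P).map_eq_of_sub_lt e

theorem exists_exp {γ : ℤᵐ⁰} (h0 : γ ≠ 0) (h1 : γ < 1) : ∃ n : ℕ, γ = exp (-((n : ℤ) + 1)) := by
  induction γ using expRecOn with
  | zero => exact absurd rfl h0
  | exp a =>
    rw [← exp_zero, exp_lt_exp] at h1
    exact ⟨(-a - 1).toNat, by congr 1; omega⟩

theorem exists_unif [IsAlgClosed k] [CharZero k] (h : SLoc) (𝒞 : FC k F) {d : Der F} {x : F}
    {K₀ : Subfield k} {F₁ : Subfield F} (hd : Std k d x) (h0 : Algebra.IsAlgebraic K₀ k)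
    (h1 : ∀ c ∈ K₀, algebraMap k F c ∈ F₁) (hx : x ∈ F₁) (h2 : ∀ u ∈ F₁, d.D u ∈ F₁)
    (h3 : Subfield.closure (Set.range (algebraMap k F) ∪ F₁) = ⊤) (P : 𝒞.Pl) :
    ∃ y ∈ F₁, 𝒞.v P y = exp (-1) := by
  classical
  obtain ⟨-, l2, -, l4, -⟩ := (h k F 𝒞).2 d x hd
  obtain ⟨π, hπ⟩ := 𝒞.unif P
  have g0 : 𝒞.v P (d.D π) ≠ 0 := (𝒞.v P).ne_zero_iff.2 (l2 P π hπ).2.1
  have ex : ∃ n : ℕ, ∃ f ∈ F₁, 𝒞.v P f = exp (-((n : ℤ) + 1)) := by
    suffices a : ∃ f ∈ F₁, f ≠ 0 ∧ 𝒞.v P f < 1 by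
      obtain ⟨f, f1, f2, f3⟩ := a
      obtain ⟨n, hn⟩ := exists_exp ((𝒞.v P).ne_zero_iff.2 f2) f3
      exact ⟨n, f, f1, hn⟩
    rcases le_or_gt (𝒞.v P x) 1 with c | c
    · obtain ⟨q, q0, q1, q2, -⟩ := exists_poly 𝒞 P h0 h1 hx c
      refine ⟨_, q1, fun e => FF.transcendental_of_notMem_range (κ := k) (f := x) ?_ ⟨q, q0, e⟩, q2⟩
      intro a ha
      have := hd.2
      rw [ha, hd.1] at this
      exact zero_ne_one this
    · have x0 : x ≠ 0 := by
        rintro rfl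
        simp at c
      exact ⟨x⁻¹, F₁.inv_mem hx, inv_ne_zero x0, by rw [map_inv₀]; exact inv_lt_one_of_one_lt₀ c⟩
  obtain ⟨ϖ, p1, p2⟩ := Nat.find_spec ex
  have pm : ∀ f ∈ F₁, ∀ n : ℕ, 𝒞.v P f = exp (-((n : ℤ) + 1)) → Nat.find ex ≤ n :=
    fun f hf n e => Nat.find_min' ex ⟨f, hf, e⟩
  generalize Nat.find ex = e at p2 pm
  have p3 := l4 P π ϖ _ hπ p2 (by omega)
  have low : ∀ (u : F) (n : ℤ), 𝒞.v P u = exp n → n ≠ 0 →
      𝒞.v P (d.D u / d.D ϖ) = exp (n + (e + 1)) := fun u n hu hn => by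
    rw [map_div₀, l4 P π u n hπ hu hn, p3, mul_div_mul_right _ _ g0, ← exp_sub]
    congr 1
    ring
  have pres : ∀ f ∈ F₁, 𝒞.v P f ≤ 1 → 𝒞.v P (d.D f / d.D ϖ) ≤ 1 := fun f hf hw => by
    obtain ⟨q, -, q1, q2, q3⟩ := exists_poly 𝒞 P h0 h1 hf hw
    rw [← one_mul (𝒞.v P _), ← q3, ← map_mul, ← mul_div_assoc, ← D_aeval hd.1, q3]
    by_cases z : Polynomial.aeval f q = 0
    · simp [z, d.D_zero]
    obtain ⟨n, hn⟩ := exists_exp ((𝒞.v P).ne_zero_iff.2 z) q2
    have := pm _ q1 n hn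
    rw [low _ _ hn (by omega), ← exp_zero, exp_le_exp]
    omega
  set M := Submodule.span k {f | f ∈ F₁ ∧ 𝒞.v P f ≤ 1}
  have m1 : ∀ u ∈ M, 𝒞.v P u ≤ 1 ∧ d.D u / d.D ϖ ∈ M := fun u hu => by
    induction hu using Submodule.span_induction with
    | mem f hf =>
      exact ⟨hf.2, Submodule.subset_span ⟨F₁.div_mem (h2 f hf.1) (h2 ϖ p1), pres f hf.1 hf.2⟩⟩
    | zero => simp [d.D_zero]
    | add a b _ _ ha hb =>
      rw [d.D_add, add_div]
      exact ⟨(𝒞.v P).map_add_le ha.1 hb.1, M.add_mem ha.2 hb.2⟩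
    | smul c a _ ha =>
      rw [Algebra.smul_def, d.D_mul, hd.1, mul_zero, add_zero, map_mul, mul_div_assoc,
        ← Algebra.smul_def]
      exact ⟨mul_le_one' (𝒞.const P c) ha.1, M.smul_mem c ha.2⟩
  have m2 : ∀ (N : ℕ) (n : ℤ), -n ≤ N → ∀ u ∈ M, 𝒞.v P u = exp n → ((e : ℤ) + 1) ∣ n := by
    intro N
    induction N with
    | zero =>
      intro n hn u hu hw
      have := (m1 u hu).1
      rw [hw, ← exp_zero, exp_le_exp] at this
      rw [show n = 0 by omega]
      exact dvd_zero _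
    | succ N ih =>
      intro n hn u hu hw
      by_cases z : n = 0
      · rw [z]
        exact dvd_zero _
      exact (dvd_add_self_right).1 (ih _ (by omega) _ (m1 u hu).2 (low u n hw z))
  have r1 : ∀ u ∈ Submodule.span k (F₁ : Set F), ∃ N : ℕ, ∀ n ≥ N, ϖ ^ n * u ∈ M := fun u hu => by
    induction hu using Submodule.span_induction with
    | mem f hf =>
      by_cases z : f = 0
      · exact ⟨0, fun n _ => by simp [z]⟩
      refine ⟨(log (𝒞.v P f)).toNat, fun n hn =>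
        Submodule.subset_span ⟨F₁.mul_mem (F₁.pow_mem p1 n) hf, ?_⟩⟩
      rw [map_mul, map_pow, p2, ← exp_log ((𝒞.v P).ne_zero_iff.2 z), ← exp_nsmul, ← exp_add,
        ← exp_zero, exp_le_exp, nsmul_eq_mul]
      have : log (𝒞.v P f) ≤ n := by omega
      nlinarith [Int.natCast_nonneg e, Int.natCast_nonneg n]
    | zero => exact ⟨0, fun n _ => by simp⟩
    | add a b _ _ ha hb =>
      obtain ⟨N, ha⟩ := ha
      obtain ⟨N', hb⟩ := hb
      exact ⟨N + N', fun n hn => mul_add (ϖ ^ n) a b ▸ M.add_mem (ha n (by omega)) (hb n (by omega))⟩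
    | smul c a _ ha =>
      obtain ⟨N, ha⟩ := ha
      exact ⟨N, fun n hn => by rw [mul_smul_comm]; exact M.smul_mem c (ha n hn)⟩
  have r2 : ∀ u ∈ Subring.closure (Set.range (algebraMap k F) ∪ F₁),
      u ∈ Submodule.span k (F₁ : Set F) := fun u hu => by
    induction hu using Subring.closure_induction with
    | mem f hf =>
      rcases hf with ⟨c, rfl⟩ | hf
      · rw [Algebra.algebraMap_eq_smul_one]
        exact Submodule.smul_mem _ c (Submodule.subset_span F₁.one_mem)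
      · exact Submodule.subset_span hf
    | zero => exact zero_mem _
    | one => exact Submodule.subset_span F₁.one_mem
    | add a b _ _ ha hb => exact add_mem ha hb
    | neg a _ ha => exact neg_mem ha
    | mul a b _ _ ha hb =>
      have := Submodule.mul_mem_mul ha hb
      rw [Submodule.span_mul_span] at this
      refine Submodule.span_mono ?_ this
      rintro _ ⟨a, ha, b, hb, rfl⟩
      exact F₁.mul_mem ha hb
  have r3 : ∀ u ∈ Subring.closure (Set.range (algebraMap k F) ∪ F₁), u ≠ 0 →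
      ((e : ℤ) + 1) ∣ log (𝒞.v P u) := fun u hu z => by
    obtain ⟨N, hN⟩ := r1 u (r2 u hu)
    have a := m2 _ (N • -((e : ℤ) + 1) + log (𝒞.v P u)) (Int.self_le_toNat _) _ (hN N le_rfl) (by
      rw [map_mul, map_pow, p2, exp_add, exp_nsmul, exp_log ((𝒞.v P).ne_zero_iff.2 z)])
    rw [nsmul_eq_mul] at a
    exact (dvd_add_right ((dvd_refl _).neg_right.mul_left _)).1 a
  obtain ⟨a, ha, b, hb, hab⟩ := Subfield.mem_closure_iff.1 (h3 ▸ Subfield.mem_top π)
  have ne := div_ne_zero_iff.1 (hab ▸ ne_zero_of_val hπ)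
  have a1 := dvd_sub (r3 b hb ne.2) (r3 a ha ne.1)
  have a2 := congrArg log hπ
  rw [← hab, map_div₀, log_div ((𝒞.v P).ne_zero_iff.2 ne.1) ((𝒞.v P).ne_zero_iff.2 ne.2),
    log_exp] at a2
  rw [show log (𝒞.v P b) - log (𝒞.v P a) = 1 by omega] at a1
  have a3 := Int.le_of_dvd one_pos a1
  exact ⟨ϖ, p1, by rw [p2]; congr 1; omega⟩

end Desc

theorem sDesc (h : SLoc) : SDesc := by
  classical
  intro k F _ _ _ _ _ 𝒞 d x K₀ F₁ hd h0 h1 hx h2 h3
  choose y y1 y2 using Desc.exists_unif h 𝒞 hd h0 h1 hx h2 h3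
  obtain ⟨-, l2, -, -, κ, l5⟩ := (h k F 𝒞).2 d x hd
  have x1 : d.D x ≠ 0 := by rw [hd.2]; exact one_ne_zero
  have x0 : x ≠ 0 := fun e => x1 (by rw [e, d.D_zero])
  refine ⟨insert x (((𝒞.fin x x0).toFinset ∪ κ.support).image y), Finset.mem_insert_self _ _,
    fun z hz => ?_, fun P => ?_⟩
  · rcases Finset.mem_insert.1 hz with rfl | hz
    · exact ⟨hx, x1⟩
    · obtain ⟨P, -, rfl⟩ := Finset.mem_image.1 hz
      exact ⟨y1 P, (l2 P _ (y2 P)).2.1⟩
  · by_cases c : P ∈ (𝒞.fin x x0).toFinset ∪ κ.support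
    · exact ⟨y P, Finset.mem_insert_of_mem (Finset.mem_image_of_mem y c), l2 P _ (y2 P)⟩
    simp only [Finset.mem_union, Set.Finite.mem_toFinset, Set.mem_ofPred_eq, ne_eq,
      Finsupp.mem_support_iff, not_or, not_not] at c
    refine ⟨x, Finset.mem_insert_self _ _, c.1.le, x1, fun z hz => ?_⟩
    have := (l2 P _ (y2 P)).2.2 z hz
    rwa [l5 P _ (y2 P), c.2, exp_zero, ← (𝒞.v P).map_one, ← hd.2] at this

end Pool.Agent.P.MP_7ede32_ag.Full
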