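import Pool.Agent.P.MP_7ede32_ag.Full.StB

/-!
Discs around the bad values and around a periodic discrete set.
-/

open Filter Topology Metric Set

noncomputable section

namespace Pool.Agent.P.MP_7ede32_ag.Full

namespace DiscsP

lemma gap {S : Set ℝ} (hS : S.Finite) {x : ℝ} (hx : x ∉ S) : ∃ γ > 0, ∀ s ∈ S, γ ≤ |s - x| := by
  obtain ⟨γ, h0, h⟩ := Metric.isOpen_iff.1 hS.isClosed.isOpen_compl x hx
  refine ⟨γ, h0, fun s hs => not_lt.1 fun hlt => h ?_ hs⟩
  rwa [mem_ball, Real.dist_eq]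

lemma fin_ball {K N : Set ℂ} (hK : IsClosed K) (h : ∀ w ∈ K, ∀ᶠ z in 𝓝[≠] w, z ∉ N) (t : ℝ) :
    (N ∩ K ∩ closedBall 0 t).Finite := by
  by_contra hinf
  obtain ⟨x, hx, hacc⟩ := Set.Infinite.exists_accPt_of_subset_isCompact hinf
    ((isCompact_closedBall (0 : ℂ) t).inter_left hK) fun z hz => ⟨hz.1.2, hz.2⟩
  obtain ⟨z, hz, hz'⟩ := ((accPt_iff_frequently_nhdsNE.1 hacc).and_eventually (h x hx.1)).exists
  exact hz' hz.1.1

lemma dist_add (n c p : ℂ) : dist (n + p) c = dist n (c + -p) := by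
  rw [dist_eq_norm, dist_eq_norm]
  congr 1
  ring

lemma sep {Λ : Submodule ℤ ℂ} {R₀ : ℝ} {M : Set ℂ} (hΛ : Net Λ R₀)
    (hM : ∀ p ∈ Λ, ∀ n ∈ M, n + p ∈ M) (hf : ∀ t, (M ∩ closedBall 0 t).Finite) :
    ∃ σ > 0, ∀ n ∈ M, ∀ n' ∈ M, n ≠ n' → σ ≤ dist n n' := by
  have hS : (image2 dist (M ∩ closedBall 0 (R₀ + 1)) (M ∩ closedBall 0 (R₀ + 1)) \ {0}).Finite :=
    ((hf _).image2 _ (hf _)).subset sdiff_subset
  obtain ⟨γ, h0, h⟩ := gap hS (x := 0) (by simp)
  refine ⟨min γ 1, lt_min h0 one_pos, fun n hn n' hn' hne => ?_⟩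
  rcases le_or_gt 1 (dist n n') with h1 | h1
  · exact (min_le_right _ _).trans h1
  obtain ⟨p, hp, hd⟩ := hΛ n
  have e0 : ∀ z : ℂ, dist (z + -p) 0 = dist z p := fun z => by rw [dist_add]; simp
  have := h (dist n n') ⟨⟨n + -p, ⟨hM _ (Λ.neg_mem hp) n hn, by
    rw [mem_closedBall, e0]; linarith⟩, n' + -p, ⟨hM _ (Λ.neg_mem hp) n' hn', by
    rw [mem_closedBall, e0]; linarith [dist_triangle_left n' p n]⟩, dist_add_right _ _ _⟩,
    by simpa using hne⟩
  rw [sub_zero, abs_of_nonneg dist_nonneg] at this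
  exact (min_le_left _ _).trans this

lemma rad {Λ : Submodule ℤ ℂ} {R₀ δ : ℝ} {M B : Set ℂ} (hΛ : Net Λ R₀) (hδ : 0 < δ)
    (hs : ∀ c ∈ B, ∀ c' ∈ B, c ≠ c' → 4 * δ ≤ dist c c') (hB : ∀ p ∈ Λ, ∀ c ∈ B, c + p ∈ B)
    (hM : ∀ p ∈ Λ, ∀ n ∈ M, n + p ∈ M) (hf : ∀ t, (M ∩ closedBall 0 t).Finite) :
    ∃ δ' γ, 7 * δ / 10 < δ' ∧ δ' < 9 * δ / 10 ∧ 0 < γ ∧
      ∀ n ∈ M, ∀ c ∈ B, γ ≤ |dist n c - δ'| := by
  have hS : (⋃ n ∈ M ∩ closedBall 0 R₀, dist n '' {c ∈ B | dist n c ≤ δ}).Finite := by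
    refine (hf R₀).biUnion fun n _ => (Set.Subsingleton.finite fun c hc c' hc' => ?_).image _
    by_contra hne
    linarith [hs c hc.1 c' hc'.1 hne, dist_triangle_left c c' n, hc.2, hc'.2]
  obtain ⟨δ', ⟨h1, h2⟩, h3⟩ :=
    ((Set.Ioo_infinite (show 7 * δ / 10 < 9 * δ / 10 by linarith)).sdiff hS).nonempty
  obtain ⟨γ, h0, h⟩ := gap hS h3
  refine ⟨δ', min γ (δ / 10), h1, h2, lt_min h0 (by linarith), fun n hn c hc => ?_⟩
  rcases le_or_gt (dist n c) δ with hd | hd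
  · obtain ⟨p, hp, hp'⟩ := hΛ n
    refine (min_le_left _ _).trans (h _ (mem_biUnion (x := n + -p)
      ⟨hM _ (Λ.neg_mem hp) n hn, ?_⟩ ⟨c + -p, ⟨hB _ (Λ.neg_mem hp) c hc, ?_⟩, dist_add_right _ _ _⟩))
    · rw [mem_closedBall, dist_add]
      simpa using hp'
    · rwa [dist_add_right]
  · exact (min_le_right _ _).trans ((by linarith : δ / 10 ≤ dist n c - δ').trans (le_abs_self _))

end DiscsP

open DiscsP in
theorem sDiscs : SDiscs := by
  classical
  intro Λ R₀ δ B N w₀ hΛ hδ hs hB hN hd hw hw'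
  set K : Set ℂ := {w | ∀ c ∈ B, 3 * δ / 5 ≤ dist w c} with hK
  have hKc : IsClosed K := by
    simp only [hK, ofPred_forall]
    exact isClosed_iInter fun c => isClosed_iInter fun _ =>
      isClosed_le continuous_const (by fun_prop)
  have hf := fin_ball (N := N) hKc fun w h => hd w fun c hc => by linarith [h c hc]
  have hM : ∀ p ∈ Λ, ∀ n ∈ N ∩ K, n + p ∈ N ∩ K := fun p hp n hn =>
    ⟨hN p hp n hn.1, fun c hc => by
      rw [dist_add]
      exact hn.2 _ (hB _ (Λ.neg_mem hp) c hc)⟩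
  obtain ⟨σ, hσ, hsep⟩ := sep hΛ hM hf
  obtain ⟨δ', γ, h1, h2, hγ, hgap⟩ := rad hΛ hδ hs hB hM hf
  obtain ⟨η, hη, hfar⟩ : ∃ η > 0, ∀ n ∈ N, η ≤ dist w₀ n := by
    have h := hd w₀ fun c hc => by linarith [hw' c hc]
    rw [eventually_nhdsWithin_iff, Metric.eventually_nhds_iff] at h
    obtain ⟨η, h0, h⟩ := h
    refine ⟨η, h0, fun n hn => not_lt.1 fun hlt => h (by rwa [dist_comm]) ?_ hn⟩
    rintro rfl
    exact hw hn
  obtain ⟨θ, t0, t1, t2, t3, t4⟩ : ∃ θ > 0, θ ≤ γ / 5 ∧ θ ≤ σ / 8 ∧ θ ≤ δ / 20 ∧ θ ≤ η / 3 :=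
    ⟨min (min (γ / 5) (σ / 8)) (min (δ / 20) (η / 3)), by positivity,
      (min_le_left _ _).trans (min_le_left _ _), (min_le_left _ _).trans (min_le_right _ _),
      (min_le_right _ _).trans (min_le_left _ _), (min_le_right _ _).trans (min_le_right _ _)⟩
  set N' : Set ℂ := {n ∈ N ∩ K | ∀ c ∈ B, δ' < dist n c} with hN'
  have hfarB : ∀ n ∈ N', ∀ c ∈ B, δ' + γ ≤ dist n c := fun n hn c hc => by
    have := hgap n hn.1 c hc
    rw [abs_of_pos (sub_pos.2 (hn.2 c hc))] at this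
    linarith
  refine ⟨{ C := B ∪ N'
            r := fun c => if c ∈ B then δ' else 3 * θ
            θ := θ
            rm := δ
            θ_pos := t0
            rm_nonneg := hδ.le
            le_r := fun c _ => by split_ifs <;> linarith
            r_le := fun c _ => by split_ifs <;> linarith
            sep := fun c hc c' hc' hne => ?_ }, fun p hp c hc => ⟨?_, ?_⟩, fun c hc => ?_,
    fun w hw => ?_⟩
  · split_ifs with b b' b'
    · linarith [hs c b c' b' hne]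
    · linarith [hfarB c' (hc'.resolve_left b') c b, dist_comm c c']
    · linarith [hfarB c (hc.resolve_left b) c' b']
    · linarith [hsep c (hc.resolve_left b).1 c' (hc'.resolve_left b').1 hne]
  · rcases hc with hc | hc
    · exact Or.inl (hB p hp c hc)
    · refine Or.inr ⟨hM p hp c hc.1, fun c' hc' => ?_⟩
      rw [dist_add]
      exact hc.2 _ (hB _ (Λ.neg_mem hp) c' hc')
  · have : c + p ∈ B ↔ c ∈ B :=
      ⟨fun h => by simpa using hB _ (Λ.neg_mem hp) _ h, hB p hp c⟩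
    simp only [this]
  · dsimp only
    split_ifs with b
    · linarith [hw' c b]
    · linarith [hfar c (hc.resolve_left b).1.1]
  · have hb : ∀ c ∈ B, δ' - 2 * θ ≤ dist w c := fun c hc => by
      have := hw c (Or.inl hc)
      dsimp only at this
      rw [if_pos hc] at this
      linarith
    have hwK : w ∈ K := fun c hc => by linarith [hb c hc]
    refine ⟨fun hn => ?_, hwK⟩
    have hw1 : w ∈ N' := ⟨⟨hn, hwK⟩, fun c hc => by
      rcases le_abs.1 (hgap w ⟨hn, hwK⟩ c hc) with h | h <;> linarith [hb c hc]⟩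
    have hnb : w ∉ B := fun h => by
      have := hwK w h
      rw [dist_self] at this
      linarith
    have := hw w (Or.inr hw1)
    dsimp only at this
    rw [if_neg hnb, dist_self] at this
    linarith

end Pool.Agent.P.MP_7ede32_ag.Full
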