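import Pool.Agent.P.MP_7ede32_ag.Full.StA

/-! Two homomorphisms with the same kernel differ by an embedding of fields. -/

noncomputable section

namespace Pool.Agent.P.MP_7ede32_ag.Full

namespace Emb

theorem one (A F K : Type) [CommRing A] [Field F] [Field K] (f : A →+* F) (g : A →+* K)
    (h : ∀ P, f P = 0 ↔ g P = 0) (hu : ∀ u : F, ∃ P Q, u = f P / f Q) :
    ∃ j : F →+* K, ∀ P, j (f P) = g P := by
  have hs : Function.Surjective f.rangeRestrict := f.rangeRestrict_surjective
  have hk : RingHom.ker f.rangeRestrict ≤ RingHom.ker g := by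
    intro P hP
    rw [RingHom.mem_ker] at hP ⊢
    exact (h P).1 (congrArg Subtype.val hP)
  let φ : f.range →+* K := f.rangeRestrict.liftOfSurjective hs ⟨g, hk⟩
  have hφ : ∀ P, φ (f.rangeRestrict P) = g P := fun P =>
    RingHom.liftOfSurjective_comp_apply f.rangeRestrict hs ⟨g, hk⟩ P
  have hinj : Function.Injective φ := by
    rw [injective_iff_map_eq_zero]
    intro a ha
    obtain ⟨P, rfl⟩ := hs a
    rw [hφ] at ha
    exact Subtype.ext ((h P).2 ha)
  have : IsFractionRing f.range F := IsFractionRing.of_field f.range F fun z => by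
    obtain ⟨P, Q, e⟩ := hu z
    exact ⟨f.rangeRestrict P, f.rangeRestrict Q, e⟩
  refine ⟨IsFractionRing.lift hinj, fun P => ?_⟩
  rw [← hφ]
  exact IsFractionRing.lift_algebraMap hinj (f.rangeRestrict P)

theorem two (A F K : Type) [CommRing A] [Field F] [CharZero F] [Field K] [IsAlgClosed K]
    (f : A →+* F) (g : A →+* K) (h : ∀ P, f P = 0 ↔ g P = 0)
    (hu : ∀ u : F, u ∈ acl (Set.range f)) : ∃ j : F →+* K, ∀ P, j (f P) = g P := by
  let E : Subfield F := Subfield.closure (Set.range f)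
  have hE : ∀ P, f P ∈ E := fun P => Subfield.subset_closure ⟨P, rfl⟩
  let f' : A →+* E := f.codRestrict E hE
  have hc : Subring.closure (Set.range f) ≤ f.range := Subring.closure_le.2 fun _ hx => hx
  obtain ⟨j₀, hj₀⟩ := one A E K f' g
    (fun P => ⟨fun e => (h P).1 (congrArg Subtype.val e), fun e => Subtype.ext ((h P).2 e)⟩)
    (fun u => by
      obtain ⟨y, hy, z, hz, e⟩ := Subfield.mem_closure_iff.1 u.2
      obtain ⟨P, rfl⟩ := hc hy
      obtain ⟨Q, rfl⟩ := hc hz
      exact ⟨P, Q, Subtype.ext e.symm⟩)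
  let : Algebra E K := j₀.toAlgebra
  have : Algebra.IsAlgebraic E F := ⟨fun x =>
    isAlgebraic_of_mem_acl E (by rintro _ ⟨P, rfl⟩; exact ⟨f' P, rfl⟩) (hu x)⟩
  let J : F →ₐ[E] K := IsAlgClosed.lift
  refine ⟨J.toRingHom, fun P => ?_⟩
  rw [← hj₀]
  exact J.commutes (f' P)

end Emb

theorem sEmb : SEmb := ⟨Emb.one, Emb.two⟩

end Pool.Agent.P.MP_7ede32_ag.Full
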