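import Pool.Agent.P.MP_7ede32_ag.Full.StB

/-!
The height of the Weierstrass function along an entire function.
-/

open Filter Topology Metric Set ValueDistribution MeromorphicOn
open scoped Real

noncomputable section

namespace Pool.Agent.P.MP_7ede32_ag.Full

namespace G4

lemma exists_theta (L : PeriodPair) {w₀ : ℂ} (h : w₀ ∉ L.lattice) :
    ∃ θ > 0, (∀ c ∈ L.lattice, ∀ c' ∈ L.lattice, c ≠ c' → 8 * θ ≤ dist c c') ∧
      ∀ c ∈ L.lattice, 4 * θ ≤ dist w₀ c := by
  obtain ⟨r, hr, h1⟩ := Metric.mem_nhds_iff.1 (L.compl_lattice_sdiff_singleton_mem_nhds 0)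
  obtain ⟨r', hr', h2⟩ := Metric.isOpen_iff.1 L.isClosed_lattice.isOpen_compl w₀ h
  refine ⟨min (r / 8) (r' / 4), by positivity, fun c hc c' hc' hne => ?_, fun c hc => ?_⟩
  · by_contra hlt
    refine h1 (a := c - c') ?_ ⟨L.lattice.sub_mem hc hc', fun h0 => hne (sub_eq_zero.1 h0)⟩
    rw [mem_ball, dist_zero_right, ← dist_eq_norm]
    linarith [min_le_left (r / 8) (r' / 4)]
  · by_contra hlt
    refine h2 (a := c) ?_ hc
    rw [mem_ball, dist_comm]
    linarith [min_le_right (r / 8) (r' / 4)]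

lemma bdd (L : PeriodPair) {θ : ℝ} (hθ : 0 < θ) :
    ∃ M : ℝ, ∀ w, (∀ c ∈ L.lattice, θ ≤ dist w c) → ‖L.weierstrassP w‖ ≤ M := by
  obtain ⟨R₀, hR⟩ : ∃ R₀ : ℝ, ∀ w : ℂ, ∃ c ∈ L.lattice, ‖w - c‖ ≤ R₀ :=
    ⟨_, fun w => ⟨ZSpan.floor L.basis w, by
      rw [L.lattice_eq_span_range_basis]; exact Subtype.mem _, ZSpan.norm_fract_le L.basis w⟩⟩
  have hc : IsClosed {w : ℂ | ∀ c ∈ L.lattice, θ ≤ dist w c} := by
    simp only [ofPred_forall]
    exact isClosed_iInter fun c => isClosed_iInter fun _ =>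
      isClosed_le continuous_const (by fun_prop)
  obtain ⟨M, hM⟩ := ((isCompact_closedBall (0 : ℂ) R₀).inter_right hc).exists_bound_of_continuousOn
    (L.differentiableOn_weierstrassP.continuousOn.mono fun w hw hl => by
      have := hw.2 w hl
      rw [dist_self] at this
      linarith)
  refine ⟨M, fun w hw => ?_⟩
  obtain ⟨c, hc, h⟩ := hR w
  rw [← L.weierstrassP_sub_coe w ⟨c, hc⟩]
  refine hM _ ⟨mem_closedBall_zero_iff.2 h, fun c' hc' => ?_⟩
  have := hw (c + c') (L.lattice.add_mem hc hc')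
  rwa [dist_eq_norm, ← sub_sub, ← dist_eq_norm] at this

/-- discs around the points of the lattice -/
def discs (L : PeriodPair) {θ : ℝ} (hθ : 0 < θ)
    (h : ∀ c ∈ L.lattice, ∀ c' ∈ L.lattice, c ≠ c' → 8 * θ ≤ dist c c') : Discs where
  C := L.lattice
  r _ := 3 * θ
  θ := θ
  rm := 3 * θ
  θ_pos := hθ
  rm_nonneg := by positivity
  le_r _ _ := by linarith
  r_le _ _ := le_rfl
  sep c hc c' hc' hne := by linarith [h c hc c' hc' hne]

lemma appr (L : PeriodPair) {θ : ℝ} (hθ : 0 < θ)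
    (h : ∀ c ∈ L.lattice, ∀ c' ∈ L.lattice, c ≠ c' → 8 * θ ≤ dist c c') {c : ℂ}
    (hc : c ∈ L.lattice) : Appr (discs L hθ h) L.weierstrassP 2 0 c := by
  refine ⟨{c}, fun _ => 2, fun w => 1 + (w - c) ^ 2 * (L.weierstrassPExcept c w - 1 / c ^ 2),
    fun α hα => ?_, by simp, ?_, fun w hw => ?_⟩
  · rw [Finset.mem_singleton.1 hα, dist_self]
    change 0 ≤ 3 * θ - 2 * θ
    linarith
  · have h1 : DifferentiableOn ℂ (L.weierstrassPExcept c) (ball c (3 * θ)) :=
      (L.differentiableOn_weierstrassPExcept c).mono fun w hw hl => by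
        linarith [h w hl.1 c hc hl.2, mem_ball.1 hw]
    exact (differentiableOn_const _).add
      ((by fun_prop : DifferentiableOn ℂ (fun w : ℂ => (w - c) ^ 2) _).mul (h1.sub_const _))
  · have h1 : w - c ≠ 0 := fun h0 => by
      have h2 : dist w c = 3 * θ - θ := mem_sphere.1 hw
      rw [sub_eq_zero.1 h0, dist_self] at h2
      linarith
    have h2 := L.weierstrassPExcept_add ⟨c, hc⟩ w
    refine (norm_le_zero_iff.2 ?_)
    rw [← h2, pr, Finset.prod_singleton, add_div, mul_div_cancel_left₀ _ (pow_ne_zero 2 h1)]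
    ring

end G4

theorem sG4 (h1 : SApx) (h2 : SQuo) : SG4 := by
  intro L φ hφ h0
  obtain ⟨θ, hθ, hs, hw⟩ := G4.exists_theta L h0
  obtain ⟨M₀, hM₀⟩ := G4.bdd L hθ
  have hgo : ∀ w ∈ (G4.discs L hθ hs).Go, ∀ c ∈ L.lattice, θ ≤ dist w c := fun w hw c hc => by
    have : 3 * θ - 2 * θ < dist w c := hw c hc
    linarith
  obtain ⟨C, hC, h⟩ := h1 (G4.discs L hθ hs) L.weierstrassP M₀
    (L.differentiableOn_weierstrassP.mono fun w hw hl => by
      have := hgo w hw w hl
      rw [dist_self] at this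
      linarith) fun w hw => hM₀ w (hgo w hw)
  refine ⟨24 * C, fun R M hR hM hx => ?_⟩
  obtain ⟨P, E, hP, hE, hP0, hb⟩ := h (φ 0) (M + 1) 2 0
    (fun c hc => by
      change 3 * θ + 0 ≤ _
      linarith [hw c hc]) (by linarith) zero_le_two le_rfl zero_le_one
    fun c hc => G4.appr L hθ hs hc
  have hm : ∀ z ∈ closedBall (0 : ℂ) R, φ z ∈ ball (φ 0) (M + 1) := fun z hz => by
    rw [mem_ball, dist_eq_norm]
    linarith [hx z (mem_closedBall_zero_iff.1 hz)]
  have hpos : 0 < ‖P (φ 0)‖ := (Real.exp_pos _).trans_le hP0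
  have h3 := h2 (L.weierstrassP ∘ φ) (P ∘ φ) (E ∘ φ) R (C * (2 + 1) * (M + 1) ^ 2)
    (fun z => (L.meromorphic_weierstrassP (φ z)).comp_analyticAt (hφ.analyticAt z))
    (fun z hz => (hP.analyticOnNhd isOpen_ball _ (hm z hz)).comp (hφ.analyticAt z))
    (fun z hz => (hE.analyticOnNhd isOpen_ball _ (hm z hz)).comp (hφ.analyticAt z)) hR
    (by
      refine Filter.Eventually.filter_mono nhdsWithin_le_nhds ?_
      filter_upwards [hφ.continuous.continuousAt.eventually
        (ball_mem_nhds (φ 0) (lt_min hθ one_pos))] with z hz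
      have h4 := lt_min_iff.1 (mem_ball.1 hz)
      have h5 := (hb (φ z) (mem_ball.2 (by linarith [h4.2]))).2.2 fun c hc => by
        change 3 * θ + 0 ≤ _
        linarith [hw c hc, dist_triangle_left (φ 0) c (φ z), h4.1]
      rw [zero_mul, norm_le_zero_iff, sub_eq_zero] at h5
      exact h5)
    (norm_pos_iff.1 hpos)
    fun z hz => ⟨(hb _ (hm z (sphere_subset_closedBall hz))).1,
      (hb _ (hm z (sphere_subset_closedBall hz))).2.1⟩
  have h4 := (Real.le_log_iff_exp_le hpos).2 hP0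
  have h5 : (M + 1) ^ 2 ≤ 4 * M ^ 2 := by nlinarith
  have h6 := mul_le_mul_of_nonneg_left h5 hC
  simp only [Function.comp_apply] at h3
  linarith

end Pool.Agent.P.MP_7ede32_ag.Full
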