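import Pool.Agent.P.MP_7ede32_ag.Full.StB

/-!
The tautological inequality.
-/

open Filter Topology Metric Set ValueDistribution MeromorphicOn Real

noncomputable section

namespace Pool.Agent.P.MP_7ede32_ag.Full

namespace Hb1

theorem comb {R : Type} [CommRing R] [LinearOrder R] [IsStrictOrderedRing R] {A G : Set Mer}
    {t s : Finset Mer} {φ : Mer → R} {B y e : R} {C K : ℕ} (ht : (t : Set Mer) ⊆ A ∪ G)
    (hs : ∀ a ∈ t, a ∈ A → a ∈ s) (h0 : ∀ a, 0 ≤ φ a) (hG : ∀ g ∈ G, φ g ≤ B) (hB : 0 ≤ B)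
    (he : 0 ≤ e) (hK : C * (1 + t.card) ≤ K) (h : y ≤ C * (e + ∑ a ∈ t, φ a)) :
    y ≤ K * (e + ∑ a ∈ s, φ a + B) := by
  classical
  have h1 : ∑ a ∈ t, φ a ≤ ∑ a ∈ t, ((if a ∈ s then φ a else 0) + B) :=
    Finset.sum_le_sum fun a ha => by
      split_ifs with k
      · linarith
      · rw [zero_add]
        exact hG a ((ht ha).resolve_left fun k' => k (hs a ha k'))
  rw [Finset.sum_add_distrib, Finset.sum_ite_mem, Finset.sum_const, nsmul_eq_mul] at h1
  have h2 : ∑ a ∈ t ∩ s, φ a ≤ ∑ a ∈ s, φ a :=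
    Finset.sum_le_sum_of_subset_of_nonneg Finset.inter_subset_right fun a _ _ => h0 a
  have h3 : 0 ≤ ∑ a ∈ s, φ a := Finset.sum_nonneg fun a _ => h0 a
  have h4 : (C : R) * (1 + t.card) ≤ K := by exact_mod_cast hK
  have h5 : (0 : R) ≤ t.card := Nat.cast_nonneg _
  have h6 : e + ∑ a ∈ t, φ a ≤ (1 + t.card) * (e + ∑ a ∈ s, φ a + B) := by
    nlinarith [mul_nonneg h5 he, mul_nonneg h5 h3]
  refine h.trans ((mul_le_mul_of_nonneg_left h6 (Nat.cast_nonneg C)).trans ?_)
  rw [← mul_assoc]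
  exact mul_le_mul_of_nonneg_right h4 (by positivity)

theorem sg'_ne {b : Bool} {y y' : Mer} (h : y ≠ 0) (h' : y' ≠ 0) : sg' b y y' ≠ 0 := by
  unfold sg'
  split_ifs
  · exact h'
  · exact div_ne_zero (neg_ne_zero.2 h') (pow_ne_zero _ h)

theorem norm_sg (b : Bool) (y : Mer) :
    ∀ᶠ z in codiscrete ℂ, (‖y.rep z‖ ≤ 1 ↔ b = true) → ‖(sg b y).rep z‖ ≤ 1 := by
  cases b
  · filter_upwards [y.rep_inv] with z h k
    rw [show sg false y = y⁻¹ from rfl, h, norm_inv]
    exact inv_le_one_of_one_le₀ (not_le.1 fun e => Bool.false_ne_true (k.1 e)).le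
  · exact Eventually.of_forall fun z k => k.2 rfl

theorem norm_D (c : Mer) (b : Bool) {y : Mer} (h : y ≠ 0) : ∀ᶠ z in codiscrete ℂ,
    ‖(c * Mer.D (sg b y)).rep z‖ = ‖c.rep z‖ * ‖logDeriv y.rep z‖ * ‖(sg b y).rep z‖ := by
  have e : Mer.D (sg b y) = Mer.D y / y * sg b y ∨ Mer.D (sg b y) = -(Mer.D y / y * sg b y) := by
    cases b
    · refine Or.inr ((Mer.der.D_inv y).trans ?_)
      show -Mer.D y / y ^ 2 = -(Mer.D y / y * y⁻¹)
      field_simp
    · exact Or.inl (div_mul_cancel₀ _ h).symm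
  filter_upwards [Mer.rep_mul c (Mer.D (sg b y)), Mer.rep_neg (Mer.D y / y * sg b y),
    Mer.rep_mul (Mer.D y / y) (sg b y), Mer.rep_div (Mer.D y) y, Mer.rep_D y] with z h1 h2 h3 h4 h5
  have h6 : ‖(Mer.D (sg b y)).rep z‖ = ‖(Mer.D y / y * sg b y).rep z‖ := by
    rcases e with e | e
    · rw [← e]
    · rw [e, h2, Pi.neg_apply, norm_neg]
  rw [h1, Pi.mul_apply, norm_mul, h6, h3, Pi.mul_apply, norm_mul, h4, h5, logDeriv_apply, mul_assoc]

/-- the order at a point -/
abbrev od (f : Mer) (z : ℂ) : WithTop ℤ := meromorphicOrderAt f.rep z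

theorem od_mul (f g : Mer) (z : ℂ) : od (f * g) z = od f z + od g z :=
  (Mer.order_congr (Mer.rep_mul f g) z).trans (meromorphicOrderAt_mul (f.mer_rep z) (g.mer_rep z))

theorem od_inv (f : Mer) (z : ℂ) : od f⁻¹ z = -od f z :=
  (Mer.order_congr (Mer.rep_inv f) z).trans (meromorphicOrderAt_inv (f := f.rep))

theorem od_D {f : Mer} {z : ℂ} (h : 0 ≤ od f z) : 0 ≤ od (Mer.D f) z := by
  obtain ⟨g, h1, h2⟩ := (f.mer_rep z).meromorphicOrderAt_nonneg_iff.1 h
  exact ((Mer.D f).mer_rep z).meromorphicOrderAt_nonneg_iff.2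
    ⟨_, h1.deriv, EventuallyEq.trans (cd_iff.1 (Mer.rep_D f) z) h2.nhdsNE_deriv⟩

theorem po_eq (f : Mer) (z : ℂ) : po f z = (od f z).untop₀⁻ := by
  rw [po, Function.locallyFinsuppWithin.negPart_apply,
    divisor_apply f.mer_rep.meromorphicOn (mem_univ z)]

theorem po_nonneg (f : Mer) (z : ℂ) : 0 ≤ po f z := po_eq f z ▸ negPart_nonneg _

theorem po_mul (c : Mer) {f : Mer} {z : ℂ} (h : 0 ≤ od f z) : po (c * f) z ≤ po c z := by
  rw [po_eq, po_eq, od_mul]
  generalize od f z = m at h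
  generalize od c z = n
  induction m using WithTop.recTopCoe with
  | top => simp [negPart_nonneg]
  | coe m =>
    induction n using WithTop.recTopCoe with
    | top => simp
    | coe n =>
      have : 0 ≤ m := by exact_mod_cast h
      rw [← WithTop.coe_add, WithTop.untop₀_coe, WithTop.untop₀_coe]
      exact negPart_anti (by omega)

theorem po_le (c : Mer) {f : Mer} {z : ℂ} (h : 0 ≤ od f z) : po f z ≤ po c z := by
  refine le_trans ?_ (po_nonneg c z)
  rw [po_eq, negPart_nonpos]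
  exact WithTop.untop₀_nonneg.2 h

theorem od_sg {b : Bool} {y : Mer} {z : ℂ} (h : 0 ≤ od y z ↔ b = true) : 0 ≤ od (sg b y) z := by
  cases b
  · rw [show sg false y = y⁻¹ from rfl, od_inv]
    have k : od y z < 0 := not_le.1 fun e => Bool.false_ne_true (h.1 e)
    obtain ⟨n, hn⟩ := WithTop.ne_top_iff_exists.1 k.ne_top
    rw [← hn] at k ⊢
    rw [← WithTop.LinearOrderedAddCommGroup.coe_neg]
    have : n < 0 := by exact_mod_cast k
    exact_mod_cast neg_nonneg.2 this.le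
  · exact h.2 rfl

theorem od_div {u v : Mer} {z : ℂ} (hv : v ≠ 0) (h : od v z ≤ od u z) : 0 ≤ od (u / v) z := by
  rw [div_eq_mul_inv, od_mul, od_inv]
  obtain ⟨n, hn⟩ := WithTop.ne_top_iff_exists.1 (Mer.ne_top hv z)
  have hn : (n : WithTop ℤ) = od v z := hn
  rw [← hn] at h ⊢
  generalize od u z = m at h
  induction m using WithTop.recTopCoe with
  | top => simp
  | coe m =>
    rw [← WithTop.LinearOrderedAddCommGroup.coe_neg, ← WithTop.coe_add]
    have : n ≤ m := by exact_mod_cast h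
    exact_mod_cast (by omega : 0 ≤ m + -n)

end Hb1

open Hb1 in
theorem sHb1 (h : SInt) : SHb1 := by
  classical
  intro c Y A ι _ _ y y' hy hI
  choose t C ht h1 h2 using fun p : (ι → Bool) × ι => h _ Y (hI p.1 p.2)
  let s : Finset Mer := (Finset.univ.biUnion t).filter (· ∈ A)
  let K : ℕ := ∑ p, C p * (1 + (t p).card)
  have hs : ∀ p, ∀ a ∈ t p, a ∈ A → a ∈ s := fun p a ha k =>
    Finset.mem_filter.2 ⟨Finset.mem_biUnion.2 ⟨p, Finset.mem_univ _, ha⟩, k⟩
  have hK : ∀ p, C p * (1 + (t p).card) ≤ K := fun p =>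
    Finset.single_le_sum (f := fun p => C p * (1 + (t p).card)) (fun _ _ => Nat.zero_le _)
      (Finset.mem_univ p)
  have k1 : ∀ᶠ z in codiscrete ℂ, log⁺ ‖Y.rep z‖ ≤ (K : ℝ) • (1 + ∑ a ∈ s, log⁺ ‖a.rep z‖ +
      (∑ β, log⁺ ‖logDeriv (y β).rep z‖ + log⁺ ‖c.rep z‖)) := by
    filter_upwards [eventually_all.2 h1,
      eventually_all.2 fun b => eventually_all.2 fun β => norm_sg b (y β),
      eventually_all.2 fun b => eventually_all.2 fun β => norm_D c b (hy β).1,
      eventually_all.2 fun p : Bool × ι => eventually_all.2 fun q : Bool × ι =>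
        Mer.rep_div (sg' p.1 (y p.2) (y' p.2)) (sg' q.1 (y q.2) (y' q.2))] with z a1 a2 a3 a4
    let ε : ι → Bool := fun β => decide (‖(y β).rep z‖ ≤ 1)
    obtain ⟨α, hα⟩ := Finite.exists_max fun β => ‖(sg' (ε β) (y β) (y' β)).rep z‖
    have a5 : ∀ β, ‖(sg (ε β) (y β)).rep z‖ ≤ 1 := fun β => a2 _ β decide_eq_true_iff.symm
    have a6 : 0 ≤ ∑ β, log⁺ ‖logDeriv (y β).rep z‖ + log⁺ ‖c.rep z‖ :=
      add_nonneg (Finset.sum_nonneg fun _ _ => posLog_nonneg) posLog_nonneg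
    have a7 : ∀ x : ℂ, ‖x‖ ≤ 1 → log⁺ ‖x‖ = 0 := fun x hx =>
      (posLog_eq_zero_iff _).2 (by rwa [abs_norm])
    refine comb (ht (ε, α)) (hs _) (fun _ => posLog_nonneg) ?_ a6 zero_le_one (hK _) (a1 _)
    rintro g ((⟨β, rfl⟩ | ⟨β, rfl⟩) | rfl)
    · exact (a7 _ (a5 β)).trans_le a6
    · refine (a7 _ ?_).trans_le a6
      rw [a4 (ε β, β) (ε α, α), norm_div]
      exact div_le_one_of_le₀ (hα β) (norm_nonneg _)
    · have a8 := Finset.single_le_sum (f := fun β => log⁺ ‖logDeriv (y β).rep z‖)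
        (fun _ _ => posLog_nonneg) (Finset.mem_univ α)
      show log⁺ ‖(c * Mer.D (sg (ε α) (y α))).rep z‖ ≤ _
      rw [a3]
      refine posLog_mul.trans ?_
      rw [a7 _ (a5 α), add_zero]
      exact posLog_mul.trans (by linarith)
  have k2 : (divisor Y.rep univ)⁻ ≤
      K • (∑ a ∈ s, (divisor a.rep univ)⁻ + (divisor c.rep univ)⁻) := by
    intro z
    let ε : ι → Bool := fun β => decide (0 ≤ od (y β) z)
    obtain ⟨α, hα⟩ := Finite.exists_min fun β => od (sg' (ε β) (y β) (y' β)) z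
    have a5 : ∀ β, 0 ≤ od (sg (ε β) (y β)) z := fun β => od_sg decide_eq_true_iff.symm
    have a6 := comb (φ := fun a => po a z) (ht (ε, α)) (hs _) (fun a => po_nonneg a z) (by
      rintro g ((⟨β, rfl⟩ | ⟨β, rfl⟩) | rfl)
      · exact po_le c (a5 β)
      · exact po_le c (od_div (sg'_ne (hy α).1 (hy α).2) (hα β))
      · exact po_mul c (od_D (a5 α))) (po_nonneg c z) le_rfl (hK _)
      ((h2 _ z).trans_eq (by rw [zero_add]))
    simpa [po, Function.locallyFinsuppWithin.coe_sum, mul_add] using a6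
  refine ⟨s, K, fun a ha => (Finset.mem_filter.1 ha).2, Nat.cast_nonneg _, fun r hr => ?_⟩
  have i1 : ∀ f : Mer, CircleIntegrable (log⁺ ‖f.rep ·‖) 0 r := fun f =>
    f.mer_rep.meromorphicOn.circleIntegrable_posLog_norm
  have i2 : ∀ β, CircleIntegrable (log⁺ ‖logDeriv (y β).rep ·‖) 0 r := fun β =>
    (y β).mer_rep.logDeriv.meromorphicOn.circleIntegrable_posLog_norm
  have i3 := CircleIntegrable.fun_sum s fun a _ => i1 a
  have i4 := CircleIntegrable.fun_sum Finset.univ fun β _ => i2 β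
  have i5 := (circleIntegrable_const (1 : ℝ) 0 r).fun_add i3
  have i6 := i4.fun_add (i1 c)
  have e1 := N.circleAverage_le_of_cd (by linarith) (i1 Y) (i5.fun_add i6).const_fun_smul
    (k1.filter_mono (codiscreteWithin_mono (subset_univ _)))
  rw [circleAverage_fun_smul, circleAverage_fun_add i5 i6,
    circleAverage_fun_add (circleIntegrable_const _ _ _) i3, circleAverage_fun_add i4 (i1 c),
    circleAverage_const, circleAverage_fun_sum fun a _ => i1 a,
    circleAverage_fun_sum fun β _ => i2 β, smul_eq_mul] at e1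
  have e2 := Function.locallyFinsuppWithin.logCounting_le k2 hr
  rw [map_nsmul, map_add, map_sum, Pi.smul_apply, Pi.add_apply, Finset.sum_apply,
    nsmul_eq_mul] at e2
  simp only [Tm, characteristic, Pi.add_apply, proximity_top, logCounting_top,
    Finset.sum_add_distrib]
  linarith

end Pool.Agent.P.MP_7ede32_ag.Full
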