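import Pool.Agent.P.MP_7ede32_ag.Full.StB

/-!
The height bound from a certificate.
-/

open Filter Topology Metric Set ValueDistribution MeromorphicOn Real

noncomputable section

namespace Pool.Agent.P.MP_7ede32_ag.Full

namespace Hba

theorem tm_nonneg (f : Mer) {r : ℝ} (hr : 1 ≤ r) : 0 ≤ Tm f r := characteristic_nonneg hr

theorem tm_mono (f : Mer) {r s : ℝ} (hr : 1 ≤ r) (h : r ≤ s) : Tm f r ≤ Tm f s :=
  characteristic_monotoneOn f.mer_rep (show (0 : ℝ) < r by linarith) (show (0 : ℝ) < s by linarith) h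

theorem tm_inv (g : Mer) : ∃ c : ℝ, 0 ≤ c ∧ ∀ r, 1 ≤ r → Tm g⁻¹ r ≤ Tm g r + c := by
  refine ⟨max |log ‖g.rep 0‖| |log ‖meromorphicTrailingCoeffAt g.rep 0‖|,
    (abs_nonneg _).trans (le_max_left _ _), fun r hr => ?_⟩
  have h1 := (abs_le.1 (characteristic_sub_characteristic_inv_le g.mer_rep (R := r))).1
  rw [Tm, characteristic_congr_codiscrete (g := g.rep⁻¹) (Mer.rep_inv g) (by positivity), Tm]
  linarith

theorem tm_mul {f g : Mer} (hf : f ≠ 0) (hg : g ≠ 0) {r : ℝ} (hr : 1 ≤ r) :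
    Tm (f * g) r ≤ Tm f r + Tm g r := by
  rw [Tm, characteristic_congr_codiscrete (Mer.rep_mul f g) (by positivity)]
  exact characteristic_mul_top_le hr f.mer_rep (Mer.ne_top hf) g.mer_rep (Mer.ne_top hg)

theorem tm_pow (f : Mer) {n : ℕ} (hn : 0 < n) {r : ℝ} (hr : 1 ≤ r) : Tm f r ≤ Tm (f ^ n) r := by
  have h1 : Tm (f ^ n) r = n * Tm f r := by
    rw [Tm, characteristic_congr_codiscrete (g := f.rep ^ n) (Mer.rep_pow f n) (by positivity),
      characteristic_pow_top f.mer_rep]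
    simp [Tm]
  rw [h1]
  exact le_mul_of_one_le_left (tm_nonneg f hr) (by exact_mod_cast hn)

theorem mx_mono {φ : ℂ → ℂ} {r R M : ℝ} (h : Mx φ R M) (hr : r ≤ R) : Mx φ r M :=
  fun z hz => h z (hz.trans hr)

theorem char_deriv {φ : ℂ → ℂ} (hφ : Differentiable ℂ φ) {r δ M : ℝ} (hr : 1 ≤ r) (hδ : 0 < δ)
    (h : Mx φ (r + δ) M) : characteristic (deriv φ) ⊤ r ≤ log⁺ (M / δ) := by
  have ha : ∀ z, AnalyticAt ℂ (deriv φ) z := fun z => (hφ.analyticAt z).deriv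
  have hm : Meromorphic (deriv φ) := fun z => (ha z).meromorphicAt
  have h1 : logCounting (deriv φ) ⊤ = 0 := by
    have := logCounting_add_analyticOn (f := fun _ : ℂ => (0 : ℂ)) (g := deriv φ)
      (Meromorphic.const 0) fun z _ => (ha z).analyticWithinAt
    rw [logCounting_const] at this
    rw [← this]
    congr 1
    funext z
    simp
  simp only [characteristic, Pi.add_apply, h1, Pi.zero_apply, add_zero, proximity_top]
  refine circleAverage_mono_on_of_le_circle hm.meromorphicOn.circleIntegrable_posLog_norm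
    fun z hz => posLog_le_posLog (norm_nonneg _) ?_
  rw [← deriv_sub_const (φ 0)]
  refine Complex.norm_deriv_le_of_forall_mem_sphere_norm_le hδ
    (hφ.sub_const _).diffContOnCl fun w hw => h w ?_
  rw [mem_sphere_zero_iff_norm, abs_of_nonneg (by linarith)] at hz
  rw [mem_sphere_iff_norm] at hw
  have h2 := norm_add_le (w - z) z
  rw [sub_add_cancel] at h2
  linarith

theorem taut (h2 : SHb1) {φ : ℂ → ℂ} {c Z : Mer} {A : Set Mer} {ι : Type} [Fintype ι]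
    [Nonempty ι] {y y' : ι → Mer} (hy : ∀ β, y β ≠ 0 ∧ y' β ≠ 0) (hA : ∀ a ∈ A, Bd0 a.rep φ)
    (hZ : ∀ ε α, IsIntegral (Subring.closure (A ∪ gens (Mer.derM c) y y' ε α)) Z) :
    ∃ C : ℝ, 0 ≤ C ∧ ∀ r M : ℝ, 1 ≤ r → 1 ≤ M → Mx φ r M →
      Tm Z r ≤ C * (M ^ 2 + ∑ β, proximity (logDeriv (y β).rep) ⊤ r + Tm c r) := by
  obtain ⟨s, C, hs, hC, h⟩ := h2 c Z A ι y y' hy hZ
  choose! K hK using hA
  have h0 : 0 ≤ ∑ a ∈ s, |K a| := Finset.sum_nonneg fun a _ => abs_nonneg _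
  refine ⟨C * (1 + ∑ a ∈ s, |K a|), by positivity, fun r M hr hM hx => (h r hr).trans ?_⟩
  have h3 : ∑ a ∈ s, Tm a r ≤ (∑ a ∈ s, |K a|) * M ^ 2 := by
    rw [Finset.sum_mul]
    exact Finset.sum_le_sum fun a ha => (hK a (hs ha) r M hr hM hx).trans
      (mul_le_mul_of_nonneg_right (le_abs_self _) (by positivity))
  have h4 : 0 ≤ ∑ β, proximity (logDeriv (y β).rep) ⊤ r :=
    Finset.sum_nonneg fun β _ => proximity_nonneg r
  have h5 := tm_nonneg c hr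
  have h6 : 1 ≤ M ^ 2 := one_le_pow₀ hM
  rw [mul_assoc]
  refine mul_le_mul_of_nonneg_left ?_ hC
  nlinarith [mul_nonneg h0 h4, mul_nonneg h0 h5]

theorem bd_acl (h1 : SBd) {φ : ℂ → ℂ} {G : Set Mer} (hG : ∀ g ∈ G, Bd0 g.rep φ) {g : Mer}
    (hg : g ∈ acl G) : Bd0 g.rep φ := by
  obtain ⟨K, hK⟩ := (h1 {q : ℝ × ℝ // 1 ≤ q.1 ∧ 1 ≤ q.2 ∧ Mx φ q.1 q.2} (fun q => q.1.1)
    (fun q => q.1.2 ^ 2) (fun q => q.2.1) fun q => one_le_pow₀ q.2.2.1).2 G
    (fun g hg => (hG g hg).imp fun K hK q => hK _ _ q.2.1 q.2.2.1 q.2.2.2) g hg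
  exact ⟨K, fun R M hR hM hx => hK ⟨(R, M), hR, hM, hx⟩⟩

theorem bd_ins (h1 : SBd) {φ : ℂ → ℂ} {G : Set Mer} (hG : ∀ g ∈ G, Bd0 g.rep φ) {x g : Mer}
    (hg : g ∈ acl (insert x G)) :
    ∃ K : ℝ, ∀ R M : ℝ, 1 ≤ R → 1 ≤ M → Mx φ R M → Tm g R ≤ K * (M ^ 2 + Tm x R) := by
  obtain ⟨K, hK⟩ := (h1 {q : ℝ × ℝ // 1 ≤ q.1 ∧ 1 ≤ q.2 ∧ Mx φ q.1 q.2} (fun q => q.1.1)
    (fun q => q.1.2 ^ 2 + Tm x q.1.1) (fun q => q.2.1)
    fun q => le_add_of_le_of_nonneg (one_le_pow₀ q.2.2.1) (tm_nonneg x q.2.1)).2 (insert x G)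
    (by
      rintro g (rfl | hg)
      · exact ⟨1, fun q => by simp [sq_nonneg]⟩
      · obtain ⟨K, hK⟩ := hG g hg
        refine ⟨|K|, fun q => (hK _ _ q.2.1 q.2.2.1 q.2.2.2).trans ?_⟩
        have := tm_nonneg x q.2.1
        nlinarith [le_abs_self K, abs_nonneg K, sq_nonneg q.1.2]) g hg
  exact ⟨K, fun R M hR hM hx => hK ⟨(R, M), hR, hM, hx⟩⟩

end Hba

open Hba in
theorem sHba (h1 : SBd) (h2 : SHb1) (h3 : SLdl) (h4 : SBoot) : SHba := by
  rintro φ p x G hφ hp - ⟨n, Y, ι, _, _, y, y', hn, hY, hy, hI⟩ hG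
  rcases eq_or_ne x 0 with rfl | hx
  · refine ⟨0, fun r R M hr _ _ _ => ?_⟩
    rw [characteristic_congr_codiscrete Mer.rep_zero (by positivity)]
    simp [characteristic]
  have hA : ∀ a ∈ (Subfield.closure G : Set Mer), Bd0 a.rep φ := fun a ha =>
    bd_acl h1 hG (Subfield.closure_le.2 (subset_acl G) ha)
  have hy' : ∀ β, y β ≠ 0 ∧ y' β ≠ 0 := fun β => ⟨(hy β).1, (hy β).2.1⟩
  obtain ⟨C₁, hC₁, b₁⟩ := taut h2 hy' hA fun ε α => (hI ε α).1
  obtain ⟨C₂, hC₂, b₂⟩ := taut h2 hy' hA fun ε α => (hI ε α).2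
  obtain ⟨cY, hcY, bY⟩ := tm_inv Y
  obtain ⟨cp, hcp, bp⟩ := tm_inv p
  obtain ⟨C₃, b₃⟩ := h3 ι y fun β => (hy β).1
  choose K hK using fun β => bd_ins h1 hG (hy β).2.2
  have hK0 : 1 ≤ 1 + ∑ β, |K β| :=
    le_add_of_nonneg_right (Finset.sum_nonneg fun β _ => abs_nonneg _)
  have hK1 := log_nonneg hK0
  obtain ⟨C', hC'⟩ := h4 ((C₁ + C₂ + cY) *
    (1 + Fintype.card ι * (|C₃| + 5 * log (1 + ∑ β, |K β|) + 5) + (cp + 2)))
  refine ⟨C', fun r₀ R M hr₀ hR hM hx' => hC' (Tm x) (M ^ 2) (Tm x R) r₀ R hr₀ hR (one_le_pow₀ hM)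
    (fun s hs => ⟨tm_nonneg x (hr₀.trans hs.1), tm_mono x (hr₀.trans hs.1) hs.2⟩)
    fun a ρ ha haρ hρ => ?_⟩
  have ha1 : 1 ≤ a := hr₀.trans ha
  have hρ1 : 1 ≤ ρ := ha1.trans haρ.le
  obtain ⟨r, har, hrρ, hm⟩ := b₃ a ρ ha1 haρ
  have hr : 1 ≤ r := ha1.trans har
  have hM2 : 1 ≤ M ^ 2 := one_le_pow₀ hM
  have hd : 0 < ρ - a := sub_pos.2 haρ
  have hQ : 1 ≤ ρ / (ρ - a) := (one_le_div hd).2 (by linarith)
  have hT := tm_nonneg x hρ1
  set Q := ρ / (ρ - a) with hQd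
  have hL : 0 ≤ log (M ^ 2 + Tm x ρ + Q) := log_nonneg (by linarith)
  have e1 : log (∑ γ, Tm (y γ) ρ + Q) ≤ log (1 + ∑ β, |K β|) + log (M ^ 2 + Tm x ρ + Q) := by
    have f1 : 0 ≤ ∑ γ, Tm (y γ) ρ := Finset.sum_nonneg fun γ _ => tm_nonneg _ hρ1
    have f2 : ∑ γ, Tm (y γ) ρ ≤ (∑ β, |K β|) * (M ^ 2 + Tm x ρ) := by
      rw [Finset.sum_mul]
      exact Finset.sum_le_sum fun γ _ => (hK γ ρ M hρ1 hM (mx_mono hx' hρ)).trans
        (mul_le_mul_of_nonneg_right (le_abs_self _) (by linarith))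
    rw [← log_mul (by linarith) (by linarith)]
    refine log_le_log (by linarith) ?_
    nlinarith
  have e2 : Tm p r ≤ 2 * M ^ 2 + log (M ^ 2 + Tm x ρ + Q) := by
    rw [Tm, characteristic_congr_codiscrete hp (by positivity)]
    refine (char_deriv hφ hr (half_pos hd) (mx_mono hx' (by linarith))).trans ?_
    have f1 : M / ((ρ - a) / 2) ≤ 2 * M * Q := by
      rw [hQd, div_div_eq_mul_div, ← mul_div_assoc]
      exact div_le_div_of_nonneg_right (by nlinarith) hd.le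
    refine (posLog_le_posLog (by positivity) f1).trans ?_
    rw [posLog_eq_log (by rw [abs_of_nonneg (by positivity)]; nlinarith),
      log_mul (by positivity) (by positivity)]
    have f2 := log_le_sub_one_of_pos (show 0 < 2 * M by positivity)
    have f3 := log_le_log (by positivity) (show Q ≤ M ^ 2 + Tm x ρ + Q by linarith)
    nlinarith
  set L := log (M ^ 2 + Tm x ρ + Q)
  set k := log (1 + ∑ β, |K β|)
  have e3 : ∑ β, proximity (logDeriv (y β).rep) ⊤ r ≤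
      Fintype.card ι * (|C₃| + 5 * k + 5) * (M ^ 2 + L) := by
    rw [mul_assoc, ← nsmul_eq_mul, ← Finset.card_univ]
    refine Finset.sum_le_card_nsmul _ _ _ fun β _ => (hm β).trans ?_
    nlinarith [le_abs_self C₃, abs_nonneg C₃, mul_nonneg (abs_nonneg C₃) hL, mul_nonneg hK1 hL]
  have e4 : Tm p⁻¹ r ≤ (cp + 2) * (M ^ 2 + L) := by
    nlinarith [bp r hr, mul_nonneg hcp hL]
  have e5 : Tm x r ≤ Tm (x ^ n * Y) r + Tm Y⁻¹ r := by
    refine (tm_pow x hn hr).trans ?_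
    have := tm_mul (mul_ne_zero (pow_ne_zero n hx) hY) (inv_ne_zero hY) hr
    rwa [mul_inv_cancel_right₀ hY] at this
  have hxr : Mx φ r M := mx_mono hx' (by linarith)
  have e6 := b₁ r M hr hM hxr
  have e7 := b₂ r M hr hM hxr
  have e8 : 0 ≤ ∑ β, proximity (logDeriv (y β).rep) ⊤ r :=
    Finset.sum_nonneg fun β _ => proximity_nonneg r
  have e9 := tm_nonneg p⁻¹ hr
  set S := M ^ 2 + ∑ β, proximity (logDeriv (y β).rep) ⊤ r + Tm p⁻¹ r with hS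
  calc Tm x a ≤ Tm x r := tm_mono x ha1 har
    _ ≤ (C₁ + C₂ + cY) * S := by
      have := le_mul_of_one_le_right hcY (show 1 ≤ S by linarith)
      linarith [bY r hr]
    _ ≤ _ := by
      rw [mul_assoc]
      exact mul_le_mul_of_nonneg_left (by linarith) (by positivity)

end Pool.Agent.P.MP_7ede32_ag.Full
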