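import Pool.Agent.P.MP_7ede32_ag.Full.StB

/-!
Pointwise bounds for an element that is integral over a ring of meromorphic functions.
-/

open Filter Topology Metric Set ValueDistribution MeromorphicOn
open scoped Real

noncomputable section

namespace Pool.Agent.P.MP_7ede32_ag.Full

namespace IntP

/-- the order of vanishing at a point -/
def v (z : ℂ) : AddValuation Mer (WithTop ℤ) :=
  AddValuation.of (fun f => meromorphicOrderAt f.rep z)
    (meromorphicOrderAt_eq_top_iff.2 (cd_iff.1 Mer.rep_zero z))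
    (by
      classical
      rw [Mer.order_congr Mer.rep_one, meromorphicOrderAt_const, if_neg one_ne_zero])
    (fun f g => (meromorphicOrderAt_add (f.mer_rep z) (g.mer_rep z)).trans_eq
      (Mer.order_congr (Mer.rep_add f g) z).symm)
    (fun f g => (Mer.order_congr (Mer.rep_mul f g) z).trans
      (meromorphicOrderAt_mul (f.mer_rep z) (g.mer_rep z)))

theorem po_eq (f : Mer) (z : ℂ) : po f z = ((v z f).untop₀)⁻ := by
  rw [po, Function.locallyFinsuppWithin.negPart_apply,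
    divisor_apply (meromorphicOn_univ.2 f.mer_rep) (mem_univ z)]
  rfl

theorem po_nonneg (f : Mer) (z : ℂ) : 0 ≤ po f z := by
  rw [po_eq]; exact negPart_nonneg _

theorem po_le_iff {f : Mer} {z : ℂ} {N : ℤ} (hN : 0 ≤ N) :
    po f z ≤ N ↔ ((-N : ℤ) : WithTop ℤ) ≤ v z f := by
  rw [po_eq]
  induction v z f using WithTop.recTopCoe with
  | top => simpa using hN
  | coe n =>
    rw [WithTop.untop₀_coe, WithTop.coe_le_coe, negPart_def, max_le_iff]
    omega

theorem le_v {f : Mer} {z : ℂ} {N : ℤ} (h : po f z ≤ N) : ((-N : ℤ) : WithTop ℤ) ≤ v z f :=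
  (po_le_iff ((po_nonneg f z).trans h)).1 h

theorem po_add (f g : Mer) (z : ℂ) : po (f + g) z ≤ po f z + po g z := by
  have h1 := po_nonneg f z
  have h2 := po_nonneg g z
  exact (po_le_iff (by omega)).2 ((v z).map_le_add (le_v (by omega)) (le_v (by omega)))

theorem po_mul (f g : Mer) (z : ℂ) : po (f * g) z ≤ po f z + po g z := by
  refine (po_le_iff (add_nonneg (po_nonneg f z) (po_nonneg g z))).2 ?_
  rw [(v z).map_mul, neg_add, WithTop.coe_add]
  exact add_le_add (le_v le_rfl) (le_v le_rfl)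

theorem po_neg (f : Mer) (z : ℂ) : po (-f) z = po f z := by
  rw [po_eq, po_eq, (v z).map_neg]

theorem po_zero (z : ℂ) : po 0 z ≤ 0 := (po_le_iff le_rfl).2 (by rw [(v z).map_zero]; exact le_top)

theorem po_one (z : ℂ) : po 1 z ≤ 0 := (po_le_iff le_rfl).2 (by rw [(v z).map_one]; simp)

theorem po_root {Y : Mer} {n : ℕ} {a : ℕ → Mer}
    (h : Y ^ n + ∑ i ∈ Finset.range n, a i * Y ^ i = 0) (z : ℂ) :
    po Y z ≤ ∑ i ∈ Finset.range n, po (a i) z := by
  set N := ∑ i ∈ Finset.range n, po (a i) z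
  have hN : 0 ≤ N := Finset.sum_nonneg fun i _ => po_nonneg _ _
  rw [po_le_iff hN]
  by_contra hc
  rw [not_le] at hc
  obtain ⟨m, hm⟩ := WithTop.ne_top_iff_exists.1 hc.ne_top
  rw [← hm, WithTop.coe_lt_coe] at hc
  have hp : ∀ i : ℕ, v z (Y ^ i) = ((i * m : ℤ) : WithTop ℤ) := fun i => by
    rw [(v z).map_pow, ← hm, ← WithTop.coe_nsmul, nsmul_eq_mul]
  have h1 : ((n * m : ℤ) : WithTop ℤ) < v z (∑ i ∈ Finset.range n, a i * Y ^ i) := by
    refine (v z).map_lt_sum WithTop.coe_ne_top fun i hi => ?_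
    have h2 : po (a i) z ≤ N :=
      Finset.single_le_sum (f := fun i => po (a i) z) (fun i _ => po_nonneg _ _) hi
    rw [(v z).map_mul, hp]
    refine lt_of_lt_of_le ?_ (add_le_add (le_v h2) le_rfl)
    rw [← WithTop.coe_add, WithTop.coe_lt_coe]
    have h3 : (i : ℤ) + 1 ≤ n := by exact_mod_cast Finset.mem_range.1 hi
    nlinarith
  rw [eq_neg_of_add_eq_zero_right h, (v z).map_neg, hp] at h1
  exact lt_irrefl _ h1

theorem rep_sum {ι : Type} (s : Finset ι) (f : ι → Mer) :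
    (∑ i ∈ s, f i).rep =ᶠ[codiscrete ℂ] fun z => ∑ i ∈ s, (f i).rep z := by
  classical
  induction s using Finset.induction_on with
  | empty => simpa using Mer.rep_zero
  | insert i s hi ih =>
    rw [Finset.sum_insert hi]
    filter_upwards [Mer.rep_add (f i) (∑ j ∈ s, f j), ih] with z h1 h2
    rw [h1, Pi.add_apply, h2, Finset.sum_insert hi]

theorem log_root {y : ℂ} {n : ℕ} {a : ℕ → ℂ} (h : y ^ n + ∑ i ∈ Finset.range n, a i * y ^ i = 0) :
    log⁺ ‖y‖ ≤ n + ∑ i ∈ Finset.range n, log⁺ ‖a i‖ := by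
  have h0 : 0 ≤ ∑ i ∈ Finset.range n, log⁺ ‖a i‖ := Finset.sum_nonneg fun _ _ => Real.posLog_nonneg
  rcases le_or_gt ‖y‖ 1 with hy | hy
  · rw [(Real.posLog_eq_zero_iff _).2 (by rwa [abs_norm])]
    positivity
  have h1 : ‖y‖ ≤ ∑ i ∈ Finset.range n, ‖a i‖ := by
    rcases n with _ | n
    · simp at h
    have h2 : ‖y‖ ^ n * ‖y‖ ≤ ‖y‖ ^ n * ∑ i ∈ Finset.range (n + 1), ‖a i‖ := by
      rw [← pow_succ, ← norm_pow, eq_neg_of_add_eq_zero_left h, norm_neg, Finset.mul_sum]
      refine (norm_sum_le _ _).trans (Finset.sum_le_sum fun i hi => ?_)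
      rw [norm_mul, norm_pow, mul_comm]
      exact mul_le_mul_of_nonneg_right
        (pow_le_pow_right₀ hy.le (Nat.lt_succ_iff.1 (Finset.mem_range.1 hi))) (norm_nonneg _)
    exact le_of_mul_le_mul_left h2 (by positivity)
  refine (Real.posLog_le_posLog (norm_nonneg _) h1).trans ((Real.posLog_sum _ _).trans ?_)
  rw [Finset.card_range]
  have := Real.log_le_self (Nat.cast_nonneg (α := ℝ) n)
  linarith

/-- `Y` is dominated by finitely many elements of `A` -/
def Dm (A : Set Mer) (Y : Mer) : Prop :=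
  ∃ (s : Finset Mer) (C : ℕ), (s : Set Mer) ⊆ A ∧
    (∀ᶠ z in codiscrete ℂ, log⁺ ‖Y.rep z‖ ≤ C * (1 + ∑ a ∈ s, log⁺ ‖a.rep z‖)) ∧
    ∀ z, po Y z ≤ C * ∑ a ∈ s, po a z

/-- domination is transitive -/
theorem Dm.of_le {A : Set Mer} {Y : Mer} {ι : Type} (t : Finset ι) (u : ι → Mer) (c : ℕ)
    (hu : ∀ i ∈ t, Dm A (u i))
    (h1 : ∀ᶠ z in codiscrete ℂ, log⁺ ‖Y.rep z‖ ≤ c + ∑ i ∈ t, log⁺ ‖(u i).rep z‖)
    (h2 : ∀ z, po Y z ≤ ∑ i ∈ t, po (u i) z) : Dm A Y := by
  classical
  choose! s C k1 k2 k3 using hu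
  refine ⟨t.biUnion s, c + ∑ i ∈ t, C i, fun a ha => ?_, ?_, fun z => (h2 z).trans ?_⟩
  · obtain ⟨i, hi, ha⟩ := Finset.mem_biUnion.1 ha
    exact k1 i hi ha
  · filter_upwards [h1, (eventually_all_finset t).2 k2] with z hz hz'
    set S := ∑ a ∈ t.biUnion s, log⁺ ‖a.rep z‖
    have hS : 0 ≤ S := Finset.sum_nonneg fun _ _ => Real.posLog_nonneg
    have h3 : ∑ i ∈ t, log⁺ ‖(u i).rep z‖ ≤ ∑ i ∈ t, (C i : ℝ) * (1 + S) :=
      Finset.sum_le_sum fun i hi => (hz' i hi).trans (mul_le_mul_of_nonneg_left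
        (add_le_add le_rfl (Finset.sum_le_sum_of_subset_of_nonneg
          (Finset.subset_biUnion_of_mem s hi) fun _ _ _ => Real.posLog_nonneg)) (Nat.cast_nonneg _))
    rw [← Finset.sum_mul] at h3
    have h4 : (0 : ℝ) ≤ c * S := by positivity
    push_cast
    linarith
  · set S := ∑ a ∈ t.biUnion s, po a z
    have hS : 0 ≤ S := Finset.sum_nonneg fun _ _ => po_nonneg _ _
    have h3 : ∑ i ∈ t, po (u i) z ≤ ∑ i ∈ t, (C i : ℤ) * S :=
      Finset.sum_le_sum fun i hi => (k3 i hi z).trans (mul_le_mul_of_nonneg_left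
        (Finset.sum_le_sum_of_subset_of_nonneg
          (Finset.subset_biUnion_of_mem s hi) fun _ _ _ => po_nonneg _ _) (Nat.cast_nonneg _))
    rw [← Finset.sum_mul] at h3
    have h4 : (0 : ℤ) ≤ c * S := by positivity
    push_cast
    linarith

theorem Dm.two {A : Set Mer} {Y f g : Mer} (hf : Dm A f) (hg : Dm A g)
    (h1 : ∀ᶠ z in codiscrete ℂ, log⁺ ‖Y.rep z‖ ≤ 1 + log⁺ ‖f.rep z‖ + log⁺ ‖g.rep z‖)
    (h2 : ∀ z, po Y z ≤ po f z + po g z) : Dm A Y :=
  Dm.of_le Finset.univ (fun b : Bool => cond b f g) 1 (by rintro (_ | _) - <;> assumption)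
    (by simpa [add_assoc] using h1) (by simpa using h2)

theorem dm_closure {A : Set Mer} {u : Mer} (hu : u ∈ Subring.closure A) : Dm A u := by
  induction hu using Subring.closure_induction with
  | mem x hx =>
    exact ⟨{x}, 1, by simpa using hx, Eventually.of_forall fun z => by simp, fun z => by simp⟩
  | zero =>
    exact ⟨∅, 0, by simp, Mer.rep_zero.mono fun z hz => by simp [hz],
      fun z => by simpa using po_zero z⟩
  | one =>
    exact ⟨∅, 0, by simp, Mer.rep_one.mono fun z hz => by simp [hz],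
      fun z => by simpa using po_one z⟩
  | add x y _ _ hx hy =>
    refine hx.two hy ((Mer.rep_add x y).mono fun z hz => ?_) (po_add x y)
    have h1 := Real.posLog_norm_add_le (x.rep z) (y.rep z)
    have h2 := Real.log_two_lt_d9
    rw [hz, Pi.add_apply]
    linarith
  | neg x _ hx =>
    obtain ⟨s, C, k1, k2, k3⟩ := hx
    refine ⟨s, C, k1, ?_, fun z => by rw [po_neg]; exact k3 z⟩
    filter_upwards [k2, Mer.rep_neg x] with z h1 h2
    rwa [h2, Pi.neg_apply, norm_neg]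
  | mul x y _ _ hx hy =>
    refine hx.two hy ((Mer.rep_mul x y).mono fun z hz => ?_) (po_mul x y)
    have h1 := Real.posLog_mul (x := ‖x.rep z‖) (y := ‖y.rep z‖)
    rw [hz, Pi.mul_apply, norm_mul]
    linarith

end IntP

open IntP in
theorem sInt : SInt := by
  rintro A Y ⟨p, hp, hY⟩
  have h : Y ^ p.natDegree + ∑ i ∈ Finset.range p.natDegree, (p.coeff i : Mer) * Y ^ i = 0 := by
    rw [hp.as_sum] at hY
    simp only [Polynomial.eval₂_add, Polynomial.eval₂_finsetSum, Polynomial.eval₂_X_pow,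
      Polynomial.eval₂_mul, Polynomial.eval₂_C] at hY
    exact hY
  refine Dm.of_le (Finset.range p.natDegree) (fun i => (p.coeff i : Mer)) p.natDegree
    (fun i _ => dm_closure (p.coeff i).2) ?_ (po_root h)
  filter_upwards [Mer.rep_zero, Mer.rep_add (Y ^ p.natDegree)
    (∑ i ∈ Finset.range p.natDegree, (p.coeff i : Mer) * Y ^ i), Mer.rep_pow Y p.natDegree,
    rep_sum (Finset.range p.natDegree) fun i => (p.coeff i : Mer) * Y ^ i,
    (eventually_all_finset (Finset.range p.natDegree)).2 fun i _ =>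
      (Mer.rep_mul (p.coeff i : Mer) (Y ^ i)).and (Mer.rep_pow Y i)] with z h0 h1 h2 h3 h4
  refine log_root ?_
  rw [h, h0, Pi.add_apply, h2, h3] at h1
  rw [h1]
  congr 1
  exact Finset.sum_congr rfl fun i hi => by rw [(h4 i hi).1, Pi.mul_apply, (h4 i hi).2]

end Pool.Agent.P.MP_7ede32_ag.Full
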