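import Pool.Agent.P.MP_7ede32_ag.Full.StB

/-!
Two consequences of Jensen's formula.
-/

open Filter Topology Metric Set ValueDistribution MeromorphicOn
open scoped Real

noncomputable section

namespace Pool.Agent.P.MP_7ede32_ag.Full

namespace Jen

open Real MeasureTheory

lemma cnt (D : Function.locallyFinsupp ℂ ℤ) {R : ℝ} (hR : 1 ≤ R) {H : ℂ → ℂ}
    (hH : MeromorphicOn H (closedBall 0 |R|))
    (h : ∀ u ∈ closedBall (0 : ℂ) |R|, D u ≤ divisor H (closedBall 0 |R|) u) :
    D.logCounting R + Real.log ‖meromorphicTrailingCoeffAt H 0‖ ≤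
      circleAverage (fun z => Real.log ‖H z‖) 0 R := by
  have hR0 : 0 < R := by linarith
  rw [hH.circleAverage_log_norm hR0.ne']
  have h0 : (D 0 : ℝ) * Real.log R ≤ divisor H (closedBall 0 |R|) 0 * Real.log R :=
    mul_le_mul_of_nonneg_right (by exact_mod_cast h 0 (by simp)) (Real.log_nonneg hR)
  have h1 : ∑ᶠ z, (Function.locallyFinsuppWithin.toClosedBall R D z : ℝ) *
      Real.log (R * ‖z‖⁻¹) ≤
      ∑ᶠ u, (divisor H (closedBall 0 |R|) u : ℝ) * Real.log (R * ‖0 - u‖⁻¹) := by
    refine finsum_le_finsum' ?_ ?_ fun z => ?_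
    · refine ((Function.locallyFinsuppWithin.toClosedBall R D).finiteSupport
        (isCompact_closedBall _ _)).subset fun z hz => ?_
      intro h2
      exact hz (by simp [h2])
    · refine ((divisor H (closedBall 0 |R|)).finiteSupport
        (isCompact_closedBall _ _)).subset fun z hz => ?_
      intro h2
      exact hz (by simp [h2])
    · by_cases hz : z ∈ closedBall (0 : ℂ) |R|
      · rw [Function.locallyFinsuppWithin.toClosedBall_eval_within _ hz, zero_sub, norm_neg]
        refine mul_le_mul_of_nonneg_right (Int.cast_le.2 (h z hz)) ?_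
        by_cases hz0 : z = 0
        · simp [hz0]
        · refine Real.log_nonneg ?_
          rw [← div_eq_mul_inv, one_le_div (norm_pos_iff.2 hz0)]
          simpa [abs_of_pos hR0] using hz
      · rw [Function.locallyFinsuppWithin.apply_eq_zero_of_notMem _ hz,
          Function.locallyFinsuppWithin.apply_eq_zero_of_notMem _ hz]
        simp
  have h2 : D.logCounting R = ∑ᶠ z, (Function.locallyFinsuppWithin.toClosedBall R D z : ℝ) *
      Real.log (R * ‖z‖⁻¹) + (D 0 : ℝ) * Real.log R := rfl
  linarith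

lemma negPart_apply {g : ℂ → ℂ} (hg : Meromorphic g) (u : ℂ) :
    (divisor g univ)⁻ u = max (-(meromorphicOrderAt g u).untop₀) 0 := by
  rw [Function.locallyFinsuppWithin.negPart_apply, divisor_apply hg.meromorphicOn (mem_univ u)]
  rfl

lemma cd {R : ℝ} {p : ℂ → Prop} (h : ∀ u ∈ closedBall (0 : ℂ) |R|, ∀ᶠ z in 𝓝[≠] u, p z) :
    ∀ᶠ z in codiscreteWithin (sphere (0 : ℂ) |R|), p z :=
  mem_codiscreteWithin_iff_forall_mem_nhdsNE.2 fun u hu =>
    mem_of_superset (h u (sphere_subset_closedBall hu)) subset_union_left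

lemma ne_top {R : ℝ} {H : ℂ → ℂ} (hH : MeromorphicOn H (closedBall 0 |R|))
    (h0 : AnalyticAt ℂ H 0) (h1 : H 0 ≠ 0) :
    ∀ u ∈ closedBall (0 : ℂ) |R|, meromorphicOrderAt H u ≠ ⊤ := by
  refine (hH.exists_meromorphicOrderAt_ne_top_iff_forall_mem
    (isConnected_closedBall (abs_nonneg R))).1 ⟨0, by simp, ?_⟩
  exact (meromorphicOrderAt_ne_top_iff_eventually_ne_zero h0.meromorphicAt).2
    (mem_nhdsWithin_of_mem_nhds (h0.continuousAt.eventually_ne h1))

lemma avg_ge {h : ℂ → ℝ} {r K m η : ℝ} {J : Set ℝ} (hr : r ≠ 0) (hi : CircleIntegrable h 0 r)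
    (hK : 0 ≤ K) (hJ : MeasurableSet J) (hJ' : J ⊆ Ioc η (η + 2 * π)) (hm : m ≤ volume.real J)
    {p : ℂ → Prop} (hp : ∀ᶠ z in codiscreteWithin (sphere (0 : ℂ) |r|), p z)
    (h0 : ∀ θ, p (circleMap 0 r θ) → 0 ≤ h (circleMap 0 r θ))
    (h1 : ∀ θ ∈ J, p (circleMap 0 r θ) → K ≤ h (circleMap 0 r θ)) :
    K * m / (2 * π) ≤ circleAverage h 0 r := by
  have hper : (fun θ => h (circleMap 0 r θ)).Periodic (2 * π) :=
    fun x => by simp [periodic_circleMap 0 r x]
  have hle : η ≤ η + 2 * π := by linarith [two_pi_pos]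
  have e1 : ∫ θ in (0 : ℝ)..2 * π, h (circleMap 0 r θ) =
      ∫ θ in η..η + 2 * π, h (circleMap 0 r θ) := by
    have := hper.intervalIntegral_add_eq 0 η
    rwa [zero_add] at this
  have hi' : IntegrableOn (fun θ => h (circleMap 0 r θ)) (Ioc η (η + 2 * π)) :=
    (hper.intervalIntegrable₀ two_pi_pos.ne' hi η (η + 2 * π)).1
  have hae : ∀ᵐ θ ∂(volume.restrict (Ioc η (η + 2 * π))), p (circleMap 0 r θ) :=
    ae_restrict_le_codiscreteWithin measurableSet_Ioc
      (codiscreteWithin_mono (subset_univ _) (circleMap_preimage_codiscrete hr hp))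
  have e2 : ∫ θ in Ioc η (η + 2 * π), J.indicator (fun _ => K) θ = volume.real J * K := by
    rw [setIntegral_indicator hJ, inter_eq_right.2 hJ', setIntegral_const, smul_eq_mul]
  have e3 : ∫ θ in Ioc η (η + 2 * π), J.indicator (fun _ => K) θ ≤
      ∫ θ in Ioc η (η + 2 * π), h (circleMap 0 r θ) := by
    refine integral_mono_ae ((integrable_const K).indicator hJ) hi' (hae.mono fun θ hθ => ?_)
    by_cases hθJ : θ ∈ J
    · simpa [hθJ] using h1 θ hθJ hθ
    · simpa [hθJ] using h0 θ hθ
  rw [circleAverage_def, e1, intervalIntegral.integral_of_le hle, smul_eq_mul, div_eq_inv_mul]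
  refine mul_le_mul_of_nonneg_left ?_ (by positivity)
  rw [e2] at e3
  nlinarith [mul_le_mul_of_nonneg_left hm hK]

end Jen

open Real Jen

theorem sQuo : SQuo := by
  intro g P A R L hg hP hA hR hid hP0 hb
  have hR0 : 0 < R := by linarith
  rw [← abs_of_pos hR0] at hP hA hb
  have hPm := hP.meromorphicOn
  have hAm := hA.meromorphicOn
  have hH : MeromorphicOn (g * P - A) (closedBall 0 |R|) :=
    fun u hu => ((hg u).mul (hPm u hu)).sub (hAm u hu)
  have hid' : ∀ u ∈ closedBall (0 : ℂ) |R|, ∀ᶠ z in 𝓝[≠] u, g z * P z = A z := by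
    intro u hu
    have h1 : meromorphicOrderAt (g * P - A) u = ⊤ := by
      by_contra h
      refine (hH.exists_meromorphicOrderAt_ne_top_iff_forall_mem
        (isConnected_closedBall (abs_nonneg R))).1 ⟨u, hu, h⟩ 0 (by simp) ?_
      exact meromorphicOrderAt_eq_top_iff.2 (hid.mono fun z hz => by simp [hz])
    exact (meromorphicOrderAt_eq_top_iff.1 h1).mono fun z hz => by simpa [sub_eq_zero] using hz
  have hPt := ne_top hPm (hP 0 (by simp)) hP0
  have hN := cnt (divisor g univ)⁻ hR hPm fun u hu => by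
    rw [negPart_apply hg, divisor_apply hPm hu]
    have h1 : meromorphicOrderAt g u + meromorphicOrderAt P u = meromorphicOrderAt A u := by
      rw [← meromorphicOrderAt_mul (hg u) (hPm u hu)]
      exact meromorphicOrderAt_congr (hid' u hu)
    have h2 := (hP u hu).meromorphicOrderAt_nonneg
    have h3 := (hA u hu).meromorphicOrderAt_nonneg
    rw [← h1] at h3
    have h4 := hPt u hu
    lift meromorphicOrderAt P u to ℤ using h4 with n
    have h5 : 0 ≤ n := by exact_mod_cast h2
    cases hk : meromorphicOrderAt g u with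
    | top => simpa using h5
    | coe k =>
      rw [hk] at h3
      have h6 : 0 ≤ k + n := by exact_mod_cast h3
      simp only [WithTop.untop₀_coe]
      omega
  rw [(hP 0 (by simp)).meromorphicTrailingCoeffAt_of_ne_zero hP0] at hN
  have hiP : CircleIntegrable (fun z => Real.log ‖P z‖) 0 R :=
    (hPm.mono_set sphere_subset_closedBall).circleIntegrable_log_norm
  have hig : CircleIntegrable (fun z => log⁺ ‖g z‖) 0 R :=
    MeromorphicOn.circleIntegrable_posLog_norm fun z _ => hg z
  have hm : circleAverage (fun z => log⁺ ‖g z‖) 0 R ≤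
      circleAverage (fun z => L - Real.log ‖P z‖) 0 R := by
    refine N.circleAverage_le_of_cd hR0.ne' hig ((circleIntegrable_const L 0 R).sub hiP) ?_
    filter_upwards [cd hid', cd fun u hu =>
      (meromorphicOrderAt_ne_top_iff_eventually_ne_zero (hPm u hu)).1 (hPt u hu),
      self_mem_codiscreteWithin _] with z h1 h2 h3
    have h4 : Real.log ‖P z‖ ≤ L :=
      (Real.log_le_iff_le_exp (norm_pos_iff.2 h2)).2 (hb z h3).1
    rw [posLog_apply]
    refine max_le (by linarith) ?_
    by_cases h5 : g z = 0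
    · rw [h5, norm_zero, Real.log_zero]
      linarith
    · have h6 : Real.log ‖g z * P z‖ ≤ L :=
        (Real.log_le_iff_le_exp (norm_pos_iff.2 (mul_ne_zero h5 h2))).2 (h1 ▸ (hb z h3).2)
      rw [norm_mul, Real.log_mul (norm_ne_zero_iff.2 h5) (norm_ne_zero_iff.2 h2)] at h6
      linarith
  rw [circleAverage_fun_sub (circleIntegrable_const L 0 R) hiP, circleAverage_const] at hm
  rw [characteristic, Pi.add_apply, proximity_top, logCounting_top]
  linarith

theorem sJen : SJen := by
  intro g P A r L K m η J hg hg0 hP hA hr hL hK h0 hb hJ hJ' hm hs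
  have hr0 : 0 < r := by linarith
  rw [← abs_of_pos hr0] at hP hA hb
  have hPm := hP.meromorphicOn
  have hAm := hA.meromorphicOn
  set H : ℂ → ℂ := g * P + -A with hHd
  have hHz : ∀ z, H z = g z * P z - A z := fun z => by simp [hHd, sub_eq_add_neg]
  have hH : MeromorphicOn H (closedBall 0 |r|) :=
    fun u hu => ((hg u).mul (hPm u hu)).add (hAm u hu).neg
  have hH0 : AnalyticAt ℂ H 0 := (hg0.mul (hP 0 (by simp))).add (hA 0 (by simp)).neg
  rw [← hHz] at h0 ⊢
  have hHt := ne_top hH hH0 h0
  have hN := cnt (-(divisor g univ)⁻) hr hH fun u hu => by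
    rw [Function.locallyFinsuppWithin.coe_neg, Pi.neg_apply, negPart_apply hg,
      divisor_apply hH hu]
    have h1 := meromorphicOrderAt_add ((hg u).mul (hPm u hu)) (hAm u hu).neg
    rw [meromorphicOrderAt_mul (hg u) (hPm u hu), ← hHd] at h1
    have h2 := (hP u hu).meromorphicOrderAt_nonneg
    have h3 := (hA u hu).neg.meromorphicOrderAt_nonneg
    have h4 : min (meromorphicOrderAt g u) 0 ≤ meromorphicOrderAt H u :=
      (min_le_min (le_add_of_nonneg_right h2) h3).trans h1
    have h5 := hHt u hu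
    lift meromorphicOrderAt H u to ℤ using h5 with n
    cases hk : meromorphicOrderAt g u with
    | top =>
      rw [hk, min_eq_right le_top] at h4
      have h6 : 0 ≤ n := by exact_mod_cast h4
      simpa using h6
    | coe k =>
      rw [hk] at h4
      have h6 : min k 0 ≤ n := by exact_mod_cast h4
      simp only [WithTop.untop₀_coe]
      omega
  rw [hH0.meromorphicTrailingCoeffAt_of_ne_zero h0, map_neg, Pi.neg_apply] at hN
  have hiH : CircleIntegrable (fun z => Real.log ‖H z‖) 0 r :=
    (hH.mono_set sphere_subset_closedBall).circleIntegrable_log_norm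
  have hig : CircleIntegrable (fun z => log⁺ ‖g z‖) 0 r :=
    MeromorphicOn.circleIntegrable_posLog_norm fun z _ => hg z
  have hi1 : CircleIntegrable (fun z => log⁺ ‖g z‖ + (L + Real.log 2)) 0 r :=
    hig.add (circleIntegrable_const _ 0 r)
  have hl2 : 0 ≤ Real.log 2 := Real.log_nonneg one_le_two
  have key := avg_ge (h := fun z => log⁺ ‖g z‖ + (L + Real.log 2) - Real.log ‖H z‖) hr0.ne'
    (hi1.sub hiH) hK hJ hJ' hm (p := fun z => H z ≠ 0)
    (cd fun u hu => (meromorphicOrderAt_ne_top_iff_eventually_ne_zero (hH u hu)).1 (hHt u hu))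
    (fun θ hθ => by
      set z := circleMap 0 r θ
      obtain ⟨b1, b2⟩ := hb z (circleMap_mem_sphere' 0 r θ)
      have h1 : ‖g z‖ ≤ Real.exp (log⁺ ‖g z‖) :=
        (Real.le_exp_log _).trans (Real.exp_le_exp.2 (le_max_right _ _))
      have h2 : 1 ≤ Real.exp (log⁺ ‖g z‖) := Real.one_le_exp posLog_nonneg
      have h3 : ‖H z‖ ≤ Real.exp (log⁺ ‖g z‖ + (L + Real.log 2)) := by
        rw [Real.exp_add, Real.exp_add, Real.exp_log two_pos, hHz]
        have h4 := norm_sub_le (g z * P z) (A z)
        rw [norm_mul] at h4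
        have h5 := mul_le_mul h1 b1 (norm_nonneg _) (Real.exp_pos _).le
        nlinarith [Real.exp_pos L]
      exact sub_nonneg.2 ((Real.log_le_iff_le_exp (norm_pos_iff.2 hθ)).2 h3))
    (fun θ hθJ hθ => by
      have h1 := hs θ hθJ
      rw [← hHz] at h1
      have h2 := (Real.log_le_iff_le_exp (norm_pos_iff.2 hθ)).2 h1
      have h3 : 0 ≤ log⁺ ‖g (circleMap 0 r θ)‖ := posLog_nonneg
      linarith)
  rw [circleAverage_fun_sub hi1 hiH, circleAverage_fun_add hig (circleIntegrable_const _ 0 r),
    circleAverage_const] at key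
  rw [characteristic, Pi.add_apply, proximity_top, logCounting_top]
  linarith

end Pool.Agent.P.MP_7ede32_ag.Full
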