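import Pool.Agent.P.MP_7ede32_ag.Full.StA

/-!
Regularity from the expansions at the points of a compact curve.
-/

open scoped WithZero IntermediateField Polynomial
open WithZero Filter Topology

noncomputable section

namespace Pool.Agent.P.MP_7ede32_ag.Full

namespace L2A

section comp

variable {R : ℂ → ℂ} (hR : AnalyticAt ℂ R 0) (h0 : R 0 = 0)

include hR h0 in
theorem mer_comp (g : MG) : MeromorphicAt (g.rep ∘ R) 0 :=
  MeromorphicAt.comp_analyticAt (by rw [h0]; exact g.mer_rep) hR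

variable (hT : Tendsto R (𝓝[≠] 0) (𝓝[≠] 0))

include hT in
theorem rep_comp (g : MG) {A : ℂ → ℂ} (h : g.rep =ᶠ[𝓝[≠] 0] A) :
    (MG.mk _ (mer_comp hR h0 g)).rep =ᶠ[𝓝[≠] 0] A ∘ R :=
  (MG.rep_mk _ _).trans (h.comp_tendsto hT)

/-- substitution of a local change of coordinates -/
def sub : MG →+* MG where
  toFun g := MG.mk _ (mer_comp hR h0 g)
  map_one' := MG.ext' ((rep_comp hR h0 hT _ MG.rep_one).trans MG.rep_one.symm)
  map_zero' := MG.ext' ((rep_comp hR h0 hT _ MG.rep_zero).trans MG.rep_zero.symm)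
  map_mul' f g := MG.ext' (by
    filter_upwards [rep_comp hR h0 hT _ (MG.rep_mul f g),
      MG.rep_mul (MG.mk _ (mer_comp hR h0 f)) (MG.mk _ (mer_comp hR h0 g)),
      MG.rep_mk _ (mer_comp hR h0 f), MG.rep_mk _ (mer_comp hR h0 g)] with z h1 h2 h3 h4
    rw [h1, h2, Pi.mul_apply, h3, h4]
    rfl)
  map_add' f g := MG.ext' (by
    filter_upwards [rep_comp hR h0 hT _ (MG.rep_add f g),
      MG.rep_add (MG.mk _ (mer_comp hR h0 f)) (MG.mk _ (mer_comp hR h0 g)),
      MG.rep_mk _ (mer_comp hR h0 f), MG.rep_mk _ (mer_comp hR h0 g)] with z h1 h2 h3 h4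
    rw [h1, h2, Pi.add_apply, h3, h4]
    rfl)

theorem rep_sub (g : MG) : (sub hR h0 hT g).rep =ᶠ[𝓝[≠] 0] g.rep ∘ R :=
  MG.rep_mk _ (mer_comp hR h0 g)

theorem sub_const (c : ℂ) : sub hR h0 hT (MG.const c) = MG.const c :=
  MG.ext' ((rep_comp hR h0 hT _ (MG.rep_const c)).trans (MG.rep_const c).symm)

theorem sub_memO {g : MG} (hg : g ∈ MG.O) : sub hR h0 hT g ∈ MG.O := by
  obtain ⟨A, hA, h⟩ := MG.ord_nonneg_iff.1 hg
  exact MG.ord_nonneg_iff.2 ⟨A ∘ R, AnalyticAt.comp (by rw [h0]; exact hA) hR,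
    rep_comp hR h0 hT _ h⟩

end comp

/-- a germ divisible by all powers of a germ of positive order is zero -/
theorem eq_zero_of_pow {f h : MG} {e : ℤ} (he : 1 ≤ e) (hf : f.ord = e)
    (H : ∀ n : ℕ, ∃ g ∈ MG.O, h = f ^ n * g) : h = 0 := by
  have hp : ∀ n : ℕ, (f ^ n).ord = ((n * e : ℤ) : WithTop ℤ) := fun n => by
    induction n with
    | zero =>
      rw [pow_zero, ← map_one MG.const, MG.ord_const one_ne_zero]
      simp
    | succ n ih =>
      rw [pow_succ, MG.ord_mul, ih, hf, ← WithTop.coe_add]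
      congr 1
      push_cast
      ring
  by_contra hne
  obtain ⟨m, hm⟩ := WithTop.ne_top_iff_exists.1 (mt MG.ord_eq_top.1 hne)
  obtain ⟨g, hg, hh⟩ := H (m.toNat + 1)
  have h1 : (((m.toNat + 1 : ℕ) * e : ℤ) : WithTop ℤ) ≤ h.ord := by
    rw [hh, MG.ord_mul, hp]
    exact le_add_of_nonneg_right hg
  rw [← hm, WithTop.coe_le_coe] at h1
  have h2 : m ≤ m.toNat := Int.self_le_toNat m
  have h3 : ((m.toNat + 1 : ℕ) : ℤ) * 1 ≤ (m.toNat + 1 : ℕ) * e :=
    mul_le_mul_of_nonneg_left he (Int.natCast_nonneg _)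
  push_cast at h1 h3
  omega

variable {k F : Type} [Field k] [Field F] [Algebra k F]

/-- a nonconstant function with poles only at `P` -/
theorem exists_pole (𝒞 : FC k F) (P : 𝒞.Pl) :
    ∃ u : F, (∀ c, u ≠ algebraMap k F c) ∧ ∀ Q, Q ≠ P → 𝒞.v Q u ≤ 1 := by
  by_contra H
  push Not at H
  have h1 := 𝒞.toCurve.riemann' (Finsupp.single P ((𝒞.g : ℤ) + 1))
  have h2 : 𝒞.toCurve.L (Finsupp.single P ((𝒞.g : ℤ) + 1)) ≤ Submodule.span k {(1 : F)} := by
    intro u hu
    by_contra hn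
    obtain ⟨Q, hQ, h⟩ := H u fun c hc => hn (by
      rw [hc, Algebra.algebraMap_eq_smul_one]
      exact Submodule.smul_mem _ _ (Submodule.mem_span_singleton_self _))
    have := 𝒞.toCurve.mem_L.1 hu Q
    rw [Finsupp.single_eq_of_ne hQ, exp_zero] at this
    exact absurd this (not_le.2 h)
  have h3 := (Submodule.finrank_mono h2).trans_eq (finrank_span_singleton (one_ne_zero (α := F)))
  rw [Finsupp.degree_single] at h1
  omega

/-- a ring map that fixes the constants and a uniformizer fixes everything -/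
theorem fix (𝒞 : FC k F) (P : 𝒞.Pl) (j : F →+* MG) (ρ : MG →+* MG) {π : F} {e : ℤ}
    (hπ : 𝒞.v P π = exp (-1)) (he : 1 ≤ e) (hf : (j π).ord = e)
    (hj : ∀ u, 𝒞.v P u ≤ 1 → j u ∈ MG.O) (hρ : ∀ g ∈ MG.O, ρ g ∈ MG.O)
    (hc : ∀ c, ρ (j (algebraMap k F c)) = j (algebraMap k F c)) (hρπ : ρ (j π) = j π) (u : F) :
    ρ (j u) = j u := by
  have h0 : π ≠ 0 := by
    rintro rfl
    rw [map_zero] at hπ
    exact exp_ne_zero hπ.symm
  have key : ∀ (n : ℕ) (u : F), 𝒞.v P u ≤ 1 → ∃ g ∈ MG.O, ρ (j u) - j u = j π ^ n * g := by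
    intro n
    induction n with
    | zero => exact fun u hu => ⟨_, sub_mem (hρ _ (hj u hu)) (hj u hu), by simp⟩
    | succ n ih =>
      intro u hu
      obtain ⟨c, h1⟩ := 𝒞.res P u hu
      obtain ⟨g, hg, h2⟩ := ih ((u - algebraMap k F c) / π) (by
        rw [map_div₀, hπ, div_le_one₀ exp_pos]
        rw [← exp_zero, ← neg_add_cancel (1 : ℤ), exp_add] at h1
        exact (lt_mul_exp_iff_le exp_ne_zero).1 h1)
      refine ⟨g, hg, ?_⟩
      have h3 : u = algebraMap k F c + π * ((u - algebraMap k F c) / π) := by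
        field_simp
        ring
      rw [pow_succ', mul_assoc, ← h2]
      conv_lhs => rw [h3]
      simp only [map_add, map_mul, hc, hρπ]
      ring
  have key2 : ∀ u : F, 𝒞.v P u ≤ 1 → ρ (j u) = j u := fun u hu =>
    sub_eq_zero.1 (eq_zero_of_pow he hf fun n => key n u hu)
  rcases (𝒞.v P).val_le_one_or_val_inv_le_one u with h | h
  · exact key2 u h
  · have := key2 _ h
    rwa [map_inv₀, map_inv₀, inv_inj] at this

end L2A

theorem sL2A (h1 : SRot) (h2 : SUniq) (_h3 : SLoc) : SL2A := by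
  intro k F Pt _ _ _ _ _ j x a μ hK hc hmax hinj hreg d hd O hO hOc
  obtain ⟨𝒞⟩ := exists_fc hK
  obtain ⟨P, rfl⟩ := 𝒞.all O hO hOc
  obtain ⟨u, hu, hQ⟩ := L2A.exists_pole 𝒞 P
  obtain ⟨p, hp⟩ : ∃ p, j p u ∉ MG.O := by
    by_contra H
    push Not at H
    obtain ⟨c, h⟩ := hmax u H
    exact hu c h
  obtain ⟨Q, hQ'⟩ := 𝒞.all (MG.O.comap (j p)) (fun h => hp (by
      have : u ∈ MG.O.comap (j p) := h ▸ ValuationSubring.mem_top u
      exact this)) fun c => by
    obtain ⟨z, hz⟩ := hc p c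
    show j p _ ∈ MG.O
    rw [hz]
    exact MG.const_mem_O z
  have hmem : ∀ z, 𝒞.v Q z ≤ 1 ↔ j p z ∈ MG.O := fun z => by
    rw [← Valuation.mem_valuationSubring_iff, hQ']
    rfl
  obtain rfl : Q = P := by
    by_contra h
    exact hp ((hmem u).1 (hQ Q h))
  obtain ⟨π, hπ⟩ := 𝒞.unif Q
  have hπ1 : 𝒞.v Q π ≤ 1 := by rw [hπ, ← exp_zero, exp_le_exp]; norm_num
  have h0 : π ≠ 0 := by
    rintro rfl
    rw [map_zero] at hπ
    exact exp_ne_zero hπ.symm
  obtain ⟨e, he⟩ := WithTop.ne_top_iff_exists.1 (mt MG.ord_eq_top.1 ((map_ne_zero (j p)).2 h0))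
  have he1 : 1 ≤ e := by
    by_contra h
    have h3 : j p π⁻¹ ∈ MG.O := by
      rw [map_inv₀, MG.mem_O, MG.ord_inv, ← he, ← WithTop.LinearOrderedAddCommGroup.coe_neg]
      exact_mod_cast (by omega : 0 ≤ -e)
    rw [← hmem, map_inv₀, hπ, ← exp_neg, ← exp_zero, exp_le_exp] at h3
    omega
  obtain rfl : e = 1 := by
    by_contra h
    obtain ⟨R, hR, hR0, hR1, hR2, hR3⟩ := h1 (j p π) e (by omega) he.symm
    have hT : Tendsto R (𝓝[≠] 0) (𝓝[≠] 0) := by
      have := hR.differentiableAt.hasDerivAt.tendsto_nhdsNE hR1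
      rwa [hR0] at this
    have h3 := L2A.fix 𝒞 Q (j p) (L2A.sub hR hR0 hT) hπ he1 he.symm (fun z => (hmem z).1)
      (fun g hg => L2A.sub_memO hR hR0 hT hg) (fun c => by
        obtain ⟨z, hz⟩ := hc p c
        rw [hz, L2A.sub_const]) (MG.ext' ((L2A.rep_sub hR hR0 hT _).trans hR3))
    have h4 := hinj p R hR hR0 hR1 fun z => by
      have := (L2A.rep_sub hR hR0 hT (j p z)).symm
      rwa [h3 z] at this
    have h5 : R =ᶠ[𝓝 0] id := by
      rw [eventually_nhdsWithin_iff] at h4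
      filter_upwards [h4] with z hz
      by_cases h6 : z = 0
      · rw [h6, hR0]; rfl
      · exact hz h6
    exact hR2 (by rw [h5.deriv_eq, deriv_id])
  have hD : (MG.D (j p π)).ord = 0 := by
    rw [MG.ord_D one_ne_zero he.symm]
    rfl
  have hx : Transcendental k x := FF.transcendental_of_notMem_range fun c h => by
    have := hd.2
    rw [h, hd.1] at this
    exact zero_ne_one this
  have := hK.finite hx
  have hE := h2 k F MG (j p) (fun z => MG.D (j p z) - j p (d.D z) * MG.D (j p x)) x inferInstance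
    (fun s t => by
      rw [map_add, show MG.D (j p s + j p t) = _ from MG.der.D_add _ _, d.D_add, map_add]
      show MG.D _ + MG.D _ - _ = _
      ring)
    (fun s t => by
      rw [map_mul, show MG.D (j p s * j p t) = _ from MG.der.D_mul _ _, d.D_mul, map_add, map_mul,
        map_mul]
      show _ * MG.D _ + _ * MG.D _ - _ = _
      ring)
    (fun c => by
      obtain ⟨z, hz⟩ := hc p c
      rw [hz, MG.D_const, hd.1, map_zero, zero_mul, sub_zero])
    (by rw [hd.2, map_one, one_mul, sub_self]) π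
  rw [sub_eq_zero] at hE
  have hD0 : MG.D (j p π) ≠ 0 := fun h => by
    rw [MG.ord_eq_top.2 h] at hD
    exact WithTop.top_ne_zero hD
  have hd0 : j p (d.D π) ≠ 0 := fun h => hD0 (by rw [hE, h, zero_mul])
  have hinv : (MG.D (j p π))⁻¹ ∈ MG.O := by
    rw [MG.mem_O, MG.ord_inv, hD, neg_zero]
  obtain ⟨r1, r2, r3⟩ := hreg p
  have key : ∀ b : F, j p b * MG.D (j p x) ^ μ ∈ MG.O →
      b / d.D π ^ μ ∈ (𝒞.v Q).valuationSubring := fun b hb => by
    rw [Valuation.mem_valuationSubring_iff, hmem]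
    have : j p (b / d.D π ^ μ) = j p b * MG.D (j p x) ^ μ * (MG.D (j p π))⁻¹ ^ μ := by
      rw [map_div₀, map_pow, hE, mul_inv, mul_pow, inv_pow, inv_pow]
      field_simp
    rw [this]
    exact mul_mem hb (pow_mem hinv μ)
  exact ⟨π, hπ1, (map_ne_zero (j p)).1 hd0, key a r2, key (x * a) (by rw [map_mul]; exact r3)⟩

end Pool.Agent.P.MP_7ede32_ag.Full
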