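import Pool.Agent.P.MP_7ede32_ag.Full.StA

/-!
Regularity in the function field of the generic fibre.
-/

open scoped IntermediateField

noncomputable section

namespace Pool.Agent.P.MP_7ede32_ag.Full

namespace L2B

variable {F K : Type} [Field F] [CharZero F] [Field K] [CharZero K]

theorem acl_comap (i : F →+* K) (S : Set F) {u : F} (h : i u ∈ acl (i '' S)) : u ∈ acl S := by
  letI : Algebra F K := i.toAlgebra
  have h1 : IsAlgebraic (acl S) (algebraMap F K u) :=
    isAlgebraic_of_mem_acl (acl S) (by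
      rintro _ ⟨y, hy, rfl⟩
      exact ⟨⟨y, subset_acl S hy⟩, rfl⟩) h
  exact mem_acl_of_isAlgebraic (algebraMap (acl S) F).injective (fun r => r.2)
    ((isAlgebraic_algebraMap_iff i.injective).1 h1)

theorem acl_map (i : F →+* K) (S : Set F) {u : F} (h : u ∈ acl S) : i u ∈ acl (i '' S) := by
  let E : Subfield F := (acl (i '' S)).comap i
  letI : Algebra F K := i.toAlgebra
  have h1 : IsAlgebraic E u :=
    isAlgebraic_of_mem_acl E (fun y hy => ⟨⟨y, subset_acl (i '' S) ⟨y, hy, rfl⟩⟩, rfl⟩) h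
  exact mem_acl_of_isAlgebraic (algebraMap E K).injective (fun r => r.2) (h1.algebraMap (A := K))

theorem acl_range (φ : ℂ →+* K) {y : K} (h : y ∈ acl (Set.range φ)) : ∃ z, φ z = y := by
  letI : Algebra ℂ K := φ.toAlgebra
  have h1 : IsAlgebraic ℂ y := isAlgebraic_of_mem_acl ℂ subset_rfl h
  by_contra hy
  exact FF.transcendental_of_notMem_range (fun z hz => hy ⟨z, hz.symm⟩) h1

theorem exists_factor {A B C : Type} [Field A] [Field B] [Field C] (φ : A →+* C) (ψ : B →+* C)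
    (h : ∀ b, ∃ z, φ z = ψ b) : ∃ τ : B →+* A, ∀ b, φ (τ b) = ψ b := by
  choose t ht using h
  refine ⟨⟨⟨⟨t, ?_⟩, fun a b => ?_⟩, ?_, fun a b => ?_⟩, ht⟩ <;> apply φ.injective <;>
    simp only [ht, map_one, map_mul, map_zero, map_add]

theorem curve (κ : Subfield K) {ι : Type} [Fintype ι] (ζ : ι → K) (ix : ι)
    (h1 : ζ ix ∉ acl (κ : Set K)) (h2 : ∀ i, ζ i ∈ acl (insert (ζ ix) (κ : Set K))) :
    FF.IsCurveField κ (IntermediateField.adjoin κ (Set.range ζ)) := by
  classical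
  have h : ∀ S : Set K, S = (Finset.univ.image ζ : Finset K) →
      FF.IsCurveField κ (IntermediateField.adjoin κ S) := by
    rintro _ rfl
    refine isCurveField_adjoin κ _ (Finset.mem_image_of_mem ζ (Finset.mem_univ ix)) h1 ?_
    intro y hy
    obtain ⟨i, -, rfl⟩ := Finset.mem_image.1 (Finset.mem_coe.1 hy)
    exact h2 i
  exact h _ (by simp)

/-- the identification of the constants -/
theorem exists_tau (h1 : SEmb) {ι : Type} (iu : ι) (ξ : ι → MG) (u₀ : ℂ)
    (hu : ξ iu = MG.const u₀) (c : ℂ →+* K) (ζ : ι → K) (k₀ : Subfield ℂ) (κ : Subfield K)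
    (hκ : κ = acl (insert (ζ iu) (c '' k₀))) (M : IntermediateField κ K)
    (hM : M = IntermediateField.adjoin κ (Set.range ζ)) (ζ' : ι → M) (hζ : ∀ i, (ζ' i : K) = ζ i)
    (hP : ∀ P : MvPolynomial ι k₀, (P.map k₀.subtype).eval₂ c ζ = 0 ↔
      (P.map k₀.subtype).eval₂ MG.const ξ = 0) :
    ∃ τ : κ →+* ℂ, ∀ P : MvPolynomial ι κ, MvPolynomial.eval₂Hom (algebraMap κ M) ζ' P = 0 ↔
      (P.map τ).eval₂ MG.const ξ = 0 := by
  let e : MG →+* AlgebraicClosure MG := algebraMap _ _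
  let c₀ : k₀ →+* κ := (c.comp k₀.subtype).codRestrict κ fun a => by
    rw [hκ]; exact subset_acl _ (Or.inr ⟨a, a.2, rfl⟩)
  let f₀ : MvPolynomial ι k₀ →+* M := MvPolynomial.eval₂Hom ((algebraMap κ M).comp c₀) ζ'
  let g₀ : MvPolynomial ι k₀ →+* AlgebraicClosure MG :=
    e.comp (MvPolynomial.eval₂Hom (MG.const.comp k₀.subtype) ξ)
  let i : M →+* K := algebraMap M K
  have e1 : i.comp f₀ = MvPolynomial.eval₂Hom (c.comp k₀.subtype) ζ := by
    refine MvPolynomial.ringHom_ext (fun a => ?_) fun a => ?_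
    · simp only [f₀, RingHom.comp_apply, MvPolynomial.eval₂Hom_C]
      rfl
    · simp only [f₀, RingHom.comp_apply, MvPolynomial.eval₂Hom_X']
      exact hζ a
  have hκ' : ∀ a : κ, algebraMap κ M a ∈
      acl (insert (ζ' iu) (Set.range ((algebraMap κ M).comp c₀))) := fun a => by
    refine acl_comap i _ (acl_mono ?_ (hκ.le a.2))
    rintro _ (rfl | ⟨z, hz, rfl⟩)
    · exact ⟨ζ' iu, Or.inl rfl, hζ iu⟩
    · exact ⟨_, Or.inr ⟨⟨z, hz⟩, rfl⟩, rfl⟩
  have hall : ∀ u : M, u ∈ acl (Set.range f₀) := by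
    have h2 : ∀ a : κ, algebraMap κ M a ∈ acl (Set.range f₀) := fun a => by
      refine acl_mono ?_ (hκ' a)
      rintro _ (rfl | ⟨z, rfl⟩)
      · exact ⟨MvPolynomial.X iu, MvPolynomial.eval₂Hom_X' _ _ _⟩
      · exact ⟨MvPolynomial.C z, MvPolynomial.eval₂Hom_C _ _ _⟩
    intro u
    refine acl_comap i _ ?_
    have h3 : IntermediateField.adjoin κ (Set.range ζ) ≤
        (acl (i '' Set.range f₀)).toIntermediateField (fun a : κ => acl_map i _ (h2 a)) := by
      rw [IntermediateField.adjoin_le_iff]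
      rintro _ ⟨a, rfl⟩
      exact subset_acl _ ⟨ζ' a, ⟨MvPolynomial.X a, MvPolynomial.eval₂Hom_X' _ _ _⟩, hζ a⟩
    exact h3 (hM.le u.2)
  obtain ⟨J, hJ⟩ := h1.2 _ M (AlgebraicClosure MG) f₀ g₀ (fun P => by
    have h2 := hP P
    rw [MvPolynomial.eval₂_map, MvPolynomial.eval₂_map] at h2
    rw [← map_eq_zero_iff i i.injective, ← RingHom.comp_apply, e1]
    exact h2.trans (map_eq_zero_iff e e.injective).symm) hall
  have hX : ∀ a, J (ζ' a) = e (ξ a) := fun a => by
    have := hJ (MvPolynomial.X a)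
    simpa only [f₀, g₀, RingHom.comp_apply, MvPolynomial.eval₂Hom_X'] using this
  obtain ⟨τ, hτ⟩ := exists_factor (e.comp MG.const) (J.comp (algebraMap κ M)) fun a => by
    refine acl_range _ (acl_mono ?_ (acl_map J _ (hκ' a)))
    rintro _ ⟨_, rfl | ⟨z, rfl⟩, rfl⟩
    · exact ⟨u₀, by rw [hX, hu]; rfl⟩
    · refine ⟨z, ?_⟩
      have := hJ (MvPolynomial.C z)
      simp only [f₀, g₀, RingHom.comp_apply, MvPolynomial.eval₂Hom_C] at this
      exact this.symm
  refine ⟨τ, fun P => ?_⟩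
  have e2 : J.comp (MvPolynomial.eval₂Hom (algebraMap κ M) ζ') =
      e.comp (MvPolynomial.eval₂Hom (MG.const.comp τ) ξ) := by
    refine MvPolynomial.ringHom_ext (fun a => ?_) fun a => ?_
    · simp only [RingHom.comp_apply, MvPolynomial.eval₂Hom_C]
      exact (hτ a).symm
    · simp only [RingHom.comp_apply, MvPolynomial.eval₂Hom_X']
      exact hX a
  rw [← map_eq_zero_iff J J.injective, ← RingHom.comp_apply, e2, MvPolynomial.eval₂_map]
  exact map_eq_zero_iff e e.injective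

end L2B

theorem sL2B (h1 : SEmb) (h2 : SL2A) (h3 : SUniq) : SL2B := by
  intro ι Ω _ _ _ _ iu ix ia μ Φ c ζ k₀ κ M x' a' hκ hM hx ha hxκ hζ hP
  haveI : IsAlgClosed κ := hκ ▸ isAlgClosed_acl _
  let ζ' : ι → M := fun i => ⟨ζ i, hM.ge (IntermediateField.subset_adjoin _ _ ⟨i, rfl⟩)⟩
  obtain rfl : x' = ζ' ix := Subtype.ext hx
  obtain rfl : a' = ζ' ia := Subtype.ext ha
  obtain ⟨τ, hτ⟩ := L2B.exists_tau h1 iu (Φ.ξ Φ.p₀) Φ.u₀ (Φ.hu _) c ζ k₀ κ hκ M hM ζ'
    (fun _ => rfl) hP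
  have hcf : FF.IsCurveField κ M :=
    hM ▸ L2B.curve κ ζ ix (fun h => hxκ (by
      have h4 : acl (κ : Set Ω) ≤ κ := by
        rw [hκ]; exact acl_le subset_rfl
      exact h4 h)) hζ
  let f : MvPolynomial ι κ →+* M := MvPolynomial.eval₂Hom (algebraMap κ M) ζ'
  have hq : ∀ u : M, ∃ P Q, u = f P / f Q := fun u => by
    obtain ⟨P, Q, h⟩ := (IntermediateField.mem_adjoin_range_iff κ ζ u).1 (hM.le u.2)
    have e1 : (algebraMap M Ω).comp f = (MvPolynomial.aeval ζ : MvPolynomial ι κ →ₐ[κ] Ω) := by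
      refine MvPolynomial.ringHom_ext (fun a => ?_) fun a => ?_
      · simp only [f, RingHom.comp_apply, MvPolynomial.eval₂Hom_C, RingHom.coe_coe,
          MvPolynomial.aeval_C]
        rfl
      · simp only [f, RingHom.comp_apply, MvPolynomial.eval₂Hom_X', RingHom.coe_coe,
          MvPolynomial.aeval_X]
        rfl
    refine ⟨P, Q, (algebraMap M Ω).injective ?_⟩
    rw [map_div₀, ← RingHom.comp_apply, ← RingHom.comp_apply, e1]
    exact h
  have hj : ∀ p, ∃ j : M →+* MG, ∀ P, j (f P) = (P.map τ).eval₂ MG.const (Φ.ξ p) := fun p => by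
    obtain ⟨j, hj⟩ := h1.1 _ M MG f (MvPolynomial.eval₂Hom (MG.const.comp τ) (Φ.ξ p))
      (fun P => by
        refine ((hτ P).trans (Φ.ker p _).symm).trans ?_
        rw [MvPolynomial.eval₂_map]
        rfl) hq
    exact ⟨j, fun P => by rw [hj, MvPolynomial.coe_eval₂Hom, MvPolynomial.eval₂_map]⟩
  choose j hj using hj
  have hX : ∀ p i, j p (ζ' i) = Φ.ξ p i := fun p i => by
    have := hj p (MvPolynomial.X i)
    simpa only [f, MvPolynomial.eval₂Hom_X', MvPolynomial.map_X, MvPolynomial.eval₂_X] using this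
  have hC : ∀ p a, j p (algebraMap κ M a) = MG.const (τ a) := fun p a => by
    have := hj p (MvPolynomial.C a)
    simpa only [f, MvPolynomial.eval₂Hom_C, MvPolynomial.map_C, MvPolynomial.eval₂_C] using this
  refine h2 κ M Φ.Pt j (ζ' ix) (ζ' ia) μ hcf (fun p a => ⟨_, hC p a⟩) (fun u hu => ?_)
    (fun p R a1 a2 a3 a4 => Φ.inj p R a1 a2 a3 fun i => hX p i ▸ a4 (ζ' i))
    (fun p => by rw [hX, hX]; exact Φ.reg p)
  obtain ⟨P, Q, hPQ⟩ := hq u
  have e1 : ∀ p, j p u = (P.map τ).eval₂ MG.const (Φ.ξ p) / (Q.map τ).eval₂ MG.const (Φ.ξ p) :=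
    fun p => by rw [hPQ, map_div₀, hj, hj]
  obtain ⟨p, z, hz⟩ := Φ.max (P.map τ) (Q.map τ) fun p => e1 p ▸ hu p
  by_contra hne
  push Not at hne
  haveI := hcf.finite (FF.transcendental_of_notMem_range hne)
  have h4 := h3 κ M MG (j p) (fun y => MG.D (j p y)) u inferInstance
    (fun a b => by rw [map_add]; exact MG.der.D_add _ _)
    (fun a b => by rw [map_mul]; exact MG.der.D_mul _ _)
    (fun a => by rw [hC, MG.D_const]) (by rw [e1, hz, MG.D_const]) (ζ' ix)
  rw [hX] at h4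
  exact (Φ.reg p).1 h4

end Pool.Agent.P.MP_7ede32_ag.Full
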