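import Pool.Agent.P.MP_7ede32_ag.Full.StB

/-!
Laurent decomposition on an annulus, and approximation of the principal part.
-/

open Filter Topology Metric Set
open scoped Real

noncomputable section

namespace Pool.Agent.P.MP_7ede32_ag.Full

namespace Laur

open Complex

/-- the Cauchy integral -/
def G (c : ℂ) (ρ : ℝ) (F : ℂ → ℂ) (w : ℂ) : ℂ := ∮ z in C(c, ρ), (z - w)⁻¹ * F z

variable {c w : ℂ} {ρ : ℝ} {F : ℂ → ℂ}

lemma ne_of (hw : dist w c ≠ ρ) {z : ℂ} (hz : z ∈ sphere c ρ) : z - w ≠ 0 := fun h =>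
  hw ((show z = w from sub_eq_zero.1 h) ▸ mem_sphere.1 hz)

lemma cont_inv (hw : dist w c ≠ ρ) : ContinuousOn (fun z : ℂ => (z - w)⁻¹) (sphere c ρ) :=
  (continuousOn_id.sub continuousOn_const).inv₀ fun _ hz => ne_of hw hz

lemma int_G (hρ : 0 ≤ ρ) (hF : ContinuousOn F (sphere c ρ)) (hw : dist w c ≠ ρ) :
    CircleIntegrable (fun z => (z - w)⁻¹ * F z) c ρ :=
  ((cont_inv hw).mul hF).circleIntegrable hρ

lemma far {z : ℂ} (hz : z ∈ sphere c ρ) : |dist w c - ρ| ≤ ‖z - w‖ := by
  rw [← mem_sphere.1 hz, ← dist_eq_norm, dist_comm z w]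
  exact abs_dist_sub_le _ _ _

lemma diff_G (hρ : 0 ≤ ρ) (hF : ContinuousOn F (sphere c ρ)) (hw : dist w c ≠ ρ) :
    DifferentiableAt ℂ (G c ρ F) w := by
  obtain ⟨M, hM⟩ := (isCompact_sphere c ρ).exists_bound_of_continuousOn hF
  set d := |dist w c - ρ| with hd
  have hd0 : 0 < d := abs_pos.2 (sub_ne_zero.2 hw)
  have i2 : CircleIntegrable (fun z => (z - w)⁻¹ ^ 2 * F z) c ρ :=
    (((cont_inv hw).pow 2).mul hF).circleIntegrable hρ
  refine HasDerivAt.differentiableAt (f' := ∮ z in C(c, ρ), (z - w)⁻¹ ^ 2 * F z) ?_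
  rw [hasDerivAt_iff_isLittleO]
  refine Asymptotics.IsBigO.trans_isLittleO (g := fun v => ‖v - w‖ ^ 2) ?_
    (Asymptotics.isLittleO_pow_sub_sub w (by norm_num))
  refine Asymptotics.IsBigO.of_bound (2 * π * ρ * ((d / 2)⁻¹ * d⁻¹ ^ 2 * M)) ?_
  filter_upwards [ball_mem_nhds w (half_pos hd0)] with v hv
  have hv' : ‖v - w‖ < d / 2 := by rwa [mem_ball, dist_eq_norm] at hv
  have hzv : ∀ z ∈ sphere c ρ, d / 2 ≤ ‖z - v‖ := fun z hz => by
    have h1 : d ≤ ‖z - w‖ := far hz
    have h2 := norm_add_le (z - v) (v - w)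
    rw [sub_add_sub_cancel] at h2
    linarith
  have hne : ∀ z ∈ sphere c ρ, z - v ≠ 0 := fun z hz =>
    norm_pos_iff.1 ((half_pos hd0).trans_le (hzv z hz))
  have i1 : CircleIntegrable (fun z => (z - v)⁻¹ * F z) c ρ :=
    (((continuousOn_id.sub continuousOn_const).inv₀ hne).mul hF).circleIntegrable hρ
  have i3 : CircleIntegrable (fun z => (v - w) • ((z - w)⁻¹ ^ 2 * F z)) c ρ := i2.const_smul
  have i4 : CircleIntegrable (fun z => (z - v)⁻¹ * F z - (z - w)⁻¹ * F z) c ρ :=
    i1.sub (int_G hρ hF hw)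
  unfold G
  rw [← circleIntegral.integral_sub i1 (int_G hρ hF hw), ← circleIntegral.integral_smul,
    ← circleIntegral.integral_sub i4 i3, Real.norm_of_nonneg (by positivity), mul_assoc _ _ (_ ^ 2)]
  refine circleIntegral.norm_integral_le_of_norm_le_const hρ fun z hz => ?_
  have e : (z - v)⁻¹ * F z - (z - w)⁻¹ * F z - (v - w) • ((z - w)⁻¹ ^ 2 * F z) =
      (z - v)⁻¹ * (z - w)⁻¹ ^ 2 * F z * (v - w) ^ 2 := by
    have := hne z hz
    have := ne_of hw hz
    simp only [smul_eq_mul]
    field_simp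
    ring
  rw [e, norm_mul, norm_mul, norm_mul, norm_pow, norm_pow, norm_inv, norm_inv]
  have h1 := hzv z hz
  have h2 : d ≤ ‖z - w‖ := far hz
  have h3 := hM z hz
  gcongr

lemma G_zero (hρ : 0 ≤ ρ) (hF : DifferentiableOn ℂ F (closedBall c ρ)) (hw : ρ < dist w c) :
    G c ρ F w = 0 := by
  have hd : DifferentiableOn ℂ (fun z => (z - w)⁻¹ * F z) (closedBall c ρ) :=
    ((differentiableOn_id.sub_const w).inv fun z hz h => by
      have := mem_closedBall.1 hz
      rw [show z = w from sub_eq_zero.1 h] at this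
      linarith).mul hF
  exact circleIntegral_eq_zero_of_differentiable_on_off_countable hρ countable_empty
    hd.continuousOn fun z hz => hd.differentiableAt (closedBall_mem_nhds_of_mem hz.1)

lemma G_congr {F' : ℂ → ℂ} (hρ : 0 ≤ ρ) (h : EqOn F F' (sphere c ρ)) : G c ρ F w = G c ρ F' w :=
  circleIntegral.integral_congr hρ fun z hz => by simp only [h hz]

lemma G_sub {F' : ℂ → ℂ} (hρ : 0 ≤ ρ) (hF : ContinuousOn F (sphere c ρ))
    (hF' : ContinuousOn F' (sphere c ρ)) (hw : dist w c ≠ ρ) :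
    G c ρ F w - G c ρ F' w = G c ρ (fun z => F z - F' z) w := by
  unfold G
  rw [← circleIntegral.integral_sub (int_G hρ hF hw) (int_G hρ hF' hw)]
  simp only [mul_sub]

lemma G_le {M θ : ℝ} (hρ : 0 ≤ ρ) (hθ : 0 < θ) (hF : ∀ z ∈ sphere c ρ, ‖F z‖ ≤ M)
    (hw : ρ + θ ≤ dist w c) : ‖(2 * π * I : ℂ)⁻¹ * G c ρ F w‖ ≤ M * (ρ + θ) / θ := by
  have hM : 0 ≤ M := by
    obtain ⟨z, hz⟩ := NormedSpace.sphere_nonempty (E := ℂ) (x := c).2 hρ
    exact (norm_nonneg _).trans (hF z hz)
  have h := circleIntegral.norm_two_pi_i_inv_smul_integral_le_of_norm_le_const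
    (f := fun z => (z - w)⁻¹ * F z) (c := c) (C := θ⁻¹ * M) hρ fun z hz => by
      have h1 : θ ≤ ‖z - w‖ := le_trans (by linarith [le_abs_self (dist w c - ρ)]) (far hz)
      have h2 := hF z hz
      rw [norm_mul, norm_inv]
      gcongr
  refine le_trans h ?_
  rw [le_div_iff₀ hθ]
  have : ρ * (θ⁻¹ * M) * θ = M * ρ := by field_simp
  rw [this]
  nlinarith

/-- multiplication by `b` commutes with the Cauchy integral up to an entire function -/
def Q (c : ℂ) (ρ : ℝ) (b : ℂ → ℂ) : Prop :=
  Differentiable ℂ b ∧ ∀ F, ContinuousOn F (sphere c ρ) → ∃ R, Differentiable ℂ R ∧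
    ∀ w, dist w c ≠ ρ → R w = b w * G c ρ F w - G c ρ (fun z => b z * F z) w

lemma Q_one : Q c ρ fun _ => 1 :=
  ⟨differentiable_const _, fun _ _ => ⟨fun _ => 0, differentiable_const _, fun _ _ => by simp⟩⟩

lemma Q.mul {a b : ℂ → ℂ} (ha : Q c ρ a) (hb : Q c ρ b) : Q c ρ fun w => a w * b w := by
  refine ⟨ha.1.mul hb.1, fun F hF => ?_⟩
  obtain ⟨R, hR, h⟩ := hb.2 F hF
  obtain ⟨R', hR', h'⟩ := ha.2 (fun z => b z * F z) (hb.1.continuous.continuousOn.mul hF)
  refine ⟨fun w => a w * R w + R' w, (ha.1.mul hR).add hR', fun w hw => ?_⟩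
  simp only [h w hw, h' w hw, mul_assoc]
  ring

lemma Q_lin (hρ : 0 ≤ ρ) (α : ℂ) : Q c ρ fun w => w - α := by
  refine ⟨differentiable_id.sub_const α, fun F hF =>
    ⟨fun _ => ∮ z in C(c, ρ), -F z, differentiable_const _, fun w hw => ?_⟩⟩
  have i1 : CircleIntegrable (fun z => (w - α) • ((z - w)⁻¹ * F z)) c ρ :=
    (int_G hρ hF hw).const_smul
  unfold G
  rw [← smul_eq_mul, ← circleIntegral.integral_smul, ← circleIntegral.integral_sub i1
    (int_G hρ (F := fun z => (z - α) * F z) ((continuousOn_id.sub continuousOn_const).mul hF) hw)]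
  refine circleIntegral.integral_congr hρ fun z hz => ?_
  have := ne_of hw hz
  simp only [smul_eq_mul]
  field_simp
  ring

lemma Q.pow {a : ℂ → ℂ} (ha : Q c ρ a) (n : ℕ) : Q c ρ fun w => a w ^ n := by
  induction n with
  | zero => simpa using Q_one
  | succ n ih => simpa only [pow_succ] using ih.mul ha

lemma Q_pr (hρ : 0 ≤ ρ) (s : Finset ℂ) (n : ℂ → ℕ) : Q c ρ (pr s n) := by
  classical
  unfold pr
  induction s using Finset.induction_on with
  | empty => simpa using Q_one
  | insert α s h ih => simpa only [Finset.prod_insert h] using ((Q_lin hρ α).pow (n α)).mul ih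

lemma open_ann (c : ℂ) (a b : ℝ) : IsOpen {w | a < dist w c ∧ dist w c < b} :=
  have h : Continuous fun z : ℂ => dist z c := by fun_prop
  (isOpen_lt (f := fun _ => a) continuous_const h).inter
    (isOpen_lt (g := fun _ => b) h continuous_const)

lemma annulus {a b a' b' : ℝ} (ha : 0 < a) (h1 : a' < a) (h2 : b < b')
    (hF : DifferentiableOn ℂ F {w | a' < dist w c ∧ dist w c < b'}) (h3 : a < dist w c)
    (h4 : dist w c < b) :
    F w = (2 * π * I : ℂ)⁻¹ * G c b F w + -((2 * π * I : ℂ)⁻¹ * G c a F w) := by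
  have ho := open_ann c a' b'
  have hd := (differentiableOn_dslope (ho.mem_nhds ⟨by linarith, by linarith⟩)).2 hF
  have hs : closedBall c b \ ball c a ⊆ {w | a' < dist w c ∧ dist w c < b'} := fun z hz => by
    have x := mem_closedBall.1 hz.1
    have y : a ≤ dist z c := not_lt.1 fun h => hz.2 (mem_ball.2 h)
    exact ⟨by linarith, by linarith⟩
  have e := circleIntegral_eq_of_differentiable_on_annulus_off_countable ha (by linarith : a ≤ b)
    countable_empty (hd.continuousOn.mono hs) fun z hz => hd.differentiableAt (ho.mem_nhds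
      (hs ⟨ball_subset_closedBall hz.1.1, fun h => hz.1.2 (ball_subset_closedBall h)⟩))
  have key : ∀ ρ : ℝ, a ≤ ρ → ρ ≤ b → dist w c ≠ ρ → (∮ z in C(c, ρ), dslope F w z) =
      G c ρ F w - F w * G c ρ (fun _ => 1) w := by
    intro ρ x y hw
    have hρ : 0 ≤ ρ := by linarith
    have hc : ContinuousOn F (sphere c ρ) := hF.continuousOn.mono fun z hz => by
      have := mem_sphere.1 hz
      exact ⟨by linarith, by linarith⟩
    have i2 : CircleIntegrable (fun z => F w • ((z - w)⁻¹ * 1)) c ρ :=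
      (int_G hρ (F := fun _ => 1) continuousOn_const hw).const_smul
    unfold G
    rw [← smul_eq_mul (F w), ← circleIntegral.integral_smul,
      ← circleIntegral.integral_sub (int_G hρ hc hw) i2]
    refine circleIntegral.integral_congr hρ fun z hz => ?_
    have hz' : z ≠ w := sub_ne_zero.1 (ne_of hw hz)
    simp only [dslope_of_ne _ hz', slope_def_field, smul_eq_mul]
    ring
  have z1 : G c b (fun _ => 1) w = 2 * π * I := by
    simpa [G] using circleIntegral.integral_sub_inv_of_mem_ball (mem_ball.2 h4)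
  rw [key b (by linarith) le_rfl h4.ne, key a le_rfl (by linarith) h3.ne', z1,
    G_zero ha.le (differentiableOn_const _) h3] at e
  have := two_pi_I_ne_zero
  field_simp
  linear_combination -e

end Laur

open Laur Complex in
theorem sLaur : SLaur := by
  intro c r θ M ε e A s n hθ hr he hM hA hB
  have h0 : 0 < r - θ := by linarith
  have hc : ∀ ρ, r - 2 * θ < ρ → ρ < r + θ → ContinuousOn e (sphere c ρ) := fun ρ x y =>
    he.continuousOn.mono fun z hz => by
      have := mem_sphere.1 hz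
      exact ⟨by linarith, by linarith⟩
  have hc1 := hc (r - θ) (by linarith) (by linarith)
  have hc2 := hc (r + θ / 2) (by linarith) (by linarith)
  have hA' : DifferentiableOn ℂ A (closedBall c (r - θ)) :=
    hA.mono (closedBall_subset_ball (by linarith))
  have hQ : Q c (r - θ) (pr s n) := Q_pr h0.le s n
  have hF : ContinuousOn (fun z => A z / pr s n z) (sphere c (r - θ)) :=
    (hA'.continuousOn.mono sphere_subset_closedBall).div hQ.1.continuous.continuousOn
      fun z hz => (hB z hz).1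
  obtain ⟨R, hR, hRe⟩ := hQ.2 _ hF
  set P : ℂ → ℂ := fun w => -((2 * π * I : ℂ)⁻¹ * G c (r - θ) e w) with hP
  set J : ℂ → ℂ := fun w => (2 * π * I : ℂ)⁻¹ * G c (r + θ / 2) e w with hJ
  have hPd : ∀ w, r - θ < dist w c → DifferentiableAt ℂ P w := fun w hw =>
    ((diff_G h0.le hc1 hw.ne').const_mul _).neg
  have hann : ∀ w, r - θ < dist w c → dist w c < r + θ / 2 → e w = J w + P w := fun w x y =>
    annulus h0 (by linarith) (by linarith) he x y
  have hH : ∀ w, r - θ < dist w c → (if dist w c < r then J w else e w - P w) = e w - P w := by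
    intro w x
    split_ifs with h
    · rw [hann w x (by linarith), add_sub_cancel_right]
    · rfl
  refine ⟨P, fun w => if dist w c < r then J w else e w - P w,
    fun w => -((2 * π * I : ℂ)⁻¹ * R w), fun w hw => (hPd w hw).differentiableWithinAt,
    fun w hw => DifferentiableAt.differentiableWithinAt ?_, (hR.const_mul _).neg,
    fun w x _ => ?_, fun w hw => ⟨?_, ?_⟩⟩
  · by_cases h : dist w c < r
    · refine ((diff_G (by linarith) hc2 (by linarith : dist w c < r + θ / 2).ne).const_mul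
        (2 * π * I : ℂ)⁻¹).congr_of_eventuallyEq ?_
      filter_upwards [isOpen_ball.mem_nhds (mem_ball.2 h)] with z hz
      exact if_pos (mem_ball.1 hz)
    · have x : r - θ < dist w c := by linarith [not_lt.1 h]
      have ho := open_ann c (r - 2 * θ) (r + θ)
      refine ((he.differentiableAt (ho.mem_nhds ⟨by linarith, mem_ball.1 hw⟩)).sub
        (hPd w x)).congr_of_eventuallyEq ?_
      filter_upwards [(isOpen_lt continuous_const
        (by fun_prop : Continuous fun z => dist z c)).mem_nhds x] with z hz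
      exact hH z hz
  · beta_reduce
    rw [hH w x, sub_add_cancel]
  · have := G_le (w := w) h0.le hθ hM (by linarith)
    rwa [sub_add_cancel, ← norm_neg] at this
  · have x : r - θ < dist w c := by linarith
    have z1 : G c (r - θ) (fun z => pr s n z * (A z / pr s n z)) w = 0 := by
      rw [G_congr (F' := A) h0.le fun z hz => mul_div_cancel₀ _ (hB z hz).1]
      exact G_zero h0.le hA' x
    have := G_le (w := w) h0.le hθ (fun z hz => (hB z hz).2) (by linarith)
    rw [sub_add_cancel, ← G_sub h0.le hF hc1 x.ne'] at this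
    have e1 : -((2 * π * I : ℂ)⁻¹ * R w) - pr s n w * P w = -(((2 * π * I : ℂ)⁻¹ *
        (G c (r - θ) (fun z => A z / pr s n z) w - G c (r - θ) e w)) * pr s n w) := by
      rw [hRe w x.ne', z1]
      simp only [hP]
      ring
    beta_reduce
    rw [e1, norm_neg, norm_mul]
    gcongr

end Pool.Agent.P.MP_7ede32_ag.Full
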