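import Pool.Agent.P.MP_7ede32_ag.Full.StB

/-!
The lemma on the logarithmic derivative with control of the radius, and a bootstrap lemma.
-/

namespace Pool.Agent.P.MP_7ede32_ag.Full

namespace LdlP

open Filter Topology Metric Real Complex ValueDistribution MeromorphicOn
open Pool.Agent.P.MP_7ede32_ag.N

theorem ldl_step {ι : Type*} [Fintype ι] (b : ι → ℂ → ℂ) (hb : ∀ i, Meromorphic (b i))
    (h0 : ∀ i z, meromorphicOrderAt (b i) z ≠ ⊤) {a t : ℝ} (ha : 1 ≤ a) (ht : 1 ≤ t)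
    (h2 : ∑ i, ch (b i) (a * (1 + 1 / t)) ≤ 2 * t) :
    ∃ r, a ≤ r ∧ r ≤ a + a * (1 / t) / 4 ∧
      ∀ i, proximity (logDeriv (b i)) ⊤ r ≤ Real.log 2368 + 5 * Real.log t := by
  classical
  set η := 1 / t with hη
  have hη0 : 0 < η := by positivity
  have hηt : η * t = 1 := by rw [hη]; field_simp
  have hη1 : η ≤ 1 := by nlinarith
  set ρ := a * (1 + η) with hρ
  set R2 := a * (1 + 3 * η / 4) with hR2
  have hR21 : 1 ≤ R2 := by nlinarith
  have hR2ρ : R2 ≤ ρ := by nlinarith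
  have hlog : η / 8 ≤ Real.log (ρ / R2) := by
    have h1 := Real.one_sub_inv_le_log_of_pos (show 0 < ρ / R2 by positivity)
    refine le_trans ?_ h1
    rw [inv_div, hρ, hR2, mul_div_mul_left _ _ (by positivity), le_sub_comm,
      div_le_iff₀ (by positivity)]
    nlinarith
  choose s hs using fun i => exists_supp (b i) (show 0 ≤ R2 by linarith)
  set n : ι → ℝ := fun i => ∑ u ∈ s i, |(divisor (b i) Set.univ u : ℝ)| with hn
  have hn0 : ∀ i, 0 ≤ n i := fun i => Finset.sum_nonneg fun _ _ => abs_nonneg _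
  have hch := fun i => ch_nonneg (b i) (hR21.trans hR2ρ)
  have hn1 : ∑ i, n i ≤ 16 * t ^ 2 := by
    have h1 : (∑ i, n i) * (η / 8) ≤ 2 * t := by
      rw [Finset.sum_mul]
      refine (Finset.sum_le_sum fun i _ => ?_).trans h2
      exact (mul_le_mul_of_nonneg_left hlog (hn0 i)).trans
        (count_le (b i) (s i) hR21 hR2ρ fun u hu => ((hs i u).1 hu).1)
    have h3 := mul_le_mul_of_nonneg_right h1 (show 0 ≤ 8 * t by positivity)
    have h4 : (∑ i, n i) * (η / 8) * (8 * t) = (∑ i, n i) * (η * t) := by ring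
    rw [h4, hηt] at h3
    linarith
  have hcard : ((Finset.univ.biUnion s).card : ℝ) ≤ 16 * t ^ 2 := by
    refine le_trans ?_ hn1
    have h1 : (Finset.univ.biUnion s).card ≤ ∑ i, (s i).card := Finset.card_biUnion_le
    refine le_trans (Nat.cast_le.2 h1) ?_
    push_cast
    refine Finset.sum_le_sum fun i _ => ?_
    rw [Finset.card_eq_sum_ones]
    push_cast
    refine Finset.sum_le_sum fun u hu => ?_
    exact_mod_cast Int.one_le_abs ((hs i u).1 hu).2
  obtain ⟨r, hr1, hr2, hr3⟩ := pigeon (Finset.univ.biUnion s) a (show 0 < a * η / 4 by positivity)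
  refine ⟨r, hr1, hr2, fun i => ?_⟩
  obtain ⟨R, ⟨hR1, hR3⟩, hR4⟩ := (Set.Ioo_infinite (show a * (1 + η / 2) < R2 by
    nlinarith)).exists_notMem_finset ((s i).image fun u => ‖u‖)
  set δ := a * η / 4 / (2 * ((Finset.univ.biUnion s).card + 1)) with hδ
  have hδ0 : 0 < δ := by positivity
  have hRr : a * η / 4 ≤ R - r := by nlinarith
  have hRr0 : 0 < R - r := lt_of_lt_of_le (by positivity) hRr
  have key := ldl_disc (hb i) (h0 i) (ha.trans hr1) (show r < R by linarith) hδ0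
    (fun u hu => by
      by_contra h
      exact hR4 (Finset.mem_image.2 ⟨u, (hs i u).2 ⟨by linarith, h⟩, hu⟩)) (s i)
    (fun u hu h => by
      have h1 := (hs i u).2 ⟨by linarith, h⟩
      exact ⟨h1, hr3 u (Finset.mem_biUnion.2 ⟨i, Finset.mem_univ i, h1⟩)⟩)
  have b1 : n i ≤ 16 * t ^ 2 :=
    (Finset.single_le_sum (fun j _ => hn0 j) (Finset.mem_univ i)).trans hn1
  have b2 : 1 / (R - r) ≤ 4 * t := by
    rw [div_le_iff₀ hRr0]; nlinarith
  have b3 : 1 / δ ≤ 136 * t ^ 3 := by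
    rw [hδ, one_div_div, div_le_iff₀ (by positivity)]
    have : 136 * t ^ 3 * (a * η / 4) = 34 * t ^ 2 * a * (η * t) := by ring
    rw [this, hηt]
    nlinarith
  have b4 : 2 * R / (R - r) ^ 2 ≤ 64 * t ^ 2 := by
    rw [div_le_iff₀ (by positivity)]
    have h1 : a ≤ 4 * t * (R - r) := by nlinarith
    have h3 : a ^ 2 ≤ (4 * t * (R - r)) ^ 2 := by gcongr
    nlinarith
  have b5 : ch (b i) R ≤ 2 * t := (ch_mono (hb i) (by linarith) (by linarith)).trans
    ((Finset.single_le_sum (fun j _ => hch j) (Finset.mem_univ i)).trans h2)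
  have b6 : n i * (1 / (R - r) + 1 / δ) + 2 * R / (R - r) ^ 2 * ch (b i) R ≤ 2368 * t ^ 5 := by
    have h1 : 0 ≤ ch (b i) R := ch_nonneg _ (by linarith)
    have h3 : t ^ 3 ≤ t ^ 5 := pow_le_pow_right₀ ht (by norm_num)
    calc _ ≤ 16 * t ^ 2 * (4 * t + 136 * t ^ 3) + 64 * t ^ 2 * (2 * t) := by gcongr
      _ = 192 * t ^ 3 + 2176 * t ^ 5 := by ring
      _ ≤ _ := by linarith
  have b7 : (1 : ℝ) ≤ 2368 * t ^ 5 := by nlinarith [one_le_pow₀ (n := 5) ht]
  have hr0 : 0 < r := by linarith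
  rw [proximity_top, ← circleAverage_const (Real.log 2368 + 5 * Real.log t) 0 r]
  refine circleAverage_le_of_cd hr0.ne'
    (hb i).logDeriv.meromorphicOn.circleIntegrable_posLog_norm (circleIntegrable_const _ _ _) ?_
  rw [abs_of_pos hr0]
  filter_upwards [key] with z hz
  refine (posLog_le_posLog (norm_nonneg _) (hz.trans b6)).trans (le_of_eq ?_)
  rw [posLog_eq_log (by rwa [abs_of_nonneg (by positivity)]),
    Real.log_mul (by norm_num) (by positivity), Real.log_pow]
  rfl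

end LdlP

open ValueDistribution in
theorem sLdl : SLdl := by
  intro ι _ y hy
  have h0 : ∀ β, ∃ c : ℝ, 0 ≤ c ∧ ∀ r, N.ch (y β).rep r ≤ 2 * Tm (y β) r + c := fun β => by
    refine ⟨max |Real.log ‖(y β).rep 0‖| |Real.log ‖meromorphicTrailingCoeffAt (y β).rep 0‖|,
      le_max_of_le_left (abs_nonneg _), fun r => ?_⟩
    have h1 := (abs_le.1 (characteristic_sub_characteristic_inv_le (R := r) (y β).mer_rep)).1
    unfold N.ch Tm
    linarith
  choose c hc0 hc using h0
  have hC : 0 ≤ ∑ β, c β := Finset.sum_nonneg fun β _ => hc0 β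
  refine ⟨Real.log 2368 + 5 * Real.log (2 + ∑ β, c β), fun a ρ ha hρ => ?_⟩
  have h1 : 0 < ρ - a := sub_pos.2 hρ
  have hQ : 1 ≤ ρ / (ρ - a) := by
    rw [le_div_iff₀ h1]
    linarith
  have hS : 0 ≤ ∑ γ, Tm (y γ) ρ :=
    Finset.sum_nonneg fun γ _ => characteristic_nonneg (by linarith)
  have hch : 0 ≤ ∑ β, N.ch (y β).rep ρ := Finset.sum_nonneg fun β _ => N.ch_nonneg _ (by linarith)
  obtain ⟨t, ht⟩ : ∃ t, t = ∑ β, N.ch (y β).rep ρ + ρ / (ρ - a) := ⟨_, rfl⟩
  have ht1 : 1 ≤ t := by linarith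
  have h2 : a * (1 / t) ≤ ρ - a := by
    rw [mul_one_div, div_le_iff₀ (by linarith)]
    have h3 : ρ / (ρ - a) ≤ t := by linarith
    rw [div_le_iff₀ h1] at h3
    linarith
  have h3 : 0 ≤ a * (1 / t) := by positivity
  obtain ⟨r, h4, h5, h6⟩ := LdlP.ldl_step (fun β => (y β).rep) (fun β => (y β).mer_rep)
    (fun β z => Mer.ne_top (hy β) z) ha ht1 (by
      refine (Finset.sum_le_sum fun β _ =>
        N.ch_mono (y β).mer_rep (s := ρ) (by linarith [mul_add a 1 (1 / t)])
          (by linarith [mul_add a 1 (1 / t)])).trans ?_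
      linarith)
  refine ⟨r, h4, by linarith, fun β => (h6 β).trans ?_⟩
  have h7 : ∑ β, N.ch (y β).rep ρ ≤ 2 * ∑ γ, Tm (y γ) ρ + ∑ β, c β := by
    rw [Finset.mul_sum, ← Finset.sum_add_distrib]
    exact Finset.sum_le_sum fun β _ => hc β ρ
  have h8 : t ≤ (2 + ∑ β, c β) * (∑ γ, Tm (y γ) ρ + ρ / (ρ - a)) := by nlinarith
  have h9 := Real.log_le_log (by linarith) h8
  rw [Real.log_mul (by linarith) (by linarith)] at h9
  linarith

theorem sBoot : SBoot := by
  intro C
  obtain ⟨D, hD1, hCD⟩ : ∃ D : ℝ, 1 ≤ D ∧ C ≤ D := ⟨max 1 C, le_max_left _ _, le_max_right _ _⟩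
  have hL : 0 ≤ Real.log (2 * D) := Real.log_nonneg (by linarith)
  obtain ⟨E, hE⟩ : ∃ E, E = D * Real.log (2 * D) := ⟨_, rfl⟩
  have hE0 : 0 ≤ E := by rw [hE]; positivity
  have hlog : ∀ x : ℝ, 0 < x → D * Real.log x ≤ x / 2 + E := fun x hx => by
    have h1 := Real.log_le_sub_one_of_pos (show 0 < x / (2 * D) by positivity)
    rw [Real.log_div hx.ne' (by positivity)] at h1
    have h2 := mul_le_mul_of_nonneg_left h1 (show 0 ≤ D by linarith)
    have h3 : D * (x / (2 * D) - 1) = x / 2 - D := by field_simp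
    rw [h3, mul_sub] at h2
    linarith
  refine ⟨6 * D + 2 * E + 1, fun T A B r R hr hR hA hT h => ?_⟩
  have h1 : 0 < R - r := sub_pos.2 hR
  obtain ⟨Q, hQ⟩ : ∃ Q, Q = R / (R - r) := ⟨_, rfl⟩
  have hQ1 : 1 ≤ Q := by
    rw [hQ, le_div_iff₀ h1]
    linarith
  rw [← hQ]
  let x : ℕ → ℝ := fun k => R - (R - r) / 2 ^ k
  have hx1 : ∀ k, x k ∈ Set.Icc r R := fun k => by
    have h2 : (R - r) / 2 ^ k ≤ R - r := div_le_self h1.le (one_le_pow₀ (by norm_num))
    have h3 : 0 ≤ (R - r) / 2 ^ k := by positivity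
    exact ⟨by simp only [x]; linarith, by simp only [x]; linarith⟩
  have hx2 : ∀ k, x (k + 1) - x k = (R - r) / 2 ^ (k + 1) := fun k => by
    simp only [x]
    field_simp
    ring
  obtain ⟨α, hα⟩ : ∃ α, α = D * A + E + (A + Q) / 2 := ⟨_, rfl⟩
  have hα0 : 0 ≤ α := by rw [hα]; positivity
  have hstep : ∀ k : ℕ, T (x k) ≤ α + D * (k + 1) + T (x (k + 1)) / 2 := fun k => by
    have p0 : (0 : ℝ) < (R - r) / 2 ^ (k + 1) := by positivity
    have p1 : (1 : ℝ) ≤ 2 ^ (k + 1) := one_le_pow₀ (by norm_num)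
    have p2 := h (x k) (x (k + 1)) (hx1 k).1 (by linarith [hx2 k]) (hx1 (k + 1)).2
    have p3 := (hT _ (hx1 (k + 1))).1
    have p4 : x (k + 1) / (x (k + 1) - x k) ≤ 2 ^ (k + 1) * Q := by
      rw [hx2, div_div_eq_mul_div, hQ, mul_comm, mul_div_assoc]
      have := (hx1 (k + 1)).2
      gcongr
    have p5 : 0 ≤ x (k + 1) / (x (k + 1) - x k) := by
      rw [hx2]
      have := (hx1 (k + 1)).1
      exact div_nonneg (by linarith) p0.le
    have p6 : A + T (x (k + 1)) + x (k + 1) / (x (k + 1) - x k) ≤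
        2 ^ (k + 1) * (A + T (x (k + 1)) + Q) := by nlinarith
    have p7 := Real.log_le_log (by linarith) p6
    rw [Real.log_mul (by positivity) (by linarith), Real.log_pow] at p7
    have p8 : 0 ≤ Real.log (A + T (x (k + 1)) + x (k + 1) / (x (k + 1) - x k)) :=
      Real.log_nonneg (by linarith)
    have p9 : Real.log 2 ≤ 1 := by
      linarith [Real.log_le_sub_one_of_pos (show (0 : ℝ) < 2 by norm_num)]
    have p10 : ((k + 1 : ℕ) : ℝ) * Real.log 2 ≤ k + 1 := by
      push_cast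
      exact mul_le_of_le_one_right (by positivity) p9
    have p11 := hlog (A + T (x (k + 1)) + Q) (by linarith)
    have p12 := mul_le_mul_of_nonneg_right hCD (add_nonneg (show 0 ≤ A by linarith) p8)
    have p13 := mul_le_mul_of_nonneg_left (p7.trans (add_le_add p10 le_rfl))
      (show 0 ≤ D by linarith)
    rw [hα]
    linarith
  have hit : ∀ n k : ℕ, T (x k) ≤ 2 * α + 2 * D * (k + 2) + B / 2 ^ n := by
    intro n
    induction n with
    | zero =>
      intro k
      have p1 := (hT _ (hx1 k)).2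
      have p2 : 0 ≤ 2 * D * ((k : ℝ) + 2) := by positivity
      rw [pow_zero, div_one]
      linarith
    | succ n ih =>
      intro k
      have p1 := ih (k + 1)
      have p2 := hstep k
      have p3 : B / 2 ^ (n + 1) = B / 2 ^ n / 2 := by rw [pow_succ, div_div]
      push_cast at p1
      rw [p3]
      linarith
  have h2 : T r ≤ 2 * α + 4 * D := by
    have h3 : Filter.Tendsto (fun n : ℕ => 2 * α + 4 * D + B / 2 ^ n) Filter.atTop
        (nhds (2 * α + 4 * D + 0)) :=
      tendsto_const_nhds.add (tendsto_const_nhds.div_atTop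
        (tendsto_pow_atTop_atTop_of_one_lt (by norm_num)))
    rw [add_zero] at h3
    refine ge_of_tendsto' h3 fun n => ?_
    have h4 := hit n 0
    have h5 : x 0 = r := by simp [x]
    rw [h5] at h4
    push_cast at h4
    linarith
  rw [hα] at h2
  nlinarith [mul_nonneg (show 0 ≤ D by linarith) (show 0 ≤ Q by linarith),
    mul_nonneg (show 0 ≤ D by linarith) (show 0 ≤ A - 1 by linarith),
    mul_nonneg hE0 (show 0 ≤ A + Q - 1 by linarith)]

end Pool.Agent.P.MP_7ede32_ag.Full
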