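import Pool.Agent.P.MP_7ede32_ag.Full.StB

/-!
A disc with few poles.
-/

open Filter Topology Metric Set ValueDistribution MeromorphicOn

noncomputable section

namespace Pool.Agent.P.MP_7ede32_ag.Full

namespace Pole

/-- counting poles -/
lemma count (f : ℂ → ℂ) (s : Finset ℂ) {R ρ : ℝ} (hR : 1 ≤ R) (hρ : R ≤ ρ)
    (hs : ∀ u ∈ s, ‖u‖ ≤ R) :
    (∑ u ∈ s, (((divisor f univ)⁻ u : ℤ) : ℝ)) * Real.log (ρ / R) ≤ characteristic f ⊤ ρ := by
  classical
  set D := divisor f univ with hD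
  have h0 : ∀ z, 0 ≤ D⁻ z := fun z => by
    rw [Function.locallyFinsuppWithin.negPart_apply]; exact negPart_nonneg _
  have h1 : ∑ u ∈ s, Function.locallyFinsuppWithin.single u (D⁻ u) ≤ D⁻ := by
    intro z
    simp only [Function.locallyFinsuppWithin.coe_sum, Finset.sum_apply,
      Function.locallyFinsuppWithin.single_apply, Finset.sum_ite_eq]
    split_ifs
    · exact le_rfl
    · exact h0 z
  have h2 := Function.locallyFinsuppWithin.logCounting_le h1 (hR.trans hρ)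
  rw [map_sum, Finset.sum_apply, ← logCounting_top] at h2
  have h3 := proximity_nonneg (f := f) (a := ⊤) ρ
  simp only [characteristic, Pi.add_apply, Pi.zero_apply] at h3 ⊢
  refine le_trans ?_ (h2.trans (by linarith))
  rw [Finset.sum_mul]
  refine Finset.sum_le_sum fun u hu => ?_
  rw [Function.locallyFinsuppWithin.logCounting_single_eq_log_sub_const ((hs u hu).trans hρ),
    Real.log_div (by linarith) (by linarith)]
  refine mul_le_mul_of_nonneg_left (sub_le_sub_left ?_ _) (by exact_mod_cast h0 u)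
  rcases (norm_nonneg u).eq_or_lt with h | h
  · rw [← h, Real.log_zero]; exact Real.log_nonneg hR
  · exact Real.log_le_log h (hs u hu)

lemma log_ge {x a : ℝ} (hx : 1 ≤ x) (ha : 1 ≤ a) :
    1 / (3 * a) ≤ Real.log (x * (1 + 2 / a) / (x * (1 + 1 / a))) := by
  have h1 : x * (1 + 2 / a) / (x * (1 + 1 / a)) = (a + 2) / (a + 1) := by
    field_simp
  rw [h1]
  refine le_trans ?_ (Real.one_sub_inv_le_log_of_pos (by positivity))
  have h2 : 1 - ((a + 2) / (a + 1))⁻¹ = 1 / (a + 2) := by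
    field_simp; ring
  rw [h2]
  exact one_div_le_one_div_of_le (by linarith) (by linarith)

/-- the inverse branch is analytic with nonzero derivative -/
lemma inv_an {φ Ψ : ℂ → ℂ} {z₁ : ℂ} {l a E : ℝ} (hφ : Differentiable ℂ φ) (h : WV φ z₁ l a E Ψ)
    (hE : 2 ≤ E) {w : ℂ} (hw : w ∈ ball (φ z₁) (l / 200)) :
    AnalyticAt ℂ Ψ w ∧ deriv Ψ w ≠ 0 := by
  have hn : ball (φ z₁) (l / 200) ∈ 𝓝 w := isOpen_ball.mem_nhds hw
  refine ⟨DifferentiableOn.analyticAt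
    (fun v hv => (h.inv_ball hE hv).1.differentiableWithinAt) hn, fun h0 => ?_⟩
  have h1 : (φ ∘ Ψ) =ᶠ[𝓝 w] id := by
    filter_upwards [hn] with v hv using (h.inv_ball hE hv).2
  have h2 := h1.deriv_eq
  rw [deriv_comp w (hφ _) (h.inv_ball hE hw).1, h0, mul_zero, deriv_id] at h2
  exact zero_ne_one h2

end Pole

theorem sPole (h1 : SGrid) (h2 : SRep) : SPole := by
  classical
  intro R₀ rm
  obtain ⟨R, hR0, hRm⟩ : ∃ R : ℝ, R₀ ≤ R ∧ 2 * |rm| + 1 ≤ R :=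
    ⟨max R₀ (2 * |rm| + 1), le_max_left _ _, le_max_right _ _⟩
  have ha0 := abs_nonneg rm
  have ha1 := le_abs_self rm
  obtain ⟨Q, hQ⟩ : ∃ Q : ℝ, Q = 7 * (R + 1) := ⟨_, rfl⟩
  have hQ0 : 0 < Q := by linarith
  refine ⟨3 * (1200 * Q) ^ 2, 600 * Q, by positivity, ?_⟩
  intro φ Ψ g z₁ l a E T ρ r P hφ hW hE hl hz hg hT hP hρ hr hA
  have ha := hW.one_le
  have hl0 : 0 < l := by linarith
  obtain ⟨k, hk⟩ : ∃ k : ℕ, k = ⌊l / (600 * Q)⌋₊ := ⟨_, rfl⟩
  have hk1 : (1 : ℝ) ≤ k := by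
    rw [hk]
    exact_mod_cast (Nat.one_le_floor_iff _).2 ((one_le_div (by linarith)).2 hl)
  have hk2 : (k : ℝ) * (600 * Q) ≤ l := by
    rw [hk, ← le_div_iff₀ (by linarith)]
    exact Nat.floor_le (by positivity)
  have hk3 : l ≤ k * (1200 * Q) := by
    have := Nat.lt_floor_add_one (l / (600 * Q))
    rw [← hk, div_lt_iff₀ (by linarith)] at this
    nlinarith
  obtain ⟨Z, hZ1, hZ2, hZ3⟩ := h1 P R (fun w => (hP w).imp fun p hp => ⟨hp.1, hp.2.trans hR0⟩)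
    (φ z₁) k
  have hb : ∀ p ∈ Z, ball p r ⊆ ball (φ z₁) (l / 200) := fun p hp => by
    refine ball_subset_ball' ?_
    have := (hZ2 p hp).2
    rw [← hQ] at this
    nlinarith
  have hrep : ∀ p ∈ Z, ∃ (s : Finset ℂ) (n : ℂ → ℕ) (A : ℂ → ℂ),
      (∀ α ∈ s, dist α p ≤ ρ ∧ meromorphicOrderAt (g ∘ Ψ) α = (-(n α : ℤ) : ℤ)) ∧
      DifferentiableOn ℂ A (ball p r) ∧
      ∀ w ∈ ball p r, ρ < dist w p → A w = (g ∘ Ψ) w * pr s n w := fun p hp =>
    h2 (g ∘ Ψ) p ρ r hρ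
      (fun w hw => (hg (Ψ w)).comp_analyticAt (Pole.inv_an hφ hW hE (hb p hp hw)).1)
      fun w hw hw' => (hA p (hZ2 p hp).1 w (hb p hp hw) hw' hw).comp
        (Pole.inv_an hφ hW hE (hb p hp hw)).1
  choose! s n A hs hA1 hA2 using hrep
  have hm : ∀ p ∈ Z, ∀ α ∈ s p, α ∈ ball (φ z₁) (l / 200) := fun p hp α hα =>
    hb p hp ((hs p hp α hα).1.trans_lt hρ)
  have hord : ∀ p ∈ Z, ∀ α ∈ s p, (divisor g univ)⁻ (Ψ α) = n p α := fun p hp α hα => by
    have h3 := Pole.inv_an hφ hW hE (hm p hp α hα)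
    rw [Function.locallyFinsuppWithin.negPart_apply,
      divisor_apply hg.meromorphicOn (mem_univ _),
      ← meromorphicOrderAt_comp_of_deriv_ne_zero h3.1 h3.2, (hs p hp α hα).2,
      WithTop.untop₀_coe, negPart_neg, posPart_eq_self.2 (Int.natCast_nonneg _)]
  have hinj : Set.InjOn (fun x : Σ _ : ℂ, ℂ => Ψ x.2) (Z.sigma s : Finset (Σ _ : ℂ, ℂ)) := by
    rintro ⟨p, α⟩ hx ⟨p', α'⟩ hx' he
    obtain ⟨hp, hα⟩ := Finset.mem_sigma.1 (Finset.mem_coe.1 hx)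
    obtain ⟨hp', hα'⟩ := Finset.mem_sigma.1 (Finset.mem_coe.1 hx')
    dsimp only at hp hα hp' hα' he
    have e1 : α = α' := by
      rw [← (hW.inv_ball hE (hm p hp α hα)).2, he, (hW.inv_ball hE (hm p' hp' α' hα')).2]
    subst e1
    have e2 : p = p' := by
      by_contra hne
      linarith [hZ3 p hp p' hp' hne, dist_triangle_left p p' α, (hs p hp α hα).1,
        (hs p' hp' α hα').1]
    rw [e2]
  have hx1 : 1 ≤ ‖z₁‖ * (1 + 1 / a) := by
    have : 0 ≤ 1 / a := by positivity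
    nlinarith
  have hx2 : ‖z₁‖ * (1 + 1 / a) ≤ ‖z₁‖ * (1 + 2 / a) := by gcongr; norm_num
  have hc := Pole.count g ((Z.sigma s).image fun x => Ψ x.2) hx1 hx2 fun u hu => by
    obtain ⟨x, hx, rfl⟩ := Finset.mem_image.1 hu
    obtain ⟨hp, hα⟩ := Finset.mem_sigma.1 hx
    have h3 := hW.near _ (hm _ hp _ hα)
    have h4 := norm_sub_norm_le (Ψ x.2) z₁
    have h5 : 0 ≤ ‖z₁‖ / a := by positivity
    have h6 : ‖z₁‖ * (1 + 1 / a) = ‖z₁‖ + ‖z₁‖ / a := by ring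
    linarith
  rw [Finset.sum_image hinj, Finset.sum_sigma] at hc
  have h7 : ∑ p ∈ Z, ∑ α ∈ s p, (((divisor g univ)⁻ (Ψ α) : ℤ) : ℝ) =
      ∑ p ∈ Z, ((∑ α ∈ s p, n p α : ℕ) : ℝ) :=
    Finset.sum_congr rfl fun p hp => by
      rw [Nat.cast_sum]
      exact Finset.sum_congr rfl fun α hα => by rw [hord p hp α hα, Int.cast_natCast]
  rw [h7] at hc
  have hT0 : 0 ≤ T := (characteristic_nonneg (hx1.trans hx2)).trans hT
  have h8 : ∑ p ∈ Z, ((∑ α ∈ s p, n p α : ℕ) : ℝ) ≤ 3 * a * T := by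
    have h9 := (mul_le_mul_of_nonneg_left (Pole.log_ge hz ha)
      (Finset.sum_nonneg fun p _ => Nat.cast_nonneg _)).trans (hc.trans hT)
    rw [mul_one_div, div_le_iff₀ (by linarith)] at h9
    linarith
  have hne : Z.Nonempty := by
    rw [← Finset.card_pos, hZ1]
    have : 1 ≤ k := by exact_mod_cast hk1
    positivity
  obtain ⟨p, hp, hle⟩ := Finset.exists_le_of_sum_le (g := fun _ => 3 * a * T / (k : ℝ) ^ 2) hne
    (h8.trans (by
      rw [Finset.sum_const, hZ1, nsmul_eq_mul]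
      push_cast
      rw [mul_div_cancel₀ _ (by positivity)]))
  refine ⟨p, (hZ2 p hp).1, hb p hp, s p, n p, A p, fun α hα => (hs p hp α hα).1, hle.trans ?_,
    hA1 p hp, hA2 p hp⟩
  rw [div_le_div_iff₀ (by positivity) (by positivity)]
  have h10 : l ^ 2 ≤ (k * (1200 * Q)) ^ 2 := by gcongr
  have h11 : 0 ≤ 3 * a * T := by positivity
  calc 3 * a * T * l ^ 2 ≤ 3 * a * T * (k * (1200 * Q)) ^ 2 := by gcongr
    _ = _ := by ring

end Pool.Agent.P.MP_7ede32_ag.Full
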