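import Pool.Agent.P.MP_7ede32_ag.Full.StA

/-!
Regularity in finite extensions, and integrality of norms.
-/

open scoped IntermediateField

noncomputable section

namespace Pool.Agent.P.MP_7ede32_ag.Full

namespace RegUp

/-- a valuation ring that contains a subfield over which the field is algebraic is everything -/
theorem eq_top {k F : Type} [Field k] [Field F] [Algebra k F] (K : IntermediateField k F)
    (h : Algebra.IsAlgebraic K F) (O : ValuationSubring F) (hK : ∀ z ∈ K, z ∈ O) : O = ⊤ := by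
  refine eq_top_iff.2 fun u _ => ?_
  have h1 : IsIntegral K u := (h.isAlgebraic u).isIntegral
  have h2 : IsIntegral O u := h1.map_of_comp_eq
    ((algebraMap K F).codRestrict O.toSubring fun z => hK z z.2) (RingHom.id F) (by ext; rfl)
  obtain ⟨y, rfl⟩ := IsIntegrallyClosed.isIntegral_iff.1 h2
  exact y.2

theorem integral_of {M Ω : Type} [Field M] [Field Ω] [Algebra M Ω] (s : Set M) (z : Ω)
    (h : ∀ O : ValuationSubring Ω, (∀ u ∈ s, algebraMap M Ω u ∈ O) → z ∈ O) :
    IsIntegral (Subring.closure s) z := by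
  have h1 : z ∈ (integralClosure (Subring.closure (algebraMap M Ω '' s)) Ω).toSubring := by
    rw [← iInf_valuationSubring_superset, Subring.mem_iInf]
    exact fun V => h V.1 fun u hu => V.2 ⟨u, hu, rfl⟩
  have h2 : IsIntegral (Subring.closure (algebraMap M Ω '' s)) z := h1
  rw [← RingHom.map_closure] at h2
  let e := (Subring.closure s).equivMapOfInjective (algebraMap M Ω) (algebraMap M Ω).injective
  refine h2.map_of_comp_eq (e.symm : _ →+* _) (RingHom.id Ω) ?_
  ext u
  obtain ⟨v, rfl⟩ := e.surjective u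
  simp only [RingHom.comp_apply, RingHom.coe_coe, RingEquiv.symm_apply_apply, RingHom.id_apply]
  rfl

end RegUp

theorem sRegUp (h1 : SUniq) (h2 : SDer) : SRegUp := by
  intro k F F' _ _ _ _ _ _ i x a μ hx hF hF' hreg d' hd' O' hO' hk
  obtain ⟨d, hc, hdx⟩ := h2 k F x hx hF ⟨fun _ => 0, by simp, by simp⟩ 1
  have hd : Std k d x := ⟨fun c => by rw [hc, map_zero], hdx⟩
  have hi : ∀ z, i (d.D z) = d'.D (i z) := fun z => sub_eq_zero.1 <|
    h1 k F F' (i : F →+* F') (fun z => i (d.D z) - d'.D (i z)) x hF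
      (fun a b => by simp only [d.D_add, map_add, d'.D_add]; ring)
      (fun a b => by simp only [d.D_mul, map_add, map_mul, d'.D_mul, RingHom.coe_coe]; ring)
      (fun c => by rw [hd.1, map_zero, i.commutes, hd'.1, sub_zero])
      (by rw [hdx, map_one, hd'.2, sub_self]) z
  have hO : O'.comap (i : F →+* F') ≠ ⊤ := fun h => hO' <| by
    refine RegUp.eq_top _ hF' O' fun z hz => ?_
    have : k⟮i x⟯ ≤ i.fieldRange := IntermediateField.adjoin_simple_le_iff.2 ⟨x, rfl⟩
    obtain ⟨w, rfl⟩ := this hz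
    have : w ∈ O'.comap (i : F →+* F') := h ▸ ValuationSubring.mem_top w
    exact this
  obtain ⟨y, k1, k2, k3, k4⟩ := hreg d hd _ hO fun c => by
    rw [ValuationSubring.mem_comap, RingHom.coe_coe, i.commutes]; exact hk c
  rw [ValuationSubring.mem_comap, RingHom.coe_coe] at k1 k3 k4
  refine ⟨i y, k1, ?_, ?_, ?_⟩
  · rw [← hi]; exact (map_ne_zero i).2 k2
  · rwa [map_div₀, map_pow, hi] at k3
  · rwa [map_div₀, map_pow, map_mul, hi] at k4

theorem sNorm : SNorm := by
  intro M Ω _ _ _ _ x Y hY
  have : FiniteDimensional M M⟮Y⟯ :=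
    IntermediateField.adjoin.finiteDimensional (Algebra.IsAlgebraic.isAlgebraic Y).isIntegral
  let Y' : M⟮Y⟯ := IntermediateField.AdjoinSimple.gen M Y
  have hY' : Y' ≠ 0 := fun h => hY (congrArg Subtype.val h)
  refine ⟨Module.finrank M M⟮Y⟯, Algebra.norm M Y', Module.finrank_pos,
    Algebra.norm_ne_zero_iff.2 hY', fun s hs => ?_⟩
  have key : ∀ z : M⟮Y⟯, IsIntegral (Subring.closure s) (z : Ω) →
      IsIntegral (Subring.closure s) (Algebra.norm M z) := fun z hz =>
    Algebra.isIntegral_norm M ((isIntegral_algHom_iff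
      ((IntermediateField.val M⟮Y⟯).restrictScalars (Subring.closure s)) Subtype.val_injective).1 hz)
  refine ⟨key Y' (RegUp.integral_of s _ fun O h => (hs O h).1), ?_⟩
  rw [← Algebra.norm_algebraMap (S := M⟮Y⟯), ← map_mul]
  exact key _ (RegUp.integral_of s _ fun O h => (hs O h).2)

end Pool.Agent.P.MP_7ede32_ag.Full
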