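import Pool.Agent.P.MP_7ede32_ag.Full.StB

/-!
Clearing the poles of a meromorphic function in a disc.
-/

open Filter Topology Metric Set MeromorphicOn

namespace Pool.Agent.P.MP_7ede32_ag.Full

namespace Rep

lemma an (s : Finset ℂ) (n : ℂ → ℕ) (w : ℂ) : AnalyticAt ℂ (pr s n) w := by
  unfold pr
  fun_prop

lemma ord (s : Finset ℂ) (n : ℂ → ℕ) {w : ℂ} (hw : w ∈ s) :
    ((n w : ℤ) : WithTop ℤ) ≤ meromorphicOrderAt (pr s n) w := by
  classical
  have e : pr s n = (fun z => z - w) ^ n w * pr (s.erase w) n := by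
    funext z
    simp only [pr, Pi.mul_apply, Pi.pow_apply]
    exact (Finset.mul_prod_erase s (fun α => (z - α) ^ n α) hw).symm
  rw [e, meromorphicOrderAt_mul (by fun_prop) (an _ _ _).meromorphicAt,
    meromorphicOrderAt_pow_id_sub_const]
  exact le_add_of_nonneg_right (an _ _ _).meromorphicOrderAt_nonneg

end Rep

theorem sRep : SRep := by
  intro m c ρ r hρ hm ha
  have hsub : closedBall c ρ ⊆ ball c r := closedBall_subset_ball hρ
  have hm' : MeromorphicOn m (closedBall c ρ) := fun z hz => hm z (hsub hz)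
  have key : ∀ α, meromorphicOrderAt m α < 0 → ∃ k : ℤ, k < 0 ∧ meromorphicOrderAt m α = k :=
    fun α h => by
      obtain ⟨k, hk⟩ := WithTop.ne_top_iff_exists.1 h.ne_top
      exact ⟨k, by rw [← hk] at h; exact_mod_cast h, hk.symm⟩
  have hfin : {α ∈ closedBall c ρ | meromorphicOrderAt m α < 0}.Finite := by
    refine ((divisor m (closedBall c ρ)).finiteSupport (isCompact_closedBall c ρ)).subset ?_
    rintro α ⟨h1, h2⟩
    obtain ⟨k, h3, h4⟩ := key α h2
    rw [Function.mem_support, divisor_apply hm' h1, h4]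
    exact h3.ne
  set n : ℂ → ℕ := fun α => (-(meromorphicOrderAt m α).untop₀).toNat with hn
  have hs : ∀ α ∈ hfin.toFinset, dist α c ≤ ρ ∧ meromorphicOrderAt m α = (-(n α : ℤ) : ℤ) :=
    fun α h => by
      obtain ⟨h1, h2⟩ := hfin.mem_toFinset.1 h
      obtain ⟨k, h3, h4⟩ := key α h2
      refine ⟨h1, ?_⟩
      simp only [hn, h4, WithTop.untop₀_coe]
      congr 1
      omega
  have hf : MeromorphicOn (m * pr hfin.toFinset n) (ball c r) := fun z hz =>
    (hm z hz).mul (Rep.an _ _ z).meromorphicAt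
  refine ⟨hfin.toFinset, n, toMeromorphicNFOn (m * pr hfin.toFinset n) (ball c r), hs,
    fun w hw => ?_, fun w hw h => ?_⟩
  · refine AnalyticAt.differentiableWithinAt ?_
    rw [← (meromorphicNFOn_toMeromorphicNFOn _ _ hw).meromorphicOrderAt_nonneg_iff_analyticAt,
      meromorphicOrderAt_toMeromorphicNFOn hf hw,
      meromorphicOrderAt_mul (hm w hw) (Rep.an _ _ w).meromorphicAt]
    by_cases h : w ∈ hfin.toFinset
    · rw [(hs w h).2]
      refine le_trans ?_ (add_le_add le_rfl (Rep.ord _ n h))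
      rw [← WithTop.coe_add, neg_add_cancel]
      rfl
    · refine add_nonneg ?_ (Rep.an _ _ w).meromorphicOrderAt_nonneg
      rcases le_or_gt (dist w c) ρ with h1 | h1
      · exact not_lt.1 fun h2 => h (hfin.mem_toFinset.2 ⟨h1, h2⟩)
      · exact (ha w hw h1).meromorphicOrderAt_nonneg
  · rw [toMeromorphicNFOn_eq_toMeromorphicNFAt hf hw,
      toMeromorphicNFAt_eq_self.2 ((ha w hw h).mul (Rep.an _ _ w)).meromorphicNFAt]
    rfl

end Pool.Agent.P.MP_7ede32_ag.Full
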