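import Pool.Agent.P.MP_7ede32_ag.Full.StA

/-!
A nontrivial rotation that fixes a germ of order at least two.
-/

noncomputable section

namespace Pool.Agent.P.MP_7ede32_ag.Full

open Filter Topology

theorem sRot : SRot := by
  intro f e he hf
  obtain ⟨n, rfl⟩ : ∃ n : ℕ, e = n := ⟨e.toNat, by omega⟩
  have hn : 2 ≤ n := by exact_mod_cast he
  have hn0 : (n : ℂ) ≠ 0 := by exact_mod_cast (by omega : n ≠ 0)
  obtain ⟨u, hu, hu0, hfu⟩ := (meromorphicOrderAt_eq_int_iff f.mer_rep).1 hf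
  obtain ⟨v, hv⟩ : ∃ v : ℂ → ℂ, v = fun z => Complex.exp (Complex.log (u z / u 0) / n) := ⟨_, rfl⟩
  have hva : AnalyticAt ℂ v 0 := by
    rw [hv]
    refine AnalyticAt.cexp' (AnalyticAt.div_const ?_)
    refine AnalyticAt.clog (f := fun z => u z / u 0) hu.div_const ?_
    simp [div_self hu0]
  have hv0 : v 0 = 1 := by simp [hv, div_self hu0]
  have hvne : ∀ z, v z ≠ 0 := fun z => by rw [hv]; exact Complex.exp_ne_zero _
  have hvn : ∀ z, u z ≠ 0 → u 0 * v z ^ n = u z := fun z hz => by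
    rw [hv]
    simp only
    rw [← Complex.exp_nat_mul, mul_div_cancel₀ _ hn0, Complex.exp_log (div_ne_zero hz hu0)]
    field_simp
  obtain ⟨g, hg⟩ : ∃ g : ℂ → ℂ, g = fun z => z * v z := ⟨_, rfl⟩
  have hga : AnalyticAt ℂ g 0 := by rw [hg]; exact analyticAt_id.mul hva
  have hg0 : g 0 = 0 := by simp [hg]
  have hgd : HasDerivAt g 1 0 := by
    have := (hasDerivAt_id' (0 : ℂ)).fun_mul hva.differentiableAt.hasDerivAt
    rw [hv0, zero_mul, add_zero, one_mul] at this
    rw [hg]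
    exact this
  have hd : deriv g 0 ≠ 0 := by rw [hgd.deriv]; exact one_ne_zero
  have hfg : ∀ᶠ z in 𝓝[≠] (0 : ℂ), f.rep z = u 0 * g z ^ n := by
    filter_upwards [hfu, (hu.continuousAt.eventually_ne hu0).filter_mono nhdsWithin_le_nhds]
      with z h1 h2
    rw [h1, ← hvn z h2, hg]
    simp [mul_pow]
    ring
  obtain ⟨r, hr⟩ : ∃ r, r = hga.hasStrictDerivAt.localInverse _ _ _ hd := ⟨_, rfl⟩
  have hra : AnalyticAt ℂ r 0 := by
    have := hga.analyticAt_localInverse hd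
    rwa [hg0, ← hr] at this
  have hr0 : r 0 = 0 := by
    have : r (g 0) = 0 := by rw [hr]; exact HasStrictFDerivAt.localInverse_apply_image ..
    rwa [hg0] at this
  have hrd : HasDerivAt r 1 0 := by
    have := (hga.hasStrictDerivAt.to_localInverse hd).hasDerivAt
    rwa [hg0, ← hr, hgd.deriv, inv_one] at this
  have hri : ∀ᶠ z in 𝓝 (0 : ℂ), g (r z) = z := by
    have := hga.hasStrictDerivAt.eventually_right_inverse hd
    rwa [hg0, ← hr] at this
  have hζ := Complex.isPrimitiveRoot_exp n (by omega)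
  obtain ⟨ζ, hζ'⟩ : ∃ ζ, ζ = Complex.exp (2 * Real.pi * Complex.I / n) := ⟨_, rfl⟩
  rw [← hζ'] at hζ
  have hζ0 : ζ ≠ 0 := hζ.ne_zero (by omega)
  have hζ1 : ζ ≠ 1 := hζ.ne_one (by omega)
  have ha : AnalyticAt ℂ (fun z => ζ * g z) 0 := analyticAt_const.mul hga
  have hRa : AnalyticAt ℂ (r ∘ fun z => ζ * g z) 0 := hra.comp_of_eq ha (by simp [hg0])
  have hR0 : (r ∘ fun z => ζ * g z) 0 = 0 := by simp [hg0, hr0]
  have hRd : deriv (r ∘ fun z => ζ * g z) 0 = ζ := by
    have h1 : HasDerivAt r 1 ((fun z => ζ * g z) 0) := by simpa [hg0] using hrd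
    have := h1.comp 0 (hgd.const_mul ζ)
    simpa using this.deriv
  have hgR : ∀ᶠ z in 𝓝 (0 : ℂ), g (r (ζ * g z)) = ζ * g z := by
    have h1 : Tendsto (fun z => ζ * g z) (𝓝 0) (𝓝 0) := by
      simpa [hg0] using ha.continuousAt.tendsto
    exact h1.eventually hri
  have hT : Tendsto (r ∘ fun z => ζ * g z) (𝓝[≠] 0) (𝓝[≠] 0) := by
    refine tendsto_nhdsWithin_iff.2 ⟨?_, ?_⟩
    · have := hRa.continuousAt.tendsto
      rw [hR0] at this
      exact this.mono_left nhdsWithin_le_nhds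
    · filter_upwards [hgR.filter_mono nhdsWithin_le_nhds, self_mem_nhdsWithin] with z h1 h2 h3
      have h4 : r (ζ * g z) = 0 := h3
      rw [h4, hg0, hg] at h1
      exact mul_ne_zero hζ0 (mul_ne_zero h2 (hvne z)) h1.symm
  refine ⟨_, hRa, hR0, by rwa [hRd], by rwa [hRd], ?_⟩
  filter_upwards [hT.eventually hfg, hfg, hgR.filter_mono nhdsWithin_le_nhds] with z h1 h2 h3
  rw [Function.comp_apply, h1, h2, Function.comp_apply, h3, mul_pow, hζ.pow_eq_one, one_mul]

end Pool.Agent.P.MP_7ede32_ag.Full
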