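import Pool.Agent.P.MP_7ede32_ag.Full.StB

/-!
Wiman-Valiron discs with an inverse branch exist.
-/

open Filter Topology Metric Set

noncomputable section

namespace Pool.Agent.P.MP_7ede32_ag.Full

namespace Wv

lemma max_sphere {F : Type*} [NormedAddCommGroup F] [NormedSpace ℂ F] {f : ℂ → F} {z : ℂ}
    {ρ m : ℝ} (hρ : 0 < ρ) (hd : ∀ ζ ∈ closedBall z ρ, DifferentiableAt ℂ f ζ)
    (hm : ∀ ζ ∈ sphere z ρ, ‖f ζ‖ ≤ m) {w : ℂ} (hw : w ∈ closedBall z ρ) : ‖f w‖ ≤ m := by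
  refine Complex.norm_le_of_forall_mem_frontier_norm_le (U := ball z ρ) isBounded_ball
    (DifferentiableOn.diffContOnCl ?_) (by rwa [frontier_ball z hρ.ne']) ?_
  · rw [closure_ball z hρ.ne']
    exact fun ζ hζ => (hd ζ hζ).differentiableWithinAt
  · rwa [closure_ball z hρ.ne']

lemma exists_sphere_ge {φ : ℂ → ℂ} (hφ : Differentiable ℂ φ) (h0 : φ 0 = 0) {w : ℂ} {ρ : ℝ}
    (hρ : 0 < ρ) (hw : ‖w‖ ≤ ρ) : ∃ z, ‖z‖ = ρ ∧ ‖φ w‖ * ρ ≤ ‖φ z‖ * ‖w‖ := by
  have hg : Differentiable ℂ (dslope φ 0) := differentiableOn_univ.1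
    ((Complex.differentiableOn_dslope univ_mem).2 hφ.differentiableOn)
  have hz : ∀ z, ‖φ z‖ = ‖z‖ * ‖dslope φ 0 z‖ := fun z => by
    have := sub_smul_dslope φ 0 z
    rw [h0, sub_zero, sub_zero] at this
    rw [← this, norm_smul]
  obtain ⟨z, hz1, hz2⟩ := (isCompact_sphere (0 : ℂ) ρ).exists_isMaxOn
    (NormedSpace.sphere_nonempty.2 hρ.le) hg.continuous.norm.continuousOn
  have h1 := max_sphere hρ (fun ζ _ => hg ζ) hz2 (w := w) (by simpa using hw)
  have h2 : ‖z‖ = ρ := by simpa using hz1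
  refine ⟨z, h2, ?_⟩
  rw [hz w, hz z, h2]
  calc _ ≤ ‖w‖ * ‖dslope φ 0 z‖ * ρ := by gcongr
    _ = _ := by ring

lemma inv_sq_le {u x : ℝ} (hu : 0 < u) (hx : |x| ≤ u / 2) :
    1 / (u - x) ^ 2 ≤ 1 / u ^ 2 + 2 * x / u ^ 3 + 12 * x ^ 2 / u ^ 4 := by
  obtain ⟨h1, h2⟩ := abs_le.1 hx
  have h3 : 0 < u - x := by linarith
  rw [div_le_iff₀ (by positivity), ← sub_nonneg]
  have : (1 / u ^ 2 + 2 * x / u ^ 3 + 12 * x ^ 2 / u ^ 4) * (u - x) ^ 2 - 1 =
      x ^ 2 * (9 * u ^ 2 - 22 * u * x + 12 * x ^ 2) / u ^ 4 := by field_simp; ring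
  rw [this]
  have h4 : 0 ≤ 9 * u ^ 2 - 22 * u * x + 12 * x ^ 2 := by nlinarith
  positivity

lemma wv {φ : ℂ → ℂ} (hφ : Differentiable ℂ φ) (h0 : φ 0 = 0) {zs : ℂ} (hne : φ zs ≠ 0)
    {A r₀ : ℝ} (hA : 0 < A) (hr₀ : 0 < r₀) :
    ∃ (z₁ : ℂ) (y : ℝ), 1 ≤ y ∧ r₀ ≤ ‖z₁‖ ∧ r₀ ≤ ‖φ z₁‖ ∧ ∀ z, z ≠ 0 →
      |Real.log ‖z‖ - Real.log ‖z₁‖| ≤ A / y ^ 2 →
      ‖φ z‖ ≤ ‖φ z₁‖ * Real.exp (y ^ 3 * (Real.log ‖z‖ - Real.log ‖z₁‖) + 1) := by
  have hzs : 0 < ‖zs‖ := norm_pos_iff.2 fun h => hne (h ▸ h0)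
  have hφs : 0 < ‖φ zs‖ := norm_pos_iff.2 hne
  set q := 6 * A ^ 2 + 2 * A with hq
  have hq0 : 0 < q := by positivity
  set r₁ := r₀ + ‖zs‖ + r₀ * ‖zs‖ / ‖φ zs‖ with hr₁
  have h1 : 0 < r₀ * ‖zs‖ / ‖φ zs‖ := by positivity
  have hr₁0 : 0 < r₁ := by positivity
  set T := Real.log r₁ + 2 * q with hT
  let F : ℂ → ℝ := fun z => ‖φ z‖ * expNegInvGlue (2 * (T - Real.log ‖z‖) ^ 2 / q ^ 3)
  let K := closedBall (0 : ℂ) (Real.exp T) \ ball 0 r₁
  have hK : ∀ z, z ∈ K ↔ z ≠ 0 ∧ Real.log r₁ ≤ Real.log ‖z‖ ∧ Real.log ‖z‖ ≤ T := by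
    intro z
    simp only [K, Set.mem_sdiff, mem_closedBall, mem_ball, dist_zero_right, not_lt]
    constructor
    · rintro ⟨a1, a2⟩
      have a3 : 0 < ‖z‖ := hr₁0.trans_le a2
      exact ⟨norm_pos_iff.1 a3, Real.log_le_log hr₁0 a2, (Real.log_le_iff_le_exp a3).2 a1⟩
    · rintro ⟨a1, a2, a3⟩
      have a4 : 0 < ‖z‖ := norm_pos_iff.2 a1
      exact ⟨(Real.log_le_iff_le_exp a4).1 a3, (Real.log_le_log_iff hr₁0 a4).1 a2⟩
  have hFc : ContinuousOn F K := by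
    refine hφ.continuous.norm.continuousOn.mul ((expNegInvGlue.contDiff (n := 0)).continuous.comp_continuousOn ?_)
    exact ((continuousOn_const.mul ((continuousOn_const.sub (continuous_norm.continuousOn.log
      fun z hz => norm_ne_zero_iff.2 ((hK z).1 hz).1)).pow 2)).div_const _)
  have hbig : ∀ ρ, r₁ ≤ ρ → ∃ z, ‖z‖ = ρ ∧ r₀ ≤ ‖φ z‖ := by
    intro ρ hρ
    obtain ⟨z, a1, a2⟩ := exists_sphere_ge hφ h0 (hr₁0.trans_le hρ) (w := zs) (by linarith)
    refine ⟨z, a1, le_of_mul_le_mul_right (le_trans ?_ a2) hzs⟩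
    have : r₀ * ‖zs‖ / ‖φ zs‖ ≤ ρ := by linarith
    rwa [div_le_iff₀ hφs, mul_comm ρ] at this
  obtain ⟨z₂, a1, a2⟩ := hbig r₁ le_rfl
  have hz₂ : z₂ ∈ K := (hK z₂).2 ⟨norm_pos_iff.1 (a1 ▸ hr₁0), by rw [a1], by rw [a1]; linarith⟩
  obtain ⟨z₁, hz₁, hmax⟩ := ((isCompact_closedBall _ _).diff isOpen_ball).exists_isMaxOn
    ⟨z₂, hz₂⟩ hFc
  have hF1 : 0 < F z₁ := by
    refine lt_of_lt_of_le ?_ (hmax hz₂)
    refine mul_pos (hr₀.trans_le a2) (expNegInvGlue.pos_of_pos ?_)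
    rw [a1, hT, add_sub_cancel_left]; positivity
  obtain ⟨b1, b2, b3⟩ := (hK z₁).1 hz₁
  set t := Real.log ‖z₁‖ with ht
  have hu : 0 < T - t := by
    refine lt_of_le_of_ne (by linarith) fun h => ?_
    simp only [F, ← ht, ← h] at hF1
    simp at hF1
  set u := T - t with hu'
  set y := q / u with hy
  have hy0 : 0 < y := by positivity
  have hF : ∀ z, Real.log ‖z‖ < T →
      F z = ‖φ z‖ * Real.exp (-(q ^ 3 / 2 * (1 / (T - Real.log ‖z‖) ^ 2))) := by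
    intro z hz
    have : 0 < T - Real.log ‖z‖ := by linarith
    simp only [F, expNegInvGlue]
    rw [if_neg (not_le.2 (by positivity))]
    congr 3
    field_simp
  have KI : ∀ z, z ≠ 0 → |Real.log ‖z‖ - t| ≤ u / 2 → Real.log r₁ ≤ Real.log ‖z‖ →
      ‖φ z‖ ≤ ‖φ z₁‖ * Real.exp (y ^ 3 * (Real.log ‖z‖ - t) +
        6 * y ^ 4 * (Real.log ‖z‖ - t) ^ 2 / q) := by
    intro z c1 c2 c3
    set x := Real.log ‖z‖ - t with hx
    have c4 : Real.log ‖z‖ < T := by linarith [le_abs_self x]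
    have c5 : F z ≤ F z₁ := hmax ((hK z).2 ⟨c1, c3, c4.le⟩)
    rw [hF z c4, hF z₁ (by linarith), show T - Real.log ‖z‖ = u - x by linarith, ← ht, ← hu',
      Real.exp_neg, ← div_eq_mul_inv, div_le_iff₀ (Real.exp_pos _), mul_assoc,
      ← Real.exp_add] at c5
    refine c5.trans (mul_le_mul_of_nonneg_left (Real.exp_le_exp.2 ?_) (norm_nonneg _))
    have c6 := inv_sq_le hu c2
    have c7 : y ^ 3 * x + 6 * y ^ 4 * x ^ 2 / q =
        q ^ 3 / 2 * (2 * x / u ^ 3 + 12 * x ^ 2 / u ^ 4) := by rw [hy]; field_simp; ring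
    rw [c7]
    have : 0 < q ^ 3 / 2 := by positivity
    nlinarith
  have hφ1 : 0 < ‖φ z₁‖ := (norm_nonneg _).lt_of_ne' fun h => by simp [F, h] at hF1
  have hn1 : 0 < ‖z₁‖ := norm_pos_iff.2 b1
  have hy1 : 1 ≤ y := by
    by_contra hcon
    have c1 : y ^ 3 < 1 := pow_lt_one₀ hy0.le (not_le.1 hcon) (by norm_num)
    set x := min (u / 2) ((1 - y ^ 3) * q / (12 * y ^ 4)) with hx
    have hx0 : 0 < x := lt_min (by positivity) (div_pos (mul_pos (by linarith) hq0) (by positivity))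
    obtain ⟨z, c2, c3⟩ := exists_sphere_ge hφ h0 (w := z₁) (ρ := ‖z₁‖ * Real.exp x)
      (by positivity) (le_mul_of_one_le_right hn1.le (Real.one_le_exp hx0.le))
    have c4 : Real.log ‖z‖ - t = x := by
      rw [c2, Real.log_mul hn1.ne' (Real.exp_pos _).ne', Real.log_exp]; ring
    have c5 := KI z (norm_pos_iff.1 (c2 ▸ by positivity))
      (by rw [c4, abs_of_pos hx0]; exact min_le_left _ _) (by linarith)
    rw [c4] at c5
    have c6 : ‖φ z₁‖ * Real.exp x ≤ ‖φ z‖ := by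
      refine le_of_mul_le_mul_right ?_ hn1
      linarith
    have c7 := Real.exp_le_exp.1 (le_of_mul_le_mul_left (c6.trans c5) hφ1)
    have c8 : 6 * y ^ 4 * x / q ≤ (1 - y ^ 3) / 2 := by
      have : x ≤ (1 - y ^ 3) * q / (12 * y ^ 4) := min_le_right _ _
      rw [le_div_iff₀ (by positivity)] at this
      rw [div_le_iff₀ hq0]; linarith
    have c9 : 6 * y ^ 4 * x ^ 2 / q = 6 * y ^ 4 * x / q * x := by ring
    nlinarith
  have huq : u ≤ q := by rwa [hy, le_div_iff₀ hu, one_mul] at hy1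
  have hr1 : r₁ ≤ ‖z₁‖ := (Real.log_le_log_iff hr₁0 hn1).1 b2
  refine ⟨z₁, y, hy1, by linarith, ?_, fun z c1 c2 => ?_⟩
  · obtain ⟨z, c1, c2⟩ := hbig _ hr1
    have := KI z (norm_pos_iff.1 (c1 ▸ hn1)) (by rw [c1, ← ht]; simp; positivity) (by rwa [c1])
    rw [c1, ← ht] at this
    simpa using c2.trans this
  · have c3 : A / y ^ 2 ≤ u / 2 := by
      have c4 : q = y * u := by rw [hy]; field_simp
      rw [div_le_div_iff₀ (by positivity) (by norm_num)]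
      nlinarith [mul_pos hy0 hu]
    refine (KI z c1 (c2.trans c3) (by linarith [neg_abs_le (Real.log ‖z‖ - t)])).trans ?_
    gcongr
    have c4 : (Real.log ‖z‖ - t) ^ 2 ≤ (A / y ^ 2) ^ 2 := by
      rw [← sq_abs]; gcongr
    rw [div_le_one hq0]
    calc _ ≤ 6 * y ^ 4 * (A / y ^ 2) ^ 2 := by gcongr
      _ = 6 * A ^ 2 := by field_simp
      _ ≤ q := by linarith

lemma lip_of_deriv {f : ℂ → ℂ} {z k : ℂ} {t c : ℝ} (hd : ∀ ζ ∈ ball z t, DifferentiableAt ℂ f ζ)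
    (hb : ∀ ζ ∈ ball z t, ‖deriv f ζ - k‖ ≤ c) {u v : ℂ} (hu : u ∈ ball z t) (hv : v ∈ ball z t) :
    ‖f u - f v - k * (u - v)‖ ≤ c * ‖u - v‖ := by
  have := (convex_ball z t).norm_image_sub_le_of_norm_deriv_le (f := fun ζ => f ζ - k * ζ) (C := c)
    (fun ζ hζ => (hd ζ hζ).sub (by fun_prop)) (fun ζ hζ => by
      have h : HasDerivAt (fun ζ => f ζ - k * ζ) (deriv f ζ - k * 1) ζ :=
        (hd ζ hζ).hasDerivAt.sub ((hasDerivAt_id ζ).const_mul k)
      rw [h.deriv, mul_one]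
      exact hb ζ hζ) hv hu
  rwa [show f u - f v - k * (u - v) = f u - k * u - (f v - k * v) by ring]

lemma inv_branch {φ : ℂ → ℂ} (hφ : Differentiable ℂ φ) {z₁ : ℂ} (hz₁ : z₁ ≠ 0) (hw₁ : φ z₁ ≠ 0)
    {a K : ℝ} (ha : 1 ≤ a) (hK : 512 ≤ K)
    (hb : ∀ ζ : ℂ, ‖ζ‖ ≤ K → ‖φ (z₁ * Complex.exp (ζ / a))‖ ≤ ‖φ z₁‖ * Real.exp (ζ.re + 1)) :
    ∃ Ψ : ℂ → ℂ, (∀ w, 1 / 4 ≤ (w / φ z₁).re → ‖w / φ z₁‖ ≤ Real.exp (K / 128) →
      DifferentiableAt ℂ Ψ w ∧ φ (Ψ w) = w) ∧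
      (∀ z, ‖z - z₁‖ ≤ ‖z₁‖ / a / 20 → Ψ (φ z) = z ∧ ‖φ z / φ z₁ - 1‖ ≤ 1 / 4) ∧
      ∀ w, ‖w / φ z₁ - 1‖ ≤ 1 / 200 → ‖Ψ w - z₁‖ ≤ ‖z₁‖ / a / 30 := by
  have ha0 : (a : ℂ) ≠ 0 := by exact_mod_cast (by linarith : a ≠ 0)
  let F : ℂ → ℂ := fun ζ => φ (z₁ * Complex.exp (ζ / a)) * Complex.exp (-ζ) / φ z₁
  have hFd : Differentiable ℂ F := by fun_prop
  have hF0 : F 0 = 1 := by simp [F, hw₁]
  have hF1 : ∀ ζ ∈ ball (0 : ℂ) (K / 8), ‖F ζ - 1‖ ≤ 1 / 2 := by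
    intro ζ hζ
    have h1 := Complex.dist_le_div_mul_dist_of_mapsTo_ball (R₁ := K) (R₂ := 4) (c := 0)
      hFd.differentiableOn (fun u hu => by
        rw [mem_closedBall, dist_eq_norm, hF0]
        have h2 : ‖F u‖ ≤ Real.exp 1 := by
          simp only [F]
          rw [norm_div, div_le_iff₀ (norm_pos_iff.2 hw₁), norm_mul, Complex.norm_exp]
          calc _ ≤ ‖φ z₁‖ * Real.exp (u.re + 1) * Real.exp (-u).re := by
                gcongr; exact hb u (mem_ball_zero_iff.1 hu).le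
            _ = _ := by rw [mul_assoc, ← Real.exp_add, mul_comm]; simp
        linarith [norm_sub_le (F u) 1, Real.exp_one_lt_three, norm_one (α := ℂ)])
      (ball_subset_ball (by linarith) hζ)
    rw [hF0, dist_eq_norm, dist_zero_right] at h1
    refine h1.trans ?_
    rw [div_mul_eq_mul_div, div_le_iff₀ (by linarith)]
    linarith [mem_ball_zero_iff.1 hζ]
  have hslit : ∀ ζ ∈ ball (0 : ℂ) (K / 8), F ζ ∈ Complex.slitPlane := fun ζ hζ => by
    simpa using Complex.mem_slitPlane_of_norm_lt_one ((hF1 ζ hζ).trans_lt (by norm_num))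
  let G : ℂ → ℂ := fun ζ => Complex.log (F ζ)
  have hGd : ∀ ζ ∈ ball (0 : ℂ) (K / 8), DifferentiableAt ℂ G ζ := fun ζ hζ =>
    (hFd ζ).clog (hslit ζ hζ)
  have hGb : ∀ ζ ∈ ball (0 : ℂ) (K / 8), ‖G ζ‖ ≤ 3 / 4 := fun ζ hζ => by
    have := Complex.norm_log_one_add_half_le_self (hF1 ζ hζ)
    rw [add_sub_cancel] at this
    linarith [hF1 ζ hζ]
  have hsub : ball (0 : ℂ) (K / 16) ⊆ ball 0 (K / 8) := ball_subset_ball (by linarith)
  have hG' : ∀ ζ ∈ ball (0 : ℂ) (K / 16), ‖deriv G ζ‖ ≤ 1 / 2 := by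
    intro ζ hζ
    have h1 : ball ζ (K / 16) ⊆ ball 0 (K / 8) := ball_subset_ball' (by
      linarith [mem_ball.1 hζ])
    refine (Complex.norm_deriv_le_div_of_mapsTo_ball (R₁ := K / 16) (R₂ := 3 / 2)
      (fun u hu => (hGd u (h1 hu)).differentiableWithinAt) (fun u hu => ?_) (by linarith)).trans ?_
    · rw [mem_closedBall, dist_eq_norm]
      linarith [norm_sub_le (G u) (G ζ), hGb u (h1 hu), hGb ζ (hsub hζ)]
    · rw [div_le_iff₀ (by linarith)]; linarith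
  let ψ : ℂ → ℂ := fun ζ => ζ + G ζ
  have hψd : ∀ ζ ∈ ball (0 : ℂ) (K / 16), HasDerivAt ψ (1 + deriv G ζ) ζ := fun ζ hζ =>
    (hasDerivAt_id ζ).add (hGd ζ (hsub hζ)).hasDerivAt
  have hap : ApproximatesLinearOn ψ ((ContinuousLinearEquiv.refl ℂ ℂ : ℂ ≃L[ℂ] ℂ) : ℂ →L[ℂ] ℂ)
      (ball 0 (K / 16)) (1 / 2) := by
    intro u hu v hv
    simpa using lip_of_deriv (k := 1) (c := 1 / 2) (fun ζ hζ => (hψd ζ hζ).differentiableAt)
      (fun ζ hζ => by rw [(hψd ζ hζ).deriv, add_sub_cancel_left]; exact hG' ζ hζ) hu hv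
  have hc : Subsingleton ℂ ∨ (1 / 2 : NNReal) <
      ‖((ContinuousLinearEquiv.refl ℂ ℂ).symm : ℂ →L[ℂ] ℂ)‖₊⁻¹ := Or.inr (by simp; norm_num)
  let e := hap.toOpenPartialHomeomorph ψ _ hc isOpen_ball
  have hψ0 : ψ 0 = 0 := by simp [ψ, G, hF0]
  have htar : closedBall (0 : ℂ) (K / 64) ⊆ e.target := by
    have := hap.closedBall_subset_target hc isOpen_ball (b := 0) (ε := K / 32) (by linarith)
      (closedBall_subset_ball (by linarith))
    rw [hψ0] at this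
    refine Subset.trans (closedBall_subset_closedBall (le_of_eq ?_)) this
    simp; ring
  have hexp : ∀ ζ ∈ ball (0 : ℂ) (K / 8),
      φ (z₁ * Complex.exp (ζ / a)) = φ z₁ * Complex.exp (ψ ζ) := fun ζ hζ => by
    simp only [ψ, G]
    rw [Complex.exp_add, Complex.exp_log (Complex.slitPlane_ne_zero (hslit ζ hζ))]
    simp only [F, Complex.exp_neg]
    field_simp
  refine ⟨fun w => z₁ * Complex.exp (e.symm (Complex.log (w / φ z₁)) / a), fun w h1 h2 => ?_,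
    fun z hz => ?_, fun w hw => ?_⟩
  · have h3 : w / φ z₁ ∈ Complex.slitPlane := Or.inl (by linarith)
    have h4 : Complex.log (w / φ z₁) ∈ e.target := by
      apply htar
      rw [mem_closedBall_zero_iff]
      refine (Complex.norm_le_abs_re_add_abs_im _).trans ?_
      rw [Complex.log_re, Complex.log_im]
      have h5 : |(w / φ z₁).arg| ≤ Real.pi / 2 := Complex.abs_arg_le_pi_div_two_iff.2 (by linarith)
      have h6 : 1 / 4 ≤ ‖w / φ z₁‖ := h1.trans (Complex.re_le_norm _)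
      have h7 : Real.log ‖w / φ z₁‖ ≤ K / 128 := (Real.log_le_iff_le_exp (by linarith)).2 h2
      have h8 : -3 ≤ Real.log ‖w / φ z₁‖ := by
        rw [Real.le_log_iff_exp_le (by linarith), Real.exp_neg]
        refine le_trans ?_ h6
        rw [one_div]
        gcongr
        linarith [Real.add_one_le_exp (3 : ℝ)]
      have h9 : |Real.log ‖w / φ z₁‖| ≤ K / 128 := abs_le.2 ⟨by linarith, h7⟩
      linarith [Real.pi_le_four]
    have h5 : e.symm (Complex.log (w / φ z₁)) ∈ ball (0 : ℂ) (K / 16) := e.map_target h4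
    have h6 : DifferentiableAt ℂ e.symm (Complex.log (w / φ z₁)) :=
      (e.hasDerivAt_symm h4 (fun h => by
        have := hG' _ h5
        rw [eq_neg_of_add_eq_zero_right h] at this
        norm_num at this) (hψd _ h5)).differentiableAt
    refine ⟨?_, ?_⟩
    · have h7 : DifferentiableAt ℂ (fun w => e.symm (Complex.log (w / φ z₁))) w :=
        h6.comp w ((differentiableAt_id.div_const _).clog h3)
      exact (h7.div_const _).cexp.const_mul _
    · have h7 : ψ (e.symm (Complex.log (w / φ z₁))) = Complex.log (w / φ z₁) := e.right_inv h4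
      rw [hexp _ (hsub h5), h7, Complex.exp_log (Complex.slitPlane_ne_zero h3)]
      field_simp
  · have hn : 0 < ‖z₁‖ := norm_pos_iff.2 hz₁
    have h1 : ‖z / z₁ - 1‖ ≤ 1 / a / 20 := by
      rw [div_sub_one hz₁, norm_div, div_le_iff₀ hn]
      refine hz.trans_eq (by ring)
    have h1' : 1 / a ≤ 1 := by rw [div_le_one (by linarith)]; exact ha
    have h2 := Complex.norm_log_one_add_half_le_self (h1.trans (by linarith))
    rw [add_sub_cancel] at h2
    have h3 : z / z₁ ≠ 0 := fun h => by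
      rw [h, zero_sub, norm_neg, norm_one] at h1; linarith
    set ζ := (a : ℂ) * Complex.log (z / z₁) with hζ
    have h4 : ‖ζ‖ ≤ 3 / 40 := by
      rw [hζ, norm_mul, Complex.norm_real, Real.norm_of_nonneg (by linarith)]
      calc _ ≤ a * (3 / 2 * (1 / a / 20)) := by gcongr; exact h2.trans (by gcongr)
        _ = _ := by field_simp; norm_num
    have h5 : z₁ * Complex.exp (ζ / a) = z := by
      rw [hζ, mul_div_cancel_left₀ _ ha0, Complex.exp_log h3]; field_simp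
    have h6 : ζ ∈ ball (0 : ℂ) (K / 16) := mem_ball_zero_iff.2 (by linarith)
    have h7 : ‖ψ ζ‖ ≤ 9 / 80 := by
      have := hap ζ h6 0 (mem_ball_self (by linarith))
      simp only [hψ0, sub_zero, ContinuousLinearEquiv.coe_refl, ContinuousLinearMap.id_apply] at this
      norm_num at this
      linarith [norm_sub_norm_le (ψ ζ) ζ]
    have h8 : φ z / φ z₁ = Complex.exp (ψ ζ) := by
      rw [← h5, hexp ζ (hsub h6)]; field_simp
    refine ⟨?_, by rw [h8]; linarith [Complex.norm_exp_sub_one_le (h7.trans (by norm_num))]⟩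
    have h9 := abs_le.1 ((Complex.abs_im_le_norm (ψ ζ)).trans h7)
    have h10 : e.symm (ψ ζ) = ζ := e.left_inv h6
    simp only
    rw [h8, Complex.log_exp (by linarith [Real.pi_gt_three]) (by linarith [Real.pi_gt_three]),
      h10, h5]
  · have h2 := Complex.norm_log_one_add_half_le_self (hw.trans (by norm_num))
    rw [add_sub_cancel] at h2
    have h4 : Complex.log (w / φ z₁) ∈ e.target :=
      htar (mem_closedBall_zero_iff.2 (by linarith))
    have h5 : e.symm (Complex.log (w / φ z₁)) ∈ ball (0 : ℂ) (K / 16) := e.map_target h4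
    have h7 : ψ (e.symm (Complex.log (w / φ z₁))) = Complex.log (w / φ z₁) := e.right_inv h4
    set ζ := e.symm (Complex.log (w / φ z₁)) with hζ
    have h6 : ‖ζ‖ ≤ 3 / 200 := by
      have := hap ζ h5 0 (mem_ball_self (by linarith))
      simp only [hψ0, sub_zero, ContinuousLinearEquiv.coe_refl, ContinuousLinearMap.id_apply] at this
      norm_num at this
      rw [h7, norm_sub_rev] at this
      linarith [norm_sub_norm_le ζ (Complex.log (w / φ z₁))]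
    have ha' : 0 < a := by linarith
    have h8 : ‖ζ / a‖ ≤ 3 / 200 / a := by
      rw [norm_div, Complex.norm_real, Real.norm_of_nonneg ha'.le]; gcongr
    have h9 : 3 / 200 / a ≤ 1 := by rw [div_le_one ha']; linarith
    have h10 := Complex.norm_exp_sub_one_le (h8.trans h9)
    show ‖z₁ * Complex.exp (ζ / a) - z₁‖ ≤ _
    rw [← mul_sub_one, norm_mul]
    calc _ ≤ ‖z₁‖ * (2 * (3 / 200 / a)) := by gcongr; linarith
      _ = ‖z₁‖ / a * (3 / 100) := by ring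
      _ ≤ ‖z₁‖ / a * (1 / 30) := mul_le_mul_of_nonneg_left (by norm_num) (by positivity)
      _ = _ := by ring

end Wv

open Wv in
theorem sWv : SWv := by
  intro φ₀ hφ₀ ⟨zs, hzs₀⟩ C r₀
  let φ : ℂ → ℂ := fun z => φ₀ z - φ₀ 0
  have hφ : Differentiable ℂ φ := hφ₀.sub_const _
  have h0 : φ 0 = 0 := sub_self _
  have hzs : φ zs ≠ 0 := sub_ne_zero.2 hzs₀
  set A := 128 * (Nat.factorial 9 * |C|) + 512 with hA
  have hA' : 0 ≤ Nat.factorial 9 * |C| := by positivity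
  obtain ⟨z₁, y, hy, hr, hl, hwv⟩ := wv hφ h0 hzs (A := A) (r₀ := 1 + |r₀|) (by linarith)
    (by positivity)
  have hr₀ := le_abs_self r₀
  have hr₀' := abs_nonneg r₀
  set l := ‖φ z₁‖ with hldef
  set a := y ^ 3 with ha
  have hy0 : 0 < y := by linarith
  have ha1 : 1 ≤ a := one_le_pow₀ hy
  have hr1 : 1 ≤ ‖z₁‖ := by linarith
  have hl0 : 0 < l := by linarith
  have hz₁ : z₁ ≠ 0 := norm_pos_iff.1 (by linarith)
  have hw₁ : φ z₁ ≠ 0 := norm_pos_iff.1 hl0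
  have hAy : A * y / a = A / y ^ 2 := by rw [ha]; field_simp
  obtain ⟨Ψ, hΨ1, hΨ2, hΨ3⟩ := inv_branch hφ hz₁ hw₁ ha1 (K := A * y) (by nlinarith) fun ζ hζ => by
    have h1 : Real.log ‖z₁ * Complex.exp (ζ / a)‖ - Real.log ‖z₁‖ = ζ.re / a := by
      rw [norm_mul, Real.log_mul (norm_ne_zero_iff.2 hz₁) (by simp), Complex.norm_exp,
        Real.log_exp, Complex.div_ofReal_re]; ring
    have := hwv _ (mul_ne_zero hz₁ (Complex.exp_ne_zero (ζ / a))) (by
      rw [h1, abs_div, abs_of_pos (by linarith : 0 < a), ← hAy]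
      gcongr
      exact (Complex.abs_re_le_norm ζ).trans hζ)
    rwa [h1, mul_div_cancel₀ _ (by linarith : a ≠ 0)] at this
  have hM0 : ∀ z, ‖z‖ ≤ ‖z₁‖ * (1 + 5 / a) → ‖φ z‖ ≤ l * Real.exp 6 := fun z hz =>
    max_sphere (ρ := ‖z₁‖ * (1 + 5 / a)) (z := 0) (by positivity) (fun ζ _ => hφ ζ)
      (fun ζ hζ => by
        have h1 : ‖ζ‖ = ‖z₁‖ * (1 + 5 / a) := mem_sphere_zero_iff_norm.1 hζ
        have h2 : Real.log ‖ζ‖ - Real.log ‖z₁‖ = Real.log (1 + 5 / a) := by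
          rw [h1, Real.log_mul (norm_ne_zero_iff.2 hz₁) (by positivity)]; ring
        have h3 : Real.log (1 + 5 / a) ≤ 5 / a := by
          linarith [Real.log_le_sub_one_of_pos (show 0 < 1 + 5 / a by positivity)]
        have h4 : 0 ≤ Real.log (1 + 5 / a) :=
          Real.log_nonneg (by linarith [show 0 < 5 / a by positivity])
        refine (hwv ζ (norm_pos_iff.1 (by rw [h1]; positivity)) (by
          rw [h2, abs_of_nonneg h4, ← hAy]
          exact h3.trans (by gcongr; nlinarith))).trans ?_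
        rw [h2]
        gcongr
        rw [le_div_iff₀ (by linarith)] at h3
        linarith) (by simpa using hz)
  refine ⟨z₁, l, a, Real.exp (A * y / 128), fun w => Ψ (w - φ₀ 0),
    ⟨rfl, ha1, hM0, fun w h1 h2 => ?_, fun z hz => (hΨ2 z hz).1, fun w hw => hΨ3 _ ?_⟩,
    by linarith, by linarith, ?_⟩
  · obtain ⟨h3, h4⟩ := hΨ1 (w - φ₀ 0) h1 (by
      rw [norm_div, div_le_iff₀ hl0, mul_comm]; exact h2)
    exact ⟨h3.comp w (differentiableAt_id.sub_const _), sub_left_injective h4⟩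
  · rw [div_sub_one hw₁, norm_div, div_le_iff₀ hl0]
    have h1 : w - φ₀ 0 - φ z₁ = w - φ₀ z₁ := by simp [φ]
    rw [mem_ball, dist_eq_norm] at hw
    rw [h1]; linarith
  · refine le_trans ?_ (Real.pow_div_factorial_le_exp _ (by positivity) 9)
    rw [le_div_iff₀ (by positivity), show A * y / 128 = A / 128 * y by ring, mul_pow]
    have h1 : A / 128 ≤ (A / 128) ^ 9 := le_self_pow₀ (by linarith) (by norm_num)
    calc _ = Nat.factorial 9 * C * y ^ 9 := by rw [ha]; ring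
      _ ≤ Nat.factorial 9 * |C| * y ^ 9 := by gcongr; exact le_abs_self C
      _ ≤ _ := mul_le_mul_of_nonneg_right (le_trans (by
          rw [le_div_iff₀ (by norm_num), hA, mul_comm]
          exact le_add_of_nonneg_right (by norm_num)) h1) (by positivity)

end Pool.Agent.P.MP_7ede32_ag.Full
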