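import Pool.Agent.P.MP_7ede32_ag.Full.Uniq
import Pool.Agent.P.MP_7ede32_ag.Full.LocD
import Pool.Agent.P.MP_7ede32_ag.Full.Wr
import Pool.Agent.P.MP_7ede32_ag.Full.Sym
import Pool.Agent.P.MP_7ede32_ag.Full.InvP
import Pool.Agent.P.MP_7ede32_ag.Full.Fi
import Pool.Agent.P.MP_7ede32_ag.Full.Desc
import Pool.Agent.P.MP_7ede32_ag.Full.AlgY
import Pool.Agent.P.MP_7ede32_ag.Full.Chart
import Pool.Agent.P.MP_7ede32_ag.Full.RegUp
import Pool.Agent.P.MP_7ede32_ag.Full.CertP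
import Pool.Agent.P.MP_7ede32_ag.Full.Rot
import Pool.Agent.P.MP_7ede32_ag.Full.L2A
import Pool.Agent.P.MP_7ede32_ag.Full.Emb
import Pool.Agent.P.MP_7ede32_ag.Full.L2B
import Pool.Agent.P.MP_7ede32_ag.Full.Int
import Pool.Agent.P.MP_7ede32_ag.Full.BdP
import Pool.Agent.P.MP_7ede32_ag.Full.Hb1
import Pool.Agent.P.MP_7ede32_ag.Full.Ldl
import Pool.Agent.P.MP_7ede32_ag.Full.Hba
import Pool.Agent.P.MP_7ede32_ag.Full.Jen
import Pool.Agent.P.MP_7ede32_ag.Full.Cnt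
import Pool.Agent.P.MP_7ede32_ag.Full.Laur
import Pool.Agent.P.MP_7ede32_ag.Full.Cous
import Pool.Agent.P.MP_7ede32_ag.Full.Apx
import Pool.Agent.P.MP_7ede32_ag.Full.G4
import Pool.Agent.P.MP_7ede32_ag.Full.CapP
import Pool.Agent.P.MP_7ede32_ag.Full.Wv
import Pool.Agent.P.MP_7ede32_ag.Full.Arc
import Pool.Agent.P.MP_7ede32_ag.Full.Rep
import Pool.Agent.P.MP_7ede32_ag.Full.Pole
import Pool.Agent.P.MP_7ede32_ag.Full.DiscsP
import Pool.Agent.P.MP_7ede32_ag.Full.JMain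

/-!
Assembly of the algebraic part and of the value distribution part.
-/

namespace Pool.Agent.P.MP_7ede32_ag.Full

theorem aChart : SChart :=
  sChart (sAlgY sLoc (sSym sCut) (sInvP sLoc sCut (sWr sLoc) sUniq) (sFi sLoc)) (sDesc sLoc)

theorem aCert : SCert := sCert aChart (sRegUp sUniq sDer) sNorm sDer sUniq

theorem aL2B : SL2B := sL2B sEmb (sL2A sRot sUniq sLoc) sUniq

theorem aHba : SHba := sHba (sBd sInt) (sHb1 sInt) sLdl sBoot

theorem aApx : SApx := sApx sLaur sCous sCnt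

theorem aG4 : SG4 := sG4 aApx sQuo

theorem aCap : SCap := sCap sGrid

theorem aJMain : SJMain := sJMain aApx (sPole sGrid sRep) (sArc sGrid) sJen

end Pool.Agent.P.MP_7ede32_ag.Full
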