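import Pool.Agent.P.MP_7ede32_ag.Full.StC

/-!
Finitely many bad fibres; finitely many fibres contain entire curves.
-/

open Filter Topology Metric Set

noncomputable section

namespace Pool.Agent.P.MP_7ede32_ag.Full

open Geo
open Ell (E2 jac)

namespace Bad

variable {X : Type} [MetricSpace X] {S : Sf0 X}

open Sf0

lemma mu_congr (s : ℂ ⧸ S.Λ) {y y' : X} (h : S.π y' = S.π y) : S.mu s y' = S.mu s y := by
  unfold Sf0.mu
  rw [h]

/-- near `x` and off the fibre of `x` all points are good -/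
lemma loc (h1 : SRegLoc) (hN : Nc S) {T : Set X} (hT : Crv S T) (x : X) :
    ∀ᶠ y in 𝓝 x, S.π y ≠ S.π x → ¬ S.Crit y ∧ ∀ᶠ y' in 𝓝[≠] y, S.π y' = S.π y → y' ∉ T := by
  obtain ⟨F, hF, hF0, hFT⟩ := hT x
  obtain ⟨e, he, hx, h0⟩ := exists_chart0 (S := S) x
  have hm : S.MuOk (S.π x) x := muOk_fib rfl
  have hc : Tendsto e (𝓝 x) (𝓝 0) := h0 ▸ e.continuousAt hx
  have hs := e.open_source.mem_nhds hx
  have key := h1 (S.mu (S.π x) ∘ e.symm) (F ∘ e.symm) (h0 ▸ hm.1 e he hx) (h0 ▸ hF e he hx)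
    (by rw [← h0, Function.comp_apply, e.left_inv hx]; exact hm.eq_zero_iff.2 rfl)
    (fun h => hN x (by
      filter_upwards [hc.eventually h, hs, hm.eventually] with y a1 a2 a3
      rw [Function.comp_apply, e.left_inv a2] at a1
      exact a3.eq_zero_iff.1 a1))
    (fun h => hF0 (by
      filter_upwards [hc.eventually h, hs] with y a1 a2
      rwa [Function.comp_apply, e.left_inv a2] at a1))
  filter_upwards [hc.eventually key, hs, hm.eventually, hF.eventually,
    hFT.eventually_nhds] with y a1 a2 a3 a5 a6 a4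
  have b1 : (S.mu (S.π x) ∘ e.symm) (e y) = S.mu (S.π x) y := by simp [e.left_inv a2]
  obtain ⟨b2, b3⟩ := a1 (by rw [b1]; exact fun h => a4 (a3.eq_zero_iff.1 h))
  refine ⟨fun hcr => b2 ?_, ?_⟩
  · have b4 := hcr e he a2
    rw [← a3.D_eq a2] at b4
    exact b4
  · rw [eventually_nhdsWithin_iff]
    by_cases b5 : F y = 0
    · obtain ⟨z, -, c2, -, c3⟩ := b3 (by rw [Function.comp_apply, e.left_inv a2]; exact b5)
      rw [b1] at c2
      filter_upwards [(e.continuousAt a2).eventually c3, e.open_source.mem_nhds a2, a6]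
        with y' d1 d2 d3 d4 d5 d6
      have d7 := d1 (by rw [Function.comp_apply, e.left_inv d2]; exact d3 d6)
      rw [Function.comp_apply, e.left_inv d2, mu_congr _ d5, c2] at d7
      exact d4 (e.injOn d2 a2 d7)
    · filter_upwards [a5.continuousAt.eventually_ne b5, a6] with y' d1 d2 _ _ d3
      exact d1 (d2 d3)

end Bad

theorem sBad (h : SRegLoc) : SBad := by
  intro X _ _ S T hN hT
  obtain ⟨t, -, ht⟩ := isCompact_univ.elim_nhds_subcover
    (fun x : X => {y | S.π y ≠ S.π x → ¬ S.Crit y ∧ ∀ᶠ y' in 𝓝[≠] y, S.π y' = S.π y → y' ∉ T})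
    fun x _ => Bad.loc h hN hT x
  refine ⟨S.π '' t, t.finite_toSet.image _, fun y hy => ?_⟩
  obtain ⟨x, a1, a2⟩ := mem_iUnion₂.1 (ht (mem_univ y))
  exact a2 fun h => hy ⟨x, a1, h.symm⟩

theorem sHf (h1 : SBad) (h2 : SHf1) (h3 : SHf2) : SHf := by
  intro X _ _ S L M hN
  obtain ⟨B, hB, hg⟩ := h1 X S M.Z hN M.crv_Z
  refine hB.subset ?_
  rintro s ⟨h, a1, a2, a3⟩
  by_contra hs
  obtain ⟨g, b1, b2, b3, b4⟩ := h2 X S s h a1 a2 a3
  rcases h3 X S L M s g (fun p hp => (hg p (by rwa [hp])).1) b1 b2 b3 with b5 | b5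
  · exact b4 b5
  · have c1 := (hg (g 0) (by rwa [b3])).2
    rw [eventually_nhdsWithin_iff] at c1
    have c2 : ∀ᶠ z in 𝓝 (0 : ℂ), g z = g 0 := by
      filter_upwards [(b1 0).1.eventually c1] with z d1
      by_contra d2
      exact d1 d2 (by rw [b3, b3]) (b5 z)
    have c3 := b1.eq_of_eventually (Sf0.hol_const (g 0)) c2
    exact b4 fun z => congrFun c3 z

end Pool.Agent.P.MP_7ede32_ag.Full
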