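import Pool.Agent.P.MP_7ede32_ag.Ell.Defs

/-!
Surfaces of general type.
-/

namespace Pool.Agent.P.MP_7ede32_ag.Full

open Ell

/-- The surface is of general type: for some `m > 0` there are sections `b ≠ 0` and
`a 0, …, a (N - 1)` of the `m`-th power of the canonical bundle such that the ratios `a l / b`
separate the points at which `b` does not vanish. -/
def GenType (X : Type*) [TopologicalSpace X] [ChartedSpace (ℂ × ℂ) X] : Prop :=
  ∃ (m N : ℕ) (b : PluriForm X m) (a : Fin N → PluriForm X m), 0 < m ∧ (∃ x, b.val X x ≠ 0) ∧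
    ∀ x y, b.val X x ≠ 0 → b.val X y ≠ 0 →
      (∀ l, (a l).val X x / b.val X x = (a l).val X y / b.val X y) → x = y

end Pool.Agent.P.MP_7ede32_ag.Full
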