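import Pool.Agent.P.MP_7ede32_ag.Full.StC
import Pool.Agent.P.MP_7ede32_ag.Full.Defs
import Pool.Agent.P.MP_7ede32_ag.Geo.Bridge

/-!
From complex manifolds to the working structure.
-/

open Filter Topology Metric Set
open scoped Manifold

noncomputable section

namespace Pool.Agent.P.MP_7ede32_ag.Full

open Geo
open Ell (E2 Charts PluriForm IsEntire IsHolomorphic IsCritical chart_mem det_eq_jac)

variable {X : Type} [MetricSpace X] [ChartedSpace (ℂ × ℂ) X] [IsManifold 𝓘(ℂ, ℂ × ℂ) ⊤ X]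

/-- a pluricanonical form in the working structure -/
def toSec {S : Sf0 X} (hA : S.A = Charts X) {m : ℕ} (b : PluriForm X m) : Sec S m where
  c := b.coeff
  an e he x hx := b.analytic e (hA ▸ he) _ (e.map_source hx)
  compat e he e' he' x hx hx' := by
    rw [b.compat e (hA ▸ he) e' (hA ▸ he') x ⟨hx, hx'⟩, det_eq_jac]

lemma ratio_eq {m : ℕ} (a b : PluriForm X m) {e : OpenPartialHomeomorph X E2} (he : e ∈ Charts X)
    {x : X} (hx : x ∈ e.source) (h : b.coeff e (e x) ≠ 0) :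
    b.val X x ≠ 0 ∧ a.val X x / b.val X x = a.coeff e (e x) / b.coeff e (e x) := by
  have h1 := fun c : PluriForm X m => c.compat e he _ (chart_mem x) x ⟨hx, mem_chart_source _ x⟩
  rw [h1 b] at h
  rw [h1 a, h1 b, mul_div_mul_right _ _ (right_ne_zero_of_mul h)]
  exact ⟨left_ne_zero_of_mul h, rfl⟩

theorem gt_of {S : Sf0 X} (hA : S.A = Charts X) (h : GenType X) : Nonempty (GT S) := by
  obtain ⟨m, N, b, a, hm, ⟨x, hx⟩, h⟩ := h
  refine ⟨⟨m, N, toSec hA b, fun l => toSec hA (a l), hm,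
    ⟨_, hA ▸ chart_mem x, x, mem_chart_source _ x, hx⟩, fun e he e' he' x hx y hy h1 h2 h3 => ?_⟩⟩
  rw [hA] at he he'
  exact h x y (ratio_eq b b he hx h1).1 (ratio_eq b b he' hy h2).1 fun l =>
    (ratio_eq (a l) b he hx h1).2.trans ((h3 l).trans (ratio_eq (a l) b he' hy h2).2.symm)

theorem final (hM : SMain) (h1 : SPhi) (h2 : SMfB) (h3 : SHf) (h4 : SLift) [CompactSpace X]
    [ConnectedSpace X] (L : PeriodPair) (π : X → ℂ ⧸ L.lattice) (hπ : IsHolomorphic L π)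
    (hX : GenType X) (a : PluriForm X 1) (ha : ∃ x, a.val X x ≠ 0) (x₀ : X)
    (h₀ : ∀ x, π x = π x₀ → ¬ IsCritical L π x ∧ a.val X x = 0) :
    ∃ (B : Set (ℂ ⧸ L.lattice)) (T : Set (ℂ → X)) (n : ℕ), B.Finite ∧ T.Finite ∧ 0 < n ∧
      (∀ f ∈ T, IsEntire f ∧ (∀ z, π (f z) = L.lattice.mkQ z) ∧
        ∀ w ∈ L.lattice, ∀ z, f (z + n * w) = f z) ∧
      ∀ h : ℂ → X, IsEntire h → (∃ z, h z ≠ h 0) → (∃ s ∈ B, ∀ z, π (h z) = s) ∨
        ∃ f ∈ T, ∃ φ : ℂ → ℂ, Differentiable ℂ φ ∧ h = f ∘ φ := by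
  let S := toSf L π hπ a
  obtain ⟨x₁, hx₁⟩ := ha
  have hn : Nc S := π_nc_of fun h => (h₀ x₀ rfl).1 (isCritical_of_crit L π hπ a h)
  obtain ⟨G⟩ := gt_of (S := S) rfl hX
  obtain ⟨M⟩ := h2 X S L rfl hn G
  have hS : S.Hyp (π x₀) :=
    ⟨ω_ne_of (x₀ := x₁) fun h => hx₁ (h _ (chart_mem x₁) (mem_chart_source _ _)), hn,
      fun x hx => ⟨fun h => (h₀ x hx).1 (isCritical_of_crit L π hπ a h),
        Sf0.mem_Z_of_chart (chart_mem x) (mem_chart_source _ _) (h₀ x hx).2⟩, h3 X S L M hn⟩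
  have hT := (hM X S _ hS).1
  obtain ⟨n, hn, hper⟩ := Sf0.periodic_of_finite hT
  refine ⟨_, _, n, hS.fin, hT, hn, fun f hf => ⟨(hol_iff rfl).1 hf.1, hf.2, hper f hf.1 hf.2⟩,
    fun h hh H => ?_⟩
  have hh' : S.Hol h := (hol_iff rfl).2 hh
  obtain ⟨φ, hφ⟩ := h4 X S h hh'
  by_cases hc : ∃ z, φ z ≠ φ 0
  · obtain ⟨f, a1, a2, a3⟩ := h1 X S _ L hS M h φ hφ hc
    exact Or.inr ⟨f, ⟨a1, a2⟩, φ, hφ.2.1, a3⟩
  · push Not at hc
    have h5 : ∀ z, S.π (h z) = S.π (h 0) := fun z => by rw [hφ.2.2, hφ.2.2, hc]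
    exact Or.inl ⟨_, ⟨h, hh', h5, not_forall.2 H⟩, h5⟩

end Pool.Agent.P.MP_7ede32_ag.Full
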