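import Pool.Agent.P.MP_7ede32_ag.Full.StC
import Pool.Agent.P.MP_7ede32_ag.Geo.Half

/-!
Lifts of entire curves, Brody curves in a fibre, uniqueness on half-planes, base points, periods.
-/

open Filter Topology Metric Set

noncomputable section

namespace Pool.Agent.P.MP_7ede32_ag.Full

open Geo

theorem sLift : SLift := by
  intro X _ S h hh
  let ψ : ℂ → ℂ := fun z => deriv (S.lf (h z) ∘ h) z
  have hloc : ∀ z, ∀ᶠ w in 𝓝 z, S.IsLift (S.lf (h z)) (h w) := fun z =>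
    (hh z).1.eventually (Sf0.isLift_lf (h z)).eventually
  have hψ : ∀ z, ψ =ᶠ[𝓝 z] deriv (S.lf (h z) ∘ h) := fun z =>
    (hloc z).mono fun w hw => Sf0.deriv_lf_eq (hh w).1 hw
  have han : ∀ z, AnalyticAt ℂ (S.lf (h z) ∘ h) z := fun z =>
    Complex.analyticAt_iff_eventually_differentiableAt.2
      ((hloc z).mono fun w hw => hw.2.differentiableAt (hh w))
  have hψd : Differentiable ℂ ψ := fun z =>
    ((han z).deriv.differentiableAt).congr_of_eventuallyEq (hψ z)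
  obtain ⟨g, hg⟩ := hψd.isExactOn_univ
  have hlc : IsLocallyConstant fun z => S.π (h z) - S.Λ.mkQ (g z) := by
    rw [IsLocallyConstant.iff_eventually_eq]
    intro z
    obtain ⟨ρ, hρ, h3⟩ := Metric.eventually_nhds_iff_ball.1 ((hloc z).and (hψ z))
    filter_upwards [ball_mem_nhds z hρ] with w hw
    have h4 := Ell.const_of_deriv_ball (f := fun u => (S.lf (h z) ∘ h) u - g u) (ζ := z) (r := ρ)
      (fun u hu => (((h3 u hu).1.2.differentiableAt (hh u)).sub
        (hg u (mem_univ u)).differentiableAt).differentiableWithinAt)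
      (fun u hu => by
        have := (((h3 u hu).1.2.differentiableAt (hh u)).hasDerivAt.sub (hg u (mem_univ u))).deriv
        refine this.trans ?_
        rw [← (h3 u hu).2, sub_self]) hw (mem_ball_self hρ)
    rw [(h3 w hw).1.1.self_of_nhds, (h3 z (mem_ball_self hρ)).1.1.self_of_nhds, ← map_sub,
      ← map_sub]
    exact congrArg _ h4
  obtain ⟨b, hb⟩ := S.Λ.mkQ_surjective (S.π (h 0) - S.Λ.mkQ (g 0))
  refine ⟨fun z => b + g z, hh, fun z => (hg z (mem_univ z)).differentiableAt.const_add b,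
    fun z => ?_⟩
  have := hlc.apply_eq_of_preconnectedSpace z 0
  rw [map_add, hb, ← this, sub_add_cancel]

theorem sHf1 : SHf1 := by
  intro X _ _ S s h hh hv hn
  obtain ⟨C⟩ := S.nonempty_cov
  obtain ⟨w, hw⟩ : ∃ z, C.ε ≤ dist (h z) (h 0) := by
    by_contra hcon
    push Not at hcon
    exact hn (C.const_of_small hh fun z => (hcon z).le)
  obtain ⟨z, ρ, g, -, -, hg, huc, hconv, ζ, hζ⟩ := C.exists_bubble_loc (f := fun _ => h)
    (z₀ := fun _ => 0) (w₀ := fun _ => w) (t := fun n => 16 * (n + 1) * dist w 0 + 1)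
    (fun _ ζ _ => hh ζ) C.ε_pos le_rfl (fun _ => hw) fun _ => lt_add_one _
  exact ⟨g, hg, huc, fun u => (Sf0.isClosed_fib s).mem_of_tendsto (hconv.tendsto u)
    (Eventually.of_forall fun n => hv _), fun H => hζ (H ζ)⟩

open HalfAux in
theorem sHalf2 (h1 : SZero) (h2 : SInj) (h3 : SZsec) : SHalf2 := by
  intro X _ _ S s₀ hS C δ₁ hδ₁
  obtain ⟨δ₀, hδ₀, H1⟩ := h1 X S s₀ hS C
  obtain ⟨δ, ⟨hδ, hδ'⟩, hδ1⟩ :=
    ((C.eventually_sep.and (Ioc_mem_nhdsGT hδ₀)).and (Ioc_mem_nhdsGT hδ₁)).exists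
  have h0 := hδ.1
  have hK : IsCompact (C.Kc (δ / 2)) := Sf0.Cfg.isCompact_Kc _
  have hr : ∀ x ∈ C.Kc (δ / 2), S.RegAt x := Sf0.Cfg.regAt_Kc (half_pos h0)
  obtain ⟨l, U, η₀, hU⟩ := Sf0.exists_thOk hK hr
  obtain ⟨η₁, hη₁, H1⟩ := H1 δ hδ' hδ l η₀ U hU
  obtain ⟨HA, η₂, hη₂, HB⟩ := h2 X S _ l η₀ U hK hr hU
  obtain ⟨ε₀, hε₀, H3⟩ := h3 X S _ hK hr
  obtain ⟨m, hm, hm1, hm2⟩ : ∃ m > 0, 2 * m ≤ η₁ ∧ 2 * m ≤ η₂ :=
    ⟨min η₁ η₂ / 2, by positivity, by linarith [min_le_left η₁ η₂],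
      by linarith [min_le_right η₁ η₂]⟩
  obtain ⟨η₃, hη₃, HA⟩ := HA (min ε₀ m) (lt_min hε₀ hm)
  refine ⟨δ, min m η₃, hδ1.2, hδ, lt_min hm hη₃, fun p q u a hu hp hq hd => ?_⟩
  by_contra hcon
  have hop : ∀ b, IsOpen (Hp u b ∩ interior (C.Cr (δ / 2))) := fun b =>
    (isOpen_Hp u b).inter isOpen_interior
  have hsub : ∀ {b b' : ℝ}, b ≤ b' →
      Hp u b' ∩ interior (C.Cr (δ / 2)) ⊆ Hp u b ∩ interior (C.Cr (δ / 2)) := fun h =>
    inter_subset_inter_left _ (Hp_mono h)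
  have ha : a ≤ a + 4 * δ := by linarith
  have ha' : a + 4 * δ ≤ a + 4 * δ + 4 * δ := by linarith
  have hKc : ∀ {f : ℂ → X} {b : ℝ}, HSec C δ u b f →
      ∀ w ∈ Hp u b ∩ interior (C.Cr (δ / 2)), f w ∈ C.Kc (δ / 2) := fun hf w hw =>
    Sf0.Cfg.mem_Kc (interior_subset hw.2) (by rw [(hf.1 w hw).2, zero_add])
  have hth := H1 p q u a hu hp hq fun w hw => by
    linarith [hd w hw, min_le_left m η₃]
  obtain ⟨z, hz⟩ := H3 (min ε₀ m) (min_le_left _ _) _ p (hop (a + 4 * δ))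
    (fun w hw => ⟨(hp.1 w (hsub ha hw)).1, hKc hp w (hsub ha hw)⟩) (fun w hw => by
      have hn := (hop a).mem_nhds (hsub ha hw)
      have hne := (Sf0.eventually_eq_or_ne (eventually_of_mem hn fun w hw => (hp.1 w hw).1)
        (eventually_of_mem hn fun w hw => (hq.1 w hw).1)).resolve_left
          fun h => hcon ⟨w, hsub ha hw, h⟩
      refine Frequently.filter_mono (Eventually.frequently (f := 𝓝[≠] w) ?_) nhdsWithin_le_nhds
      filter_upwards [hne, mem_nhdsWithin_of_mem_nhds ((hop (a + 4 * δ)).mem_nhds hw)]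
        with w' a1 a2
      have a3 := hsub ha a2
      exact HA _ (hKc hp w' a3) _ ((hq.1 w' a3).2.trans (hp.1 w' a3).2.symm)
        ((hd w' a3).trans (min_le_right _ _)) a1 (hth w' a2))
  have hzs : HSec C δ u (a + 4 * δ) z := hSec_of_Z hδ hu
    (fun w hw => ⟨(hz w hw).1, (hz w hw).2.2.1.trans (hp.1 w (hsub ha hw)).2⟩)
    fun w hw => (hz w hw).2.1
  have hzp : ∀ w ∈ Hp u (a + 4 * δ) ∩ interior (C.Cr (δ / 2)), dist (z w) (p w) ≤ m :=
    fun w hw => by
      rw [dist_comm]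
      exact (hz w hw).2.2.2.trans (min_le_right _ _)
  have hzq : ∀ w ∈ Hp u (a + 4 * δ) ∩ interior (C.Cr (δ / 2)), dist (z w) (q w) ≤ 2 * m :=
    fun w hw => by
      linarith [dist_triangle (z w) (p w) (q w), hzp w hw, hd w (hsub ha hw), min_le_left m η₃]
  have key : ∀ f : ℂ → X, HSec C δ u a f →
      (∀ w ∈ Hp u (a + 4 * δ) ∩ interior (C.Cr (δ / 2)), dist (z w) (f w) ≤ 2 * m) →
      ∀ w ∈ Hp u (a + 4 * δ + 4 * δ) ∩ interior (C.Cr (δ / 2)), f w = z w := by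
    intro f hf hzf w hw
    have a1 := hsub ha' hw
    exact HB _ (hKc hzs w a1) (hz w a1).2.1 _
      ((hf.1 w (hsub ha a1)).2.trans (hzs.1 w a1).2.symm) ((hzf w a1).trans hm2)
      (H1 z f u _ hu hzs (hf.mono ha) (fun w hw => (hzf w hw).trans hm1) w hw)
  obtain ⟨w, hw⟩ := nonempty_good hδ hu (a + 4 * δ + 4 * δ)
  refine hcon ⟨w, hsub ha (hsub ha' hw), eventually_of_mem ((hop _).mem_nhds hw) fun w' hw' => ?_⟩
  exact (key p hp (fun w hw => by linarith [hzp w hw]) w' hw').trans (key q hq hzq w' hw').symm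

theorem sBase : SBase := by
  rintro φ hφ ⟨z₀, hz₀⟩
  have hc : ∀ N : Set ℂ, N.Countable → (φ ⁻¹' N).Countable := fun N hN => by
    refine Countable.mono (s₂ := ⋃ c ∈ N, {z ∈ univ | φ z - c = 0})
      (fun z hz => mem_biUnion hz ⟨trivial, sub_self _⟩) (hN.biUnion fun c _ =>
      MP_26ad15_nt.countable_zeros isPreconnected_univ
        (fun z _ => (hφ.analyticAt z).sub analyticAt_const) fun h0 => hz₀ ?_)
    exact (sub_eq_zero.1 (h0 z₀ trivial)).trans (sub_eq_zero.1 (h0 0 trivial)).symm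
  refine ⟨hc, fun N w r hN hr => ?_⟩
  have hne : (φ ⁻¹' ball w r).Nonempty := by
    by_contra hcon
    have h1 : ∀ z, r ≤ ‖φ z - w‖ := fun z => by
      by_contra h2
      exact hcon ⟨z, by rwa [mem_preimage, mem_ball, dist_eq_norm, ← not_le]⟩
    have h2 : ∀ z, φ z - w ≠ 0 := fun z => norm_pos_iff.1 (hr.trans_le (h1 z))
    have h3 := ((hφ.sub_const w).inv h2).apply_eq_apply_of_bounded
      (isBounded_iff_forall_norm_le.2 ⟨r⁻¹, by
        rintro _ ⟨z, rfl⟩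
        rw [Pi.inv_apply, norm_inv]
        exact inv_anti₀ hr (h1 z)⟩) z₀ 0
    exact hz₀ (sub_left_injective (inv_injective h3))
  obtain ⟨z, h1, h2⟩ := (hN.dense_compl ℂ).exists_mem_open
    (isOpen_ball.preimage hφ.continuous) hne
  exact ⟨z, h1, h2⟩

theorem sPer : SPer := by
  classical
  rintro X _ S s₀ C δ q ⟨T, h1, -, h3⟩ hq
  obtain ⟨D, hD⟩ := S.cocpt
  have hm : ∀ {l : ℂ}, l ∈ S.Λ → ∀ k : ℕ, (k : ℂ) * l ∈ S.Λ := fun hl k => by
    rw [← nsmul_eq_mul]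
    exact nsmul_mem hl k
  have key : ∀ l ∈ S.Λ, ((h1.toFinset.card.factorial : ℕ) : ℂ) * l ∈ per C q := by
    intro l hl
    choose p hp hp' using fun k : ℕ => h3 _ (hq.shift (hm hl k))
    have aux : ∀ k k' : ℕ, k < k' → k' ≤ h1.toFinset.card → p k = p k' →
        ((h1.toFinset.card.factorial : ℕ) : ℂ) * l ∈ per C q := fun k k' hk hk' he => by
      obtain ⟨d, rfl⟩ := Nat.exists_eq_add_of_lt hk
      have h4 : ((d + 1 : ℕ) : ℂ) * l ∈ per C q := ⟨hm hl _, fun w hw => by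
        have hw' : w + -(k * l) ∈ C.Btᶜ := fun h =>
          hw ((Sf0.Cfg.add_mem_Bt (neg_mem (hm hl k))).1 h)
        have e := (hp' k hw').trans ((congrFun he _).trans (hp' (k + d + 1) hw').symm)
        simp only [neg_add_cancel_right] at e
        rw [e]
        congr 1
        push_cast
        ring⟩
      obtain ⟨c, hc⟩ : d + 1 ∣ h1.toFinset.card.factorial :=
        Nat.dvd_factorial (Nat.succ_pos d) (by omega)
      have h5 := nsmul_mem h4 c
      rwa [nsmul_eq_mul, ← mul_assoc, ← Nat.cast_mul, mul_comm c, ← hc] at h5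
    obtain ⟨k, hk, k', hk', hne, he⟩ := Finset.exists_ne_map_eq_of_card_lt_of_maps_to
      (s := Finset.range (h1.toFinset.card + 1)) (t := h1.toFinset) (f := p) (by simp)
      fun k _ => by simpa using hp k
    rcases lt_or_gt_of_ne hne with h | h
    · exact aux k k' h (Nat.lt_succ_iff.1 (Finset.mem_range.1 hk')) he
    · exact aux k' k h (Nat.lt_succ_iff.1 (Finset.mem_range.1 hk)) he.symm
  set n := h1.toFinset.card.factorial
  have hn : (n : ℂ) ≠ 0 := Nat.cast_ne_zero.2 (Nat.factorial_ne_zero _)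
  refine ⟨n * D, fun w => ?_⟩
  obtain ⟨l, hl, hd⟩ := hD (w / n)
  refine ⟨_, key l hl, ?_⟩
  rw [dist_eq_norm] at hd ⊢
  rw [show w - n * l = n * (w / n - l) by field_simp, norm_mul, Complex.norm_natCast]
  exact mul_le_mul_of_nonneg_left hd (Nat.cast_nonneg _)

end Pool.Agent.P.MP_7ede32_ag.Full
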