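import Pool.Agent.P.MP_7ede32_ag.Full.StC

/-!
Factorisation, if all representatives are good.
-/

open Filter Topology Metric Set

noncomputable section

namespace Pool.Agent.P.MP_7ede32_ag.Full

open Geo

namespace CoreA

lemma re_ge {u : ℂ} (hu : ‖u‖ = 1) (c w w' : ℂ) :
    (starRingEnd ℂ u * (w - c)).re - ‖w' - w‖ ≤ (starRingEnd ℂ u * (w' - c)).re := by
  have h1 : starRingEnd ℂ u * (w' - c) =
      starRingEnd ℂ u * (w - c) + starRingEnd ℂ u * (w' - w) := by ring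
  have h2 : ‖starRingEnd ℂ u * (w' - w)‖ = ‖w' - w‖ := by
    rw [norm_mul, Complex.norm_conj, hu, one_mul]
  rw [h1, Complex.add_re]
  linarith [(abs_le.1 ((Complex.abs_re_le_norm _).trans h2.le)).1]

lemma conj_mul {u : ℂ} (hu : ‖u‖ = 1) : starRingEnd ℂ u * u = 1 := by
  rw [mul_comm, Complex.mul_conj, Complex.normSq_eq_norm_sq, hu]; simp

lemma mem_cap {u c w w' : ℂ} (hu : ‖u‖ = 1) {a b a' b' t : ℝ} (hw : w ∈ Cap u c a b)
    (ht : ‖w' - w‖ ≤ t) (ha : a' + t ≤ a) (hb : b + t ≤ b') : w' ∈ Cap u c a' b' := by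
  refine ⟨by linarith [re_ge hu c w w', hw.1], ?_⟩
  have h := norm_add_le (w' - w) (w - c)
  rw [sub_add_sub_cancel] at h
  linarith [hw.2]

lemma convex_cap (u c : ℂ) (a b : ℝ) : Convex ℝ (Cap u c a b) := by
  have h1 : Cap u c a b = {w : ℂ | a + (starRingEnd ℂ u * c).re < (starRingEnd ℂ u * w).re} ∩
      ball c b := by
    ext w
    simp only [Cap, mem_ofPred_eq, mem_inter_iff, mem_ball, dist_eq_norm, mul_sub, Complex.sub_re]
    exact and_congr_left' lt_sub_iff_add_lt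
  rw [h1]
  refine Convex.inter (convex_halfSpace_gt ⟨fun x y => ?_, fun t x => ?_⟩ _) (convex_ball c b)
  · rw [mul_add, Complex.add_re]
  · rw [mul_smul_comm, Complex.smul_re]

lemma top_mem {u c : ℂ} (hu : ‖u‖ = 1) {l a b : ℝ} (hl : 0 ≤ l) (ha : a < l) (hb : l < b) :
    c + u * l ∈ Cap u c a b := by
  refine ⟨?_, ?_⟩
  · rwa [add_sub_cancel_left, ← mul_assoc, conj_mul hu, one_mul, Complex.ofReal_re]
  · rwa [add_sub_cancel_left, norm_mul, hu, one_mul, Complex.norm_real, Real.norm_of_nonneg hl]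

lemma re_div {u : ℂ} (hu : ‖u‖ = 1) {l : ℝ} (hl : 0 < l) (v : ℂ) :
    (v / (u * l)).re = (starRingEnd ℂ u * v).re / l := by
  have h0 : u ≠ 0 := norm_ne_zero_iff.1 (hu ▸ one_ne_zero)
  have h1 : v / (u * l) = starRingEnd ℂ u * v / l := by
    have h2 : (l : ℂ) ≠ 0 := Complex.ofReal_ne_zero.2 hl.ne'
    rw [div_eq_div_iff (mul_ne_zero h0 h2) h2]
    linear_combination (-(v * l)) * conj_mul hu
  rw [h1, Complex.div_ofReal_re]

lemma ub {α : Type} {T : Set α} (hT : T.Finite) (f : α → ℝ) : ∃ M, ∀ q ∈ T, f q ≤ M :=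
  let ⟨M, hM⟩ := (hT.image f).bddAbove
  ⟨M, fun _ hq => hM (mem_image_of_mem f hq)⟩

lemma lb {α : Type} {T : Set α} (hT : T.Finite) (f : α → ℝ) (hf : ∀ q ∈ T, 0 < f q) :
    ∃ ε > 0, ∀ q ∈ T, ε ≤ f q := by
  rcases T.eq_empty_or_nonempty with rfl | hne
  · exact ⟨1, one_pos, fun _ h => h.elim⟩
  · obtain ⟨q, hq, h⟩ := exists_min_image T f hT hne
    exact ⟨f q, hf q hq, h⟩

end CoreA

open CoreA in
theorem sCore (h1 : SGauss) (h2 : SShad2) (h3 : SWv) (h4 : SPer) (h5 : SFinX) : SCore := by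
  intro X _ _ S s₀ hS C
  obtain ⟨δ₀, hδ₀, H1⟩ := h1 X S s₀ hS C
  refine ⟨δ₀, hδ₀, fun δ hδ hsep l₀ η₀ U hth T hT => ?_⟩
  obtain ⟨η', hη', κ, hκ, r₀, HG⟩ := H1 δ hδ hsep l₀ η₀ U hth
  refine ⟨κ, hκ, fun h φ hL hφ hG => ?_⟩
  choose! η hη C₁ r₁ HQ using hG
  have hP : ∀ q ∈ T, ∃ R₀, Net (per C q) R₀ := fun q hq => h4 X S s₀ C δ q ⟨T, hT⟩ (hT.2.1 q hq)
  choose! R₀ hR₀ using hP
  obtain ⟨ε, hε, hεT⟩ := lb hT.1 η hη
  obtain ⟨Cm, hCm⟩ := ub hT.1 C₁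
  obtain ⟨rm, hrm⟩ := ub hT.1 r₁
  obtain ⟨Rm, hRm⟩ := ub hT.1 R₀
  obtain ⟨R, HS⟩ := h2 X S s₀ C δ T hsep hT (min ε η') (lt_min hε hη')
  obtain ⟨z₁, l, a, E, Ψ, hW, hz₁, hl, hE⟩ := h3 φ hL.2.1 hφ (max Cm (max r₀ 2))
    (max (max rm r₀) (max (max (20 * R) (200 * (Rm + 1))) 1))
  simp only [max_le_iff] at hz₁ hl
  obtain ⟨⟨hl1, hl2⟩, ⟨hl3, hl4⟩, hl5⟩ := hl
  have hl0 : 0 < l := by linarith
  have ha : 1 ≤ a ^ 3 := one_le_pow₀ hW.one_le
  have hM2 : 2 ≤ max Cm (max r₀ 2) := (le_max_right _ _).trans (le_max_right _ _)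
  have hE' : max Cm (max r₀ 2) ≤ E := by nlinarith
  have hE2 : 2 ≤ E := hM2.trans hE'
  have hE0 : r₀ ≤ E := ((le_max_left _ _).trans (le_max_right _ _)).trans hE'
  have hlE : l * 2 ≤ l * E := mul_le_mul_of_nonneg_left hE2 hl0.le
  have hlc : (l : ℂ) ≠ 0 := Complex.ofReal_ne_zero.2 hl0.ne'
  obtain ⟨u, hu, hul⟩ : ∃ u : ℂ, ‖u‖ = 1 ∧ φ z₁ - φ 0 = u * l := by
    refine ⟨(φ z₁ - φ 0) / l, ?_, by field_simp⟩
    rw [norm_div, ← hW.hl, Complex.norm_real, Real.norm_of_nonneg hl0.le, div_self hl0.ne']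
  have htop : φ 0 + u * l = φ z₁ := by rw [← hul]; ring
  have hO : S.SecOn 0 (h ∘ Ψ) (Cap u (φ 0) (l / 4) (l * E)) := fun w hw => by
    obtain ⟨d1, d2⟩ := hW.inv w (by
      rw [hul, re_div hu hl0, le_div_iff₀ hl0]; linarith [hw.1]) hw.2.le
    refine ⟨⟨(hL.1 _).1.comp d1.continuousAt, fun e he hx => ?_⟩, ?_⟩
    · exact ((hL.1 (Ψ w)).2 e he hx).comp w d1
    · rw [Function.comp_apply, hL.2.2, d2, zero_add]
  have hball : ∀ w ∈ ball (φ z₁) (l / 200), w ∈ Cap u (φ 0) (3 * l / 10) (9 * l * E / 10) :=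
    fun w hw => by
      have h6 : φ z₁ ∈ Cap u (φ 0) (l / 2) (3 * l / 2) :=
        htop ▸ top_mem hu hl0.le (by linarith) (by linarith)
      rw [mem_ball, dist_eq_norm] at hw
      exact mem_cap hu h6 hw.le (by linarith) (by linarith)
  obtain ⟨q, hq, hd⟩ := HS (h ∘ Ψ) _ (Cap u (φ 0) (3 * l / 10) (9 * l * E / 10)) hO
    ((convex_cap _ _ _ _).isConnected ⟨_, hball _ (mem_ball_self (by linarith))⟩)
    fun w hw w' hw' => by
      rw [mem_ball, dist_eq_norm] at hw'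
      exact mem_cap hu hw hw'.le (by linarith) (by linarith)
  have hth' := HG q (h ∘ Ψ) u (φ 0) l E hu hl2 hE0 (hT.2.1 q hq)
    (fun w hw => hO w (mem_cap (t := 0) hu hw (by simp) (by linarith) (by linarith)))
    fun w hw => (hd w hw).trans (min_le_right _ _)
  rw [htop] at hth'
  obtain ⟨w₀, hw₀, hB, hf⟩ := HQ q hq z₁ l a E Ψ hW ((hrm q hq).trans hz₁.1.1)
    ((hrm q hq).trans hl1)
    ((mul_le_mul_of_nonneg_right ((hCm q hq).trans (le_max_left _ _)) (by linarith)).trans hE)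
    fun w hw => ⟨((hd w ⟨hball w hw.1, interior_subset hw.2⟩).trans (min_le_left _ _)).trans
      (hεT q hq), hth' w hw⟩
  exact h5 X S s₀ C q h φ Ψ (R₀ q) (l / 200) (φ z₁) w₀ (hT.2.1 q hq).1 (hR₀ q hq)
    (by linarith [hRm q hq]) hL (fun w hw => hW.inv_ball hE2 hw) hw₀ hB hf

end Pool.Agent.P.MP_7ede32_ag.Full
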