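import Pool.Agent.P.MP_7ede32_ag.Full.StC

/-!
Expansions of the meromorphic functions along a good fibre.
-/

open Filter Topology Metric Set

noncomputable section

namespace Pool.Agent.P.MP_7ede32_ag.Full

open Geo

namespace Fib1

variable {X : Type} [MetricSpace X] {S : Sf0 X} {L : PeriodPair} {M : Mf S L} {s : ℂ ⧸ S.Λ}
  (Γ : M.Par s)

lemma punct {f g : ℂ → ℂ} (h : f =ᶠ[𝓝[≠] 0] g) : ∀ᶠ t in 𝓝 (0 : ℂ), f =ᶠ[𝓝[≠] t] g := by
  filter_upwards [(eventually_nhdsWithin_iff.1 h).eventually_nhds] with t ht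
  by_cases k : t = 0
  · exact k ▸ h
  · filter_upwards [eventually_nhdsWithin_of_eventually_nhds ht,
      eventually_nhdsWithin_of_eventually_nhds (eventually_ne_nhds k)] with w h1 h2
    exact h1 h2

lemma tend {τ : ℂ → ℂ} (h : AnalyticAt ℂ τ 0) (h' : deriv τ 0 ≠ 0) :
    Tendsto τ (𝓝[≠] 0) (𝓝[≠] (τ 0)) := h.differentiableAt.hasDerivAt.tendsto_nhdsNE h'

lemma mero_ev (P : MvPolynomial M.ι ℂ) {h : ℂ → X} {z : ℂ} (hh : ∀ᶠ w in 𝓝 z, S.HolAt h w) :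
    MeromorphicAt (M.ev P ∘ h) z := by
  induction P using MvPolynomial.induction_on with
  | C c =>
    have : M.ev (MvPolynomial.C c) ∘ h = fun _ => c := by
      funext w
      simp [Mf.ev]
    rw [this]
    exact MeromorphicAt.const c z
  | add p q hp hq =>
    have : M.ev (p + q) ∘ h = M.ev p ∘ h + M.ev q ∘ h := by
      funext w
      simp [Mf.ev]
    rw [this]
    exact hp.add hq
  | mul_X p i hp =>
    have : M.ev (p * MvPolynomial.X i) ∘ h = M.ev p ∘ h * M.f i ∘ h := by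
      funext w
      simp [Mf.ev]
    rw [this]
    exact hp.mul (M.mero i hh)

/-- the polynomial vanishes on the fibre near `p` -/
def K (p : X) (P : MvPolynomial M.ι ℂ) : Prop := M.ev P ∘ Γ.γ p =ᶠ[𝓝[≠] 0] 0

lemma K_loc {p : X} (hp : S.π p = s) : ∀ᶠ y in 𝓝 p, S.π y = s → ∀ P, K Γ y P ↔ K Γ p P := by
  obtain ⟨r, hr, h1⟩ := Metric.eventually_nhds_iff_ball.1 (Γ.hol p hp).eventually_nhds
  filter_upwards [Γ.tr p hp _ (ball_mem_nhds 0 hr)] with y hy hs P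
  obtain ⟨τ, t1, t2, t3, t4⟩ := hy hs
  have m : MeromorphicOn (M.ev P ∘ Γ.γ p) (ball 0 r) := fun t ht =>
    mero_ev P ((h1 t ht).mono fun _ h => h.1)
  have c := (convex_ball (0 : ℂ) r).isPreconnected
  have e : M.ev P ∘ Γ.γ y =ᶠ[𝓝[≠] 0] (M.ev P ∘ Γ.γ p) ∘ τ :=
    eventually_nhdsWithin_of_eventually_nhds (t4.fun_comp (M.ev P))
  constructor
  · intro h
    have h2 : ∃ᶠ z in 𝓝[≠] (τ 0), (M.ev P ∘ Γ.γ p) z = 0 :=
      (tend t1 t3).frequently (e.symm.trans h).frequently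
    have h3 := meromorphicOrderAt_eq_top_iff.2 ((m _ t2).frequently_zero_iff_eventuallyEq_zero.1 h2)
    by_contra k
    exact m.meromorphicOrderAt_ne_top_of_isPreconnected c (mem_ball_self hr) t2
      (fun k' => k (meromorphicOrderAt_eq_top_iff.1 k')) h3
  · intro h
    have h3 : meromorphicOrderAt (M.ev P ∘ Γ.γ p) (τ 0) = ⊤ := by
      by_contra k
      exact m.meromorphicOrderAt_ne_top_of_isPreconnected c t2 (mem_ball_self hr) k
        (meromorphicOrderAt_eq_top_iff.2 h)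
    exact e.trans ((tend t1 t3).eventually (meromorphicOrderAt_eq_top_iff.1 h3))

/-- the points of the fibre with the same relations as `p₀` -/
def T (p₀ : X) : Set X := {p | S.π p = s ∧ ∀ P, K Γ p P ↔ K Γ p₀ P}

lemma T_open {p₀ p : X} (hp : p ∈ T Γ p₀) : ∀ᶠ y in 𝓝 p, S.π y = s → y ∈ T Γ p₀ :=
  (K_loc Γ hp.1).mono fun _ h hs => ⟨hs, fun P => (h hs P).trans (hp.2 P)⟩

lemma T_closed (p₀ : X) : IsClosed (T Γ p₀) := by
  refine isOpen_compl_iff.1 (isOpen_iff_mem_nhds.2 fun x hx => ?_)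
  by_cases hs : S.π x = s
  · filter_upwards [K_loc Γ hs] with y hy h
    exact hx ⟨hs, fun P => (hy h.1 P).symm.trans (h.2 P)⟩
  · filter_upwards [(Sf0.isClosed_fib (S := S) s).isOpen_compl.mem_nhds hs] with y hy h
    exact hy h.1

/-- the expansions at a point of the fibre -/
def ξ {p : X} (hp : S.π p = s) (i : M.ι) : MG :=
  MG.mk (M.f i ∘ Γ.γ p) (M.mero i ((Γ.hol p hp).mono fun _ h => h.1))

lemma rep_ξ {p : X} (hp : S.π p = s) (i : M.ι) :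
    (ξ Γ hp i).rep =ᶠ[𝓝[≠] 0] M.f i ∘ Γ.γ p := MG.rep_mk _ _

lemma rep_ev {p : X} (hp : S.π p = s) (P : MvPolynomial M.ι ℂ) :
    (P.eval₂ MG.const (ξ Γ hp)).rep =ᶠ[𝓝[≠] 0] M.ev P ∘ Γ.γ p := by
  filter_upwards [MG.rep_eval₂ (ξ Γ hp) P, eventually_all.2 (rep_ξ Γ hp)] with z h1 h2
  rw [h1, funext h2]
  rfl

lemma ev_zero {p : X} (hp : S.π p = s) (P : MvPolynomial M.ι ℂ) :
    P.eval₂ MG.const (ξ Γ hp) = 0 ↔ K Γ p P := by
  rw [MG.eq_zero_iff]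
  exact ⟨fun h => (rep_ev Γ hp P).symm.trans h, fun h => (rep_ev Γ hp P).trans h⟩

/-- a function with holomorphic expansions at all points is constant near some point -/
lemma const_near [CompactSpace X] {p₀ : X} (h₀ : p₀ ∈ T Γ p₀) (H : X → ℂ)
    (R : T Γ p₀ → ℂ → ℂ) (h1 : ∀ p, AnalyticAt ℂ (R p) 0)
    (h2 : ∀ p : T Γ p₀, H ∘ Γ.γ p =ᶠ[𝓝[≠] 0] R p) : ∃ p, ∀ᶠ t in 𝓝 0, R p t = R p 0 := by
  have key : ∀ p : T Γ p₀, ∀ N ∈ 𝓝 (0 : ℂ), ∀ᶠ y in 𝓝 p.1, ∀ hy : y ∈ T Γ p₀,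
      ∃ z ∈ N, Γ.γ p z = y ∧ R ⟨y, hy⟩ 0 = R p z := by
    intro p N hN
    filter_upwards [Γ.tr p p.2.1 _ (inter_mem hN ((punct (h2 p)).and (h1 p).eventually_analyticAt))]
      with y hy hT
    obtain ⟨τ, t1, ⟨t2, t5, t6⟩, t3, t4⟩ := hy hT.1
    refine ⟨τ 0, t2, t4.self_of_nhds.symm.trans (Γ.zero y hT.1), ?_⟩
    have e : R ⟨y, hT⟩ =ᶠ[𝓝[≠] 0] R p ∘ τ :=
      (h2 ⟨y, hT⟩).symm.trans (((t4.fun_comp H).filter_mono nhdsWithin_le_nhds).trans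
        ((tend t1 t3).eventually t5))
    exact tendsto_nhds_unique_of_eventuallyEq
      ((h1 ⟨y, hT⟩).continuousAt.tendsto.mono_left nhdsWithin_le_nhds)
      ((t6.continuousAt.comp t1.continuousAt).tendsto.mono_left nhdsWithin_le_nhds) e
  have hc : Continuous fun p : T Γ p₀ => R p 0 := by
    refine continuous_iff_continuousAt.2 fun p W hW => ?_
    rw [mem_map]
    filter_upwards [continuous_subtype_val.continuousAt.eventually
      (key p _ ((h1 p).continuousAt hW))] with y hy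
    obtain ⟨z, z1, -, z3⟩ := hy y.2
    show R ⟨y, y.2⟩ 0 ∈ W
    rw [z3]
    exact z1
  have : CompactSpace (T Γ p₀) := isCompact_iff_compactSpace.1 (T_closed Γ p₀).isCompact
  obtain ⟨p, -, hp⟩ := isCompact_univ.exists_isMaxOn ⟨⟨p₀, h₀⟩, mem_univ _⟩ hc.norm.continuousOn
  refine ⟨p, Complex.eventually_eq_of_isLocalMax_norm
    ((h1 p).eventually_analyticAt.mono fun _ h => h.differentiableAt) ?_⟩
  obtain ⟨N, hN, hi⟩ := Γ.inj p p.2.1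
  have ht : Tendsto (Γ.γ p) (𝓝 0) (𝓝 p.1) := by
    have := (Γ.hol p p.2.1).self_of_nhds.1.1.tendsto
    rwa [Γ.zero p p.2.1] at this
  filter_upwards [hN, Γ.hol p p.2.1, ht.eventually (key p N hN), ht.eventually (T_open Γ p.2)]
    with t a1 a2 a3 a4
  obtain ⟨z, z1, z2, z3⟩ := a3 (a4 a2.2)
  rw [hi z1 a1 z2] at z3
  show ‖R p t‖ ≤ ‖R p 0‖
  rw [← z3]
  exact hp (mem_univ _)

lemma rep_D {p : X} (hp : S.π p = s) (i : M.ι) :
    (MG.D (ξ Γ hp i)).rep =ᶠ[𝓝[≠] 0] deriv (M.f i ∘ Γ.γ p) :=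
  (MG.rep_D _).trans (rep_ξ Γ hp i).nhdsNE_deriv

end Fib1

open Fib1 in
theorem sFib1 : SFib1 := by
  intro X _ _ S L M p₀ Γ
  obtain ⟨w, hw⟩ := S.Λ.mkQ_surjective (S.π p₀)
  have h₀ : p₀ ∈ T Γ p₀ := ⟨rfl, fun _ => Iff.rfl⟩
  refine ⟨⟨T Γ p₀, ⟨p₀, h₀⟩, fun p => ξ Γ p.2.1, L.weierstrassP w, fun p => ?_, fun p P => ?_,
    fun P Q h => ?_, fun p R r1 r2 r3 h => ?_, fun p => ?_⟩, fun i => rep_ξ Γ h₀.1 i⟩
  · refine MG.ext' ?_
    filter_upwards [rep_ξ Γ p.2.1 M.iu, MG.rep_const (L.weierstrassP w), Γ.off p p.2.1,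
      eventually_nhdsWithin_of_eventually_nhds (Γ.hol p p.2.1)] with t a1 a2 a3 a4
    rw [a1, a2]
    exact (M.hu _ a3 w (a4.2.trans hw.symm)).2
  · rw [ev_zero, ev_zero]
    exact p.2.2 P
  · choose R h1 h2 using fun p => MG.ord_nonneg_iff.1 (MG.mem_O.1 (h p))
    obtain ⟨p, hp⟩ := const_near Γ h₀ (fun y => M.ev P y / M.ev Q y) R h1 fun p => by
      filter_upwards [h2 p, MG.rep_div (P.eval₂ MG.const (ξ Γ p.2.1))
        (Q.eval₂ MG.const (ξ Γ p.2.1)), rep_ev Γ p.2.1 P, rep_ev Γ p.2.1 Q] with t a1 a2 a3 a4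
      rw [← a1, a2, a3, a4]
      rfl
    exact ⟨p, R p 0, MG.ext' ((h2 p).trans (EventuallyEq.trans
      (eventually_nhdsWithin_of_eventually_nhds hp) (MG.rep_const _).symm))⟩
  · obtain ⟨N, hN, hi⟩ := Γ.inj p p.2.1
    have ht := tend r1 r3
    rw [r2] at ht
    have hN' : ∀ᶠ t in 𝓝[≠] (0 : ℂ), t ∈ N := eventually_nhdsWithin_of_eventually_nhds hN
    have hr := eventually_all.2 (rep_ξ Γ p.2.1)
    filter_upwards [hN', ht.eventually hN', Γ.off p p.2.1, ht.eventually (Γ.off p p.2.1), hr,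
      ht.eventually hr, eventually_all.2 h] with t a1 a2 a3 a4 a5 a6 a7
    exact hi a2 a1 (M.inj _ a4 _ a3 fun i => (a6 i).symm.trans ((a7 i).trans (a5 i)))
  · obtain ⟨α, β, b1, b2, b3⟩ := Γ.reg p p.2.1
    refine ⟨fun h => ?_, MG.mem_O.2 (MG.ord_nonneg_iff.2 ⟨α, b1, ?_⟩),
      MG.mem_O.2 (MG.ord_nonneg_iff.2 ⟨β, b2, ?_⟩)⟩
    · obtain ⟨t, a1, a2, a3⟩ :=
        (b3.and ((MG.eq_zero_iff.1 h).and (rep_D Γ p.2.1 M.ix))).exists
      exact a1.1 (a3.symm.trans a2)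
    · filter_upwards [b3, MG.rep_mul (ξ Γ p.2.1 M.ia) (MG.D (ξ Γ p.2.1 M.ix) ^ M.μ),
        MG.rep_pow (MG.D (ξ Γ p.2.1 M.ix)) M.μ, rep_D Γ p.2.1 M.ix, rep_ξ Γ p.2.1 M.ia]
        with t a1 a2 a3 a4 a5
      rw [a2, Pi.mul_apply, a3, a4, a5]
      exact a1.2.1
    · filter_upwards [b3,
        MG.rep_mul (ξ Γ p.2.1 M.ix * ξ Γ p.2.1 M.ia) (MG.D (ξ Γ p.2.1 M.ix) ^ M.μ),
        MG.rep_mul (ξ Γ p.2.1 M.ix) (ξ Γ p.2.1 M.ia),
        MG.rep_pow (MG.D (ξ Γ p.2.1 M.ix)) M.μ, rep_D Γ p.2.1 M.ix, rep_ξ Γ p.2.1 M.ia,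
        rep_ξ Γ p.2.1 M.ix] with t a1 a2 a2' a3 a4 a5 a6
      rw [a2, Pi.mul_apply, a2', Pi.mul_apply, a3, a4, a5, a6]
      exact a1.2.2

end Pool.Agent.P.MP_7ede32_ag.Full
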