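import Pool.Agent.P.MP_7ede32_ag.Full.StC

/-!
Expansions along a generic fibre.
-/

open Filter Topology Metric Set

noncomputable section

namespace Pool.Agent.P.MP_7ede32_ag.Full

open Geo

namespace FibP

variable {X : Type} [MetricSpace X] {S : Sf0 X} {L : PeriodPair}

theorem continuousAt_ev (M : Mf S L) (P : MvPolynomial M.ι ℂ) {y : X} (hy : y ∉ M.Z) :
    ContinuousAt (M.ev P) y :=
  (MvPolynomial.continuous_eval P).continuousAt.comp (f := fun y i => M.f i y)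
    (continuousAt_pi.2 fun i => (M.anAt_f i hy).continuousAt)

theorem res {p : X → Prop} (h1 : ∀ x, p x → ∀ᶠ y in 𝓝 x, p y) (h2 : ∀ x, ∃ᶠ y in 𝓝 x, p y) :
    ∀ᶠ y in residual X, p y :=
  residual_of_dense_open (isOpen_iff_mem_nhds.2 h1) fun x => mem_closure_iff_frequently.2 (h2 x)

end FibP

open FibP in
theorem sFib (h1 : SBad) (h2 : SNz) (h3 : SPar) (h4 : SFib1) : SFib := by
  intro X _ _ _ S L M Q hN hQ
  obtain ⟨B, hB, hb⟩ := h1 X S M.Z hN M.crv_Z
  have a1 : ∀ᶠ y in residual X, y ∉ M.Z :=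
    res (fun x hx => M.isClosed_Z.isOpen_compl.mem_nhds hx) fun x => not_eventually.1 (M.den_ne x)
  have a2 : ∀ᶠ y in residual X, ∀ s ∈ B, S.π y ≠ s :=
    (eventually_all_finite hB).2 fun s _ =>
      res (fun x hx => (Sf0.isClosed_fib s).isOpen_compl.mem_nhds hx) fun x =>
        not_eventually.1 fun h => hN x (h.mono fun y hy => hy.trans h.self_of_nhds.symm)
  have a3 : ∀ᶠ y in residual X, ∀ P ∈ Q, ¬ M.Van P → y ∉ M.Z ∧ M.ev P y ≠ 0 :=
    (eventually_countable_ball hQ).2 fun P _ => eventually_imp_distrib_left.2 fun hP =>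
      res (fun x hx => Eventually.and (M.isClosed_Z.isOpen_compl.mem_nhds hx.1)
        ((continuousAt_ev M P hx.1).eventually_ne hx.2)) (h2 X S L M P hP)
  obtain ⟨p, b1, b2, b3⟩ := (dense_of_mem_residual (a1.and (a2.and a3))).nonempty
  obtain ⟨Γ⟩ := h3 X S L M (S.π p) fun q hq => hb q fun h => b2 _ h hq.symm
  obtain ⟨Φ, hΦ⟩ := h4 X S L M p Γ
  refine ⟨Φ, fun P hP => ?_⟩
  have c1 : (P.eval₂ MG.const (Φ.ξ Φ.p₀)).rep =ᶠ[𝓝[≠] 0] fun t => M.ev P (Γ.γ p t) := by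
    filter_upwards [MG.rep_eval₂ (Φ.ξ Φ.p₀) P, eventually_all.2 hΦ] with t d1 d2
    rw [d1, Mf.ev, funext d2]
    rfl
  rw [MG.eq_zero_iff]
  refine ⟨fun h => by_contra fun hv => ?_, fun hv =>
    c1.trans ((Γ.off p rfl).mono fun t ht => hv _ ht)⟩
  have c2 : Tendsto (Γ.γ p) (𝓝 0) (𝓝 p) := by
    have := (Γ.hol p rfl).self_of_nhds.1.1.tendsto
    rwa [Γ.zero p rfl] at this
  obtain ⟨t, d1, d2⟩ := ((c1.symm.trans h).and (eventually_nhdsWithin_of_eventually_nhds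
    (c2.eventually ((continuousAt_ev M P b1).eventually_ne (b3 P hP hv).2)))).exists
  exact d2 d1

end Pool.Agent.P.MP_7ede32_ag.Full
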