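import Pool.Agent.P.MP_7ede32_ag.Full.StC
import Pool.Agent.P.MP_7ede32_ag.Geo.Fac

/-!
Extension of a periodic section over the bad values, and factorisation of an entire curve.
-/

open Filter Topology Metric Set

noncomputable section

namespace Pool.Agent.P.MP_7ede32_ag.Full

open Geo

namespace FinXP

variable {X : Type} [MetricSpace X] {S : Sf0 X} {s₀ : ℂ ⧸ S.Λ} {C : S.Cfg s₀}

lemma extend {q g : ℂ → X} {O : Set ℂ} (hO : IsOpen O) (hn : ∀ w, ∃ p ∈ per C q, w + p ∈ O)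
    (hg : S.SecOn 0 g O) (he : ∀ w ∈ O, w ∉ C.Bt → g w = q w) :
    ∃ f, S.Hol f ∧ (∀ z, S.π (f z) = S.Λ.mkQ z) ∧ ∀ w ∉ C.Bt, f w = q w := by
  choose j hj hj' using hn
  have h1 : ∀ p ∈ per C q, ∀ w, w ∉ C.Bt → w + p ∈ O → g (w + p) = q w := fun p hp w h h' =>
    (he _ h' fun h2 => h ((Sf0.Cfg.add_mem_Bt hp.1).1 h2)).trans (hp.2 w h)
  have h2 : ∀ p w : ℂ, w + p ∈ O → S.HolAt (fun z => g (z + p)) w := fun p w h =>
    Sf0.HolAt.comp (f := g) (φ := fun z => z + p) (hg _ h).1 (by fun_prop)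
  have h3 : ∀ p w : ℂ, w + p ∈ O → ∀ᶠ z in 𝓝 w, z + p ∈ O := fun p w h =>
    (show ContinuousAt (fun z => z + p) w by fun_prop).eventually (hO.mem_nhds h)
  have h4 : ∀ p ∈ per C q, ∀ p' ∈ per C q, ∀ w, w + p ∈ O → w + p' ∈ O →
      g (w + p) = g (w + p') := fun p hp p' hp' w h h' => by
    refine tendsto_nhds_unique_of_eventuallyEq (l := 𝓝[≠] w)
      ((h2 p w h).1.tendsto.mono_left nhdsWithin_le_nhds)
      ((h2 p' w h').1.tendsto.mono_left nhdsWithin_le_nhds) ?_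
    filter_upwards [C.eventually_notMem_Bt w, (h3 p w h).filter_mono nhdsWithin_le_nhds,
      (h3 p' w h').filter_mono nhdsWithin_le_nhds] with z a1 a2 a3
    exact (h1 p hp z a1 a2).trans (h1 p' hp' z a1 a3).symm
  refine ⟨fun w => g (w + j w), fun w => FacP.holAt_congr (h2 _ w (hj' w)) ?_, fun w => ?_,
    fun w hw => h1 _ (hj w) w hw (hj' w)⟩
  · exact (h3 _ w (hj' w)).mono fun z hz => h4 _ (hj z) _ (hj w) z (hj' z) hz
  · rw [(hg _ (hj' w)).2, zero_add, Sf0.mk_eq_iff, add_sub_cancel_left]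
    exact (hj w).1

end FinXP

theorem sFinX : SFinX := by
  rintro X _ S s₀ C q h φ Ψ R₀ ρ w₁ w₀ hq0 hnet hρ ⟨hh, hφ, hπ⟩ hΨ b1 b2 b3
  have hg : S.SecOn 0 (h ∘ Ψ) (ball w₁ ρ) := fun w hw =>
    ⟨(hh _).comp (hΨ w hw).1, by rw [Function.comp_apply, hπ, (hΨ w hw).2, zero_add]⟩
  have hO : IsOpen (φ ⁻¹' C.Btᶜ) := C.isOpen_compl_Bt.preimage hφ.continuous
  have hz : Ψ w₀ ∈ φ ⁻¹' C.Btᶜ := by rwa [mem_preimage, (hΨ w₀ b1).2]
  have hq : ∀ z ∈ φ ⁻¹' C.Btᶜ, S.HolAt (q ∘ φ) z := fun z hz => (hq0 _ hz).1.comp (hφ z)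
  have e0 : ∀ᶠ w in 𝓝[≠] w₀, w ∈ ball w₁ ρ :=
    mem_nhdsWithin_of_mem_nhds (isOpen_ball.mem_nhds b1)
  have hc : (φ ⁻¹' C.Bt).Countable := by
    refine Countable.mono (s₂ := ⋃ c ∈ C.Bt, {z ∈ univ | φ z - c = 0})
      (fun z hz => mem_biUnion hz ⟨trivial, sub_self _⟩) (C.countable_Bt.biUnion fun c hc =>
      MP_26ad15_nt.countable_zeros isPreconnected_univ
        (fun z _ => (hφ.analyticAt z).sub analyticAt_const) fun h0 => b2 ?_)
    have e1 := h0 (Ψ w₀) trivial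
    rw [(hΨ w₀ b1).2] at e1
    rwa [sub_eq_zero.1 e1]
  have h1 : h =ᶠ[𝓝 (Ψ w₀)] q ∘ φ := by
    refine (Sf0.eventually_eq_or_ne (Eventually.of_forall hh)
      (Eventually.mono (hO.mem_nhds hz) hq)).resolve_right fun hn => ?_
    have ht : Tendsto Ψ (𝓝[≠] w₀) (𝓝[≠] (Ψ w₀)) := by
      refine tendsto_nhdsWithin_iff.2
        ⟨(hΨ w₀ b1).1.continuousAt.tendsto.mono_left nhdsWithin_le_nhds, ?_⟩
      filter_upwards [e0, self_mem_nhdsWithin] with w c1 c2 c3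
      exact c2 ((hΨ w c1).2.symm.trans ((congrArg φ c3).trans (hΨ w₀ b1).2))
    obtain ⟨w, c3, c1, c2⟩ := (b3.and_eventually ((ht.eventually hn).and e0)).exists
    exact c1 (c3.trans (congrArg q (hΨ w c2).2.symm))
  have h2 : EqOn h (q ∘ φ) (φ ⁻¹' C.Btᶜ) :=
    Sf0.eqOn_of_eventuallyEq hO (hc.isConnected_compl_of_one_lt_rank (by simp)).isPreconnected
      (fun w _ => hh w) hq hz h1
  obtain ⟨f, f1, f2, f3⟩ := FinXP.extend (C := C) (q := q) isOpen_ball (fun w => by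
    obtain ⟨p, hp, hd⟩ := hnet (w₁ - w)
    refine ⟨p, hp, lt_of_le_of_lt ?_ (hd.trans_lt hρ)⟩
    rw [dist_comm, dist_eq_norm, dist_eq_norm, sub_sub]) hg fun w c1 c2 =>
    (h2 (show Ψ w ∈ φ ⁻¹' C.Btᶜ by rwa [mem_preimage, (hΨ w c1).2])).trans
      (congrArg q (hΨ w c1).2)
  refine ⟨f, f1, f2, hh.eq_of_eventually (fun z => (f1 _).comp (hφ z)) (z₀ := Ψ w₀) ?_⟩
  filter_upwards [hO.mem_nhds hz] with z c1
  exact (h2 c1).trans (f3 _ c1).symm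

end Pool.Agent.P.MP_7ede32_ag.Full
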