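import Pool.Agent.P.MP_7ede32_ag.Full.StC

/-!
The height bound makes a section good.
-/

open Filter Topology Metric Set

noncomputable section

namespace Pool.Agent.P.MP_7ede32_ag.Full

open Geo

namespace GoodJ

lemma add_mem_G {D : Discs} {p w : ℂ} {t : ℝ} (hp : D.Per (-p)) (hw : w ∈ D.G t) :
    w + p ∈ D.G t := fun c hc => by
  have h := hw _ (hp c hc).1
  rwa [(hp c hc).2, dist_eq_norm, show w - (c + -p) = w + p - c by ring, ← dist_eq_norm] at h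

lemma small {κ C l E : ℝ} {k : ℕ} (hκ : 0 < κ) (hk : 0 < k) (hC : 0 < C) (hl : 1 ≤ l)
    (hE : 0 ≤ E) (h : 2 * k * Real.log C / κ ≤ E) :
    C * Real.exp (-(κ * l ^ 2 * E) / k) ≤ Real.exp (-(κ / (2 * k) * l ^ 2 * E)) := by
  have hk' : (0 : ℝ) < k := by exact_mod_cast hk
  have h1 : 2 * k * Real.log C ≤ κ * l ^ 2 * E := by
    rw [div_le_iff₀ hκ] at h
    have h2 : 1 ≤ l ^ 2 := one_le_pow₀ hl
    nlinarith [mul_nonneg hκ.le hE]
  rw [← Real.exp_log hC, ← Real.exp_add, Real.exp_le_exp]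
  have h3 : Real.log C ≤ κ * l ^ 2 * E / (2 * k) := by
    rw [le_div_iff₀ (by positivity)]
    linarith
  have h4 : -(κ * l ^ 2 * E) / k = -(κ / (2 * k) * l ^ 2 * E) - κ * l ^ 2 * E / (2 * k) := by
    field_simp
    ring
  linarith

end GoodJ

open GoodJ in
theorem sGoodJ (h1 : SDiscs) (h2 : SQUni) (h3 : SJMain) : SGoodJ := by
  intro X _ S s₀ C L M δ κ R₀ U h q φ χ hδ hκ hL hq hnet hQ hmer hHB hG0 hφ0 hQ0 hne
  obtain ⟨D, hper, hw0, hK⟩ := h1 (per C q) R₀ δ C.Bt {w | w ∉ C.Bt ∧ ¬ M.QL χ U q w} (φ 0) hnet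
    hδ.1 hδ.2.2 (fun p hp c hc => (Sf0.Cfg.add_mem_Bt hp.1).2 hc)
    (fun p hp c hc => ⟨fun h => hc.1 ((Sf0.Cfg.add_mem_Bt hp.1).1 h), fun ⟨k, C', η, hη, h⟩ =>
      hc.2 ⟨k, C', η, hη, by
        filter_upwards [((continuous_add_const p).tendsto c).eventually h,
          C.isOpen_compl_Bt.mem_nhds hc.1] with w a b
        rwa [hp.2 w b] at a⟩⟩)
    (fun w hw => (hQ w (mem_interior_Cr hδ hw)).mono fun z hz hz' => hz'.2 hz)
    (fun h => h.2 hQ0) hφ0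
  have hB : ∀ w ∈ D.G (-(2 * D.θ)), w ∉ C.Bt := fun w hw hb => by
    have := (hK w hw).2 w hb
    rw [dist_self] at this
    linarith [hδ.1]
  obtain ⟨k, C', η, B, hk, hC', hη, hU⟩ := h2 X S L M U q χ (per C q) R₀ (D.G (-(2 * D.θ))) hnet
    (D.isClosed_G _)
    (fun p hp w hw => ⟨add_mem_G (hper _ (neg_mem hp)) hw, hp.2 w (hB w hw)⟩)
    (fun w hw => ⟨(hq w (hB w hw)).1.1, not_not.1 fun h => (hK w hw).1 ⟨hB w hw, h⟩⟩)
  have hk' : (0 : ℝ) < k := by exact_mod_cast hk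
  have hg : ∀ z, M.Gd χ (h z) → AnalyticAt ℂ (M.ext χ ∘ h) z := fun z hz =>
    anAt_comp hz.anAt (Eventually.of_forall hL.1)
  obtain ⟨C₂, r₀, hJ⟩ := h3 D (per C q) R₀ B (κ / (2 * k)) (M.ext χ ∘ q) (M.ext χ ∘ h) φ
    (by positivity) hnet
    (fun p hp => ⟨hper p hp, fun w hw => by
      simp only [Function.comp, hp.2 w (hB w (D.Go_subset_G hw))]⟩)
    (fun w hw => by
      have hw' := D.Go_subset_G hw
      refine (anAt_comp ((hU w hw').2 (q w) rfl (by simpa using hη.le)).1.anAt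
        ?_).differentiableAt.differentiableWithinAt
      filter_upwards [C.isOpen_compl_Bt.mem_nhds (hB w hw')] with z hz
      exact (hq z hz).1)
    (fun w hw => (hU w (D.Go_subset_G hw)).1) hL.2.1 hmer hHB (hg 0 hG0) hw0 hne
  refine ⟨η, hη, max C₂ (max 2 (2 * k * Real.log C' / κ)), max r₀ 1,
    fun z₁ l a E Ψ hW hz hl hE H => ?_⟩
  have ha : 1 ≤ a ^ 3 := one_le_pow₀ hW.one_le
  have hm : (2 : ℝ) ≤ max C₂ (max 2 (2 * k * Real.log C' / κ)) :=
    (le_max_left _ _).trans (le_max_right _ _)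
  have hE' : max C₂ (max 2 (2 * k * Real.log C' / κ)) ≤ E :=
    (le_mul_of_one_le_right (by linarith) ha).trans hE
  refine (hJ z₁ l a E Ψ hW ((le_max_left _ _).trans hz) ((le_max_left _ _).trans hl)
    ((mul_le_mul_of_nonneg_right (le_max_left _ _) (by linarith)).trans hE) ?_).elim
  rintro w ⟨hw, hb⟩
  have hw' := D.Go_subset_G hw
  obtain ⟨d1, d2⟩ := H w ⟨hb, mem_interior_Cr hδ fun c hc => by
    linarith [(hK w hw').2 c hc, hδ.1]⟩
  obtain ⟨g1, g2⟩ := (hU w hw').2 (h (Ψ w))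
    (by rw [hL.2.2, (hW.inv_ball (hm.trans hE') hb).2, (hq w (hB w hw')).2, zero_add]) d1
  have hE0 : 0 ≤ E := by linarith
  refine ⟨hg _ g1, (g2 (Real.exp (-(κ * l ^ 2 * E) / k)) (Real.exp_pos _) ?_ ?_).trans
    (small hκ hk hC' ((le_max_right _ _).trans hl) hE0
      (((le_max_right _ _).trans (le_max_right _ _)).trans hE'))⟩
  · rw [Real.exp_le_one_iff]
    exact div_nonpos_of_nonpos_of_nonneg (neg_nonpos.2 (by positivity)) hk'.le
  · rwa [← Real.exp_nat_mul, mul_div_cancel₀ _ hk'.ne']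

end Pool.Agent.P.MP_7ede32_ag.Full
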