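import Pool.Agent.P.MP_7ede32_ag.Full.StC

/-!
A trap makes a section good.
-/

open Filter Topology Metric Set

noncomputable section

namespace Pool.Agent.P.MP_7ede32_ag.Full

open Geo

theorem sGoodT : SGoodT := by
  rintro X _ S s₀ C δ κ R₀ U h q φ T hδ hL hN ⟨w₀, r, η, hr, hη, hb, ht⟩ hT hc
  refine ⟨η, hη, 2, 200 * (R₀ + r), fun z₁ l a E Ψ hW _ hl hE hd => ?_⟩
  have hE' : 2 ≤ E := by nlinarith [one_le_pow₀ (n := 3) hW.one_le]
  obtain ⟨p, hp, hp'⟩ := hN (φ z₁ - w₀)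
  have h1 : ∀ w ∈ ball (w₀ + p) r, w - p ∈ ball w₀ r := fun w hw => by
    rwa [mem_ball, dist_eq_norm, sub_right_comm, sub_sub, ← dist_eq_norm]
  have h2 : ball (w₀ + p) r ⊆ interior (C.Cr (δ / 2)) :=
    interior_maximal (fun w hw => by
      simpa using Sf0.Cfg.add_mem_Cr hp.1 (interior_subset (hb (h1 w hw)))) isOpen_ball
  have h3 : ball (w₀ + p) r ⊆ ball (φ z₁) (l / 200) := fun w hw => by
    have e : dist (φ z₁) (w₀ + p) = dist (φ z₁ - w₀) p := by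
      rw [dist_eq_norm, dist_eq_norm, sub_sub]
    have := dist_triangle_right w (φ z₁) (w₀ + p)
    rw [mem_ball] at hw ⊢
    linarith
  have h4 : ∀ w ∈ interior (C.Cr (δ / 2)), w ∉ C.Bt := fun w hw =>
    Sf0.Cfg.Cr_subset (half_pos hδ) (interior_subset hw)
  refine ⟨w₀ + p, h3 (mem_ball_self hr), h4 _ (h2 (mem_ball_self hr)), ?_⟩
  have h5 := mem_closure_iff_frequently.1
    (((hc.image φ).insert (w₀ + p)).dense_compl ℂ (w₀ + p))
  refine frequently_nhdsWithin_iff.2 ((h5.and_eventually (ball_mem_nhds _ hr)).mono ?_)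
  rintro w ⟨a1, a2⟩
  rw [mem_compl_iff, mem_insert_iff, not_or] at a1
  refine ⟨?_, a1.1⟩
  have e := (hW.inv_ball hE' (h3 a2)).2
  have b1 := h4 _ (hb (h1 w a2))
  have b2 : q w = q (w - p) := by
    have := hp.2 _ b1
    rwa [sub_add_cancel] at this
  rw [b2]
  refine ht _ (h1 w a2) _ ?_ (b2 ▸ (hd w ⟨h3 a2, h2 a2⟩).1) (hT p hp _ b1 _ ?_)
  · rw [hL.2.2, e]
    exact Sf0.mk_eq_iff.2 (by simpa using hp.1)
  · rw [sub_add_cancel]
    by_contra k
    exact a1.2 ⟨Ψ w, by simpa [e] using k, e⟩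

end Pool.Agent.P.MP_7ede32_ag.Full
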