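import Pool.Agent.P.MP_7ede32_ag.Full.StC
import Pool.Agent.P.MP_7ede32_ag.Full.L2B

/-!
The height bound for a generic entire curve.
-/

open Filter Topology Metric Set ValueDistribution

noncomputable section

namespace Pool.Agent.P.MP_7ede32_ag.Full

open Geo

namespace Hbg

theorem bd0_congr {f g φ : ℂ → ℂ} (h : f =ᶠ[codiscrete ℂ] g) (hg : Bd0 g φ) : Bd0 f φ := by
  obtain ⟨C, hC⟩ := hg
  refine ⟨C, fun R M h1 h2 h3 => ?_⟩
  rw [characteristic_congr_codiscrete h (zero_lt_one.trans_le h1).ne']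
  exact hC R M h1 h2 h3

theorem hb_congr {f g φ : ℂ → ℂ} (h : f =ᶠ[codiscrete ℂ] g) (hf : HB f φ) : HB g φ := by
  obtain ⟨C, hC⟩ := hf
  refine ⟨C, fun r R M h1 h2 h3 h4 => ?_⟩
  rw [← characteristic_congr_codiscrete h (zero_lt_one.trans_le h1).ne']
  exact hC r R M h1 h2 h3 h4

theorem bd0_const (c : ℂ) (φ : ℂ → ℂ) : Bd0 (fun _ => c) φ := by
  refine ⟨Real.posLog ‖c‖, fun R M _ h2 _ => ?_⟩
  simp only [characteristic, Pi.add_apply, proximity_const, logCounting_const, Pi.zero_apply,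
    add_zero]
  exact le_mul_of_one_le_right Real.posLog_nonneg (one_le_pow₀ h2)

variable {X : Type} [MetricSpace X] {S : Sf0 X} {L : PeriodPair} (M : Mf S L) {h : ℂ → X}

/-- the functions of the family along the curve -/
def zt (hh : S.Hol h) (i : M.ι) : Mer :=
  Mer.mk (M.f i ∘ h) fun _ => M.mero i (Eventually.of_forall hh)

theorem rep_zt (hh : S.Hol h) (i : M.ι) : (zt M hh i).rep =ᶠ[codiscrete ℂ] M.f i ∘ h :=
  Mer.rep_mk _ _

theorem rep_ev (hh : S.Hol h) (P : MvPolynomial M.ι ℂ) :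
    (P.eval₂ Mer.const (zt M hh)).rep =ᶠ[codiscrete ℂ] fun z => M.ev P (h z) := by
  filter_upwards [Mer.rep_eval₂ (zt M hh) P, eventually_all.2 (rep_zt M hh)] with z h1 h2
  rw [h1, Mf.ev]
  simp only [h2, Function.comp]

theorem key (hh : S.Hol h) (hG : M.Gen h) (P : MvPolynomial M.ι ℂ) :
    P.eval₂ Mer.const (zt M hh) = 0 ↔ M.Van P := by
  rw [Mer.eq_zero_iff]
  refine ⟨fun h1 => hG.2 P fun z hz => ?_, fun h1 => ?_⟩
  · have h2 : ContinuousAt (fun w => M.ev P (h w)) z :=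
      P.continuous_eval.continuousAt.comp (f := fun w i => M.f i (h w))
        (continuousAt_pi.2 fun i => (M.anAt_f i hz).continuousAt.comp (hh z).1)
    exact tendsto_nhds_unique_of_eventuallyEq (h2.tendsto.mono_left nhdsWithin_le_nhds)
      tendsto_const_nhds (cd_iff.1 ((rep_ev M hh P).symm.trans h1) z)
  · filter_upwards [rep_ev M hh P, cd_iff.2 (M.off hh hG.1)] with z h2 h3
    rw [h2, h1 _ h3]

theorem sq_eq {φ : ℂ → ℂ} (hφ : Differentiable ℂ φ) {u p : Mer}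
    (hu : ∀ᶠ z in codiscrete ℂ, φ z ∉ L.lattice ∧ u.rep z = L.weierstrassP (φ z))
    (hp : p.rep =ᶠ[codiscrete ℂ] deriv φ) :
    Mer.D u ^ 2 = p ^ 2 * (4 * u ^ 3 - Mer.const L.g₂ * u - Mer.const L.g₃) := by
  have h1 : u.rep =ᶠ[codiscrete ℂ] L.weierstrassP ∘ φ := hu.mono fun _ h => h.2
  have h2 : MvPolynomial.eval₂ Mer.const ![Mer.D u, p, u]
      (MvPolynomial.X 0 ^ 2 - MvPolynomial.X 1 ^ 2 * (4 * MvPolynomial.X 2 ^ 3 -
        MvPolynomial.C L.g₂ * MvPolynomial.X 2 - MvPolynomial.C L.g₃) :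
          MvPolynomial (Fin 3) ℂ) = 0 := by
    rw [Mer.eq_zero_iff]
    refine (Mer.rep_eval₂ _ _).trans ?_
    filter_upwards [hu, hp, Mer.rep_D u, cd_deriv h1] with z a1 a2 a3 a4
    have a5 : deriv (L.weierstrassP ∘ φ) z = L.derivWeierstrassP (φ z) * deriv φ z := by
      rw [deriv_comp z (L.analyticOnNhd_weierstrassP _ a1.1).differentiableAt (hφ z),
        L.deriv_weierstrassP]
    have a6 := L.derivWeierstrassP_sq _ a1.1
    simp only [map_sub, map_mul, map_pow, MvPolynomial.eval_X, MvPolynomial.eval_C, map_ofNat,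
      Matrix.cons_val_zero, Matrix.cons_val_one, Matrix.cons_val, a1.2, a2, a3, a4, a5]
    rw [← a6]
    ring
  rw [← sub_eq_zero, ← h2, ← MvPolynomial.coe_eval₂Hom]
  simp only [map_sub, map_mul, map_pow, MvPolynomial.eval₂Hom_X', MvPolynomial.eval₂Hom_C,
    map_ofNat, Matrix.cons_val_zero, Matrix.cons_val_one, Matrix.cons_val]

end Hbg

open Hbg in
theorem sHbg (h1 : SIndep) (h2 : SSieg) (h3 : SAlgH) (h4 : SFib) (h5 : SL2B) (h6 : SCert)
    (h7 : SHba) (h8 : SG4) : SHbg := by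
  intro X _ _ _ S L M h φ hNc hL hG h0
  classical
  obtain ⟨hh, hφ, hπ⟩ := hL
  obtain ⟨ζ, hζ⟩ : ∃ ζ, ζ = zt M hh := ⟨_, rfl⟩
  have hkey : ∀ P : MvPolynomial M.ι ℂ, P.eval₂ Mer.const ζ = 0 ↔ M.Van P := hζ ▸ key M hh hG
  have hrep : ∀ i, (ζ i).rep =ᶠ[codiscrete ℂ] M.f i ∘ h := hζ ▸ rep_zt M hh
  have hu : ∀ᶠ z in codiscrete ℂ, φ z ∉ L.lattice ∧ (ζ M.iu).rep z = L.weierstrassP (φ z) := by
    filter_upwards [hrep M.iu, cd_iff.2 (M.off hh hG.1)] with z a1 a2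
    exact ⟨(M.hu _ a2 _ (hπ z)).1, a1.trans (M.hu _ a2 _ (hπ z)).2⟩
  have hind : ∀ P : MvPolynomial (Fin 2) ℂ, P.eval₂ Mer.const ![ζ M.iu, ζ M.ix] = 0 → P = 0 := by
    intro P hP
    refine h1 X S L M hNc P ((hkey _).1 ?_)
    rw [MvPolynomial.eval₂_rename, ← hP]
    congr 1
    funext j
    fin_cases j <;> rfl
  have hdep : ∀ i, ∃ P : MvPolynomial (Fin 3) ℂ, P ≠ 0 ∧
      P.eval₂ Mer.const ![ζ M.iu, ζ M.ix, ζ i] = 0 := by
    intro i
    obtain ⟨P, hP, hP'⟩ := h2 X S L M ![M.iu, M.ix, i]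
    refine ⟨P, hP, ?_⟩
    rw [← (hkey _).2 hP', MvPolynomial.eval₂_rename]
    congr 1
    funext j
    fin_cases j <;> rfl
  obtain ⟨k₀, hk, hs, hx, hall⟩ :=
    h3 M.ι Mer Mer.const ζ (ζ M.iu) (ζ M.ix) {L.g₂, L.g₃} hind hdep
  have hdφ : Differentiable ℂ (deriv φ) := hφ.deriv
  obtain ⟨p, hp⟩ : ∃ p : Mer, p.rep =ᶠ[codiscrete ℂ] deriv φ :=
    ⟨Mer.mk _ fun z => (hdφ.analyticAt z).meromorphicAt, Mer.rep_mk _ _⟩
  have hp0 : p ≠ 0 := by
    rintro rfl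
    have a1 := cd_eq hdφ.continuous continuous_const (hp.symm.trans Mer.rep_zero)
    have a2 : ζ M.iu = Mer.const (L.weierstrassP (φ 0)) := Mer.ext' (by
      filter_upwards [hu, Mer.rep_const (L.weierstrassP (φ 0))] with z b1 b2
      rw [b1.2, b2, is_const_of_deriv_eq_zero hφ (congrFun a1) z 0])
    have a3 := hind (MvPolynomial.X 0 - MvPolynomial.C (L.weierstrassP (φ 0))) (by
      rw [MvPolynomial.eval₂_sub, MvPolynomial.eval₂_X, MvPolynomial.eval₂_C, ← a2]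
      simp)
    simpa using congrArg (MvPolynomial.eval fun _ => L.weierstrassP (φ 0) + 1) a3
  obtain ⟨G, hGd⟩ : ∃ G, G = insert (ζ M.iu) (Mer.const '' k₀) := ⟨_, rfl⟩
  rw [← hGd] at hall
  have hGs : G ⊆ insert (ζ M.iu) (range Mer.const) :=
    hGd ▸ insert_subset_insert (image_subset_range _ _)
  have hD : ∀ g ∈ G, (Mer.derM p⁻¹).D g ∈ acl G := by
    intro g hg
    have hc : ∀ c ∈ k₀, Mer.const c ∈ acl G := fun c hc =>
      subset_acl G (hGd ▸ Or.inr ⟨c, hc, rfl⟩)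
    have hu' : ζ M.iu ∈ acl G := subset_acl G (hGd ▸ Or.inl rfl)
    change p⁻¹ * Mer.D g ∈ acl G
    rcases (hGd ▸ hg : g ∈ insert (ζ M.iu) (Mer.const '' k₀)) with rfl | ⟨c, -, rfl⟩
    · have a1 : (p⁻¹ * Mer.D (ζ M.iu)) ^ 2 =
          4 * ζ M.iu ^ 3 - Mer.const L.g₂ * ζ M.iu - Mer.const L.g₃ := by
        rw [mul_pow, sq_eq hφ hu hp, ← mul_assoc, ← mul_pow, inv_mul_cancel₀ hp0, one_pow, one_mul]
      have a2 : (p⁻¹ * Mer.D (ζ M.iu)) ^ 2 ∈ acl G := by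
        rw [a1]
        exact sub_mem (sub_mem (mul_mem (ofNat_mem _ 4) (pow_mem hu' 3))
          (mul_mem (hc _ (hs (by simp))) hu')) (hc _ (hs (by simp)))
      exact mem_acl_of_isAlgebraic (algebraMap (acl G) Mer).injective (fun r => r.2)
        (IsAlgebraic.of_pow two_pos (isAlgebraic_algebraMap (⟨_, a2⟩ : acl G)))
    · rw [Mer.D_const, mul_zero]
      exact zero_mem _
  have hQ : (range (MvPolynomial.map (σ := M.ι) k₀.subtype)).Countable := by
    have : Countable (MvPolynomial M.ι k₀) := Cardinal.mk_le_aleph0_iff.1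
      (MvPolynomial.cardinalMk_le_max.trans
        (max_le (max_le Cardinal.mk_le_aleph0 Cardinal.mk_le_aleph0) le_rfl))
    exact countable_range _
  obtain ⟨Φ, hΦ⟩ := h4 X S L M _ hNc hQ
  let i := algebraMap Mer (AlgebraicClosure Mer)
  let Γ : Finset Mer := Finset.univ.image ζ
  have hΓ : ∀ j, ζ j ∈ Γ := fun j => Finset.mem_image_of_mem ζ (Finset.mem_univ j)
  have hcert : Cert (Mer.derM p⁻¹) G (ζ M.ix) := by
    refine h6 Mer (AlgebraicClosure Mer) _ G Γ (ζ M.ix) (ζ M.ia) M.μ (acl (i '' G))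
      (IntermediateField.adjoin _ (i '' (Γ : Set Mer)))
      ⟨i (ζ M.ix), IntermediateField.subset_adjoin _ _ (mem_image_of_mem i (hΓ _))⟩
      ⟨i (ζ M.ia), IntermediateField.subset_adjoin _ _ (mem_image_of_mem i (hΓ _))⟩ rfl rfl rfl rfl hD (hΓ _)
      (fun a => hx (acl_mono hGs a)) (fun y hy => ?_) (fun a => ?_) M.μ_pos ?_
      fun a => hx (acl_mono (union_subset hGs fun c hc => ?_) a)
    · obtain ⟨j, -, rfl⟩ := Finset.mem_image.1 hy
      exact hall j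
    · have a1 := (hkey (MvPolynomial.X M.ia)).1 (by rwa [MvPolynomial.eval₂_X]) _ h0
      exact M.a_ne _ h0 (by simpa [Mf.ev] using a1)
    · refine h5 M.ι _ M.iu M.ix M.ia M.μ Φ (i.comp Mer.const) (i ∘ ζ) k₀ _ _ _ _ ?_ ?_ rfl rfl
        (fun a => hx (acl_mono hGs (L2B.acl_comap i G a))) (fun j => ?_) fun P => ?_
      · rw [hGd, image_insert_eq, image_image]
        rfl
      · simp only [Γ, Finset.coe_image, Finset.coe_univ, image_univ, range_comp, i]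
      · refine acl_mono ?_ (L2B.acl_map i _ (hall j))
        rw [image_insert_eq]
        exact insert_subset_insert (subset_acl _)
      · rw [← MvPolynomial.eval₂_comp_left, map_eq_zero, hkey, hΦ _ ⟨P, rfl⟩]
    · have a1 : p⁻¹ * Mer.D c = 0 := hc
      obtain ⟨z, rfl⟩ := Mer.const_of_D ((mul_eq_zero.1 a1).resolve_left (inv_ne_zero hp0))
      exact Or.inr ⟨z, rfl⟩
  refine hb_congr (hrep M.ix) (h7 φ p (ζ M.ix) G hφ hp hp0 hcert fun g hg => ?_)
  rcases (hGd ▸ hg : g ∈ insert (ζ M.iu) (Mer.const '' k₀)) with rfl | ⟨c, -, rfl⟩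
  · exact bd0_congr (hu.mono fun _ a => a.2) (h8 L φ hφ (M.hu _ h0 _ (hπ 0)).1)
  · exact bd0_congr (Mer.rep_const c) (bd0_const c φ)

end Pool.Agent.P.MP_7ede32_ag.Full
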