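import Pool.Agent.P.MP_7ede32_ag.Full.StC

/-!
Liouville's theorem in a smooth fibre.
-/

open Filter Topology Metric Set

noncomputable section

namespace Pool.Agent.P.MP_7ede32_ag.Full

open Geo
open Ell (E2 jac const_of_deriv_ball)

namespace Hf2

theorem liouville {A : ℂ → ℂ} {N : Set ℂ} {C : ℝ} (hN : ∀ z, ∀ᶠ w in 𝓝[≠] z, w ∉ N)
    (h : ∀ z, ∃ g : ℂ → ℂ, (∀ᶠ w in 𝓝 z, DifferentiableAt ℂ g w ∧ (w ∉ N → A w = g w)) ∧
      ‖g z‖ ≤ C) : ∃ c, ∀ w ∉ N, A w = c := by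
  choose g h1 h2 using h
  have h3 : ∀ z, (fun w => g w w) =ᶠ[𝓝 z] g z := fun z => by
    filter_upwards [(h1 z).eventually_nhds] with w hw
    refine tendsto_nhds_unique_of_eventuallyEq (l := 𝓝[≠] w)
      ((h1 w).self_of_nhds.1.continuousAt.tendsto.mono_left nhdsWithin_le_nhds)
      (hw.self_of_nhds.1.continuousAt.tendsto.mono_left nhdsWithin_le_nhds) ?_
    filter_upwards [hN w, eventually_nhdsWithin_of_eventually_nhds (h1 w),
      eventually_nhdsWithin_of_eventually_nhds hw] with u a1 a2 a3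
    rw [← a2.2 a1, a3.2 a1]
  have h4 : Differentiable ℂ fun w => g w w := fun z =>
    (h1 z).self_of_nhds.1.congr_of_eventuallyEq (h3 z)
  refine ⟨g 0 0, fun w hw => ((h1 w).self_of_nhds.2 hw).trans ?_⟩
  exact h4.apply_eq_apply_of_bounded
    (isBounded_iff_forall_norm_le.2 ⟨C, by rintro _ ⟨u, rfl⟩; exact h2 u⟩) w 0

variable {X : Type} [MetricSpace X] {S : Sf0 X} {L : PeriodPair}

/-- the local description of the family near the fibre -/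
def Loc (M : Mf S L) (s : ℂ ⧸ S.Λ) (B : ℝ) (V : Set X) : Prop :=
  ∃ e ∈ S.A, ∃ α β : X → ℂ, ∀ y ∈ V, y ∈ e.source ∧ (S.π y = s → (e y).1 = 0) ∧
    S.AnAt α y ∧ S.AnAt β y ∧ (‖e y‖ ≤ B ∧ ‖α y‖ ≤ B ∧ ‖β y‖ ≤ B) ∧ (y ∉ M.Z →
      D (M.f M.ix) e y (0, 1) ≠ 0 ∧ M.f M.ia y * D (M.f M.ix) e y (0, 1) ^ M.μ = α y ∧
        M.f M.ix y * M.f M.ia y * D (M.f M.ix) e y (0, 1) ^ M.μ = β y)

theorem Loc.mono {M : Mf S L} {s : ℂ ⧸ S.Λ} {B B' : ℝ} {V V' : Set X} (h : Loc M s B V)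
    (h1 : B ≤ B') (h2 : V' ⊆ V) : Loc M s B' V' := by
  obtain ⟨e, he, α, β, h⟩ := h
  refine ⟨e, he, α, β, fun y hy => ?_⟩
  obtain ⟨a1, a2, a3, a4, a5, a6⟩ := h y (h2 hy)
  exact ⟨a1, a2, a3, a4, ⟨a5.1.trans h1, a5.2.1.trans h1, a5.2.2.trans h1⟩, a6⟩

theorem bdd {Y : Type*} [NormedAddCommGroup Y] {f : X → Y} {p : X} (h : ContinuousAt f p) {B : ℝ}
    (hB : ‖f p‖ < B) : ∀ᶠ y in 𝓝 p, ‖f y‖ < B := h.norm.eventually_lt continuousAt_const hB

theorem loc_at (hP : SPch) (M : Mf S L) {p : X} (hp : ¬ S.Crit p) :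
    ∃ B, ∃ V ∈ 𝓝 p, Loc M (S.π p) B V := by
  obtain ⟨e, he, h0⟩ := (hP X S).1 p hp
  obtain ⟨α, β, h1, h2, h3⟩ := M.reg e p he
  have hρ := S.ρ_pos
  have hc := e.continuousAt he.2.1
  have h4 : ‖e p‖ = 0 := by rw [h0, norm_zero]
  refine ⟨‖α p‖ + ‖β p‖ + 1, _, ?_, e, he.1, α, β, fun y hy => hy⟩
  filter_upwards [e.open_source.mem_nhds he.2.1, he.2.2, h1.eventually, h2.eventually, h3,
    bdd hc (h4 ▸ hρ), bdd hc (B := ‖α p‖ + ‖β p‖ + 1) (by rw [h4]; positivity),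
    bdd h1.continuousAt (B := ‖α p‖ + ‖β p‖ + 1) (by linarith [norm_nonneg (β p)]),
    bdd h2.continuousAt (B := ‖α p‖ + ‖β p‖ + 1) (by linarith [norm_nonneg (α p)])]
    with y a1 a2 a3 a4 a5 a6 a7 a8 a9
  refine ⟨a1, fun hy => ?_, a3, a4, ⟨a7.le, a8.le, a9.le⟩, a5⟩
  rw [hy, h0, left_eq_add, Prod.fst_zero, sub_zero] at a2
  exact S.lam_zero ((Submodule.Quotient.mk_eq_zero _).1 a2) (by linarith [norm_fst_le (e y)])

theorem loc_unif [CompactSpace X] (hP : SPch) (M : Mf S L) {s : ℂ ⧸ S.Λ}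
    (hs : ∀ p, S.π p = s → ¬ S.Crit p) :
    ∃ B, ∃ l > 0, ∀ x ∈ {x | S.π x = s}, Loc M s B (ball x l) := by
  refine (Sf0.isClosed_fib s).isCompact.induction_on
    (p := fun T => ∃ B, ∃ l > 0, ∀ x ∈ T, Loc M s B (ball x l)) ⟨0, 1, one_pos, by simp⟩ ?_ ?_ ?_
  · rintro T T' h ⟨B, l, hl, h1⟩
    exact ⟨B, l, hl, fun x hx => h1 x (h hx)⟩
  · rintro T T' ⟨B, l, hl, h1⟩ ⟨B', l', hl', h2⟩
    refine ⟨max B B', min l l', lt_min hl hl', fun x hx => hx.elim (fun hx => ?_) fun hx => ?_⟩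
    · exact (h1 x hx).mono (le_max_left _ _) (ball_subset_ball (min_le_left _ _))
    · exact (h2 x hx).mono (le_max_right _ _) (ball_subset_ball (min_le_right _ _))
  · intro p hp
    obtain ⟨B, V, hV, h1⟩ := loc_at hP M (hs p hp)
    obtain ⟨r, hr, h2⟩ := Metric.mem_nhds_iff.1 hV
    refine ⟨ball p (r / 2), mem_nhdsWithin_of_mem_nhds (ball_mem_nhds p (half_pos hr)), B, r / 2,
      half_pos hr, fun x hx => (hp ▸ h1).mono le_rfl ((ball_subset_ball' ?_).trans h2)⟩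
    linarith [mem_ball.1 hx]

theorem deriv_x (M : Mf S L) {h : ℂ → X} (hh : S.Hol h) {e : OpenPartialHomeomorph X E2}
    (he : e ∈ S.A) {w : ℂ} (h1 : h w ∈ e.source) (h2 : ∀ᶠ u in 𝓝 w, (e (h u)).1 = 0)
    (h3 : h w ∉ M.Z) : deriv (M.f M.ix ∘ h) w =
      D (M.f M.ix) e (h w) (0, 1) * deriv (fun u => (e (h u)).2) w := by
  have h4 := ((hh w).2 e he h1).hasDerivAt
  have h5 : (deriv (e ∘ h) w).1 = 0 :=
    ((ContinuousLinearMap.fst ℂ ℂ ℂ).hasFDerivAt.comp_hasDerivAt w h4).unique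
      ((hasDerivAt_const w (0 : ℂ)).congr_of_eventuallyEq h2)
  have h6 : deriv (fun u => (e (h u)).2) w = (deriv (e ∘ h) w).2 :=
    ((ContinuousLinearMap.snd ℂ ℂ ℂ).hasFDerivAt.comp_hasDerivAt w h4).deriv
  rw [((M.anAt_f M.ix h3).hasDerivAt (hh w) he h1).deriv, h6, mul_comm, ← smul_eq_mul, ← map_smul,
    D]
  congr 1
  ext <;> simp [h5]

end Hf2

open Hf2 in
theorem sHf2 (h : SPch) : SHf2 := by
  intro X _ _ S L M s f hs hf huc hπ
  refine or_iff_not_imp_right.2 fun h0 => ?_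
  push Not at h0
  have hN := M.off hf h0
  obtain ⟨B, l, hl, hL⟩ := loc_unif h M hs
  obtain ⟨δ, hδ, hd⟩ := Metric.uniformContinuous_iff.1 huc l hl
  choose e he α β hl using fun z => hL (f z) (hπ z)
  replace hl := fun z (w : ℂ) (hw : w ∈ ball z δ) => hl z (f w) (hd hw)
  have hv : ∀ z, ∀ w ∈ ball z δ, AnalyticAt ℂ (fun u => (e z (f u)).2) w := fun z w hw =>
    analyticAt_snd.comp (hf.analyticAt (he z) (hl z w hw).1)
  have hx : ∀ z, ∀ w ∈ ball z δ, f w ∉ M.Z → deriv (M.f M.ix ∘ f) w =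
      D (M.f M.ix) (e z) (f w) (0, 1) * deriv (fun u => (e z (f u)).2) w := fun z w hw h3 =>
    deriv_x M hf (he z) (hl z w hw).1 ((isOpen_ball.eventually_mem hw).mono fun u hu =>
      (hl z u hu).2.1 (hπ u)) h3
  have hb : ∀ z, ‖deriv (fun u => (e z (f u)).2) z‖ ≤ 2 * B / δ := fun z => by
    refine Complex.norm_deriv_le_div_of_mapsTo_ball
      (fun w hw => (hv z w hw).differentiableAt.differentiableWithinAt) (fun w hw => ?_) hδ
    rw [mem_closedBall, dist_eq_norm]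
    linarith [norm_sub_le (e z (f w)).2 (e z (f z)).2, norm_snd_le (e z (f w)),
      norm_snd_le (e z (f z)), (hl z w hw).2.2.2.2.1.1, (hl z z (mem_ball_self hδ)).2.2.2.2.1.1]
  have key : ∀ (a : X → ℂ) (γ : ℂ → X → ℂ), (∀ z, ∀ w ∈ ball z δ, S.AnAt (γ z) (f w) ∧
      ‖γ z (f w)‖ ≤ B ∧ (f w ∉ M.Z →
        a (f w) * D (M.f M.ix) (e z) (f w) (0, 1) ^ M.μ = γ z (f w))) →
      ∃ c, ∀ w ∉ f ⁻¹' M.Z, a (f w) * deriv (M.f M.ix ∘ f) w ^ M.μ = c := fun a γ hγ => by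
    refine liouville (C := B * (2 * B / δ) ^ M.μ) hN fun z =>
      ⟨fun w => γ z (f w) * deriv (fun u => (e z (f u)).2) w ^ M.μ, ?_, ?_⟩
    · filter_upwards [ball_mem_nhds z hδ] with w hw
      refine ⟨((hγ z w hw).1.differentiableAt (hf w)).mul
        ((hv z w hw).deriv.differentiableAt.pow _), fun h3 => ?_⟩
      rw [hx z w hw h3, mul_pow, ← mul_assoc, (hγ z w hw).2.2 h3]
    · have h3 := (hγ z z (mem_ball_self hδ)).2.1
      rw [norm_mul, norm_pow]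
      exact mul_le_mul h3 (pow_le_pow_left₀ (norm_nonneg _) (hb z) _) (by positivity)
        ((norm_nonneg _).trans h3)
  obtain ⟨c, hc⟩ := key (M.f M.ia) α fun z w hw =>
    ⟨(hl z w hw).2.2.1, (hl z w hw).2.2.2.2.1.2.1, fun h3 => ((hl z w hw).2.2.2.2.2 h3).2.1⟩
  obtain ⟨c', hc'⟩ := key (fun y => M.f M.ix y * M.f M.ia y) β fun z w hw =>
    ⟨(hl z w hw).2.2.2.1, (hl z w hw).2.2.2.2.1.2.2, fun h3 => ((hl z w hw).2.2.2.2.2 h3).2.2⟩
  obtain ⟨z, hz⟩ := h0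
  have hn : ∀ᶠ w in 𝓝 z, f w ∉ M.Z := (hf z).1.eventually (M.isClosed_Z.isOpen_compl.mem_nhds hz)
  have hc0 : c = 0 := by
    by_contra h1
    have h2 : M.f M.ix ∘ f =ᶠ[𝓝 z] fun _ => c' / c := hn.mono fun w hw => by
      rw [eq_div_iff h1, ← hc w hw, ← hc' w hw, Function.comp_apply, mul_assoc]
    refine h1 ((hc z hz).symm.trans ?_)
    rw [h2.deriv_eq, deriv_const, zero_pow M.μ_pos.ne', mul_zero]
  obtain ⟨r, hr, h1⟩ := Metric.eventually_nhds_iff_ball.1 (hn.and (ball_mem_nhds z hδ))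
  have h2 : ∀ w ∈ ball z r, deriv (fun u => (e z (f u)).2) w = 0 := fun w hw => by
    have h3 := hc w (h1 w hw).1
    rw [hc0, mul_eq_zero, hx z w (h1 w hw).2 (h1 w hw).1] at h3
    exact (mul_eq_zero.1 (pow_eq_zero_iff M.μ_pos.ne' |>.1
      (h3.resolve_left (M.a_ne _ (h1 w hw).1)))).resolve_left
      ((hl z w (h1 w hw).2).2.2.2.2.2 (h1 w hw).1).1
  have h3 : f = fun _ => f z := by
    refine hf.eq_of_eventually (Sf0.hol_const _) (z₀ := z) ?_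
    filter_upwards [ball_mem_nhds z hr] with w hw
    have a1 := hl z w (h1 w hw).2
    have a2 := hl z z (mem_ball_self hδ)
    refine (e z).injOn a1.1 a2.1 (Prod.ext ((a1.2.1 (hπ w)).trans (a2.2.1 (hπ z)).symm) ?_)
    exact const_of_deriv_ball (f := fun u => (e z (f u)).2)
      (fun u hu => (hv z u (h1 u hu).2).differentiableAt.differentiableWithinAt) h2 hw
      (mem_ball_self hr)
  exact fun w => (congrFun h3 w).trans (congrFun h3 0).symm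

end Pool.Agent.P.MP_7ede32_ag.Full
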