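import Pool.Agent.P.MP_7ede32_ag.Full.StC

/-!
The Weierstrass function of the projection and a function that is not constant on the fibres
are algebraically independent.
-/

open Filter Topology Metric Set

noncomputable section

namespace Pool.Agent.P.MP_7ede32_ag.Full

open Geo
open Ell (E2 jac)

namespace Indep

/-- a polynomial that vanishes on the values of a continuous function that is not locally
constant is zero -/
lemma poly_zero {f : ℂ → ℂ} {z₀ : ℂ} (hf : ContinuousAt f z₀) (hn : ¬ ∀ᶠ z in 𝓝 z₀, f z = f z₀)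
    {p : Polynomial ℂ} (hp : ∀ᶠ z in 𝓝 z₀, p.eval (f z) = 0) : p = 0 := by
  by_contra h0
  have h1 : ({x | p.IsRoot x} \ {f z₀}).Finite := (p.finite_setOfPred_isRoot h0).sdiff
  have h2 : ∀ᶠ z in 𝓝 z₀, f z ∈ ({x | p.IsRoot x} \ {f z₀})ᶜ :=
    hf.eventually (h1.isClosed.isOpen_compl.mem_nhds fun h => h.2 rfl)
  refine hn ?_
  filter_upwards [hp, h2] with z h3 h4
  by_contra h5
  exact h4 ⟨h3, h5⟩

/-- the Weierstrass function is not locally constant -/
lemma wp_nc (L : PeriodPair) {w₀ : ℂ} (hw : w₀ ∉ L.lattice) :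
    ¬ ∀ᶠ w in 𝓝 w₀, L.weierstrassP w = L.weierstrassP w₀ := by
  intro h
  have hc : (L.lattice : Set ℂ).Countable := by
    refine countable_of_isolated fun w _ => ?_
    filter_upwards [mem_nhdsWithin_of_mem_nhds (L.compl_lattice_sdiff_singleton_mem_nhds w),
      self_mem_nhdsWithin] with w' h1 h2 h3
    exact h1 ⟨h3, h2⟩
  have h1 : EqOn L.weierstrassP (fun _ => L.weierstrassP w₀) (L.lattice : Set ℂ)ᶜ :=
    L.analyticOnNhd_weierstrassP.eqOn_of_preconnected_of_eventuallyEq analyticOnNhd_const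
      (hc.isConnected_compl_of_one_lt_rank (by simp)).isPreconnected hw h
  have h2 : L.weierstrassP =ᶠ[𝓝[≠] 0] fun _ => L.weierstrassP w₀ := by
    filter_upwards [mem_nhdsWithin_of_mem_nhds (L.compl_lattice_sdiff_singleton_mem_nhds 0),
      self_mem_nhdsWithin] with w' h3 h4
    exact h1 fun h5 => h3 ⟨h5, h4⟩
  have h3 := L.order_weierstrassP 0 (zero_mem _)
  rw [meromorphicOrderAt_congr h2] at h3
  have h4 : 0 ≤ meromorphicOrderAt (fun _ : ℂ => L.weierstrassP w₀) 0 :=
    analyticAt_const.meromorphicOrderAt_nonneg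
  rw [h3] at h4
  exact absurd h4 (by decide)

lemma eval_aeval (P : MvPolynomial (Fin 2) ℂ) (q : Fin 2 → Polynomial ℂ) (z : ℂ) :
    (MvPolynomial.aeval q P).eval z = MvPolynomial.eval (fun i => (q i).eval z) P := by
  induction P using MvPolynomial.induction_on with
  | C a => simp
  | add p q hp hq => simp [hp, hq]
  | mul_X p i hp => simp [hp]

lemma main (L : PeriodPair) {w₀ : ℂ} (hw : w₀ ∉ L.lattice) {G : E2 → ℂ}
    {P : MvPolynomial (Fin 2) ℂ}
    (h : ∀ᶠ u in 𝓝 (0 : E2), DifferentiableAt ℂ G u ∧ fderiv ℂ G u (0, 1) ≠ 0 ∧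
      MvPolynomial.eval ![L.weierstrassP (w₀ + u.1), G u] P = 0) : P = 0 := by
  have h1 : ∀ᶠ t in 𝓝 (0 : ℂ), ∀ b, MvPolynomial.eval ![L.weierstrassP (w₀ + t), b] P = 0 := by
    filter_upwards [Filter.Eventually.curry_nhds (x := (0 : ℂ)) (y := (0 : ℂ)) h] with t ht b
    have h2 := ht.self_of_nhds
    have h3 : HasDerivAt (fun v : ℂ => G (t, v)) (fderiv ℂ G (t, 0) (0, 1)) 0 :=
      HasFDerivAt.comp_hasDerivAt (0 : ℂ) (f := fun v : ℂ => ((t, v) : E2))
        h2.1.hasFDerivAt ((hasDerivAt_const _ t).prodMk (hasDerivAt_id' _))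
    have h4 : MvPolynomial.aeval
        ![Polynomial.C (L.weierstrassP (w₀ + t)), Polynomial.X] P = (0 : Polynomial ℂ) := by
      refine poly_zero h3.continuousAt (fun h5 => h2.2.1 ?_) ?_
      · exact h3.unique ((hasDerivAt_const _ _).congr_of_eventuallyEq h5)
      · filter_upwards [ht] with v hv
        rw [eval_aeval, ← hv.2.2]
        congr 2
        funext i
        fin_cases i <;> simp
    have h5 := congrArg (Polynomial.eval b) h4
    rw [eval_aeval, Polynomial.eval_zero] at h5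
    rw [← h5]
    congr 2
    funext i
    fin_cases i <;> simp
  have h2 : ∀ᶠ w in 𝓝 w₀, ∀ b, MvPolynomial.eval ![L.weierstrassP w, b] P = 0 := by
    have h3 : Tendsto (fun w => w - w₀) (𝓝 w₀) (𝓝 0) :=
      (continuous_sub_right w₀).tendsto' _ _ (sub_self _)
    simpa using h3.eventually h1
  refine MvPolynomial.funext fun x => ?_
  have h4 : MvPolynomial.aeval ![Polynomial.X, Polynomial.C (x 1)] P = (0 : Polynomial ℂ) := by
    refine poly_zero (L.analyticOnNhd_weierstrassP w₀ hw).continuousAt (wp_nc L hw) ?_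
    filter_upwards [h2] with w hw'
    rw [eval_aeval, ← hw' (x 1)]
    congr 2
    funext i
    fin_cases i <;> simp
  have h5 := congrArg (Polynomial.eval (x 0)) h4
  rw [eval_aeval, Polynomial.eval_zero] at h5
  rw [map_zero, ← h5]
  congr 2
  funext i
  fin_cases i <;> simp

end Indep

theorem sIndep (h : SPch) : SIndep := by
  intro X _ _ S L M hN P hP
  obtain ⟨h1, h2, -⟩ := h X S
  obtain ⟨x₁, hx₁⟩ := (not_eventually.1 (M.den_ne (Classical.arbitrary X))).exists
  obtain ⟨p, hp, hpZ⟩ := ((h2 hN x₁).and_eventually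
    (M.isClosed_Z.isOpen_compl.mem_nhds hx₁)).exists
  obtain ⟨e, he, he0⟩ := h1 p hp
  obtain ⟨w₀, hw₀⟩ := S.Λ.mkQ_surjective (S.π p)
  obtain ⟨α, β, -, -, hreg⟩ := M.reg e p he
  refine Indep.main L (M.hu p hpZ w₀ hw₀.symm).1 (G := M.f M.ix ∘ e.symm) ?_
  have h3 := Sf0.symm_eventually he.2.1 (((he.2.2.and hreg).and
    (M.isClosed_Z.isOpen_compl.mem_nhds hpZ)))
  have h4 := e.open_target.mem_nhds (e.map_source he.2.1)
  rw [he0] at h3 h4
  filter_upwards [h3, h4] with u hu hu'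
  obtain ⟨⟨a1, a2⟩, a3⟩ := hu
  have h5 := M.anAt_f M.ix a3 e he.1 (e.map_target hu')
  have h6 := (a2 a3).1
  rw [D, e.right_inv hu'] at h6
  rw [e.right_inv hu'] at h5 a1
  refine ⟨h5.differentiableAt, h6, ?_⟩
  have h7 := hP _ a3
  have h8 := (M.hu _ a3 (w₀ + u.1) (by rw [a1, ← hw₀, ← map_add]; simp)).2
  rw [Mf.ev, MvPolynomial.eval_rename] at h7
  rw [← h7, ← h8]
  congr 2
  funext i
  fin_cases i <;> simp

end Pool.Agent.P.MP_7ede32_ag.Full
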