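import Pool.Agent.P.MP_7ede32_ag.Full.StC

/-!
Holomorphic functions of two variables are analytic; division by a power of the second variable.
-/

open Filter Topology Metric Set

noncomputable section

namespace Pool.Agent.P.MP_7ede32_ag.Full

open Ell (E2)

namespace Osg

/-- continuous functions on the parameter interval of a circle -/
abbrev B := C(Icc (0 : ℝ) (2 * Real.pi), ℂ)

lemma exists_int : ∃ L : B →L[ℂ] ℂ, ∀ (g : B) (f : ℝ → ℂ),
    (∀ t : Icc (0 : ℝ) (2 * Real.pi), g t = f t) → L g = ∫ t in (0 : ℝ)..(2 * Real.pi), f t := by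
  have hab : (0 : ℝ) ≤ 2 * Real.pi := Real.two_pi_pos.le
  let L0 : B →ₗ[ℂ] ℂ :=
    { toFun := fun g => ∫ t in (0 : ℝ)..(2 * Real.pi), g (projIcc _ _ hab t)
      map_add' := fun g h => by
        simp only [ContinuousMap.add_apply]
        exact intervalIntegral.integral_add
          ((g.continuous.comp continuous_projIcc).intervalIntegrable _ _)
          ((h.continuous.comp continuous_projIcc).intervalIntegrable _ _)
      map_smul' := fun c g => by
        simp only [ContinuousMap.smul_apply, RingHom.id_apply]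
        exact intervalIntegral.integral_smul c _ }
  have hL0 : ∀ g, ‖L0 g‖ ≤ |2 * Real.pi - 0| * ‖g‖ := fun g => by
    rw [mul_comm _ ‖g‖]
    exact intervalIntegral.norm_integral_le_of_norm_le_const fun t _ => g.norm_coe_le_norm _
  refine ⟨L0.mkContinuous _ hL0, fun g f h => ?_⟩
  simp only [LinearMap.mkContinuous_apply]
  refine intervalIntegral.integral_congr fun t ht => ?_
  rw [uIcc_of_le hab] at ht
  simp only [projIcc_of_mem hab ht]
  exact h ⟨t, ht⟩

/-- separation of the variables by the Cauchy formula -/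
lemma rep {F : E2 → ℂ} {p : E2} (hF : ∀ᶠ y in 𝓝 p, DifferentiableAt ℂ F y) :
    ∃ (L : B →L[ℂ] ℂ) (A K : ℂ → B), AnalyticAt ℂ A p.1 ∧ AnalyticAt ℂ K p.2 ∧
      ∀ᶠ y in 𝓝 p, F y = L (K y.2 * A y.1) := by
  obtain ⟨r, hr, hd⟩ := Metric.eventually_nhds_iff_ball.1 hF
  obtain ⟨L, hL⟩ := exists_int
  set R := r / 2 with hR
  have hR0 : 0 < R := by positivity
  have hRr : R < r := by linarith
  have hmem : ∀ u ∈ ball p.1 r, ∀ ζ ∈ closedBall p.2 R, ((u, ζ) : E2) ∈ ball p r := by
    intro u hu ζ hζ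
    rw [← ball_prod_same]
    exact ⟨hu, closedBall_subset_ball hRr hζ⟩
  have hcm : ∀ t : ℝ, circleMap p.2 R t ∈ closedBall p.2 R := fun t =>
    sphere_subset_closedBall (circleMap_mem_sphere _ hR0.le t)
  have hne : ∀ v ∈ ball p.2 R, ∀ t : ℝ, circleMap p.2 R t - v ≠ 0 := fun v hv t =>
    sub_ne_zero.2 (circleMap_ne_mem_ball hv t)
  let ΦA : ℂ → Icc (0 : ℝ) (2 * Real.pi) → ℂ := fun u t => F (u, circleMap p.2 R t)
  let ΦK : ℂ → Icc (0 : ℝ) (2 * Real.pi) → ℂ := fun v t =>
    circleMap 0 R t * Complex.I * (circleMap p.2 R t - v)⁻¹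
  have hcA : ContinuousOn (fun q : ℂ × Icc (0 : ℝ) (2 * Real.pi) => ΦA q.1 q.2)
      (ball p.1 r ×ˢ univ) := by
    intro q hq
    have h1 : ContinuousAt F (q.1, circleMap p.2 R q.2) :=
      (hd _ (hmem _ hq.1 _ (hcm _))).continuousAt
    exact (h1.comp (f := fun q : ℂ × Icc (0 : ℝ) (2 * Real.pi) => (q.1, circleMap p.2 R q.2))
      (by fun_prop)).continuousWithinAt
  have hcK : ContinuousOn (fun q : ℂ × Icc (0 : ℝ) (2 * Real.pi) => ΦK q.1 q.2)
      (ball p.2 R ×ˢ univ) := by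
    intro q hq
    refine ContinuousAt.continuousWithinAt ?_
    exact ContinuousAt.mul (by fun_prop) (ContinuousAt.inv₀ (by fun_prop) (hne _ hq.1 _))
  have hA := MP_e711b0_an.differentiableOn_mkD (Φ := ΦA) isOpen_ball hcA fun t u hu =>
    ((hd _ (hmem _ hu _ (hcm t))).comp u (f := fun u : ℂ => ((u, circleMap p.2 R t) : E2))
      (by fun_prop)).differentiableWithinAt
  have hK := MP_e711b0_an.differentiableOn_mkD (Φ := ΦK) isOpen_ball hcK fun t v hv =>
    (DifferentiableAt.const_mul (DifferentiableAt.inv (by fun_prop) (hne _ hv _))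
      _).differentiableWithinAt
  refine ⟨(2 * Real.pi * Complex.I : ℂ)⁻¹ • L, _, _, hA.analyticAt (ball_mem_nhds _ hr),
    hK.analyticAt (ball_mem_nhds _ hR0), ?_⟩
  filter_upwards [ball_mem_nhds p hR0] with y hy
  rw [← ball_prod_same] at hy
  have hu : y.1 ∈ ball p.1 r := ball_subset_ball hRr.le hy.1
  have hA1 : Continuous (ΦA y.1) := continuousOn_univ.1
    (hcA.comp (f := fun t => (y.1, t)) (by fun_prop) fun t _ => ⟨hu, trivial⟩)
  have hK1 : Continuous (ΦK y.2) := continuousOn_univ.1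
    (hcK.comp (f := fun t => (y.2, t)) (by fun_prop) fun t _ => ⟨hy.2, trivial⟩)
  have hdf : ∀ ζ ∈ closedBall p.2 R, DifferentiableAt ℂ (fun ζ : ℂ => F (y.1, ζ)) ζ := fun ζ hζ =>
    (hd _ (hmem _ hu _ hζ)).comp ζ (f := fun ζ : ℂ => ((y.1, ζ) : E2)) (by fun_prop)
  have hC := Complex.two_pi_I_inv_smul_circleIntegral_sub_inv_smul_of_differentiable_on_off_countable
    (f := fun ζ : ℂ => F (y.1, ζ)) countable_empty hy.2
    (fun ζ hζ => (hdf ζ hζ).continuousAt.continuousWithinAt)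
    (fun ζ hζ => hdf ζ (ball_subset_closedBall hζ.1))
  rw [smul_apply, hL _ (fun t => circleMap 0 R t * Complex.I *
    (circleMap p.2 R t - y.2)⁻¹ * F (y.1, circleMap p.2 R t)) (fun t => by
      simp only [ContinuousMap.mkD_of_continuous hA1, ContinuousMap.mkD_of_continuous hK1,
        ContinuousMap.mul_apply, ContinuousMap.coe_mk, ΦA, ΦK])]
  refine hC.symm.trans ?_
  simp only [circleIntegral, deriv_circleMap, smul_eq_mul, mul_assoc]

lemma an_rep (L : B →L[ℂ] ℂ) {A K : ℂ → B} {p : E2} (hA : AnalyticAt ℂ A p.1)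
    (hK : AnalyticAt ℂ K p.2) : AnalyticAt ℂ (fun y : E2 => L (K y.2 * A y.1)) p :=
  (L.analyticAt _).comp ((hK.comp analyticAt_snd).mul (hA.comp analyticAt_fst))

lemma pow_mul_iter (L : B →L[ℂ] ℂ) (K : ℂ → B) (a : B) (v : ℂ) (k : ℕ)
    (h : ∀ j < k, L ((Function.swap dslope (0 : ℂ))^[j] K 0 * a) = 0) :
    L (K v * a) = v ^ k * L ((Function.swap dslope (0 : ℂ))^[k] K v * a) := by
  induction k with
  | zero => simp
  | succ k ih =>
    rw [ih fun j hj => h j (hj.trans (Nat.lt_succ_self k)), Function.iterate_succ_apply']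
    set G := (Function.swap dslope (0 : ℂ))^[k] K with hG
    have h1 : G v = G 0 + v • dslope G 0 v := by
      have := sub_smul_dslope G 0 v
      rw [sub_zero] at this
      rw [this]; abel
    have h2 : L (G 0 * a) = 0 := h k (Nat.lt_succ_self k)
    rw [h1, add_mul, map_add, h2, zero_add, smul_mul_assoc, map_smul, smul_eq_mul, pow_succ,
      mul_assoc]

end Osg

theorem sOsg : SOsg := by
  intro F p hF
  obtain ⟨L, A, K, hA, hK, h⟩ := Osg.rep hF
  exact (Osg.an_rep L hA hK).congr (EventuallyEq.symm h)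

theorem sDiv2 (_h : SOsg) : SDiv2 := by
  classical
  intro F hF hne
  obtain ⟨L, A, K, hA, hK, h⟩ :=
    Osg.rep (hF.eventually_analyticAt.mono fun y hy => hy.differentiableAt)
  simp only [Prod.fst_zero, Prod.snd_zero] at hA hK
  obtain ⟨q, hq⟩ := hK
  set Kj : ℕ → ℂ → Osg.B := fun j => (Function.swap dslope (0 : ℂ))^[j] K with hKj
  have hKa : ∀ j, AnalyticAt ℂ (Kj j) 0 := fun j =>
    ⟨_, hq.has_fpower_series_iterate_dslope_fslope j⟩
  have haa : ∀ j, ∀ u, AnalyticAt ℂ A u → AnalyticAt ℂ (fun u => L (Kj j 0 * A u)) u :=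
    fun j u hu => (L.analyticAt _).comp (analyticAt_const.mul hu)
  have hex : ∃ k, ¬ ∀ᶠ u in 𝓝 (0 : ℂ), L (Kj k 0 * A u) = 0 := by
    by_contra hc
    push Not at hc
    apply hne
    obtain ⟨r, hr, hAr⟩ := Metric.eventually_nhds_iff_ball.1 hA.eventually_analyticAt
    obtain ⟨ρ, hρ, hKr⟩ := Metric.eventually_nhds_iff_ball.1 (hKa 0).eventually_analyticAt
    have hz : ∀ j, ∀ u ∈ ball (0 : ℂ) r, L (Kj j 0 * A u) = 0 := fun j =>
      AnalyticOnNhd.eqOn_zero_of_preconnected_of_eventuallyEq_zero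
        (f := fun u => L (Kj j 0 * A u)) (fun u hu => haa j u (hAr u hu))
        (convex_ball _ _).isPreconnected (mem_ball_self hr) (hc j)
    have hz2 : ∀ u ∈ ball (0 : ℂ) r, ∀ v ∈ ball (0 : ℂ) ρ, L (K v * A u) = 0 := by
      intro u hu
      have hg : ∀ (G : ℂ → Osg.B) (v : ℂ), AnalyticAt ℂ G v →
          AnalyticAt ℂ (fun v => L (G v * A u)) v :=
        fun G v hG => (L.analyticAt _).comp (hG.mul analyticAt_const)
      have h0 : ∀ᶠ v in 𝓝 (0 : ℂ), L (K v * A u) = 0 := by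
        rw [← analyticOrderAt_eq_top]
        refine ENat.eq_top_iff_forall_ge.2 fun k => ?_
        rw [natCast_le_analyticOrderAt (hg K 0 (hKa 0))]
        refine ⟨fun v => L (Kj k v * A u), hg _ 0 (hKa k), Eventually.of_forall fun v => ?_⟩
        rw [sub_zero, smul_eq_mul]
        exact Osg.pow_mul_iter L K (A u) v k fun j _ => hz j u hu
      exact AnalyticOnNhd.eqOn_zero_of_preconnected_of_eventuallyEq_zero
        (f := fun v => L (K v * A u)) (fun v hv => hg K v (hKr v hv))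
        (convex_ball _ _).isPreconnected (mem_ball_self hρ) h0
    have h1 : ∀ᶠ y in 𝓝 (0 : E2), y.1 ∈ ball (0 : ℂ) r :=
      continuous_fst.continuousAt.eventually (ball_mem_nhds _ hr)
    have h2 : ∀ᶠ y in 𝓝 (0 : E2), y.2 ∈ ball (0 : ℂ) ρ :=
      continuous_snd.continuousAt.eventually (ball_mem_nhds _ hρ)
    filter_upwards [h, h1, h2] with y hy hy1 hy2
    rw [hy, hz2 _ hy1 _ hy2]
  refine ⟨Nat.find hex, fun y => L (Kj (Nat.find hex) y.2 * A y.1),
    Osg.an_rep L (p := 0) hA (hKa _), ?_, ?_⟩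
  · have h1 : ∀ᶠ u in 𝓝 (0 : ℂ), ∀ j ∈ Finset.range (Nat.find hex), L (Kj j 0 * A u) = 0 :=
      (eventually_all_finset _).2 fun j hj => not_not.1 (Nat.find_min hex (Finset.mem_range.1 hj))
    have h2 := (continuous_fst (X := ℂ) (Y := ℂ)).continuousAt (x := (0 : E2)) |>.eventually h1
    filter_upwards [h, h2] with y hy hy2
    rw [hy]
    exact Osg.pow_mul_iter L K (A y.1) y.2 _ fun j hj => hy2 j (Finset.mem_range.2 hj)
  · exact (haa _ 0 hA).eventually_eq_zero_or_eventually_ne_zero.resolve_left (Nat.find_spec hex)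

end Pool.Agent.P.MP_7ede32_ag.Full
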