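import Pool.Agent.P.MP_7ede32_ag.Full.StC

/-!
Local parametrisations of a good fibre.
-/

open Filter Topology Metric Set

noncomputable section

namespace Pool.Agent.P.MP_7ede32_ag.Full

open Geo
open Ell (E2 jac)

namespace ParP

variable {X : Type} [MetricSpace X] {S : Sf0 X} {e : OpenPartialHomeomorph X E2} {p : X} {t : ℂ}

/-- the vertical axis of a chart -/
def gm (e : OpenPartialHomeomorph X E2) (t : ℂ) : X := e.symm (0, t)

lemma hol_of (he : e ∈ S.A) (ht : ((0, t) : E2) ∈ e.target) :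
    S.HolAt (gm e) t ∧ deriv (e ∘ gm e) t = (0, 1) := by
  have h1 : HasDerivAt (fun u : ℂ => ((0, u) : E2)) (0, 1) t :=
    (hasDerivAt_const t 0).prodMk (hasDerivAt_id t)
  have h2 : HasDerivAt (e ∘ gm e) (0, 1) t := h1.congr_of_eventuallyEq (by
    filter_upwards [h1.continuousAt.eventually (e.open_target.mem_nhds ht)] with u hu
    exact e.right_inv hu)
  exact ⟨Sf0.holAt_of_chart ((e.continuousAt_symm ht).comp (f := fun u : ℂ => ((0, u) : E2))
    h1.continuousAt) he (e.map_target ht) h2.differentiableAt, h2.deriv⟩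

lemma gm_eq (hp : p ∈ e.source) (h : (e p).1 = 0) :
    ((0, (e p).2) : E2) ∈ e.target ∧ gm e (e p).2 = p := by
  have h1 : ((0, (e p).2) : E2) = e p := Prod.ext h.symm rfl
  rw [gm, h1]
  exact ⟨e.map_source hp, e.left_inv hp⟩

lemma zero (h : PCh S e p) (h0 : e p = 0) : ((0, 0) : E2) ∈ e.target ∧ gm e 0 = p := by
  simpa [h0] using gm_eq h.2.1 (by simp [h0])

lemma tgt (h : PCh S e p) (h0 : e p = 0) : ∀ᶠ t in 𝓝 (0 : ℂ), ((0, t) : E2) ∈ e.target :=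
  (by fun_prop : ContinuousAt (fun u : ℂ => ((0, u) : E2)) 0).eventually
    (e.open_target.mem_nhds (zero h h0).1)

lemma tend (h : PCh S e p) (h0 : e p = 0) : Tendsto (gm e) (𝓝 0) (𝓝 p) := by
  have := (hol_of h.1 (zero h h0).1).1.1.tendsto
  rwa [(zero h h0).2] at this

lemma hol (h : PCh S e p) (h0 : e p = 0) :
    ∀ᶠ t in 𝓝 (0 : ℂ), S.HolAt (gm e) t ∧ S.π (gm e t) = S.π p := by
  filter_upwards [tgt h h0, (tend h h0).eventually h.2.2] with t h1 h2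
  refine ⟨(hol_of h.1 h1).1, ?_⟩
  rw [h2, gm, e.right_inv h1, h0]
  simp

lemma tend' (h : PCh S e p) (h0 : e p = 0) : Tendsto (gm e) (𝓝[≠] 0) (𝓝[≠] p) := by
  refine tendsto_nhdsWithin_iff.2 ⟨(tend h h0).mono_left nhdsWithin_le_nhds, ?_⟩
  filter_upwards [self_mem_nhdsWithin, mem_nhdsWithin_of_mem_nhds (tgt h h0)] with t h1 h2 h3
  have h4 := e.right_inv h2
  rw [show e.symm (0, t) = p from h3, h0] at h4
  exact h1 (congrArg Prod.snd h4).symm

lemma fib (h : PCh S e p) (h0 : e p = 0) :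
    ∀ᶠ y in 𝓝 p, y ∈ e.source ∧ (S.π y = S.π p → (e y).1 = 0) := by
  obtain ⟨r, hr, hd⟩ := S.disc
  have h1 : Tendsto (fun y => (e y).1) (𝓝 p) (𝓝 0) := by
    simpa [h0] using (e.continuousAt h.2.1).fst.tendsto
  filter_upwards [e.open_source.mem_nhds h.2.1, h.2.2, h1.eventually (ball_mem_nhds 0 hr)]
    with y a1 a2 a3
  refine ⟨a1, fun a4 => hd _ ?_ (mem_ball_zero_iff.1 a3)⟩
  rw [a4, h0, left_eq_add] at a2
  simpa using a2

lemma tr (h : PCh S e p) (h0 : e p = 0) {N : Set ℂ} (hN : N ∈ 𝓝 (0 : ℂ)) :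
    ∀ᶠ y in 𝓝 p, S.π y = S.π p → ∀ e', PCh S e' y → e' y = 0 → ∃ τ : ℂ → ℂ,
      AnalyticAt ℂ τ 0 ∧ τ 0 ∈ N ∧ deriv τ 0 ≠ 0 ∧ gm e' =ᶠ[𝓝 0] gm e ∘ τ := by
  have h1 : Tendsto (fun y => (e y).2) (𝓝 p) (𝓝 0) := by
    simpa [h0] using (e.continuousAt h.2.1).snd.tendsto
  filter_upwards [(fib h h0).eventually_nhds, h1.eventually hN] with y a1 a2 a3 e' h' h0'
  have b0 := (zero h' h0').2
  have b1 := a1.self_of_nhds
  have b2 : AnalyticAt ℂ (fun t => (e (gm e' t)).2) 0 := analyticAt_snd.comp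
    (Sf0.HolAt.analyticAt ((hol h' h0').mono fun _ h => h.1) h.1 (b0.symm ▸ b1.1))
  have b3 : gm e' =ᶠ[𝓝 0] gm e ∘ fun t => (e (gm e' t)).2 := by
    filter_upwards [(tend h' h0').eventually a1, hol h' h0'] with t c1 c2
    exact (gm_eq c1.1 (c1.2 (c2.2.trans a3))).2.symm
  refine ⟨_, b2, by simp only [b0]; exact a2, fun hd => ?_, b3⟩
  obtain ⟨c1, c2⟩ := gm_eq b1.1 (b1.2 a3)
  have c3 : DifferentiableAt ℂ (fun u => (e' (gm e u)).2) (e (gm e' 0)).2 := by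
    rw [b0]
    exact ((hol_of h.1 c1).1.2 e' h'.1 (c2.symm ▸ h'.2.1)).snd
  have c4 := c3.hasDerivAt.comp 0 b2.differentiableAt.hasDerivAt
  rw [hd, mul_zero] at c4
  refine zero_ne_one (c4.unique ((hasDerivAt_id (0 : ℂ)).congr_of_eventuallyEq ?_))
  filter_upwards [b3, tgt h' h0'] with t d1 d2
  exact (congrArg (fun z => (e' z).2) d1.symm).trans (congrArg Prod.snd (e'.right_inv d2))

end ParP

theorem sPar (h : SPch) : SPar := by
  intro X _ S L M s H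
  have : ∀ p, ∃ e, S.π p = s → PCh S e p ∧ e p = 0 := fun p => by
    by_cases hp : S.π p = s
    · exact ((h X S).1 p (H p hp).1).imp fun _ h _ => h
    · exact (S.cover p).imp fun _ _ h => absurd h hp
  choose E hE using this
  have off : ∀ p, S.π p = s → ∀ᶠ t in 𝓝[≠] 0, ParP.gm (E p) t ∉ M.Z := fun p hp => by
    filter_upwards [(ParP.tend' (hE p hp).1 (hE p hp).2).eventually (H p hp).2,
      mem_nhdsWithin_of_mem_nhds (ParP.hol (hE p hp).1 (hE p hp).2)] with t a1 a2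
    exact a1 a2.2
  refine ⟨⟨fun p => ParP.gm (E p), fun p hp => (ParP.zero (hE p hp).1 (hE p hp).2).2,
    fun p hp => hp ▸ ParP.hol (hE p hp).1 (hE p hp).2, off,
    fun p hp => ⟨_, ParP.tgt (hE p hp).1 (hE p hp).2, fun t ht t' ht' e =>
      congrArg Prod.snd ((E p).symm.injOn ht ht' e)⟩,
    fun p hp N hN => (ParP.tr (hE p hp).1 (hE p hp).2 hN).mono fun y a1 a2 =>
      a1 (a2.trans hp.symm) _ (hE y a2).1 (hE y a2).2, fun p hp => ?_⟩⟩
  obtain ⟨h1, h0⟩ := hE p hp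
  obtain ⟨α, β, hα, hβ, hr⟩ := M.reg _ _ h1
  have h2 := (ParP.hol h1 h0).mono fun _ h => h.1
  have h3 := (ParP.zero h1 h0).2
  refine ⟨α ∘ ParP.gm (E p), β ∘ ParP.gm (E p), anAt_comp (h3.symm ▸ hα) h2,
    anAt_comp (h3.symm ▸ hβ) h2, ?_⟩
  filter_upwards [off p hp, mem_nhdsWithin_of_mem_nhds ((ParP.tend h1 h0).eventually hr),
    mem_nhdsWithin_of_mem_nhds (ParP.tgt h1 h0)] with t a1 a2 a3
  obtain ⟨b1, b2⟩ := ParP.hol_of h1.1 a3
  rw [((M.anAt_f M.ix a1).hasDerivAt b1 h1.1 ((E p).map_target a3)).deriv, b2]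
  exact a2 a1

end Pool.Agent.P.MP_7ede32_ag.Full
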