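import Pool.Agent.P.MP_7ede32_ag.Full.StC

/-! Product charts and charts adapted to a section. -/

open Filter Topology Metric Set

noncomputable section

namespace Pool.Agent.P.MP_7ede32_ag.Full

open Geo
open Ell (E2 lin_apply)

namespace Pch

lemma exists_wedge {l : E2 →L[ℂ] ℂ} (h : l ≠ 0) : ∃ m : E2 →L[ℂ] ℂ, wedge l m ≠ 0 := by
  by_contra hcon
  push Not at hcon
  have h1 := hcon (ContinuousLinearMap.fst ℂ ℂ ℂ)
  have h2 := hcon (ContinuousLinearMap.snd ℂ ℂ ℂ)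
  simp only [wedge, ContinuousLinearMap.coe_fst', ContinuousLinearMap.coe_snd', mul_zero, mul_one,
    zero_sub, neg_eq_zero, sub_zero] at h1 h2
  refine h (ContinuousLinearMap.ext fun u => ?_)
  rw [lin_apply l u, h1, h2]
  simp

lemma const_of_fderiv {f : E2 → ℂ} {x : E2}
    (hf : AnalyticAt ℂ f x) (h : ∀ᶠ y in 𝓝 x, fderiv ℂ f y = 0) : ∀ᶠ y in 𝓝 x, f y = f x := by
  obtain ⟨r, hr, h1⟩ := Metric.eventually_nhds_iff_ball.1 (hf.eventually_analyticAt.and h)
  filter_upwards [ball_mem_nhds x hr] with y hy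
  exact isOpen_ball.is_const_of_fderiv_eq_zero (𝕜 := ℂ) (convex_ball x r).isPreconnected
    (fun z hz => (h1 z hz).1.differentiableAt.differentiableWithinAt) (fun z hz => (h1 z hz).2)
    hy (mem_ball_self hr)

variable {X : Type} [MetricSpace X] {S : Sf0 X}

lemma in_chart {e : OpenPartialHomeomorph X E2} {x : X} (he : e ∈ S.A) (hx : x ∈ e.source)
    {F : E2 → ℂ} (hF : AnalyticAt ℂ F (e x)) :
    S.AnAt (fun y => F (e y)) x ∧ D (fun y => F (e y)) e x = fderiv ℂ F (e x) := by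
  have h1 : (fun y => F (e y)) ∘ e.symm =ᶠ[𝓝 (e x)] F := by
    filter_upwards [e.open_target.mem_nhds (e.map_source hx)] with p hp
    simp [e.right_inv hp]
  exact ⟨Sf0.anAt_of_chart he hx (hF.congr h1.symm), h1.fderiv_eq⟩

lemma one (h : SInv) (p : X) (hp : ¬ S.Crit p) : ∃ e, PCh S e p ∧ e p = 0 := by
  obtain ⟨e, he, hxe, h0⟩ := Sf0.exists_chart0 (S := S) p
  obtain ⟨m, hm⟩ := exists_wedge (l := S.dπ e p) fun h1 => hp (Sf0.crit_of_chart he hxe h1)
  obtain ⟨a1, a2⟩ := in_chart he hxe (m.analyticAt (e p))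
  have hl := Sf0.isLift_lf (S := S) p
  have h2 : D (fun y => S.lf p y - S.lf p p) e p = S.dπ e p :=
    fderiv_sub_const (f := S.lf p ∘ e.symm) _
  obtain ⟨e', he', hx', h3⟩ := h X S p e (fun y => S.lf p y - S.lf p p) (fun y => m (e y)) he hxe
    (fun e₁ h₁ h₂ => (hl.2 e₁ h₁ h₂).sub analyticAt_const) a1 (by rwa [h2, a2, m.fderiv])
  refine ⟨e', ⟨he', hx', ?_⟩, ?_⟩
  · filter_upwards [hl.1, e'.open_source.mem_nhds hx'] with y b1 b2
    rw [b1, hl.1.self_of_nhds, h3 y b2, h3 p hx', ← map_add]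
    congr 1
    ring
  · rw [h3 p hx', h0, map_zero, sub_self]
    rfl

lemma two (hN : Nc S) (x : X) : ∃ᶠ y in 𝓝 x, ¬ S.Crit y := by
  by_contra hc
  rw [not_frequently] at hc
  obtain ⟨e, he, hx⟩ := S.cover x
  have hl := Sf0.isLift_lf (S := S) x
  have h1 : ∀ᶠ y in 𝓝 x, fderiv ℂ (S.lf x ∘ e.symm) (e y) = 0 := by
    filter_upwards [hc, hl.dπ_eventually hx, e.open_source.mem_nhds hx] with y b1 b2 b3
    rw [← b2]
    exact not_not.1 b1 e he b3
  have h2 := const_of_fderiv (hl.2 e he hx) (by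
    filter_upwards [Sf0.symm_eventually hx h1, e.open_target.mem_nhds (e.map_source hx)]
      with u b1 b2
    rwa [e.right_inv b2] at b1)
  refine hN x ?_
  filter_upwards [(e.continuousAt hx).eventually h2, hl.1, e.open_source.mem_nhds hx]
    with y b1 b2 b3
  simp only [Function.comp_apply, e.left_inv b3, e.left_inv hx] at b1
  rw [b2, b1, hl.1.self_of_nhds]

lemma three (h : SInv) (q : ℂ → X) (w : ℂ)
    (hq : ∀ᶠ w' in 𝓝 w, S.HolAt q w' ∧ S.π (q w') = S.Λ.mkQ w') :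
    ∃ e, PCh S e (q w) ∧ e (q w) = 0 ∧ ∀ᶠ t in 𝓝 (0 : ℂ), e (q (w + t)) = (t, 0) := by
  have hw := hq.self_of_nhds
  have hc : ¬ S.Crit (q w) := fun hc => by
    obtain ⟨e, he, hx⟩ := S.cover (q w)
    have := Sf0.dπ_deriv hw.1 (hasDerivAt_id w) (hq.mono fun _ h => h.2) he hx
    rw [hc e he hx] at this
    simp at this
  obtain ⟨e, ⟨he, hx, hπ⟩, h0⟩ := one h (q w) hc
  have hsh : Tendsto (fun t : ℂ => w + t) (𝓝 0) (𝓝 w) :=
    (show Continuous fun t : ℂ => w + t by fun_prop).tendsto' 0 w (add_zero w)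
  have ha : AnalyticAt ℂ (fun t => e (q (w + t))) 0 :=
    AnalyticAt.comp_of_eq (Sf0.HolAt.analyticAt (hq.mono fun _ h => h.1) he hx)
      (f := fun t => w + t) (by fun_prop) (add_zero w)
  set ψ : ℂ → ℂ := fun t => (e (q (w + t))).2 with hψ
  have hψa : AnalyticAt ℂ ψ 0 := analyticAt_snd.comp ha
  have hψ1 : AnalyticAt ℂ ψ (e (q w)).1 := by rw [h0]; exact hψa
  obtain ⟨a1, a2⟩ := in_chart he hx (F := fun u => u.1) analyticAt_fst
  obtain ⟨a3, a4⟩ := in_chart he hx (F := fun u => u.2 - ψ u.1)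
    (analyticAt_snd.sub (hψ1.comp analyticAt_fst))
  have d1 : HasFDerivAt (fun u : E2 => u.2 - ψ u.1) (ContinuousLinearMap.snd ℂ ℂ ℂ -
      (fderiv ℂ ψ (e (q w)).1).comp (ContinuousLinearMap.fst ℂ ℂ ℂ)) (e (q w)) :=
    hasFDerivAt_snd.sub (hψ1.differentiableAt.hasFDerivAt.comp _ hasFDerivAt_fst)
  obtain ⟨e', he', hx', h3⟩ := h X S (q w) e (fun y => (e y).1) (fun y => (e y).2 - ψ (e y).1)
    he hx a1 a3 (by
      rw [a2, a4, d1.fderiv, hasFDerivAt_fst.fderiv]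
      simp [wedge])
  have hq' : Tendsto (fun t => q (w + t)) (𝓝 0) (𝓝 (q w)) := hw.1.1.tendsto.comp hsh
  have h4 : ∀ᶠ t in 𝓝 (0 : ℂ), (e (q (w + t))).1 - t = 0 := by
    refine (Sf0.lam_lim (S := S) (U := 𝓝 0) (u := fun t => (e (q (w + t))).1 - t) (c := 0)
      ?_ ?_).2
    · have : ContinuousAt (fun t => (e (q (w + t))).1 - t) 0 :=
        (analyticAt_fst.comp ha).continuousAt.sub continuousAt_id
      simpa [h0] using this.tendsto
    · filter_upwards [hq'.eventually hπ, hsh.eventually hq] with t b1 b2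
      rw [b2.2, hw.2, h0, ← map_add] at b1
      have := Sf0.mk_eq_iff.1 b1.symm
      simpa using this
  refine ⟨e', ⟨he', hx', ?_⟩, ?_, ?_⟩
  · filter_upwards [hπ, e'.open_source.mem_nhds hx'] with y b1 b2
    rw [b1, h3 y b2, h3 _ hx']
  · rw [h3 _ hx', h0]
    simp [hψ, h0]
  · filter_upwards [h4, hq'.eventually (e'.open_source.mem_nhds hx')] with t b1 b2
    rw [h3 _ b2, sub_eq_zero.1 b1]
    simp [hψ]

end Pch

theorem sPch (h : Geo.SInv) : SPch := fun _ _ _ =>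
  ⟨Pch.one h, Pch.two, Pch.three h⟩

end Pool.Agent.P.MP_7ede32_ag.Full
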