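import Pool.Agent.P.MP_7ede32_ag.Full.StC

/-!
Factorisation of all entire curves that are not vertical.
-/

open Filter Topology Metric Set

noncomputable section

namespace Pool.Agent.P.MP_7ede32_ag.Full

open Geo

namespace Phi

variable {X : Type} [MetricSpace X] {S : Sf0 X}

lemma trap_mono {O : Set ℂ} {q : ℂ → X} {T T' : ℂ → X → Prop} (h : Trap S O q T')
    (H : ∀ w y, T w y → T' w y) : Trap S O q T := by
  obtain ⟨w₀, r, η, h1, h2, h3, h4⟩ := h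
  exact ⟨w₀, r, η, h1, h2, h3, fun w hw y a b c => h4 w hw y a b (H w y c)⟩

lemma lf_shift {h : ℂ → X} {φ : ℂ → ℂ} (hL : Lf S h φ) (a : ℂ) :
    Lf S (fun z => h (a + z)) fun z => φ (a + z) :=
  ⟨hL.1.shift a, hL.2.1.comp (by fun_prop), fun _ => hL.2.2 _⟩

lemma fac_shift {h : ℂ → X} {φ : ℂ → ℂ} {a : ℂ}
    (H : Fac S (fun z => h (a + z)) fun z => φ (a + z)) : Fac S h φ := by
  obtain ⟨f, h1, h2, h3⟩ := H
  refine ⟨f, h1, h2, funext fun z => ?_⟩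
  simpa using congrFun h3 (z - a)

lemma nc_shift {φ : ℂ → ℂ} (h : ∃ z, φ z ≠ φ 0) (a : ℂ) : ∃ z, φ (a + z) ≠ φ (a + 0) := by
  obtain ⟨z, hz⟩ := h
  by_cases h1 : φ a = φ 0
  · exact ⟨z - a, by simpa [h1] using hz⟩
  · exact ⟨-a, by simpa using Ne.symm h1⟩

lemma gen_shift {L : PeriodPair} {M : Mf S L} {h : ℂ → X} (H : M.Gen h) (a : ℂ) :
    M.Gen fun z => h (a + z) := by
  obtain ⟨⟨z, hz⟩, h2⟩ := H
  refine ⟨⟨z - a, by simpa using hz⟩, fun P hP => h2 P fun w hw => ?_⟩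
  simpa using hP (w - a) (by simpa using hw)

lemma ball_subset {s₀ : ℂ ⧸ S.Λ} {C : S.Cfg s₀} {δ : ℝ} (hδ : C.Sep δ) :
    ∃ w, ball w δ ⊆ C.Cr δ := by
  obtain ⟨c, hc⟩ := S.Λ.mkQ_surjective s₀
  have hc' : c ∈ C.Bt := by
    change S.Λ.mkQ c ∈ C.B
    rw [hc]; exact C.mem
  have h1 : dist (c + (2 * δ : ℝ)) c = 2 * δ := by
    rw [dist_self_add_left, Complex.norm_real, Real.norm_of_nonneg (by linarith [hδ.1])]
  refine ⟨c + (2 * δ : ℝ), fun w hw c' h => ?_⟩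
  have h2 := mem_ball.1 hw
  rcases eq_or_ne c c' with rfl | h3
  · linarith [dist_triangle_left (c + (2 * δ : ℝ)) c w]
  · linarith [hδ.2.2 c hc' c' h h3, dist_triangle_left c c' w,
      dist_triangle w (c + (2 * δ : ℝ)) c]

end Phi

open Phi in
theorem sPhi (h1 : SCfg) (h2 : SCore) (h3 : SHalf2) (h4 : SFin) (h5 : SPer) (h6 : SDegA)
    (h7 : STrap) (h8 : STrap2) (h9 : SGoodT) (h10 : SGoodJ) (h11 : SQStr) (h12 : SQld)
    (h13 : SMerG) (h14 : SQId) (h15 : SBase) (h16 : SHbg) (h17 : SIndep) : SPhi := by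
  intro X _ _ _ S s₀ L hy M h φ hL hφ
  obtain ⟨C⟩ := h1 X S s₀ hy
  obtain ⟨δ₀, hδ₀, hcore⟩ := h2 X S s₀ hy C
  obtain ⟨δ, η', hle, hsep, hη', hhalf⟩ := h3 X S s₀ hy C δ₀ hδ₀
  have hfin := h4 X S s₀ C δ η' hsep hη' hhalf
  obtain ⟨T, hT⟩ : ∃ T, Reps C δ T := hfin
  have hd2 := half_pos hsep.1
  obtain ⟨l, U, η, hth⟩ := Sf0.exists_thOk (Sf0.Cfg.isCompact_Kc (C := C) (δ / 2))
    (Sf0.Cfg.regAt_Kc hd2)
  obtain ⟨κ, hκ, hc⟩ := hcore δ ⟨hsep.1, hle⟩ hsep l η U hth T hT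
  obtain ⟨w₀, hw₀⟩ := ball_subset hsep
  have hCO : C.Cr δ ⊆ interior (C.Cr (δ / 2)) :=
    Sf0.Cfg.Cr_subset_interior (half_lt_self hsep.1)
  have hOB : interior (C.Cr (δ / 2)) ⊆ C.Btᶜ := interior_subset.trans (Sf0.Cfg.Cr_subset hd2)
  have hw₁ : w₀ ∈ interior (C.Cr (δ / 2)) := hCO (hw₀ (mem_ball_self hsep.1))
  have hsec : ∀ q ∈ T, S.SecOn 0 q C.Btᶜ := fun q hq => (hT.2.1 q hq).1
  have hsecO : ∀ q ∈ T, S.SecOn 0 q (interior (C.Cr (δ / 2))) :=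
    fun q hq w hw => hsec q hq w (hOB hw)
  have hnet : ∀ q ∈ T, ∃ R₀, Net (per C q) R₀ :=
    fun q hq => h5 X S s₀ C δ q ⟨T, hT⟩ (hT.2.1 q hq)
  by_cases hg : M.Gen h
  swap
  · refine hc h φ hL hφ fun q hq => ?_
    obtain ⟨R₀, hR⟩ := hnet q hq
    obtain ⟨F, a1, a2, a3⟩ := h6 X S L M h hg (q w₀)
    refine h9 X S s₀ C δ κ R₀ U h q φ (fun _ y => y ∈ range h) hsep.1 hL hR
      (trap_mono (h7 X S _ q w₀ F isOpen_interior (hsecO q hq) hw₁ a1 a2 _ a3)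
        fun _ y a b => b a) (fun _ _ _ _ _ a => a) ?_
    simp
  have hx : ∃ z, h z ∉ M.Z ∧ M.f M.ix (h z) ≠ 0 := by
    by_contra hn
    push Not at hn
    refine MvPolynomial.X_ne_zero (R := ℂ) (1 : Fin 2) (h17 X S L M hy.π_nc _ ?_)
    rw [MvPolynomial.rename_X]
    exact hg.2 _ fun z hz => by simpa [Mf.ev] using hn z hz
  have key : ∀ q ∈ T, ∃ N : Set ℂ, N.Countable ∧ ∀ a ∉ N, φ a ∈ C.Cr δ →
      Good C δ κ U (fun z => h (a + z)) (fun z => φ (a + z)) q := by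
    intro q hq
    obtain ⟨R₀, hR⟩ := hnet q hq
    obtain ⟨χ, hχ, hgd⟩ := h11 X S L M _ q C.isOpen_compl_Bt C.isPreconnected_compl_Bt (hsec q hq)
    have hql : ∀ w ∈ interior (C.Cr (δ / 2)), ∀ᶠ w' in 𝓝[≠] w, M.QL χ U q w' := fun w hw =>
      h12 X S L M _ l η U _ q χ hy.ω_ne hth isOpen_interior (hsecO q hq)
        (fun w hw => Sf0.Cfg.mem_Kc (interior_subset hw)
          ((hsecO q hq w hw).2.trans (zero_add _))) w hw (hgd w (hOB hw))
    have hm := (h13 X S L M h χ hL.1 hx hχ).1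
    rcases h14 X S s₀ C L M h q φ χ hL hφ (hsec q hq) (fun z => (hm z).mono fun _ a => a.2)
      hgd with hne | heq
    · refine ⟨∅, countable_empty, fun a _ _ => ?_⟩
      obtain ⟨w, b1, b2⟩ := ((hgd w₀ (hOB hw₁)).and
        (mem_nhdsWithin_of_mem_nhds (isOpen_interior.mem_nhds hw₁))).exists
      refine h9 X S s₀ C δ κ R₀ U _ q _ (fun w y => M.ext χ y = M.ext χ (q w)) hsep.1
        (lf_shift hL a) hR (h8 X S L M _ q w χ isOpen_interior (hsecO q hq) b2 hχ b1)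
        (fun p hp w hw y b => by rwa [hp.2 w hw] at b) ?_
      exact hne.preimage (add_right_injective a)
    · have c1 : {z | ¬ (h z ∉ M.Z ∧ M.Gd χ (h z))}.Countable :=
        countable_of_isolated fun w _ => (hm w).mono fun _ a b => b a
      have c2 : {w | w ∈ interior (C.Cr (δ / 2)) ∧ ¬ M.QL χ U q w}.Countable :=
        countable_of_isolated fun w hw => (hql w hw.1).mono fun _ a b => b.2 a
      refine ⟨_, (c1.union ((h15 φ hL.2.1 hφ).1 _ c2)).union heq, fun a ha hφa => ?_⟩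
      have b1 : h a ∉ M.Z ∧ M.Gd χ (h a) := not_not.1 fun b => ha (Or.inl (Or.inl b))
      have b2 : M.QL χ U q (φ a) := not_not.1 fun b => ha (Or.inl (Or.inr ⟨hCO hφa, b⟩))
      have b3 : M.ext χ (h a) ≠ M.ext χ (q (φ a)) := fun b => ha (Or.inr b)
      obtain ⟨z, hz⟩ := hx
      obtain ⟨-, m1, m2⟩ := h13 X S L M (fun z => h (a + z)) χ (hL.1.shift a)
        ⟨z - a, by simpa using hz⟩ hχ
      exact h10 X S s₀ C L M δ κ R₀ U _ q _ χ hsep hκ (lf_shift hL a) (hsec q hq) hR hql m1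
        (m2 _ (h16 X S L M _ _ hy.π_nc (lf_shift hL a) (gen_shift hg a)
          (by simpa using b1.1))) (by simpa using b1.2) (by simpa using hφa)
        (by simpa using b2) (by simpa using b3)
  choose! N hN hgood using key
  obtain ⟨a, ha, hφa⟩ := (h15 φ hL.2.1 hφ).2 (⋃ q ∈ T, N q) w₀ δ
    (hT.1.countable.biUnion hN) hsep.1
  exact fac_shift (hc _ _ (lf_shift hL a) (nc_shift hφ a) fun q hq =>
    hgood q hq a (fun b => ha (mem_biUnion hq b)) (hw₀ hφa))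

end Pool.Agent.P.MP_7ede32_ag.Full
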