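import Pool.Agent.P.MP_7ede32_ag.Full.StC

/-!
Uniformity of the local estimate, the extension along an entire curve and an identity theorem.
-/

open Filter Topology Metric Set ValueDistribution

noncomputable section

namespace Pool.Agent.P.MP_7ede32_ag.Full

open Geo

namespace QId

variable {X : Type} [MetricSpace X] {S : Sf0 X} {L : PeriodPair} {M : Mf S L}

lemma qb_mono {χ : X → ℂ} {U : X → X → ℂ} {k k' : ℕ} {C C' η η' : ℝ} {x : X}
    (h : M.QB χ U k C η x) (hk : k ≤ k') (hC : C ≤ C') (hη : η' ≤ η) : M.QB χ U k' C' η' x :=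
  fun y h1 h2 => ⟨(h y h1 (h2.trans hη)).1, fun t t0 t1 h3 =>
    ((h y h1 (h2.trans hη)).2 t t0 t1 (h3.trans (pow_le_pow_of_le_one t0.le t1 hk))).trans
      (mul_le_mul_of_nonneg_right hC t0.le)⟩

lemma anAt_chi {χ : X → ℂ} (hχ : M.Chi χ) {y : X} (hy : y ∉ M.Z) (h0 : M.f M.ix y ≠ 0) :
    S.AnAt χ y := by
  rcases hχ with rfl | rfl
  · exact M.anAt_f _ hy
  · exact fun e he hx => (M.anAt_f M.ix hy e he hx).inv (by simpa [e.left_inv hx] using h0)

lemma hb_congr {g g' φ : ℂ → ℂ} (h : g =ᶠ[codiscrete ℂ] g') (H : HB g φ) : HB g' φ := by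
  obtain ⟨C, hC⟩ := H
  refine ⟨C, fun r R M h1 h2 h3 h4 => ?_⟩
  rw [← characteristic_congr_codiscrete h (by linarith)]
  exact hC r R M h1 h2 h3 h4

lemma hb_inv {g φ : ℂ → ℂ} (hg : Meromorphic g) (H : HB g φ) : HB g⁻¹ φ := by
  obtain ⟨C, hC⟩ := H
  refine ⟨C + max |Real.log ‖g 0‖| |Real.log ‖meromorphicTrailingCoeffAt g 0‖|,
    fun r R M h1 h2 h3 h4 => ?_⟩
  have h5 := (abs_le.1 (characteristic_sub_characteristic_inv_le hg (R := r))).1
  have h6 := hC r R M h1 h2 h3 h4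
  have h7 : 0 ≤ R / (R - r) := div_nonneg (by linarith) (by linarith)
  have h8 : 1 ≤ M ^ 2 + R / (R - r) := by nlinarith
  have h9 : 0 ≤ max |Real.log ‖g 0‖| |Real.log ‖meromorphicTrailingCoeffAt g 0‖| :=
    le_max_of_le_left (abs_nonneg _)
  nlinarith

end QId

open QId

theorem sQUni : SQUni := by
  intro X _ S L M U q χ Λ R₀ K hΛ hK hp hq
  have key : ∃ (k : ℕ) (C η B : ℝ), 0 < k ∧ 0 < C ∧ 0 < η ∧
      ∀ w ∈ closedBall (0 : ℂ) R₀ ∩ K, ‖M.ext χ (q w)‖ ≤ B ∧ M.QB χ U k C η (q w) := by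
    refine ((isCompact_closedBall (0 : ℂ) R₀).inter_right hK).induction_on
      (p := fun s => ∃ (k : ℕ) (C η B : ℝ), 0 < k ∧ 0 < C ∧ 0 < η ∧
        ∀ w ∈ s, ‖M.ext χ (q w)‖ ≤ B ∧ M.QB χ U k C η (q w))
      ⟨1, 1, 1, 0, one_pos, one_pos, one_pos, fun _ h => h.elim⟩ ?_ ?_ ?_
    · rintro s t hst ⟨k, C, η, B, h1, h2, h3, h4⟩
      exact ⟨k, C, η, B, h1, h2, h3, fun w hw => h4 w (hst hw)⟩
    · rintro s t ⟨k, C, η, B, h1, h2, h3, h4⟩ ⟨k', C', η', B', -, -, h3', h4'⟩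
      refine ⟨max k k', max C C', min η η', max B B', lt_max_of_lt_left h1, lt_max_of_lt_left h2,
        lt_min h3 h3', ?_⟩
      rintro w (hw | hw)
      · exact ⟨(h4 w hw).1.trans (le_max_left _ _),
          qb_mono (h4 w hw).2 (le_max_left _ _) (le_max_left _ _) (min_le_left _ _)⟩
      · exact ⟨(h4' w hw).1.trans (le_max_right _ _),
          qb_mono (h4' w hw).2 (le_max_right _ _) (le_max_right _ _) (min_le_right _ _)⟩
    · intro w hw
      obtain ⟨h1, k, C, η, h2, h3⟩ := hq w hw.2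
      have h4 := (h3.self_of_nhds (q w) rfl (by rw [dist_self]; exact h2.le)).1
      have h5 := ((h4.anAt.continuousAt.comp h1).norm).eventually
        (gt_mem_nhds (lt_add_one ‖M.ext χ (q w)‖))
      refine ⟨_, mem_nhdsWithin_of_mem_nhds (h5.and h3), k + 1, max C 1, η, _, k.succ_pos,
        lt_max_of_lt_right one_pos, h2, fun w' hw' => ⟨hw'.1.le, ?_⟩⟩
      exact qb_mono hw'.2 k.le_succ (le_max_left _ _) le_rfl
  obtain ⟨k, C, η, B, h1, h2, h3, h4⟩ := key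
  refine ⟨k, C, η, B, h1, h2, h3, fun w hw => ?_⟩
  obtain ⟨p, hp1, hp2⟩ := hΛ w
  obtain ⟨h5, h6⟩ := hp (-p) (Λ.neg_mem hp1) w hw
  rw [← h6]
  refine h4 _ ⟨?_, h5⟩
  rwa [mem_closedBall, dist_zero_right, ← sub_eq_add_neg, ← dist_eq_norm]

theorem sMerG : SMerG := by
  rintro X _ S L M h χ hh ⟨z₀, h0, h0'⟩ hχ
  have hg : Meromorphic (M.f M.ix ∘ h) := fun z => M.mero M.ix (Eventually.of_forall hh)
  have h1 : ∀ᶠ z in codiscrete ℂ, (M.f M.ix ∘ h) z ≠ 0 := by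
    refine (meromorphicOn_univ.2 hg).eventually_codiscreteWithin_apply_ne_zero fun z _ =>
      ne_top_of_ne hg (fun h2 => ?_) z
    have h3 := ((M.anAt_f M.ix h0).continuousAt.comp (hh z₀).1).eventually_ne h0'
    obtain ⟨w, h4, h5⟩ := ((cd_iff.1 h2 z₀).and (h3.filter_mono nhdsWithin_le_nhds)).exists
    exact h5 h4
  have h2 : ∀ᶠ z in codiscrete ℂ, h z ∉ M.Z ∧ M.Gd χ (h z) ∧ M.ext χ (h z) = χ (h z) := by
    filter_upwards [h1, cd_iff.2 (M.off hh ⟨z₀, h0⟩)] with z h3 h4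
    exact ⟨h4, Mf.gd_of_anAt (anAt_chi hχ h4 h3)⟩
  have h3 : χ ∘ h =ᶠ[codiscrete ℂ] M.ext χ ∘ h := h2.mono fun z hz => hz.2.2.symm
  refine ⟨fun z => (cd_iff.1 h2 z).mono fun w hw => ⟨hw.1, hw.2.1⟩, fun z => ?_, fun φ H => ?_⟩
  · refine MeromorphicAt.congr ?_ (cd_iff.1 h3 z)
    rcases hχ with rfl | rfl
    · exact hg z
    · exact (hg z).inv
  · refine hb_congr h3 ?_
    rcases hχ with rfl | rfl
    · exact H
    · exact hb_inv hg H

theorem sQId (h : SBase) : SQId := by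
  intro X _ S s₀ C L M f q φ χ hf hφ hq h1 h2
  have hB := (h φ hf.2.1 hφ).1
  set V : Set ℂ := {z | M.Gd χ (f z) ∧ φ z ∉ C.Bt ∧ M.Gd χ (q (φ z))} with hV
  have hc : Vᶜ.Countable := by
    refine (((countable_of_isolated (s := {z | ¬ M.Gd χ (f z)}) fun w _ =>
      (h1 w).mono fun _ h3 h4 => h4 h3).union (hB _ C.countable_Bt)).union (hB _
        (countable_of_isolated (s := {w | w ∉ C.Bt ∧ ¬ M.Gd χ (q w)}) fun w hw =>
          (h2 w hw.1).mono fun _ h3 h4 => h4.2 h3))).mono fun z hz => ?_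
    by_contra h3
    simp only [mem_union, mem_setOf_eq, mem_preimage, not_or, not_and, not_not] at h3
    exact hz ⟨h3.1.1, h3.1.2, h3.2 h3.1.2⟩
  have hp : IsPreconnected V :=
    compl_compl V ▸ (hc.isConnected_compl_of_one_lt_rank (by simp)).isPreconnected
  have ha : AnalyticOnNhd ℂ (fun z => M.ext χ (f z) - M.ext χ (q (φ z))) V := fun z hz => by
    refine (anAt_comp hz.1.anAt (Eventually.of_forall hf.1)).sub
      (anAt_comp (h := q ∘ φ) hz.2.2.anAt ?_)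
    filter_upwards [hf.2.1.continuous.continuousAt.eventually
      (C.isOpen_compl_Bt.mem_nhds hz.2.1)] with w hw
    exact (hq _ hw).1.comp (hf.2.1 w)
  by_cases h3 : ∀ z ∈ V, M.ext χ (f z) - M.ext χ (q (φ z)) = 0
  · exact Or.inl (hc.mono fun z hz h4 => hz (sub_eq_zero.1 (h3 z h4)))
  · refine Or.inr (((MP_26ad15_nt.countable_zeros hp ha h3).union hc).mono fun z hz => ?_)
    by_cases h4 : z ∈ V
    · exact Or.inl ⟨h4, sub_eq_zero.2 hz⟩
    · exact Or.inr h4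

end Pool.Agent.P.MP_7ede32_ag.Full
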