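import Pool.Agent.P.MP_7ede32_ag.Full.StC

/-!
Along a section, the function `x` or its inverse is holomorphic off a discrete set.
-/

open Filter Topology Metric Set

noncomputable section

namespace Pool.Agent.P.MP_7ede32_ag.Full

open Geo
open Ell (E2 jac)

namespace QStr

variable {X : Type} [MetricSpace X] {S : Sf0 X} {L : PeriodPair} (M : Mf S L)
  {e : OpenPartialHomeomorph X E2} {p : X}

lemma freq (he : PCh S e p) : ∃ᶠ y in 𝓝 p, y ∉ M.Z ∧ M.f M.ix y ≠ 0 := by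
  intro h
  obtain ⟨α, β, -, -, h1⟩ := M.reg e p he
  obtain ⟨y, h2, h3, h4, h5⟩ := ((not_eventually.1 (M.den_ne p)).and_eventually
    (h1.and (h.eventually_nhds.and (e.open_source.mem_nhds he.2.1)))).exists
  have h6 : M.f M.ix =ᶠ[𝓝 y] fun _ => 0 := by
    filter_upwards [h4, M.isClosed_Z.isOpen_compl.mem_nhds h2] with y' a1 a2
    by_contra a3
    exact a1 ⟨a2, a3⟩
  refine (h3 h2).1 ?_
  rw [Sf0.D_congr h6 h5]
  have h7 : (fun _ : X => (0 : ℂ)) ∘ e.symm = fun _ => 0 := rfl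
  simp [D, h7]

lemma quo (he : e ∈ S.A) (hp : p ∈ e.source) {a b : E2 → ℂ} (ha : AnalyticAt ℂ a (e p))
    (hb : AnalyticAt ℂ b (e p)) (h0 : b (e p) ≠ 0) (j : ℕ) :
    S.AnAt (fun y => (e y).2 ^ j * a (e y) / b (e y)) p := by
  refine Sf0.anAt_of_chart he hp (AnalyticAt.congr (f := fun u : E2 => u.2 ^ j * a u / b u)
    (((analyticAt_snd.pow j).mul ha).div hb h0) ?_)
  filter_upwards [e.open_target.mem_nhds (e.map_source hp)] with u hu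
  simp [e.right_inv hu]

lemma div (h2 : SDiv2) (he : e ∈ S.A) (hp : p ∈ e.source) (h0 : e p = 0) {F : X → ℂ}
    (hF : S.AnAt F p) (hn : ¬ ∀ᶠ y in 𝓝 p, F y = 0) : ∃ (k : ℕ) (F' : E2 → ℂ),
      (∀ᶠ y in 𝓝 p, AnalyticAt ℂ F' (e y) ∧ F y = (e y).2 ^ k * F' (e y)) ∧
        ∀ᶠ t in 𝓝[≠] (0 : ℂ), F' (t, 0) ≠ 0 := by
  have hc : Tendsto e (𝓝 p) (𝓝 0) := h0 ▸ e.continuousAt hp
  obtain ⟨k, F', a1, a2, a3⟩ := h2 (F ∘ e.symm) (h0 ▸ hF e he hp) fun h => hn (by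
    filter_upwards [hc.eventually h, e.open_source.mem_nhds hp] with y b1 b2
    simpa [e.left_inv b2] using b1)
  refine ⟨k, F', ?_, a3⟩
  filter_upwards [hc.eventually a1.eventually_analyticAt, hc.eventually a2,
    e.open_source.mem_nhds hp] with y b1 b2 b3
  exact ⟨b1, by simpa [e.left_inv b3] using b2⟩

lemma disj (he : PCh S e p) (h1 : M.Gd (M.f M.ix) p) (h2 : M.Gd (fun y => (M.f M.ix y)⁻¹) p)
    (h3 : M.ext (fun y => (M.f M.ix y)⁻¹) p = 0) : False := by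
  have h4 := (h1.anAt.continuousAt.mul h2.anAt.continuousAt).eventually_ne
    (show _ ≠ (1 : ℂ) by simp [h3])
  obtain ⟨y, ⟨a1, a2⟩, a3, a4, a5⟩ := ((freq M he).and_eventually
    (h4.and (h1.eq.and h2.eq))).exists
  refine a3 ?_
  rw [Pi.mul_apply, ← a4 a1, ← a5 a1, mul_inv_cancel₀ a2]

lemma shift {P : ℂ → Prop} {w : ℂ} (h : ∀ᶠ t in 𝓝[≠] (0 : ℂ), P (w + t)) :
    ∀ᶠ w' in 𝓝[≠] w, P w' := by
  have h1 : Tendsto (fun w' => w' - w) (𝓝[≠] w) (𝓝[≠] 0) := by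
    refine tendsto_nhdsWithin_iff.2 ⟨tendsto_nhdsWithin_of_tendsto_nhds ?_, ?_⟩
    · simpa using (continuous_sub_right w).tendsto w
    · filter_upwards [self_mem_nhdsWithin] with w' hw'
      exact sub_ne_zero.2 hw'
  simpa using h1.eventually h

lemma dich (h2 : SDiv2) {q : ℂ → X} {w : ℂ} (hq : ContinuousAt q w) (he : PCh S e (q w))
    (h0 : e (q w) = 0) (ht : ∀ᶠ t in 𝓝 (0 : ℂ), e (q (w + t)) = (t, 0)) :
    (∀ᶠ w' in 𝓝[≠] w, M.Gd (M.f M.ix) (q w')) ∨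
      ∀ᶠ w' in 𝓝[≠] w, M.Gd (fun y => (M.f M.ix y)⁻¹) (q w') ∧
        M.ext (fun y => (M.f M.ix y)⁻¹) (q w') = 0 := by
  have hU := (M.U_open (q w)).mem_nhds (M.mem_U (q w))
  have han := M.an _ _ (M.mem_U (q w))
  obtain ⟨k, d, d1, d2⟩ := div h2 he.1 he.2.1 h0 han.1 fun h => M.den_ne (q w) (by
    filter_upwards [h, hU] with y a1 a2
    exact (M.Z_iff _ y a2).2 a1)
  obtain ⟨k', n, n1, n2⟩ := div h2 he.1 he.2.1 h0 (han.2 M.ix) fun h => freq M he (by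
    filter_upwards [h, hU] with y a1 a2 a3
    exact a3.2 (by rw [M.f_eq _ _ y a2, a1, zero_div]))
  have hc : Tendsto (fun t => q (w + t)) (𝓝 0) (𝓝 (q w)) := by
    refine hq.tendsto.comp ?_
    simpa using (continuous_const_add w).tendsto 0
  have h3 : ∀ᶠ y in 𝓝 (q w), y ∈ e.source ∧ AnalyticAt ℂ d (e y) ∧ AnalyticAt ℂ n (e y) ∧
      (y ∉ M.Z → (e y).2 ^ k ≠ 0 ∧
        M.f M.ix y = (e y).2 ^ k' * n (e y) / ((e y).2 ^ k * d (e y))) := by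
    filter_upwards [d1, n1, hU, e.open_source.mem_nhds he.2.1] with y a1 a2 a3 a4
    refine ⟨a4, a1.1, a2.1, fun a5 => ⟨fun a6 => a5 ((M.Z_iff _ y a3).2 ?_), ?_⟩⟩
    · rw [a1.2, a6, zero_mul]
    · rw [M.f_eq _ _ y a3, a1.2, a2.2]
  have h4 := eventually_nhdsWithin_of_eventually_nhds (s := {0}ᶜ)
    ((hc.eventually h3.eventually_nhds).and ht)
  rcases le_or_gt k k' with hk | hk
  · refine Or.inl (shift (P := fun w' => M.Gd (M.f M.ix) (q w')) ?_)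
    filter_upwards [h4, d2] with t a1 a2
    obtain ⟨b1, b2, b3, -⟩ := a1.1.self_of_nhds
    refine ⟨_, quo he.1 b1 b3 b2 (a1.2 ▸ a2) (k' - k), a1.1.mono fun y c1 c2 => ?_⟩
    obtain ⟨j, rfl⟩ := Nat.exists_eq_add_of_le hk
    obtain ⟨c3, c4⟩ := c1.2.2.2 c2
    rw [c4, Nat.add_sub_cancel_left, pow_add, mul_assoc, mul_div_mul_left _ _ c3]
  · refine Or.inr (shift (P := fun w' => M.Gd (fun y => (M.f M.ix y)⁻¹) (q w') ∧
      M.ext (fun y => (M.f M.ix y)⁻¹) (q w') = 0) ?_)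
    filter_upwards [h4, n2] with t a1 a2
    obtain ⟨b1, b2, b3, -⟩ := a1.1.self_of_nhds
    have b4 := quo he.1 b1 b2 b3 (a1.2 ▸ a2) (k - k')
    have b5 : ∀ᶠ y in 𝓝 (q (w + t)), y ∉ M.Z →
        (M.f M.ix y)⁻¹ = (e y).2 ^ (k - k') * d (e y) / n (e y) := by
      refine a1.1.mono fun y c1 c2 => ?_
      obtain ⟨c3, c4⟩ := c1.2.2.2 c2
      obtain ⟨j, rfl⟩ := Nat.exists_eq_add_of_le hk.le
      rw [pow_add] at c3
      rw [c4, inv_div, Nat.add_sub_cancel_left, pow_add, mul_assoc,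
        mul_div_mul_left _ _ (left_ne_zero_of_mul c3)]
    refine ⟨⟨_, b4, b5⟩, (Mf.ext_eq b4 b5).self_of_nhds.trans ?_⟩
    simp [a1.2, (Nat.sub_pos_of_lt hk).ne']

end QStr

theorem sQStr (h1 : SPch) (h2 : SDiv2) : SQStr := by
  intro X _ S L M O q hO hc hq
  have h3 : ∀ w ∈ O, ∃ e, PCh S e (q w) ∧ e (q w) = 0 ∧
      ∀ᶠ t in 𝓝 (0 : ℂ), e (q (w + t)) = (t, 0) := fun w hw =>
    (h1 X S).2.2 q w (by
      filter_upwards [hO.mem_nhds hw] with w' hw'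
      simpa using hq w' hw')
  have h4 := hc.subset_or_subset
    (u := O ∩ {w | ∀ᶠ w' in 𝓝[≠] w, M.Gd (M.f M.ix) (q w')})
    (v := O ∩ {w | ∀ᶠ w' in 𝓝[≠] w, M.Gd (fun y => (M.f M.ix y)⁻¹) (q w') ∧
      M.ext (fun y => (M.f M.ix y)⁻¹) (q w') = 0})
    (hO.inter isOpen_setOfPred_eventually_nhdsWithin)
    (hO.inter isOpen_setOfPred_eventually_nhdsWithin) ?_ ?_
  · rcases h4 with h4 | h4
    · exact ⟨_, Or.inl rfl, fun w hw => (h4 hw).2⟩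
    · refine ⟨_, Or.inr rfl, fun w hw => ?_⟩
      filter_upwards [(h4 hw).2] with _ h using h.1
  · rw [Set.disjoint_left]
    rintro w ⟨a1, a2⟩ ⟨-, a3⟩
    obtain ⟨w', b1, b2, b3⟩ := ((eventually_nhdsWithin_of_eventually_nhds (s := {w}ᶜ)
      (hO.mem_nhds a1)).and (Eventually.and a2 a3)).exists
    obtain ⟨e, he, -⟩ := h3 w' b1
    exact QStr.disj M he b2 b3.1 b3.2
  · intro w hw
    obtain ⟨e, he, h0, ht⟩ := h3 w hw
    exact (QStr.dich M h2 (hq w hw).1.1 he h0 ht).imp (fun h => ⟨hw, h⟩) fun h => ⟨hw, h⟩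

end Pool.Agent.P.MP_7ede32_ag.Full
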