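import Pool.Agent.P.MP_7ede32_ag.Full.StC

/-!
The local estimate along a section.
-/

open Filter Topology Metric Set

noncomputable section

namespace Pool.Agent.P.MP_7ede32_ag.Full

open Geo
open Ell (E2 jac)

namespace Qld

variable {X : Type} [MetricSpace X] {S : Sf0 X} {e : OpenPartialHomeomorph X E2} {p : X}

lemma dπ_fst (h : PCh S e p) : ∀ᶠ y in 𝓝 p, S.dπ e y = ContinuousLinearMap.fst ℂ ℂ ℂ := by
  obtain ⟨w₀, hw⟩ := S.Λ.mkQ_surjective (S.π p)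
  have hl : S.IsLift (fun y => (e y).1 + (w₀ - (e p).1)) p := by
    refine ⟨h.2.2.mono fun y hy => ?_, fun e' he' hp => ?_⟩
    · rw [hy, ← hw, ← map_add]
      congr 1
      ring
    · exact (analyticAt_fst.comp (Sf0.anAt_chart h.1 h.2.1 e' he' hp)).add analyticAt_const
  filter_upwards [hl.dπ_eventually h.2.1, e.open_source.mem_nhds h.2.1] with y h1 h2
  have h3 : (fun y => (e y).1 + (w₀ - (e p).1)) ∘ e.symm =ᶠ[𝓝 (e y)]
      fun u => u.1 + (w₀ - (e p).1) := by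
    filter_upwards [e.open_target.mem_nhds (e.map_source h2)] with u hu
    simp only [Function.comp, e.right_inv hu]
  rw [h1, h3.fderiv_eq, fderiv_add_const, fderiv_fst]

lemma same_fst (h : PCh S e p) :
    ∃ N ∈ 𝓝 p, ∀ y ∈ N, ∀ y' ∈ N, S.π y = S.π y' → (e y).1 = (e y').1 := by
  have h1 : ∀ᶠ y in 𝓝 p, dist (e y).1 (e p).1 < S.ρ :=
    Metric.tendsto_nhds.1 (continuous_fst.continuousAt.comp (e.continuousAt h.2.1)) _ S.ρ_pos
  refine ⟨_, h.2.2.and h1, fun y hy y' hy' k => ?_⟩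
  rw [hy.1, hy'.1, add_right_inj, Sf0.mk_eq_iff, sub_sub_sub_cancel_right] at k
  refine sub_eq_zero.1 (S.lam_zero k ?_)
  rw [← dist_eq_norm]
  linarith [dist_triangle_right (e y).1 (e y').1 (e p).1, hy.2, hy'.2]

lemma not_zero {V : X → ℂ} (h : PCh S e p) (hV : ∀ᶠ y in 𝓝 p, S.RP V y)
    (hω : ¬ ∀ᶠ u in 𝓝 (e p), S.ω e u = 0) :
    ¬ ∀ᶠ u in 𝓝 (e p), (V ∘ e.symm) u - (V ∘ e.symm) (u.1, 0) = 0 := by
  intro h0
  apply hω
  have ht := e.open_target.mem_nhds (e.map_source h.2.1)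
  filter_upwards [h0.eventually_nhds, Sf0.symm_eventually h.2.1 hV,
    Sf0.symm_eventually h.2.1 (dπ_fst h), ht] with u h1 h2 h3 h4
  have h5 := h2.2.2 e h.1 (e.map_target h4)
  have h6 := (h2.2.1 e h.1 (e.map_target h4)).self_of_nhds
  rw [h3, D, e.right_inv h4] at h5
  rw [e.right_inv h4] at h6
  have l : HasDerivAt (fun s : ℂ => ((u.1, s) : E2)) (0, 1) u.2 :=
    (hasDerivAt_const _ _).prodMk (hasDerivAt_id _)
  have d1 := HasFDerivAt.comp_hasDerivAt u.2 (f := fun s : ℂ => ((u.1, s) : E2)) h6.hasFDerivAt l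
  have d2 : HasDerivAt ((V ∘ e.symm) ∘ fun s : ℂ => ((u.1, s) : E2)) 0 u.2 := by
    refine (hasDerivAt_const u.2 ((V ∘ e.symm) (u.1, 0))).congr_of_eventuallyEq ?_
    filter_upwards [l.continuousAt.eventually h1] with s hs
    exact sub_eq_zero.1 hs
  rw [← h5, wedge, d1.unique d2]
  simp

lemma root {k : ℕ} {c a t : ℝ} (hk : k ≠ 0) (h0 : 0 < c) (h1 : c ≤ 1) (ha : 0 ≤ a) (ht : 0 < t)
    (h : a ^ k * c ≤ t ^ k) : a ≤ t / c := by
  rw [le_div_iff₀ h0]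
  refine le_of_pow_le_pow_left₀ hk ht.le (le_trans ?_ h)
  rw [mul_pow]
  exact mul_le_mul_of_nonneg_left (pow_le_of_le_one h0.le h1 hk) (pow_nonneg ha k)

end Qld

open Qld in
theorem sQld (h1 : SPch) (h2 : SDiv2) (h3 : SOsg) : SQld := by
  intro X _ S L M K l η U O q χ hω hT hO hq hK w hw hG
  obtain ⟨e, he, e0, hs⟩ := (h1 X S).2.2 q w (by
    filter_upwards [hO.mem_nhds hw] with w' hw'
    exact ⟨(hq w' hw').1, by rw [(hq w' hw').2, zero_add]⟩)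
  have hV : ∀ᶠ y in 𝓝 (q w), S.RP (U (q w)) y := by
    filter_upwards [ball_mem_nhds (q w) hT.pos] with y hy
    exact (hT.1 _ (hK w hw) y hy).1
  have aG : AnalyticAt ℂ (U (q w) ∘ e.symm) 0 := h3 _ _ (e0 ▸ hV.self_of_nhds.2.1 e he.1 he.2.1)
  obtain ⟨k, F', aF, eF, nF⟩ := h2 (fun u => (U (q w) ∘ e.symm) u - (U (q w) ∘ e.symm) (u.1, 0))
    (aG.sub (aG.comp_of_eq (f := fun u : E2 => ((u.1, 0) : E2))
      (analyticAt_fst.prod analyticAt_const) rfl)) (e0 ▸ not_zero he hV (hω e he.1 _ he.2.1))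
  have hk : k ≠ 0 := by
    rintro rfl
    have l : Tendsto (fun t : ℂ => ((t, 0) : E2)) (𝓝[≠] 0) (𝓝 0) :=
      ((continuous_id.prodMk continuous_const).tendsto' 0 0 rfl).mono_left nhdsWithin_le_nhds
    obtain ⟨t, k1, k2⟩ := ((l.eventually eF).and nF).exists
    exact k2 (by simpa using k1.symm)
  obtain ⟨N, hN, hN'⟩ := same_fst he
  have ce : Tendsto e (𝓝 (q w)) (𝓝 0) := e0 ▸ e.continuousAt he.2.1
  have hP := (((ce.eventually (eF.and aF.eventually_analyticAt)).and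
    (e.open_source.mem_nhds he.2.1)).and ((show ∀ᶠ y in 𝓝 (q w), y ∈ N from hN).and
      (ball_mem_nhds (q w) (half_pos hT.pos)))).eventually_nhds
  have sub : Tendsto (fun w' => w' - w) (𝓝 w) (𝓝 0) :=
    Continuous.tendsto' (by fun_prop) _ _ (sub_self w)
  have sub' : Tendsto (fun w' => w' - w) (𝓝[≠] w) (𝓝[≠] 0) :=
    tendsto_nhdsWithin_iff.2 ⟨sub.mono_left nhdsWithin_le_nhds,
      eventually_mem_nhdsWithin.mono fun _ h => sub_ne_zero.2 h⟩
  filter_upwards [hG, sub'.eventually nF, nhdsWithin_le_nhds ((hq w hw).1.1.eventually hP),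
    nhdsWithin_le_nhds ((sub.eventually hs).and (hO.mem_nhds hw)).eventually_nhds]
    with w' g1 g2 g3 g4
  simp only [add_sub_cancel] at g4
  obtain ⟨⟨⟨-, a1⟩, a2⟩, -⟩ := g3.self_of_nhds
  obtain ⟨b1, b2⟩ := g4.self_of_nhds
  rw [← b1] at g2
  obtain ⟨Kc, T, hT1, hT2⟩ :=
    (g1.anAt e he.1 a2).contDiffAt (n := 1) |>.exists_lipschitzOnWith
  obtain ⟨c, c0, c1, c2⟩ : ∃ c : ℝ, 0 < c ∧ c ≤ 1 ∧ c < ‖F' (e (q w'))‖ :=
    ⟨min 1 (‖F' (e (q w'))‖ / 2), lt_min one_pos (half_pos (norm_pos_iff.2 g2)), min_le_left _ _,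
      (min_le_right _ _).trans_lt (half_lt_self (norm_pos_iff.2 g2))⟩
  obtain ⟨ε, ε0, hε⟩ := Metric.mem_nhds_iff.1 ((g3.and g1.eventually).and
    ((e.continuousAt a2).eventually ((show ∀ᶠ u in 𝓝 (e (q w')), u ∈ T from hT1).and
      (a1.continuousAt.norm.eventually (lt_mem_nhds c2)))))
  refine ⟨k, Kc / c, min η (ε / 2), lt_min hT.2.1 (half_pos ε0), ?_⟩
  filter_upwards [g4, (hq w' b2).1.1.eventually (ball_mem_nhds _ (half_pos ε0))]
    with w'' d1 d2 y hπ hd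
  have hy : y ∈ ball (q w') ε := by
    rw [mem_ball]
    linarith [dist_triangle_left y (q w') (q w''), hd.trans (min_le_right _ _)]
  obtain ⟨⟨⟨⟨⟨y1, -⟩, y2⟩, y3, -⟩, y4⟩, y5, y6⟩ := hε hy
  obtain ⟨⟨⟨⟨-, z2⟩, z3, z4⟩, -⟩, z5, -⟩ := hε (ball_subset_ball (half_le_self ε0.le) d2)
  refine ⟨y4, fun t t0 _ ht => ?_⟩
  have e1 : e (q w'') = ((e y).1, 0) := by rw [hN' y y3 _ z3 hπ, d1.1]
  have e2 : th U (q w'') y = (e y).2 ^ k * F' (e y) := by
    rw [hT.2.2.2 _ (hK w hw) _ (hK w'' d1.2) z4 y hπ (hd.trans (min_le_left _ _)), ← y1, ← e1]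
    simp only [Function.comp, e.left_inv y2, e.left_inv z2]
  rw [e2, norm_mul, norm_pow] at ht
  have e3 := root hk c0 c1 (norm_nonneg _) t0
    ((mul_le_mul_of_nonneg_left y6.le (pow_nonneg (norm_nonneg _) k)).trans ht)
  have e4 := hT2.dist_le_mul _ y5 _ z5
  simp only [Function.comp, e.left_inv y2, e.left_inv z2] at e4
  rw [e1, Prod.dist_eq, dist_self, dist_zero_right, max_eq_right (norm_nonneg _),
    dist_eq_norm] at e4
  refine e4.trans ((mul_le_mul_of_nonneg_left e3 Kc.coe_nonneg).trans_eq ?_)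
  ring

end Pool.Agent.P.MP_7ede32_ag.Full
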