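import Pool.Agent.P.MP_7ede32_ag.Full.StC

/-!
The Weierstrass function of the projection as a local quotient.
-/

open Filter Topology Metric Set

noncomputable section

namespace Pool.Agent.P.MP_7ede32_ag.Full

open Geo
open Ell (E2 jac)

namespace Rho

variable {X : Type} [MetricSpace X] {S : Sf0 X} {L : PeriodPair}

/-- the Weierstrass function of the projection -/
def wp (S : Sf0 X) (L : PeriodPair) (y : X) : ℂ := L.weierstrassP (S.lf y y)

/-- numerator near the zero fibre -/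
def sgm (S : Sf0 X) (L : PeriodPair) (y : X) : ℂ :=
  1 + S.mu 0 y ^ 2 * L.weierstrassPExcept 0 (S.mu 0 y)

lemma wp_eq (hL : S.Λ = L.lattice) {y : X} {w : ℂ} (h : S.π y = S.Λ.mkQ w) :
    wp S L y = L.weierstrassP w := by
  have h1 : S.lf y y - w ∈ L.lattice := by
    rw [← hL]
    exact Sf0.mk_eq_iff.1 ((Sf0.isLift_lf (S := S) y).1.self_of_nhds.symm.trans h)
  have h2 := L.weierstrassP_add_coe w ⟨_, h1⟩
  simp only [add_sub_cancel] at h2
  exact h2

lemma anAt_wp (hL : S.Λ = L.lattice) {y : X} (h : S.π y ≠ 0) : S.AnAt (wp S L) y := by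
  have hg := Sf0.isLift_lf (S := S) y
  have h1 : S.lf y y ∉ L.lattice := by
    rw [← hL]
    intro h2
    exact h (hg.1.self_of_nhds.trans ((Submodule.Quotient.mk_eq_zero _).2 h2))
  refine anAt_congr (F := fun y' => L.weierstrassP (S.lf y y')) (fun e he hx => ?_) ?_
  · exact AnalyticAt.comp_of_eq (g := L.weierstrassP) (f := S.lf y ∘ e.symm)
      (L.analyticOnNhd_weierstrassP _ h1) (hg.2 e he hx) (by simp [e.left_inv hx])
  · filter_upwards [hg.1] with y' h2
    exact (wp_eq hL h2).symm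

lemma anAt_sq {y : X} (h : S.MuOk 0 y) : S.AnAt (fun y' => S.mu 0 y' ^ 2) y :=
  fun e he hx => (h.1 e he hx).pow 2

lemma anAt_sg (hL : S.Λ = L.lattice) {y : X} (h : S.MuOk 0 y) : S.AnAt (sgm S L) y := by
  intro e he hx
  have h1 : S.mu 0 y ∈ ((L.lattice : Set ℂ) \ {0})ᶜ := by
    rintro ⟨h2, h3⟩
    refine h3 (S.lam_zero (hL.ge h2) ?_)
    linarith [h.2.self_of_nhds.2, S.ρ_pos]
  have h2 : AnalyticAt ℂ (L.weierstrassPExcept 0 ∘ (S.mu 0 ∘ e.symm)) (e y) :=
    AnalyticAt.comp_of_eq (L.analyticOnNhd_weierstrassPExcept 0 _ h1) (h.1 e he hx)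
      (by simp [e.left_inv hx])
  exact analyticAt_const.add ((anAt_sq h e he hx).mul h2)

lemma sg_eq (hL : S.Λ = L.lattice) {y : X} (h : S.MuOk 0 y) (h0 : S.π y ≠ 0) :
    sgm S L y = S.mu 0 y ^ 2 * wp S L y := by
  have h1 : S.mu 0 y ≠ 0 := fun h2 => h0 (h.eq_zero_iff.1 h2)
  have h2 : S.π y = S.Λ.mkQ (S.mu 0 y) := by simpa using h.2.self_of_nhds.1
  have h3 := L.weierstrassPExcept_add 0 (S.mu 0 y)
  rw [wp_eq hL h2, ← h3, sgm]
  simp only [Submodule.coe_zero, sub_zero, ne_eq, OfNat.ofNat_ne_zero, not_false_eq_true,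
    zero_pow, div_zero]
  field_simp
  ring

end Rho

open Rho in
open Classical in
theorem sRho : SRho := by
  intro X _ S L hL
  refine ⟨fun x => if S.π x = 0 then {y | S.MuOk 0 y} else {y | S.π y ≠ 0},
    fun x => if S.π x = 0 then fun y => S.mu 0 y ^ 2 else fun _ => 1,
    fun x => if S.π x = 0 then sgm S L else wp S L,
    fun x x' => if S.π x = 0 then (if S.π x' = 0 then fun _ => 1 else fun y => S.mu 0 y ^ 2)
      else (if S.π x' = 0 then fun y => (S.mu 0 y ^ 2)⁻¹ else fun _ => 1), ?_, ?_, ?_⟩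
  · intro x
    by_cases hx : S.π x = 0
    · simp only [if_pos hx]
      exact ⟨isOpen_iff_mem_nhds.2 fun y hy => Sf0.MuOk.eventually hy, Sf0.muOk_fib hx⟩
    · simp only [if_neg hx]
      exact ⟨(Sf0.isClosed_fib (S := S) 0).isOpen_compl, hx⟩
  · intro x y hy
    by_cases hx : S.π x = 0
    · simp only [if_pos hx] at hy ⊢
      have hy' : S.MuOk 0 y := hy
      refine ⟨anAt_sq hy', anAt_sg hL hy', ?_, fun w hw h0 => ?_⟩
      · rw [pow_eq_zero_iff two_ne_zero]
        exact hy'.eq_zero_iff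
      · rw [sg_eq hL hy' h0, wp_eq hL hw]
    · simp only [if_neg hx] at hy ⊢
      have hy' : S.π y ≠ 0 := hy
      refine ⟨fun e _ _ => analyticAt_const, anAt_wp hL hy', ?_, fun w hw _ => ?_⟩
      · simp [hy']
      · rw [wp_eq hL hw, one_mul]
  · intro x x' y hy hy'
    by_cases hx : S.π x = 0 <;> by_cases hx' : S.π x' = 0
    · simp only [if_pos hx, if_pos hx']
      exact ⟨continuousAt_const, one_ne_zero, (one_mul _).symm, (one_mul _).symm⟩
    · simp only [if_pos hx, if_neg hx'] at hy hy' ⊢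
      have h1 : S.MuOk 0 y := hy
      have h2 : S.π y ≠ 0 := hy'
      exact ⟨(anAt_sq h1).continuousAt, pow_ne_zero 2 fun h => h2 (h1.eq_zero_iff.1 h),
        (mul_one _).symm, sg_eq hL h1 h2⟩
    · simp only [if_neg hx, if_pos hx'] at hy hy' ⊢
      have h1 : S.MuOk 0 y := hy'
      have h2 : S.π y ≠ 0 := hy
      have h3 : S.mu 0 y ^ 2 ≠ 0 := pow_ne_zero 2 fun h => h2 (h1.eq_zero_iff.1 h)
      refine ⟨(anAt_sq h1).continuousAt.inv₀ h3, inv_ne_zero h3, (inv_mul_cancel₀ h3).symm, ?_⟩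
      rw [sg_eq hL h1 h2, inv_mul_cancel_left₀ h3]
    · simp only [if_neg hx, if_neg hx']
      exact ⟨continuousAt_const, one_ne_zero, (one_mul _).symm, (one_mul _).symm⟩

end Pool.Agent.P.MP_7ede32_ag.Full
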