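import Pool.Agent.P.MP_7ede32_ag.Full.StC

/-!
Schwarz lemma in two variables.
-/

open Filter Topology Metric Set

noncomputable section

namespace Pool.Agent.P.MP_7ede32_ag.Full

open Ell (E2)

namespace Schw

/-- the derivative in the direction `w` -/
def dd (w : E2) (f : E2 → ℂ) : E2 → ℂ := fun p => fderiv ℂ f p w

variable {r : ℝ}

lemma dd_diff (w : E2) {f : E2 → ℂ} (hf : DifferentiableOn ℂ f (ball 0 r)) :
    DifferentiableOn ℂ (dd w f) (ball 0 r) :=
  MP_e711b0_an.differentiableOn_fderiv_apply isOpen_ball hf w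

lemma it_diff (w : E2) (i : ℕ) : ∀ {f : E2 → ℂ}, DifferentiableOn ℂ f (ball 0 r) →
    DifferentiableOn ℂ ((dd w)^[i] f) (ball 0 r) := by
  induction i with
  | zero => exact fun h => h
  | succ i ih => exact fun h => ih (dd_diff w h)

lemma it_sum {κ : Type} [Fintype κ] (c : κ → ℂ) (w : E2) (i : ℕ) :
    ∀ {s : κ → E2 → ℂ} {F : E2 → ℂ}, (∀ k, DifferentiableOn ℂ (s k) (ball 0 r)) →
      (∀ p ∈ ball (0 : E2) r, F p = ∑ k, c k * s k p) →
      ∀ p ∈ ball (0 : E2) r, (dd w)^[i] F p = ∑ k, c k * (dd w)^[i] (s k) p := by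
  induction i with
  | zero => exact fun _ h => h
  | succ i ih =>
    intro s F hs hF
    refine ih (fun k => dd_diff w (hs k)) fun p hp => ?_
    have h1 : F =ᶠ[𝓝 p] fun q => ∑ k, c k * s k q :=
      mem_of_superset (isOpen_ball.mem_nhds hp) hF
    have h2 : HasFDerivAt (fun q => ∑ k, c k * s k q) (∑ k, c k • fderiv ℂ (s k) p) p :=
      HasFDerivAt.fun_sum fun k _ =>
        ((hs k).differentiableAt (isOpen_ball.mem_nhds hp)).hasFDerivAt.const_mul (c k)
    simp only [dd, h1.fderiv_eq, h2.fderiv, sum_apply, smul_apply, smul_eq_mul]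

lemma seg {f : E2 → ℂ} (hf : DifferentiableOn ℂ f (ball 0 r)) (a w : E2) (t : ℂ) {C : ℝ}
    (h : ∀ z : ℂ, ‖z‖ ≤ ‖t‖ → a + z • w ∈ ball (0 : E2) r ∧ ‖dd w f (a + z • w)‖ ≤ C) :
    ‖f (a + t • w) - f a‖ ≤ C * ‖t‖ := by
  have h1 := Convex.norm_image_sub_le_of_norm_hasDerivWithin_le (𝕜 := ℂ)
    (f := fun z : ℂ => f (a + z • w)) (f' := fun z => dd w f (a + z • w))
    (s := closedBall 0 ‖t‖) (x := 0) (y := t) (C := C) (fun z hz => by
      have h2 := (h z (by simpa using hz)).1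
      have h3 : HasDerivAt (fun z : ℂ => a + z • w) w z := by
        simpa using ((hasDerivAt_id z).smul_const w).const_add a
      exact ((hf.differentiableAt (isOpen_ball.mem_nhds h2)).hasFDerivAt.comp_hasDerivAt z
        h3).hasDerivWithinAt)
    (fun z hz => (h z (by simpa using hz)).2) (convex_closedBall _ _) (by simp) (by simp)
  simpa using h1

lemma bdd (hr : 0 < r) {f : E2 → ℂ} (hf : DifferentiableOn ℂ f (ball 0 r)) :
    ∃ C, 0 ≤ C ∧ ∀ p : E2, ‖p‖ ≤ r / 2 → ‖f p‖ ≤ C := by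
  obtain ⟨C, hC⟩ := (isCompact_closedBall (0 : E2) (r / 2)).exists_bound_of_continuousOn
    (hf.continuousOn.mono (closedBall_subset_ball (by linarith)))
  exact ⟨max C 0, le_max_right _ _, fun p hp => (hC p (by simpa using hp)).trans (le_max_left _ _)⟩

lemma axis (hr : 0 < r) (m : ℕ) : ∀ {f : E2 → ℂ}, DifferentiableOn ℂ f (ball 0 r) →
    (∀ j < m, (dd (0, 1))^[j] f 0 = 0) →
    ∃ C, 0 ≤ C ∧ ∀ v : ℂ, ‖v‖ ≤ r / 2 → ‖f (0, v)‖ ≤ C * ‖v‖ ^ m := by
  induction m with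
  | zero =>
    intro f hf _
    obtain ⟨C, h0, hC⟩ := bdd hr hf
    exact ⟨C, h0, fun v hv => by simpa using hC (0, v) (by simpa using hv)⟩
  | succ m ih =>
    intro f hf h
    obtain ⟨C, h0, hC⟩ := ih (dd_diff (0, 1) hf) fun j hj => h (j + 1) (by omega)
    refine ⟨C, h0, fun v hv => ?_⟩
    have h1 := seg hf 0 (0, 1) v (C := C * ‖v‖ ^ m) fun z hz => by
      have h2 : (0 : E2) + z • ((0, 1) : E2) = (0, z) := by simp
      rw [h2]
      refine ⟨by simpa using by linarith, (hC z (hz.trans hv)).trans ?_⟩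
      gcongr
    have h2 : (0 : E2) + v • ((0, 1) : E2) = (0, v) := by simp
    have h3 : f 0 = 0 := h 0 (by omega)
    rwa [h2, h3, sub_zero, mul_assoc, ← pow_succ] at h1

lemma order (hr : 0 < r) (m : ℕ) : ∀ {f : E2 → ℂ}, DifferentiableOn ℂ f (ball 0 r) →
    (∀ i j, i + j < m → (dd (0, 1))^[j] ((dd (1, 0))^[i] f) 0 = 0) →
    ∃ C, 0 ≤ C ∧ ∀ p : E2, ‖p‖ ≤ r / 2 → ‖f p‖ ≤ C * ‖p‖ ^ m := by
  induction m with
  | zero =>
    intro f hf _
    obtain ⟨C, h0, hC⟩ := bdd hr hf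
    exact ⟨C, h0, fun p hp => by simpa using hC p hp⟩
  | succ m ih =>
    intro f hf h
    obtain ⟨C, h0, hC⟩ := ih (dd_diff (1, 0) hf) fun i j hj => h (i + 1) j (by omega)
    obtain ⟨C', h0', hC'⟩ := axis hr (m + 1) hf fun j hj => h 0 j (by omega)
    refine ⟨C + C', by positivity, fun ⟨u, v⟩ hp => ?_⟩
    have hu : ‖u‖ ≤ ‖(u, v)‖ := norm_fst_le (u, v)
    have hv : ‖v‖ ≤ ‖(u, v)‖ := norm_snd_le (u, v)
    have h1 := seg hf (0, v) (1, 0) u (C := C * ‖(u, v)‖ ^ m) fun z hz => by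
      have h2 : ((0, v) : E2) + z • ((1, 0) : E2) = (z, v) := by simp
      have h3 : ‖(z, v)‖ ≤ ‖(u, v)‖ := by
        rw [Prod.norm_def]
        exact max_le (hz.trans hu) hv
      rw [h2]
      refine ⟨mem_ball_zero_iff.2 (by linarith), (hC _ (h3.trans hp)).trans ?_⟩
      gcongr
    have h2 : ((0, v) : E2) + u • ((1, 0) : E2) = (u, v) := by simp
    rw [h2] at h1
    have h3 : ‖f (0, v)‖ ≤ C' * ‖(u, v)‖ ^ (m + 1) := (hC' v (hv.trans hp)).trans (by gcongr)
    have h4 : C * ‖(u, v)‖ ^ m * ‖u‖ ≤ C * ‖(u, v)‖ ^ (m + 1) := by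
      rw [pow_succ, ← mul_assoc]
      gcongr
    have h5 := norm_add_le (f (u, v) - f (0, v)) (f (0, v))
    rw [sub_add_cancel] at h5
    linarith

end Schw

open Schw

theorem sSchw : SSchw := by
  intro κ _ s r m hr hs
  refine ⟨fun k j => (dd (0, 1))^[j.2] ((dd (1, 0))^[j.1] (s k)) 0, fun c hc B hB p hp => ?_⟩
  have h0 : (0 : E2) ∈ ball (0 : E2) r := mem_ball_self hr
  have hB0 : 0 ≤ B := (norm_nonneg _).trans (hB 0 h0)
  have hp' : ‖p‖ < r / 4 := mem_ball_zero_iff.1 hp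
  have hpr : p ∈ ball (0 : E2) r := mem_ball_zero_iff.2 (by linarith)
  set F : E2 → ℂ := fun q => ∑ k, c k * s k q with hF
  have hFd : DifferentiableOn ℂ F (ball 0 r) :=
    DifferentiableOn.fun_sum fun k _ => (hs k).const_mul (c k)
  obtain ⟨C, -, hC⟩ := order hr m hFd fun i j hij => by
    rw [it_sum c (0, 1) j (fun k => it_diff (1, 0) i (hs k))
      (it_sum c (1, 0) i hs fun _ _ => rfl) 0 h0]
    exact hc (⟨i, by omega⟩, ⟨j, by omega⟩)
  cases m with
  | zero =>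
    have := hB p hpr
    simp only [pow_zero, div_one]
    linarith
  | succ n =>
    have hF0 : F 0 = 0 := by simpa using hC 0 (by simpa using by linarith)
    have h1 : (fun q => F q - F 0) =O[𝓝 0] fun w : E2 => ‖w - 0‖ ^ (n + 1) := by
      refine Asymptotics.IsBigO.of_bound C ?_
      filter_upwards [closedBall_mem_nhds (0 : E2) (half_pos hr)] with q hq
      simpa [hF0] using hC q (by simpa using hq)
    have h2 : (fun w : E2 => ‖w - 0‖ ^ (n + 1)) =o[𝓝 0] fun w : E2 => ‖w - 0‖ ^ n :=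
      (Asymptotics.isLittleO_pow_pow (𝕜 := ℝ) (Nat.lt_succ_self n)).comp_tendsto
        (Continuous.tendsto' (f := fun w : E2 => ‖w - 0‖) (by fun_prop) 0 0 (by simp))
    have h3 := Complex.dist_le_mul_div_pow_of_mapsTo_ball_of_isLittleO (R₂ := B) hFd
      (fun q hq => by simpa [hF0] using hB q hq) (h1.trans_isLittleO h2) hpr
    rw [hF0, dist_zero_right, dist_zero_right] at h3
    have h4 : (‖p‖ / r) ^ (n + 1) ≤ (1 / 2) ^ (n + 1) :=
      pow_le_pow_left₀ (by positivity) (by rw [div_le_iff₀ hr]; linarith) _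
    have h5 : B * (‖p‖ / r) ^ (n + 1) ≤ B / 2 ^ (n + 1) := by
      rw [one_div, inv_pow] at h4
      exact mul_le_mul_of_nonneg_left h4 hB0
    have h6 : B / 2 ^ (n + 1) ≤ 8 * B / 2 ^ (n + 1) := by
      gcongr
      linarith
    exact h3.trans (h5.trans h6)

end Pool.Agent.P.MP_7ede32_ag.Full
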