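import Pool.Agent.P.MP_7ede32_ag.Full.StC

/-!
The identity theorem for sections, and the derivative of a ratio along the fibres.
-/

open Filter Topology Metric Set

noncomputable section

namespace Pool.Agent.P.MP_7ede32_ag.Full

open Geo
open Ell (E2 jac det2 const_of_deriv_ball)

namespace SecW

variable {X : Type} [MetricSpace X] {S : Sf0 X}

lemma all_of_local [PreconnectedSpace X] {P : X → Prop} (ho : ∀ x, P x → ∀ᶠ y in 𝓝 x, P y)
    (hc : ∀ x, (∃ᶠ y in 𝓝 x, P y) → P x) {x : X} (hx : P x) (y : X) : P y := by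
  have h : IsClopen {x | P x} :=
    ⟨isClosed_of_closure_subset fun x hx => hc x (mem_closure_iff_frequently.1 hx),
      isOpen_iff_mem_nhds.2 ho⟩
  have := h.eq_univ ⟨x, hx⟩
  exact (this ▸ mem_univ y : y ∈ {x | P x})

lemma zero_on_ball {G : E2 → ℂ} {c : E2} (hG : AnalyticAt ℂ G c) :
    ∀ᶠ p in 𝓝 c, (∀ᶠ q in 𝓝 p, G q = 0) → ∀ᶠ q in 𝓝 c, G q = 0 := by
  obtain ⟨r, hr, h⟩ := Metric.eventually_nhds_iff_ball.1 hG.eventually_analyticAt
  filter_upwards [ball_mem_nhds c hr] with p hp hv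
  have := AnalyticOnNhd.eqOn_of_preconnected_of_eventuallyEq (f := G) (g := fun _ => 0) h
    analyticOnNhd_const (convex_ball c r).isPreconnected hp hv
  exact eventually_of_mem (ball_mem_nhds c hr) this

lemma an_apply {f : E2 → E2 →L[ℂ] ℂ} {p : E2} (hf : AnalyticAt ℂ f p) (v : E2) :
    AnalyticAt ℂ (fun q => f q v) p :=
  ((ContinuousLinearMap.apply ℂ ℂ v).analyticAt _).comp hf

lemma an_wedge {f g : E2 → E2 →L[ℂ] ℂ} {p : E2} (hf : AnalyticAt ℂ f p) (hg : AnalyticAt ℂ g p) :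
    AnalyticAt ℂ (fun q => wedge (f q) (g q)) p :=
  ((an_apply hf _).mul (an_apply hg _)).sub ((an_apply hf _).mul (an_apply hg _))

lemma an_jac {τ : E2 → E2} {p : E2} (h : AnalyticAt ℂ τ p) :
    AnalyticAt ℂ (fun q => jac (fderiv ℂ τ q)) p := by
  have h1 : ∀ v, AnalyticAt ℂ (fun q => fderiv ℂ τ q v) p := fun v =>
    ((ContinuousLinearMap.apply ℂ E2 v).analyticAt _).comp h.fderiv
  exact ((analyticAt_fst.comp (h1 _)).mul (analyticAt_snd.comp (h1 _))).sub
    ((analyticAt_snd.comp (h1 _)).mul (analyticAt_fst.comp (h1 _)))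

lemma fderiv_trans {m : ℕ} (σ : Sec S m) {e e' : OpenPartialHomeomorph X E2} (he : e ∈ S.A)
    (he' : e' ∈ S.A) {x : X} (hx : x ∈ e.source) (hx' : x ∈ e'.source) :
    fderiv ℂ (σ.c e) (e x) =
      σ.c e' (e' x) • fderiv ℂ (fun p => jac (fderiv ℂ (e' ∘ e.symm) p) ^ m) (e x) +
        jac (fderiv ℂ (e' ∘ e.symm) (e x)) ^ m •
          (fderiv ℂ (σ.c e') (e' x)).comp (fderiv ℂ (e' ∘ e.symm) (e x)) := by
  have hτ := S.trans e he e' he' x hx hx'
  have h0 : (e' ∘ e.symm) (e x) = e' x := by simp [e.left_inv hx]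
  have h1 : σ.c e =ᶠ[𝓝 (e x)] fun p =>
      σ.c e' ((e' ∘ e.symm) p) * jac (fderiv ℂ (e' ∘ e.symm) p) ^ m := by
    filter_upwards [Sf0.symm_eventually hx (e'.open_source.mem_nhds hx'),
      e.open_target.mem_nhds (e.map_source hx)] with p a1 a2
    have := σ.compat e he e' he' _ (e.map_target a2) a1
    rwa [e.right_inv a2] at this
  have h2 : HasFDerivAt (σ.c e') (fderiv ℂ (σ.c e') (e' x)) ((e' ∘ e.symm) (e x)) :=
    h0 ▸ (σ.an e' he' x hx').differentiableAt.hasFDerivAt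
  have h3 := (h2.comp (e x) hτ.differentiableAt.hasFDerivAt).mul
    ((an_jac hτ).pow m).differentiableAt.hasFDerivAt
  rw [h1.fderiv_eq]
  refine h3.fderiv.trans ?_
  rw [Function.comp_apply, h0]
  rfl

/-- the section `dπ ∧ (b da - a db)` -/
def W {m : ℕ} (a b : Sec S m) : Sec S (2 * m + 1) where
  c e p := wedge (S.dπ e (e.symm p)) (b.c e p • fderiv ℂ (a.c e) p - a.c e p • fderiv ℂ (b.c e) p)
  an e he x hx := an_wedge (Sf0.anAt_dπ he hx e he hx)
    (((b.an e he x hx).smul (a.an e he x hx).fderiv).sub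
      ((a.an e he x hx).smul (b.an e he x hx).fderiv))
  compat e he e' he' x hx hx' := by
    rw [e.left_inv hx, e'.left_inv hx', Sf0.dπ_trans he he' hx hx', fderiv_trans a he he' hx hx',
      fderiv_trans b he he' hx hx', a.compat e he e' he' x hx hx', b.compat e he e' he' x hx hx',
      pow_succ, mul_comm (_ ^ (2 * m)), ← mul_assoc, ← wedge_comp]
    simp only [wedge, sub_apply, add_apply, smul_apply, ContinuousLinearMap.comp_apply,
      smul_eq_mul]
    ring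

lemma dπ_fst {e : OpenPartialHomeomorph X E2} {p : X} (h : PCh S e p) :
    ∀ᶠ y in 𝓝 p, S.dπ e y = ContinuousLinearMap.fst ℂ ℂ ℂ := by
  obtain ⟨he, hp, h⟩ := h
  have key : ∀ y ∈ e.source, (fun y => S.lf p p + ((e y).1 - (e p).1)) ∘ e.symm =ᶠ[𝓝 (e y)]
      fun u => S.lf p p + (u.1 - (e p).1) := fun y hy => by
    filter_upwards [e.open_target.mem_nhds (e.map_source hy)] with u hu
    simp [e.right_inv hu]
  have hl : S.IsLift (fun y => S.lf p p + ((e y).1 - (e p).1)) p :=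
    ⟨h.mono fun y hy => by rw [hy, map_add, ← (Sf0.isLift_lf p).1.self_of_nhds],
      Sf0.anAt_of_chart he hp (AnalyticAt.congr
        (analyticAt_const.add (analyticAt_fst.sub analyticAt_const)) (key p hp).symm)⟩
  filter_upwards [hl.dπ_eventually hp, e.open_source.mem_nhds hp] with y a1 a2
  rw [a1, (key y a2).fderiv_eq]
  exact ((hasFDerivAt_fst.sub_const _).const_add _).fderiv

lemma ratio_const {a b : E2 → ℂ} (ha : AnalyticAt ℂ a 0) (hb : AnalyticAt ℂ b 0) (h0 : b 0 ≠ 0)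
    (h : ∀ᶠ u in 𝓝 (0 : E2), b u * fderiv ℂ a u (0, 1) - a u * fderiv ℂ b u (0, 1) = 0) :
    ∀ᶠ v in 𝓝 (0 : ℂ), a (0, v) / b (0, v) = a 0 / b 0 := by
  have hc : Tendsto (fun v : ℂ => ((0, v) : E2)) (𝓝 0) (𝓝 0) :=
    (by fun_prop : Continuous fun v : ℂ => ((0, v) : E2)).tendsto' 0 0 rfl
  obtain ⟨r, hr, H⟩ := Metric.eventually_nhds_iff_ball.1 (hc.eventually
    ((ha.eventually_analyticAt.and hb.eventually_analyticAt).and
      ((hb.continuousAt.eventually_ne h0).and h)))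
  have hd : ∀ v ∈ ball (0 : ℂ) r, HasDerivAt (fun v : ℂ => a (0, v) / b (0, v)) 0 v := by
    intro v hv
    obtain ⟨⟨a1, a2⟩, a3, a4⟩ := H v hv
    have hi : HasDerivAt (fun v : ℂ => ((0, v) : E2)) (0, 1) v :=
      (hasDerivAt_const v (0 : ℂ)).prodMk (hasDerivAt_id v)
    have := (a1.differentiableAt.hasFDerivAt.comp_hasDerivAt v hi).div
      (a2.differentiableAt.hasFDerivAt.comp_hasDerivAt v hi) a3
    rw [Function.comp_apply, Function.comp_apply, mul_comm, a4, zero_div] at this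
    exact this
  filter_upwards [ball_mem_nhds 0 hr] with v hv
  exact const_of_deriv_ball (fun u hu => (hd u hu).differentiableAt.differentiableWithinAt)
    (fun u hu => (hd u hu).deriv) hv (mem_ball_self hr)

end SecW

open SecW

theorem sSecId : SSecId := by
  intro X _ _ S m σ ⟨e₀, he₀, x₀, hx₀, h0⟩ e he x hx h
  have key : ∀ e ∈ S.A, ∀ x ∈ e.source, (∀ᶠ y in 𝓝 x, σ.c e (e y) = 0) →
      ∀ᶠ y in 𝓝 x, ∀ e' ∈ S.A, y ∈ e'.source → σ.c e' (e' y) = 0 := fun e he x hx h => by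
    filter_upwards [h, e.open_source.mem_nhds hx] with y a1 a2 e' he' hy
    rw [σ.compat e' he' e he y hy a2, a1, zero_mul]
  refine h0 ((all_of_local
    (P := fun x => ∀ᶠ y in 𝓝 x, ∀ e' ∈ S.A, y ∈ e'.source → σ.c e' (e' y) = 0)
    (fun _ h => h.eventually_nhds) (fun x hx => ?_) (key e he x hx h) x₀).self_of_nhds e₀ he₀ hx₀)
  obtain ⟨e, he, hxe⟩ := S.cover x
  obtain ⟨y, a1, a2, a3⟩ := (hx.and_eventually (((e.continuousAt hxe).eventually
    (zero_on_ball (σ.an e he x hxe))).and (e.open_source.mem_nhds hxe))).exists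
  refine key e he x hxe ((e.continuousAt hxe).eventually (a2 ?_))
  filter_upwards [Sf0.symm_eventually a3 a1, e.open_target.mem_nhds (e.map_source a3)] with p b1 b2
  have := b1 e he (e.map_target b2)
  rwa [e.right_inv b2] at this

theorem sW (h1 : SPch) (_h2 : SSecId) : SW := by
  intro X _ _ S G hN
  obtain ⟨hP, hC, -⟩ := h1 X S
  suffices H : ∃ l, (W (G.a l) G.b).Nz by
    obtain ⟨l, hl⟩ := H
    exact ⟨l, W (G.a l) G.b, hl, fun e _ x hx => by simp only [W, e.left_inv hx]⟩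
  by_contra H
  have hz : ∀ l, ∀ e ∈ S.A, ∀ x ∈ e.source, (W (G.a l) G.b).c e (e x) = 0 :=
    fun l e he x hx => not_not.1 fun h => H ⟨l, e, he, x, hx, h⟩
  obtain ⟨e₀, he₀, x₀, hx₀, h0⟩ := G.b_ne
  obtain ⟨p, a1, a2, a3⟩ := ((hC hN x₀).and_eventually
    (((((G.b.an e₀ he₀ x₀ hx₀).continuousAt.comp (e₀.continuousAt hx₀)).eventually_ne h0)).and
      (e₀.open_source.mem_nhds hx₀))).exists
  obtain ⟨e, hc, h0p⟩ := hP p a1
  have he := hc.1
  have hp := hc.2.1
  have hb : G.b.c e 0 ≠ 0 := fun h => a2 (by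
    rw [Function.comp_apply, G.b.compat e₀ he₀ e he p a3 hp, h0p, h, zero_mul])
  have ht : ∀ᶠ u in 𝓝 (0 : E2), u ∈ e.target := h0p ▸ e.open_target.mem_nhds (e.map_source hp)
  have hba : AnalyticAt ℂ (G.b.c e) 0 := h0p ▸ G.b.an e he p hp
  have hr : ∀ l, ∀ᶠ v in 𝓝 (0 : ℂ), (G.a l).c e (0, v) / G.b.c e (0, v) =
      (G.a l).c e 0 / G.b.c e 0 := fun l => by
    refine ratio_const (h0p ▸ (G.a l).an e he p hp) hba hb ?_
    filter_upwards [ht, h0p ▸ Sf0.symm_eventually hp (dπ_fst hc)] with u b1 b2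
    have := hz l e he _ (e.map_target b1)
    rw [e.right_inv b1] at this
    simpa [W, b2, wedge] using this
  have hc0 : Tendsto (fun v : ℂ => ((0, v) : E2)) (𝓝 0) (𝓝 0) :=
    (by fun_prop : Continuous fun v : ℂ => ((0, v) : E2)).tendsto' 0 0 rfl
  obtain ⟨v, ⟨⟨b1, b2⟩, b3⟩, b4⟩ := ((((eventually_all.2 hr).and (hc0.eventually ht)).and
    (hc0.eventually (hba.continuousAt.eventually_ne hb))).filter_mono
      (nhdsWithin_le_nhds (s := {0}ᶜ)) |>.and self_mem_nhdsWithin).exists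
  have := G.inj e he e he _ (e.map_target b2) p hp (by rwa [e.right_inv b2]) (by rwa [h0p])
    fun l => by rw [e.right_inv b2, h0p, b1 l]
  have h3 := congrArg e this
  rw [e.right_inv b2, h0p] at h3
  exact b4 (congrArg Prod.snd h3)

end Pool.Agent.P.MP_7ede32_ag.Full
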