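import Pool.Agent.P.MP_7ede32_ag.Full.StC
import Pool.Agent.P.MP_7ede32_ag.Geo.Shad

/-!
Uniform shadowing of sections by members of the finite class.
-/

open Filter Topology Metric Set

noncomputable section

namespace Pool.Agent.P.MP_7ede32_ag.Full

open Geo
open Ell (E2 UU ev_UU UU_le)

namespace Shad2

variable {X : Type} [MetricSpace X] {S : Sf0 X} {s₀ : ℂ ⧸ S.Λ} {C : S.Cfg s₀} {δ : ℝ}

/-- deep inside its domain a section is shadowed by a member of the class, uniformly -/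
lemma shadow [CompactSpace X] (hL : SLim) (hS : C.Sep δ) {ε : ℝ} (hε : 0 < ε) (R₁ : ℝ) :
    ∃ R : ℝ, ∀ (g : ℂ → X) (w₀ : ℂ), S.SecOn 0 g (ball w₀ R) → ∃ q, C.Cls δ q ∧
      ∀ w ∈ C.Cr (δ / 2) ∩ closedBall w₀ R₁, dist (g w) (q w) < ε := by
  by_contra hcon
  push Not at hcon
  choose g z hg hz' using fun n : ℕ => hcon n
  obtain ⟨D, hD⟩ := S.cocpt
  choose l hl hl' using fun n : ℕ => hD (z n)
  have hδ := hS.1
  have key : ∀ (R : ℝ) (n : ℕ), R + D < n → ∀ w : ℂ, ‖w‖ ≤ R → w + l n ∈ ball (z n) n := by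
    intro R n hn w hw
    refine mem_ball.2 ?_
    have b1 := dist_triangle (w + l n) (l n) (z n)
    rw [dist_eq_norm (w + l n) (l n), add_sub_cancel_right, dist_comm (l n) (z n)] at b1
    linarith [hl' n]
  obtain ⟨p, hp, hp'⟩ := hL X S s₀ C δ hS (fun n w => g n (w + l n)) (by
    intro R
    filter_upwards [ev_UU (tendsto_natCast_atTop_atTop.eventually_gt_atTop (R + 3 * δ + D))]
      with n hn
    refine ⟨?_, fun c hc => Sf0.Adm.lb (Or.inl ?_)⟩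
    · have := ShadP.secOn_shift (O' := C.Btᶜ ∩ closedBall 0 R) (hg n) 0 (hl n) fun w hw => by
        rw [zero_add]
        exact key (R + 3 * δ) n hn w (by linarith [mem_closedBall_zero_iff.1 hw.2])
      simpa using this
    · refine ShadP.secOn_shift (hg n) c (hl n) fun w hw => key (R + 3 * δ) n hn _ ?_
      linarith [norm_add_le c w, mem_closedBall_zero_iff.1 hc.2, mem_ball_zero_iff.1 hw])
  obtain ⟨n, hn⟩ := (hp' (δ / 2) (half_pos hδ) (R₁ + D) ε hε).exists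
  obtain ⟨w, hw, hw'⟩ := hz' n _ (hp.shift (S.Λ.neg_mem (hl n)))
  have h1 := hn (w + -l n) ⟨Sf0.Cfg.add_mem_Cr (S.Λ.neg_mem (hl n)) hw.1, by
    rw [mem_closedBall_zero_iff, ← sub_eq_add_neg, ← dist_eq_norm]
    linarith [dist_triangle w (z n) (l n), mem_closedBall.1 hw.2, hl' n]⟩
  rw [neg_add_cancel_right] at h1
  exact absurd h1 (not_lt.2 hw')

end Shad2

theorem sShad2 (h : SLim) : SShad2 := by
  intro X _ _ S s₀ C δ T hS hT η hη
  have hδ := hS.1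
  obtain ⟨ε₀, hε₀, R₁, hR₁, hsep⟩ := ShadP.sep hS ⟨T, hT⟩
  obtain ⟨R, hsh⟩ := Shad2.shadow h hS (lt_min (half_pos hε₀) hη) (R₁ + 1)
  refine ⟨R, fun g O Ω hg hΩ h1 => ?_⟩
  have : Nonempty (ℂ → X) := ⟨g⟩
  choose! q hq hq' using fun w₀ (hw₀ : w₀ ∈ Ω) => hsh g w₀ (hg.mono (h1 w₀ hw₀))
  have h2 : ∀ w₀ ∈ Ω, ∀ w₁ ∈ Ω, dist w₁ w₀ < 1 → EqOn (q w₀) (q w₁) C.Btᶜ := by
    intro w₀ hw₀ w₁ hw₁ hd
    refine hsep w₀ _ _ (hq w₀ hw₀) (hq w₁ hw₁) fun w hw => ?_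
    have b1 := hq' w₀ hw₀ w ⟨hw.1, mem_closedBall.2 (by linarith [mem_closedBall.1 hw.2])⟩
    have b2 := hq' w₁ hw₁ w ⟨hw.1, mem_closedBall.2 (by
      linarith [mem_closedBall.1 hw.2, dist_triangle_right w w₁ w₀])⟩
    linarith [dist_triangle_left (q w₀ w) (q w₁ w) (g w), min_le_left (ε₀ / 2) η]
  have h3 : ∀ w₀ ∈ Ω, ∀ w₁ ∈ Ω, EqOn (q w₀) (q w₁) C.Btᶜ := by
    intro w₀ hw₀ w₁ hw₁
    refine hΩ.isPreconnected.induction₂'
      (fun x y => EqOn (q x) (q y) C.Btᶜ) (fun x hx => ?_) (fun _ _ _ _ _ _ e1 e2 => e1.trans e2)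
      hw₀ hw₁
    filter_upwards [self_mem_nhdsWithin, mem_nhdsWithin_of_mem_nhds (ball_mem_nhds x one_pos)]
      with y hy hy'
    exact ⟨h2 x hx y hy hy', (h2 x hx y hy hy').symm⟩
  obtain ⟨w₁, hw₁⟩ := hΩ.nonempty
  obtain ⟨t, ht, he⟩ := hT.2.2 _ (hq w₁ hw₁)
  refine ⟨t, ht, fun w hw => ?_⟩
  have b1 := Sf0.Cfg.Cr_subset (half_pos hδ) hw.2
  rw [← he b1, h3 _ hw₁ w hw.1 b1, dist_comm]
  exact (hq' w hw.1 w ⟨hw.2, mem_closedBall_self (by linarith)⟩).le.trans (min_le_right _ _)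

end Pool.Agent.P.MP_7ede32_ag.Full
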