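import Pool.Agent.P.MP_7ede32_ag.Full.StC

/-!
Siegel's argument: three meromorphic functions on a compact surface are algebraically dependent.
-/

open Filter Topology Metric Set

noncomputable section

namespace Pool.Agent.P.MP_7ede32_ag.Full

open Geo
open Ell (E2 jac)

namespace Sieg

/-- a homogenised monomial -/
def hm (D : ℕ) (a : Fin 3 → ℕ) (u : ℂ) (v : Fin 3 → ℂ) : ℂ := u ^ (D - ∑ i, a i) * ∏ i, v i ^ a i

lemma hm_mul {D : ℕ} {a : Fin 3 → ℕ} (h : ∑ i, a i ≤ D) (g u : ℂ) (v : Fin 3 → ℂ) :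
    hm D a (g * u) (fun i => g * v i) = g ^ D * hm D a u v := by
  have h1 : g ^ D = g ^ (D - ∑ i, a i) * g ^ ∑ i, a i := by rw [← pow_add, Nat.sub_add_cancel h]
  simp only [hm, mul_pow, Finset.prod_mul_distrib, Finset.prod_pow_eq_pow_sum]
  rw [h1]
  ring

lemma hm_div {D : ℕ} {a : Fin 3 → ℕ} (h : ∑ i, a i ≤ D) {u : ℂ} (hu : u ≠ 0) (v : Fin 3 → ℂ) :
    hm D a u v = u ^ D * ∏ i, (v i / u) ^ a i := by
  have h1 := hm_mul h u 1 (fun i => v i / u)
  simp only [mul_one, mul_div_cancel₀ _ hu] at h1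
  rw [h1]
  simp [hm]

lemma sum_le {d : ℕ} (a : Fin 3 → Fin (d + 1)) : ∑ i, (a i : ℕ) ≤ 3 * d := by
  rw [Fin.sum_univ_three]
  have h0 := (a 0).2
  have h1 := (a 1).2
  have h2 := (a 2).2
  omega

/-- the choice of the parameters -/
lemma params (n : ℕ) (G : ℝ) (hG : 1 ≤ G) : ∃ d m : ℕ, n * (m * m) < (d + 1) ^ 3 ∧
    G ^ (3 * d) * (8 / 2 ^ m) ≤ 1 / 2 := by
  obtain ⟨c, hc⟩ := pow_unbounded_of_one_lt (2 * G ^ 3) (one_lt_two (α := ℝ))
  refine ⟨n * c ^ 2 + 4, c * (n * c ^ 2 + 4), ?_, ?_⟩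
  · generalize hd : n * c ^ 2 + 4 = d
    have h1 : n * (c * d * (c * d)) = n * c ^ 2 * d ^ 2 := by ring
    rw [h1]
    calc n * c ^ 2 * d ^ 2 ≤ d * d ^ 2 := Nat.mul_le_mul_right _ (by omega)
      _ = d ^ 3 := by ring
      _ < (d + 1) ^ 3 := Nat.pow_lt_pow_left (by omega) (by omega)
  · generalize hd : n * c ^ 2 + 4 = d
    have h4 : 4 ≤ d := by omega
    have h1 : (2 * G ^ 3) ^ d ≤ (2 : ℝ) ^ (c * d) := by
      rw [pow_mul]
      exact pow_le_pow_left₀ (by positivity) hc.le d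
    have h2 : (2 : ℝ) ^ 4 ≤ 2 ^ d := pow_le_pow_right₀ one_le_two h4
    rw [mul_pow, ← pow_mul] at h1
    have h3 : 0 < G ^ (3 * d) := by positivity
    rw [← mul_div_assoc, div_le_div_iff₀ (by positivity) two_pos]
    nlinarith

/-- a nonzero solution of a small linear system -/
lemma kernel {κ τ : Type} [Fintype κ] [Fintype τ] (h : Fintype.card τ < Fintype.card κ)
    (A : κ → τ → ℂ) : ∃ c : κ → ℂ, (∀ j, ∑ k, c k * A k j = 0) ∧ ∃ k, c k ≠ 0 := by
  have h1 : ¬ LinearIndependent ℂ A := fun h1 => by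
    have := h1.fintype_card_le_finrank
    rw [Module.finrank_fintype_fun_eq_card] at this
    omega
  obtain ⟨c, h2, h3⟩ := Fintype.not_linearIndependent_iff.1 h1
  exact ⟨c, fun j => by simpa using congrFun h2 j, h3⟩

/-- the polynomial with prescribed coefficients -/
lemma poly {d : ℕ} (c : (Fin 3 → Fin (d + 1)) → ℂ) (hc : ∃ k, c k ≠ 0) :
    ∃ P : MvPolynomial (Fin 3) ℂ, P ≠ 0 ∧
      ∀ v : Fin 3 → ℂ, MvPolynomial.eval v P = ∑ a, c a * ∏ i, v i ^ (a i : ℕ) := by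
  classical
  let E : (Fin 3 → Fin (d + 1)) → (Fin 3 →₀ ℕ) := fun a =>
    Finsupp.equivFunOnFinite.symm fun i => (a i : ℕ)
  have hE : Function.Injective E := fun a b hab => by
    funext i
    exact Fin.ext (by simpa [E] using DFunLike.congr_fun hab i)
  refine ⟨∑ a, MvPolynomial.monomial (E a) (c a), fun h => ?_, fun v => ?_⟩
  · obtain ⟨k, hk⟩ := hc
    have h1 := congrArg (MvPolynomial.coeff (E k)) h
    rw [MvPolynomial.coeff_sum, MvPolynomial.coeff_zero] at h1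
    simp only [MvPolynomial.coeff_monomial, hE.eq_iff] at h1
    simp at h1
    exact hk h1
  · rw [map_sum]
    refine Finset.sum_congr rfl fun a _ => ?_
    rw [MvPolynomial.eval_monomial, Finsupp.prod_fintype _ _ (by simp)]
    simp [E]

lemma bound_fin {τ : Type} [Finite τ] (p : τ → ℝ → Prop) (h : ∀ k, ∃ B, p k B)
    (hm : ∀ k B B', B ≤ B' → p k B → p k B') : ∃ B, 1 ≤ B ∧ ∀ k, p k B := by
  choose B hB using h
  obtain ⟨C, hC⟩ := (finite_range B).bddAbove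
  exact ⟨max 1 C, le_max_left _ _, fun k =>
    hm k _ _ ((hC (mem_range_self k)).trans (le_max_right _ _)) (hB k)⟩

end Sieg

open Sieg in
theorem sSieg (h : SSchw) : SSieg := by
  intro X _ _ S L M j
  classical
  choose e ρ hb hU using fun x =>
    Sf0.exists_box (S := S) ((M.U_open x).mem_nhds (M.mem_U x))
  have hρ : ∀ x, 0 < ρ x := fun x => (hb x).2.2.2.1
  let K : X → Set X := fun x => (e x).symm '' closedBall 0 (ρ x / 2)
  have hsub : ∀ x, closedBall (0 : E2) (ρ x / 2) ⊆ ball 0 (ρ x) := fun x =>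
    closedBall_subset_ball (half_lt_self (hρ x))
  have hK : ∀ x, IsCompact (K x) := fun x =>
    (isCompact_closedBall _ _).image_of_continuousOn
      ((e x).continuousOn_symm.mono ((hsub x).trans (hb x).2.2.2.2))
  have hKU : ∀ x, K x ⊆ M.U x := by
    rintro x _ ⟨p, hp, rfl⟩
    exact hU x ((hb x).symm_mem (hsub x hp)).1
  obtain ⟨t, ht⟩ := isCompact_univ.elim_finite_subcover (fun x => box (e x) (ρ x / 2 / 4))
    (fun x => isOpen_box _ _) (fun x _ => mem_iUnion.2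
      ⟨x, (hb x).2.1, by simpa [(hb x).2.2.1] using hρ x⟩)
  have hcov : ∀ y, ∃ k : t, ∃ p ∈ ball (0 : E2) (ρ k / 2 / 4), (e k).symm p = y := by
    intro y
    obtain ⟨k, hk, h1⟩ := mem_iUnion₂.1 (ht (mem_univ y))
    exact ⟨⟨k, hk⟩, e k y, h1.2, (e k).left_inv h1.1⟩
  have hmem : ∀ x, ∀ p ∈ ball (0 : E2) (ρ x / 2), (e x).symm p ∈ K x := fun x p hp =>
    mem_image_of_mem _ (ball_subset_closedBall hp)
  have h4 : ∀ x, ball (0 : E2) (ρ x / 2 / 4) ⊆ ball 0 (ρ x / 2) := fun x =>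
    ball_subset_ball (by linarith [hρ x])
  obtain ⟨G, hG1, hG⟩ := bound_fin
    (fun (k : t × t) G => ∀ y ∈ K k.1 ∩ K k.2, ‖M.g k.1 k.2 y‖ ≤ G)
    (fun k => ((hK k.1).inter_right (hK k.2).isClosed).exists_bound_of_continuousOn
      fun y hy => (M.trans _ _ y (hKU _ hy.1) (hKU _ hy.2)).1.continuousWithinAt)
    (fun k B B' h1 h2 y hy => (h2 y hy).trans h1)
  obtain ⟨d, m, hd, hm'⟩ := params (Fintype.card t) G hG1
  let s : X → (Fin 3 → Fin (d + 1)) → X → ℂ := fun x a y =>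
    hm (3 * d) (fun i => a i) (M.den x y) fun i => M.num x (j i) y
  have hs : ∀ x a, ∀ y ∈ M.U x, S.AnAt (s x a) y := fun x a y hy e' he' hy' =>
    (((M.an x y hy).1 e' he' hy').pow _).mul
      (Finset.analyticAt_fun_prod _ fun i _ => ((M.an x y hy).2 (j i) e' he' hy').pow _)
  have hdiff : ∀ x a, DifferentiableOn ℂ (s x a ∘ (e x).symm) (ball 0 (ρ x / 2)) := by
    intro x a p hp
    have h1 := (hb x).symm_mem (hsub x (ball_subset_closedBall hp))
    have h2 := hs x a _ (hU x h1.1) _ (hb x).1 h1.1.1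
    rw [h1.2] at h2
    exact h2.differentiableAt.differentiableWithinAt
  choose A hA using fun x => h _ (fun a => s x a ∘ (e x).symm) (ρ x / 2) m (half_pos (hρ x))
    (hdiff x)
  obtain ⟨c, hc, hc0⟩ := kernel (κ := Fin 3 → Fin (d + 1)) (τ := t × (Fin m × Fin m))
    (by simpa using hd) fun a q => A q.1 a q.2
  let F : X → X → ℂ := fun x y => ∑ a, c a * s x a y
  have hF : ∀ x x', ∀ y ∈ M.U x, y ∈ M.U x' → F x y = M.g x x' y ^ (3 * d) * F x' y := by
    intro x x' y hy hy'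
    obtain ⟨-, h1, h2⟩ := M.trans x x' y hy hy'
    simp only [F, s, Finset.mul_sum, h1, h2]
    refine Finset.sum_congr rfl fun a _ => ?_
    rw [hm_mul (sum_le a)]
    ring
  obtain ⟨B, hB1, hB⟩ := bound_fin (fun (k : t) B => ∀ y ∈ K k, ‖F k y‖ ≤ B)
    (fun k => (hK k).exists_bound_of_continuousOn (continuousOn_finsetSum _ fun a _ =>
      continuousOn_const.mul fun y hy => (hs k a y (hKU _ hy)).continuousAt.continuousWithinAt))
    (fun k B B' h1 h2 y hy => (h2 y hy).trans h1)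
  have hit : ∀ n : ℕ, ∀ k : t, ∀ y ∈ K k, ‖F k y‖ ≤ B * (1 / 2) ^ n := by
    intro n
    induction n with
    | zero => simpa using hB
    | succ n ih =>
      intro k y hy
      obtain ⟨k', p, hp, rfl⟩ := hcov y
      have hy' := hmem _ p (h4 _ hp)
      have h1 : ‖F k' ((e k').symm p)‖ ≤ 8 * (B * (1 / 2) ^ n) / 2 ^ m :=
        hA k' c (fun q => hc (k', q)) _ (fun p' hp' => ih k' _ (hmem _ p' hp')) p hp
      rw [hF k k' _ (hKU _ hy) (hKU _ hy'), norm_mul, norm_pow]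
      calc _ ≤ G ^ (3 * d) * (8 * (B * (1 / 2) ^ n) / 2 ^ m) := by
            gcongr
            exact hG (k, k') _ ⟨hy, hy'⟩
        _ = G ^ (3 * d) * (8 / 2 ^ m) * (B * (1 / 2) ^ n) := by ring
        _ ≤ 1 / 2 * (B * (1 / 2) ^ n) := by gcongr
        _ = B * (1 / 2) ^ (n + 1) := by ring
  have hzero : ∀ k : t, ∀ y ∈ K k, F k y = 0 := by
    intro k y hy
    have h1 : Tendsto (fun n : ℕ => B * (1 / 2 : ℝ) ^ n) atTop (𝓝 (B * 0)) :=
      (tendsto_pow_atTop_nhds_zero_of_lt_one (by norm_num) (by norm_num)).const_mul B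
    rw [mul_zero] at h1
    exact norm_le_zero_iff.1 (ge_of_tendsto' h1 fun n => hit n k y hy)
  obtain ⟨P, hP, hPv⟩ := poly c hc0
  refine ⟨P, hP, fun y hy => ?_⟩
  obtain ⟨k, p, hp, hpy⟩ := hcov y
  have hyK : y ∈ K k := hpy ▸ hmem _ p (h4 _ hp)
  have hyU := hKU _ hyK
  have hden : M.den k y ≠ 0 := fun h0 => hy ((M.Z_iff _ y hyU).2 h0)
  have h1 := hzero k y hyK
  have h2 : F k y = M.den k y ^ (3 * d) * ∑ a, c a * ∏ i, M.f (j i) y ^ (a i : ℕ) := by
    simp only [F, s, Finset.mul_sum, M.f_eq k _ y hyU]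
    refine Finset.sum_congr rfl fun a _ => ?_
    rw [hm_div (sum_le a) hden]
    ring
  rw [Mf.ev, MvPolynomial.eval_rename, hPv]
  exact (mul_eq_zero.1 (h2.symm.trans h1)).resolve_left (pow_ne_zero _ hden)

end Pool.Agent.P.MP_7ede32_ag.Full
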