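import Pool.Agent.P.MP_7ede32_ag.Full.StC

/-!
Zeros of a holomorphic function and level sets of `χ` near a section.
-/

open Filter Topology Metric Set

noncomputable section

namespace Pool.Agent.P.MP_7ede32_ag.Full

open Geo
open Ell (E2 jac)

namespace TrapP

variable {X : Type} [MetricSpace X] {S : Sf0 X}

lemma sec_ev {O : Set ℂ} {q : ℂ → X} {w : ℂ} (hO : IsOpen O) (hq : S.SecOn 0 q O) (hw : w ∈ O) :
    ∀ᶠ w' in 𝓝 w, S.HolAt q w' ∧ S.π (q w') = S.Λ.mkQ w' := by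
  filter_upwards [hO.mem_nhds hw] with w' h
  exact ⟨(hq w' h).1, by simpa using (hq w' h).2⟩

lemma fst_eq {w w' u : ℂ} {y x : X} (hx : S.π x = S.Λ.mkQ w) (hy : S.π y = S.Λ.mkQ w')
    (h : S.π y = S.π x + S.Λ.mkQ u) (hu : ‖u‖ < S.ρ) (hw : ‖w' - w‖ < S.ρ) : u = w' - w := by
  refine Sf0.small_unique hu hw ?_
  rw [map_sub, ← hy, h, hx, add_sub_cancel_left]

lemma fderiv_fst (G : ℂ → ℂ) (p : E2) : fderiv ℂ (fun p : E2 => G p.1) p (0, 1) = 0 := by
  by_cases h : DifferentiableAt ℂ (fun p : E2 => G p.1) p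
  · have h1 := h.hasFDerivAt.comp_hasDerivAt_of_eq p.2
      ((hasDerivAt_const p.2 p.1).prodMk (hasDerivAt_id p.2)) rfl
    exact h1.unique (hasDerivAt_const p.2 (G p.1))
  · rw [fderiv_zero_of_not_differentiableAt h]
    rfl

lemma shift_tendsto (w : ℂ) : Tendsto (fun t : ℂ => w + t) (𝓝 0) (𝓝 w) := by
  have : ContinuousAt (fun t : ℂ => w + t) 0 := by fun_prop
  simpa [ContinuousAt] using this

end TrapP

open TrapP

theorem sTrap (h1 : SPch) (h2 : SDiv2) : STrap := by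
  intro X _ S O q w F hO hq hw hF hne N hN
  have hsec := sec_ev hO hq hw
  obtain ⟨e, ⟨heA, hes, hP⟩, he0, hqt⟩ := (h1 X S).2.2 q w hsec
  have hec : Tendsto e (𝓝 (q w)) (𝓝 0) := he0 ▸ e.continuousAt hes
  have hG : AnalyticAt ℂ (F ∘ e.symm) 0 := he0 ▸ hF e heA hes
  have hGne : ¬ ∀ᶠ p in 𝓝 (0 : E2), (F ∘ e.symm) p = 0 := fun h => hne (by
    filter_upwards [hec.eventually h, e.open_source.mem_nhds hes] with y a1 a2
    simpa [e.left_inv a2] using a1)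
  obtain ⟨k, F', hF', heq, hne'⟩ := h2 _ hG hGne
  have hρ : ∀ᶠ p in 𝓝 (0 : E2), ‖p.1‖ < S.ρ := by
    have : ContinuousAt (fun p : E2 => ‖p.1‖) 0 := by fun_prop
    exact this.eventually_lt continuousAt_const (by simpa using S.ρ_pos)
  have hPr : ∀ᶠ y in 𝓝 (q w), y ∈ N ∧ y ∈ e.source ∧ S.π y = S.π (q w) + S.Λ.mkQ (e y).1 ∧
      F y = (e y).2 ^ k * F' (e y) ∧ ‖(e y).1‖ < S.ρ ∧ ContinuousAt F' (e y) := by
    filter_upwards [hN, e.open_source.mem_nhds hes, hP, hec.eventually heq, hec.eventually hρ,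
      hec.eventually hF'.eventually_analyticAt] with y a1 a2 a3 a4 a5 a6
    refine ⟨a1, a2, by simpa [he0] using a3, ?_, a5, a6.continuousAt⟩
    simpa [e.left_inv a2] using a4
  have hqc : Tendsto (fun t : ℂ => q (w + t)) (𝓝 0) (𝓝 (q w)) :=
    hsec.self_of_nhds.1.1.tendsto.comp (shift_tendsto w)
  have ht : ∀ᶠ t in 𝓝 (0 : ℂ), e (q (w + t)) = (t, 0) ∧ w + t ∈ O ∧ ‖t‖ < S.ρ := by
    filter_upwards [hqt, (shift_tendsto w).eventually (hO.mem_nhds hw),
      ball_mem_nhds (0 : ℂ) S.ρ_pos] with t a1 a2 a3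
    exact ⟨a1, a2, by simpa using a3⟩
  obtain ⟨t₀, b1, b2, b3⟩ := (hne'.and (eventually_nhdsWithin_of_eventually_nhds
    ((hqc.eventually hPr.eventually_nhds).and ht.eventually_nhds))).exists
  have b4 := b2.self_of_nhds
  have b5 := b3.self_of_nhds
  have b6 : ∀ᶠ y in 𝓝 (q (w + t₀)), F' (e y) ≠ 0 :=
    (b4.2.2.2.2.2.comp (e.continuousAt b4.2.1)).eventually_ne (by simpa [b5.1] using b1)
  obtain ⟨ε, hε, b7⟩ := Metric.eventually_nhds_iff.1 (b2.and b6)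
  have b8 : ∀ᶠ w' in 𝓝 (w + t₀), dist (q w') (q (w + t₀)) < ε / 2 ∧
      e (q w') = (w' - w, 0) ∧ w' ∈ O ∧ ‖w' - w‖ < S.ρ := by
    have c1 : Tendsto (fun w' : ℂ => w' - w) (𝓝 (w + t₀)) (𝓝 t₀) := by
      have : ContinuousAt (fun w' : ℂ => w' - w) (w + t₀) := by fun_prop
      simpa [ContinuousAt] using this
    filter_upwards [Metric.tendsto_nhds.1 (hq _ b5.2.1).1.1 (ε / 2) (half_pos hε),
      c1.eventually b3] with w' a1 a2
    exact ⟨a1, by simpa using a2⟩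
  obtain ⟨r, hr, b9⟩ := Metric.eventually_nhds_iff_ball.1 b8
  refine ⟨w + t₀, r, ε / 2, hr, half_pos hε, fun w' hw' => (b9 w' hw').2.2.1,
    fun w' hw' y hy hd hT => ?_⟩
  obtain ⟨c1, c2, -, c4⟩ := b9 w' hw'
  obtain ⟨⟨d1, d2, d3, d4, d5, -⟩, d6⟩ := b7 (y := y) (by
    linarith [dist_triangle_left y (q (w + t₀)) (q w')])
  have d7 : (e y).2 = 0 := by
    have := hT d1
    rw [d4] at this
    exact pow_eq_zero_iff' .. |>.1 ((mul_eq_zero.1 this).resolve_right d6) |>.1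
  have d8 : (e y).1 = w' - w := fst_eq hsec.self_of_nhds.2 hy d3 d5 c4
  refine e.injOn d2 (b7 (y := q w') (by linarith)).1.2.1 ?_
  rw [c2, ← d8, ← d7]

theorem sTrap2 (h1 : SPch) (h2 : STrap) : STrap2 := by
  intro X _ S L M O q w χ hO hq hw hχ hG
  have hsec := sec_ev hO hq hw
  obtain ⟨e, hPc, he0, hqt⟩ := (h1 X S).2.2 q w hsec
  obtain ⟨heA, hes, hP⟩ := id hPc
  have hec : Tendsto e (𝓝 (q w)) (𝓝 0) := he0 ▸ e.continuousAt hes
  set g : ℂ → ℂ := fun t => M.ext χ (q (w + t)) with hg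
  have hga : AnalyticAt ℂ g 0 := by
    refine anAt_comp (F := M.ext χ) (h := fun t => q (w + t)) (by simpa using hG.anAt) ?_
    filter_upwards [(shift_tendsto w).eventually hsec] with t ht
    exact Sf0.HolAt.comp (f := q) (φ := fun t => w + t) ht.1 (by fun_prop)
  have hF : S.AnAt (fun y => M.ext χ y - g (e y).1) (q w) := fun e' he' hx' => by
    refine (hG.anAt e' he' hx').sub (AnalyticAt.comp_of_eq (g := g)
      (f := fun p => ((e ∘ e'.symm) p).1) hga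
      (analyticAt_fst.comp (S.trans e' he' e heA _ hx' hes)) ?_)
    simp [e'.left_inv hx', he0]
  have hne : ¬ ∀ᶠ y in 𝓝 (q w), M.ext χ y - g (e y).1 = 0 := fun h => by
    obtain ⟨G, hG'⟩ : ∃ G : ℂ → ℂ, ∀ᶠ y in 𝓝 (q w), y ∉ M.Z → M.f M.ix y = G (e y).1 := by
      rcases hχ with rfl | rfl
      · refine ⟨g, ?_⟩
        filter_upwards [h, hG.eq] with y a1 a2 a3
        rw [a2 a3, sub_eq_zero.1 a1]
      · refine ⟨fun t => (g t)⁻¹, ?_⟩
        filter_upwards [h, hG.eq] with y a1 a2 a3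
        rw [← sub_eq_zero.1 a1, ← a2 a3, inv_inv]
    obtain ⟨α, β, -, -, hreg⟩ := M.reg e _ hPc
    refine M.den_ne (q w) ?_
    filter_upwards [hreg, hG'.eventually_nhds, e.open_source.mem_nhds hes] with y a1 a2 a3
    by_contra a4
    refine (a1 a4).1 ?_
    have a5 : M.f M.ix =ᶠ[𝓝 y] fun y' => G (e y').1 := by
      filter_upwards [a2, M.isClosed_Z.isOpen_compl.mem_nhds a4] with y' c1 c2
      exact c1 c2
    have a6 : (fun y' => G (e y').1) ∘ e.symm =ᶠ[𝓝 (e y)] fun p => G p.1 := by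
      filter_upwards [e.open_target.mem_nhds (e.map_source a3)] with p hp
      simp [e.right_inv hp]
    rw [Sf0.D_congr a5 a3, D, a6.fderiv_eq, fderiv_fst]
  have hρ : ∀ᶠ p in 𝓝 (0 : E2), ‖p.1‖ < S.ρ := by
    have : ContinuousAt (fun p : E2 => ‖p.1‖) 0 := by fun_prop
    exact this.eventually_lt continuousAt_const (by simpa using S.ρ_pos)
  obtain ⟨w₀, r, η, hr, hη, hsub, H⟩ := h2 X S (O ∩ ball w S.ρ) q w _ (hO.inter isOpen_ball)
    (hq.mono inter_subset_left) ⟨hw, mem_ball_self S.ρ_pos⟩ hF hne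
    {y | S.π y = S.π (q w) + S.Λ.mkQ (e y).1 ∧ ‖(e y).1‖ < S.ρ} (by
      filter_upwards [hP, hec.eventually hρ] with y a1 a2
      exact ⟨by simpa [he0] using a1, a2⟩)
  refine ⟨w₀, r, η, hr, hη, hsub.trans inter_subset_left, fun w' hw' y hy hd hT =>
    H w' hw' y hy hd fun hyN => ?_⟩
  have d8 : (e y).1 = w' - w := fst_eq hsec.self_of_nhds.2 hy hyN.1 hyN.2
    (by simpa [dist_eq_norm] using (hsub hw').2)
  simp only [hg, d8, add_sub_cancel, hT, sub_self]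

end Pool.Agent.P.MP_7ede32_ag.Full
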