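import Pool.Agent.P.MP_7ede32_ag.Geo.All
import Pool.Agent.P.MP_7ede32_ag.Full.AllAB
import Pool.Agent.P.MP_7ede32_ag.Full.Brg
import Pool.Agent.P.MP_7ede32_ag.Full.Osg
import Pool.Agent.P.MP_7ede32_ag.Full.Schw
import Pool.Agent.P.MP_7ede32_ag.Full.AlgH
import Pool.Agent.P.MP_7ede32_ag.Full.Cop
import Pool.Agent.P.MP_7ede32_ag.Full.Pch
import Pool.Agent.P.MP_7ede32_ag.Full.SecW
import Pool.Agent.P.MP_7ede32_ag.Full.Rho
import Pool.Agent.P.MP_7ede32_ag.Full.MfB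
import Pool.Agent.P.MP_7ede32_ag.Full.Hom
import Pool.Agent.P.MP_7ede32_ag.Full.Indep
import Pool.Agent.P.MP_7ede32_ag.Full.Sieg
import Pool.Agent.P.MP_7ede32_ag.Full.Bad
import Pool.Agent.P.MP_7ede32_ag.Full.Hf2
import Pool.Agent.P.MP_7ede32_ag.Full.ParP
import Pool.Agent.P.MP_7ede32_ag.Full.Fib1
import Pool.Agent.P.MP_7ede32_ag.Full.FibP
import Pool.Agent.P.MP_7ede32_ag.Full.Hbg
import Pool.Agent.P.MP_7ede32_ag.Full.Shad2
import Pool.Agent.P.MP_7ede32_ag.Full.Gauss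
import Pool.Agent.P.MP_7ede32_ag.Full.FinX
import Pool.Agent.P.MP_7ede32_ag.Full.Core
import Pool.Agent.P.MP_7ede32_ag.Full.TrapP
import Pool.Agent.P.MP_7ede32_ag.Full.GoodT
import Pool.Agent.P.MP_7ede32_ag.Full.QStr
import Pool.Agent.P.MP_7ede32_ag.Full.Qld
import Pool.Agent.P.MP_7ede32_ag.Full.QId
import Pool.Agent.P.MP_7ede32_ag.Full.GoodJ
import Pool.Agent.P.MP_7ede32_ag.Full.Phi

/-!
Assembly.
-/

namespace Pool.Agent.P.MP_7ede32_ag.Full

open Pool.Agent.P.MP_7ede32_ag.Geo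

theorem aPch : SPch := sPch sinv

theorem aDiv2 : SDiv2 := sDiv2 sOsg

theorem aBad : SBad := sBad (sregLoc sbr_all)

theorem aNz : SNz := sNz sHom

theorem aMfB : SMfB := sMfB (sW aPch sSecId) sRho sSecId

theorem aHf : SHf := sHf aBad sHf1 (sHf2 aPch)

theorem aHbg : SHbg :=
  sHbg (sIndep aPch) (sSieg sSchw) sAlgH (sFib aBad aNz (sPar aPch) sFib1) aL2B aCert aHba aG4

theorem aCore : SCore :=
  sCore (sGauss (sGlue2 (spair smom_all sext)) aCap) (sShad2 (slim sequi)) sWv sPer sFinX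

theorem aTrap : STrap := sTrap aPch aDiv2

theorem aPhi : SPhi :=
  sPhi scfg_all aCore (sHalf2 (szero (spair smom_all sext) slat) sinj szsec) (sfin (slim sequi))
    sPer (sDegA sHom aNz) aTrap (sTrap2 aPch aTrap) sGoodT (sGoodJ sDiscs sQUni aJMain)
    (sQStr aPch aDiv2) (sQld aPch aDiv2 sOsg) sMerG (sQId sBase) sBase aHbg (sIndep aPch)

end Pool.Agent.P.MP_7ede32_ag.Full
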