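import Pool.Agent.P.MP_7ede32_ag.Full.StB
import Pool.Agent.P.MP_7ede32_ag.Geo.Stm

/-!
The geometric steps, as propositions.
-/

open Filter Topology Metric Set

noncomputable section

namespace Pool.Agent.P.MP_7ede32_ag.Full

open Geo
open Ell (E2 jac)

section defs

variable {X : Type} [MetricSpace X]

/-- a section of the `m`-th power of the canonical bundle -/
structure Sec (S : Sf0 X) (m : ℕ) where
  c : OpenPartialHomeomorph X E2 → E2 → ℂ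
  an : ∀ e ∈ S.A, ∀ x ∈ e.source, AnalyticAt ℂ (c e) (e x)
  compat : ∀ e ∈ S.A, ∀ e' ∈ S.A, ∀ x ∈ e.source, x ∈ e'.source →
    c e (e x) = c e' (e' x) * jac (fderiv ℂ (e' ∘ e.symm) (e x)) ^ m

/-- the section is not zero -/
def Sec.Nz {S : Sf0 X} {m : ℕ} (σ : Sec S m) : Prop :=
  ∃ e ∈ S.A, ∃ x ∈ e.source, σ.c e (e x) ≠ 0

/-- pluricanonical sections whose ratios separate points -/
structure GT (S : Sf0 X) where
  μ : ℕ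
  N : ℕ
  b : Sec S μ
  a : Fin N → Sec S μ
  μ_pos : 0 < μ
  b_ne : b.Nz
  inj : ∀ e ∈ S.A, ∀ e' ∈ S.A, ∀ x ∈ e.source, ∀ y ∈ e'.source, b.c e (e x) ≠ 0 →
    b.c e' (e' y) ≠ 0 →
    (∀ l, (a l).c e (e x) / b.c e (e x) = (a l).c e' (e' y) / b.c e' (e' y)) → x = y

/-- the fibration is nowhere locally constant -/
def Nc (S : Sf0 X) : Prop := ∀ x, ¬ ∀ᶠ y in 𝓝 x, S.π y = S.π x

/-- near `p` the first coordinate of the chart `e` lifts the fibration -/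
def PCh (S : Sf0 X) (e : OpenPartialHomeomorph X E2) (p : X) : Prop :=
  e ∈ S.A ∧ p ∈ e.source ∧ ∀ᶠ y in 𝓝 p, S.π y = S.π p + S.Λ.mkQ ((e y).1 - (e p).1)

/-- `T` is contained in an analytic curve -/
def Crv (S : Sf0 X) (T : Set X) : Prop :=
  ∀ x, ∃ F : X → ℂ, S.AnAt F x ∧ (¬ ∀ᶠ y in 𝓝 x, F y = 0) ∧ ∀ᶠ y in 𝓝 x, y ∈ T → F y = 0

/-- a finite family of meromorphic functions with a common denominator -/
structure Mf (S : Sf0 X) (L : PeriodPair) where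
  ι : Type
  [fin : Fintype ι]
  iu : ι
  ix : ι
  ia : ι
  μ : ℕ
  f : ι → X → ℂ
  Z : Set X
  U : X → Set X
  den : X → X → ℂ
  num : X → ι → X → ℂ
  g : X → X → X → ℂ
  μ_pos : 0 < μ
  U_open : ∀ x, IsOpen (U x)
  mem_U : ∀ x, x ∈ U x
  an : ∀ x, ∀ y ∈ U x, S.AnAt (den x) y ∧ ∀ i, S.AnAt (num x i) y
  trans : ∀ x x', ∀ y ∈ U x, y ∈ U x' → ContinuousAt (g x x') y ∧
    den x y = g x x' y * den x' y ∧ ∀ i, num x i y = g x x' y * num x' i y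
  Z_iff : ∀ x, ∀ y ∈ U x, y ∈ Z ↔ den x y = 0
  f_eq : ∀ x i, ∀ y ∈ U x, f i y = num x i y / den x y
  den_ne : ∀ x, ¬ ∀ᶠ y in 𝓝 x, y ∈ Z
  hu : ∀ y ∉ Z, ∀ w, S.π y = S.Λ.mkQ w → w ∉ L.lattice ∧ f iu y = L.weierstrassP w
  a_ne : ∀ y ∉ Z, f ia y ≠ 0
  reg : ∀ e p, PCh S e p → ∃ α β : X → ℂ, S.AnAt α p ∧ S.AnAt β p ∧ ∀ᶠ y in 𝓝 p, y ∉ Z →
    D (f ix) e y (0, 1) ≠ 0 ∧ f ia y * D (f ix) e y (0, 1) ^ μ = α y ∧
      f ix y * f ia y * D (f ix) e y (0, 1) ^ μ = β y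
  inj : ∀ y ∉ Z, ∀ y' ∉ Z, (∀ i, f i y = f i y') → y = y'

attribute [instance] Mf.fin

lemma anAt_congr {S : Sf0 X} {F G : X → ℂ} {y : X} (h : S.AnAt F y) (h' : F =ᶠ[𝓝 y] G) :
    S.AnAt G y := fun e he hy => (h e he hy).congr (Sf0.symm_eventually hy h')

lemma anAt_comp {S : Sf0 X} {F : X → ℂ} {h : ℂ → X} {z : ℂ} (hF : S.AnAt F (h z))
    (hh : ∀ᶠ w in 𝓝 z, S.HolAt h w) : AnalyticAt ℂ (F ∘ h) z := by
  rw [Complex.analyticAt_iff_eventually_differentiableAt]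
  filter_upwards [hh, hh.self_of_nhds.1.eventually hF.eventually] with w h1 h2
  exact h2.differentiableAt h1

lemma countable_of_isolated {s : Set ℂ} (h : ∀ w ∈ s, ∀ᶠ w' in 𝓝[≠] w, w' ∉ s) : s.Countable := by
  have : DiscreteTopology s := discreteTopology_subtype_iff.2 fun x hx => by
    rw [inf_principal_eq_bot]
    exact h x hx
  exact countable_coe_iff.1 (TopologicalSpace.separableSpace_iff_countable.1 inferInstance)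

namespace Mf

variable {S : Sf0 X} {L : PeriodPair} (M : Mf S L)

/-- a polynomial in the functions of the family -/
def ev (P : MvPolynomial M.ι ℂ) (y : X) : ℂ := MvPolynomial.eval (fun i => M.f i y) P

/-- the polynomial vanishes identically on the surface -/
def Van (P : MvPolynomial M.ι ℂ) : Prop := ∀ y ∉ M.Z, M.ev P y = 0

/-- the curve is not algebraically degenerate -/
def Gen (h : ℂ → X) : Prop :=
  (∃ z, h z ∉ M.Z) ∧ ∀ P, (∀ z, h z ∉ M.Z → M.ev P (h z) = 0) → M.Van P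

/-- `χ` extends holomorphically to a neighbourhood of `y` -/
def Gd (χ : X → ℂ) (y : X) : Prop :=
  ∃ F : X → ℂ, S.AnAt F y ∧ ∀ᶠ y' in 𝓝 y, y' ∉ M.Z → χ y' = F y'

/-- the extension -/
def ext (χ : X → ℂ) (y : X) : ℂ := limUnder (𝓝[M.Zᶜ] y) χ

/-- the function `x` or its inverse -/
def Chi (χ : X → ℂ) : Prop := χ = M.f M.ix ∨ χ = fun y => (M.f M.ix y)⁻¹

/-- the variation of `χ` on the fibre near `x` is controlled by the integral of the form -/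
def QB (χ : X → ℂ) (U : X → X → ℂ) (k : ℕ) (C η : ℝ) (x : X) : Prop :=
  ∀ y, S.π y = S.π x → dist x y ≤ η → M.Gd χ y ∧ ∀ t : ℝ, 0 < t → t ≤ 1 →
    ‖th U x y‖ ≤ t ^ k → ‖M.ext χ y - M.ext χ x‖ ≤ C * t

/-- the same, locally uniformly along `q` -/
def QL (χ : X → ℂ) (U : X → X → ℂ) (q : ℂ → X) (w : ℂ) : Prop :=
  ∃ (k : ℕ) (C η : ℝ), 0 < η ∧ ∀ᶠ w' in 𝓝 w, M.QB χ U k C η (q w')

/-- local parametrisations of the fibre over `s` -/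
structure Par (s : ℂ ⧸ S.Λ) where
  γ : X → ℂ → X
  zero : ∀ p, S.π p = s → γ p 0 = p
  hol : ∀ p, S.π p = s → ∀ᶠ t in 𝓝 0, S.HolAt (γ p) t ∧ S.π (γ p t) = s
  off : ∀ p, S.π p = s → ∀ᶠ t in 𝓝[≠] 0, γ p t ∉ M.Z
  inj : ∀ p, S.π p = s → ∃ N ∈ 𝓝 (0 : ℂ), InjOn (γ p) N
  tr : ∀ p, S.π p = s → ∀ N ∈ 𝓝 (0 : ℂ), ∀ᶠ y in 𝓝 p, S.π y = s → ∃ τ : ℂ → ℂ,
    AnalyticAt ℂ τ 0 ∧ τ 0 ∈ N ∧ deriv τ 0 ≠ 0 ∧ γ y =ᶠ[𝓝 0] γ p ∘ τ
  reg : ∀ p, S.π p = s → ∃ α β : ℂ → ℂ, AnalyticAt ℂ α 0 ∧ AnalyticAt ℂ β 0 ∧ ∀ᶠ t in 𝓝[≠] 0,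
    deriv (M.f M.ix ∘ γ p) t ≠ 0 ∧ M.f M.ia (γ p t) * deriv (M.f M.ix ∘ γ p) t ^ M.μ = α t ∧
      M.f M.ix (γ p t) * M.f M.ia (γ p t) * deriv (M.f M.ix ∘ γ p) t ^ M.μ = β t

lemma isClosed_Z : IsClosed M.Z := by
  refine isOpen_compl_iff.1 (isOpen_iff_mem_nhds.2 fun x hx => ?_)
  filter_upwards [(M.U_open x).mem_nhds (M.mem_U x),
    (M.an x x (M.mem_U x)).1.continuousAt.eventually_ne
      fun h => hx ((M.Z_iff x x (M.mem_U x)).2 h)] with y h1 h2 h3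
  exact h2 ((M.Z_iff x y h1).1 h3)

lemma crv_Z : Crv S M.Z := fun x => by
  refine ⟨M.den x, (M.an x x (M.mem_U x)).1, fun h => M.den_ne x ?_, ?_⟩
  · filter_upwards [h, (M.U_open x).mem_nhds (M.mem_U x)] with y h1 h2
    exact (M.Z_iff x y h2).2 h1
  · filter_upwards [(M.U_open x).mem_nhds (M.mem_U x)] with y h2
    exact (M.Z_iff x y h2).1

lemma anAt_f (i : M.ι) {y : X} (hy : y ∉ M.Z) : S.AnAt (M.f i) y := by
  refine anAt_congr (F := fun y' => M.num y i y' / M.den y y') (fun e he hx => ?_) ?_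
  · refine ((M.an y y (M.mem_U y)).2 i e he hx).div ((M.an y y (M.mem_U y)).1 e he hx) ?_
    simpa [e.left_inv hx] using fun h => hy ((M.Z_iff y y (M.mem_U y)).2 h)
  · filter_upwards [(M.U_open y).mem_nhds (M.mem_U y)] with y' h
    exact (M.f_eq y i y' h).symm

lemma mero (i : M.ι) {h : ℂ → X} {z : ℂ} (hh : ∀ᶠ w in 𝓝 z, S.HolAt h w) :
    MeromorphicAt (M.f i ∘ h) z := by
  have h1 := M.an (h z) (h z) (M.mem_U _)
  refine ((anAt_comp (h1.2 i) hh).meromorphicAt.div (anAt_comp h1.1 hh).meromorphicAt).congr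
    (eventually_nhdsWithin_of_eventually_nhds ?_)
  filter_upwards [hh.self_of_nhds.1.eventually ((M.U_open _).mem_nhds (M.mem_U (h z)))] with w hw
  exact (M.f_eq _ i _ hw).symm

lemma off_or {h : ℂ → X} {z : ℂ} (hh : ∀ᶠ w in 𝓝 z, S.HolAt h w) :
    (∀ᶠ w in 𝓝 z, h w ∈ M.Z) ∨ ∀ᶠ w in 𝓝[≠] z, h w ∉ M.Z := by
  have h1 := hh.self_of_nhds.1.eventually ((M.U_open _).mem_nhds (M.mem_U (h z)))
  refine (anAt_comp (M.an (h z) (h z) (M.mem_U _)).1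
    hh).eventually_eq_zero_or_eventually_ne_zero.imp (fun h2 => ?_) fun h2 => ?_
  · filter_upwards [h1, h2] with w a1 a2
    exact (M.Z_iff _ _ a1).2 a2
  · filter_upwards [eventually_nhdsWithin_of_eventually_nhds h1, h2] with w a1 a2 a3
    exact a2 ((M.Z_iff _ _ a1).1 a3)

/-- an entire curve that is not contained in `Z` meets it in a discrete set -/
lemma off {h : ℂ → X} (hh : S.Hol h) (h0 : ∃ z, h z ∉ M.Z) (z : ℂ) :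
    ∀ᶠ w in 𝓝[≠] z, h w ∉ M.Z := by
  refine (M.off_or (Eventually.of_forall hh)).resolve_left fun h1 => ?_
  obtain ⟨z₀, h0⟩ := h0
  have h2 : IsClopen {z | ∀ᶠ w in 𝓝 z, h w ∈ M.Z} := by
    refine ⟨isOpen_compl_iff.1 (isOpen_iff_mem_nhds.2 fun w hw => ?_),
      isOpen_setOfPred_eventually_nhds⟩
    have h3 := (M.off_or (Eventually.of_forall hh)).resolve_left hw
    filter_upwards [eventually_nhdsWithin_iff.1 h3] with v hv h4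
    by_cases h5 : v = w
    · exact hw (h5 ▸ h4)
    · exact hv h5 h4.self_of_nhds
  have h3 : z₀ ∈ {z | ∀ᶠ w in 𝓝 z, h w ∈ M.Z} := h2.eq_univ ⟨z, h1⟩ ▸ mem_univ z₀
  exact h0 h3.self_of_nhds

lemma neBot (y : X) : (𝓝[M.Zᶜ] y).NeBot := by
  refine mem_closure_iff_nhdsWithin_neBot.1 (mem_closure_iff_frequently.2 ?_)
  exact not_eventually.1 (M.den_ne y)

variable {M}

lemma ext_eq {χ F : X → ℂ} {y : X} (hF : S.AnAt F y)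
    (h : ∀ᶠ y' in 𝓝 y, y' ∉ M.Z → χ y' = F y') : M.ext χ =ᶠ[𝓝 y] F := by
  filter_upwards [hF.eventually, h.eventually_nhds] with y' h1 h2
  have := M.neBot y'
  have h3 : F =ᶠ[𝓝[M.Zᶜ] y'] χ :=
    eventually_nhdsWithin_iff.2 (h2.mono fun _ h3 h4 => (h3 h4).symm)
  exact ((h1.continuousAt.tendsto.mono_left nhdsWithin_le_nhds).congr' h3).limUnder_eq

lemma Gd.anAt {χ : X → ℂ} {y : X} (h : M.Gd χ y) : S.AnAt (M.ext χ) y :=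
  let ⟨_, h1, h2⟩ := h
  anAt_congr h1 (ext_eq h1 h2).symm

lemma Gd.eventually {χ : X → ℂ} {y : X} (h : M.Gd χ y) : ∀ᶠ y' in 𝓝 y, M.Gd χ y' :=
  let ⟨F, h1, h2⟩ := h
  (h1.eventually.and h2.eventually_nhds).mono fun _ h3 => ⟨F, h3⟩

lemma Gd.eq {χ : X → ℂ} {y : X} (h : M.Gd χ y) : ∀ᶠ y' in 𝓝 y, y' ∉ M.Z → χ y' = M.ext χ y' :=
  let ⟨_, h1, h2⟩ := h
  (h2.and (ext_eq h1 h2)).mono fun _ h3 h4 => (h3.1 h4).trans h3.2.symm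

lemma gd_of_anAt {χ : X → ℂ} {y : X} (h : S.AnAt χ y) : M.Gd χ y ∧ M.ext χ y = χ y :=
  ⟨⟨χ, h, Eventually.of_forall fun _ _ => rfl⟩,
    (ext_eq h (Eventually.of_forall fun _ _ => rfl)).self_of_nhds⟩

end Mf

variable {S : Sf0 X} {s₀ : ℂ ⧸ S.Λ}

/-- the periods of a section over the complement of the bad values -/
def per (C : S.Cfg s₀) (q : ℂ → X) : Submodule ℤ ℂ where
  carrier := {p | p ∈ S.Λ ∧ ∀ w ∉ C.Bt, q (w + p) = q w}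
  add_mem' {a b} ha hb := ⟨add_mem ha.1 hb.1, fun w hw => by
    rw [← add_assoc, hb.2 _ fun h => hw ((Sf0.Cfg.add_mem_Bt ha.1).1 h), ha.2 w hw]⟩
  zero_mem' := ⟨zero_mem _, fun w _ => by rw [add_zero]⟩
  smul_mem' n a ha := by
    refine ⟨S.Λ.smul_mem n ha.1, ?_⟩
    induction n using Int.induction_on with
    | zero => simp
    | succ n ih =>
      intro w hw
      rw [add_smul, one_smul, ← add_assoc,
        ha.2 _ fun h => hw ((Sf0.Cfg.add_mem_Bt (S.Λ.smul_mem _ ha.1)).1 h), ih w hw]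
    | pred n ih =>
      intro w hw
      rw [← ha.2 _ fun h => hw ((Sf0.Cfg.add_mem_Bt (S.Λ.smul_mem _ ha.1)).1 h), ← ih w hw,
        sub_smul, one_smul, add_assoc, sub_add_cancel]

lemma mem_interior_Cr {C : S.Cfg s₀} {δ : ℝ} (hδ : C.Sep δ) {w : ℂ}
    (h : ∀ c ∈ C.Bt, δ / 2 < dist w c) : w ∈ interior (C.Cr (δ / 2)) := by
  by_cases h1 : ∃ c ∈ C.Bt, dist w c < δ
  · obtain ⟨c, hc, h1⟩ := h1
    refine Sf0.Cfg.Cr_subset_interior (h c hc) fun c' hc' => ?_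
    rcases eq_or_ne c c' with rfl | h2
    · exact le_rfl
    · linarith [hδ.2.2 c hc c' hc' h2, dist_triangle_left c c' w, hδ.1]
  · push Not at h1
    exact Sf0.Cfg.Cr_subset_interior (half_lt_self hδ.1) h1

/-- `T` is a finite set of representatives of the class of sections -/
def Reps (C : S.Cfg s₀) (δ : ℝ) (T : Set (ℂ → X)) : Prop :=
  T.Finite ∧ (∀ p ∈ T, C.Cls δ p) ∧ ∀ p, C.Cls δ p → ∃ q ∈ T, EqOn p q C.Btᶜ

/-- `h` factors through an entire section -/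
def Fac (S : Sf0 X) (h : ℂ → X) (φ : ℂ → ℂ) : Prop :=
  ∃ f, S.Hol f ∧ (∀ z, S.π (f z) = S.Λ.mkQ z) ∧ h = f ∘ φ

/-- over some disc in `O`, the points near `q` with the property `T` lie on `q` -/
def Trap (S : Sf0 X) (O : Set ℂ) (q : ℂ → X) (T : ℂ → X → Prop) : Prop :=
  ∃ (w₀ : ℂ) (r η : ℝ), 0 < r ∧ 0 < η ∧ ball w₀ r ⊆ O ∧ ∀ w ∈ ball w₀ r, ∀ y,
    S.π y = S.Λ.mkQ w → dist (q w) y ≤ η → T w y → y = q w

/-- if `h` is very close to `q` on a Wiman-Valiron disc then it agrees with `q` -/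
def Good (C : S.Cfg s₀) (δ κ : ℝ) (U : X → X → ℂ) (h : ℂ → X) (φ : ℂ → ℂ) (q : ℂ → X) : Prop :=
  ∃ η > 0, ∃ C₁ r₁ : ℝ, ∀ z₁ l a E Ψ, WV φ z₁ l a E Ψ → r₁ ≤ ‖z₁‖ → r₁ ≤ l → C₁ * a ^ 3 ≤ E →
    (∀ w ∈ ball (φ z₁) (l / 200) ∩ interior (C.Cr (δ / 2)), dist (q w) (h (Ψ w)) ≤ η ∧
      ‖th U (q w) (h (Ψ w))‖ ≤ Real.exp (-(κ * l ^ 2 * E))) →
    ∃ w₀ ∈ ball (φ z₁) (l / 200), w₀ ∉ C.Bt ∧ ∃ᶠ w in 𝓝[≠] w₀, h (Ψ w) = q w

/-- `φ` is an entire lift of the projection of the entire curve `h` -/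
def Lf (S : Sf0 X) (h : ℂ → X) (φ : ℂ → ℂ) : Prop :=
  S.Hol h ∧ Differentiable ℂ φ ∧ ∀ z, S.π (h z) = S.Λ.mkQ (φ z)

end defs

/-- Holomorphic functions of two variables are analytic. -/
def SOsg : Prop :=
  ∀ (F : E2 → ℂ) (p : E2), (∀ᶠ y in 𝓝 p, DifferentiableAt ℂ F y) → AnalyticAt ℂ F p

/-- Division by the largest power of the second variable. -/
def SDiv2 : Prop :=
  ∀ F : E2 → ℂ, AnalyticAt ℂ F 0 → (¬ ∀ᶠ p in 𝓝 0, F p = 0) → ∃ (k : ℕ) (F' : E2 → ℂ),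
    AnalyticAt ℂ F' 0 ∧ (∀ᶠ p in 𝓝 (0 : E2), F p = p.2 ^ k * F' p) ∧
      ∀ᶠ t in 𝓝[≠] (0 : ℂ), F' (t, 0) ≠ 0

/-- Schwarz lemma with a quadratic number of linear conditions. -/
def SSchw : Prop :=
  ∀ (κ : Type) [Fintype κ] (s : κ → E2 → ℂ) (r : ℝ) (m : ℕ), 0 < r →
    (∀ k, DifferentiableOn ℂ (s k) (ball 0 r)) → ∃ A : κ → Fin m × Fin m → ℂ, ∀ c : κ → ℂ,
      (∀ j, ∑ k, c k * A k j = 0) → ∀ B : ℝ, (∀ p ∈ ball (0 : E2) r, ‖∑ k, c k * s k p‖ ≤ B) →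
      ∀ p ∈ ball (0 : E2) (r / 4), ‖∑ k, c k * s k p‖ ≤ 8 * B / 2 ^ m

/-- Algebraic dependence over a countable field of constants. -/
def SAlgH : Prop :=
  ∀ (ι M : Type) [Fintype ι] [Field M] [CharZero M] (c : ℂ →+* M) (ζ : ι → M) (u x : M)
    (s : Finset ℂ), (∀ P : MvPolynomial (Fin 2) ℂ, P.eval₂ c ![u, x] = 0 → P = 0) →
    (∀ i, ∃ P : MvPolynomial (Fin 3) ℂ, P ≠ 0 ∧ P.eval₂ c ![u, x, ζ i] = 0) →
    ∃ k₀ : Subfield ℂ, Countable k₀ ∧ (s : Set ℂ) ⊆ k₀ ∧ x ∉ acl (insert u (range c)) ∧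
      ∀ i, ζ i ∈ acl (insert x (insert u (c '' k₀)))

/-- A base point that avoids countable sets. -/
def SBase : Prop :=
  ∀ φ : ℂ → ℂ, Differentiable ℂ φ → (∃ z, φ z ≠ φ 0) →
    (∀ N : Set ℂ, N.Countable → (φ ⁻¹' N).Countable) ∧
    ∀ (N : Set ℂ) (w : ℂ) (r : ℝ), N.Countable → 0 < r → ∃ z ∉ N, φ z ∈ ball w r

/-- Product charts and charts adapted to a section. -/
def SPch : Prop :=
  ∀ (X : Type) [MetricSpace X] (S : Sf0 X),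
    (∀ p, ¬ S.Crit p → ∃ e, PCh S e p ∧ e p = 0) ∧
    (Nc S → ∀ x, ∃ᶠ y in 𝓝 x, ¬ S.Crit y) ∧
    ∀ (q : ℂ → X) (w : ℂ), (∀ᶠ w' in 𝓝 w, S.HolAt q w' ∧ S.π (q w') = S.Λ.mkQ w') →
      ∃ e, PCh S e (q w) ∧ e (q w) = 0 ∧ ∀ᶠ t in 𝓝 (0 : ℂ), e (q (w + t)) = (t, 0)

/-- Identity theorem for sections. -/
def SSecId : Prop :=
  ∀ (X : Type) [MetricSpace X] [PreconnectedSpace X] (S : Sf0 X) (m : ℕ) (σ : Sec S m), σ.Nz →
    ∀ e ∈ S.A, ∀ x ∈ e.source, ¬ ∀ᶠ y in 𝓝 x, σ.c e (e y) = 0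

/-- One of the ratios is not constant on the fibres. -/
def SW : Prop :=
  ∀ (X : Type) [MetricSpace X] [PreconnectedSpace X] (S : Sf0 X) (G : GT S), Nc S →
    ∃ (l : Fin G.N) (W : Sec S (2 * G.μ + 1)), W.Nz ∧ ∀ e ∈ S.A, ∀ x ∈ e.source,
      W.c e (e x) = wedge (S.dπ e x) (G.b.c e (e x) • fderiv ℂ ((G.a l).c e) (e x) -
        (G.a l).c e (e x) • fderiv ℂ (G.b.c e) (e x))

/-- The Weierstrass function of the projection as a local quotient. -/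
def SRho : Prop :=
  ∀ (X : Type) [MetricSpace X] (S : Sf0 X) (L : PeriodPair), S.Λ = L.lattice →
    ∃ (V : X → Set X) (ρ σ : X → X → ℂ) (t : X → X → X → ℂ), (∀ x, IsOpen (V x) ∧ x ∈ V x) ∧
      (∀ x, ∀ y ∈ V x, S.AnAt (ρ x) y ∧ S.AnAt (σ x) y ∧ (ρ x y = 0 ↔ S.π y = 0) ∧
        ∀ w, S.π y = S.Λ.mkQ w → S.π y ≠ 0 → σ x y = ρ x y * L.weierstrassP w) ∧
      ∀ x x', ∀ y ∈ V x, y ∈ V x' → ContinuousAt (t x x') y ∧ t x x' y ≠ 0 ∧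
        ρ x y = t x x' y * ρ x' y ∧ σ x y = t x x' y * σ x' y

/-- The family of meromorphic functions exists. -/
def SMfB : Prop :=
  ∀ (X : Type) [MetricSpace X] [PreconnectedSpace X] (S : Sf0 X) (L : PeriodPair),
    S.Λ = L.lattice → Nc S → GT S → Nonempty (Mf S L)

/-- Clearing denominators. -/
def SHom : Prop :=
  ∀ (X : Type) [MetricSpace X] (S : Sf0 X) (L : PeriodPair) (M : Mf S L)
    (P : MvPolynomial M.ι ℂ), ∃ (d : ℕ) (F : X → X → ℂ), ∀ x, ∀ y ∈ M.U x,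
      S.AnAt (F x) y ∧ F x y = M.den x y ^ (d + 1) * M.ev P y

/-- Identity theorem for polynomials in the family. -/
def SNz : Prop :=
  ∀ (X : Type) [MetricSpace X] [PreconnectedSpace X] (S : Sf0 X) (L : PeriodPair) (M : Mf S L)
    (P : MvPolynomial M.ι ℂ), ¬ M.Van P → ∀ x, ∃ᶠ y in 𝓝 x, y ∉ M.Z ∧ M.ev P y ≠ 0

/-- A degenerate curve lies in an analytic curve. -/
def SDegA : Prop :=
  ∀ (X : Type) [MetricSpace X] [PreconnectedSpace X] (S : Sf0 X) (L : PeriodPair) (M : Mf S L)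
    (h : ℂ → X), ¬ M.Gen h → Crv S (range h)

/-- The functions `u` and `x` are algebraically independent. -/
def SIndep : Prop :=
  ∀ (X : Type) [MetricSpace X] [Nonempty X] (S : Sf0 X) (L : PeriodPair) (M : Mf S L), Nc S →
    ∀ P : MvPolynomial (Fin 2) ℂ, M.Van (MvPolynomial.rename ![M.iu, M.ix] P) → P = 0

/-- Three functions are algebraically dependent. -/
def SSieg : Prop :=
  ∀ (X : Type) [MetricSpace X] [CompactSpace X] (S : Sf0 X) (L : PeriodPair) (M : Mf S L)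
    (j : Fin 3 → M.ι), ∃ P : MvPolynomial (Fin 3) ℂ, P ≠ 0 ∧ M.Van (MvPolynomial.rename j P)

/-- Outside finitely many fibres there are no critical points and a curve is transverse. -/
def SBad : Prop :=
  ∀ (X : Type) [MetricSpace X] [CompactSpace X] (S : Sf0 X) (T : Set X), Nc S → Crv S T →
    ∃ B : Set (ℂ ⧸ S.Λ), B.Finite ∧ ∀ p, S.π p ∉ B → ¬ S.Crit p ∧
      ∀ᶠ y in 𝓝[≠] p, S.π y = S.π p → y ∉ T

/-- Brody's lemma in a fibre. -/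
def SHf1 : Prop :=
  ∀ (X : Type) [MetricSpace X] [CompactSpace X] (S : Sf0 X) (s : ℂ ⧸ S.Λ) (h : ℂ → X), S.Hol h →
    (∀ z, S.π (h z) = s) → (¬ ∀ z, h z = h 0) → ∃ g, S.Hol g ∧ UniformContinuous g ∧
      (∀ z, S.π (g z) = s) ∧ ¬ ∀ z, g z = g 0

/-- Liouville's theorem in a smooth fibre. -/
def SHf2 : Prop :=
  ∀ (X : Type) [MetricSpace X] [CompactSpace X] (S : Sf0 X) (L : PeriodPair) (M : Mf S L)
    (s : ℂ ⧸ S.Λ) (h : ℂ → X), (∀ p, S.π p = s → ¬ S.Crit p) → S.Hol h → UniformContinuous h →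
    (∀ z, S.π (h z) = s) → (∀ z, h z = h 0) ∨ ∀ z, h z ∈ M.Z

/-- Only finitely many fibres contain entire curves. -/
def SHf : Prop :=
  ∀ (X : Type) [MetricSpace X] [CompactSpace X] (S : Sf0 X) (L : PeriodPair), Mf S L → Nc S →
    {s | ∃ h, S.Hol h ∧ (∀ z, S.π (h z) = s) ∧ ¬ ∀ z, h z = h 0}.Finite

/-- Lifting the projection of an entire curve. -/
def SLift : Prop :=
  ∀ (X : Type) [MetricSpace X] (S : Sf0 X) (h : ℂ → X), S.Hol h → ∃ φ, Lf S h φ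

/-- Parametrisations of a good fibre. -/
def SPar : Prop :=
  ∀ (X : Type) [MetricSpace X] (S : Sf0 X) (L : PeriodPair) (M : Mf S L) (s : ℂ ⧸ S.Λ),
    (∀ p, S.π p = s → ¬ S.Crit p ∧ ∀ᶠ y in 𝓝[≠] p, S.π y = S.π p → y ∉ M.Z) →
    Nonempty (M.Par s)

/-- Expansions along a good fibre. -/
def SFib1 : Prop :=
  ∀ (X : Type) [MetricSpace X] [CompactSpace X] (S : Sf0 X) (L : PeriodPair) (M : Mf S L)
    (p₀ : X) (Γ : M.Par (S.π p₀)), ∃ Φ : Fib M.iu M.ix M.ia M.μ,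
      ∀ i, (Φ.ξ Φ.p₀ i).rep =ᶠ[𝓝[≠] 0] M.f i ∘ Γ.γ p₀

/-- Expansions along a generic fibre. -/
def SFib : Prop :=
  ∀ (X : Type) [MetricSpace X] [CompactSpace X] [ConnectedSpace X] (S : Sf0 X) (L : PeriodPair)
    (M : Mf S L) (Q : Set (MvPolynomial M.ι ℂ)), Nc S → Q.Countable →
    ∃ Φ : Fib M.iu M.ix M.ia M.μ, ∀ P ∈ Q, P.eval₂ MG.const (Φ.ξ Φ.p₀) = 0 ↔ M.Van P

/-- The height bound for a generic entire curve. -/
def SHbg : Prop :=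
  ∀ (X : Type) [MetricSpace X] [CompactSpace X] [ConnectedSpace X] (S : Sf0 X) (L : PeriodPair)
    (M : Mf S L) (h : ℂ → X) (φ : ℂ → ℂ), Nc S → Lf S h φ → M.Gen h → h 0 ∉ M.Z →
    HB (M.f M.ix ∘ h) φ

/-- Uniqueness on half-planes, with small discs. -/
def SHalf2 : Prop :=
  ∀ (X : Type) [MetricSpace X] [CompactSpace X] (S : Sf0 X) (s₀ : ℂ ⧸ S.Λ), S.Hyp s₀ →
    ∀ (C : S.Cfg s₀), ∀ δ₁ > 0, ∃ δ η, δ ≤ δ₁ ∧ C.Sep δ ∧ 0 < η ∧ HalfP C δ η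

/-- The members of the class are periodic. -/
def SPer : Prop :=
  ∀ (X : Type) [MetricSpace X] (S : Sf0 X) (s₀ : ℂ ⧸ S.Λ) (C : S.Cfg s₀) (δ : ℝ) (q : ℂ → X),
    FinP C δ → C.Cls δ q → ∃ R₀, Net (per C q) R₀

/-- Uniform shadowing. -/
def SShad2 : Prop :=
  ∀ (X : Type) [MetricSpace X] [CompactSpace X] (S : Sf0 X) (s₀ : ℂ ⧸ S.Λ) (C : S.Cfg s₀)
    (δ : ℝ) (T : Set (ℂ → X)), C.Sep δ → Reps C δ T → ∀ ε > 0, ∃ R : ℝ,
      ∀ (g : ℂ → X) (O Ω : Set ℂ), S.SecOn 0 g O → IsConnected Ω → (∀ w ∈ Ω, ball w R ⊆ O) →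
        ∃ q ∈ T, ∀ w ∈ Ω ∩ C.Cr (δ / 2), dist (q w) (g w) ≤ ε

/-- The integral between two close sections extends over the bad values. -/
def SGlue2 : Prop :=
  ∀ (X : Type) [MetricSpace X] [CompactSpace X] (S : Sf0 X) (s₀ : ℂ ⧸ S.Λ), S.Hyp s₀ →
    ∀ C : S.Cfg s₀, ∃ δ₀ > 0, ∀ δ ∈ Ioc 0 δ₀, C.Sep δ → ∀ (l η : ℝ) (U : X → X → ℂ),
      S.ThOk (C.Kc (δ / 2)) l U η → ∃ η' > 0, ∀ (q g : ℂ → X) (O O' : Set ℂ), IsOpen O' →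
        (∀ w ∈ O', ball w (4 * δ) ⊆ O) → C.Cls δ q → S.SecOn 0 g O →
        (∀ w ∈ O ∩ C.Cr (δ / 2), dist (q w) (g w) ≤ η') → ∃ Θ : ℂ → ℂ,
          DifferentiableOn ℂ Θ O' ∧ (∀ w ∈ O', ‖Θ w‖ ≤ 2) ∧
          (∀ w ∈ O', S.Λ.mkQ w = s₀ → Θ w = 0) ∧
          ∀ w ∈ O' ∩ interior (C.Cr (δ / 2)), Θ w = th U (q w) (g w)

/-- The integral between two close sections is very small. -/
def SGauss : Prop :=
  ∀ (X : Type) [MetricSpace X] [CompactSpace X] (S : Sf0 X) (s₀ : ℂ ⧸ S.Λ), S.Hyp s₀ →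
    ∀ C : S.Cfg s₀, ∃ δ₀ > 0, ∀ δ ∈ Ioc 0 δ₀, C.Sep δ → ∀ (l η : ℝ) (U : X → X → ℂ),
      S.ThOk (C.Kc (δ / 2)) l U η → ∃ η' > 0, ∃ κ > 0, ∃ r₀ : ℝ,
        ∀ (q g : ℂ → X) (u c : ℂ) (lam E : ℝ), ‖u‖ = 1 → r₀ ≤ lam → r₀ ≤ E → C.Cls δ q →
          S.SecOn 0 g (Cap u c (3 * lam / 10) (9 * lam * E / 10)) →
          (∀ w ∈ Cap u c (3 * lam / 10) (9 * lam * E / 10) ∩ C.Cr (δ / 2),
            dist (q w) (g w) ≤ η') →
          ∀ w ∈ ball (c + u * lam) (lam / 200) ∩ interior (C.Cr (δ / 2)),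
            ‖th U (q w) (g w)‖ ≤ Real.exp (-(κ * lam ^ 2 * E))

/-- Extension of a periodic section. -/
def SFinX : Prop :=
  ∀ (X : Type) [MetricSpace X] (S : Sf0 X) (s₀ : ℂ ⧸ S.Λ) (C : S.Cfg s₀) (q h : ℂ → X)
    (φ Ψ : ℂ → ℂ) (R₀ ρ : ℝ) (w₁ w₀ : ℂ), S.SecOn 0 q C.Btᶜ → Net (per C q) R₀ → R₀ < ρ →
    Lf S h φ → (∀ w ∈ ball w₁ ρ, DifferentiableAt ℂ Ψ w ∧ φ (Ψ w) = w) → w₀ ∈ ball w₁ ρ →
    w₀ ∉ C.Bt → (∃ᶠ w in 𝓝[≠] w₀, h (Ψ w) = q w) → Fac S h φ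

/-- Factorisation, if all representatives are good. -/
def SCore : Prop :=
  ∀ (X : Type) [MetricSpace X] [CompactSpace X] (S : Sf0 X) (s₀ : ℂ ⧸ S.Λ), S.Hyp s₀ →
    ∀ C : S.Cfg s₀, ∃ δ₀ > 0, ∀ δ ∈ Ioc 0 δ₀, C.Sep δ → ∀ (l η : ℝ) (U : X → X → ℂ),
      S.ThOk (C.Kc (δ / 2)) l U η → ∀ T, Reps C δ T → ∃ κ > 0, ∀ h φ, Lf S h φ →
        (∃ z, φ z ≠ φ 0) → (∀ q ∈ T, Good C δ κ U h φ q) → Fac S h φ

/-- The zeros of a function near a section. -/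
def STrap : Prop :=
  ∀ (X : Type) [MetricSpace X] (S : Sf0 X) (O : Set ℂ) (q : ℂ → X) (w : ℂ) (F : X → ℂ),
    IsOpen O → S.SecOn 0 q O → w ∈ O → S.AnAt F (q w) → (¬ ∀ᶠ y in 𝓝 (q w), F y = 0) →
    ∀ N ∈ 𝓝 (q w), Trap S O q fun _ y => y ∈ N → F y = 0

/-- The level sets of `χ` near a section. -/
def STrap2 : Prop :=
  ∀ (X : Type) [MetricSpace X] (S : Sf0 X) (L : PeriodPair) (M : Mf S L) (O : Set ℂ)
    (q : ℂ → X) (w : ℂ) (χ : X → ℂ), IsOpen O → S.SecOn 0 q O → w ∈ O → M.Chi χ →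
    M.Gd χ (q w) → Trap S O q fun w y => M.ext χ y = M.ext χ (q w)

/-- A trap makes a section good. -/
def SGoodT : Prop :=
  ∀ (X : Type) [MetricSpace X] (S : Sf0 X) (s₀ : ℂ ⧸ S.Λ) (C : S.Cfg s₀) (δ κ R₀ : ℝ)
    (U : X → X → ℂ) (h q : ℂ → X) (φ : ℂ → ℂ) (T : ℂ → X → Prop), 0 < δ → Lf S h φ →
    Net (per C q) R₀ → Trap S (interior (C.Cr (δ / 2))) q T →
    (∀ p ∈ per C q, ∀ w ∉ C.Bt, ∀ y, T (w + p) y → T w y) →
    {z | ¬ T (φ z) (h z)}.Countable → Good C δ κ U h φ q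

/-- Along a section, `x` or its inverse is holomorphic off a discrete set. -/
def SQStr : Prop :=
  ∀ (X : Type) [MetricSpace X] (S : Sf0 X) (L : PeriodPair) (M : Mf S L) (O : Set ℂ)
    (q : ℂ → X), IsOpen O → IsPreconnected O → S.SecOn 0 q O →
    ∃ χ, M.Chi χ ∧ ∀ w ∈ O, ∀ᶠ w' in 𝓝[≠] w, M.Gd χ (q w')

/-- The local estimate holds off a discrete set. -/
def SQld : Prop :=
  ∀ (X : Type) [MetricSpace X] (S : Sf0 X) (L : PeriodPair) (M : Mf S L) (K : Set X) (l η : ℝ)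
    (U : X → X → ℂ) (O : Set ℂ) (q : ℂ → X) (χ : X → ℂ),
    (∀ e ∈ S.A, ∀ x ∈ e.source, ¬ ∀ᶠ p in 𝓝 (e x), S.ω e p = 0) → S.ThOk K l U η → IsOpen O →
    S.SecOn 0 q O → (∀ w ∈ O, q w ∈ K) → ∀ w ∈ O, (∀ᶠ w' in 𝓝[≠] w, M.Gd χ (q w')) →
    ∀ᶠ w' in 𝓝[≠] w, M.QL χ U q w'

/-- Uniformity on a periodic closed set. -/
def SQUni : Prop :=
  ∀ (X : Type) [MetricSpace X] (S : Sf0 X) (L : PeriodPair) (M : Mf S L) (U : X → X → ℂ)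
    (q : ℂ → X) (χ : X → ℂ) (Λ : Submodule ℤ ℂ) (R₀ : ℝ) (K : Set ℂ), Net Λ R₀ → IsClosed K →
    (∀ p ∈ Λ, ∀ w ∈ K, w + p ∈ K ∧ q (w + p) = q w) →
    (∀ w ∈ K, ContinuousAt q w ∧ M.QL χ U q w) → ∃ (k : ℕ) (C η B : ℝ), 0 < k ∧ 0 < C ∧ 0 < η ∧
      ∀ w ∈ K, ‖M.ext χ (q w)‖ ≤ B ∧ M.QB χ U k C η (q w)

/-- The extension of `χ` along an entire curve. -/
def SMerG : Prop :=
  ∀ (X : Type) [MetricSpace X] (S : Sf0 X) (L : PeriodPair) (M : Mf S L) (h : ℂ → X)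
    (χ : X → ℂ), S.Hol h → (∃ z, h z ∉ M.Z ∧ M.f M.ix (h z) ≠ 0) → M.Chi χ →
    (∀ z, ∀ᶠ w in 𝓝[≠] z, h w ∉ M.Z ∧ M.Gd χ (h w)) ∧ Meromorphic (M.ext χ ∘ h) ∧
      ∀ φ, HB (M.f M.ix ∘ h) φ → HB (M.ext χ ∘ h) φ

/-- Identity theorem for the values of `χ` on the curve and on the section. -/
def SQId : Prop :=
  ∀ (X : Type) [MetricSpace X] (S : Sf0 X) (s₀ : ℂ ⧸ S.Λ) (C : S.Cfg s₀) (L : PeriodPair)
    (M : Mf S L) (h q : ℂ → X) (φ : ℂ → ℂ) (χ : X → ℂ), Lf S h φ → (∃ z, φ z ≠ φ 0) →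
    S.SecOn 0 q C.Btᶜ → (∀ z, ∀ᶠ w in 𝓝[≠] z, M.Gd χ (h w)) →
    (∀ w ∉ C.Bt, ∀ᶠ w' in 𝓝[≠] w, M.Gd χ (q w')) →
    {z | M.ext χ (h z) ≠ M.ext χ (q (φ z))}.Countable ∨
      {z | M.ext χ (h z) = M.ext χ (q (φ z))}.Countable

/-- The height bound makes a section good. -/
def SGoodJ : Prop :=
  ∀ (X : Type) [MetricSpace X] (S : Sf0 X) (s₀ : ℂ ⧸ S.Λ) (C : S.Cfg s₀) (L : PeriodPair)
    (M : Mf S L) (δ κ R₀ : ℝ) (U : X → X → ℂ) (h q : ℂ → X) (φ : ℂ → ℂ) (χ : X → ℂ),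
    C.Sep δ → 0 < κ → Lf S h φ → S.SecOn 0 q C.Btᶜ → Net (per C q) R₀ →
    (∀ w ∈ interior (C.Cr (δ / 2)), ∀ᶠ w' in 𝓝[≠] w, M.QL χ U q w') →
    Meromorphic (M.ext χ ∘ h) → HB (M.ext χ ∘ h) φ → M.Gd χ (h 0) → φ 0 ∈ C.Cr δ →
    M.QL χ U q (φ 0) → M.ext χ (h 0) ≠ M.ext χ (q (φ 0)) → Good C δ κ U h φ q

/-- Factorisation of all entire curves that are not vertical. -/
def SPhi : Prop :=
  ∀ (X : Type) [MetricSpace X] [CompactSpace X] [ConnectedSpace X] (S : Sf0 X) (s₀ : ℂ ⧸ S.Λ)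
    (L : PeriodPair), S.Hyp s₀ → Mf S L → ∀ h φ, Lf S h φ → (∃ z, φ z ≠ φ 0) → Fac S h φ

end Pool.Agent.P.MP_7ede32_ag.Full
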