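import Pool.Agent.P.MP_7ede32_ag.Full.StB

/-!
Separated sets of points in the plane.
-/

open Filter Topology Metric Set

noncomputable section

namespace Pool.Agent.P.MP_7ede32_ag.Full

theorem sGrid : SGrid := by
  intro P R hP z k
  classical
  choose c hc hd using hP
  have hR : 0 ≤ R := dist_nonneg.trans (hd 0)
  obtain ⟨w, hw⟩ : ∃ w : Fin k × Fin k → ℂ, ∀ x, w x =
      z + (3 * (R + 1) : ℝ) * (((x.1 : ℕ) : ℂ) + (x.2 : ℕ) * Complex.I) := ⟨_, fun _ => rfl⟩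
  have key : ∀ i j : ℕ, |3 * (R + 1) * ((i : ℝ) - j)| ≤ 3 * R → i = j := by
    intro i j h
    by_contra hne
    have h1 : (1 : ℝ) ≤ |(i : ℝ) - j| := by
      have h2 : (1 : ℤ) ≤ |(i : ℤ) - j| := Int.one_le_abs (sub_ne_zero.2 (by exact_mod_cast hne))
      exact_mod_cast h2
    rw [abs_mul, abs_of_pos (by positivity)] at h
    nlinarith
  have hsep : ∀ x y, dist (c (w x)) (c (w y)) ≤ R → x = y := by
    intro x y hxy
    have h1 : dist (w x) (w y) ≤ 3 * R := by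
      have h2 := dist_triangle4 (w x) (c (w x)) (c (w y)) (w y)
      have h3 := hd (w x)
      have h4 := hd (w y)
      rw [dist_comm] at h4
      linarith
    rw [dist_eq_norm] at h1
    have h2 := (Complex.abs_re_le_norm _).trans h1
    have h3 := (Complex.abs_im_le_norm _).trans h1
    refine Prod.ext (Fin.ext (key _ _ ?_)) (Fin.ext (key _ _ ?_))
    · have h4 : (w x - w y).re = 3 * (R + 1) * (((x.1 : ℕ) : ℝ) - (y.1 : ℕ)) := by
        rw [hw, hw]; simp; ring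
      rwa [h4] at h2
    · have h4 : (w x - w y).im = 3 * (R + 1) * (((x.2 : ℕ) : ℝ) - (y.2 : ℕ)) := by
        rw [hw, hw]; simp; ring
      rwa [h4] at h3
  have hinj : Function.Injective fun x => c (w x) := fun x y hxy =>
    hsep x y (by rw [show c (w x) = c (w y) from hxy, dist_self]; exact hR)
  refine ⟨Finset.univ.image fun x => c (w x), ?_, ?_, ?_⟩
  · rw [Finset.card_image_of_injective _ hinj]
    simp [sq]
  · intro p hp
    obtain ⟨x, -, rfl⟩ := Finset.mem_image.1 hp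
    refine ⟨hc _, ?_⟩
    have h1 : dist (w x) z ≤ 3 * (R + 1) * (2 * k) := by
      rw [dist_eq_norm, hw, add_sub_cancel_left, norm_mul, Complex.norm_real,
        Real.norm_of_nonneg (by positivity)]
      gcongr
      refine (norm_add_le _ _).trans ?_
      have h2 : ((x.1 : ℕ) : ℝ) ≤ k := by exact_mod_cast x.1.2.le
      have h3 : ((x.2 : ℕ) : ℝ) ≤ k := by exact_mod_cast x.2.2.le
      simp only [norm_mul, Complex.norm_natCast, Complex.norm_I, mul_one]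
      linarith
    have h2 := dist_triangle_left (c (w x)) z (w x)
    have h3 := hd (w x)
    have h4 : (0 : ℝ) ≤ k := Nat.cast_nonneg k
    nlinarith [mul_nonneg hR h4]
  · intro p hp p' hp' hne
    obtain ⟨x, -, rfl⟩ := Finset.mem_image.1 hp
    obtain ⟨y, -, rfl⟩ := Finset.mem_image.1 hp'
    exact le_of_not_ge fun h => hne (by rw [hsep x y h])

namespace Cnt

/-- the cell of a point -/
def cell (θ : ℝ) (w c : ℂ) : ℤ × ℤ := (⌊2 * (c - w).re / θ⌋, ⌊2 * (c - w).im / θ⌋)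

lemma near {θ a b : ℝ} (hθ : 0 < θ) (h : ⌊2 * a / θ⌋ = ⌊2 * b / θ⌋) : |a - b| < θ / 2 := by
  have h1 := Int.abs_sub_lt_one_of_floor_eq_floor h
  rw [← sub_div, abs_div, abs_of_pos hθ, div_lt_one hθ, ← mul_sub, abs_mul, abs_two] at h1
  linarith

lemma cell_inj {θ : ℝ} (hθ : 0 < θ) {S : Set ℂ} (hS : ∀ c ∈ S, ∀ c' ∈ S, c ≠ c' → θ ≤ dist c c')
    (w : ℂ) : InjOn (cell θ w) S := by
  intro c hc c' hc' h
  by_contra hne
  have h1 := near hθ (congrArg Prod.fst h)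
  have h2 := near hθ (congrArg Prod.snd h)
  have h3 := hS c hc c' hc' hne
  have h4 := Complex.norm_le_abs_re_add_abs_im (c - c')
  rw [dist_eq_norm] at h3
  simp only [Complex.sub_re, Complex.sub_im, sub_sub_sub_cancel_right] at h1 h2 h4
  linarith

lemma fl_mem {θ a t : ℝ} (hθ : 0 < θ) (h : |a| ≤ t) :
    ⌊2 * a / θ⌋ ∈ Finset.Icc (-(⌈2 * t / θ⌉₊ : ℤ)) ⌈2 * t / θ⌉₊ := by
  obtain ⟨h1, h2⟩ := abs_le.1 h
  have h3 := Nat.le_ceil (2 * t / θ)
  have h4 : 2 * a / θ ≤ 2 * t / θ := by gcongr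
  have h5 : -(2 * t / θ) ≤ 2 * a / θ := by
    rw [← neg_div]; gcongr; linarith
  refine Finset.mem_Icc.2 ⟨Int.le_floor.2 (by push_cast; linarith), ?_⟩
  have h6 : ((⌊2 * a / θ⌋ : ℤ) : ℝ) ≤ ((⌈2 * t / θ⌉₊ : ℤ) : ℝ) := by
    push_cast; linarith [Int.floor_le (2 * a / θ)]
  exact_mod_cast h6

lemma cell_mem {θ t : ℝ} (hθ : 0 < θ) {w c : ℂ} (h : dist c w ≤ t) : cell θ w c ∈
    Finset.Icc (-(⌈2 * t / θ⌉₊ : ℤ)) ⌈2 * t / θ⌉₊ ×ˢ
      Finset.Icc (-(⌈2 * t / θ⌉₊ : ℤ)) ⌈2 * t / θ⌉₊ := by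
  rw [dist_eq_norm] at h
  exact Finset.mem_product.2 ⟨fl_mem hθ ((Complex.abs_re_le_norm _).trans h),
    fl_mem hθ ((Complex.abs_im_le_norm _).trans h)⟩

lemma card_le {θ t : ℝ} (hθ : 0 < θ) (ht : 0 ≤ t) {w : ℂ} {F : Finset ℂ}
    (hS : ∀ c ∈ F, ∀ c' ∈ F, c ≠ c' → θ ≤ dist c c') (hF : ∀ c ∈ F, dist c w ≤ t) :
    (F.card : ℝ) ≤ (4 * t / θ + 3) ^ 2 := by
  have h1 := Finset.card_le_card_of_injOn (cell θ w) (fun c hc => cell_mem hθ (hF c hc))
    (cell_inj hθ (S := F) hS w)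
  have h2 : (Finset.Icc (-(⌈2 * t / θ⌉₊ : ℤ)) ⌈2 * t / θ⌉₊).card = 2 * ⌈2 * t / θ⌉₊ + 1 := by
    rw [Int.card_Icc]; omega
  rw [Finset.card_product, h2] at h1
  have h3 : (F.card : ℝ) ≤ (2 * ⌈2 * t / θ⌉₊ + 1) ^ 2 := by rw [sq]; exact_mod_cast h1
  have h4 := (Nat.ceil_lt_add_one (show 0 ≤ 2 * t / θ by positivity)).le
  refine h3.trans ?_
  have h5 : 4 * t / θ = 2 * (2 * t / θ) := by ring
  exact pow_le_pow_left₀ (by positivity) (by linarith) 2

lemma sum_le {θ : ℝ} (hθ : 0 < θ) (w : ℂ) (k : ℕ) : ∀ F : Finset ℂ,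
    (∀ c ∈ F, ∀ c' ∈ F, c ≠ c' → θ ≤ dist c c') → (∀ c ∈ F, θ ≤ dist c w) →
    (∀ c ∈ F, dist c w ≤ 2 ^ k * θ) → ∑ c ∈ F, 1 / dist c w ≤ 121 * 2 ^ k / θ := by
  have aux : ∀ (F : Finset ℂ) (s : ℝ), 1 ≤ s → (∀ c ∈ F, ∀ c' ∈ F, c ≠ c' → θ ≤ dist c c') →
      (∀ c ∈ F, s * θ ≤ dist c w) → (∀ c ∈ F, dist c w ≤ 2 * s * θ) →
      ∑ c ∈ F, 1 / dist c w ≤ 121 * s / θ := by
    intro F s hs h1 h2 h3
    have h4 := card_le hθ (by positivity) h1 h3
    have h5 : 4 * (2 * s * θ) / θ = 8 * s := by field_simp; ring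
    rw [h5] at h4
    have h6 : ∑ c ∈ F, 1 / dist c w ≤ F.card • (1 / (s * θ)) :=
      Finset.sum_le_card_nsmul _ _ _ fun c hc =>
        one_div_le_one_div_of_le (by positivity) (h2 c hc)
    rw [nsmul_eq_mul] at h6
    refine h6.trans ?_
    rw [mul_one_div, div_le_div_iff₀ (by positivity) hθ]
    have h7 : (F.card : ℝ) ≤ 121 * s * s := by nlinarith
    nlinarith
  induction k with
  | zero =>
    intro F h1 h2 h3
    simpa using aux F 1 le_rfl h1 (by simpa using h2) fun c hc => by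
      have := h3 c hc
      rw [pow_zero] at this
      linarith
  | succ k ih =>
    intro F h1 h2 h3
    classical
    rw [← Finset.sum_filter_add_sum_filter_not F fun c => dist c w ≤ 2 ^ k * θ]
    have h4 := ih (F.filter fun c => dist c w ≤ 2 ^ k * θ)
      (fun c hc c' hc' => h1 c (Finset.mem_filter.1 hc).1 c' (Finset.mem_filter.1 hc').1)
      (fun c hc => h2 c (Finset.mem_filter.1 hc).1) fun c hc => (Finset.mem_filter.1 hc).2
    have h5 := aux (F.filter fun c => ¬ dist c w ≤ 2 ^ k * θ) (2 ^ k) (one_le_pow₀ one_le_two)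
      (fun c hc c' hc' => h1 c (Finset.mem_filter.1 hc).1 c' (Finset.mem_filter.1 hc').1)
      (fun c hc => (not_le.1 (Finset.mem_filter.1 hc).2).le) fun c hc => by
        have := h3 c (Finset.mem_filter.1 hc).1
        rw [pow_succ] at this
        linarith
    have h6 : 121 * 2 ^ (k + 1) / θ = 121 * 2 ^ k / θ + 121 * 2 ^ k / θ := by ring
    linarith

end Cnt

open Cnt in
theorem sCnt : SCnt := by
  intro θ hθ
  refine ⟨(4 / θ + 3) ^ 2 + 242 / θ ^ 2, by positivity, fun S hS w t ht => ?_⟩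
  have hfin : {c ∈ S | dist c w ≤ t}.Finite :=
    Finite.of_finite_image (f := cell θ w) ((Finset.finite_toSet _).subset (by
      rintro _ ⟨c, hc, rfl⟩
      exact cell_mem hθ hc.2)) ((cell_inj hθ hS w).mono fun _ h => h.1)
  have hm : ∀ c, c ∈ hfin.toFinset ↔ c ∈ S ∧ dist c w ≤ t := fun c => hfin.mem_toFinset
  have hs : ∀ c ∈ hfin.toFinset, ∀ c' ∈ hfin.toFinset, c ≠ c' → θ ≤ dist c c' :=
    fun c hc c' hc' => hS c ((hm c).1 hc).1 c' ((hm c').1 hc').1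
  refine ⟨hfin.toFinset, hm, ?_, fun h => ?_⟩
  · refine (card_le hθ (by linarith) hs fun c hc => ((hm c).1 hc).2).trans ?_
    have h1 : 4 * t / θ + 3 ≤ (4 / θ + 3) * t := by
      have : 4 * t / θ = 4 / θ * t := by ring
      linarith
    have h2 : (4 * t / θ + 3) ^ 2 ≤ ((4 / θ + 3) * t) ^ 2 := by gcongr
    have h3 : 0 ≤ 242 / θ ^ 2 * t ^ 2 := by positivity
    nlinarith
  · rcases hfin.toFinset.eq_empty_or_nonempty with h0 | ⟨c, hc⟩
    · rw [h0, Finset.sum_empty]; positivity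
    have h1 : 1 ≤ t / θ := (one_le_div hθ).2 ((h c hc).trans ((hm c).1 hc).2)
    obtain ⟨n, h2, h3⟩ := exists_nat_pow_near h1 (one_lt_two (α := ℝ))
    refine (sum_le hθ w (n + 1) _ hs h fun c hc => ((hm c).1 hc).2.trans
      ((div_lt_iff₀ hθ).1 h3).le).trans ?_
    have h4 : 121 * 2 ^ (n + 1) / θ ≤ 121 * (t / θ * 2) / θ := by rw [pow_succ]; gcongr
    have h5 : 121 * (t / θ * 2) / θ = 242 / θ ^ 2 * t := by field_simp; ring
    have h6 : 0 ≤ (4 / θ + 3) ^ 2 * t := by positivity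
    nlinarith

end Pool.Agent.P.MP_7ede32_ag.Full
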