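import Pool.Agent.P.MP_7ede32_ag.Full.StC

/-!
The integral between two close sections extends over the bad values and is very small.
-/

open Filter Topology Metric Set

noncomputable section

namespace Pool.Agent.P.MP_7ede32_ag.Full

open Geo

theorem sGlue2 (h : SPair) : SGlue2 := by
  intro X _ _ S s₀ hS C
  obtain ⟨δ₀, hδ₀, H⟩ := h X S s₀ hS C
  refine ⟨δ₀, hδ₀, fun δ hδ hs l η U hU => ?_⟩
  obtain ⟨η', hη', H'⟩ := H δ hδ hs l η U hU
  refine ⟨min η' η, lt_min hη' hU.2.1, fun q g O O' hO hb hq hg hd => ?_⟩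
  have hδp : 0 < δ := hs.1
  have hE : ∀ c, c ∈ C.Bt ∧ ball c (3 * δ) ⊆ O → ∃ Θ : ℂ → ℂ,
      DifferentiableOn ℂ Θ (ball 0 (2 * δ)) ∧ (∀ w ∈ ball (0 : ℂ) (2 * δ), ‖Θ w‖ ≤ 2) ∧
      (∀ w ∈ Ann δ, Θ w = th U (q (c + w)) (g (c + w))) ∧ (S.Λ.mkQ c = s₀ → Θ 0 = 0) := by
    intro c hc
    have a0 : ∀ w ∈ ball (0 : ℂ) (3 * δ), c + w ∈ O := fun w hw => hc.2 (by simpa using hw)
    have a1 : S.Adm (S.Λ.mkQ c) δ fun w => g (c + w) := Or.inl fun w hw =>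
      ⟨Sf0.HolAt.comp (f := g) (φ := fun w => c + w) (hg _ (a0 w hw)).1 (by fun_prop),
        by rw [(hg _ (a0 w hw)).2, zero_add, map_add]⟩
    have a2 : ∀ w ∈ Ann δ, c + w ∈ C.Cr (δ / 2) := fun w hw => hs.add_mem_Cr hc.1 hw.1.le hw.2.le
    refine H' c hc.1 _ _ (fun w hw => ?_) a1.secOn (hq.2 c hc.1) a1.lb fun w hw =>
      (hd _ ⟨a0 w (mem_ball_zero_iff.2 (by linarith [hw.2])), a2 w hw⟩).trans (min_le_left _ _)
    have a3 := hq.1 (c + w) (Sf0.Cfg.Cr_subset (half_pos hδp) (a2 w hw))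
    exact ⟨Sf0.HolAt.comp (f := q) (φ := fun w => c + w) a3.1 (by fun_prop),
      by rw [a3.2, zero_add, map_add]⟩
  choose! T T1 T2 T3 T4 using hE
  have near : ∀ w ∈ O', ∀ c, dist w c < δ → ball c (3 * δ) ⊆ O := fun w hw c h =>
    (ball_subset_ball' (by rw [dist_comm]; linarith)).trans (hb w hw)
  have sub : ∀ w ∈ O', w ∈ O := fun w hw => hb w hw (mem_ball_self (by linarith))
  classical
  let Θ : ℂ → ℂ := fun w =>
    if h : ∃ c ∈ C.Bt, dist w c < δ then T h.choose (w - h.choose) else th U (q w) (g w)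
  have K1 : ∀ w, ∀ c ∈ C.Bt, dist w c < δ → Θ w = T c (w - c) := by
    intro w c hc hw
    have h : ∃ c ∈ C.Bt, dist w c < δ := ⟨c, hc, hw⟩
    have e : h.choose = c := by
      by_contra hne
      have a1 := hs.2.2 _ h.choose_spec.1 c hc hne
      linarith [dist_triangle_left h.choose c w, h.choose_spec.2]
    simp only [Θ, dif_pos h, e]
  have K2 : ∀ w ∈ O' ∩ interior (C.Cr (δ / 2)), Θ w = th U (q w) (g w) := by
    intro w hw
    by_cases h : ∃ c ∈ C.Bt, dist w c < δ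
    · obtain ⟨c, hc, h⟩ := h
      have a1 := Sf0.Cfg.lt_dist_of_interior (half_pos hδp) hw.2 hc
      rw [K1 w c hc h, T3 c ⟨hc, near w hw.1 c h⟩ (w - c)
        ⟨by rwa [← dist_eq_norm], by rw [← dist_eq_norm]; linarith⟩]
      simp
    · simp only [Θ, dif_neg h]
  have K0 : ∀ w ∈ interior (C.Cr (δ / 2)), S.HolAt q w ∧ S.π (q w) = 0 + S.Λ.mkQ w :=
    fun w hw => hq.1 w (Sf0.Cfg.Cr_subset (half_pos hδp) (interior_subset hw))
  have K3 : ∀ w ∈ O' ∩ interior (C.Cr (δ / 2)),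
      q w ∈ C.Kc (δ / 2) ∧ S.π (g w) = S.π (q w) ∧ dist (q w) (g w) ≤ η := fun w hw =>
    ⟨Sf0.Cfg.mem_Kc (interior_subset hw.2) (by rw [(K0 w hw.2).2, zero_add]),
      by rw [(K0 w hw.2).2, (hg w (sub w hw.1)).2],
      (hd w ⟨sub w hw.1, interior_subset hw.2⟩).trans (min_le_right _ _)⟩
  have K4 : ∀ w, (¬ ∃ c ∈ C.Bt, dist w c < δ) → w ∈ interior (C.Cr (δ / 2)) := fun w h =>
    Sf0.Cfg.Cr_subset_interior (half_lt_self hδp) fun c hc => not_lt.1 fun h' => h ⟨c, hc, h'⟩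
  have K5 : ∀ w c : ℂ, dist w c < δ → w - c ∈ ball (0 : ℂ) (2 * δ) := fun w c h => by
    rw [mem_ball_zero_iff, ← dist_eq_norm]; linarith
  refine ⟨Θ, fun w hw => ?_, fun w hw => ?_, fun c hc hc' => ?_, K2⟩
  · refine DifferentiableAt.differentiableWithinAt ?_
    by_cases h : ∃ c ∈ C.Bt, dist w c < δ
    · obtain ⟨c, hc, h⟩ := h
      have a1 : DifferentiableAt ℂ (T c) (w - c) :=
        (T1 c ⟨hc, near w hw c h⟩).differentiableAt (isOpen_ball.mem_nhds (K5 w c h))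
      refine (a1.comp w (f := fun z => z - c) (by fun_prop)).congr_of_eventuallyEq ?_
      filter_upwards [isOpen_ball.mem_nhds (mem_ball.2 h)] with z hz
      exact K1 z c hc hz
    · have a1 : O' ∩ interior (C.Cr (δ / 2)) ∈ 𝓝 w :=
        (hO.inter isOpen_interior).mem_nhds ⟨hw, K4 w h⟩
      exact (hU.differentiableAt (K0 w (K4 w h)).1 (hg w (sub w hw)).1
        (eventually_of_mem a1 K3)).congr_of_eventuallyEq (eventually_of_mem a1 K2)
  · by_cases h : ∃ c ∈ C.Bt, dist w c < δ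
    · obtain ⟨c, hc, h⟩ := h
      rw [K1 w c hc h]
      exact T2 c ⟨hc, near w hw c h⟩ _ (K5 w c h)
    · rw [K2 w ⟨hw, K4 w h⟩]
      exact hU.bound (K3 w ⟨hw, K4 w h⟩).1 (K3 w ⟨hw, K4 w h⟩).2.2
  · have hB : c ∈ C.Bt := by
      show S.Λ.mkQ c ∈ C.B
      rw [hc']
      exact C.mem
    have h0 : dist c c < δ := by simpa using hδp
    rw [K1 c c hB h0, sub_self]
    exact T4 c ⟨hB, near c hc c h0⟩ hc'

namespace Gauss

lemma isOpen_Cap (u c : ℂ) (a b : ℝ) : IsOpen (Cap u c a b) := by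
  have h1 : IsOpen {w : ℂ | a < (starRingEnd ℂ u * (w - c)).re} :=
    isOpen_lt continuous_const (by fun_prop)
  have h2 : IsOpen {w : ℂ | ‖w - c‖ < b} := isOpen_lt (by fun_prop) continuous_const
  exact h1.inter h2

/-- the two defining quantities of a truncated half-plane are Lipschitz -/
lemma lip {u : ℂ} (hu : ‖u‖ = 1) (c w z : ℂ) :
    (starRingEnd ℂ u * (w - c)).re - dist z w ≤ (starRingEnd ℂ u * (z - c)).re ∧
      ‖z - c‖ ≤ ‖w - c‖ + dist z w := by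
  have h1 := Complex.abs_re_le_norm (starRingEnd ℂ u * (z - w))
  rw [norm_mul, Complex.norm_conj, hu, one_mul, ← dist_eq_norm] at h1
  have h2 : starRingEnd ℂ u * (z - c) = starRingEnd ℂ u * (w - c) + starRingEnd ℂ u * (z - w) := by
    ring
  have h3 := norm_add_le (w - c) (z - w)
  rw [← dist_eq_norm z w, show w - c + (z - w) = z - c by ring] at h3
  rw [h2, Complex.add_re]
  exact ⟨by linarith [(abs_le.1 h1).1], h3⟩

lemma centre {u : ℂ} (hu : ‖u‖ = 1) (c : ℂ) {t : ℝ} (ht : 0 ≤ t) :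
    (starRingEnd ℂ u * (c + u * t - c)).re = t ∧ ‖c + u * t - c‖ = t := by
  rw [add_sub_cancel_left, ← mul_assoc, Complex.conj_mul', norm_mul, hu, Complex.norm_real,
    Real.norm_of_nonneg ht]
  simp

lemma expo {ρ lam E x y : ℝ} (hρ : 0 < ρ) (h1 : 20 * ρ ≤ lam) (hE : 40 ≤ E) (hx0 : 0 ≤ x)
    (hx : x ≤ lam + lam / 200) (hy : lam - lam / 200 ≤ y) :
    2 * Real.exp ((x ^ 2 - 2 * lam * E / 3 / 4 * (y - lam / 3 - ρ)) / ρ ^ 2) ≤
      Real.exp (-(1 / (20 * ρ ^ 2) * lam ^ 2 * E)) := by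
  have hl : 0 < lam := by linarith
  have a1 : x ^ 2 ≤ lam ^ 2 * E / 39 := by
    have : x ^ 2 ≤ (lam + lam / 200) ^ 2 := by gcongr
    nlinarith [sq_nonneg lam]
  have a2 : lam ^ 2 * E / 10 ≤ 2 * lam * E / 3 / 4 * (y - lam / 3 - ρ) := by
    have : 2 * lam * E / 3 / 4 * (3 * lam / 5) ≤ 2 * lam * E / 3 / 4 * (y - lam / 3 - ρ) := by
      gcongr; linarith
    linarith
  have a3 : 400 * ρ ^ 2 * 40 ≤ lam ^ 2 * E := by
    have : (20 * ρ) ^ 2 ≤ lam ^ 2 := by gcongr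
    nlinarith [sq_nonneg lam, sq_nonneg ρ]
  have a4 : (x ^ 2 - 2 * lam * E / 3 / 4 * (y - lam / 3 - ρ)) / ρ ^ 2 ≤
      -(1 / (20 * ρ ^ 2) * lam ^ 2 * E) - 1 := by
    rw [div_le_iff₀ (by positivity)]
    have : (-(1 / (20 * ρ ^ 2) * lam ^ 2 * E) - 1) * ρ ^ 2 = -(lam ^ 2 * E / 20) - ρ ^ 2 := by
      field_simp
    rw [this]
    nlinarith [sq_nonneg ρ]
  have a5 := Real.exp_le_exp.2 a4
  rw [Real.exp_sub, le_div_iff₀ (Real.exp_pos 1)] at a5
  nlinarith [Real.add_one_le_exp 1, Real.exp_pos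
    ((x ^ 2 - 2 * lam * E / 3 / 4 * (y - lam / 3 - ρ)) / ρ ^ 2)]

end Gauss

theorem sGauss (h1 : SGlue2) (h2 : SCap) : SGauss := by
  intro X _ _ S s₀ hS C
  obtain ⟨δ₀, hδ₀, H⟩ := h1 X S s₀ hS C
  refine ⟨δ₀, hδ₀, fun δ hδ hs l η U hU => ?_⟩
  obtain ⟨η', hη', H'⟩ := H δ hδ hs l η U hU
  obtain ⟨D, hD⟩ := S.cocpt
  obtain ⟨c₀, hc₀⟩ := S.Λ.mkQ_surjective s₀
  have hN : Net {w | S.Λ.mkQ w = s₀} D := fun w => by
    obtain ⟨m, hm, h⟩ := hD (w - c₀)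
    refine ⟨c₀ + m, ?_, ?_⟩
    · show S.Λ.mkQ (c₀ + m) = s₀
      rw [← hc₀]
      exact Sf0.mk_eq_iff.2 (by simpa using hm)
    · rwa [dist_eq_norm, ← sub_sub, ← dist_eq_norm]
  obtain ⟨ρ, hρ, hC⟩ := h2 D
  refine ⟨η', hη', 1 / (20 * ρ ^ 2), by positivity, max 40 (max (20 * ρ) (120 * δ)),
    fun q g u c lam E hu hl hE hq hg hd w hw => ?_⟩
  have b1 : 20 * ρ ≤ lam := ((le_max_left _ _).trans (le_max_right _ _)).trans hl
  have b2 : 120 * δ ≤ lam := ((le_max_right _ _).trans (le_max_right _ _)).trans hl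
  have b3 : 40 ≤ E := (le_max_left _ _).trans hE
  have b4 : 0 < lam := by linarith
  have b5 : lam * 40 ≤ lam * E := by gcongr
  obtain ⟨Θ, t1, t2, t3, t4⟩ := H' q g _ (Cap u c (lam / 3) (2 * lam * E / 3))
    (Gauss.isOpen_Cap _ _ _ _) (fun v hv z hz => by
      obtain ⟨c1, c2⟩ := Gauss.lip hu c v z
      exact ⟨by linarith [hv.1, mem_ball.1 hz], by linarith [hv.2, mem_ball.1 hz]⟩) hq hg hd
  obtain ⟨c1, c2⟩ := Gauss.lip hu c (c + u * lam) w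
  obtain ⟨c3, c4⟩ := Gauss.centre hu c b4.le
  have c5 := mem_ball.1 hw.1
  rw [c3] at c1
  rw [c4] at c2
  have hw' : w ∈ Cap u c (lam / 3) (2 * lam * E / 3) := ⟨by linarith, by linarith⟩
  rw [← t4 w ⟨hw', hw.2⟩]
  exact (hC Θ u c _ _ _ hu (by positivity) (by linarith) hN t1 t2
    (fun p hp => t3 p hp.2 hp.1) w hw').trans
    (Gauss.expo hρ b1 b3 (norm_nonneg _) (by linarith) (by linarith))

end Pool.Agent.P.MP_7ede32_ag.Full
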