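import Pool.Agent.P.MP_7ede32_ag.Full.StB

/-! The main Jensen argument. -/

open Filter Topology Metric Set ValueDistribution MeromorphicOn
open scoped Real

noncomputable section

namespace Pool.Agent.P.MP_7ede32_ag.Full

namespace JMain

theorem net_G (D : Discs) (Pd : Set ℂ) (R₀ : ℝ) (hN : Net Pd R₀) (hP : ∀ p ∈ Pd, D.Per p) :
    Net {p | ball p D.θ ⊆ D.G 0} R₀ := by
  intro w
  by_cases h : ∃ c, c ∈ D.C
  · obtain ⟨c, hc⟩ := h
    obtain ⟨p, hp, hd⟩ := hN (w - c - ((D.r c + D.θ : ℝ) : ℂ))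
    obtain ⟨h1, h2⟩ := hP p hp c hc
    have h0 : 0 ≤ D.r c + D.θ := by linarith [D.le_r c hc, D.θ_pos]
    refine ⟨c + p + ((D.r c + D.θ : ℝ) : ℂ), fun x hx => ?_, ?_⟩
    · have h3 : dist (c + p + ((D.r c + D.θ : ℝ) : ℂ)) (c + p) = D.r c + D.θ := by
        rw [dist_eq_norm, add_sub_cancel_left, Complex.norm_real, Real.norm_eq_abs,
          abs_of_nonneg h0]
      have h4 := mem_ball.1 hx
      refine D.mem_G h1 ?_ ?_
      · linarith [dist_triangle_left (c + p + ((D.r c + D.θ : ℝ) : ℂ)) (c + p) x]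
      · linarith [dist_triangle x (c + p + ((D.r c + D.θ : ℝ) : ℂ)) (c + p)]
    · rw [dist_eq_norm] at hd ⊢
      convert hd using 2
      ring
  · obtain ⟨p, _, hd⟩ := hN w
    exact ⟨w, fun x _ c hc => absurd ⟨c, hc⟩ h, by simpa using dist_nonneg.trans hd⟩

theorem pr_shift (s : Finset ℂ) (n : ℂ → ℕ) (p w : ℂ) :
    pr (s.map (Equiv.subRight p).toEmbedding) (fun α => n (α + p)) w = pr s n (w + p) := by
  unfold pr
  rw [Finset.prod_map]
  refine Finset.prod_congr rfl fun α _ => ?_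
  simp only [Equiv.coe_toEmbedding, Equiv.subRight_apply, sub_add_cancel]
  congr 1
  ring

theorem appr_of (D : Discs) (e G : ℂ → ℂ) (N ε : ℝ) (U : Set ℂ) (c p : ℂ) (hc : c ∈ D.C)
    (hp : D.Per p) (he : ∀ w ∈ D.Go, e (w + p) = e w)
    (hG : ∀ w ∈ D.Go ∩ U, ‖G w - e w‖ ≤ ε) (hU : ball (c + p) (D.r c) ⊆ U)
    (s : Finset ℂ) (n : ℂ → ℕ) (A : ℂ → ℂ) (h1 : ∀ α ∈ s, dist α (c + p) ≤ D.r c - 2 * D.θ)
    (h2 : ((∑ α ∈ s, n α : ℕ) : ℝ) ≤ N) (h3 : DifferentiableOn ℂ A (ball (c + p) (D.r c)))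
    (h4 : ∀ w ∈ ball (c + p) (D.r c), D.r c - 2 * D.θ < dist w (c + p) →
      A w = G w * pr s n w) : Appr D e N ε c := by
  have hθ := D.θ_pos
  obtain ⟨hc', hr⟩ := hp c hc
  refine ⟨s.map (Equiv.subRight p).toEmbedding, fun α => n (α + p), fun w => A (w + p),
    fun α hα => ?_, ?_, ?_, fun w hw => ?_⟩
  · obtain ⟨β, hβ, rfl⟩ := Finset.mem_map.1 hα
    have := h1 β hβ
    rw [dist_eq_norm] at this ⊢
    convert this using 2
    simp only [Equiv.coe_toEmbedding, Equiv.subRight_apply]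
    ring
  · rw [Finset.sum_map]
    simpa using h2
  · refine h3.comp (by fun_prop : DifferentiableOn ℂ (fun w => w + p) _) fun w hw => ?_
    simpa using hw
  · have hd : dist w c = D.r c - D.θ := mem_sphere.1 hw
    have hd' : dist (w + p) (c + p) = D.r c - D.θ := by rw [dist_add_right, hd]
    have hb : w + p ∈ ball (c + p) (D.r c) := by rw [mem_ball, hd']; linarith
    have hne : pr s n (w + p) ≠ 0 := Finset.prod_ne_zero_iff.2 fun α hα =>
      pow_ne_zero _ fun h => by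
        have := h1 α hα
        rw [← sub_eq_zero.1 h, hd'] at this
        linarith
    have hGo : w ∈ D.Go := D.mem_Go hc (by linarith) (by linarith)
    have hGo' : w + p ∈ D.Go := D.mem_Go hc' (by rw [hr]; linarith) (by rw [hr]; linarith)
    show ‖A (w + p) / _ - e w‖ ≤ ε
    rw [pr_shift, h4 _ hb (by linarith), mul_div_cancel_right₀ _ hne, ← he w hGo]
    exact hG _ ⟨hGo', hU hb⟩

theorem T_bound {g φ Ψ : ℂ → ℂ} {Ch : ℝ} (h : ∀ r R M : ℝ, 1 ≤ r → r < R → 1 ≤ M → Mx φ R M →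
    characteristic g ⊤ r ≤ Ch * (M ^ 2 + R / (R - r))) {z₁ : ℂ} {l a E : ℝ}
    (W : WV φ z₁ l a E Ψ) (hl : 1 ≤ l) {r : ℝ} (h1 : 1 ≤ r) (h2 : r ≤ ‖z₁‖ * (1 + 2 / a)) :
    characteristic g ⊤ r ≤ |Ch| * (Real.exp 6 ^ 2 + 2) * a * l ^ 2 := by
  have ha := W.one_le
  have ha0 : 0 < a := by linarith
  have hz : 0 < ‖z₁‖ := by
    by_contra hz
    have : ‖z₁‖ = 0 := le_antisymm (not_lt.1 hz) (norm_nonneg _)
    rw [this] at h2
    linarith
  have e6 : 1 ≤ Real.exp 6 := Real.one_le_exp (by norm_num)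
  have hq : 0 < ‖z₁‖ / a := div_pos hz ha0
  have k1 : ‖z₁‖ * (1 + 5 / a) = ‖z₁‖ + 5 * (‖z₁‖ / a) := by ring
  have k2 : ‖z₁‖ * (1 + 2 / a) = ‖z₁‖ + 2 * (‖z₁‖ / a) := by ring
  have k3 : ‖z₁‖ = a * (‖z₁‖ / a) := by field_simp
  have hlt : r < ‖z₁‖ * (1 + 5 / a) := by linarith
  have h3 := h r _ _ h1 hlt (by nlinarith) W.mx
  have h4 : ‖z₁‖ * (1 + 5 / a) / (‖z₁‖ * (1 + 5 / a) - r) ≤ 2 * a := by
    rw [div_le_iff₀ (by linarith)]
    nlinarith
  have h5 : 0 ≤ ‖z₁‖ * (1 + 5 / a) / (‖z₁‖ * (1 + 5 / a) - r) :=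
    div_nonneg (by linarith) (by linarith)
  have h6 : 1 ≤ l ^ 2 := one_le_pow₀ hl
  have h7 : (l * Real.exp 6) ^ 2 + 2 * a ≤ (Real.exp 6 ^ 2 + 2) * a * l ^ 2 := by
    have : 0 ≤ Real.exp 6 ^ 2 * l ^ 2 := by positivity
    nlinarith
  calc characteristic g ⊤ r ≤ _ := h3
    _ ≤ |Ch| * ((l * Real.exp 6) ^ 2 + ‖z₁‖ * (1 + 5 / a) / (‖z₁‖ * (1 + 5 / a) - r)) :=
      mul_le_mul_of_nonneg_right (le_abs_self _) (by positivity)
    _ ≤ |Ch| * ((Real.exp 6 ^ 2 + 2) * a * l ^ 2) :=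
      mul_le_mul_of_nonneg_left (by linarith) (abs_nonneg _)
    _ = _ := by ring

theorem arith {C₁ C₃ B c₀ a X Y L T b : ℝ} (hC₁ : 0 ≤ C₁) (hC₃ : 0 ≤ C₃) (hc₀ : 0 < c₀)
    (ha : 1 ≤ a) (hX : 1 ≤ X) (hB : B = |b| + Real.log 2)
    (hY : (3 * C₃ + B + (C₁ + 2 * C₃ + B + 1) * (2 * π / c₀)) * (a * X) ≤ Y)
    (hL : L ≤ C₃ * X) (hT : T ≤ C₁ * X) :
    0 ≤ Y - L - Real.log 2 ∧ -Y + L ≤ b - L ∧
      ¬ b - L ≤ T + L + Real.log 2 - (Y - L - Real.log 2) * (c₀ / a) / (2 * π) := by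
  have l2 : 0 ≤ Real.log 2 := Real.log_nonneg one_le_two
  have hb := abs_nonneg b
  have hb' := neg_abs_le b
  have hB0 : 0 ≤ B := by linarith
  have hpi := Real.pi_pos
  set V := C₁ + 2 * C₃ + B + 1 with hV
  have hV0 : 0 ≤ V := by positivity
  have hW : 0 ≤ V * (2 * π / c₀) * (a * X) := by positivity
  have h1 : X ≤ a * X := by nlinarith
  have h2 : C₃ * X ≤ C₃ * (a * X) := mul_le_mul_of_nonneg_left h1 hC₃
  have h3 : B ≤ B * X := by nlinarith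
  have h4 : B * X ≤ B * (a * X) := mul_le_mul_of_nonneg_left h1 hB0
  have h5 : 0 ≤ C₃ * X := by positivity
  have h6 : V * (2 * π / c₀) * (a * X) ≤ Y - L - Real.log 2 := by nlinarith
  refine ⟨by linarith, by nlinarith, fun h => ?_⟩
  have h7 : V * X ≤ (Y - L - Real.log 2) * (c₀ / a) / (2 * π) := by
    have : V * X = V * (2 * π / c₀) * (a * X) * (c₀ / a) / (2 * π) := by field_simp
    rw [this]
    gcongr
  have h8 : V * X = C₁ * X + 2 * (C₃ * X) + B * X + X := by rw [hV]; ring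
  linarith

end JMain

open JMain in
theorem sJMain (h1 : SApx) (h2 : SPole) (h3 : SArc) (h4 : SJen) : SJMain := by
  intro D Pd R₀ M κ e g φ hκ hN hP he hM hφ hg ⟨Ch, hCh⟩ hg0 hφ0 hne
  obtain ⟨Ca, hCa0, hCa⟩ := h1 D e M he hM
  obtain ⟨Cp, rp, hCp0, hCp⟩ := h2 R₀ D.rm
  obtain ⟨c₀, hc₀, ra, hA⟩ := h3 D.θ D.θ_pos R₀
  set C₁ := |Ch| * (Real.exp 6 ^ 2 + 2) with hC₁
  set C₃ := Ca * (Cp * C₁ + 1) * (Real.exp 6 + 1) ^ 2 with hC₃
  set d := ‖g 0 - e (φ 0)‖ with hd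
  set B := |Real.log (d / 2)| + Real.log 2 with hB
  set V := 3 * C₃ + B + (C₁ + 2 * C₃ + B + 1) * (2 * π / c₀) with hV
  have hd0 : 0 < d := norm_pos_iff.2 (sub_ne_zero.2 hne)
  have hC₁0 : 0 ≤ C₁ := by positivity
  have hC₃0 : 0 ≤ C₃ := by positivity
  have hB0 : 0 ≤ B := add_nonneg (abs_nonneg _) (Real.log_nonneg one_le_two)
  have hV0 : 0 ≤ V := by positivity
  refine ⟨V / κ + 2, max 2 (max rp ra), fun z₁ l a E Ψ W hz hl hE H => ?_⟩
  have hz2 : 2 ≤ ‖z₁‖ := (le_max_left _ _).trans hz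
  have hl1 : 1 ≤ l := by linarith [(le_max_left _ _).trans hl]
  have hlp : rp ≤ l := ((le_max_left _ _).trans (le_max_right _ _)).trans hl
  have hla : ra ≤ l := ((le_max_right _ _).trans (le_max_right _ _)).trans hl
  have ha := W.one_le
  have ha0 : 0 < a := by linarith
  have ha3 : 1 ≤ a ^ 3 := one_le_pow₀ ha
  have hVκ : 0 ≤ V / κ := by positivity
  have hE2 : 2 ≤ E := by nlinarith
  have hX : 1 ≤ a ^ 2 * l ^ 2 := one_le_mul_of_one_le_of_one_le (one_le_pow₀ ha) (one_le_pow₀ hl1)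
  set Y := κ * l ^ 2 * E with hY
  have hYV : V * (a * (a ^ 2 * l ^ 2)) ≤ Y := by
    have k1 : V / κ * a ^ 3 ≤ E := by nlinarith
    calc V * (a * (a ^ 2 * l ^ 2)) = κ * l ^ 2 * (V / κ * a ^ 3) := by field_simp
      _ ≤ Y := mul_le_mul_of_nonneg_left k1 (by positivity)
  have hq : 0 < ‖z₁‖ / a := by positivity
  have hq1 : ‖z₁‖ / a ≤ ‖z₁‖ := div_le_self (norm_nonneg _) ha
  have k2 : ‖z₁‖ * (1 + 2 / a) = ‖z₁‖ + 2 * (‖z₁‖ / a) := by ring
  have k5 : ‖z₁‖ * (1 + 5 / a) = ‖z₁‖ + 5 * (‖z₁‖ / a) := by ring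
  -- approximation on every disc
  have hApp : ∀ c ∈ D.C, Appr D e (Cp * C₁ * a ^ 2) (Real.exp (-Y)) c := by
    intro c hc
    obtain ⟨_, ⟨p, hp, rfl⟩, k1, s, n, A, k3, k4, k6, k7⟩ := hCp φ Ψ g z₁ l a E _
      (D.r c - 2 * D.θ) (D.r c) ((fun p => c + p) '' Pd) hφ W hE2 hlp (by linarith) hg
      (T_bound hCh W hl1 (by linarith) le_rfl) (fun w => by
        obtain ⟨p, hp, hd⟩ := hN (w - c)
        refine ⟨c + p, ⟨p, hp, rfl⟩, ?_⟩
        rw [dist_eq_norm] at hd ⊢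
        convert hd using 2
        ring) (by linarith [D.θ_pos]) (D.r_le c hc) (by
        rintro _ ⟨p, hp, rfl⟩ w hw k1 k3
        obtain ⟨hc', hr⟩ := (hP p hp).1 c hc
        exact (H w ⟨D.mem_Go hc' (by rw [hr]; exact k1) (by rw [hr]; linarith [D.θ_pos]), hw⟩).1)
    refine appr_of D e (fun w => g (Ψ w)) _ _ _ c p hc (hP p hp).1 (hP p hp).2
      (fun w hw => (H w hw).2) k1 s n A k3 (k4.trans_eq ?_) k6 k7
    rw [hC₁]
    field_simp
  have e6 : 1 ≤ Real.exp 6 := Real.one_le_exp (by norm_num)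
  have hY0 : 0 ≤ Y := by positivity
  obtain ⟨P, Q, hPd, hQd, hP0, hPQ⟩ := hCa (φ 0) (l * Real.exp 6 + 1) (Cp * C₁ * a ^ 2)
    (Real.exp (-Y)) hφ0 (by nlinarith) (by positivity) (Real.exp_pos _).le
    (Real.exp_le_one_iff.2 (by linarith)) hApp
  set L := Ca * (Cp * C₁ * a ^ 2 + 1) * (l * Real.exp 6 + 1) ^ 2 with hL
  have hL0 : 0 ≤ L := by positivity
  have hLX : L ≤ C₃ * (a ^ 2 * l ^ 2) := by
    have k1 : Cp * C₁ * a ^ 2 + 1 ≤ (Cp * C₁ + 1) * a ^ 2 := by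
      linarith [one_le_pow₀ (n := 2) ha]
    have k3 : l * Real.exp 6 + 1 ≤ (Real.exp 6 + 1) * l := by linarith
    calc L ≤ Ca * ((Cp * C₁ + 1) * a ^ 2) * ((Real.exp 6 + 1) * l) ^ 2 := by
          rw [hL]; gcongr
      _ = _ := by rw [hC₃]; ring
  obtain ⟨r, η, J, r1, J1, J2, J3, J4⟩ := hA φ Ψ z₁ l a E (D.G 0) hφ W hE2 hla
    (norm_pos_iff.1 (by linarith)) (net_G D Pd R₀ hN fun p hp => (hP p hp).1)
  obtain ⟨r2, r3⟩ := abs_le.1 r1
  have hr1 : 1 ≤ r := by linarith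
  have hT := T_bound hCh W hl1 hr1 (by linarith)
  have hT' : characteristic g ⊤ r ≤ C₁ * (a ^ 2 * l ^ 2) := by
    refine hT.trans ?_
    have : a * l ^ 2 ≤ a ^ 2 * l ^ 2 := by
      gcongr
      nlinarith
    rw [← hC₁, mul_assoc]
    exact mul_le_mul_of_nonneg_left this hC₁0
  obtain ⟨a1, a2, a3⟩ := arith hC₁0 hC₃0 hc₀ ha hX hB hYV hLX hT'
  have hin : ∀ z ∈ closedBall (0 : ℂ) r, φ z ∈ ball (φ 0) (l * Real.exp 6 + 1) := fun z hz => by
    have := W.mx z (by linarith [mem_closedBall_zero_iff.1 hz])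
    rw [mem_ball, dist_eq_norm]
    linarith
  have han : ∀ F : ℂ → ℂ, DifferentiableOn ℂ F (ball (φ 0) (l * Real.exp 6 + 1)) →
      AnalyticOnNhd ℂ (fun z => F (φ z)) (closedBall 0 r) := fun F hF z hz =>
    (hF.analyticAt (isOpen_ball.mem_nhds (hin z hz))).comp (hφ.analyticAt z)
  have hlow : Real.exp (Real.log (d / 2) - L) ≤ ‖g 0 * P (φ 0) - Q (φ 0)‖ := by
    have k1 := (hPQ (φ 0) (mem_ball_self (by positivity))).2.2 hφ0
    have k3 : d * ‖P (φ 0)‖ ≤ ‖g 0 * P (φ 0) - Q (φ 0)‖ + ‖e (φ 0) * P (φ 0) - Q (φ 0)‖ := by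
      rw [hd, ← norm_mul]
      refine le_trans (le_of_eq ?_) (norm_sub_le _ _)
      congr 1
      ring
    have k4 : Real.exp (-Y) * Real.exp L ≤ Real.exp (Real.log (d / 2) - L) := by
      rw [← Real.exp_add]
      exact Real.exp_le_exp.2 a2
    have k6 : Real.exp (Real.log (d / 2) - L) = d / 2 * Real.exp (-L) := by
      rw [sub_eq_add_neg, Real.exp_add, Real.exp_log (by positivity)]
    have k7 : d * Real.exp (-L) ≤ d * ‖P (φ 0)‖ := mul_le_mul_of_nonneg_left hP0 hd0.le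
    linarith
  have hpos : 0 < ‖g 0 * P (φ 0) - Q (φ 0)‖ := (Real.exp_pos _).trans_le hlow
  have hJ := h4 g (fun z => P (φ z)) (fun z => Q (φ z)) r L (Y - L - Real.log 2) (c₀ / a) η J hg
    hg0 (han P hPd) (han Q hQd) hr1 hL0 a1 (norm_pos_iff.1 hpos) (fun z hz => by
      have := hPQ _ (hin z (sphere_subset_closedBall hz))
      exact ⟨this.1, this.2.1⟩) J1 J2 J3 (fun t ht => by
      obtain ⟨⟨k1, k3⟩, k4⟩ := J4 t ht
      have k6 := (H _ ⟨D.G_subset_Go k1, k3⟩).2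
      rw [k4] at k6
      obtain ⟨k7, -, k8⟩ := hPQ _ (hin _ (circleMap_mem_closedBall 0 (by linarith) t))
      have k9 := k8 k1
      have k10 : Real.exp (-(Y - L - Real.log 2)) = 2 * (Real.exp (-Y) * Real.exp L) := by
        rw [show -(Y - L - Real.log 2) = Real.log 2 + (-Y + L) by ring, Real.exp_add,
          Real.exp_add, Real.exp_log two_pos]
      have k11 : ‖(g (circleMap 0 r t) - e (φ (circleMap 0 r t))) * P (φ (circleMap 0 r t))‖ ≤
          Real.exp (-Y) * Real.exp L := by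
        rw [norm_mul]
        exact mul_le_mul k6 k7 (norm_nonneg _) (Real.exp_pos _).le
      have k12 := norm_add_le ((g (circleMap 0 r t) - e (φ (circleMap 0 r t))) *
        P (φ (circleMap 0 r t))) (e (φ (circleMap 0 r t)) * P (φ (circleMap 0 r t)) -
          Q (φ (circleMap 0 r t)))
      rw [show (g (circleMap 0 r t) - e (φ (circleMap 0 r t))) * P (φ (circleMap 0 r t)) +
        (e (φ (circleMap 0 r t)) * P (φ (circleMap 0 r t)) - Q (φ (circleMap 0 r t))) =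
        g (circleMap 0 r t) * P (φ (circleMap 0 r t)) - Q (φ (circleMap 0 r t)) by ring] at k12
      rw [k10]
      linarith)
  exact a3 (((Real.le_log_iff_exp_le hpos).2 hlow).trans hJ)

end Pool.Agent.P.MP_7ede32_ag.Full
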