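import Pool.Agent.P.MP_7ede32_ag.Full.Mer
import Pool.Agent.P.MP_7ede32_ag.FAcl
import Pool.Agent.P.MP_7ede32_ag.FVal
import Pool.Agent.P.MP_68ca4e_ag.M.FF2

/-!
The algebraic steps, as propositions: function fields with derivations.
-/

open scoped WithZero IntermediateField Polynomial
open WithZero

noncomputable section

namespace Pool.Agent.P.MP_7ede32_ag.Full

open MP_68ca4e_ag.M (Curve IsPlace)

section defs

variable (k : Type) {F : Type} [Field k] [Field F] [Algebra k F]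

/-- `d` maps the constants to constants -/
def Pres (d : Der F) : Prop := ∀ c : k, ∃ c' : k, d.D (algebraMap k F c) = algebraMap k F c'

/-- `d` is the derivation `d / dx` over `k` -/
def Std (d : Der F) (x : F) : Prop := (∀ c : k, d.D (algebraMap k F c) = 0) ∧ d.D x = 1

/-- `a (dx) ^ μ` and `x a (dx) ^ μ` are regular at every place -/
def Reg (x a : F) (μ : ℕ) : Prop :=
  ∀ d : Der F, Std k d x → ∀ O : ValuationSubring F, O ≠ ⊤ → (∀ c, algebraMap k F c ∈ O) →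
    ∃ y ∈ O, d.D y ≠ 0 ∧ a / d.D y ^ μ ∈ O ∧ x * a / d.D y ^ μ ∈ O

variable {k}

/-- `y` is a local coordinate at the place `w` -/
def Coord (d : Der F) (w : Valuation F ℤᵐ⁰) (y : F) : Prop :=
  w y ≤ 1 ∧ d.D y ≠ 0 ∧ ∀ z, w z ≤ 1 → w (d.D z) ≤ w (d.D y)

lemma Std.pres {d : Der F} {x : F} (h : Std k d x) : Pres k d :=
  fun c => ⟨0, by rw [h.1, map_zero]⟩

variable (k F)

/-- the complete curve of a function field in one variable, with all its places -/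
structure FC extends Curve k F where
  cf : FF.IsCurveField k F
  all : ∀ O : ValuationSubring F, O ≠ ⊤ → (∀ c, algebraMap k F c ∈ O) →
    ∃ P, (v P).valuationSubring = O

variable {k F}

theorem exists_fc [IsAlgClosed k] (h : FF.IsCurveField k F) : Nonempty (FC k F) := by
  obtain ⟨t, ht, hf⟩ := id h
  obtain ⟨𝒞, h1⟩ := MP_68ca4e_ag.M.exists_curve ht
  exact ⟨⟨𝒞, h, h1⟩⟩

namespace FC

variable (𝒞 : FC k F)

lemma isPlace (P : 𝒞.Pl) : IsPlace k (𝒞.v P) := ⟨𝒞.const P, 𝒞.unif P, 𝒞.res P⟩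

lemma ffPlace (P : 𝒞.Pl) : FF.IsPlace k (𝒞.v P) := by
  refine ⟨fun γ => ?_, fun c hc => 𝒞.toCurve.v_const P hc⟩
  obtain ⟨π, hπ⟩ := 𝒞.unif P
  induction γ using expRecOn with
  | zero => exact ⟨0, map_zero _⟩
  | exp n => exact ⟨π ^ (-n), by rw [map_zpow₀, hπ, ← exp_zsmul]; simp⟩

lemma ne_top (P : 𝒞.Pl) : (𝒞.v P).valuationSubring ≠ ⊤ := by
  intro h
  obtain ⟨x, hx⟩ := (𝒞.ffPlace P).1 (exp 1)
  have h1 : x ∈ (𝒞.v P).valuationSubring := h ▸ ValuationSubring.mem_top x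
  rw [Valuation.mem_valuationSubring_iff, hx, ← exp_zero, exp_le_exp] at h1
  omega

/-- a function without poles is constant -/
lemma const_of [IsAlgClosed k] [CharZero k] {u : F} (h : ∀ P, 𝒞.v P u ≤ 1) :
    ∃ c, u = algebraMap k F c := by
  by_contra hu
  push Not at hu
  have ht := FF.transcendental_of_notMem_range hu
  have h1 : ∀ n : ℕ, u ^ n ∈ 𝒞.toCurve.L 0 := fun n => 𝒞.toCurve.mem_L.2 fun P => by
    rw [map_pow]; simpa using pow_le_one' (h P) n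
  have h2 := (Polynomial.basisMonomials k).linearIndependent.map' (Polynomial.aeval u).toLinearMap
    (LinearMap.ker_eq_bot.mpr (transcendental_iff_injective.mp ht))
  have h3 : LinearIndependent k fun n : ℕ => (⟨u ^ n, h1 n⟩ : 𝒞.toCurve.L 0) := by
    refine LinearIndependent.of_comp (𝒞.toCurve.L 0).subtype ?_
    have h4 : ((𝒞.toCurve.L 0).subtype ∘ fun n : ℕ => (⟨u ^ n, h1 n⟩ : 𝒞.toCurve.L 0)) =
        (Polynomial.aeval u).toLinearMap ∘ Polynomial.basisMonomials k := by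
      ext n
      simp [Polynomial.aeval_monomial]
    rw [h4]
    exact h2
  exact Module.Finite.not_linearIndependent_of_infinite _ h3

/-- `a (dx) ^ μ` and `x a (dx) ^ μ` are regular, in terms of the places -/
def RegV (d : Der F) (x a : F) (μ : ℕ) : Prop :=
  ∀ P, ∃ y, 𝒞.v P y ≤ 1 ∧ d.D y ≠ 0 ∧ 𝒞.v P a ≤ 𝒞.v P (d.D y) ^ μ ∧
    𝒞.v P (x * a) ≤ 𝒞.v P (d.D y) ^ μ

lemma regV {d : Der F} {x a : F} {μ : ℕ} (h : Reg k x a μ) (hd : Std k d x) :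
    𝒞.RegV d x a μ := by
  intro P
  obtain ⟨y, h1, h2, h3, h4⟩ := h d hd _ (𝒞.ne_top P) (𝒞.const P)
  have h5 : 0 < 𝒞.v P (d.D y) ^ μ := pow_pos (zero_lt_iff.2 ((𝒞.v P).ne_zero_iff.2 h2)) μ
  rw [Valuation.mem_valuationSubring_iff, map_div₀, map_pow, div_le_one₀ h5] at h3 h4
  exact ⟨y, h1, h2, h3, h4⟩

end FC

end defs

/-- A derivation along `j` that kills the constants and `x` is zero. -/
def SUniq : Prop :=
  ∀ (k F K : Type) [Field k] [CharZero k] [Field F] [Algebra k F] [Field K] (j : F →+* K)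
    (E : F → K) (x : F), Algebra.IsAlgebraic k⟮x⟯ F → (∀ a b, E (a + b) = E a + E b) →
    (∀ a b, E (a * b) = j a * E b + j b * E a) → (∀ c, E (algebraMap k F c) = 0) → E x = 0 →
    ∀ z, E z = 0

/-- A derivation of the constants extends with a prescribed value at `x`. -/
def SDer : Prop :=
  ∀ (k F : Type) [Field k] [CharZero k] [Field F] [Algebra k F] (x : F), Transcendental k x →
    Algebra.IsAlgebraic k⟮x⟯ F → ∀ (d₀ : Der k) (b : F), ∃ d : Der F,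
      (∀ c, d.D (algebraMap k F c) = algebraMap k F (d₀.D c)) ∧ d.D x = b

/-- Derivations and local rings. -/
def SLoc : Prop :=
  ∀ (k F : Type) [Field k] [IsAlgClosed k] [CharZero k] [Field F] [Algebra k F] (𝒞 : FC k F),
    (∀ (d : Der F) (P : 𝒞.Pl) (π : F), Pres k d → 𝒞.v P π = exp (-1) → 𝒞.v P (d.D π) ≤ 1 →
      ∀ u, 𝒞.v P u ≤ 1 → 𝒞.v P (d.D u) ≤ 1) ∧
    ∀ (d : Der F) (x : F), Std k d x →
      (∀ u, d.D u = 0 → ∃ c, u = algebraMap k F c) ∧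
      (∀ P π, 𝒞.v P π = exp (-1) → Coord d (𝒞.v P) π) ∧
      (∀ P y, Coord d (𝒞.v P) y → ∃ c, 𝒞.v P (y - algebraMap k F c) = exp (-1)) ∧
      (∀ P π u (n : ℤ), 𝒞.v P π = exp (-1) → 𝒞.v P u = exp n → n ≠ 0 →
        𝒞.v P (d.D u) = exp (n + 1) * 𝒞.v P (d.D π)) ∧
      ∃ κ : 𝒞.Pl →₀ ℤ, ∀ P π, 𝒞.v P π = exp (-1) → 𝒞.v P (d.D π) = exp (κ P)

/-- Raising the order of vanishing by `n` costs at most `n` linear conditions. -/
def SCut : Prop :=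
  ∀ (k F V : Type) [Field k] [Field F] [Algebra k F] [AddCommGroup V] [Module k V]
    (w : Valuation F ℤᵐ⁰), IsPlace k w → ∀ (f : V →ₗ[k] F) (n : ℕ) (e : ℤ) (W : Submodule k V),
    FiniteDimensional k W → (∀ u ∈ W, w (f u) ≤ exp e) → ∃ W' ≤ W,
      Module.finrank k W ≤ Module.finrank k W' + n ∧ ∀ u ∈ W', w (f u) ≤ exp (e - n)

/-- A regular symmetric differential that vanishes on the poles of `x`. -/
def SSym : Prop :=
  ∀ (k F : Type) [Field k] [IsAlgClosed k] [CharZero k] [Field F] [Algebra k F] (𝒞 : FC k F)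
    (d δ : Der F) (x a : F) (μ : ℕ), Std k d x → δ.D x = 0 → a ≠ 0 → 0 < μ → 𝒞.RegV d x a μ →
    ∃ η : F[X], η ≠ 0 ∧ ∀ P, ∃ y, 𝒞.v P y ≤ 1 ∧ d.D y ≠ 0 ∧ ∀ j,
      𝒞.v P ((η.comp (Polynomial.C (d.D y)⁻¹ * (Polynomial.X - Polynomial.C (δ.D y)))).coeff j) ≤ 1 ∧
      𝒞.v P (x * (η.comp (Polynomial.C (d.D y)⁻¹ *
        (Polynomial.X - Polynomial.C (δ.D y)))).coeff j) ≤ 1

/-- The Wronskian of a linear system. -/
def SWr : Prop :=
  ∀ (k F : Type) [Field k] [IsAlgClosed k] [CharZero k] [Field F] [Algebra k F] (𝒞 : FC k F)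
    (d : Der F) (x : F) (κ : 𝒞.Pl → ℤ), Std k d x →
    (∀ P π, 𝒞.v P π = exp (-1) → 𝒞.v P (d.D π) = exp (κ P)) →
    ∀ (N : ℕ) (V : Submodule k F), FiniteDimensional k V → Module.finrank k V = N →
      ∃ W : F, W ≠ 0 ∧ ∀ (P : 𝒞.Pl) (I : Finset ℤ), I.card = N →
        (∀ i ∈ I, ∃ u ∈ V, 𝒞.v P u = exp i) →
        𝒞.v P W = exp (∑ i ∈ I, i + (N.choose 2 : ℕ) * (1 + κ P))

/-- A derivation without poles has an invariant place. -/
def SInvP : Prop :=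
  ∀ (k F : Type) [Field k] [IsAlgClosed k] [CharZero k] [Field F] [Algebra k F] (𝒞 : FC k F)
    (d D : Der F) (x a : F) (μ : ℕ), Std k d x → Pres k D → a ≠ 0 → 0 < μ → 𝒞.RegV d x a μ →
    (∀ P u, 𝒞.v P u ≤ 1 → 𝒞.v P (D.D u) ≤ 1) → ∃ P, ∀ u, 𝒞.v P (D.D u) ≤ 𝒞.v P u

/-- A derivation without poles and with an invariant place has a first integral. -/
def SFi : Prop :=
  ∀ (k F : Type) [Field k] [IsAlgClosed k] [CharZero k] [Field F] [Algebra k F] (𝒞 : FC k F)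
    (d D : Der F) (x a : F) (μ : ℕ), Std k d x → Pres k D → a ≠ 0 → 0 < μ → 𝒞.RegV d x a μ →
    (∀ P u, 𝒞.v P u ≤ 1 → 𝒞.v P (D.D u) ≤ 1) → ∀ P₀, (∀ u, 𝒞.v P₀ (D.D u) ≤ 𝒞.v P₀ u) →
    ∃ u, D.D u = 0 ∧ ∀ c, u ≠ algebraMap k F c

/-- Local coordinates can be taken in a subfield that generates the field over the constants. -/
def SDesc : Prop :=
  ∀ (k F : Type) [Field k] [IsAlgClosed k] [CharZero k] [Field F] [Algebra k F] (𝒞 : FC k F)
    (d : Der F) (x : F) (K₀ : Subfield k) (F₁ : Subfield F), Std k d x →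
    Algebra.IsAlgebraic K₀ k → (∀ c ∈ K₀, algebraMap k F c ∈ F₁) → x ∈ F₁ →
    (∀ u ∈ F₁, d.D u ∈ F₁) → Subfield.closure (Set.range (algebraMap k F) ∪ F₁) = ⊤ →
    ∃ s : Finset F, x ∈ s ∧ (∀ y ∈ s, y ∈ F₁ ∧ d.D y ≠ 0) ∧ ∀ P, ∃ y ∈ s, Coord d (𝒞.v P) y

/-- An element that lies, with its product by `x`, in all valuation rings at which the total
derivative of a local coordinate is regular. -/
def SAlgY : Prop :=
  ∀ (k F Ω : Type) [Field k] [IsAlgClosed k] [CharZero k] [Field F] [Algebra k F] [Field Ω]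
    (j : F →+* Ω) (dΩ : Der Ω) (d δ : Der F) (x a : F) (μ : ℕ), FF.IsCurveField k F →
    Std k d x → Pres k δ → δ.D x = 0 →
    (∀ z, dΩ.D (j z) = j (δ.D z) + dΩ.D (j x) * j (d.D z)) → a ≠ 0 → 0 < μ → Reg k x a μ →
    ((∀ η : F[X], η.eval₂ j (dΩ.D (j x)) = 0 → η = 0) ∨ ∃ t, dΩ.D (j x) = j t) →
    (∀ u, dΩ.D (j u) = 0 → ∃ c, u = algebraMap k F c) →
    ∃ Y : Ω, Y ≠ 0 ∧ ∀ O : ValuationSubring Ω, (∀ c, j (algebraMap k F c) ∈ O) → ∀ y,
      j y ∈ O → dΩ.D (j y) ∈ O → d.D y ≠ 0 → (∀ z, j z ∈ O → j (d.D z / d.D y) ∈ O) →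
      Y ∈ O ∧ j x * Y ∈ O

section cert

variable {M : Type} [Field M]

/-- `y` or its inverse -/
def sg (b : Bool) (y : M) : M := if b then y else y⁻¹

/-- the derivative of `sg b y`, if `y'` is the derivative of `y` -/
def sg' (b : Bool) (y y' : M) : M := if b then y' else -y' / y ^ 2

/-- the generators of the coordinate ring of a chart -/
def gens {ι : Type} (d : Der M) (y y' : ι → M) (ε : ι → Bool) (α : ι) : Set M :=
  (Set.range fun β => sg (ε β) (y β)) ∪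
    (Set.range fun β => sg' (ε β) (y β) (y' β) / sg' (ε α) (y α) (y' α)) ∪ {d.D (sg (ε α) (y α))}

/-- the certificate for the height bound -/
def Cert [CharZero M] (d : Der M) (G : Set M) (x : M) : Prop :=
  ∃ (n : ℕ) (Y : M) (ι : Type) (_ : Fintype ι) (_ : Nonempty ι) (y y' : ι → M), 0 < n ∧ Y ≠ 0 ∧
    (∀ β, y β ≠ 0 ∧ y' β ≠ 0 ∧ y β ∈ acl (insert x G)) ∧ ∀ ε α,
      IsIntegral (Subring.closure ((Subfield.closure G : Set M) ∪ gens d y y' ε α)) Y ∧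
      IsIntegral (Subring.closure ((Subfield.closure G : Set M) ∪ gens d y y' ε α)) (x ^ n * Y)

end cert

/-- The element of `SAlgY` on the charts given by the coordinates of `SDesc`. -/
def SChart : Prop :=
  ∀ (k F Ω : Type) [Field k] [IsAlgClosed k] [CharZero k] [Field F] [Algebra k F] [Field Ω]
    (j : F →+* Ω) (dΩ : Der Ω) (d δ : Der F) (x a : F) (μ : ℕ) (K₀ : Subfield k)
    (F₁ : Subfield F), FF.IsCurveField k F → Std k d x → Pres k δ → δ.D x = 0 →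
    (∀ z, dΩ.D (j z) = j (δ.D z) + dΩ.D (j x) * j (d.D z)) → a ≠ 0 → 0 < μ → Reg k x a μ →
    ((∀ η : F[X], η.eval₂ j (dΩ.D (j x)) = 0 → η = 0) ∨ ∃ t, dΩ.D (j x) = j t) →
    (∀ u, dΩ.D (j u) = 0 → ∃ c, u = algebraMap k F c) →
    Algebra.IsAlgebraic K₀ k → (∀ c ∈ K₀, algebraMap k F c ∈ F₁) → x ∈ F₁ →
    (∀ u ∈ F₁, d.D u ∈ F₁) → Subfield.closure (Set.range (algebraMap k F) ∪ F₁) = ⊤ →
    ∃ (Y : Ω) (s : Finset F), Y ≠ 0 ∧ x ∈ s ∧ (∀ y ∈ s, y ∈ F₁ ∧ y ≠ 0 ∧ d.D y ≠ 0) ∧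
      ∀ (ε : s → Bool) (α : s) (O : ValuationSubring Ω), (∀ c ∈ K₀, j (algebraMap k F c) ∈ O) →
        (∀ β : s, j (sg (ε β) (β : F)) ∈ O) →
        (∀ β : s, j (sg' (ε β) (β : F) (d.D β) / sg' (ε α) (α : F) (d.D α)) ∈ O) →
        dΩ.D (j (sg (ε α) (α : F))) ∈ O → Y ∈ O ∧ j x * Y ∈ O

/-- Regularity passes to finite extensions. -/
def SRegUp : Prop :=
  ∀ (k F F' : Type) [Field k] [CharZero k] [Field F] [Algebra k F] [Field F'] [Algebra k F']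
    (i : F →ₐ[k] F') (x a : F) (μ : ℕ), Transcendental k x → Algebra.IsAlgebraic k⟮x⟯ F →
    Algebra.IsAlgebraic k⟮i x⟯ F' → Reg k x a μ → Reg k (i x) (i a) μ

/-- From membership in valuation rings of the algebraic closure to integrality of a norm. -/
def SNorm : Prop :=
  ∀ (M Ω : Type) [Field M] [Field Ω] [Algebra M Ω] [Algebra.IsAlgebraic M Ω] (x : M) (Y : Ω),
    Y ≠ 0 → ∃ (n : ℕ) (Y₀ : M), 0 < n ∧ Y₀ ≠ 0 ∧ ∀ s : Set M,
      (∀ O : ValuationSubring Ω, (∀ u ∈ s, algebraMap M Ω u ∈ O) →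
        Y ∈ O ∧ algebraMap M Ω x * Y ∈ O) →
      IsIntegral (Subring.closure s) Y₀ ∧ IsIntegral (Subring.closure s) (x ^ n * Y₀)

/-- The certificate exists. -/
def SCert : Prop :=
  ∀ (M Ω : Type) [Field M] [CharZero M] [Field Ω] [CharZero Ω] [IsAlgClosed Ω] [Algebra M Ω]
    [Algebra.IsAlgebraic M Ω] (d : Der M) (G : Set M) (Γ : Finset M) (x a : M) (μ : ℕ)
    (κ : Subfield Ω) (F : IntermediateField κ Ω) (x' a' : F),
    κ = acl (algebraMap M Ω '' G) →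
    F = IntermediateField.adjoin κ (algebraMap M Ω '' (Γ : Set M)) →
    (x' : Ω) = algebraMap M Ω x → (a' : Ω) = algebraMap M Ω a → (∀ g ∈ G, d.D g ∈ acl G) →
    x ∈ Γ → x ∉ acl G → (∀ y ∈ Γ, y ∈ acl (insert x G)) → a ≠ 0 → 0 < μ → Reg κ x' a' μ →
    x ∉ acl (G ∪ {c | d.D c = 0}) → Cert d G x

/-- A nontrivial rotation that fixes a germ of order at least two. -/
def SRot : Prop :=
  ∀ (f : MG) (e : ℤ), 2 ≤ e → f.ord = e → ∃ R : ℂ → ℂ, AnalyticAt ℂ R 0 ∧ R 0 = 0 ∧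
    deriv R 0 ≠ 0 ∧ deriv R 0 ≠ 1 ∧ f.rep ∘ R =ᶠ[nhdsWithin 0 {0}ᶜ] f.rep

/-- Regularity from the expansions at the points of a compact curve. -/
def SL2A : Prop :=
  ∀ (k F Pt : Type) [Field k] [IsAlgClosed k] [CharZero k] [Field F] [Algebra k F]
    (j : Pt → F →+* MG) (x a : F) (μ : ℕ), FF.IsCurveField k F →
    (∀ p c, ∃ z, j p (algebraMap k F c) = MG.const z) →
    (∀ u, (∀ p, j p u ∈ MG.O) → ∃ c, u = algebraMap k F c) →
    (∀ p (R : ℂ → ℂ), AnalyticAt ℂ R 0 → R 0 = 0 → deriv R 0 ≠ 0 →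
      (∀ u, (j p u).rep ∘ R =ᶠ[nhdsWithin 0 {0}ᶜ] (j p u).rep) →
      ∀ᶠ ξ in nhdsWithin 0 {0}ᶜ, R ξ = ξ) →
    (∀ p, MG.D (j p x) ≠ 0 ∧ j p a * MG.D (j p x) ^ μ ∈ MG.O ∧
      j p x * j p a * MG.D (j p x) ^ μ ∈ MG.O) → Reg k x a μ

/-- expansions of the model functions at the points of a fibre -/
structure Fib {ι : Type} (iu ix ia : ι) (μ : ℕ) where
  Pt : Type
  p₀ : Pt
  ξ : Pt → ι → MG
  u₀ : ℂ
  hu : ∀ p, ξ p iu = MG.const u₀
  ker : ∀ p (P : MvPolynomial ι ℂ), P.eval₂ MG.const (ξ p) = 0 ↔ P.eval₂ MG.const (ξ p₀) = 0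
  max : ∀ P Q : MvPolynomial ι ℂ, (∀ p, P.eval₂ MG.const (ξ p) / Q.eval₂ MG.const (ξ p) ∈ MG.O) →
    ∃ p c, P.eval₂ MG.const (ξ p) / Q.eval₂ MG.const (ξ p) = MG.const c
  inj : ∀ p (R : ℂ → ℂ), AnalyticAt ℂ R 0 → R 0 = 0 → deriv R 0 ≠ 0 →
    (∀ i, (ξ p i).rep ∘ R =ᶠ[nhdsWithin 0 {0}ᶜ] (ξ p i).rep) → ∀ᶠ t in nhdsWithin 0 {0}ᶜ, R t = t
  reg : ∀ p, MG.D (ξ p ix) ≠ 0 ∧ ξ p ia * MG.D (ξ p ix) ^ μ ∈ MG.O ∧
    ξ p ix * ξ p ia * MG.D (ξ p ix) ^ μ ∈ MG.O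

/-- Two homomorphisms with the same kernel differ by an embedding. -/
def SEmb : Prop :=
  (∀ (A F K : Type) [CommRing A] [Field F] [Field K] (f : A →+* F) (g : A →+* K),
    (∀ P, f P = 0 ↔ g P = 0) → (∀ u : F, ∃ P Q, u = f P / f Q) →
    ∃ j : F →+* K, ∀ P, j (f P) = g P) ∧
  ∀ (A F K : Type) [CommRing A] [Field F] [CharZero F] [Field K] [IsAlgClosed K] (f : A →+* F)
    (g : A →+* K), (∀ P, f P = 0 ↔ g P = 0) → (∀ u : F, u ∈ acl (Set.range f)) →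
    ∃ j : F →+* K, ∀ P, j (f P) = g P

/-- Regularity in the function field of the generic fibre. -/
def SL2B : Prop :=
  ∀ (ι Ω : Type) [Fintype ι] [Field Ω] [CharZero Ω] [IsAlgClosed Ω] (iu ix ia : ι) (μ : ℕ)
    (Φ : Fib iu ix ia μ) (c : ℂ →+* Ω) (ζ : ι → Ω) (k₀ : Subfield ℂ) (κ : Subfield Ω)
    (F : IntermediateField κ Ω) (x' a' : F), κ = acl (insert (ζ iu) (c '' k₀)) →
    F = IntermediateField.adjoin κ (Set.range ζ) → (x' : Ω) = ζ ix → (a' : Ω) = ζ ia →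
    ζ ix ∉ κ → (∀ i, ζ i ∈ acl (insert (ζ ix) (κ : Set Ω))) →
    (∀ P : MvPolynomial ι k₀, (P.map k₀.subtype).eval₂ c ζ = 0 ↔
      (P.map k₀.subtype).eval₂ MG.const (Φ.ξ Φ.p₀) = 0) → Reg κ x' a' μ

end Pool.Agent.P.MP_7ede32_ag.Full
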