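import Pool.Agent.P.MP_7ede32_ag.Full.StA
import Pool.Agent.P.MP_7ede32_ag.NLdl2

/-!
The steps in the complex plane, as propositions.
-/

open Filter Topology Metric Set ValueDistribution MeromorphicOn
open scoped Real

noncomputable section

namespace Pool.Agent.P.MP_7ede32_ag.Full

/-- the characteristic function -/
def Tm (f : Mer) (r : ℝ) : ℝ := characteristic f.rep ⊤ r

/-- the order of the pole -/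
def po (f : Mer) (z : ℂ) : ℤ := (divisor f.rep univ)⁻ z

/-- the characteristic function at the radii `ρ j` is bounded by a multiple of `τ j` -/
def Bd {J : Type} (ρ τ : J → ℝ) (g : Mer) : Prop := ∃ C : ℝ, ∀ j, Tm g (ρ j) ≤ C * τ j

/-- `M` bounds the oscillation of `φ` on the disc of radius `R` -/
def Mx (φ : ℂ → ℂ) (R M : ℝ) : Prop := ∀ z, ‖z‖ ≤ R → ‖φ z - φ 0‖ ≤ M

/-- the height bound -/
def HB (g φ : ℂ → ℂ) : Prop :=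
  ∃ C : ℝ, ∀ r R M : ℝ, 1 ≤ r → r < R → 1 ≤ M → Mx φ R M →
    characteristic g ⊤ r ≤ C * (M ^ 2 + R / (R - r))

/-- the height bound without loss in the radius -/
def Bd0 (g φ : ℂ → ℂ) : Prop :=
  ∃ C : ℝ, ∀ R M : ℝ, 1 ≤ R → 1 ≤ M → Mx φ R M → characteristic g ⊤ R ≤ C * M ^ 2

/-- Pointwise bounds for an integral element. -/
def SInt : Prop :=
  ∀ (A : Set Mer) (Y : Mer), IsIntegral (Subring.closure A) Y → ∃ (s : Finset Mer) (C : ℕ),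
    (s : Set Mer) ⊆ A ∧
    (∀ᶠ z in codiscrete ℂ, log⁺ ‖Y.rep z‖ ≤ C * (1 + ∑ a ∈ s, log⁺ ‖a.rep z‖)) ∧
    ∀ z, po Y z ≤ C * ∑ a ∈ s, po a z

/-- Functions with bounded characteristic form an algebraically closed subfield. -/
def SBd : Prop :=
  ∀ (J : Type) (ρ τ : J → ℝ), (∀ j, 1 ≤ ρ j) → (∀ j, 1 ≤ τ j) →
    (∀ c, Bd ρ τ (Mer.const c)) ∧ ∀ G : Set Mer, (∀ g ∈ G, Bd ρ τ g) → ∀ g ∈ acl G, Bd ρ τ g

/-- The tautological inequality. -/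
def SHb1 : Prop :=
  ∀ (c Y : Mer) (A : Set Mer) (ι : Type) [Fintype ι] [Nonempty ι] (y y' : ι → Mer),
    (∀ β, y β ≠ 0 ∧ y' β ≠ 0) →
    (∀ ε α, IsIntegral (Subring.closure (A ∪ gens (Mer.derM c) y y' ε α)) Y) →
    ∃ (s : Finset Mer) (C : ℝ), (s : Set Mer) ⊆ A ∧ 0 ≤ C ∧ ∀ r, 1 ≤ r → Tm Y r ≤
      C * (1 + ∑ a ∈ s, Tm a r + ∑ β, proximity (logDeriv (y β).rep) ⊤ r + Tm c r)

/-- The lemma on the logarithmic derivative. -/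
def SLdl : Prop :=
  ∀ (ι : Type) [Fintype ι] (y : ι → Mer), (∀ β, y β ≠ 0) → ∃ C : ℝ, ∀ a ρ : ℝ, 1 ≤ a → a < ρ →
    ∃ r, a ≤ r ∧ r ≤ (a + ρ) / 2 ∧ ∀ β, proximity (logDeriv (y β).rep) ⊤ r ≤
      C + 5 * Real.log (∑ γ, Tm (y γ) ρ + ρ / (ρ - a))

/-- Removing the logarithmic term. -/
def SBoot : Prop :=
  ∀ C : ℝ, ∃ C' : ℝ, ∀ (T : ℝ → ℝ) (A B r R : ℝ), 1 ≤ r → r < R → 1 ≤ A →
    (∀ s ∈ Icc r R, 0 ≤ T s ∧ T s ≤ B) →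
    (∀ a ρ, r ≤ a → a < ρ → ρ ≤ R → T a ≤ C * (A + Real.log (A + T ρ + ρ / (ρ - a)))) →
    T r ≤ C' * (A + R / (R - r))

/-- The height bound from a certificate. -/
def SHba : Prop :=
  ∀ (φ : ℂ → ℂ) (p x : Mer) (G : Set Mer), Differentiable ℂ φ →
    p.rep =ᶠ[codiscrete ℂ] deriv φ → p ≠ 0 → Cert (Mer.derM p⁻¹) G x →
    (∀ g ∈ G, Bd0 g.rep φ) → HB x.rep φ

/-- The characteristic function of a quotient. -/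
def SQuo : Prop :=
  ∀ (g P A : ℂ → ℂ) (R L : ℝ), Meromorphic g → AnalyticOnNhd ℂ P (closedBall 0 R) →
    AnalyticOnNhd ℂ A (closedBall 0 R) → 1 ≤ R → (∀ᶠ z in 𝓝[≠] 0, g z * P z = A z) → P 0 ≠ 0 →
    (∀ z ∈ sphere (0 : ℂ) R, ‖P z‖ ≤ Real.exp L ∧ ‖A z‖ ≤ Real.exp L) →
    characteristic g ⊤ R ≤ L - Real.log ‖P 0‖

/-- Jensen's inequality with a set of angles on which the function is small. -/
def SJen : Prop :=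
  ∀ (g P A : ℂ → ℂ) (r L K m η : ℝ) (J : Set ℝ), Meromorphic g → AnalyticAt ℂ g 0 →
    AnalyticOnNhd ℂ P (closedBall 0 r) → AnalyticOnNhd ℂ A (closedBall 0 r) → 1 ≤ r → 0 ≤ L →
    0 ≤ K → g 0 * P 0 - A 0 ≠ 0 →
    (∀ z ∈ sphere (0 : ℂ) r, ‖P z‖ ≤ Real.exp L ∧ ‖A z‖ ≤ Real.exp L) → MeasurableSet J →
    J ⊆ Ioc η (η + 2 * π) → m ≤ MeasureTheory.volume.real J →
    (∀ θ ∈ J, ‖g (circleMap 0 r θ) * P (circleMap 0 r θ) - A (circleMap 0 r θ)‖ ≤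
      Real.exp (-K)) →
    Real.log ‖g 0 * P 0 - A 0‖ ≤ characteristic g ⊤ r + L + Real.log 2 - K * m / (2 * π)

/-- every point is within `R` of `P` -/
def Net (P : Set ℂ) (R : ℝ) : Prop := ∀ w, ∃ p ∈ P, dist w p ≤ R

/-- Many separated points of a net. -/
def SGrid : Prop :=
  ∀ (P : Set ℂ) (R : ℝ), Net P R → ∀ (z : ℂ) (k : ℕ), ∃ Z : Finset ℂ, Z.card = k ^ 2 ∧
    (∀ p ∈ Z, p ∈ P ∧ dist p z ≤ 7 * (R + 1) * (k + 1)) ∧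
    ∀ p ∈ Z, ∀ p' ∈ Z, p ≠ p' → R ≤ dist p p'

/-- Counting the points of a separated set. -/
def SCnt : Prop :=
  ∀ θ > 0, ∃ C : ℝ, 0 ≤ C ∧ ∀ S : Set ℂ, (∀ c ∈ S, ∀ c' ∈ S, c ≠ c' → θ ≤ dist c c') →
    ∀ (w : ℂ) (t : ℝ), 1 ≤ t → ∃ F : Finset ℂ, (∀ c, c ∈ F ↔ c ∈ S ∧ dist c w ≤ t) ∧
      (F.card : ℝ) ≤ C * t ^ 2 ∧ ((∀ c ∈ F, θ ≤ dist c w) → ∑ c ∈ F, 1 / dist c w ≤ C * t)

/-- a family of separated discs -/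
structure Discs where
  C : Set ℂ
  r : ℂ → ℝ
  θ : ℝ
  rm : ℝ
  θ_pos : 0 < θ
  rm_nonneg : 0 ≤ rm
  le_r : ∀ c ∈ C, 2 * θ ≤ r c
  r_le : ∀ c ∈ C, r c ≤ rm
  sep : ∀ c ∈ C, ∀ c' ∈ C, c ≠ c' → r c + r c' + 2 * θ ≤ dist c c'

namespace Discs

variable (D : Discs)

/-- the complement of the open discs of radii `r c + t` -/
def G (t : ℝ) : Set ℂ := {w | ∀ c ∈ D.C, D.r c + t ≤ dist w c}

/-- the complement of the closed discs of radii `r c - 2 θ` -/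
def Go : Set ℂ := {w | ∀ c ∈ D.C, D.r c - 2 * D.θ < dist w c}

/-- `p` is a period -/
def Per (p : ℂ) : Prop := ∀ c ∈ D.C, c + p ∈ D.C ∧ D.r (c + p) = D.r c

lemma G_subset_Go : D.G 0 ⊆ D.Go := fun _ hw c hc => by linarith [hw c hc, D.θ_pos]

lemma Go_subset_G : D.Go ⊆ D.G (-(2 * D.θ)) := fun _ hw c hc => by linarith [hw c hc]

lemma mem_G {c w : ℂ} {t : ℝ} (hc : c ∈ D.C) (h1 : D.r c + t ≤ dist w c)
    (h2 : dist w c ≤ D.r c + 2 * D.θ - t) : w ∈ D.G t := fun c' hc' => by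
  rcases eq_or_ne c c' with rfl | h
  · exact h1
  · linarith [D.sep c hc c' hc' h, dist_triangle_left c c' w]

lemma mem_Go {c w : ℂ} (hc : c ∈ D.C) (h1 : D.r c - 2 * D.θ < dist w c)
    (h2 : dist w c ≤ D.r c + 2 * D.θ) : w ∈ D.Go := fun c' hc' => by
  rcases eq_or_ne c c' with rfl | h
  · exact h1
  · linarith [D.sep c hc c' hc' h, dist_triangle_left c c' w, D.θ_pos]

lemma isClosed_G (t : ℝ) : IsClosed (D.G t) := by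
  simp only [G, ofPred_forall]
  exact isClosed_iInter fun c => isClosed_iInter fun _ =>
    isClosed_le continuous_const (by fun_prop)

lemma isOpen_Go : IsOpen D.Go := by
  refine Metric.isOpen_iff.2 fun w hw => ?_
  by_cases h : ∃ c ∈ D.C, dist w c < D.r c
  · obtain ⟨c, hc, h⟩ := h
    refine ⟨min D.θ (dist w c - (D.r c - 2 * D.θ)), lt_min D.θ_pos (sub_pos.2 (hw c hc)),
      fun z hz => D.mem_Go hc ?_ ?_⟩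
    · linarith [(lt_min_iff.1 (mem_ball.1 hz)).2, dist_triangle_left w c z]
    · linarith [(lt_min_iff.1 (mem_ball.1 hz)).1, dist_triangle z w c, D.θ_pos]
  · push Not at h
    exact ⟨D.θ, D.θ_pos, fun z hz c hc => by
      linarith [h c hc, mem_ball.1 hz, dist_triangle_left w c z, D.θ_pos]⟩

end Discs

/-- the polynomial with roots `s` and multiplicities `n` -/
def pr (s : Finset ℂ) (n : ℂ → ℕ) (w : ℂ) : ℂ := ∏ α ∈ s, (w - α) ^ n α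

/-- Laurent decomposition, and approximation of the principal part by a rational function. -/
def SLaur : Prop :=
  ∀ (c : ℂ) (r θ M ε : ℝ) (e A : ℂ → ℂ) (s : Finset ℂ) (n : ℂ → ℕ), 0 < θ → 2 * θ ≤ r →
    DifferentiableOn ℂ e {w | r - 2 * θ < dist w c ∧ dist w c < r + θ} →
    (∀ w ∈ sphere c (r - θ), ‖e w‖ ≤ M) → DifferentiableOn ℂ A (ball c r) →
    (∀ w ∈ sphere c (r - θ), pr s n w ≠ 0 ∧ ‖A w / pr s n w - e w‖ ≤ ε) →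
    ∃ P H R : ℂ → ℂ, DifferentiableOn ℂ P {w | r - θ < dist w c} ∧
      DifferentiableOn ℂ H (ball c (r + θ)) ∧ Differentiable ℂ R ∧
      (∀ w, r - θ < dist w c → dist w c < r + θ → e w = H w + P w) ∧
      ∀ w, r ≤ dist w c → ‖P w‖ ≤ M * r / θ ∧ ‖R w - pr s n w * P w‖ ≤ ε * r / θ * ‖pr s n w‖

/-- Subtracting the principal parts gives a holomorphic function. -/
def SCous : Prop :=
  ∀ (D : Discs) (e : ℂ → ℂ) (M M' lam : ℝ) (w₀ : ℂ) (F : Finset ℂ) (P H : ℂ → ℂ → ℂ),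
    DifferentiableOn ℂ e D.Go → (∀ w ∈ D.Go, ‖e w‖ ≤ M) →
    (∀ c, c ∈ F ↔ c ∈ D.C ∧ dist c w₀ ≤ lam + D.rm) →
    (∀ c ∈ F, DifferentiableOn ℂ (P c) {w | D.r c - D.θ < dist w c} ∧
      DifferentiableOn ℂ (H c) (ball c (D.r c + D.θ)) ∧
      (∀ w, D.r c - D.θ < dist w c → dist w c < D.r c + D.θ → e w = H c w + P c w) ∧
      ∀ w, D.r c ≤ dist w c → ‖P c w‖ ≤ M') →
    ∃ K : ℂ → ℂ, DifferentiableOn ℂ K (ball w₀ lam) ∧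
      (∀ w ∈ ball w₀ lam, ‖K w‖ ≤ M + F.card * M') ∧
      ∀ w ∈ D.G 0, K w = e w - ∑ c ∈ F, P c w

/-- on the disc at `c` the function `e` is `ε`-close to a quotient with at most `N` poles -/
def Appr (D : Discs) (e : ℂ → ℂ) (N ε : ℝ) (c : ℂ) : Prop :=
  ∃ (s : Finset ℂ) (n : ℂ → ℕ) (A : ℂ → ℂ), (∀ α ∈ s, dist α c ≤ D.r c - 2 * D.θ) ∧
    ((∑ α ∈ s, n α : ℕ) : ℝ) ≤ N ∧ DifferentiableOn ℂ A (ball c (D.r c)) ∧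
    ∀ w ∈ sphere c (D.r c - D.θ), ‖A w / pr s n w - e w‖ ≤ ε

/-- Approximation by a quotient of holomorphic functions on a large disc. -/
def SApx : Prop :=
  ∀ (D : Discs) (e : ℂ → ℂ) (M : ℝ), DifferentiableOn ℂ e D.Go → (∀ w ∈ D.Go, ‖e w‖ ≤ M) →
    ∃ C : ℝ, 0 ≤ C ∧ ∀ (w₀ : ℂ) (lam N ε : ℝ), w₀ ∈ D.G 0 → 1 ≤ lam → 0 ≤ N → 0 ≤ ε → ε ≤ 1 →
      (∀ c ∈ D.C, Appr D e N ε c) → ∃ P E : ℂ → ℂ, DifferentiableOn ℂ P (ball w₀ lam) ∧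
        DifferentiableOn ℂ E (ball w₀ lam) ∧
        Real.exp (-(C * (N + 1) * lam ^ 2)) ≤ ‖P w₀‖ ∧ ∀ w ∈ ball w₀ lam,
          ‖P w‖ ≤ Real.exp (C * (N + 1) * lam ^ 2) ∧ ‖E w‖ ≤ Real.exp (C * (N + 1) * lam ^ 2) ∧
          (w ∈ D.G 0 → ‖e w * P w - E w‖ ≤ ε * Real.exp (C * (N + 1) * lam ^ 2))

/-- The height of the Weierstrass function along `φ`. -/
def SG4 : Prop :=
  ∀ (L : PeriodPair) (φ : ℂ → ℂ), Differentiable ℂ φ → φ 0 ∉ L.lattice →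
    Bd0 (L.weierstrassP ∘ φ) φ

/-- a truncated half-plane -/
def Cap (u c : ℂ) (a b : ℝ) : Set ℂ :=
  {w | a < (starRingEnd ℂ u * (w - c)).re ∧ ‖w - c‖ < b}

/-- A bounded function that vanishes on a net is very small. -/
def SCap : Prop :=
  ∀ R : ℝ, ∃ ρ > 0, ∀ (Θ : ℂ → ℂ) (u c : ℂ) (a b : ℝ) (P : Set ℂ), ‖u‖ = 1 → 0 ≤ a → 2 * ρ ≤ b →
    Net P R → DifferentiableOn ℂ Θ (Cap u c a b) → (∀ w ∈ Cap u c a b, ‖Θ w‖ ≤ 2) →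
    (∀ p ∈ P ∩ Cap u c a b, Θ p = 0) → ∀ w ∈ Cap u c a b, ‖Θ w‖ ≤ 2 * Real.exp
      ((‖w - c‖ ^ 2 - b / 4 * ((starRingEnd ℂ u * (w - c)).re - a - ρ)) / ρ ^ 2)

/-- the Wiman-Valiron disc of `φ` at `z₁` with an inverse branch `Ψ` -/
structure WV (φ : ℂ → ℂ) (z₁ : ℂ) (l a E : ℝ) (Ψ : ℂ → ℂ) : Prop where
  hl : l = ‖φ z₁ - φ 0‖
  one_le : 1 ≤ a
  mx : Mx φ (‖z₁‖ * (1 + 5 / a)) (l * Real.exp 6)
  inv : ∀ w, 1 / 4 ≤ ((w - φ 0) / (φ z₁ - φ 0)).re → ‖w - φ 0‖ ≤ l * E →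
    DifferentiableAt ℂ Ψ w ∧ φ (Ψ w) = w
  left : ∀ z, ‖z - z₁‖ ≤ ‖z₁‖ / a / 20 → Ψ (φ z) = z
  near : ∀ w ∈ ball (φ z₁) (l / 200), ‖Ψ w - z₁‖ ≤ ‖z₁‖ / a / 30

lemma WV.inv_ball {φ Ψ : ℂ → ℂ} {z₁ : ℂ} {l a E : ℝ} (h : WV φ z₁ l a E Ψ) (hE : 2 ≤ E) {w : ℂ}
    (hw : w ∈ ball (φ z₁) (l / 200)) : DifferentiableAt ℂ Ψ w ∧ φ (Ψ w) = w := by
  have h1 : ‖w - φ z₁‖ < l / 200 := by rwa [mem_ball, dist_eq_norm] at hw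
  have h2 : 0 < l := by linarith [norm_nonneg (w - φ z₁)]
  have h3 : φ z₁ - φ 0 ≠ 0 := norm_pos_iff.1 (h.hl ▸ h2)
  refine h.inv w ?_ ?_
  · have h4 : (w - φ 0) / (φ z₁ - φ 0) = 1 + (w - φ z₁) / (φ z₁ - φ 0) := by field_simp; ring
    have h5 : ‖(w - φ z₁) / (φ z₁ - φ 0)‖ ≤ 1 / 2 := by
      rw [norm_div, ← h.hl, div_le_iff₀ h2]; linarith
    rw [h4, Complex.add_re, Complex.one_re]
    linarith [(abs_le.1 ((Complex.abs_re_le_norm _).trans h5)).1]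
  · have h4 := norm_add_le (w - φ z₁) (φ z₁ - φ 0)
    rw [sub_add_sub_cancel, ← h.hl] at h4
    nlinarith

/-- Wiman-Valiron discs exist. -/
def SWv : Prop :=
  ∀ φ : ℂ → ℂ, Differentiable ℂ φ → (∃ z, φ z ≠ φ 0) → ∀ C r₀ : ℝ, ∃ z₁ l a E Ψ,
    WV φ z₁ l a E Ψ ∧ r₀ ≤ ‖z₁‖ ∧ r₀ ≤ l ∧ C * a ^ 3 ≤ E

/-- A circle that is mapped into a net of discs for a definite set of angles. -/
def SArc : Prop :=
  ∀ ρ₀ > 0, ∀ R₀ : ℝ, ∃ c₀ > 0, ∃ r₀ : ℝ, ∀ (φ Ψ : ℂ → ℂ) (z₁ : ℂ) (l a E : ℝ) (T : Set ℂ),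
    Differentiable ℂ φ → WV φ z₁ l a E Ψ → 2 ≤ E → r₀ ≤ l → z₁ ≠ 0 →
    Net {p | ball p ρ₀ ⊆ T} R₀ → ∃ (r η : ℝ) (J : Set ℝ), |r - ‖z₁‖| ≤ ‖z₁‖ / a / 20 ∧
      MeasurableSet J ∧ J ⊆ Ioc η (η + 2 * π) ∧ c₀ / a ≤ MeasureTheory.volume.real J ∧
      ∀ θ ∈ J, φ (circleMap 0 r θ) ∈ T ∩ ball (φ z₁) (l / 200) ∧
        Ψ (φ (circleMap 0 r θ)) = circleMap 0 r θ

/-- Clearing the poles in a disc. -/
def SRep : Prop :=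
  ∀ (m : ℂ → ℂ) (c : ℂ) (ρ r : ℝ), ρ < r → MeromorphicOn m (ball c r) →
    (∀ w ∈ ball c r, ρ < dist w c → AnalyticAt ℂ m w) →
    ∃ (s : Finset ℂ) (n : ℂ → ℕ) (A : ℂ → ℂ),
      (∀ α ∈ s, dist α c ≤ ρ ∧ meromorphicOrderAt m α = (-(n α : ℤ) : ℤ)) ∧
      DifferentiableOn ℂ A (ball c r) ∧ ∀ w ∈ ball c r, ρ < dist w c → A w = m w * pr s n w

/-- A disc with few poles. -/
def SPole : Prop :=
  ∀ R₀ rm : ℝ, ∃ C r₀ : ℝ, 0 ≤ C ∧ ∀ (φ Ψ g : ℂ → ℂ) (z₁ : ℂ) (l a E T ρ r : ℝ) (P : Set ℂ),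
    Differentiable ℂ φ → WV φ z₁ l a E Ψ → 2 ≤ E → r₀ ≤ l → 1 ≤ ‖z₁‖ → Meromorphic g →
    characteristic g ⊤ (‖z₁‖ * (1 + 2 / a)) ≤ T → Net P R₀ → ρ < r → r ≤ rm →
    (∀ p ∈ P, ∀ w ∈ ball (φ z₁) (l / 200), ρ < dist w p → dist w p < r → AnalyticAt ℂ g (Ψ w)) →
    ∃ p ∈ P, ball p r ⊆ ball (φ z₁) (l / 200) ∧ ∃ (s : Finset ℂ) (n : ℂ → ℕ) (A : ℂ → ℂ),
      (∀ α ∈ s, dist α p ≤ ρ) ∧ ((∑ α ∈ s, n α : ℕ) : ℝ) ≤ C * a * T / l ^ 2 ∧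
      DifferentiableOn ℂ A (ball p r) ∧
      ∀ w ∈ ball p r, ρ < dist w p → A w = g (Ψ w) * pr s n w

/-- Discs around the bad values and around a periodic discrete set. -/
def SDiscs : Prop :=
  ∀ (Λ : Submodule ℤ ℂ) (R₀ δ : ℝ) (B N : Set ℂ) (w₀ : ℂ), Net Λ R₀ → 0 < δ →
    (∀ c ∈ B, ∀ c' ∈ B, c ≠ c' → 4 * δ ≤ dist c c') → (∀ p ∈ Λ, ∀ c ∈ B, c + p ∈ B) →
    (∀ p ∈ Λ, ∀ c ∈ N, c + p ∈ N) →
    (∀ w, (∀ c ∈ B, δ / 2 < dist w c) → ∀ᶠ z in 𝓝[≠] w, z ∉ N) → w₀ ∉ N →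
    (∀ c ∈ B, δ ≤ dist w₀ c) → ∃ D : Discs, (∀ p ∈ Λ, D.Per p) ∧ w₀ ∈ D.G 0 ∧
      ∀ w ∈ D.G (-(2 * D.θ)), w ∉ N ∧ ∀ c ∈ B, 3 * δ / 5 ≤ dist w c

/-- A function with the height bound is not very close to a periodic function of `φ`. -/
def SJMain : Prop :=
  ∀ (D : Discs) (Pd : Set ℂ) (R₀ M κ : ℝ) (e g φ : ℂ → ℂ), 0 < κ → Net Pd R₀ →
    (∀ p ∈ Pd, D.Per p ∧ ∀ w ∈ D.Go, e (w + p) = e w) → DifferentiableOn ℂ e D.Go →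
    (∀ w ∈ D.Go, ‖e w‖ ≤ M) → Differentiable ℂ φ → Meromorphic g → HB g φ → AnalyticAt ℂ g 0 →
    φ 0 ∈ D.G 0 → g 0 ≠ e (φ 0) → ∃ C r₀ : ℝ, ∀ z₁ l a E Ψ, WV φ z₁ l a E Ψ → r₀ ≤ ‖z₁‖ →
      r₀ ≤ l → C * a ^ 3 ≤ E → ¬ ∀ w ∈ D.Go ∩ ball (φ z₁) (l / 200),
        AnalyticAt ℂ g (Ψ w) ∧ ‖g (Ψ w) - e w‖ ≤ Real.exp (-(κ * l ^ 2 * E))

end Pool.Agent.P.MP_7ede32_ag.Full
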